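import Pool.Agent.H49.D.DC

set_option autoImplicit false

/-! From the mean square to almost every parameter, with a power saving. -/

namespace Pool.Agent.H49.DM

open Finset MeasureTheory Filter Topology
open scoped ENNReal
open Pool.Agent.H376R2.MR (er)

theorem ev_pow (c e : ℝ) (he : 0 < e) : ∀ᶠ N : ℕ in atTop, c ≤ (N : ℝ) ^ e :=
  ((tendsto_rpow_atTop he).comp tendsto_natCast_atTop_atTop).eventually_ge_atTop c

/-- the deterministic lemma -/
theorem det (S : ℕ → ℂ) (δ C : ℝ) (hδ0 : 0 < δ) (hδ1 : δ ≤ 1) (hC : 0 < C)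
    (hS : ∀ N : ℕ, ‖S (N + 1) - S N‖ ≤ C * ((N : ℝ) + 2) ^ (δ / 32))
    (hsum : Summable fun N : ℕ => (N : ℝ) ^ (-3 + δ / 2) * ‖S N‖ ^ 2) :
    ∃ K : ℝ, ∀ N : ℕ, 1 ≤ N → ‖S N‖ ≤ K * (N : ℝ) ^ (1 - δ / 8) := by
  have hdiff : ∀ N j : ℕ, 2 ≤ N → j ≤ N → ‖S (N + j) - S N‖ ≤ j * (C * (4 * (N : ℝ) ^ (δ / 32))) := by
    intro N j hN
    have hN2 : (2 : ℝ) ≤ N := by exact_mod_cast hN
    induction j with
    | zero => intro _; simp
    | succ j ih =>
      intro hj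
      have h1 := hS (N + j)
      have h2 : S (N + (j + 1)) - S N = (S (N + j + 1) - S (N + j)) + (S (N + j) - S N) := by
        rw [← add_assoc]
        ring
      rw [h2]
      refine (norm_add_le _ _).trans ?_
      have h3 := ih (by omega)
      have hj' : (j : ℝ) + 1 ≤ N := by exact_mod_cast hj
      have h4 : (((N + j : ℕ) : ℝ) + 2) ^ (δ / 32) ≤ 4 * (N : ℝ) ^ (δ / 32) := by
        calc (((N + j : ℕ) : ℝ) + 2) ^ (δ / 32) ≤ (4 * (N : ℝ)) ^ (δ / 32) := by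
              apply Real.rpow_le_rpow (by positivity) _ (by positivity)
              push_cast
              linarith
          _ = (4 : ℝ) ^ (δ / 32) * (N : ℝ) ^ (δ / 32) := Real.mul_rpow (by norm_num) (by positivity)
          _ ≤ (4 : ℝ) ^ (1 : ℝ) * (N : ℝ) ^ (δ / 32) := by
              apply mul_le_mul_of_nonneg_right _ (by positivity)
              exact rpow_mono (by norm_num) (by linarith)
          _ = _ := by rw [Real.rpow_one]
      have h5 : C * (((N + j : ℕ) : ℝ) + 2) ^ (δ / 32) ≤ C * (4 * (N : ℝ) ^ (δ / 32)) :=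
        mul_le_mul_of_nonneg_left h4 hC.le
      push_cast
      calc ‖S (N + j + 1) - S (N + j)‖ + ‖S (N + j) - S N‖ ≤
            C * (4 * (N : ℝ) ^ (δ / 32)) + j * (C * (4 * (N : ℝ) ^ (δ / 32))) := add_le_add (h1.trans h5) h3
        _ = _ := by ring
  have e1 : ∀ᶠ N : ℕ in atTop, ∑' M : ℕ, (((M + N : ℕ) : ℝ) ^ (-3 + δ / 2) * ‖S (M + N)‖ ^ 2) < 1 :=
    (tendsto_sum_nat_add fun N : ℕ => (N : ℝ) ^ (-3 + δ / 2) * ‖S N‖ ^ 2).eventually_lt_const one_pos
  obtain ⟨Y0, hY0⟩ : ∃ Y0 : ℝ, Y0 = 8 * (C + 1) := ⟨_, rfl⟩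
  have hY00 : 0 < Y0 := by rw [hY0]; positivity
  have e2 := ev_pow Y0 (1 - δ / 8 - δ / 32) (by linarith)
  have e3 := ev_pow (2 * Y0 * 32) (3 * δ / 32) (by linarith)
  have e4 : ∀ᶠ N : ℕ in atTop, 2 ≤ N := eventually_ge_atTop 2
  have main : ∀ᶠ N : ℕ in atTop, ‖S N‖ ≤ (N : ℝ) ^ (1 - δ / 8) := by
    filter_upwards [e1, e2, e3, e4] with N h1 h2 h3 h4
    by_contra hcon
    push Not at hcon
    have hN2 : (2 : ℝ) ≤ N := by exact_mod_cast h4
    have hN1 : (1 : ℝ) ≤ N := by linarith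
    have hN0 : (0 : ℝ) < N := by linarith
    obtain ⟨Y, hY⟩ : ∃ Y : ℝ, Y = (N : ℝ) ^ (1 - δ / 8 - δ / 32) / Y0 := ⟨_, rfl⟩
    have hY1 : 1 ≤ Y := by
      rw [hY, le_div_iff₀ hY00]
      linarith
    have hYN : Y ≤ N := by
      rw [hY]
      have h5 : (N : ℝ) ^ (1 - δ / 8 - δ / 32) ≤ (N : ℝ) ^ (1 : ℝ) := rpow_mono hN1 (by linarith)
      rw [Real.rpow_one] at h5
      refine (div_le_self (by positivity) ?_).trans h5
      rw [hY0]
      linarith
    obtain ⟨H, hH⟩ : ∃ H : ℕ, H = ⌊Y⌋₊ := ⟨_, rfl⟩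
    have hH1 : (H : ℝ) ≤ Y := by
      rw [hH]
      exact Nat.floor_le (by linarith)
    have hH2 : Y / 2 ≤ H := by
      have h5 : Y < H + 1 := by
        rw [hH]
        exact Nat.lt_floor_add_one Y
      have h6 : (1 : ℝ) ≤ H := by
        have : 1 ≤ H := by
          rw [hH]
          exact Nat.le_floor (by simpa using hY1)
        exact_mod_cast this
      linarith
    have hHN : H ≤ N := by
      have : (H : ℝ) ≤ N := hH1.trans hYN
      exact_mod_cast this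
    obtain ⟨X, hX⟩ : ∃ X : ℝ, X = (N : ℝ) ^ (1 - δ / 8) := ⟨_, rfl⟩
    have hX0 : 0 < X := by rw [hX]; positivity
    rw [← hX] at hcon
    have hYX : Y * (C * (4 * (N : ℝ) ^ (δ / 32))) ≤ X / 2 := by
      have h5 : (N : ℝ) ^ (1 - δ / 8 - δ / 32) * (N : ℝ) ^ (δ / 32) = X := by
        rw [← Real.rpow_add hN0, hX]
        congr 1
        ring
      calc Y * (C * (4 * (N : ℝ) ^ (δ / 32))) = ((N : ℝ) ^ (1 - δ / 8 - δ / 32) * (N : ℝ) ^ (δ / 32)) * (4 * C) / Y0 := by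
            rw [hY]
            ring
        _ = X * (4 * C) / Y0 := by rw [h5]
        _ ≤ X / 2 := by
            rw [div_le_div_iff₀ hY00 (by norm_num), hY0]
            nlinarith
    have hterm : ∀ j ∈ Finset.range H, 1 / 8 * (N : ℝ) ^ (-3 + δ / 2) * (X / 2) ^ 2 ≤
        ((j + N : ℕ) : ℝ) ^ (-3 + δ / 2) * ‖S (j + N)‖ ^ 2 := by
      intro j hj
      have hjH : j ≤ H := (Finset.mem_range.1 hj).le
      have hjH' : (j : ℝ) ≤ H := by exact_mod_cast hjH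
      have hjY : (j : ℝ) ≤ Y := hjH'.trans hH1
      have h5 : X / 2 ≤ ‖S (j + N)‖ := by
        have h6 := hdiff N j h4 (hjH.trans hHN)
        rw [add_comm N j] at h6
        have h7 : ‖S N‖ ≤ ‖S (j + N)‖ + ‖S (j + N) - S N‖ := by
          have := norm_sub_le (S (j + N)) (S (j + N) - S N)
          rwa [sub_sub_cancel] at this
        have h8 : (j : ℝ) * (C * (4 * (N : ℝ) ^ (δ / 32))) ≤ Y * (C * (4 * (N : ℝ) ^ (δ / 32))) :=
          mul_le_mul_of_nonneg_right hjY (by positivity)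
        linarith
      have h8 : (0 : ℝ) < ((j + N : ℕ) : ℝ) := by
        have : 0 < j + N := by omega
        exact_mod_cast this
      have h9 : ((j + N : ℕ) : ℝ) ≤ 2 * N := by
        have : j ≤ N := hjH.trans hHN
        have : (j : ℝ) ≤ N := by exact_mod_cast this
        push_cast
        linarith
      have h10 : 1 / 8 * (N : ℝ) ^ (-3 + δ / 2) ≤ ((j + N : ℕ) : ℝ) ^ (-3 + δ / 2) := by
        calc 1 / 8 * (N : ℝ) ^ (-3 + δ / 2) ≤ (2 : ℝ) ^ (-3 + δ / 2) * (N : ℝ) ^ (-3 + δ / 2) := by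
              apply mul_le_mul_of_nonneg_right _ (by positivity)
              calc (1 / 8 : ℝ) = (2 : ℝ) ^ (-3 : ℝ) := by
                    rw [Real.rpow_neg (by norm_num)]
                    norm_num
                _ ≤ _ := rpow_mono (by norm_num) (by linarith)
          _ = (2 * (N : ℝ)) ^ (-3 + δ / 2) := (Real.mul_rpow (by norm_num) hN0.le).symm
          _ ≤ _ := Real.rpow_le_rpow_of_nonpos h8 h9 (by linarith)
      exact mul_le_mul h10 (pow_le_pow_left₀ (by positivity) h5 2) (by positivity) (by positivity)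
    have h5 : ∑ j ∈ Finset.range H, 1 / 8 * (N : ℝ) ^ (-3 + δ / 2) * (X / 2) ^ 2 ≤
        ∑' M : ℕ, (((M + N : ℕ) : ℝ) ^ (-3 + δ / 2) * ‖S (M + N)‖ ^ 2) := by
      refine (Finset.sum_le_sum hterm).trans ?_
      exact ((summable_nat_add_iff N).2 hsum).sum_le_tsum (Finset.range H) (fun M _ => by positivity)
    rw [Finset.sum_const, Finset.card_range, nsmul_eq_mul] at h5
    have h6 : 1 ≤ (H : ℝ) * (1 / 8 * (N : ℝ) ^ (-3 + δ / 2) * (X / 2) ^ 2) := by
      have h7 : (N : ℝ) ^ (3 * δ / 32) = (N : ℝ) ^ (1 - δ / 8 - δ / 32) * (N : ℝ) ^ (-3 + δ / 2) * X ^ 2 := by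
        rw [hX, ← Real.rpow_natCast ((N : ℝ) ^ (1 - δ / 8)), ← Real.rpow_mul hN0.le, ← Real.rpow_add hN0,
          ← Real.rpow_add hN0]
        congr 1
        push_cast
        ring
      calc (1 : ℝ) ≤ (N : ℝ) ^ (3 * δ / 32) / (2 * Y0 * 32) := by
            rw [le_div_iff₀ (by positivity)]
            linarith
        _ = Y / 2 * (1 / 8 * (N : ℝ) ^ (-3 + δ / 2) * (X / 2) ^ 2) := by
            rw [h7, hY]
            field_simp
            ring
        _ ≤ _ := mul_le_mul_of_nonneg_right hH2 (by positivity)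
    linarith
  obtain ⟨N1, hN1⟩ := main.exists_forall_of_atTop
  refine ⟨1 + ∑ M ∈ Finset.range (N1 + 1), ‖S M‖, fun N hN => ?_⟩
  have hNr : (1 : ℝ) ≤ N := by exact_mod_cast hN
  have h1 : (1 : ℝ) ≤ (N : ℝ) ^ (1 - δ / 8) := Real.one_le_rpow hNr (by linarith)
  have h0 : 0 ≤ ∑ M ∈ Finset.range (N1 + 1), ‖S M‖ := Finset.sum_nonneg fun _ _ => norm_nonneg _
  rcases le_or_gt N1 N with h2 | h2
  · refine (hN1 N h2).trans ?_
    nlinarith
  · have h3 : ‖S N‖ ≤ ∑ M ∈ Finset.range (N1 + 1), ‖S M‖ :=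
      Finset.single_le_sum (f := fun M => ‖S M‖) (fun _ _ => norm_nonneg _) (Finset.mem_range.2 (by omega))
    nlinarith

/-- almost every parameter -/
theorem bc {Ω : Type} [MeasurableSpace Ω] (m : Measure Ω) [IsFiniteMeasure m] (g : Ω → ℕ → ℂ)
    (hgm : ∀ n, Measurable fun ω => g ω n) (hg : GroF g) (Δ : ℕ → ℝ) (hΔ : ∀ A, 0 < Δ A) (hP : PF m Δ g) :
    ∀ᵐ ω ∂m, ∃ K : ℝ, ∀ N : ℕ, 1 ≤ N → ‖∑ n ∈ Finset.Icc 1 N, g ω n‖ ≤ K * (N : ℝ) ^ (1 - min (Δ 0) 1 / 8) := by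
  obtain ⟨δ, hδ⟩ : ∃ δ : ℝ, δ = min (Δ 0) 1 := ⟨_, rfl⟩
  have hδ0 : 0 < δ := by rw [hδ]; exact lt_min (hΔ 0) one_pos
  have hδ1 : δ ≤ 1 := by rw [hδ]; exact min_le_right _ _
  have hδ2 : δ ≤ Δ 0 := by rw [hδ]; exact min_le_left _ _
  rw [← hδ]
  have h1 : ∀ᵐ ω ∂m, Summable fun N : ℕ => (N : ℝ) ^ (-3 + δ / 2) * ‖∑ n ∈ Finset.Icc 1 N, g ω n‖ ^ 2 := by
    obtain ⟨C, hC, hC2⟩ := hP 0
    obtain ⟨F, hF⟩ : ∃ F : ℕ → Ω → ℝ≥0∞, F = fun N ω =>
      ENNReal.ofReal (((N + 1 : ℕ) : ℝ) ^ (-3 + δ / 2)) * ‖∑ n ∈ Finset.Icc 1 (N + 1), g ω n‖ₑ ^ 2 := ⟨_, rfl⟩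
    have hFm : ∀ N, Measurable (F N) := by
      intro N
      rw [hF]
      refine Measurable.const_mul (Measurable.pow_const (Measurable.enorm ?_) 2) _
      exact Finset.measurable_fun_sum _ fun n _ => hgm n
    have hFi : ∀ N, ∫⁻ ω, F N ω ∂m ≤ ENNReal.ofReal (C * ((N + 1 : ℕ) : ℝ) ^ (-(1 + δ / 2))) := by
      intro N
      have h2 := hC2 (N + 1) 0 (by omega) (by simp)
      have h3 : ∀ ω, ∑ n ∈ Finset.Icc 1 (N + 1), g ω n * er 0 (Real.log n) =
          ∑ n ∈ Finset.Icc 1 (N + 1), g ω n := by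
        intro ω
        refine Finset.sum_congr rfl fun n _ => ?_
        simp [er]
      simp only [h3] at h2
      have hN1 : (1 : ℝ) ≤ ((N + 1 : ℕ) : ℝ) := by
        push_cast
        have : (0 : ℝ) ≤ N := Nat.cast_nonneg N
        linarith
      have hN0 : (0 : ℝ) < ((N + 1 : ℕ) : ℝ) := by linarith
      rw [hF]
      rw [lintegral_const_mul _ (Measurable.pow_const (Measurable.enorm
        (Finset.measurable_fun_sum _ fun n _ => hgm n)) 2)]
      refine (mul_le_mul_right h2 _).trans ?_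
      rw [← ENNReal.ofReal_mul (by positivity)]
      refine ENNReal.ofReal_le_ofReal ?_
      calc ((N + 1 : ℕ) : ℝ) ^ (-3 + δ / 2) * (C * ((N + 1 : ℕ) : ℝ) ^ (2 - Δ 0)) =
            C * (((N + 1 : ℕ) : ℝ) ^ (-3 + δ / 2) * ((N + 1 : ℕ) : ℝ) ^ (2 - Δ 0)) := by ring
        _ = C * ((N + 1 : ℕ) : ℝ) ^ (-3 + δ / 2 + (2 - Δ 0)) := by rw [← Real.rpow_add hN0]
        _ ≤ _ := by
            apply mul_le_mul_of_nonneg_left _ hC
            exact rpow_mono hN1 (by linarith)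
    have hfin : ∫⁻ ω, ∑' N, F N ω ∂m ≠ ⊤ := by
      rw [lintegral_tsum fun N => (hFm N).aemeasurable]
      refine ne_of_lt (lt_of_le_of_lt (ENNReal.tsum_le_tsum hFi) ?_)
      have hs : Summable fun N : ℕ => C * ((N + 1 : ℕ) : ℝ) ^ (-(1 + δ / 2)) :=
        ((summable_nat_add_iff 1).2 (Real.summable_nat_rpow.2 (by linarith))).mul_left C
      exact hs.tsum_ofReal_lt_top
    have hae := ae_lt_top (Measurable.tsum hFm) hfin
    filter_upwards [hae] with ω hω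
    rw [← summable_nat_add_iff 1]
    refine (ENNReal.summable_toReal hω.ne).congr fun N => ?_
    rw [hF]
    simp only
    rw [ENNReal.toReal_mul, ENNReal.toReal_pow, toReal_enorm, ENNReal.toReal_ofReal (by positivity)]
  obtain ⟨C, hC, hC2⟩ := hg (δ / 32) (by positivity)
  filter_upwards [h1] with ω hω
  refine det (fun N => ∑ n ∈ Finset.Icc 1 N, g ω n) δ C hδ0 hδ1 hC (fun N => ?_) hω
  rw [Finset.sum_Icc_succ_top (by omega), add_sub_cancel_left]
  have h2 := hC2 ω (N + 1)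
  push_cast at h2
  have e : (N : ℝ) + 1 + 1 = N + 2 := by ring
  rw [e] at h2
  exact h2

end Pool.Agent.H49.DM
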