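import Pool.Agent.H49.D.DI
import Pool.Agent.H49.D.DC

set_option autoImplicit false

/-! A smooth sequence times a dilated sequence with small twisted sums. -/

namespace Pool.Agent.H49.DM

open Finset MeasureTheory Filter Topology FourierTransform
open scoped ENNReal
open Pool.Agent.H376R2.MR (er phas_er_sub phas_continuous_er)
open Pool.Agent.Y957.VK (Dn Gn Bw Gn_int four_Gn split_int four_decay enorm_sq_le)
open Pool.Agent.Y957.AD (memLp_of_bdd)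

/-- the Plancherel identity and the splitting of the frequencies -/
theorem energy_split (d : ℕ → ℂ) (B : ℝ → ℂ) (hBi : Integrable B) (Q L V T S0 P0 b0 c κ' τ : ℝ) (N : ℕ)
    (hQ : 0 ≤ Q) (hB : ∀ y, ‖B y‖ ≤ Q) (hL : 0 ≤ L) (hBs : ∀ y, y ∉ Set.Icc 0 L → B y = 0)
    (hV : ∀ s, 0 ≤ s → s ≤ 1 → ∫ y, ‖B (y + s) - B y‖ ≤ V * s) (hT : 1 ≤ T) (hS : 0 ≤ S0) (hP : 0 ≤ P0) (hb : 0 ≤ b0)
    (hc : 0 < c) (hκ : 0 ≤ κ')
    (h1 : ∀ ξ : ℝ, |ξ| ≤ T → κ' ≤ |τ + c * (2 * Real.pi * ξ)| → ‖Dn d c N (2 * Real.pi * ξ)‖ ≤ S0)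
    (h2 : ∀ ξ : ℝ, ‖Dn d c N ξ‖ ≤ P0) (h2' : ∀ u, ‖Gn d B c N u‖ ≤ P0 * Q)
    (h3 : ∀ ξ : ℝ, |ξ| ≤ T → ‖𝓕 B ξ‖ ≤ b0) :
    ∫⁻ u, ‖Gn d B c N u‖ₑ ^ 2 ≤
      ENNReal.ofReal (Q ^ 2 * L * S0 ^ 2 + P0 ^ 2 * V ^ 2 / 8 / T + (P0 * b0) ^ 2 * (κ' / (Real.pi * c))) := by
  have hπ := Real.pi_pos
  have hFc : Continuous (𝓕 B) := VectorFourier.fourierIntegral_continuous Real.continuous_fourierChar
      (by exact continuous_inner) hBi
  have hFm : Measurable (fun ξ => ‖𝓕 B ξ‖ₑ ^ 2) := hFc.measurable.enorm.pow_const 2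
  have e0 : ∫⁻ u, ‖Gn d B c N u‖ₑ ^ 2 = ∫⁻ ξ, ‖Dn d c N (2 * Real.pi * ξ)‖ₑ ^ 2 * ‖𝓕 B ξ‖ₑ ^ 2 := by
    rw [← Pool.Agent.TH794.QD.plancherel _ (Gn_int d hBi c N) (memLp_of_bdd (Gn_int d hBi c N) h2')]
    refine lintegral_congr fun ξ => ?_
    rw [four_Gn _ hBi, enorm_mul, mul_pow]
  obtain ⟨Z, hZ⟩ : ∃ Z : Set ℝ, Z = {ξ : ℝ | |τ + c * (2 * Real.pi * ξ)| < κ' ∧ |ξ| ≤ T} := ⟨_, rfl⟩
  have hZm : MeasurableSet Z := by
    rw [hZ]
    have m1 : Measurable fun ξ : ℝ => |τ + c * (2 * Real.pi * ξ)| := by fun_prop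
    have m2 : Measurable fun ξ : ℝ => |ξ| := by fun_prop
    exact (measurableSet_lt m1 measurable_const).inter (measurableSet_le m2 measurable_const)
  have hZv : volume Z ≤ ENNReal.ofReal (κ' / (Real.pi * c)) := by
    have h4 : Z ⊆ Set.Icc ((-τ - κ') / (2 * Real.pi * c)) ((-τ + κ') / (2 * Real.pi * c)) := by
      intro ξ hξ
      rw [hZ] at hξ
      have h5 := abs_lt.1 hξ.1
      constructor
      · rw [div_le_iff₀ (by positivity)]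
        nlinarith [h5.1]
      · rw [le_div_iff₀ (by positivity)]
        nlinarith [h5.2]
    refine (measure_mono h4).trans ?_
    rw [Real.volume_Icc]
    refine ENNReal.ofReal_le_ofReal (le_of_eq ?_)
    field_simp
    ring
  rw [e0]
  obtain ⟨E1, hE1⟩ : ∃ E1 : ℝ → ℝ≥0∞, E1 = Zᶜ.indicator fun ξ => ‖Dn d c N (2 * Real.pi * ξ)‖ₑ ^ 2 := ⟨_, rfl⟩
  have hpt : ∀ ξ, ‖Dn d c N (2 * Real.pi * ξ)‖ₑ ^ 2 * ‖𝓕 B ξ‖ₑ ^ 2 ≤
      E1 ξ * ‖𝓕 B ξ‖ₑ ^ 2 + Z.indicator (fun _ => ENNReal.ofReal ((P0 * b0) ^ 2)) ξ := by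
    intro ξ
    by_cases hξ : ξ ∈ Z
    · refine le_add_left ?_
      rw [Set.indicator_of_mem hξ, ← mul_pow, ← enorm_mul]
      refine enorm_sq_le ?_
      rw [norm_mul]
      rw [hZ] at hξ
      exact mul_le_mul (h2 _) (h3 ξ hξ.2) (norm_nonneg _) hP
    · refine le_add_right ?_
      rw [hE1, Set.indicator_of_mem (by exact hξ)]
  have hs1 : ∫⁻ ξ, E1 ξ * ‖𝓕 B ξ‖ₑ ^ 2 ≤ ENNReal.ofReal (Q ^ 2 * L * S0 ^ 2 + P0 ^ 2 * V ^ 2 / 8 / T) := by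
    refine split_int E1 (fun ξ => ‖𝓕 B ξ‖ₑ ^ 2) hFm (S := S0 ^ 2) (L := Q ^ 2 * L) (N2 := P0 ^ 2) (V := V)
      hT (by positivity) (by positivity) (by positivity) rfl ?_ ?_ ?_ ?_
    · intro ξ hξ
      rw [hE1]
      by_cases hz : ξ ∈ Z
      · rw [Set.indicator_of_notMem (by simpa using hz)]
        exact zero_le
      · rw [Set.indicator_of_mem (by exact hz)]
        refine enorm_sq_le (h1 ξ hξ ?_)
        by_contra hcon
        exact hz (by rw [hZ]; exact ⟨not_le.1 hcon, hξ⟩)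
    · intro ξ
      rw [hE1]
      refine (Set.indicator_le_self _ _ ξ).trans ?_
      exact enorm_sq_le (h2 _)
    · intro ξ hξ
      exact enorm_sq_le (four_decay hBi hV (by linarith))
    · rw [Pool.Agent.TH794.QD.plancherel _ hBi (memLp_of_bdd hBi hB)]
      calc ∫⁻ x, ‖B x‖ₑ ^ 2 ≤ ∫⁻ x, (Set.Icc 0 L).indicator (fun _ => ENNReal.ofReal (Q ^ 2)) x := by
            refine lintegral_mono fun x => ?_
            by_cases hx : x ∈ Set.Icc 0 L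
            · rw [Set.indicator_of_mem hx]
              exact enorm_sq_le (hB x)
            · rw [Set.indicator_of_notMem hx, hBs x hx]
              simp
        _ = _ := by
            rw [lintegral_indicator measurableSet_Icc, setLIntegral_const, Real.volume_Icc, sub_zero,
              ← ENNReal.ofReal_mul (by positivity)]
  have hs2 : ∫⁻ ξ, Z.indicator (fun _ => ENNReal.ofReal ((P0 * b0) ^ 2)) ξ ≤
      ENNReal.ofReal ((P0 * b0) ^ 2 * (κ' / (Real.pi * c))) := by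
    rw [lintegral_indicator hZm, setLIntegral_const, ENNReal.ofReal_mul (by positivity)]
    exact mul_le_mul' le_rfl hZv
  calc _ ≤ ∫⁻ ξ, (E1 ξ * ‖𝓕 B ξ‖ₑ ^ 2 + Z.indicator (fun _ => ENNReal.ofReal ((P0 * b0) ^ 2)) ξ) :=
        lintegral_mono hpt
    _ = (∫⁻ ξ, E1 ξ * ‖𝓕 B ξ‖ₑ ^ 2) + ∫⁻ ξ, Z.indicator (fun _ => ENNReal.ofReal ((P0 * b0) ^ 2)) ξ :=
        lintegral_add_right _ (measurable_const.indicator hZm)
    _ ≤ _ := by
        rw [ENNReal.ofReal_add (by positivity) (by positivity)]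
        exact add_le_add hs1 hs2

theorem enorm_add_sq (x y : ℂ) : ‖x + y‖ₑ ^ 2 ≤ 2 * ‖x‖ₑ ^ 2 + 2 * ‖y‖ₑ ^ 2 := by
  have h : ∀ z : ℂ, ‖z‖ₑ ^ 2 = ENNReal.ofReal (‖z‖ ^ 2) := fun z => by
    rw [ENNReal.ofReal_pow (norm_nonneg _), ofReal_norm]
  have h2 : (2 : ℝ≥0∞) = ENNReal.ofReal 2 := by norm_num
  rw [h, h, h, h2, ← ENNReal.ofReal_mul (by norm_num), ← ENNReal.ofReal_mul (by norm_num),
    ← ENNReal.ofReal_add (by positivity) (by positivity)]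
  apply ENNReal.ofReal_le_ofReal
  have h3 := norm_add_le x y
  have h4 := norm_nonneg (x + y)
  have h5 := sq_nonneg (‖x‖ - ‖y‖)
  nlinarith [norm_nonneg x, norm_nonneg y]

end Pool.Agent.H49.DM
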