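import Pool.Agent.H49.D.DJ
import Pool.Agent.H49.D.DD

set_option autoImplicit false

/-! A smooth sequence times a dilated sequence with small twisted sums: the mean square. -/

namespace Pool.Agent.H49.DM

open Finset MeasureTheory Filter Topology FourierTransform
open scoped ENNReal
open Pool.Agent.H376R2.MR (er)
open Pool.Agent.Y957.VK (Dn Gn Bw)

/-- the mean square over the slopes is at most the energy over the line -/
theorem shift_int (F : ℝ → ℂ) (G : ℝ → ℂ) (s : ℝ) (h : ∀ u ∈ Set.Icc (0 : ℝ) 1, F u = G (u + s)) :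
    ∫⁻ u, ‖F u‖ₑ ^ 2 ∂I01 ≤ ∫⁻ u, ‖G u‖ₑ ^ 2 := by
  calc ∫⁻ u, ‖F u‖ₑ ^ 2 ∂I01 = ∫⁻ u, ‖G (u + s)‖ₑ ^ 2 ∂I01 := by
        refine setLIntegral_congr_fun measurableSet_Icc fun u hu => ?_
        simp only [h u hu]
    _ ≤ ∫⁻ u, ‖G (u + s)‖ₑ ^ 2 := setLIntegral_le_lintegral _ _
    _ = _ := lintegral_add_right_eq_self (fun u => ‖G u‖ₑ ^ 2) s

theorem two_ofReal (z : ℝ) : 2 * ENNReal.ofReal z = ENNReal.ofReal (2 * z) := by
  rw [ENNReal.ofReal_mul (by norm_num)]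
  norm_num

theorem base2_core (f g : ℕ → ℂ) (hf : TP f) (hfg : Gro f) (hg : Gro g) (Δ : ℕ → ℝ)
    (hΔ : ∀ A, 0 < Δ A ∧ Δ A ≤ 1 / 4) (hN : PN Δ g) (c : ℝ) (hc : 0 < c) (A : ℕ) :
    ∃ D : ℝ, 0 < D ∧ D ≤ 1 / 4 ∧ ∀ (h : ℤ) (b : ℝ), ∃ (C : ℝ) (N₀ : ℕ), 0 ≤ C ∧ ∀ (N : ℕ) (τ : ℝ), N₀ ≤ N → 1 ≤ N →
      |τ| ≤ (N : ℝ) ^ A → ∫⁻ u, ‖∑ n ∈ Icc 1 N, f n * fac (sft g h) b c u n * er τ (Real.log n)‖ₑ ^ 2 ∂I01 ≤
        ENNReal.ofReal (C * (N : ℝ) ^ (2 - D)) := by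
  have hπ := Real.pi_pos
  obtain ⟨k, hk⟩ : ∃ k : ℕ, k = ⌈c⌉₊ := ⟨_, rfl⟩
  have hkc : c ≤ k := by rw [hk]; exact Nat.le_ceil _
  obtain ⟨J, hJ⟩ : ∃ J : ℕ, J = ⌈2 / c⌉₊ := ⟨_, rfl⟩
  have hJc : 1 ≤ c / 2 * J := by
    have : 2 / c ≤ J := by rw [hJ]; exact Nat.le_ceil _
    rw [div_le_iff₀ hc] at this
    linarith
  obtain ⟨A2, hA2⟩ : ∃ A2 : ℕ, A2 = J * (2 * k + 2) + 1 := ⟨_, rfl⟩
  obtain ⟨δ2, hδ2⟩ : ∃ δ2 : ℝ, δ2 = Δ A2 := ⟨_, rfl⟩
  have hδ20 : 0 < δ2 := by rw [hδ2]; exact (hΔ A2).1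
  have hδ21 : δ2 ≤ 1 / 4 := by rw [hδ2]; exact (hΔ A2).2
  obtain ⟨κ, hκ⟩ : ∃ κ : ℝ, κ = c * δ2 / 8 := ⟨_, rfl⟩
  have hκ0 : 0 < κ := by rw [hκ]; positivity
  obtain ⟨C1, δf, hC1, hδf, hδf1, hTP⟩ := TP_all hf hfg κ (A + 2 * k + 3) hκ0
  obtain ⟨D, hD⟩ : ∃ D : ℝ, D = min δf κ := ⟨_, rfl⟩
  have hD0 : 0 < D := by rw [hD]; exact lt_min hδf hκ0
  have hDf : D ≤ δf := by rw [hD]; exact min_le_left _ _
  have hDκ : D ≤ κ := by rw [hD]; exact min_le_right _ _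
  obtain ⟨ε, hε⟩ : ∃ ε : ℝ, ε = D / 8 := ⟨_, rfl⟩
  have hε0 : 0 < ε := by rw [hε]; positivity
  refine ⟨D, hD0, hDf.trans hδf1, fun h b => ?_⟩
  obtain ⟨Cf, hCf, hfb⟩ := hfg.bd ε hε0
  obtain ⟨b2, hb2⟩ : ∃ b2 : ℝ, b2 = Real.log (Real.exp (b + 1) + 1) := ⟨_, rfl⟩
  have hexpb2 : Real.exp b2 = Real.exp (b + 1) + 1 := by rw [hb2, Real.exp_log (by positivity)]
  obtain ⟨Ca, hCa, hab⟩ := (sft_gro hg h).bd_exp b2 c hc ε hε0
  obtain ⟨C2, hC2, hPN⟩ := hN A2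
  rw [← hδ2] at hPN
  obtain ⟨Km, hKm, hmel⟩ := mellin g C2 δ2 hC2 hδ20 hδ21 h
  obtain ⟨κ0, hκ0'⟩ : ∃ κ0 : ℝ, κ0 = Real.exp b / 4 := ⟨_, rfl⟩
  have hκ00 : 0 < κ0 := by rw [hκ0']; positivity
  obtain ⟨E, hE⟩ : ∃ E : ℝ, E = 2 * (Real.exp (b + 1) + 4) := ⟨_, rfl⟩
  have hE0 : 0 < E := by rw [hE]; positivity
  obtain ⟨CL, hCL⟩ : ∃ CL : ℝ, CL = |b2| + c / ε := ⟨_, rfl⟩
  have hCL0 : 0 < CL := by rw [hCL]; positivity
  obtain ⟨N₀, hN₀⟩ := ((ev_pow ((4 * |(h : ℝ)| + 7) / Real.exp b) (c / 2) (by positivity)).and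
    ((ev_pow (2 * Real.pi / κ0 ^ A2) (c / 2) (by positivity)).and
      (eventually_ge_atTop ⌈1 + 2 * Real.pi * c⌉₊))).exists_forall_of_atTop
  refine ⟨2 * (Cf * Ca) ^ 2 + 2 * (4 * Ca ^ 2 * CL * C1 ^ 2 + Cf ^ 2 * Ca ^ 2 * E ^ 2 +
    Cf ^ 2 * Km ^ 2 * (Real.exp b / 2) ^ (-δ2) / (Real.pi * c)), N₀, by positivity, fun N τ hNN hN1 hτ => ?_⟩
  obtain ⟨hc1, hc2, hc3⟩ := hN₀ N hNN
  have hNr : (1 : ℝ) ≤ N := by exact_mod_cast hN1
  have hN0 : (0 : ℝ) < N := by linarith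
  have hNc : 1 + 2 * Real.pi * c ≤ N := (Nat.le_ceil _).trans (by exact_mod_cast hc3)
  have hlog : 0 ≤ Real.log N := Real.log_nonneg hNr
  have hexpb := Real.exp_pos b
  rw [div_le_iff₀ hexpb] at hc1
  rw [div_le_iff₀ (by positivity)] at hc2
  obtain ⟨X, hX⟩ : ∃ X : ℝ, X = (N : ℝ) ^ (c / 2) := ⟨_, rfl⟩
  rw [← hX] at hc1 hc2
  have hX0 : 0 < X := by rw [hX]; positivity
  have hh0 := abs_nonneg (h : ℝ)
  obtain ⟨K0, hK0⟩ : ∃ K0 : ℕ, K0 = ⌊Real.exp b * X⌋₊ := ⟨_, rfl⟩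
  have hK0a : (K0 : ℝ) ≤ Real.exp b * X := by rw [hK0]; exact Nat.floor_le (by positivity)
  have hK0b : Real.exp b * X - 1 ≤ K0 := by
    rw [hK0]
    linarith [Nat.lt_floor_add_one (Real.exp b * X)]
  have hK0c : 4 * |(h : ℝ)| + 6 ≤ K0 := by linarith
  have hK0d : Real.exp b / 2 * X ≤ K0 := by linarith
  have hK0p : (0 : ℝ) < K0 := by linarith
  have hK0n : 1 ≤ K0 := by exact_mod_cast hK0p
  obtain ⟨K1, hK1⟩ : ∃ K1 : ℕ, K1 = ⌈Real.exp (b + 1) * (N : ℝ) ^ c⌉₊ := ⟨_, rfl⟩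
  have hK1a : Real.exp (b + 1) * (N : ℝ) ^ c ≤ K1 := by rw [hK1]; exact Nat.le_ceil _
  have hNcc : 1 ≤ (N : ℝ) ^ c := one_le_rpow' hNr hc.le
  have hK1b : (K1 : ℝ) ≤ (Real.exp (b + 1) + 1) * (N : ℝ) ^ c := by
    have : (K1 : ℝ) < Real.exp (b + 1) * (N : ℝ) ^ c + 1 := by
      rw [hK1]
      exact Nat.ceil_lt_add_one (by positivity)
    rw [add_mul, one_mul]
    linarith
  have hXN : X ≤ (N : ℝ) ^ c := by rw [hX]; exact rpow_mono hNr (by linarith)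
  have hK01 : (K0 : ℝ) ≤ K1 := by
    have h4 : Real.exp b ≤ Real.exp (b + 1) := Real.exp_le_exp.2 (by linarith)
    calc (K0 : ℝ) ≤ Real.exp b * X := hK0a
      _ ≤ Real.exp (b + 1) * (N : ℝ) ^ c := mul_le_mul h4 hXN hX0.le (Real.exp_pos _).le
      _ ≤ K1 := hK1a
  have hK01n : K0 ≤ K1 := by exact_mod_cast hK01
  have hK1p : (0 : ℝ) < K1 := by linarith
  obtain ⟨β, hβ⟩ : ∃ β : ℝ, β = Real.log K0 := ⟨_, rfl⟩
  obtain ⟨L, hL⟩ : ∃ L : ℝ, L = Real.log K1 - Real.log K0 := ⟨_, rfl⟩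
  have hL0 : 0 ≤ L := by rw [hL]; exact sub_nonneg.2 (Real.log_le_log hK0p hK01)
  have hexpβL : Real.exp (β + L) = K1 := by
    rw [hβ, hL, add_sub_cancel, Real.exp_log hK1p]
  have hLe : L ≤ CL * (N : ℝ) ^ ε := by
    have h4 : Real.log K1 ≤ b2 + c * Real.log N := by
      calc Real.log K1 ≤ Real.log ((Real.exp (b + 1) + 1) * (N : ℝ) ^ c) := Real.log_le_log hK1p hK1b
        _ = _ := by
            rw [← hexpb2, Real.log_mul (Real.exp_pos _).ne' (by positivity), Real.log_exp, Real.log_rpow hN0]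
    have h5 : 0 ≤ Real.log K0 := Real.log_natCast_nonneg K0
    have h6 := log_le_pow ε hε0 hNr
    have h7 := one_le_rpow' hNr hε0.le
    have h8 : |b2| ≤ |b2| * (N : ℝ) ^ ε := le_mul_of_one_le_right (abs_nonneg _) h7
    have h9 : c * Real.log N ≤ c * ((N : ℝ) ^ ε / ε) := mul_le_mul_of_nonneg_left h6 hc.le
    rw [hL, hCL]
    calc Real.log K1 - Real.log K0 ≤ |b2| * (N : ℝ) ^ ε + c * ((N : ℝ) ^ ε / ε) := by linarith [le_abs_self b2]
      _ = _ := by ring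
  obtain ⟨Q, hQ⟩ : ∃ Q : ℝ, Q = Ca * (N : ℝ) ^ ε := ⟨_, rfl⟩
  have hQ0 : 0 < Q := by rw [hQ]; positivity
  have haQ : ∀ n : ℕ, (n : ℝ) ≤ Real.exp (β + L) → ‖sft g h n‖ ≤ Q := by
    intro n hn
    rw [hexpβL] at hn
    rw [hQ]
    refine hab N hN1 n ?_
    rw [hexpb2]
    exact hn.trans hK1b
  obtain ⟨V, hV⟩ : ∃ V : ℝ, V = 2 * Q * (Real.exp (β + L) + 3) := ⟨_, rfl⟩
  have hV0 : 0 ≤ V := by rw [hV]; positivity
  have hVE : V ≤ Q * (E * (N : ℝ) ^ k) := by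
    have h6 : (N : ℝ) ^ c ≤ (N : ℝ) ^ k := by
      rw [← Real.rpow_natCast]
      exact rpow_mono hNr hkc
    rw [hV, hexpβL, hE]
    have h7 : (K1 : ℝ) + 3 ≤ (Real.exp (b + 1) + 4) * (N : ℝ) ^ k := by
      calc (K1 : ℝ) + 3 ≤ (Real.exp (b + 1) + 1) * (N : ℝ) ^ c + 3 * (N : ℝ) ^ c := by linarith
        _ = (Real.exp (b + 1) + 4) * (N : ℝ) ^ c := by ring
        _ ≤ _ := mul_le_mul_of_nonneg_left h6 (by positivity)
    calc 2 * Q * ((K1 : ℝ) + 3) ≤ 2 * Q * ((Real.exp (b + 1) + 4) * (N : ℝ) ^ k) :=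
          mul_le_mul_of_nonneg_left h7 (by positivity)
      _ = _ := by ring
  obtain ⟨y, hy⟩ : ∃ y, y = Nat.sqrt N := ⟨_, rfl⟩
  have hy1 : y * y ≤ N := by rw [hy]; exact Nat.sqrt_le N
  have hy2 : N < (y + 1) * (y + 1) := by rw [hy]; exact Nat.lt_succ_sqrt N
  have hyN : y ≤ N := (Nat.le_mul_self y).trans hy1
  have hys : (y : ℝ) ^ 2 ≤ N := by
    have : ((y * y : ℕ) : ℝ) ≤ N := by exact_mod_cast hy1
    push_cast at this
    rw [sq]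
    exact this
  obtain ⟨d, hd⟩ : ∃ d : ℕ → ℂ, d = fun n => if n ∈ Ioc y N then f n * er τ (Real.log n) else 0 := ⟨_, rfl⟩
  have hdb : ∀ n ∈ Icc 1 N, ‖d n‖ ≤ Cf * (N : ℝ) ^ ε := by
    intro n hn
    rw [hd]
    simp only
    split_ifs
    · rw [norm_mul, er_norm, mul_one]
      exact hfb N hN1 n (mem_Icc.1 hn).2
    · rw [norm_zero]
      positivity
  obtain ⟨P0, hP0⟩ : ∃ P0 : ℝ, P0 = N * (Cf * (N : ℝ) ^ ε) := ⟨_, rfl⟩
  have hP00 : 0 ≤ P0 := by rw [hP0]; positivity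
  have hDn : ∀ ξ : ℝ, ‖Dn d c N ξ‖ ≤ P0 := by
    intro ξ
    unfold Dn
    refine (norm_sum_le _ _).trans ?_
    calc ∑ n ∈ Icc 1 N, ‖d n * er ξ (c * Real.log n)‖ ≤ ∑ n ∈ Icc 1 N, Cf * (N : ℝ) ^ ε :=
          sum_le_sum fun n hn => by
            rw [norm_mul, er_norm, mul_one]
            exact hdb n hn
      _ = P0 := by rw [hP0]; simp
  have hBb := Bw_bd (sft g h) β L Q hQ0.le haQ
  have hGn : ∀ u : ℝ, ‖Gn d (Bw (sf (sft g h)) β L) c N u‖ ≤ P0 * Q := by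
    intro u
    unfold Gn
    refine (norm_sum_le _ _).trans ?_
    calc ∑ n ∈ Icc 1 N, ‖d n * Bw (sf (sft g h)) β L (u + c * Real.log n)‖ ≤
          ∑ n ∈ Icc 1 N, (Cf * (N : ℝ) ^ ε) * Q :=
          sum_le_sum fun n hn => by
            rw [norm_mul]
            exact mul_le_mul (hdb n hn) (hBb _) (norm_nonneg _) (by positivity)
      _ = P0 * Q := by
          rw [hP0]
          simp
          ring
  have hT1 : (1 : ℝ) ≤ (N : ℝ) ^ (2 * k + 2) := one_le_pow₀ hNr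
  obtain ⟨S0, hS0⟩ : ∃ S0 : ℝ, S0 = 2 * C1 * (N : ℝ) ^ (1 - δf) := ⟨_, rfl⟩
  have hS00 : 0 ≤ S0 := by rw [hS0]; positivity
  obtain ⟨b0, hb0⟩ : ∃ b0 : ℝ, b0 = Km * (K0 : ℝ) ^ (-(δ2 / 2)) := ⟨_, rfl⟩
  have hb00 : 0 ≤ b0 := by rw [hb0]; positivity
  -- the frequencies
  have hrange : ∀ M : ℕ, K0 ≤ 2 * M → 1 ≤ M ∧ 2 * Real.pi * (N : ℝ) ^ (2 * k + 2) ≤ (M : ℝ) ^ A2 := by
    intro M hM
    have hM1 : 1 ≤ M := by omega
    refine ⟨hM1, ?_⟩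
    have hMr : (K0 : ℝ) ≤ 2 * M := by exact_mod_cast hM
    have h4 : κ0 * X ≤ M := by
      rw [hκ0']
      linarith
    have h5 : X ^ A2 = (N : ℝ) ^ (c / 2 * J * (2 * k + 2)) * X := by
      rw [hX, ← Real.rpow_natCast, ← Real.rpow_mul hN0.le, ← Real.rpow_add hN0, hA2]
      congr 1
      push_cast
      ring
    have h6 : (N : ℝ) ^ (2 * k + 2) ≤ (N : ℝ) ^ (c / 2 * J * (2 * k + 2)) := by
      rw [← Real.rpow_natCast]
      apply rpow_mono hNr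
      push_cast
      exact le_mul_of_one_le_left (by positivity) hJc
    calc 2 * Real.pi * (N : ℝ) ^ (2 * k + 2) ≤ (X * κ0 ^ A2) * (N : ℝ) ^ (2 * k + 2) :=
          mul_le_mul_of_nonneg_right hc2 (by positivity)
      _ ≤ (X * κ0 ^ A2) * (N : ℝ) ^ (c / 2 * J * (2 * k + 2)) := mul_le_mul_of_nonneg_left h6 (by positivity)
      _ = (κ0 * X) ^ A2 := by
          rw [mul_pow, h5]
          ring
      _ ≤ (M : ℝ) ^ A2 := pow_le_pow_left₀ (by positivity) h4 _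
  have hfreq : ∀ ξ : ℝ, |ξ| ≤ (N : ℝ) ^ (2 * k + 2) → |2 * Real.pi * ξ| ≤ 2 * Real.pi * (N : ℝ) ^ (2 * k + 2) := by
    intro ξ hξ
    rw [abs_mul, abs_of_pos (show (0 : ℝ) < 2 * Real.pi by positivity)]
    exact mul_le_mul_of_nonneg_left hξ (by positivity)
  have hmain := energy_split d (Bw (sf (sft g h)) β L)
    (int_of_bd (Bw_meas (sf_meas _) β L) hBb fun y hy => Bw_zero hy) Q L V ((N : ℝ) ^ (2 * k + 2)) S0 P0 b0 c
    ((N : ℝ) ^ κ) τ N hQ0.le hBb hL0 (fun y hy => Bw_zero hy)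
    (fun s hs _ => by
      rw [hV]
      exact step_win (sft g h) β L Q hL0 hQ0.le haQ s hs)
    hT1 hS00 hP00 hb00 hc (by positivity)
    (fun ξ hξ hκξ => by
      have h4 := freq_le hc hN1 hNc hτ (hfreq ξ hξ)
      have h5 := hTP N (τ + c * (2 * Real.pi * ξ)) hN1 hκξ h4
      have e1 : Dn d c N (2 * Real.pi * ξ) = S f (τ + c * (2 * Real.pi * ξ)) N - S f (τ + c * (2 * Real.pi * ξ)) y := by
        have e2 : S f (τ + c * (2 * Real.pi * ξ)) N = S f (τ + c * (2 * Real.pi * ξ)) y +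
            ∑ n ∈ Ioc y N, f n * er (τ + c * (2 * Real.pi * ξ)) (Real.log n) := by
          unfold S
          have e3 : Icc 1 N = Icc 1 y ∪ Ioc y N := by
            ext n
            simp only [mem_union, mem_Icc, mem_Ioc]
            omega
          have e4 : Disjoint (Icc 1 y) (Ioc y N) := by
            rw [disjoint_left]
            intro n hn1 hn2
            rw [mem_Icc] at hn1
            rw [mem_Ioc] at hn2
            omega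
          rw [e3, sum_union e4]
        rw [e2, add_sub_cancel_left]
        unfold Dn
        have e5 : Ioc y N = (Icc 1 N).filter fun n => n ∈ Ioc y N := by
          ext n
          simp only [mem_filter, mem_Icc, mem_Ioc]
          omega
        rw [e5, sum_filter]
        refine sum_congr rfl fun n _ => ?_
        rw [hd]
        simp only [← e5]
        split_ifs
        · rw [mul_assoc, er_mul]
        · rw [zero_mul]
      rw [e1]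
      refine (norm_sub_le _ _).trans ?_
      have h6 := h5 N le_rfl
      have h7 := h5 y hyN
      rw [hS0]
      linarith)
    hDn hGn
    (fun ξ hξ => by
      have h4 := hmel (2 * Real.pi * ξ) K0 K1 hK0c hK01n (fun M hM => by
        obtain ⟨hM1, hM2⟩ := hrange M hM
        refine hPN M (-(2 * Real.pi * ξ)) hM1 ?_
        rw [abs_neg]
        exact (hfreq ξ hξ).trans hM2)
      rw [hβ, hL, four_step (sft g h) K0 K1 hK0n hK01n ξ, norm_mul, er_norm, one_mul, hb0]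
      exact h4)
  -- the sum is the sum of two parts
  obtain ⟨F1, hF1⟩ : ∃ F1 : ℝ → ℂ, F1 = fun u => ∑ n ∈ Icc 1 y, f n * fac (sft g h) b c u n * er τ (Real.log n) := ⟨_, rfl⟩
  obtain ⟨F2, hF2⟩ : ∃ F2 : ℝ → ℂ, F2 = fun u => ∑ n ∈ Ioc y N, f n * fac (sft g h) b c u n * er τ (Real.log n) := ⟨_, rfl⟩
  have hsplit : ∀ u, ∑ n ∈ Icc 1 N, f n * fac (sft g h) b c u n * er τ (Real.log n) = F1 u + F2 u := by
    intro u
    have e3 : Icc 1 N = Icc 1 y ∪ Ioc y N := by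
      ext n
      simp only [mem_union, mem_Icc, mem_Ioc]
      omega
    have e4 : Disjoint (Icc 1 y) (Ioc y N) := by
      rw [disjoint_left]
      intro n hn1 hn2
      rw [mem_Icc] at hn1
      rw [mem_Ioc] at hn2
      omega
    rw [e3, sum_union e4, hF1, hF2]
  have hfac : ∀ (u : ℝ) (n : ℕ), n ≤ N → ‖fac (sft g h) b c u n‖ ≤ Q := by
    intro u n hn
    unfold fac
    rw [hQ]
    refine hab N hN1 _ ?_
    refine (Nat.floor_le (by positivity)).trans ?_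
    apply mul_le_mul _ _ (by positivity) (Real.exp_pos _).le
    · rw [hexpb2]
      have : Real.exp (b + cl u) ≤ Real.exp (b + 1) := Real.exp_le_exp.2 (by linarith [cl_le u])
      linarith
    · exact Real.rpow_le_rpow (Nat.cast_nonneg _) (by exact_mod_cast hn) hc.le
  have hF1b : ∀ u, ‖F1 u‖ ≤ y * (Cf * (N : ℝ) ^ ε * Q) := by
    intro u
    rw [hF1]
    refine (norm_sum_le _ _).trans ?_
    calc ∑ n ∈ Icc 1 y, ‖f n * fac (sft g h) b c u n * er τ (Real.log n)‖ ≤ ∑ n ∈ Icc 1 y, Cf * (N : ℝ) ^ ε * Q :=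
          sum_le_sum fun n hn => by
            rw [mem_Icc] at hn
            rw [norm_mul, er_norm, mul_one, norm_mul]
            exact mul_le_mul (hfb N hN1 n (hn.2.trans hyN)) (hfac u n (hn.2.trans hyN)) (norm_nonneg _) (by positivity)
      _ = _ := by simp
  have hF2e : ∫⁻ u, ‖F2 u‖ₑ ^ 2 ∂I01 ≤ ∫⁻ u, ‖Gn d (Bw (sf (sft g h)) β L) c N u‖ₑ ^ 2 := by
    refine shift_int F2 _ (b - β) fun u hu => ?_
    rw [hF2]
    beta_reduce
    unfold Gn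
    have e5 : Ioc y N = (Icc 1 N).filter fun n => n ∈ Ioc y N := by
      ext n
      simp only [mem_filter, mem_Icc, mem_Ioc]
      omega
    rw [e5, sum_filter]
    refine sum_congr rfl fun n hn => ?_
    rw [hd]
    simp only [← e5]
    split_ifs with hny
    · rw [mem_Ioc] at hny
      have hn0 : (0 : ℝ) < n := by exact_mod_cast (by omega : 0 < n)
      have hn1 : (1 : ℝ) ≤ n := by exact_mod_cast (by omega : 1 ≤ n)
      have hnN : (n : ℝ) ≤ N := by exact_mod_cast hny.2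
      have hval : Real.exp (β + (u + (b - β) + c * Real.log n)) = Real.exp (b + u) * (n : ℝ) ^ c := by
        rw [Real.rpow_def_of_pos hn0, ← Real.exp_add]
        congr 1
        ring
      have hnX : X ≤ (n : ℝ) ^ c := by
        have h6 : (N : ℝ) ≤ (n : ℝ) ^ 2 := by
          have : N ≤ n * n := hy2.le.trans (Nat.mul_le_mul hny.1 hny.1)
          have : (N : ℝ) ≤ ((n * n : ℕ) : ℝ) := by exact_mod_cast this
          push_cast at this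
          rw [sq]
          exact this
        rw [hX]
        calc (N : ℝ) ^ (c / 2) ≤ ((n : ℝ) ^ 2) ^ (c / 2) := Real.rpow_le_rpow hN0.le h6 (by positivity)
          _ = (n : ℝ) ^ c := by
              rw [← Real.rpow_natCast, ← Real.rpow_mul hn0.le]
              congr 1
              push_cast
              ring
      have hmem : u + (b - β) + c * Real.log n ∈ Set.Icc 0 L := by
        have h7 : (K0 : ℝ) ≤ Real.exp (b + u) * (n : ℝ) ^ c := by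
          refine hK0a.trans (mul_le_mul (Real.exp_le_exp.2 (by linarith [hu.1])) hnX hX0.le (Real.exp_pos _).le)
        have h8 : Real.exp (b + u) * (n : ℝ) ^ c ≤ K1 := by
          refine le_trans ?_ hK1a
          apply mul_le_mul (Real.exp_le_exp.2 (by linarith [hu.2])) _ (by positivity) (Real.exp_pos _).le
          exact Real.rpow_le_rpow hn0.le hnN hc.le
        rw [← hval] at h7 h8
        have h9 := Real.log_le_log hK0p h7
        have h10 := Real.log_le_log (Real.exp_pos _) h8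
        rw [Real.log_exp] at h9 h10
        constructor
        · rw [hβ] at h9 ⊢
          linarith
        · rw [hL]
          rw [hβ] at h10 ⊢
          linarith
      rw [Bw_in hmem]
      unfold sf fac
      rw [hval, cl_eq hu]
      ring
    · rw [zero_mul]
  -- putting the parts together
  have hI : I01 Set.univ = 1 := by
    rw [Measure.restrict_apply_univ, Real.volume_Icc]
    norm_num
  have htot : ∫⁻ u, ‖∑ n ∈ Icc 1 N, f n * fac (sft g h) b c u n * er τ (Real.log n)‖ₑ ^ 2 ∂I01 ≤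
      ENNReal.ofReal (2 * (y * (Cf * (N : ℝ) ^ ε * Q)) ^ 2 + 2 * (Q ^ 2 * L * S0 ^ 2 +
        P0 ^ 2 * V ^ 2 / 8 / (N : ℝ) ^ (2 * k + 2) + (P0 * b0) ^ 2 * ((N : ℝ) ^ κ / (Real.pi * c)))) := by
    have hm2 : Measurable fun u => 2 * ‖F2 u‖ₑ ^ 2 := by
      refine Measurable.const_mul (Measurable.pow_const (Measurable.enorm ?_) 2) 2
      rw [hF2]
      exact Finset.measurable_fun_sum _ fun n _ => ((fac_meas _ _ _ _).const_mul _).mul_const _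
    calc ∫⁻ u, ‖∑ n ∈ Icc 1 N, f n * fac (sft g h) b c u n * er τ (Real.log n)‖ₑ ^ 2 ∂I01 ≤
          ∫⁻ u, (ENNReal.ofReal (2 * (y * (Cf * (N : ℝ) ^ ε * Q)) ^ 2) + 2 * ‖F2 u‖ₑ ^ 2) ∂I01 := by
            refine lintegral_mono fun u => ?_
            rw [hsplit u]
            refine (enorm_add_sq _ _).trans (add_le_add ?_ le_rfl)
            rw [ENNReal.ofReal_mul (by norm_num)]
            refine mul_le_mul' (by norm_num) (Pool.Agent.Y957.VK.enorm_sq_le (hF1b u))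
      _ = ENNReal.ofReal (2 * (y * (Cf * (N : ℝ) ^ ε * Q)) ^ 2) + 2 * ∫⁻ u, ‖F2 u‖ₑ ^ 2 ∂I01 := by
            rw [lintegral_add_right _ hm2, lintegral_const, hI, mul_one, lintegral_const_mul' _ _ (by norm_num)]
      _ ≤ ENNReal.ofReal (2 * (y * (Cf * (N : ℝ) ^ ε * Q)) ^ 2) + 2 * ENNReal.ofReal (Q ^ 2 * L * S0 ^ 2 +
          P0 ^ 2 * V ^ 2 / 8 / (N : ℝ) ^ (2 * k + 2) + (P0 * b0) ^ 2 * ((N : ℝ) ^ κ / (Real.pi * c))) := by
            gcongr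
            exact hF2e.trans hmain
      _ = _ := by
            rw [two_ofReal, ← ENNReal.ofReal_add (by positivity) (by positivity)]
  refine htot.trans (ENNReal.ofReal_le_ofReal ?_)
  have hy' : 0 ≤ (N : ℝ) ^ (2 - D) := by positivity
  have t1 : (y * (Cf * (N : ℝ) ^ ε * Q)) ^ 2 ≤ (Cf * Ca) ^ 2 * (N : ℝ) ^ (2 - D) := by
    calc (y * (Cf * (N : ℝ) ^ ε * Q)) ^ 2 = (Cf * Ca) ^ 2 * ((y : ℝ) ^ 2 * ((N : ℝ) ^ ε * (N : ℝ) ^ ε * (N : ℝ) ^ ε * (N : ℝ) ^ ε)) := by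
          rw [hQ]
          ring
      _ ≤ (Cf * Ca) ^ 2 * ((N : ℝ) * ((N : ℝ) ^ ε * (N : ℝ) ^ ε * (N : ℝ) ^ ε * (N : ℝ) ^ ε)) := by gcongr
      _ = (Cf * Ca) ^ 2 * (N : ℝ) ^ (1 + (ε + ε + ε + ε)) := by
          rw [Real.rpow_add hN0, Real.rpow_one, Real.rpow_add hN0, Real.rpow_add hN0, Real.rpow_add hN0]
      _ ≤ _ := by
          apply mul_le_mul_of_nonneg_left _ (by positivity)
          apply rpow_mono hNr
          rw [hε]
          linarith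
  have t2 : Q ^ 2 * L * S0 ^ 2 ≤ 4 * Ca ^ 2 * CL * C1 ^ 2 * (N : ℝ) ^ (2 - D) := by
    calc Q ^ 2 * L * S0 ^ 2 ≤ Q ^ 2 * (CL * (N : ℝ) ^ ε) * S0 ^ 2 := by gcongr
      _ = 4 * Ca ^ 2 * CL * C1 ^ 2 * ((N : ℝ) ^ ε * (N : ℝ) ^ ε * (N : ℝ) ^ ε * ((N : ℝ) ^ (1 - δf) * (N : ℝ) ^ (1 - δf))) := by
          rw [hQ, hS0]
          ring
      _ = 4 * Ca ^ 2 * CL * C1 ^ 2 * (N : ℝ) ^ (ε + ε + ε + ((1 - δf) + (1 - δf))) := by
          rw [Real.rpow_add hN0, Real.rpow_add hN0, Real.rpow_add hN0, Real.rpow_add hN0]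
      _ ≤ _ := by
          apply mul_le_mul_of_nonneg_left _ (by positivity)
          apply rpow_mono hNr
          rw [hε]
          linarith
  have t3 : P0 ^ 2 * V ^ 2 / 8 / (N : ℝ) ^ (2 * k + 2) ≤ Cf ^ 2 * Ca ^ 2 * E ^ 2 * (N : ℝ) ^ (2 - D) := by
    have h6 : V ^ 2 ≤ (Q * (E * (N : ℝ) ^ k)) ^ 2 := pow_le_pow_left₀ hV0 hVE 2
    calc P0 ^ 2 * V ^ 2 / 8 / (N : ℝ) ^ (2 * k + 2) ≤ P0 ^ 2 * (Q * (E * (N : ℝ) ^ k)) ^ 2 / 1 / (N : ℝ) ^ (2 * k + 2) := by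
          gcongr
          norm_num
      _ = Cf ^ 2 * Ca ^ 2 * E ^ 2 * ((N : ℝ) ^ ε * (N : ℝ) ^ ε * (N : ℝ) ^ ε * (N : ℝ) ^ ε) := by
          rw [hQ, hP0, pow_add, mul_comm 2 k, pow_mul]
          field_simp
      _ = Cf ^ 2 * Ca ^ 2 * E ^ 2 * (N : ℝ) ^ (ε + ε + ε + ε) := by
          rw [Real.rpow_add hN0, Real.rpow_add hN0, Real.rpow_add hN0]
      _ ≤ _ := by
          apply mul_le_mul_of_nonneg_left _ (by positivity)
          apply rpow_mono hNr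
          rw [hε]
          linarith
  have t4 : (P0 * b0) ^ 2 * ((N : ℝ) ^ κ / (Real.pi * c)) ≤
      Cf ^ 2 * Km ^ 2 * (Real.exp b / 2) ^ (-δ2) / (Real.pi * c) * (N : ℝ) ^ (2 - D) := by
    have h6 : (K0 : ℝ) ^ (-(δ2 / 2)) * (K0 : ℝ) ^ (-(δ2 / 2)) ≤ (Real.exp b / 2) ^ (-δ2) * (N : ℝ) ^ (-(4 * κ)) := by
      rw [← Real.rpow_add hK0p]
      have e1 : -(δ2 / 2) + -(δ2 / 2) = -δ2 := by ring
      rw [e1]
      calc (K0 : ℝ) ^ (-δ2) ≤ (Real.exp b / 2 * X) ^ (-δ2) :=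
            Real.rpow_le_rpow_of_nonpos (by positivity) hK0d (by linarith)
        _ = (Real.exp b / 2) ^ (-δ2) * X ^ (-δ2) := Real.mul_rpow (by positivity) hX0.le
        _ = _ := by
            rw [hX, ← Real.rpow_mul hN0.le, hκ]
            congr 2
            ring
    calc (P0 * b0) ^ 2 * ((N : ℝ) ^ κ / (Real.pi * c)) = Cf ^ 2 * Km ^ 2 / (Real.pi * c) *
          ((N : ℝ) ^ 2 * ((N : ℝ) ^ ε * (N : ℝ) ^ ε) * ((K0 : ℝ) ^ (-(δ2 / 2)) * (K0 : ℝ) ^ (-(δ2 / 2))) * (N : ℝ) ^ κ) := by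
          rw [hP0, hb0]
          field_simp
      _ ≤ Cf ^ 2 * Km ^ 2 / (Real.pi * c) *
          ((N : ℝ) ^ 2 * ((N : ℝ) ^ ε * (N : ℝ) ^ ε) * ((Real.exp b / 2) ^ (-δ2) * (N : ℝ) ^ (-(4 * κ))) * (N : ℝ) ^ κ) := by
          gcongr
      _ = Cf ^ 2 * Km ^ 2 * (Real.exp b / 2) ^ (-δ2) / (Real.pi * c) *
          ((N : ℝ) ^ (2 : ℝ) * ((N : ℝ) ^ ε * (N : ℝ) ^ ε) * (N : ℝ) ^ (-(4 * κ)) * (N : ℝ) ^ κ) := by
          rw [Real.rpow_two]
          ring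
      _ = Cf ^ 2 * Km ^ 2 * (Real.exp b / 2) ^ (-δ2) / (Real.pi * c) * (N : ℝ) ^ (2 + (ε + ε) + -(4 * κ) + κ) := by
          rw [Real.rpow_add hN0, Real.rpow_add hN0, Real.rpow_add hN0, Real.rpow_add hN0]
      _ ≤ _ := by
          apply mul_le_mul_of_nonneg_left _ (by positivity)
          apply rpow_mono hNr
          rw [hε]
          linarith
  calc _ ≤ 2 * ((Cf * Ca) ^ 2 * (N : ℝ) ^ (2 - D)) + 2 * (4 * Ca ^ 2 * CL * C1 ^ 2 * (N : ℝ) ^ (2 - D) +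
        Cf ^ 2 * Ca ^ 2 * E ^ 2 * (N : ℝ) ^ (2 - D) +
        Cf ^ 2 * Km ^ 2 * (Real.exp b / 2) ^ (-δ2) / (Real.pi * c) * (N : ℝ) ^ (2 - D)) := by linarith
    _ = _ := by ring

end Pool.Agent.H49.DM
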