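import Pool.Agent.H49.D.DK

set_option autoImplicit false

/-! Several factors, one of which has small twisted sums; almost every tuple of slopes. -/

namespace Pool.Agent.H49.DM

open Finset MeasureTheory Filter Topology
open scoped ENNReal
open Pool.Agent.H376R2.MR (er)

theorem base2 (f g : ℕ → ℂ) (hf : TP f) (hfg : Gro f) (hg : Gro g) (Δ : ℕ → ℝ)
    (hΔ : ∀ A, 0 < Δ A ∧ Δ A ≤ 1 / 4) (hN : PN Δ g) (c : ℝ) (hc : 0 < c) :
    ∃ Δ' : ℕ → ℝ, (∀ A, 0 < Δ' A) ∧ ∀ (h : ℤ) (b : ℝ), PF I01 Δ' (fun u n => f n * fac (sft g h) b c u n) := by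
  choose D hD1 hD2 hD3 using base2_core f g hf hfg hg Δ hΔ hN c hc
  refine ⟨D, hD1, fun h b => ?_⟩
  have hgr : GroF fun (u : ℝ) n => f n * fac (sft g h) b c u n :=
    ((hfg.toF (Ω := Unit)).mul (fac_gro (sft g h) (sft_gro hg h) b c hc)).comp fun u : ℝ => ((), u)
  refine PF_large I01 (fun n => ?_) D (fun A => (hD2 A).trans (by norm_num)) fun A => hD3 A h b
  obtain ⟨C, _, h1⟩ := hgr 1 one_pos
  exact ⟨C * ((n : ℝ) + 1) ^ (1 : ℝ), ae_of_all _ fun u => h1 u n⟩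

theorem PF_cube1 (f : ℕ → ℂ) (Δ : ℕ → ℝ) (a : Fin 1 → ℕ → ℂ) (b c : Fin 1 → ℝ)
    (h : PF I01 Δ (fun u n => f n * fac (a 0) (b 0) (c 0) u n)) : PF (cube 1) Δ (fam f a b c) := by
  intro A
  obtain ⟨C, hC, h1⟩ := h A
  refine ⟨C, hC, fun N τ hN hτ => le_trans (le_of_eq ?_) (h1 N τ hN hτ)⟩
  have mp := measurePreserving_piUnique (fun _ : Fin 1 => I01)
  rw [← mp.lintegral_comp_emb (MeasurableEquiv.measurableEmbedding _)]
  refine lintegral_congr fun ω => ?_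
  unfold fam
  simp only [univ_unique, prod_singleton]
  rfl

/-- one factor has small twisted sums -/
theorem special (f g : ℕ → ℂ) (hf : TP f) (hfg : Gro f) (hg : Gro g) (Δ : ℕ → ℝ)
    (hΔ : ∀ A, 0 < Δ A ∧ Δ A ≤ 1 / 4) (hN : PN Δ g) (k : ℕ) : ∀ (c : Fin (k + 1) → ℝ), (∀ i, 0 < c i) →
    ∀ j : Fin (k + 1), ∃ Δ' : ℕ → ℝ, (∀ A, 0 < Δ' A) ∧ ∀ (h : ℤ) (b : Fin (k + 1) → ℝ) (a : Fin (k + 1) → ℕ → ℂ),
      (∀ i, Gro (a i)) → a j = sft g h → PF (cube (k + 1)) Δ' (fam f a b c) := by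
  induction k with
  | zero =>
    intro c hc j
    obtain ⟨Δ', h1, h2⟩ := base2 f g hf hfg hg Δ hΔ hN (c 0) (hc 0)
    refine ⟨Δ', h1, fun h b a ha haj => PF_cube1 f Δ' a b c ?_⟩
    have : j = 0 := by
      apply Fin.ext
      have := j.isLt
      omega
    rw [this] at haj
    rw [haj]
    exact h2 h (b 0)
  | succ k ih =>
    intro c hc j
    obtain ⟨i, hi⟩ : ∃ i : Fin (k + 2), i ≠ j := exists_ne j
    obtain ⟨j', hj'⟩ := Fin.exists_succAbove_eq hi.symm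
    obtain ⟨Δ', h1, h2⟩ := ih (fun l => c (i.succAbove l)) (fun l => hc _) j'
    refine ⟨nxt (c i) Δ', nxt_pos h1, fun h b a ha haj => ?_⟩
    refine insert_fac f hfg i a ha b c hc Δ' h1 ?_
    exact h2 h (fun l => b (i.succAbove l)) (fun l => a (i.succAbove l)) (fun l => ha _) (by rw [hj', haj])

/-- the first sequence has small twisted sums -/
theorem plain (g : ℕ → ℂ) (hg : Gro g) (Δ : ℕ → ℝ) (hΔ : ∀ A, 0 < Δ A ∧ Δ A ≤ 1 / 4) (hN : PN Δ g) (k : ℕ) :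
    ∀ (c : Fin k → ℝ), (∀ i, 0 < c i) → ∃ Δ' : ℕ → ℝ, (∀ A, 0 < Δ' A) ∧ ∀ (b : Fin k → ℝ) (a : Fin k → ℕ → ℂ),
      (∀ i, Gro (a i)) → PF (cube k) Δ' (fam g a b c) := by
  induction k with
  | zero =>
    intro c _
    refine ⟨Δ, fun A => (hΔ A).1, fun b a _ A => ?_⟩
    obtain ⟨C, hC, h1⟩ := hN A
    refine ⟨C ^ 2, by positivity, fun N τ hN1 hτ => ?_⟩
    have hNr : (1 : ℝ) ≤ N := by exact_mod_cast hN1
    have hN0 : (0 : ℝ) < N := by linarith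
    have h2 := h1 N τ hN1 hτ
    have e : ∀ ω : Fin 0 → ℝ, ∑ n ∈ Icc 1 N, fam g a b c ω n * er τ (Real.log n) = S g τ N := by
      intro ω
      unfold fam S
      simp
    simp only [e]
    have hcu : cube 0 Set.univ = 1 := by
      unfold cube
      rw [Measure.pi_of_empty _ (fun i : Fin 0 => i.elim0), measure_univ]
    rw [lintegral_const, hcu, mul_one]
    refine (Pool.Agent.Y957.VK.enorm_sq_le h2).trans (ENNReal.ofReal_le_ofReal ?_)
    calc (C * (N : ℝ) ^ (1 - Δ A)) ^ 2 = C ^ 2 * ((N : ℝ) ^ (1 - Δ A) * (N : ℝ) ^ (1 - Δ A)) := by ring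
      _ = C ^ 2 * (N : ℝ) ^ ((1 - Δ A) + (1 - Δ A)) := by rw [Real.rpow_add hN0]
      _ ≤ _ := by
          apply mul_le_mul_of_nonneg_left _ (by positivity)
          exact rpow_mono hNr (by linarith [(hΔ A).1])
  | succ k ih =>
    intro c hc
    obtain ⟨Δ', h1, h2⟩ := ih (fun l => c ((0 : Fin (k + 1)).succAbove l)) (fun l => hc _)
    refine ⟨nxt (c 0) Δ', nxt_pos h1, fun b a ha => ?_⟩
    refine insert_fac g hg 0 a ha b c hc Δ' h1 ?_
    exact h2 _ _ (fun l => ha _)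

/-- from the cubes to all slopes -/
theorem all_ae (k : ℕ) (P : (Fin k → ℝ) → Prop)
    (h : ∀ b : Fin k → ℤ, ∀ᵐ ω ∂(cube k), P (fun i => Real.exp (b i + ω i))) :
    ∀ᵐ α : Fin k → ℝ, (∀ i, 0 < α i) → P α := by
  have hcube : MeasurableSet (Set.pi Set.univ (fun _ : Fin k => Set.Icc (0 : ℝ) 1)) :=
    MeasurableSet.univ_pi fun _ => measurableSet_Icc
  have key : ∀ b : Fin k → ℤ, (volume : Measure (Fin k → ℝ))
      {ω | ω ∈ Set.pi Set.univ (fun _ : Fin k => Set.Icc (0 : ℝ) 1) ∧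
        ¬ P (fun i => Real.exp (b i + ω i))} = 0 := by
    intro b
    have h3 := h b
    rw [cube, ← Measure.restrict_pi_pi, ← volume_pi, ae_restrict_iff' hcube] at h3
    rw [ae_iff] at h3
    refine measure_mono_null ?_ h3
    intro ω hω
    simp only [Set.mem_ofPred_eq, Classical.not_imp]
    exact hω
  rw [ae_iff]
  refine measure_mono_null ?_ (measure_iUnion_null fun b : Fin k → ℤ =>
    addHaar_image_eq_zero_of_differentiableOn_of_addHaar_eq_zero (volume : Measure (Fin k → ℝ))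
      (f := fun ω i => Real.exp (b i + ω i)) ?_ (key b))
  · intro α hα
    simp only [Set.mem_ofPred_eq, Classical.not_imp] at hα
    obtain ⟨hα1, hα2⟩ := hα
    rw [Set.mem_iUnion]
    have e : (fun i => Real.exp (((⌊Real.log (α i)⌋ : ℤ) : ℝ) + Int.fract (Real.log (α i)))) = α := by
      funext i
      rw [Int.floor_add_fract, Real.exp_log (hα1 i)]
    refine ⟨fun i => ⌊Real.log (α i)⌋, fun i => Int.fract (Real.log (α i)), ⟨?_, ?_⟩, e⟩
    · intro i _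
      exact ⟨Int.fract_nonneg _, (Int.fract_lt_one _).le⟩
    · rw [e]
      exact hα2
  · apply Differentiable.differentiableOn
    rw [differentiable_pi]
    intro i
    exact ((differentiable_apply i).const_add _).exp

/-- almost every tuple of slopes -/
theorem ae_of_PF (f : ℕ → ℂ) (hf : Gro f) (k : ℕ) (a : Fin k → ℕ → ℂ) (ha : ∀ i, Gro (a i)) (c : Fin k → ℝ)
    (hc : ∀ i, 0 < c i) (Δ : ℕ → ℝ) (hΔ : ∀ A, 0 < Δ A) (h : ∀ b : Fin k → ℝ, PF (cube k) Δ (fam f a b c)) :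
    ∀ᵐ α : Fin k → ℝ, (∀ i, 0 < α i) → ∃ K : ℝ, ∀ N : ℕ, 1 ≤ N →
      ‖∑ n ∈ Icc 1 N, f n * ∏ i, a i ⌊α i * (n : ℝ) ^ (c i)⌋₊‖ ≤ K * (N : ℝ) ^ (1 - min (Δ 0) 1 / 8) := by
  refine all_ae k (fun α => ∃ K : ℝ, ∀ N : ℕ, 1 ≤ N →
      ‖∑ n ∈ Icc 1 N, f n * ∏ i, a i ⌊α i * (n : ℝ) ^ (c i)⌋₊‖ ≤ K * (N : ℝ) ^ (1 - min (Δ 0) 1 / 8)) fun b => ?_
  have h1 := bc (cube k) (fam f a (fun i => (b i : ℝ)) c) (fun n => fam_meas _ _ _ _ n)
    (fam_gro f hf a ha _ c hc) Δ hΔ (h _)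
  have h2 : ∀ᵐ ω ∂(cube k), ω ∈ Set.pi Set.univ (fun _ : Fin k => Set.Icc (0 : ℝ) 1) := by
    rw [cube, ← Measure.restrict_pi_pi]
    exact ae_restrict_mem (MeasurableSet.univ_pi fun _ => measurableSet_Icc)
  filter_upwards [h1, h2] with ω hω1 hω2
  obtain ⟨K, hK⟩ := hω1
  refine ⟨K, fun N hN => le_trans (le_of_eq ?_) (hK N hN)⟩
  congr 1
  refine sum_congr rfl fun n _ => ?_
  unfold fam fac
  congr 1
  refine prod_congr rfl fun i _ => ?_
  rw [cl_eq (hω2 i (Set.mem_univ i))]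

end Pool.Agent.H49.DM
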