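import Pool.Agent.H49.D.DI
import Pool.Agent.H49.D.DD
import Pool.Agent.H49.G.R_seed8.TH212.PS.P10

set_option autoImplicit false

/-! Main terms: sequences close to polynomials in `log n`. -/

namespace Pool.Agent.H49.DM

open Finset Filter Topology Polynomial
open Pool.Agent.TH212.PS (Lk Lk_eq sum_log_pow)

/-- `x n = Q(log n) + O(n ^ (-δ + ε))` -/
def AP (δ : ℝ) (x : ℕ → ℂ) (Q : ℝ[X]) : Prop := ∀ ε : ℝ, 0 < ε → ∃ C : ℝ, 0 < C ∧
  ∀ᶠ n : ℕ in atTop, ‖x n - ((Q.eval (Real.log n) : ℝ) : ℂ)‖ ≤ C * (n : ℝ) ^ (-δ + ε)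

theorem poly_bd (Q : ℝ[X]) (ε : ℝ) (hε : 0 < ε) : ∃ C : ℝ, 0 < C ∧ ∀ n : ℕ, 1 ≤ n →
    ‖((Q.eval (Real.log n) : ℝ) : ℂ)‖ ≤ C * (n : ℝ) ^ ε := by
  obtain ⟨C, hC, h⟩ := (poly_both Q).2.bd ε hε
  exact ⟨C, hC, fun n hn => h n hn n le_rfl⟩

theorem AP.congr {δ : ℝ} {x y : ℕ → ℂ} {Q : ℝ[X]} (h : AP δ x Q) (hxy : ∀ᶠ n in atTop, x n = y n) : AP δ y Q := by
  intro ε hε
  obtain ⟨C, hC, h1⟩ := h ε hε
  refine ⟨C, hC, ?_⟩
  filter_upwards [h1, hxy] with n h2 h3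
  rw [← h3]
  exact h2

theorem AP.mono {δ δ' : ℝ} {x : ℕ → ℂ} {Q : ℝ[X]} (h : AP δ x Q) (hδ : δ' ≤ δ) : AP δ' x Q := by
  intro ε hε
  obtain ⟨C, hC, h1⟩ := h ε hε
  refine ⟨C, hC, ?_⟩
  filter_upwards [h1, eventually_ge_atTop 1] with n h2 h3
  refine h2.trans (mul_le_mul_of_nonneg_left ?_ hC.le)
  exact rpow_mono (by exact_mod_cast h3) (by linarith)

theorem AP_self (δ : ℝ) (Q : ℝ[X]) : AP δ (fun n => ((Q.eval (Real.log n) : ℝ) : ℂ)) Q := by
  intro ε _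
  refine ⟨1, one_pos, Eventually.of_forall fun n => ?_⟩
  rw [sub_self, norm_zero]
  positivity

theorem AP.add {δ : ℝ} {x y : ℕ → ℂ} {Q R : ℝ[X]} (hx : AP δ x Q) (hy : AP δ y R) :
    AP δ (fun n => x n + y n) (Q + R) := by
  intro ε hε
  obtain ⟨C, hC, h1⟩ := hx ε hε
  obtain ⟨C', hC', h2⟩ := hy ε hε
  refine ⟨C + C', by positivity, ?_⟩
  filter_upwards [h1, h2] with n h3 h4
  have e : x n + y n - (((Q + R).eval (Real.log n) : ℝ) : ℂ) =
      (x n - ((Q.eval (Real.log n) : ℝ) : ℂ)) + (y n - ((R.eval (Real.log n) : ℝ) : ℂ)) := by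
    rw [eval_add]
    push_cast
    ring
  rw [e, add_mul]
  exact (norm_add_le _ _).trans (add_le_add h3 h4)

theorem AP.mul {δ : ℝ} (hδ : 0 ≤ δ) {x y : ℕ → ℂ} {Q R : ℝ[X]} (hx : AP δ x Q) (hy : AP δ y R) :
    AP δ (fun n => x n * y n) (Q * R) := by
  intro ε hε
  obtain ⟨C1, hC1, h1⟩ := hx (ε / 2) (by positivity)
  obtain ⟨C2, hC2, h2⟩ := hy (ε / 2) (by positivity)
  obtain ⟨C3, hC3, h3⟩ := poly_bd Q (ε / 2) (by positivity)
  obtain ⟨C4, hC4, h4⟩ := poly_bd R (ε / 2) (by positivity)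
  refine ⟨C1 * (C4 + C2) + C3 * C2, by positivity, ?_⟩
  filter_upwards [h1, h2, eventually_ge_atTop 1] with n h5 h6 hn
  have hn1 : (1 : ℝ) ≤ n := by exact_mod_cast hn
  have hn0 : (0 : ℝ) < n := by linarith
  have h7 := h3 n hn
  have h8 := h4 n hn
  have e : x n * y n - (((Q * R).eval (Real.log n) : ℝ) : ℂ) =
      (x n - ((Q.eval (Real.log n) : ℝ) : ℂ)) * y n +
      ((Q.eval (Real.log n) : ℝ) : ℂ) * (y n - ((R.eval (Real.log n) : ℝ) : ℂ)) := by
    rw [eval_mul]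
    push_cast
    ring
  have hy1 : ‖y n‖ ≤ (C4 + C2) * (n : ℝ) ^ (ε / 2) := by
    calc ‖y n‖ = ‖((R.eval (Real.log n) : ℝ) : ℂ) + (y n - ((R.eval (Real.log n) : ℝ) : ℂ))‖ := by
          rw [add_sub_cancel]
      _ ≤ C4 * (n : ℝ) ^ (ε / 2) + C2 * (n : ℝ) ^ (-δ + ε / 2) := (norm_add_le _ _).trans (add_le_add h8 h6)
      _ ≤ C4 * (n : ℝ) ^ (ε / 2) + C2 * (n : ℝ) ^ (ε / 2) := by
          have : (n : ℝ) ^ (-δ + ε / 2) ≤ (n : ℝ) ^ (ε / 2) := rpow_mono hn1 (by linarith)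
          gcongr
      _ = _ := by ring
  have e2 : (n : ℝ) ^ (-δ + ε / 2) * (n : ℝ) ^ (ε / 2) = (n : ℝ) ^ (-δ + ε) := by
    rw [← Real.rpow_add hn0]
    congr 1
    ring
  rw [e]
  refine (norm_add_le _ _).trans ?_
  rw [norm_mul, norm_mul]
  calc ‖x n - ((Q.eval (Real.log n) : ℝ) : ℂ)‖ * ‖y n‖ +
        ‖((Q.eval (Real.log n) : ℝ) : ℂ)‖ * ‖y n - ((R.eval (Real.log n) : ℝ) : ℂ)‖ ≤
        (C1 * (n : ℝ) ^ (-δ + ε / 2)) * ((C4 + C2) * (n : ℝ) ^ (ε / 2)) +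
        (C3 * (n : ℝ) ^ (ε / 2)) * (C2 * (n : ℝ) ^ (-δ + ε / 2)) :=
        add_le_add (mul_le_mul h5 hy1 (norm_nonneg _) (by positivity))
          (mul_le_mul h7 h6 (norm_nonneg _) (by positivity))
    _ = (C1 * (C4 + C2) + C3 * C2) * ((n : ℝ) ^ (-δ + ε / 2) * (n : ℝ) ^ (ε / 2)) := by ring
    _ = _ := by rw [e2]

theorem AP_poly {δ : ℝ} (hδ : 0 ≤ δ) (x : ℕ → ℝ) (L : ℝ[X]) (hx : AP δ (fun n => ((x n : ℝ) : ℂ)) L) (P : ℝ[X]) :
    AP δ (fun n => ((P.eval (x n) : ℝ) : ℂ)) (P.comp L) := by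
  have hpow : ∀ k : ℕ, AP δ (fun n => ((x n ^ k : ℝ) : ℂ)) (L ^ k) := by
    intro k
    induction k with
    | zero =>
      refine (AP_self δ (1 : ℝ[X])).congr (Eventually.of_forall fun n => ?_)
      simp
    | succ k ih =>
      rw [pow_succ]
      refine (ih.mul hδ hx).congr (Eventually.of_forall fun n => ?_)
      rw [pow_succ]
      push_cast
      rfl
  induction P using Polynomial.induction_on' with
  | add p q hp hq =>
    rw [add_comp]
    refine (hp.add hq).congr (Eventually.of_forall fun n => ?_)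
    rw [eval_add]
    push_cast
    rfl
  | monomial k a =>
    rw [monomial_comp]
    refine ((AP_self δ (C a)).mul hδ (hpow k)).congr (Eventually.of_forall fun n => ?_)
    rw [eval_monomial, eval_C]
    push_cast
    rfl

theorem AP_prod {δ : ℝ} (hδ : 0 ≤ δ) {ι : Type} (s : Finset ι) (x : ι → ℕ → ℂ) (Q : ι → ℝ[X])
    (h : ∀ i ∈ s, AP δ (x i) (Q i)) : AP δ (fun n => ∏ i ∈ s, x i n) (∏ i ∈ s, Q i) := by
  classical
  induction s using Finset.induction_on with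
  | empty =>
    refine (AP_self δ (1 : ℝ[X])).congr (Eventually.of_forall fun n => ?_)
    simp
  | insert i s hi ih =>
    rw [prod_insert hi]
    refine ((h i (mem_insert_self _ _)).mul hδ (ih fun j hj => h j (mem_insert_of_mem hj))).congr
      (Eventually.of_forall fun n => ?_)
    rw [prod_insert hi]

/-- the value with the floor and the shift -/
def val (h : ℤ) (m : ℕ) : ℕ := ((m : ℤ) + h).toNat

theorem floor_log (α c : ℝ) (hα : 0 < α) (hc : 0 < c) (h : ℤ) : ∀ᶠ n : ℕ in atTop, 1 ≤ val h ⌊α * (n : ℝ) ^ c⌋₊ ∧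
    |Real.log (val h ⌊α * (n : ℝ) ^ c⌋₊) - (c * Real.log n + Real.log α)| ≤ 2 * (|(h : ℝ)| + 1) / α * (n : ℝ) ^ (-c) := by
  filter_upwards [ev_pow ((2 * (|(h : ℝ)| + 1) + 2) / α) c hc, eventually_ge_atTop 1] with n hn hn1
  have hnr : (1 : ℝ) ≤ n := by exact_mod_cast hn1
  have hn0 : (0 : ℝ) < n := by linarith
  rw [div_le_iff₀ hα] at hn
  obtain ⟨t, ht⟩ : ∃ t : ℝ, t = α * (n : ℝ) ^ c := ⟨_, rfl⟩
  have ht1 : 2 * (|(h : ℝ)| + 1) + 2 ≤ t := by rw [ht]; linarith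
  have hh0 := abs_nonneg (h : ℝ)
  have hh1 := le_abs_self (h : ℝ)
  have hh2 := neg_abs_le (h : ℝ)
  have ht0 : 0 < t := by linarith
  rw [← ht]
  have hf1 : (⌊t⌋₊ : ℝ) ≤ t := Nat.floor_le ht0.le
  have hf2 : t < ⌊t⌋₊ + 1 := Nat.lt_floor_add_one t
  have hpos : (0 : ℝ) < ((⌊t⌋₊ : ℤ) : ℝ) + h := by
    push_cast
    linarith
  have hpos' : 0 < (⌊t⌋₊ : ℤ) + h := by exact_mod_cast hpos
  have hv : ((val h ⌊t⌋₊ : ℕ) : ℝ) = (⌊t⌋₊ : ℝ) + h := by
    have : ((val h ⌊t⌋₊ : ℕ) : ℤ) = (⌊t⌋₊ : ℤ) + h := by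
      unfold val
      omega
    exact_mod_cast this
  refine ⟨by unfold val; omega, ?_⟩
  obtain ⟨m, hm⟩ : ∃ m : ℝ, m = ((val h ⌊t⌋₊ : ℕ) : ℝ) := ⟨_, rfl⟩
  rw [← hm]
  have hm1 : m ≤ t + |(h : ℝ)| := by rw [hm, hv]; linarith
  have hm2 : t - (|(h : ℝ)| + 1) ≤ m := by rw [hm, hv]; linarith
  have hm3 : t / 2 ≤ m := by linarith
  have hm0 : 0 < m := by linarith
  have elog : c * Real.log n + Real.log α = Real.log t := by
    rw [ht, Real.log_mul hα.ne' (by positivity), Real.log_rpow hn0]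
    ring
  have ee : 2 * (|(h : ℝ)| + 1) / α * (n : ℝ) ^ (-c) = 2 * (|(h : ℝ)| + 1) / t := by
    rw [ht, Real.rpow_neg hn0.le]
    field_simp
  rw [elog, ee, abs_le]
  constructor
  · have h1 : Real.log t - Real.log m ≤ 2 * (|(h : ℝ)| + 1) / t := by
      rw [← Real.log_div ht0.ne' hm0.ne']
      refine (Real.log_le_sub_one_of_pos (by positivity)).trans ?_
      rw [div_sub_one hm0.ne', div_le_div_iff₀ hm0 ht0]
      nlinarith
    linarith
  · rw [← Real.log_div hm0.ne' ht0.ne']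
    refine (Real.log_le_sub_one_of_pos (by positivity)).trans ?_
    rw [div_sub_one ht0.ne', div_le_div_iff₀ ht0 ht0]
    nlinarith

/-- the linear polynomial of the slope -/
noncomputable def lin (α c : ℝ) : ℝ[X] := C c * X + C (Real.log α)

theorem AP_fac (P : ℝ[X]) (α c : ℝ) (hα : 0 < α) (hc : 0 < c) (h : ℤ) :
    AP c (fun n => sft (sm P) h ⌊α * (n : ℝ) ^ c⌋₊) (P.comp (lin α c)) := by
  have h1 : AP c (fun n : ℕ => ((Real.log (val h ⌊α * (n : ℝ) ^ c⌋₊) : ℝ) : ℂ)) (lin α c) := by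
    intro ε hε
    refine ⟨2 * (|(h : ℝ)| + 1) / α, by positivity, ?_⟩
    filter_upwards [floor_log α c hα hc h, eventually_ge_atTop 1] with n hn hn1
    have hnr : (1 : ℝ) ≤ n := by exact_mod_cast hn1
    have e : (lin α c).eval (Real.log n) = c * Real.log n + Real.log α := by
      unfold lin
      simp
    rw [e, ← Complex.ofReal_sub, Complex.norm_real, Real.norm_eq_abs]
    refine hn.2.trans (mul_le_mul_of_nonneg_left ?_ (by positivity))
    exact rpow_mono hnr (by linarith)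
  refine (AP_poly hc.le _ _ h1 P).congr ?_
  filter_upwards [floor_log α c hα hc h] with n hn
  have e : sft (sm P) h ⌊α * (n : ℝ) ^ c⌋₊ = sm P (val h ⌊α * (n : ℝ) ^ c⌋₊) := rfl
  rw [e, sm_pos _ _ hn.1]

/-- sums of the errors -/
theorem AP_sum {δ : ℝ} (hδ : 0 < δ) {x : ℕ → ℂ} {Q : ℝ[X]} (h : AP δ x Q) : ∃ K : ℝ, ∀ N : ℕ, 1 ≤ N →
    ‖∑ n ∈ Icc 1 N, (x n - ((Q.eval (Real.log n) : ℝ) : ℂ))‖ ≤ K * (N : ℝ) ^ (1 - min δ 1 / 4) := by
  obtain ⟨C, hC, h1⟩ := h (δ / 2) (by positivity)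
  obtain ⟨N0, hN0⟩ := h1.exists_forall_of_atTop
  obtain ⟨t, ht⟩ : ∃ t : ℝ, t = min δ 1 / 2 := ⟨_, rfl⟩
  have ht0 : 0 < t := by rw [ht]; positivity
  have ht1 : t ≤ 1 / 2 := by rw [ht]; linarith [min_le_right δ 1]
  have ht2 : t ≤ δ / 2 := by rw [ht]; linarith [min_le_left δ 1]
  obtain ⟨B, hB⟩ : ∃ B : ℝ, B = ∑ n ∈ range (N0 + 1), ‖x n - ((Q.eval (Real.log n) : ℝ) : ℂ)‖ := ⟨_, rfl⟩
  have hB0 : 0 ≤ B := by rw [hB]; exact sum_nonneg fun _ _ => norm_nonneg _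
  refine ⟨B + C * (2 / t + 1), fun N hN => ?_⟩
  have hNr : (1 : ℝ) ≤ N := by exact_mod_cast hN
  have hNp : (0 : ℝ) < N := by linarith
  have hx : 1 ≤ (N : ℝ) ^ (1 - t / 2) := one_le_rpow' hNr (by linarith)
  have e0 : 1 - min δ 1 / 4 = 1 - t / 2 := by rw [ht]; ring
  rw [e0]
  have h2 : ∀ n ∈ Icc 1 N, ‖x n - ((Q.eval (Real.log n) : ℝ) : ℂ)‖ ≤
      (if n ∈ range (N0 + 1) then ‖x n - ((Q.eval (Real.log n) : ℝ) : ℂ)‖ else 0) + C * (n : ℝ) ^ (-t) := by
    intro n hn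
    rw [mem_Icc] at hn
    have hn1 : (1 : ℝ) ≤ n := by exact_mod_cast hn.1
    split_ifs with h3
    · have : 0 ≤ C * (n : ℝ) ^ (-t) := by positivity
      linarith
    · rw [mem_range] at h3
      rw [zero_add]
      refine (hN0 n (by omega)).trans (mul_le_mul_of_nonneg_left ?_ hC.le)
      exact rpow_mono hn1 (by linarith)
  have h3 := Pool.Agent.TH935.LP.sum_rpow_le N hN t (by linarith)
  have h4 := log_le_pow (t / 2) (by positivity) hNr
  have h5 := one_le_rpow' hNr (show 0 ≤ t / 2 by positivity)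
  have h6 : 1 + Real.log N ≤ (2 / t + 1) * (N : ℝ) ^ (t / 2) := by
    calc 1 + Real.log N ≤ (N : ℝ) ^ (t / 2) + (N : ℝ) ^ (t / 2) / (t / 2) := add_le_add h5 h4
      _ = _ := by
          field_simp
          ring
  have h7 : ∑ n ∈ Icc 1 N, (if n ∈ range (N0 + 1) then ‖x n - ((Q.eval (Real.log n) : ℝ) : ℂ)‖ else 0) ≤ B := by
    rw [hB, ← sum_filter]
    exact sum_le_sum_of_subset_of_nonneg (fun n hn => (mem_filter.1 hn).2) fun _ _ _ => norm_nonneg _
  refine (norm_sum_le _ _).trans ((sum_le_sum h2).trans ?_)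
  rw [sum_add_distrib, ← mul_sum]
  have h8 : (N : ℝ) ^ (1 - t) * (N : ℝ) ^ (t / 2) = (N : ℝ) ^ (1 - t / 2) := by
    rw [← Real.rpow_add hNp]
    congr 1
    ring
  calc _ ≤ B + C * ((N : ℝ) ^ (1 - t) * (1 + Real.log N)) := add_le_add h7 (mul_le_mul_of_nonneg_left h3 hC.le)
    _ ≤ B * (N : ℝ) ^ (1 - t / 2) + C * ((N : ℝ) ^ (1 - t) * ((2 / t + 1) * (N : ℝ) ^ (t / 2))) := by
        apply add_le_add
        · exact le_mul_of_one_le_right hB0 hx
        · gcongr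
    _ = B * (N : ℝ) ^ (1 - t / 2) + C * (2 / t + 1) * ((N : ℝ) ^ (1 - t) * (N : ℝ) ^ (t / 2)) := by ring
    _ = _ := by rw [h8]; ring

/-- the polynomial `R` with `R + R' = Q` -/
theorem exists_R (Q : ℝ[X]) : ∃ R : ℝ[X], R + derivative R = Q ∧ R.natDegree = Q.natDegree ∧
    R.leadingCoeff = Q.leadingCoeff := by
  obtain ⟨R, hR⟩ : ∃ R : ℝ[X], R + derivative R = Q := by
    induction Q using Polynomial.induction_on' with
    | add p q hp hq =>
      obtain ⟨R1, h1⟩ := hp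
      obtain ⟨R2, h2⟩ := hq
      refine ⟨R1 + R2, ?_⟩
      rw [derivative_add, ← h1, ← h2]
      ring
    | monomial k a =>
      refine ⟨C a * Lk k, ?_⟩
      rw [derivative_C_mul, ← mul_add, Lk_eq, C_mul_X_pow_eq_monomial]
  refine ⟨R, hR, ?_⟩
  rcases Nat.eq_zero_or_pos R.natDegree with h0 | h0
  · have h1 : derivative R = 0 := by
      rw [natDegree_eq_zero] at h0
      obtain ⟨x, hx⟩ := h0
      rw [← hx, derivative_C]
    rw [h1, add_zero] at hR
    rw [hR]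
    exact ⟨rfl, rfl⟩
  · have h1 : (derivative R).natDegree < R.natDegree := natDegree_derivative_lt h0.ne'
    have hne : R ≠ 0 := by
      intro h
      rw [h, natDegree_zero] at h0
      exact lt_irrefl _ h0
    constructor
    · rw [← hR, natDegree_add_eq_left_of_natDegree_lt h1]
    · rw [← hR]
      have h2 : (derivative R).degree < R.degree := degree_derivative_lt hne
      exact (leadingCoeff_add_of_degree_lt' h2).symm

theorem sum_poly (Q R : ℝ[X]) (h : R + derivative R = Q) : ∃ K : ℝ, ∀ X : ℝ, 1 ≤ X →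
    |∑ n ∈ Icc 1 ⌊X⌋₊, Q.eval (Real.log n) - X * R.eval (Real.log X)| ≤ K * X ^ (1 / 2 : ℝ) := by
  -- the case of natural numbers, for some `R'`
  have key : ∃ R' : ℝ[X], R' + derivative R' = Q ∧ ∃ K : ℝ, 0 ≤ K ∧ ∀ x : ℕ, 1 ≤ x →
      |∑ n ∈ Icc 1 x, Q.eval (Real.log n) - x * R'.eval (Real.log x)| ≤ K * (x : ℝ) ^ (1 / 2 : ℝ) := by
    clear h
    induction Q using Polynomial.induction_on' with
    | add p q hp hq =>
      obtain ⟨R1, h1, K1, hK1, h1'⟩ := hp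
      obtain ⟨R2, h2, K2, hK2, h2'⟩ := hq
      refine ⟨R1 + R2, by rw [derivative_add, ← h1, ← h2]; ring, K1 + K2, by positivity, fun x hx => ?_⟩
      have e : ∑ n ∈ Icc 1 x, (p + q).eval (Real.log n) - x * (R1 + R2).eval (Real.log x) =
          (∑ n ∈ Icc 1 x, p.eval (Real.log n) - x * R1.eval (Real.log x)) +
          (∑ n ∈ Icc 1 x, q.eval (Real.log n) - x * R2.eval (Real.log x)) := by
        simp only [eval_add, sum_add_distrib]
        ring
      rw [e, add_mul]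
      exact (abs_add_le _ _).trans (add_le_add (h1' x hx) (h2' x hx))
    | monomial k a =>
      obtain ⟨c, hc, h1⟩ := sum_log_pow k
      obtain ⟨C1, hC1, h2⟩ := (Gro_pow Gro_log k).bd (1 / 2) (by norm_num)
      refine ⟨C a * Lk k, by rw [derivative_C_mul, ← mul_add, Lk_eq, C_mul_X_pow_eq_monomial], |a| * (c + C1),
        by positivity, fun x hx => ?_⟩
      have hxr : (1 : ℝ) ≤ x := by exact_mod_cast hx
      have e : ∑ n ∈ Icc 1 x, (monomial k a).eval (Real.log n) - x * (C a * Lk k).eval (Real.log x) =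
          a * (∑ n ∈ Icc 1 x, Real.log n ^ k - x * (Lk k).eval (Real.log x)) := by
        simp only [eval_monomial, eval_mul, eval_C]
        rw [← mul_sum]
        ring
      rw [e, abs_mul, mul_assoc]
      apply mul_le_mul_of_nonneg_left _ (abs_nonneg a)
      refine (h1 x hx).trans ?_
      have h3 := h2 x hx x le_rfl
      rw [← Complex.ofReal_pow, Complex.norm_real, Real.norm_of_nonneg (pow_nonneg (Real.log_natCast_nonneg x) k)] at h3
      have h4 : 1 ≤ (x : ℝ) ^ (1 / 2 : ℝ) := one_le_rpow' hxr (by norm_num)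
      nlinarith
  obtain ⟨R', hR', K, hK, hKx⟩ := key
  -- `R' = R`
  have hRR : R' = R := by
    have h1 : (R' - R) + derivative (R' - R) = 0 := by
      rw [derivative_sub]
      calc R' - R + (derivative R' - derivative R) = (R' + derivative R') - (R + derivative R) := by ring
        _ = 0 := by rw [hR', h, sub_self]
    by_contra hne
    have hne' : R' - R ≠ 0 := sub_ne_zero.2 hne
    have h2 : (derivative (R' - R)).degree < (R' - R).degree := degree_derivative_lt hne'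
    have h3 := leadingCoeff_add_of_degree_lt' h2
    rw [h1, leadingCoeff_zero] at h3
    exact hne' (leadingCoeff_eq_zero.1 h3.symm)
  rw [hRR] at hKx
  obtain ⟨C1, hC1, hQ⟩ := (poly_both Q).2 (1 / 2) (by norm_num)
  -- bound for `Q` at reals
  have hQr : ∃ C2 : ℝ, 0 ≤ C2 ∧ ∀ y : ℝ, 1 ≤ y → |Q.eval (Real.log y)| ≤ C2 * y ^ (1 / 2 : ℝ) := by
    clear hQ hKx hRR hR' h
    induction Q using Polynomial.induction_on' with
    | add p q hp hq =>
      obtain ⟨a, ha, h1⟩ := hp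
      obtain ⟨b, hb, h2⟩ := hq
      refine ⟨a + b, by positivity, fun y hy => ?_⟩
      rw [eval_add, add_mul]
      exact (abs_add_le _ _).trans (add_le_add (h1 y hy) (h2 y hy))
    | monomial k a =>
      refine ⟨|a| * (2 * (k + 1)) ^ k, by positivity, fun y hy => ?_⟩
      have h1 : Real.log y ≤ y ^ (1 / (2 * (k + 1)) : ℝ) / (1 / (2 * (k + 1))) := log_le_pow _ (by positivity) hy
      have h0 : 0 ≤ Real.log y := Real.log_nonneg hy
      rw [eval_monomial, abs_mul, abs_of_nonneg (pow_nonneg h0 k), mul_assoc]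
      apply mul_le_mul_of_nonneg_left _ (abs_nonneg a)
      calc Real.log y ^ k ≤ (y ^ (1 / (2 * (k + 1)) : ℝ) / (1 / (2 * (k + 1)))) ^ k := pow_le_pow_left₀ h0 h1 k
        _ = (2 * (k + 1)) ^ k * (y ^ (1 / (2 * (k + 1)) : ℝ)) ^ k := by
            rw [div_div_eq_mul_div, div_one, mul_pow, mul_comm]
        _ ≤ (2 * (k + 1)) ^ k * y ^ (1 / 2 : ℝ) := by
            apply mul_le_mul_of_nonneg_left _ (by positivity)
            rw [← Real.rpow_natCast, ← Real.rpow_mul (by linarith)]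
            apply rpow_mono hy
            rw [div_mul_eq_mul_div, one_mul, div_le_div_iff₀ (by positivity) (by norm_num)]
            have : (0 : ℝ) ≤ k := Nat.cast_nonneg k
            linarith
  obtain ⟨C2, hC2, hQr⟩ := hQr
  refine ⟨K + C2, fun X hX => ?_⟩
  obtain ⟨N, hN⟩ : ∃ N : ℕ, N = ⌊X⌋₊ := ⟨_, rfl⟩
  have hN1 : 1 ≤ N := by rw [hN]; exact Nat.le_floor (by simpa using hX)
  have hNr : (1 : ℝ) ≤ N := by exact_mod_cast hN1
  have hNX : (N : ℝ) ≤ X := by rw [hN]; exact Nat.floor_le (by linarith)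
  have hXN : X < N + 1 := by rw [hN]; exact Nat.lt_floor_add_one X
  rw [← hN]
  have h1 := hKx N hN1
  have h2 : |X * R.eval (Real.log X) - N * R.eval (Real.log N)| ≤ C2 * X ^ (1 / 2 : ℝ) := by
    have hder : ∀ y ∈ Set.Icc (N : ℝ) X, HasDerivWithinAt (fun y => y * R.eval (Real.log y)) (Q.eval (Real.log y))
        (Set.Icc (N : ℝ) X) y := by
      intro y hy
      have hy0 : 0 < y := by linarith [hy.1]
      have h1 : HasDerivAt (fun y => R.eval (Real.log y)) ((derivative R).eval (Real.log y) * y⁻¹) y :=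
        (R.hasDerivAt (Real.log y)).comp y (Real.hasDerivAt_log hy0.ne')
      have h2 : HasDerivAt (fun y => y * R.eval (Real.log y))
          (1 * R.eval (Real.log y) + y * ((derivative R).eval (Real.log y) * y⁻¹)) y := (hasDerivAt_id y).mul h1
      have h4 : 1 * R.eval (Real.log y) + y * ((derivative R).eval (Real.log y) * y⁻¹) = Q.eval (Real.log y) := by
        rw [← h, eval_add]
        field_simp
      rw [← h4]
      exact h2.hasDerivWithinAt
    have h3 := (convex_Icc (N : ℝ) X).norm_image_sub_le_of_norm_hasDerivWithin_le (C := C2 * X ^ (1 / 2 : ℝ)) hder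
      (fun y hy => by
        rw [Real.norm_eq_abs]
        refine (hQr y (hNr.trans hy.1)).trans ?_
        apply mul_le_mul_of_nonneg_left _ hC2
        exact Real.rpow_le_rpow (by linarith [hy.1]) hy.2 (by norm_num))
      (Set.left_mem_Icc.2 hNX) (Set.right_mem_Icc.2 hNX)
    rw [Real.norm_eq_abs, Real.norm_eq_abs, abs_of_nonneg (sub_nonneg.2 hNX)] at h3
    refine h3.trans ?_
    have h5 : 0 ≤ C2 * X ^ (1 / 2 : ℝ) := by positivity
    calc C2 * X ^ (1 / 2 : ℝ) * (X - N) ≤ C2 * X ^ (1 / 2 : ℝ) * 1 :=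
          mul_le_mul_of_nonneg_left (by linarith) h5
      _ = _ := mul_one _
  have h3 : (N : ℝ) ^ (1 / 2 : ℝ) ≤ X ^ (1 / 2 : ℝ) := Real.rpow_le_rpow (by linarith) hNX (by norm_num)
  calc |∑ n ∈ Icc 1 N, Q.eval (Real.log n) - X * R.eval (Real.log X)| =
        |(∑ n ∈ Icc 1 N, Q.eval (Real.log n) - N * R.eval (Real.log N)) -
          (X * R.eval (Real.log X) - N * R.eval (Real.log N))| := by
          congr 1
          ring
    _ ≤ K * (N : ℝ) ^ (1 / 2 : ℝ) + C2 * X ^ (1 / 2 : ℝ) := (abs_sub _ _).trans (add_le_add h1 h2)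
    _ ≤ K * X ^ (1 / 2 : ℝ) + C2 * X ^ (1 / 2 : ℝ) := by gcongr
    _ = _ := by ring

end Pool.Agent.H49.DM
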