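import Pool.Agent.H49.D.DL
import Pool.Agent.H49.D.DN

set_option autoImplicit false

/-! Correlations of divisor functions along almost all real monomials. -/

namespace Pool.Agent.H49.DM

open Finset MeasureTheory Filter Topology Polynomial
open Pool.Agent.H376R2.MR (er)
open Pool.Agent.TH935.LD (dk)

theorem prod_tele (k : ℕ) (A B : Fin k → ℂ) : ∏ i, A i - ∏ i, B i =
    ∑ j, ∏ i, (if i < j then B i else if i = j then A i - B i else A i) := by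
  have h := Finset.prod_sub_ordered (univ : Finset (Fin k)) A (fun i => A i - B i)
  simp only [sub_sub_cancel] at h
  rw [h, sub_sub_cancel]
  refine sum_congr rfl fun j _ => ?_
  rw [prod_filter, prod_filter]
  have e1 : A j - B j = ∏ i, (if i = j then A i - B i else 1) := by
    rw [prod_ite_eq' univ j (fun i => A i - B i), if_pos (mem_univ j)]
  conv_lhs => rw [e1]
  rw [← prod_mul_distrib, ← prod_mul_distrib]
  refine prod_congr rfl fun i _ => ?_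
  rcases lt_trichotomy i j with h1 | h1 | h1
  · rw [if_neg h1.ne, if_pos h1, if_neg h1.not_gt, if_pos h1]
    ring
  · rw [h1, if_pos rfl, if_neg (lt_irrefl j), if_neg (lt_irrefl j), if_pos rfl]
    rw [if_neg (lt_irrefl j)]
    ring
  · rw [if_neg h1.ne', if_neg h1.not_gt, if_pos h1, if_neg h1.not_gt, if_neg h1.ne']
    ring

theorem exists_lb (k : ℕ) (δs : Fin k → ℝ) (h : ∀ j, 0 < δs j) : ∃ δ : ℝ, 0 < δ ∧ ∀ j, δ ≤ δs j := by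
  induction k with
  | zero => exact ⟨1, one_pos, fun j => j.elim0⟩
  | succ k ih =>
    obtain ⟨δ, h1, h2⟩ := ih (fun j => δs j.succ) (fun j => h _)
    refine ⟨min δ (δs 0), lt_min h1 (h 0), fun j => ?_⟩
    refine Fin.cases ?_ (fun i => ?_) j
    · exact min_le_right _ _
    · exact (min_le_left _ _).trans (h2 i)

/-- the density polynomials -/
theorem dens_all : ∃ P : ℕ → ℝ[X], ∀ r, 1 ≤ r → (P r).natDegree = r - 1 ∧
    (P r).leadingCoeff = 1 / ((r - 1).factorial : ℝ) ∧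
    ∃ Δ : ℕ → ℝ, (∀ A, 0 < Δ A ∧ Δ A ≤ 1 / 4) ∧ PN Δ (fun n => dc r n - sm (P r) n) := by
  have h : ∀ r, ∃ P : ℝ[X], 1 ≤ r → P.natDegree = r - 1 ∧ P.leadingCoeff = 1 / ((r - 1).factorial : ℝ) ∧
      ∃ Δ : ℕ → ℝ, (∀ A, 0 < Δ A ∧ Δ A ≤ 1 / 4) ∧ PN Δ (fun n => dc r n - sm P n) := by
    intro r
    by_cases hr : 1 ≤ r
    · obtain ⟨P, C, δ, h1, h2, hC, hδ, hδ1, h3⟩ := density r hr
      refine ⟨P, fun _ => ⟨h1, h2, ?_⟩⟩
      refine PN_of _ C δ hC hδ hδ1 h3 ?_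
      refine ((dc_TP r hr).add ((sm_TP P).smul (-1))).congr fun n _ => ?_
      ring
    · exact ⟨0, fun h => absurd h hr⟩
  choose P hP using h
  exact ⟨P, hP⟩

theorem special' (f g : ℕ → ℂ) (hf : TP f) (hfg : Gro f) (hg : Gro g) (Δ : ℕ → ℝ)
    (hΔ : ∀ A, 0 < Δ A ∧ Δ A ≤ 1 / 4) (hN : PN Δ g) (k : ℕ) (c : Fin k → ℝ) (hc : ∀ i, 0 < c i) (j : Fin k) :
    ∃ Δ' : ℕ → ℝ, (∀ A, 0 < Δ' A) ∧ ∀ (h : ℤ) (b : Fin k → ℝ) (a : Fin k → ℕ → ℂ),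
      (∀ i, Gro (a i)) → a j = sft g h → PF (cube k) Δ' (fam f a b c) := by
  cases k with
  | zero => exact j.elim0
  | succ k => exact special f g hf hfg hg Δ hΔ hN k c hc j

/-- **arbitrary sequences** -/
theorem orth (P : ℝ[X]) (r : ℕ) (Δ : ℕ → ℝ) (hΔ : ∀ A, 0 < Δ A ∧ Δ A ≤ 1 / 4)
    (hN : PN Δ (fun n => dc r n - sm P n)) (k : ℕ) (c : Fin k → ℝ) (hc : ∀ i, 0 < c i) :
    ∃ δ : ℝ, 0 < δ ∧ δ ≤ 1 ∧ ∀ a : Fin k → ℕ → ℂ, (∀ i, Gro (a i)) → ∀ᵐ α : Fin k → ℝ, (∀ i, 0 < α i) → ∃ K : ℝ,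
      ∀ N : ℕ, 1 ≤ N → ‖∑ n ∈ Icc 1 N, (dc r n - sm P n) * ∏ i, a i ⌊α i * (n : ℝ) ^ (c i)⌋₊‖ ≤ K * (N : ℝ) ^ (1 - δ) := by
  have hg : Gro (fun n => dc r n - sm P n) := (dc_gro r).sub (sm_gro P)
  obtain ⟨Δ', h1, h2⟩ := plain _ hg Δ hΔ hN k c hc
  refine ⟨min (Δ' 0) 1 / 8, by have := h1 0; positivity, ?_, fun a ha => ?_⟩
  · have := min_le_right (Δ' 0) 1
    linarith
  exact ae_of_PF _ hg k a ha c hc Δ' h1 fun b => h2 b a ha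

theorem lin_deg (α c : ℝ) (hc : 0 < c) : (lin α c).natDegree = 1 ∧ (lin α c).leadingCoeff = c := by
  unfold lin
  exact ⟨natDegree_linear hc.ne', leadingCoeff_linear hc.ne'⟩

/-- the polynomial `P_{r_0}(u) ∏ P_{r_i}(c_i u + log α_i)` -/
noncomputable def QQ (P0 : ℝ[X]) {k : ℕ} (P : Fin k → ℝ[X]) (α c : Fin k → ℝ) : ℝ[X] :=
  P0 * ∏ i, (P i).comp (lin (α i) (c i))

theorem QQ_deg (P0 : ℝ[X]) (hP0 : P0 ≠ 0) {k : ℕ} (P : Fin k → ℝ[X]) (hP : ∀ i, P i ≠ 0) (α c : Fin k → ℝ)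
    (hc : ∀ i, 0 < c i) : (QQ P0 P α c).natDegree = P0.natDegree + ∑ i, (P i).natDegree ∧
      (QQ P0 P α c).leadingCoeff = P0.leadingCoeff * ∏ i, ((P i).leadingCoeff * c i ^ (P i).natDegree) := by
  have h1 : ∀ i, (P i).comp (lin (α i) (c i)) ≠ 0 := by
    intro i h
    have h2 := leadingCoeff_comp (p := P i) (q := lin (α i) (c i)) (by rw [(lin_deg (α i) (c i) (hc i)).1]; norm_num)
    rw [h, leadingCoeff_zero, (lin_deg (α i) (c i) (hc i)).2] at h2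
    have h3 : (P i).leadingCoeff * c i ^ (P i).natDegree ≠ 0 :=
      mul_ne_zero (leadingCoeff_ne_zero.2 (hP i)) (pow_ne_zero _ (hc i).ne')
    exact h3 h2.symm
  have h2 : ∏ i, (P i).comp (lin (α i) (c i)) ≠ 0 := prod_ne_zero_iff.2 fun i _ => h1 i
  unfold QQ
  constructor
  · rw [natDegree_mul hP0 h2, natDegree_prod _ _ fun i _ => h1 i]
    congr 1
    refine sum_congr rfl fun i _ => ?_
    rw [natDegree_comp, (lin_deg (α i) (c i) (hc i)).1, mul_one]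
  · rw [leadingCoeff_mul, leadingCoeff_prod]
    congr 1
    refine prod_congr rfl fun i _ => ?_
    rw [leadingCoeff_comp (by rw [(lin_deg (α i) (c i) (hc i)).1]; norm_num), (lin_deg (α i) (c i) (hc i)).2]

/-- **the asymptotic formula** -/
theorem metric (P : ℕ → ℝ[X]) (hP : ∀ r, 1 ≤ r → (P r).natDegree = r - 1 ∧
    (P r).leadingCoeff = 1 / ((r - 1).factorial : ℝ) ∧
    ∃ Δ : ℕ → ℝ, (∀ A, 0 < Δ A ∧ Δ A ≤ 1 / 4) ∧ PN Δ (fun n => dc r n - sm (P r) n))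
    (k r0 : ℕ) (hr0 : 1 ≤ r0) (r : Fin k → ℕ) (hr : ∀ i, 1 ≤ r i) (c : Fin k → ℝ) (hc : ∀ i, 0 < c i) :
    ∃ δ : ℝ, 0 < δ ∧ ∀ᵐ α : Fin k → ℝ, (∀ i, 0 < α i) → ∀ R : ℝ[X],
      R + derivative R = QQ (P r0) (fun i => P (r i)) α c → ∀ h : Fin k → ℤ, ∃ K : ℝ, ∀ X : ℝ, 1 ≤ X →
      |∑ n ∈ Icc 1 ⌊X⌋₊, (dk r0 n : ℝ) * ∏ i, (dk (r i) (val (h i) ⌊α i * (n : ℝ) ^ (c i)⌋₊) : ℝ) -
        X * R.eval (Real.log X)| ≤ K * X ^ (1 - δ) := by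
  obtain ⟨Δ0, hΔ0, hPN0⟩ := (hP r0 hr0).2.2
  obtain ⟨δp, hδp, hδp1, hplain⟩ := orth (P r0) r0 Δ0 hΔ0 hPN0 k c hc
  have hgj : ∀ j : Fin k, Gro (fun n => dc (r j) n - sm (P (r j)) n) := fun j => (dc_gro _).sub (sm_gro _)
  have hsp : ∀ j : Fin k, ∃ Δ' : ℕ → ℝ, (∀ A, 0 < Δ' A) ∧ ∀ (h : ℤ) (b : Fin k → ℝ) (a : Fin k → ℕ → ℂ),
      (∀ i, Gro (a i)) → a j = sft (fun n => dc (r j) n - sm (P (r j)) n) h →
      PF (cube k) Δ' (fam (sm (P r0)) a b c) := by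
    intro j
    obtain ⟨Δj, hΔj, hPNj⟩ := (hP (r j) (hr j)).2.2
    exact special' _ _ (sm_TP _) (sm_gro _) (hgj j) Δj hΔj hPNj k c hc j
  choose Δs hΔs hPFs using hsp
  obtain ⟨δs, hδs, hδsj⟩ := exists_lb k (fun j => min (Δs j 0) 1 / 8) (fun j => by
    have := hΔs j 0
    positivity)
  obtain ⟨cm, hcm, hcmj⟩ := exists_lb k c hc
  obtain ⟨δ, hδ⟩ : ∃ δ : ℝ, δ = min (min δp δs) (min (min cm 1 / 4) (1 / 2)) := ⟨_, rfl⟩
  have hδ0 : 0 < δ := by rw [hδ]; positivity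
  have hd1 : δ ≤ δp := by rw [hδ]; exact (min_le_left _ _).trans (min_le_left _ _)
  have hd2 : δ ≤ δs := by rw [hδ]; exact (min_le_left _ _).trans (min_le_right _ _)
  have hd3 : δ ≤ min cm 1 / 4 := by rw [hδ]; exact (min_le_right _ _).trans (min_le_left _ _)
  have hd4 : δ ≤ 1 / 2 := by rw [hδ]; exact (min_le_right _ _).trans (min_le_right _ _)
  -- the mixed tuples
  obtain ⟨mx, hmx⟩ : ∃ mx : (Fin k → ℤ) → Fin k → Fin k → ℕ → ℂ, mx = fun h j i =>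
      if i < j then sft (sm (P (r i))) (h i) else if i = j then sft (fun n => dc (r j) n - sm (P (r j)) n) (h j)
        else sft (dc (r i)) (h i) := ⟨_, rfl⟩
  have hmxg : ∀ h j i, Gro (mx h j i) := by
    intro h j i
    rw [hmx]
    simp only
    split_ifs
    · exact sft_gro (sm_gro _) _
    · exact sft_gro (hgj j) _
    · exact sft_gro (dc_gro _) _
  refine ⟨δ, hδ0, ?_⟩
  have ha1 : ∀ᵐ α : Fin k → ℝ, ∀ h : Fin k → ℤ, (∀ i, 0 < α i) → ∃ K : ℝ, ∀ N : ℕ, 1 ≤ N →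
      ‖∑ n ∈ Icc 1 N, (dc r0 n - sm (P r0) n) * ∏ i, sft (dc (r i)) (h i) ⌊α i * (n : ℝ) ^ (c i)⌋₊‖ ≤
        K * (N : ℝ) ^ (1 - δp) :=
    ae_all_iff.2 fun h => hplain (fun i => sft (dc (r i)) (h i)) fun i => sft_gro (dc_gro _) _
  have ha2 : ∀ᵐ α : Fin k → ℝ, ∀ (h : Fin k → ℤ) (j : Fin k), (∀ i, 0 < α i) → ∃ K : ℝ, ∀ N : ℕ, 1 ≤ N →
      ‖∑ n ∈ Icc 1 N, sm (P r0) n * ∏ i, mx h j i ⌊α i * (n : ℝ) ^ (c i)⌋₊‖ ≤
        K * (N : ℝ) ^ (1 - min (Δs j 0) 1 / 8) := by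
    refine ae_all_iff.2 fun h => ae_all_iff.2 fun j => ?_
    refine ae_of_PF _ (sm_gro _) k (mx h j) (hmxg h j) c hc (Δs j) (hΔs j) fun b => ?_
    refine hPFs j (h j) b (mx h j) (hmxg h j) ?_
    rw [hmx]
    simp only
    rw [if_neg (lt_irrefl j)]
    simp
  filter_upwards [ha1, ha2] with α hα1 hα2 hα R hR h
  obtain ⟨K1, hK1⟩ := hα1 h hα
  have hα2' : ∀ j : Fin k, ∃ K : ℝ, ∀ N : ℕ, 1 ≤ N →
      ‖∑ n ∈ Icc 1 N, sm (P r0) n * ∏ i, mx h j i ⌊α i * (n : ℝ) ^ (c i)⌋₊‖ ≤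
        K * (N : ℝ) ^ (1 - min (Δs j 0) 1 / 8) := fun j => hα2 h j hα
  choose K2 hK2 using hα2'
  -- the smooth part
  have hAP : AP cm (fun n => sm (P r0) n * ∏ i, sft (sm (P (r i))) (h i) ⌊α i * (n : ℝ) ^ (c i)⌋₊)
      (QQ (P r0) (fun i => P (r i)) α c) := by
    unfold QQ
    refine AP.mul hcm.le ?_ (AP_prod hcm.le univ (fun i n => sft (sm (P (r i))) (h i) ⌊α i * (n : ℝ) ^ (c i)⌋₊) _
      fun i _ => (AP_fac (P (r i)) (α i) (c i) (hα i) (hc i) (h i)).mono (hcmj i))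
    refine (AP_self cm (P r0)).congr ?_
    filter_upwards [eventually_ge_atTop 1] with n hn
    rw [sm_pos _ _ hn]
  obtain ⟨K3, hK3⟩ := AP_sum hcm hAP
  obtain ⟨K4, hK4⟩ := sum_poly _ R hR
  refine ⟨|K1| + ∑ j, |K2 j| + |K3| + |K4|, fun X hX => ?_⟩
  obtain ⟨N, hN⟩ : ∃ N : ℕ, N = ⌊X⌋₊ := ⟨_, rfl⟩
  have hN1 : 1 ≤ N := by rw [hN]; exact Nat.le_floor (by simpa using hX)
  have hNr : (1 : ℝ) ≤ N := by exact_mod_cast hN1
  have hNX : (N : ℝ) ≤ X := by rw [hN]; exact Nat.floor_le (by linarith)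
  have hx : 0 ≤ X ^ (1 - δ) := by positivity
  have hpw : ∀ (K e : ℝ), δ ≤ e → e ≤ 1 → K * (N : ℝ) ^ (1 - e) ≤ |K| * X ^ (1 - δ) := by
    intro K e he he1
    have h1 : (N : ℝ) ^ (1 - e) ≤ X ^ (1 - δ) :=
      (Real.rpow_le_rpow (by linarith) hNX (by linarith)).trans (rpow_mono hX (by linarith))
    calc K * (N : ℝ) ^ (1 - e) ≤ |K| * (N : ℝ) ^ (1 - e) := mul_le_mul_of_nonneg_right (le_abs_self K) (by positivity)
      _ ≤ _ := mul_le_mul_of_nonneg_left h1 (abs_nonneg K)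
  have hk4 := hK4 X hX
  rw [← hN] at hk4 ⊢
  -- the decomposition
  have hdec : ∀ n, ((((dk r0 n : ℝ) * ∏ i, (dk (r i) (val (h i) ⌊α i * (n : ℝ) ^ (c i)⌋₊) : ℝ) : ℝ)) : ℂ) =
      (dc r0 n - sm (P r0) n) * ∏ i, sft (dc (r i)) (h i) ⌊α i * (n : ℝ) ^ (c i)⌋₊ +
      ∑ j, sm (P r0) n * ∏ i, mx h j i ⌊α i * (n : ℝ) ^ (c i)⌋₊ +
      sm (P r0) n * ∏ i, sft (sm (P (r i))) (h i) ⌊α i * (n : ℝ) ^ (c i)⌋₊ := by
    intro n
    have e1 : ((((dk r0 n : ℝ) * ∏ i, (dk (r i) (val (h i) ⌊α i * (n : ℝ) ^ (c i)⌋₊) : ℝ) : ℝ)) : ℂ) =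
        dc r0 n * ∏ i, sft (dc (r i)) (h i) ⌊α i * (n : ℝ) ^ (c i)⌋₊ := by
      push_cast
      rfl
    rw [e1, ← mul_sum]
    have e2 := prod_tele k (fun i => sft (dc (r i)) (h i) ⌊α i * (n : ℝ) ^ (c i)⌋₊)
      (fun i => sft (sm (P (r i))) (h i) ⌊α i * (n : ℝ) ^ (c i)⌋₊)
    have e3 : ∑ j, ∏ i, mx h j i ⌊α i * (n : ℝ) ^ (c i)⌋₊ =
        ∏ i, sft (dc (r i)) (h i) ⌊α i * (n : ℝ) ^ (c i)⌋₊ - ∏ i, sft (sm (P (r i))) (h i) ⌊α i * (n : ℝ) ^ (c i)⌋₊ := by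
      rw [e2]
      refine sum_congr rfl fun j _ => prod_congr rfl fun i _ => ?_
      rw [hmx]
      simp only
      split_ifs with h1 h2
      · rfl
      · rw [h2]
        rfl
      · rfl
    rw [e3]
    ring
  have e4 : ((∑ n ∈ Icc 1 N, (dk r0 n : ℝ) * ∏ i, (dk (r i) (val (h i) ⌊α i * (n : ℝ) ^ (c i)⌋₊) : ℝ) -
        X * R.eval (Real.log X) : ℝ) : ℂ) =
      ∑ n ∈ Icc 1 N, (dc r0 n - sm (P r0) n) * ∏ i, sft (dc (r i)) (h i) ⌊α i * (n : ℝ) ^ (c i)⌋₊ +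
      ∑ j, ∑ n ∈ Icc 1 N, sm (P r0) n * ∏ i, mx h j i ⌊α i * (n : ℝ) ^ (c i)⌋₊ +
      ∑ n ∈ Icc 1 N, (sm (P r0) n * ∏ i, sft (sm (P (r i))) (h i) ⌊α i * (n : ℝ) ^ (c i)⌋₊ -
        (((QQ (P r0) (fun i => P (r i)) α c).eval (Real.log n) : ℝ) : ℂ)) +
      ((∑ n ∈ Icc 1 N, (QQ (P r0) (fun i => P (r i)) α c).eval (Real.log n) - X * R.eval (Real.log X) : ℝ) : ℂ) := by
    rw [Complex.ofReal_sub, Complex.ofReal_sum, sum_congr rfl fun n _ => hdec n, Complex.ofReal_sub, Complex.ofReal_sum,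
      sum_add_distrib, sum_add_distrib, sum_comm (s := Icc 1 N) (t := univ), sum_sub_distrib]
    ring
  have e5 : |∑ n ∈ Icc 1 N, (dk r0 n : ℝ) * ∏ i, (dk (r i) (val (h i) ⌊α i * (n : ℝ) ^ (c i)⌋₊) : ℝ) -
        X * R.eval (Real.log X)| = ‖((∑ n ∈ Icc 1 N, (dk r0 n : ℝ) *
        ∏ i, (dk (r i) (val (h i) ⌊α i * (n : ℝ) ^ (c i)⌋₊) : ℝ) - X * R.eval (Real.log X) : ℝ) : ℂ)‖ := by
    rw [Complex.norm_real, Real.norm_eq_abs]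
  rw [e5, e4]
  have b1 := (hK1 N hN1).trans (hpw K1 δp hd1 hδp1)
  have b2 : ‖∑ j, ∑ n ∈ Icc 1 N, sm (P r0) n * ∏ i, mx h j i ⌊α i * (n : ℝ) ^ (c i)⌋₊‖ ≤ (∑ j, |K2 j|) * X ^ (1 - δ) := by
    refine (norm_sum_le _ _).trans ?_
    rw [sum_mul]
    refine sum_le_sum fun j _ => (hK2 j N hN1).trans (hpw (K2 j) _ (hd2.trans (hδsj j)) ?_)
    have := min_le_right (Δs j 0) 1
    linarith
  have b3 := (hK3 N hN1).trans (hpw K3 _ hd3 (by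
    have := min_le_right cm 1
    linarith))
  have b4 : ‖((∑ n ∈ Icc 1 N, (QQ (P r0) (fun i => P (r i)) α c).eval (Real.log n) - X * R.eval (Real.log X) : ℝ) : ℂ)‖ ≤
      |K4| * X ^ (1 - δ) := by
    rw [Complex.norm_real, Real.norm_eq_abs]
    refine hk4.trans ?_
    calc K4 * X ^ (1 / 2 : ℝ) ≤ |K4| * X ^ (1 / 2 : ℝ) := mul_le_mul_of_nonneg_right (le_abs_self _) (by positivity)
      _ ≤ _ := by
          apply mul_le_mul_of_nonneg_left _ (abs_nonneg _)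
          exact rpow_mono hX (by linarith)
  calc _ ≤ |K1| * X ^ (1 - δ) + (∑ j, |K2 j|) * X ^ (1 - δ) + |K3| * X ^ (1 - δ) + |K4| * X ^ (1 - δ) := by
        refine (norm_add_le _ _).trans (add_le_add ?_ b4)
        refine (norm_add_le _ _).trans (add_le_add ?_ b3)
        exact (norm_add_le _ _).trans (add_le_add b1 b2)
    _ = _ := by ring

end Pool.Agent.H49.DM
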