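import Pool.Agent.H49.D.FD

set_option autoImplicit false

/-! One factor with small twisted sums at the integer parts: the explicit form. -/

namespace Pool.Agent.H49.CC

open Finset MeasureTheory Filter Topology FourierTransform
open scoped ENNReal
open Pool.Agent.H376R2.MR (er)
open Pool.Agent.Y957.VK (Dn Gn Bw enorm_sq_le B_int Gn_int four_Gn Dn_meas)
open Pool.Agent.H49.DM (er_norm Bw_zero Bw_in Bw_meas sf sf_meas Bw_bd step_win cl cl_le cl_nonneg cl_eq fac fac_meas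
  I01 S sft toNat_le)
open Pool.Agent.H49.ME

theorem structX (b : ℝ) (h : ℤ) : ∃ C : ℝ, Real.exp (b + 1) + 3 + |(h : ℝ)| ≤ C ∧ ∀ (N : ℕ) (δ τ P : ℝ), 1 ≤ N → 0 < δ → δ ≤ 1 →
    1 ≤ τ → 0 ≤ P → C ≤ δ * N → ∀ d : ℕ → ℂ, (∀ n, ‖d n‖ ≤ 1) → (∀ n : ℕ, (n : ℝ) ≤ δ * N → d n = 0) →
    ∀ g : ℕ → ℂ, (∀ n, ‖g n‖ ≤ 1) →
    (∀ t : ℝ, |t| ≤ 2 * Real.pi * τ * N → ∀ M : ℕ, (M : ℝ) ≤ C * N → ‖S g t M‖ ≤ P) →
    ∫⁻ u, ‖∑ n ∈ Finset.Icc 1 N, d n * fac (sft g h) b 1 u n‖ₑ ^ 2 ∂I01 ≤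
      ENNReal.ofReal (C * (τ ^ 2 * P ^ 2 * (Real.log (1 / δ) + 1) / δ ^ 2 + (N : ℝ) ^ 2 / τ)) := by
  have hπ := Real.pi_pos
  have hh := abs_nonneg (h : ℝ)
  obtain ⟨eb, heb⟩ : ∃ eb : ℝ, eb = Real.exp b := ⟨_, rfl⟩
  have hebp : 0 < eb := by rw [heb]; exact Real.exp_pos b
  obtain ⟨e1, he1⟩ : ∃ e1 : ℝ, e1 = Real.exp (b + 1) := ⟨_, rfl⟩
  have he1p : 0 < e1 := by rw [he1]; positivity
  obtain ⟨c1, hc1⟩ : ∃ c1 : ℝ, c1 = (4 * |(h : ℝ)| + 8) * 2 / eb := ⟨_, rfl⟩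
  obtain ⟨c2, hc2⟩ : ∃ c2 : ℝ, c2 = ((16 * |(h : ℝ)| + 16) * 2 / eb) ^ 2 * 900 := ⟨_, rfl⟩
  obtain ⟨CV, hCV⟩ : ∃ CV : ℝ, CV = 2 * (e1 + 2 + 3) := ⟨_, rfl⟩
  have hc1p : 0 < c1 := by rw [hc1]; positivity
  have hc2p : 0 < c2 := by rw [hc2]; positivity
  have hCVp : 0 < CV := by rw [hCV]; positivity
  refine ⟨e1 + 3 + |(h : ℝ)| + c1 + c2 + CV, by rw [he1]; linarith, fun N δ τ P hN hδ hδ1 hτ hP hCN d hd hd0 g hg hS => ?_⟩
  obtain ⟨C, hC⟩ : ∃ C : ℝ, C = e1 + 3 + |(h : ℝ)| + c1 + c2 + CV := ⟨_, rfl⟩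
  rw [← hC] at hCN hS ⊢
  obtain ⟨e0, he0⟩ : ∃ e0 : ℝ, e0 = eb * δ := ⟨_, rfl⟩
  have he0p : 0 < e0 := by rw [he0]; positivity
  have hlog : 0 ≤ Real.log (1 / δ) := Real.log_nonneg (by rw [le_div_iff₀ hδ]; linarith)
  have hN1 : (1 : ℝ) ≤ N := by exact_mod_cast hN
  have hN0 : (0 : ℝ) < N := by linarith
  have hNe : (4 * |(h : ℝ)| + 8) * 2 ≤ e0 * N := by
    have h1 : c1 ≤ δ * N := by linarith
    rw [hc1, div_le_iff₀ hebp] at h1
    rw [he0]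
    linarith
  obtain ⟨K0, hK0⟩ : ∃ K0 : ℕ, K0 = ⌊e0 * N⌋₊ := ⟨_, rfl⟩
  obtain ⟨K1, hK1⟩ : ∃ K1 : ℕ, K1 = ⌈e1 * N⌉₊ := ⟨_, rfl⟩
  have hK0a : (K0 : ℝ) ≤ e0 * N := by rw [hK0]; exact Nat.floor_le (by positivity)
  have hK0b : e0 * N - 1 < K0 := by rw [hK0]; linarith [Nat.lt_floor_add_one (e0 * N)]
  have hK1a : e1 * N ≤ K1 := by rw [hK1]; exact Nat.le_ceil _
  have hK1b : (K1 : ℝ) < e1 * N + 1 := by rw [hK1]; exact Nat.ceil_lt_add_one (by positivity)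
  have hK0c : 4 * |(h : ℝ)| + 6 ≤ K0 := by linarith
  have hK0d : e0 * N / 2 ≤ K0 := by linarith
  have hK0p : (0 : ℝ) < K0 := by linarith
  have heb1 : e0 ≤ eb := by rw [he0]; nlinarith
  have he01 : e0 ≤ e1 := by
    have h1 : eb ≤ e1 := by rw [heb, he1]; exact Real.exp_le_exp.2 (by linarith)
    linarith
  have hK01r : (K0 : ℝ) ≤ K1 := by
    have : e0 * N ≤ e1 * N := mul_le_mul_of_nonneg_right he01 hN0.le
    linarith
  have hK01 : K0 ≤ K1 := by exact_mod_cast hK01r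
  have hK1p : (0 : ℝ) < K1 := by linarith
  obtain ⟨β, hβ⟩ : ∃ β : ℝ, β = Real.log K0 := ⟨_, rfl⟩
  obtain ⟨L, hL⟩ : ∃ L : ℝ, L = Real.log K1 - Real.log K0 := ⟨_, rfl⟩
  have hL0 : 0 ≤ L := by rw [hL]; exact sub_nonneg.2 (Real.log_le_log hK0p hK01r)
  have hw1 : β ≤ b + Real.log (δ * N) := by
    rw [hβ]
    have : b + Real.log (δ * N) = Real.log (e0 * N) := by
      rw [he0, heb, mul_assoc, Real.log_mul (Real.exp_pos b).ne' (by positivity), Real.log_exp]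
    rw [this]
    exact Real.log_le_log hK0p hK0a
  have hw2 : b + 1 + Real.log N ≤ β + L := by
    rw [hβ, hL]
    have : b + 1 + Real.log N = Real.log (e1 * N) := by
      rw [he1, Real.log_mul (Real.exp_pos _).ne' hN0.ne', Real.log_exp]
    rw [this, add_sub_cancel]
    exact Real.log_le_log (by positivity) hK1a
  have hsb : ∀ n, ‖sft g h n‖ ≤ 1 := fun n => hg _
  have haQ : ∀ n : ℕ, (n : ℝ) ≤ Real.exp (β + L) → ‖sft g h n‖ ≤ 1 := fun n _ => hsb n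
  have hBm := Bw_meas (sf_meas (sft g h)) β L
  have hB1 := Bw_bd (sft g h) β L 1 zero_le_one haQ
  have hBs : ∀ y, y ∉ Set.Icc 0 L → Bw (sf (sft g h)) β L y = 0 := fun y hy => Bw_zero hy
  have hBi : Integrable (Bw (sf (sft g h)) β L) := B_int hBm hB1 hBs
  obtain ⟨V, hV⟩ : ∃ V : ℝ, V = 2 * 1 * (Real.exp (β + L) + 3) := ⟨_, rfl⟩
  have hV0 : 0 ≤ V := by rw [hV]; positivity
  have hVN : V ≤ CV * N := by
    have : Real.exp (β + L) = K1 := by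
      rw [hβ, hL, add_sub_cancel, Real.exp_log hK1p]
    rw [hV, this, hCV]
    nlinarith
  obtain ⟨T, hT⟩ : ∃ T : ℝ, T = τ * N := ⟨_, rfl⟩
  have hTp : 1 ≤ T := by rw [hT]; nlinarith
  obtain ⟨η, hη⟩ : ∃ η : ℝ, η = (16 * |(h : ℝ)| + 16) * 2 / eb * (P / (δ * N)) := ⟨_, rfl⟩
  have hη0 : 0 ≤ η := by rw [hη]; positivity
  refine (one_le_G d (sft g h) b β L N hN δ hδ hd0 hw1 hw2).trans ?_
  refine (split1 d hd hBi hB1 1 N hV0 (fun s hs _ => by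
      rw [hV]
      exact step_win (sft g h) β L 1 hL0 zero_le_one haQ s hs) hTp).trans ?_
  have hset : MeasurableSet {ξ : ℝ | T < |ξ|} := measurableSet_lt measurable_const measurable_id.abs
  have hF : ∀ ξ ∈ {ξ : ℝ | T < |ξ|}ᶜ, ‖𝓕 (Bw (sf (sft g h)) β L) ξ‖ ≤ η := by
    intro ξ hξ
    have hξ' : |ξ| ≤ T := by simpa using hξ
    rw [hβ, hL]
    refine (fourB g h ξ K0 K1 P hP hK0c hK01 fun M hM => hS _ ?_ M ?_).trans ?_
    · rw [abs_neg, abs_mul, abs_of_pos (show (0 : ℝ) < 2 * Real.pi by positivity)]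
      calc 2 * Real.pi * |ξ| ≤ 2 * Real.pi * T := mul_le_mul_of_nonneg_left hξ' (by positivity)
        _ = _ := by rw [hT]; ring
    · have h1 : (e1 + 3 + |(h : ℝ)|) * N ≤ C * N := mul_le_mul_of_nonneg_right (by rw [hC]; linarith) hN0.le
      nlinarith
    · rw [div_le_iff₀ hK0p, hη]
      calc (16 * |(h : ℝ)| + 16) * P = (16 * |(h : ℝ)| + 16) * 2 / eb * (P / (δ * N)) * (e0 * N / 2) := by
            rw [he0]
            field_simp
        _ ≤ _ := mul_le_mul_of_nonneg_left hK0d (by positivity)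
  have hlow : ∫⁻ ξ in {ξ : ℝ | T < |ξ|}ᶜ, ‖Dn d 1 N (2 * Real.pi * ξ)‖ₑ ^ 2 * ‖𝓕 (Bw (sf (sft g h)) β L) ξ‖ₑ ^ 2 ≤
      ENNReal.ofReal (c2 * (τ ^ 2 * P ^ 2 * (Real.log (1 / δ) + 1) / δ ^ 2)) := by
    calc ∫⁻ ξ in {ξ : ℝ | T < |ξ|}ᶜ, ‖Dn d 1 N (2 * Real.pi * ξ)‖ₑ ^ 2 * ‖𝓕 (Bw (sf (sft g h)) β L) ξ‖ₑ ^ 2 ≤
          ∫⁻ ξ in {ξ : ℝ | T < |ξ|}ᶜ, ‖Dn d 1 N (2 * Real.pi * ξ)‖ₑ ^ 2 * ENNReal.ofReal (η ^ 2) := by
          refine setLIntegral_mono' hset.compl fun ξ hξ => ?_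
          exact mul_le_mul_right (enorm_sq_le (hF ξ hξ)) _
      _ = (∫⁻ ξ in {ξ : ℝ | T < |ξ|}ᶜ, ‖Dn d 1 N (2 * Real.pi * ξ)‖ₑ ^ 2) * ENNReal.ofReal (η ^ 2) :=
          lintegral_mul_const' _ _ ENNReal.ofReal_ne_top
      _ ≤ ENNReal.ofReal (4 * (2 * N + 4 * Real.pi * T) ^ 2 * (Real.log (1 / δ) + 1)) * ENNReal.ofReal (η ^ 2) :=
          mul_le_mul_left (D_L2 d hd N hN δ hδ hδ1 hd0 T hTp) _
      _ = ENNReal.ofReal (4 * (2 * N + 4 * Real.pi * T) ^ 2 * (Real.log (1 / δ) + 1) * η ^ 2) := by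
          rw [← ENNReal.ofReal_mul (by positivity)]
      _ ≤ _ := by
          apply ENNReal.ofReal_le_ofReal
          have hπ4 := Real.pi_lt_d2
          have h1 : 2 * (N : ℝ) + 4 * Real.pi * T ≤ 15 * τ * N := by
            rw [hT]
            have h2 : (N : ℝ) ≤ τ * N := by nlinarith
            have h3 : 0 < τ * N := by linarith
            nlinarith
          have h0 : 0 ≤ 2 * (N : ℝ) + 4 * Real.pi * T := by
            have : 0 < T := by linarith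
            positivity
          calc 4 * (2 * (N : ℝ) + 4 * Real.pi * T) ^ 2 * (Real.log (1 / δ) + 1) * η ^ 2 ≤
                4 * (15 * τ * N) ^ 2 * (Real.log (1 / δ) + 1) * η ^ 2 := by
                apply mul_le_mul_of_nonneg_right _ (by positivity)
                apply mul_le_mul_of_nonneg_right _ (by positivity)
                apply mul_le_mul_of_nonneg_left _ (by norm_num)
                exact pow_le_pow_left₀ h0 h1 2
            _ = _ := by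
                rw [hη, hc2]
                field_simp
                ring
  have hhigh : (N : ℝ) ^ 2 * V / T ≤ CV * ((N : ℝ) ^ 2 / τ) := by
    have hT0 : 0 < T := by linarith
    rw [div_le_iff₀ hT0, hT]
    have hτ0 : 0 < τ := by linarith
    calc (N : ℝ) ^ 2 * V ≤ (N : ℝ) ^ 2 * (CV * N) := mul_le_mul_of_nonneg_left hVN (by positivity)
      _ = _ := by field_simp
  refine (add_le_add hlow (ENNReal.ofReal_le_ofReal hhigh)).trans ?_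
  have hτ0 : 0 < τ := by linarith
  rw [← ENNReal.ofReal_add (by positivity) (by positivity)]
  apply ENNReal.ofReal_le_ofReal
  have h1 : 0 ≤ τ ^ 2 * P ^ 2 * (Real.log (1 / δ) + 1) / δ ^ 2 := by positivity
  have h2 : 0 ≤ (N : ℝ) ^ 2 / τ := by positivity
  have h3 : c2 ≤ C := by rw [hC]; linarith
  have h4 : CV ≤ C := by rw [hC]; linarith
  have h5 := mul_le_mul_of_nonneg_right h3 h1
  have h6 := mul_le_mul_of_nonneg_right h4 h2
  linarith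

/-- the same with bounds for both sequences -/
theorem structY (b : ℝ) (h : ℤ) : ∃ C : ℝ, Real.exp (b + 1) + 3 + |(h : ℝ)| ≤ C ∧ ∀ (N : ℕ) (δ τ P D G : ℝ), 1 ≤ N → 0 < δ → δ ≤ 1 →
    1 ≤ τ → 0 ≤ P → 0 < D → 0 < G → C ≤ δ * N → ∀ d : ℕ → ℂ, (∀ n, ‖d n‖ ≤ D) →
    (∀ n : ℕ, (n : ℝ) ≤ δ * N → d n = 0) → ∀ g : ℕ → ℂ, (∀ n : ℕ, (n : ℝ) ≤ C * N → ‖g n‖ ≤ G) →
    (∀ t : ℝ, |t| ≤ 2 * Real.pi * τ * N → ∀ M : ℕ, (M : ℝ) ≤ C * N → ‖S g t M‖ ≤ P) →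
    ∫⁻ u, ‖∑ n ∈ Finset.Icc 1 N, d n * fac (sft g h) b 1 u n‖ₑ ^ 2 ∂I01 ≤
      ENNReal.ofReal (C * D ^ 2 * (τ ^ 2 * P ^ 2 * (Real.log (1 / δ) + 1) / δ ^ 2 + G ^ 2 * (N : ℝ) ^ 2 / τ)) := by
  obtain ⟨C, hC, hX⟩ := structX b h
  refine ⟨C, hC, fun N δ τ P D G hN hδ hδ1 hτ hP hD hG hCN d hd hd0 g hg hS => ?_⟩
  have hN1 : (1 : ℝ) ≤ N := by exact_mod_cast hN
  have hN0 : (0 : ℝ) < N := by linarith
  have hDc : (D : ℂ) ≠ 0 := by exact_mod_cast hD.ne'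
  have hGc : (G : ℂ) ≠ 0 := by exact_mod_cast hG.ne'
  obtain ⟨d', hd'⟩ : ∃ d' : ℕ → ℂ, d' = fun n => d n / D := ⟨_, rfl⟩
  obtain ⟨g', hg'⟩ : ∃ g' : ℕ → ℂ, g' = fun n : ℕ => if (n : ℝ) ≤ C * N then g n / G else 0 := ⟨_, rfl⟩
  have hS' : ∀ t : ℝ, |t| ≤ 2 * Real.pi * τ * N → ∀ M : ℕ, (M : ℝ) ≤ C * N → ‖S g' t M‖ ≤ P / G := by
    intro t ht M hM
    have e : S g' t M = S g t M / G := by
      unfold S
      rw [sum_div]
      refine sum_congr rfl fun n hn => ?_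
      rw [mem_Icc] at hn
      rw [hg']
      have : (n : ℝ) ≤ C * N := le_trans (by exact_mod_cast hn.2) hM
      simp only [if_pos this]
      ring
    rw [e, norm_div, Complex.norm_real, Real.norm_of_nonneg hG.le]
    exact div_le_div_of_nonneg_right (hS t ht M hM) hG.le
  have h1 := hX N δ τ (P / G) hN hδ hδ1 hτ (by positivity) hCN d'
    (fun n => by
      rw [hd']
      simp only
      rw [norm_div, Complex.norm_real, Real.norm_of_nonneg hD.le, div_le_one hD]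
      exact hd n)
    (fun n hn => by
      rw [hd']
      simp only
      rw [hd0 n hn, zero_div]) g'
    (fun n => by
      rw [hg']
      simp only
      split_ifs with hn
      · rw [norm_div, Complex.norm_real, Real.norm_of_nonneg hG.le, div_le_one hG]
        exact hg n hn
      · rw [norm_zero]
        exact zero_le_one) hS'
  have e : ∀ u ∈ Set.Icc (0 : ℝ) 1, ∑ n ∈ Finset.Icc 1 N, d n * fac (sft g h) b 1 u n =
      (D * G : ℂ) * ∑ n ∈ Finset.Icc 1 N, d' n * fac (sft g' h) b 1 u n := by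
    intro u hu
    rw [mul_sum]
    refine sum_congr rfl fun n hn => ?_
    rw [mem_Icc] at hn
    have hn2 : (n : ℝ) ≤ N := by exact_mod_cast hn.2
    have hle : (((((⌊Real.exp (b + cl u) * (n : ℝ) ^ (1 : ℝ)⌋₊ : ℕ) : ℤ) + h).toNat : ℕ) : ℝ) ≤ C * N := by
      refine (toNat_le _ h).trans ?_
      have h2 : (⌊Real.exp (b + cl u) * (n : ℝ) ^ (1 : ℝ)⌋₊ : ℝ) ≤ Real.exp (b + 1) * N := by
        refine (Nat.floor_le (by positivity)).trans ?_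
        rw [Real.rpow_one]
        apply mul_le_mul _ hn2 (Nat.cast_nonneg n) (Real.exp_pos _).le
        exact Real.exp_le_exp.2 (by linarith [cl_le u])
      have h3 : (Real.exp (b + 1) + 3 + |(h : ℝ)|) * N ≤ C * N := mul_le_mul_of_nonneg_right hC hN0.le
      have h4 : |(h : ℝ)| ≤ |(h : ℝ)| * N := le_mul_of_one_le_right (abs_nonneg _) hN1
      nlinarith
    rw [hd', hg']
    unfold fac sft
    simp only [if_pos hle]
    field_simp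
  have e2 : ∫⁻ u, ‖∑ n ∈ Finset.Icc 1 N, d n * fac (sft g h) b 1 u n‖ₑ ^ 2 ∂I01 =
      ENNReal.ofReal ((D * G) ^ 2) * ∫⁻ u, ‖∑ n ∈ Finset.Icc 1 N, d' n * fac (sft g' h) b 1 u n‖ₑ ^ 2 ∂I01 := by
    rw [← lintegral_const_mul' _ _ ENNReal.ofReal_ne_top]
    refine setLIntegral_congr_fun measurableSet_Icc fun u hu => ?_
    rw [e u hu, enorm_mul, mul_pow]
    congr 1
    rw [ENNReal.ofReal_pow (by positivity), ← ofReal_norm, norm_mul, Complex.norm_real, Complex.norm_real,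
      Real.norm_of_nonneg hD.le, Real.norm_of_nonneg hG.le]
  rw [e2]
  refine (mul_le_mul_right h1 _).trans ?_
  rw [← ENNReal.ofReal_mul (by positivity)]
  apply ENNReal.ofReal_le_ofReal
  apply le_of_eq
  have hτ0 : 0 < τ := by linarith
  field_simp

end Pool.Agent.H49.CC
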