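import Pool.Agent.H49.D.GA
import Pool.Agent.H49.G.R_seed8.Y957.VK.Fin1
import Pool.Agent.H49.G.R_seed8.Y751.VK.Lam

set_option autoImplicit false

/-! The von Mangoldt function at integer parts: one step. -/

namespace Pool.Agent.H49.CC

open Finset MeasureTheory Filter Topology
open scoped ENNReal
open Pool.Agent.H376R2.MR (er)
open Pool.Agent.Y957.VK (enorm_sq_le S_LAM)
open Pool.Agent.H49.DM (er_norm cl cl_le cl_nonneg cl_eq fac fac_meas I01 S sft toNat_le)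
open Pool.Agent.H49.ME

theorem lam_all : S_LAM := Pool.Agent.Y751.VK.lam Pool.Agent.Y957.VK.inv_all

/-- the von Mangoldt function -/
noncomputable def lam (n : ℕ) : ℂ := ((ArithmeticFunction.vonMangoldt n : ℝ) : ℂ)

/-- the von Mangoldt function minus one -/
noncomputable def lm (n : ℕ) : ℂ := lam n - 1

theorem lam_norm (n : ℕ) : ‖lam n‖ = ArithmeticFunction.vonMangoldt n := by
  unfold lam
  rw [Complex.norm_real, Real.norm_of_nonneg ArithmeticFunction.vonMangoldt_nonneg]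

theorem lam_bd {n : ℕ} {x : ℝ} (hx : (n : ℝ) ≤ x) (h1 : 1 ≤ x) : ‖lam n‖ ≤ Real.log x := by
  rw [lam_norm]
  refine ArithmeticFunction.vonMangoldt_le_log.trans ?_
  rcases Nat.eq_zero_or_pos n with h | h
  · rw [h, Nat.cast_zero, Real.log_zero]
    exact Real.log_nonneg h1
  · exact Real.log_le_log (by exact_mod_cast h) hx

theorem lm_bd {n : ℕ} {x : ℝ} (hx : (n : ℝ) ≤ x) (h1 : 1 ≤ x) : ‖lm n‖ ≤ Real.log x + 1 := by
  unfold lm
  refine (norm_sub_le _ _).trans ?_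
  rw [norm_one]
  linarith [lam_bd hx h1]

theorem er_cpow (τ : ℝ) {m : ℕ} (hm : 0 < m) : er τ (Real.log m) = (m : ℂ) ^ ((τ : ℂ) * Complex.I) := by
  unfold er
  rw [Complex.cpow_def_of_ne_zero (by exact_mod_cast hm.ne')]
  congr 1
  rw [← Complex.natCast_log]
  push_cast
  ring

theorem er_neg_cpow (t : ℝ) {n : ℕ} (hn : 0 < n) : er t (Real.log n) = (n : ℂ) ^ (-((-t : ℝ) : ℂ) * Complex.I) := by
  rw [er_cpow t hn]
  push_cast
  ring_nf

/-- the twisted sums in all needed ranges -/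
theorem lamS (K : ℕ) (Cc : ℝ) (hCc : 1 ≤ Cc) : ∃ (C : ℝ) (N₀ : ℕ), 0 ≤ C ∧ 3 ≤ N₀ ∧ ∀ N : ℕ, N₀ ≤ N →
    ∀ t : ℝ, |t| ≤ (N : ℝ) ^ 2 → ∀ M : ℕ, (M : ℝ) ≤ Cc * N → ‖S lm t M‖ ≤ C * N / Real.log N ^ K := by
  obtain ⟨C1, hC1⟩ := lam_all 8 K
  have hev : ∀ᶠ N : ℕ in atTop, 2 * Real.sqrt N * Real.log N ^ K ≤ N := by
    have h1 : Tendsto (fun x : ℝ => Real.log x ^ K / x ^ (1 / 2 : ℝ)) atTop (𝓝 0) := by
      have := isLittleO_log_rpow_rpow_atTop (s := (1 / 2 : ℝ)) (K : ℝ) (by norm_num)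
      have h2 := this.tendsto_div_nhds_zero
      refine h2.congr fun x => ?_
      rw [Real.rpow_natCast]
    have h3 := (h1.comp tendsto_natCast_atTop_atTop).eventually (gt_mem_nhds (show (0 : ℝ) < 1 / 2 by norm_num))
    filter_upwards [h3, eventually_ge_atTop 1] with N hN hN1
    have hN0 : (0 : ℝ) < N := by exact_mod_cast hN1
    simp only [Function.comp_apply] at hN
    rw [← Real.sqrt_eq_rpow, div_lt_iff₀ (Real.sqrt_pos.2 hN0)] at hN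
    have h4 : Real.sqrt N * Real.sqrt N = N := Real.mul_self_sqrt hN0.le
    nlinarith [Real.sqrt_pos.2 hN0]
  obtain ⟨N1, hN1⟩ := eventually_atTop.1 hev
  refine ⟨|C1| * Cc * 4 ^ K + 1, max 16 N1, by positivity, le_trans (by norm_num) (le_max_left _ _),
    fun N hN t ht M hM => ?_⟩
  have hN16 : 16 ≤ N := (le_max_left _ _).trans hN
  have hNN1 := hN1 N ((le_max_right _ _).trans hN)
  have hN16r : (16 : ℝ) ≤ N := by exact_mod_cast hN16
  have hN0 : (0 : ℝ) < N := by linarith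
  have hℓ : 0 < Real.log N := Real.log_pos (by linarith)
  have hs0 := Real.sqrt_pos.2 hN0
  have hss : Real.sqrt N * Real.sqrt N = N := Real.mul_self_sqrt hN0.le
  rcases le_or_gt ((M : ℝ) ^ 4) N with h | h
  · -- trivial bound
    have h1 : ‖S lm t M‖ ≤ 2 * (M : ℝ) ^ 2 := by
      unfold S
      refine (norm_sum_le _ _).trans ?_
      have h2 : ∀ n ∈ Icc 1 M, ‖lm n * er t (Real.log n)‖ ≤ (M : ℝ) + 1 := by
        intro n hn
        rw [mem_Icc] at hn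
        rw [norm_mul, er_norm, mul_one]
        have hn0 : (1 : ℝ) ≤ n := by exact_mod_cast hn.1
        have hnM : (n : ℝ) ≤ M := by exact_mod_cast hn.2
        have h3 := lm_bd hnM (hn0.trans hnM)
        have h4 : Real.log M ≤ M := (Real.log_le_sub_one_of_pos (by linarith)).trans (by linarith)
        linarith
      refine (sum_le_sum h2).trans ?_
      rw [sum_const, Nat.card_Icc, nsmul_eq_mul, Nat.add_sub_cancel]
      rcases Nat.eq_zero_or_pos M with h0 | h0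
      · rw [h0]
        simp
      · have : (1 : ℝ) ≤ M := by exact_mod_cast h0
        nlinarith
    have h2 : (M : ℝ) ^ 2 ≤ Real.sqrt N := by
      apply Real.le_sqrt_of_sq_le
      have e3 : ((M : ℝ) ^ 2) ^ (2 : ℕ) = (M : ℝ) ^ 4 := by ring
      rw [e3]
      exact h
    rw [le_div_iff₀ (by positivity)]
    have h3 : ‖S lm t M‖ * Real.log N ^ K ≤ 2 * Real.sqrt N * Real.log N ^ K :=
      mul_le_mul_of_nonneg_right (by linarith) (by positivity)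
    have h4 : 0 ≤ |C1| * Cc * 4 ^ K * N := by positivity
    linarith
  · have hM2 : 2 ≤ M := by
      by_contra hc
      push Not at hc
      have : (M : ℝ) ≤ 1 := by exact_mod_cast (by omega : M ≤ 1)
      have h1 : (M : ℝ) ^ 4 ≤ 1 := pow_le_one₀ (Nat.cast_nonneg M) this
      linarith
    have hM0 : (0 : ℝ) < M := by exact_mod_cast (by omega : 0 < M)
    have ht' : |(-t)| ≤ (M : ℝ) ^ 8 := by
      rw [abs_neg]
      refine ht.trans ?_
      calc (N : ℝ) ^ 2 ≤ ((M : ℝ) ^ 4) ^ 2 := pow_le_pow_left₀ hN0.le h.le 2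
        _ = _ := by ring
    have h1 := hC1 M (-t) hM2 ht'
    have e : S lm t M = ∑ n ∈ Finset.Icc 1 M, ((ArithmeticFunction.vonMangoldt n : ℂ) - 1) *
        (n : ℂ) ^ (-((-t : ℝ) : ℂ) * Complex.I) := by
      unfold S
      refine sum_congr rfl fun n hn => ?_
      rw [mem_Icc] at hn
      rw [er_neg_cpow t (by omega)]
      rfl
    rw [e]
    refine h1.trans ?_
    have hlM : Real.log N / 4 ≤ Real.log M := by
      have h2 : Real.log N ≤ Real.log ((M : ℝ) ^ 4) := Real.log_le_log hN0 h.le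
      rw [Real.log_pow] at h2
      push_cast at h2
      linarith
    have hlM0 : 0 < Real.log N / 4 := by positivity
    calc C1 * M / Real.log M ^ K ≤ |C1| * (Cc * N) / (Real.log N / 4) ^ K := by
          apply div_le_div₀ (by positivity) _ (by positivity) (pow_le_pow_left₀ hlM0.le hlM K)
          exact mul_le_mul (le_abs_self C1) hM hM0.le (abs_nonneg _)
      _ = |C1| * Cc * 4 ^ K * N / Real.log N ^ K := by
          rw [div_pow]
          field_simp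
      _ ≤ _ := by
          apply div_le_div_of_nonneg_right _ (by positivity)
          nlinarith

theorem sq_add_le (x y : ℂ) : ‖x + y‖ₑ ^ 2 ≤ 2 * ‖x‖ₑ ^ 2 + 2 * ‖y‖ₑ ^ 2 := by
  have h : ‖x + y‖ ^ 2 ≤ 2 * ‖x‖ ^ 2 + 2 * ‖y‖ ^ 2 := by
    have h1 := norm_add_le x y
    have h2 := norm_nonneg (x + y)
    nlinarith [sq_nonneg (‖x‖ - ‖y‖), norm_nonneg x, norm_nonneg y]
  have e : ∀ z : ℂ, ‖z‖ₑ ^ 2 = ENNReal.ofReal (‖z‖ ^ 2) := fun z => by
    rw [ENNReal.ofReal_pow (norm_nonneg _), ofReal_norm]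
  rw [e, e, e]
  have e2 : (2 : ℝ≥0∞) = ENNReal.ofReal 2 := by norm_num
  rw [e2, ← ENNReal.ofReal_mul (by norm_num), ← ENNReal.ofReal_mul (by norm_num),
    ← ENNReal.ofReal_add (by positivity) (by positivity)]
  exact ENNReal.ofReal_le_ofReal h

/-- `Λ - 1` at the integer parts of the multiples, with weights -/
theorem stepII (b : ℝ) (h : ℤ) (K : ℕ) : ∃ (C : ℝ) (N₀ : ℕ), 0 ≤ C ∧ 3 ≤ N₀ ∧ ∀ N : ℕ, N₀ ≤ N → ∀ D : ℝ, 0 < D →
    ∀ w : ℕ → ℂ, (∀ n, ‖w n‖ ≤ D) →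
    ∫⁻ u, ‖∑ n ∈ Icc 1 N, w n * lam n * fac (sft lm h) b 1 u n‖ₑ ^ 2 ∂I01 ≤
      ENNReal.ofReal (C * D ^ 2 * (N : ℝ) ^ 2 / Real.log N ^ K) := by
  obtain ⟨C0, hC0, hY⟩ := structY b h
  have hC01 : 1 ≤ C0 := by
    have := Real.exp_pos (b + 1)
    have := abs_nonneg (h : ℝ)
    linarith
  obtain ⟨C4, N2, hC4, hN2, hL⟩ := lamS (3 * K + 10) C0 hC01
  obtain ⟨C5, hC5⟩ : ∃ C5 : ℝ, C5 = Real.log C0 + 2 := ⟨_, rfl⟩
  have hC5p : 0 < C5 := by
    have := Real.log_nonneg hC01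
    linarith
  have hev : ∀ᶠ N : ℕ in atTop, (C0 + 2 * Real.pi) * Real.log N ^ (K + 4) ≤ N := by
    have h1 : Tendsto (fun x : ℝ => Real.log x ^ (K + 4) / x ^ (1 : ℝ)) atTop (𝓝 0) := by
      have := isLittleO_log_rpow_rpow_atTop (s := (1 : ℝ)) ((K + 4 : ℕ) : ℝ) (by norm_num)
      have h2 := this.tendsto_div_nhds_zero
      refine h2.congr fun x => ?_
      rw [Real.rpow_natCast]
    have hπ := Real.pi_pos
    have h3 := (h1.comp tendsto_natCast_atTop_atTop).eventually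
      (gt_mem_nhds (show (0 : ℝ) < 1 / (C0 + 2 * Real.pi) by positivity))
    filter_upwards [h3, eventually_ge_atTop 1] with N hN hN1
    have hN0 : (0 : ℝ) < N := by exact_mod_cast hN1
    simp only [Function.comp_apply] at hN
    rw [Real.rpow_one, div_lt_div_iff₀ hN0 (by positivity)] at hN
    linarith
  obtain ⟨N1, hN1⟩ := eventually_atTop.1 hev
  refine ⟨2 * C5 ^ 2 + 2 * (C0 * ((K + 5) * C4 ^ 2 + C5 ^ 2)), max (max 3 N1) N2, by positivity,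
    le_trans (le_max_left _ _) (le_max_left _ _), fun N hN D hD w hw => ?_⟩
  have hN3 : 3 ≤ N := ((le_max_left _ _).trans (le_max_left _ _)).trans hN
  have hNN1 := hN1 N (((le_max_right _ _).trans (le_max_left _ _)).trans hN)
  have hLN := hL N ((le_max_right _ _).trans hN)
  have hN3r : (3 : ℝ) ≤ N := by exact_mod_cast hN3
  have hN0 : (0 : ℝ) < N := by linarith
  obtain ⟨ℓ, hℓ⟩ : ∃ ℓ : ℝ, ℓ = Real.log N := ⟨_, rfl⟩
  rw [← hℓ] at hNN1 hLN ⊢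
  have hℓ1 : 1 ≤ ℓ := by
    rw [hℓ, Real.le_log_iff_exp_le hN0]
    linarith [Real.exp_one_lt_d9]
  have hℓ0 : 0 < ℓ := by linarith
  obtain ⟨τ, hτ⟩ : ∃ τ : ℝ, τ = ℓ ^ (K + 4) := ⟨_, rfl⟩
  have hτ1 : 1 ≤ τ := by rw [hτ]; exact one_le_pow₀ hℓ1
  have hτ0 : 0 < τ := by linarith
  obtain ⟨δ, hδ⟩ : ∃ δ : ℝ, δ = 1 / τ := ⟨_, rfl⟩
  have hδ0 : 0 < δ := by rw [hδ]; positivity
  have hδ1 : δ ≤ 1 := by rw [hδ, div_le_one hτ0]; exact hτ1
  rw [← hτ] at hNN1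
  have hπ := Real.pi_pos
  have hCδ : C0 ≤ δ * N := by
    rw [hδ, one_div, inv_mul_eq_div, le_div_iff₀ hτ0]
    nlinarith
  have hτN : 2 * Real.pi * τ ≤ N := by nlinarith
  obtain ⟨G, hG⟩ : ∃ G : ℝ, G = Real.log (C0 * N) + 1 := ⟨_, rfl⟩
  have hCN1 : 1 ≤ C0 * N := by nlinarith
  have hG0 : 0 < G := by
    rw [hG]
    linarith [Real.log_nonneg hCN1]
  have hGℓ : G ≤ C5 * ℓ := by
    rw [hG, Real.log_mul (by linarith) hN0.ne', ← hℓ, hC5]
    have := Real.log_nonneg hC01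
    nlinarith
  obtain ⟨P, hP⟩ : ∃ P : ℝ, P = C4 * N / ℓ ^ (3 * K + 10) := ⟨_, rfl⟩
  have hP0 : 0 ≤ P := by rw [hP]; positivity
  have hlamN : ∀ n ∈ Icc 1 N, ‖lam n‖ ≤ ℓ := by
    intro n hn
    rw [mem_Icc] at hn
    rw [hℓ]
    exact lam_bd (by exact_mod_cast hn.2) (by linarith)
  -- splitting
  obtain ⟨d, hd⟩ : ∃ d : ℕ → ℂ, d = fun n : ℕ => if (n : ℝ) ≤ δ * N then 0 else if n ≤ N then w n * lam n else 0 :=
    ⟨_, rfl⟩
  have hmain := hY N δ τ P (D * ℓ) G (by omega) hδ0 hδ1 hτ1 hP0 (by positivity) hG0 hCδ d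
    (fun n => by
      rw [hd]
      simp only
      split_ifs with h1 h2
      · rw [norm_zero]
        positivity
      · rcases Nat.eq_zero_or_pos n with h0 | h0
        · exfalso
          apply h1
          rw [h0, Nat.cast_zero]
          positivity
        · rw [norm_mul]
          exact mul_le_mul (hw n) (hlamN n (mem_Icc.2 ⟨h0, h2⟩)) (norm_nonneg _) hD.le
      · rw [norm_zero]
        positivity)
    (fun n hn => by
      rw [hd]
      simp only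
      rw [if_pos hn]) lm
    (fun n hn => by
      rw [hG]
      exact lm_bd hn hCN1)
    (fun t ht M hM => by
      rw [hP]
      refine hLN t (ht.trans ?_) M hM
      nlinarith)
  obtain ⟨s, hs⟩ : ∃ s : ℝ → ℂ, s = fun u => ∑ n ∈ Icc 1 N, (w n * lam n - d n) * fac (sft lm h) b 1 u n := ⟨_, rfl⟩
  have hsplit : ∀ u, ∑ n ∈ Icc 1 N, w n * lam n * fac (sft lm h) b 1 u n =
      s u + ∑ n ∈ Icc 1 N, d n * fac (sft lm h) b 1 u n := by
    intro u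
    rw [hs]
    simp only
    rw [← sum_add_distrib]
    refine sum_congr rfl fun n _ => ?_
    ring
  have hfacb : ∀ u, ∀ n ∈ Icc 1 N, ‖fac (sft lm h) b 1 u n‖ ≤ G := by
    intro u n hn
    rw [mem_Icc] at hn
    have hn2 : (n : ℝ) ≤ N := by exact_mod_cast hn.2
    unfold fac sft
    rw [hG]
    refine lm_bd ((toNat_le _ h).trans ?_) hCN1
    have h2 : (⌊Real.exp (b + cl u) * (n : ℝ) ^ (1 : ℝ)⌋₊ : ℝ) ≤ Real.exp (b + 1) * N := by
      refine (Nat.floor_le (by positivity)).trans ?_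
      rw [Real.rpow_one]
      apply mul_le_mul _ hn2 (Nat.cast_nonneg n) (Real.exp_pos _).le
      exact Real.exp_le_exp.2 (by linarith [cl_le u])
    have h3 : (Real.exp (b + 1) + 3 + |(h : ℝ)|) * N ≤ C0 * N := mul_le_mul_of_nonneg_right hC0 hN0.le
    have h4 : |(h : ℝ)| ≤ |(h : ℝ)| * N := le_mul_of_one_le_right (abs_nonneg _) (by linarith)
    nlinarith
  have hsb : ∀ u, ‖s u‖ ≤ δ * N * (D * ℓ * G) := by
    intro u
    rw [hs]
    simp only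
    have h1 : ∑ n ∈ Icc 1 N, (w n * lam n - d n) * fac (sft lm h) b 1 u n =
        ∑ n ∈ (Icc 1 N).filter (fun n : ℕ => (n : ℝ) ≤ δ * N), w n * lam n * fac (sft lm h) b 1 u n := by
      rw [sum_filter]
      refine sum_congr rfl fun n hn => ?_
      rw [mem_Icc] at hn
      rw [hd]
      simp only
      by_cases h1 : (n : ℝ) ≤ δ * N
      · rw [if_pos h1, if_pos h1, sub_zero]
      · rw [if_neg h1, if_neg h1, if_pos hn.2, sub_self, zero_mul]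
    rw [h1]
    refine (norm_sum_le _ _).trans ?_
    have h2 : ∀ n ∈ (Icc 1 N).filter (fun n : ℕ => (n : ℝ) ≤ δ * N), ‖w n * lam n * fac (sft lm h) b 1 u n‖ ≤ D * ℓ * G := by
      intro n hn
      rw [mem_filter] at hn
      rw [norm_mul, norm_mul]
      exact mul_le_mul (mul_le_mul (hw n) (hlamN n hn.1) (norm_nonneg _) hD.le) (hfacb u n hn.1) (norm_nonneg _)
        (by positivity)
    refine (sum_le_sum h2).trans ?_
    rw [sum_const, nsmul_eq_mul]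
    apply mul_le_mul_of_nonneg_right _ (by positivity)
    have h3 : ((Icc 1 N).filter (fun n : ℕ => (n : ℝ) ≤ δ * N)).card ≤ (Icc 1 ⌊δ * N⌋₊).card := by
      apply card_le_card
      intro n hn
      rw [mem_filter, mem_Icc] at hn
      rw [mem_Icc]
      exact ⟨hn.1.1, Nat.le_floor hn.2⟩
    rw [Nat.card_Icc, Nat.add_sub_cancel] at h3
    have h4 : ((((Icc 1 N).filter (fun n : ℕ => (n : ℝ) ≤ δ * N)).card : ℕ) : ℝ) ≤ (⌊δ * N⌋₊ : ℝ) := by exact_mod_cast h3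
    exact h4.trans (Nat.floor_le (by positivity))
  have hint : ∫⁻ u, ‖∑ n ∈ Icc 1 N, w n * lam n * fac (sft lm h) b 1 u n‖ₑ ^ 2 ∂I01 ≤
      ENNReal.ofReal (2 * (δ * N * (D * ℓ * G)) ^ 2) + 2 * ∫⁻ u, ‖∑ n ∈ Icc 1 N, d n * fac (sft lm h) b 1 u n‖ₑ ^ 2 ∂I01 := by
    calc ∫⁻ u, ‖∑ n ∈ Icc 1 N, w n * lam n * fac (sft lm h) b 1 u n‖ₑ ^ 2 ∂I01 ≤
          ∫⁻ u, (ENNReal.ofReal (2 * (δ * N * (D * ℓ * G)) ^ 2) +
            2 * ‖∑ n ∈ Icc 1 N, d n * fac (sft lm h) b 1 u n‖ₑ ^ 2) ∂I01 := by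
          refine lintegral_mono fun u => ?_
          rw [hsplit u]
          refine (sq_add_le _ _).trans (add_le_add ?_ le_rfl)
          rw [ENNReal.ofReal_mul (by norm_num)]
          have e2 : ENNReal.ofReal 2 = (2 : ℝ≥0∞) := by norm_num
          rw [e2]
          exact mul_le_mul_right (enorm_sq_le (hsb u)) _
      _ = _ := by
          rw [lintegral_add_left measurable_const, lintegral_const, lintegral_const_mul' _ _ (by norm_num)]
          congr 1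
          have : (I01 : Measure ℝ) Set.univ = 1 := by simp
          rw [this, mul_one]
  refine hint.trans ?_
  have e2 : (2 : ℝ≥0∞) = ENNReal.ofReal 2 := by norm_num
  refine (add_le_add le_rfl (mul_le_mul_right hmain 2)).trans ?_
  have hlog : 0 ≤ Real.log (1 / δ) := Real.log_nonneg (by rw [le_div_iff₀ hδ0]; linarith)
  rw [e2, ← ENNReal.ofReal_mul (by norm_num), ← ENNReal.ofReal_add (by positivity) (by positivity)]
  apply ENNReal.ofReal_le_ofReal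
  -- the final computation
  have hδτ : 1 / δ = τ := by rw [hδ]; field_simp
  have hlogτ : Real.log (1 / δ) + 1 ≤ (K + 5) * ℓ := by
    rw [hδτ, hτ, Real.log_pow]
    have h1 : Real.log ℓ ≤ ℓ := (Real.log_le_sub_one_of_pos hℓ0).trans (by linarith)
    push_cast
    nlinarith
  have hℓK : 0 < ℓ ^ K := by positivity
  have hG2 : G ^ 2 ≤ C5 ^ 2 * ℓ ^ 2 := by
    have := pow_le_pow_left₀ hG0.le hGℓ 2
    rwa [mul_pow] at this
  have t1 : (δ * N * (D * ℓ * G)) ^ 2 ≤ C5 ^ 2 * D ^ 2 * (N : ℝ) ^ 2 / ℓ ^ K := by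
    rw [le_div_iff₀ hℓK]
    have e3 : δ * τ = 1 := by rw [hδ]; field_simp
    have e4 : τ = ℓ ^ K * ℓ ^ 4 := by rw [hτ, pow_add]
    have e5 : δ ^ 2 * ℓ ^ 4 * ℓ ^ K = δ := by
      have : δ ^ 2 * ℓ ^ 4 * ℓ ^ K = δ * (δ * τ) := by rw [e4]; ring
      rw [this, e3, mul_one]
    calc (δ * N * (D * ℓ * G)) ^ 2 * ℓ ^ K = δ ^ 2 * ℓ ^ 2 * ℓ ^ K * G ^ 2 * (D ^ 2 * (N : ℝ) ^ 2) := by ring
      _ ≤ δ ^ 2 * ℓ ^ 2 * ℓ ^ K * (C5 ^ 2 * ℓ ^ 2) * (D ^ 2 * (N : ℝ) ^ 2) := by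
          apply mul_le_mul_of_nonneg_right _ (by positivity)
          exact mul_le_mul_of_nonneg_left hG2 (by positivity)
      _ = (δ ^ 2 * ℓ ^ 4 * ℓ ^ K) * (C5 ^ 2 * D ^ 2 * (N : ℝ) ^ 2) := by ring
      _ = δ * (C5 ^ 2 * D ^ 2 * (N : ℝ) ^ 2) := by rw [e5]
      _ ≤ 1 * (C5 ^ 2 * D ^ 2 * (N : ℝ) ^ 2) := mul_le_mul_of_nonneg_right hδ1 (by positivity)
      _ = _ := one_mul _
  have t2 : (D * ℓ) ^ 2 * (τ ^ 2 * P ^ 2 * (Real.log (1 / δ) + 1) / δ ^ 2) ≤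
      (K + 5) * C4 ^ 2 * D ^ 2 * (N : ℝ) ^ 2 / ℓ ^ K := by
    have e3 : (D * ℓ) ^ 2 * (τ ^ 2 * P ^ 2 * (Real.log (1 / δ) + 1) / δ ^ 2) =
        D ^ 2 * C4 ^ 2 * (N : ℝ) ^ 2 * (ℓ ^ 2 * τ ^ 4 / (ℓ ^ (3 * K + 10)) ^ 2) * (Real.log (1 / δ) + 1) := by
      rw [hδ, hP]
      field_simp
    rw [e3]
    have e4 : ℓ ^ 2 * τ ^ 4 / (ℓ ^ (3 * K + 10)) ^ 2 = 1 / (ℓ ^ K * ℓ ^ (K + 2)) := by
      rw [hτ, ← pow_mul, ← pow_mul, ← pow_add, ← pow_add, div_eq_div_iff (by positivity) (by positivity), one_mul, ← pow_add]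
      congr 1
      ring
    rw [e4]
    calc D ^ 2 * C4 ^ 2 * (N : ℝ) ^ 2 * (1 / (ℓ ^ K * ℓ ^ (K + 2))) * (Real.log (1 / δ) + 1) ≤
          D ^ 2 * C4 ^ 2 * (N : ℝ) ^ 2 * (1 / (ℓ ^ K * ℓ ^ (K + 2))) * ((K + 5) * ℓ) :=
          mul_le_mul_of_nonneg_left hlogτ (by positivity)
      _ = ((K + 5) * C4 ^ 2 * D ^ 2 * (N : ℝ) ^ 2 / ℓ ^ K) * (1 / ℓ ^ (K + 1)) := by
          have e5 : ℓ ^ (K + 2) = ℓ ^ (K + 1) * ℓ := pow_succ _ _
          rw [e5]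
          field_simp
      _ ≤ ((K + 5) * C4 ^ 2 * D ^ 2 * (N : ℝ) ^ 2 / ℓ ^ K) * 1 := by
          apply mul_le_mul_of_nonneg_left _ (by positivity)
          rw [div_le_one (by positivity)]
          exact one_le_pow₀ hℓ1
      _ = _ := mul_one _
  have t3 : (D * ℓ) ^ 2 * (G ^ 2 * (N : ℝ) ^ 2 / τ) ≤ C5 ^ 2 * D ^ 2 * (N : ℝ) ^ 2 / ℓ ^ K := by
    have e4 : τ = ℓ ^ K * ℓ ^ 4 := by rw [hτ, pow_add]
    rw [e4]
    calc (D * ℓ) ^ 2 * (G ^ 2 * (N : ℝ) ^ 2 / (ℓ ^ K * ℓ ^ 4)) =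
          G ^ 2 * (D ^ 2 * ℓ ^ 2 * (N : ℝ) ^ 2 / (ℓ ^ K * ℓ ^ 4)) := by ring
      _ ≤ (C5 ^ 2 * ℓ ^ 2) * (D ^ 2 * ℓ ^ 2 * (N : ℝ) ^ 2 / (ℓ ^ K * ℓ ^ 4)) :=
          mul_le_mul_of_nonneg_right hG2 (by positivity)
      _ = _ := by field_simp
  have e6 : C0 * (D * ℓ) ^ 2 * (τ ^ 2 * P ^ 2 * (Real.log (1 / δ) + 1) / δ ^ 2 + G ^ 2 * (N : ℝ) ^ 2 / τ) =
      C0 * ((D * ℓ) ^ 2 * (τ ^ 2 * P ^ 2 * (Real.log (1 / δ) + 1) / δ ^ 2) + (D * ℓ) ^ 2 * (G ^ 2 * (N : ℝ) ^ 2 / τ)) := by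
    ring
  rw [e6]
  have t4 := mul_le_mul_of_nonneg_left (add_le_add t2 t3) (show (0 : ℝ) ≤ C0 by linarith)
  have e7 : (2 * C5 ^ 2 + 2 * (C0 * ((K + 5) * C4 ^ 2 + C5 ^ 2))) * D ^ 2 * (N : ℝ) ^ 2 / ℓ ^ K =
      2 * (C5 ^ 2 * D ^ 2 * (N : ℝ) ^ 2 / ℓ ^ K) + 2 * (C0 * ((K + 5) * C4 ^ 2 * D ^ 2 * (N : ℝ) ^ 2 / ℓ ^ K +
        C5 ^ 2 * D ^ 2 * (N : ℝ) ^ 2 / ℓ ^ K)) := by ring
  rw [e7]
  linarith

end Pool.Agent.H49.CC
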