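import Pool.Agent.H49.D.GB

set_option autoImplicit false

/-! Chains: mean squares over the multipliers. -/

namespace Pool.Agent.H49.CC

open Finset MeasureTheory Filter Topology
open scoped ENNReal
open Pool.Agent.H376R2.MR (er)
open Pool.Agent.Y957.VK (enorm_sq_le)
open Pool.Agent.H49.DM (cl cl_le cl_nonneg cl_eq fac fac_meas I01 cube sft toNat_le)
open Pool.Agent.H49.ME

/-- one step of the chain -/
noncomputable def step (b : ℝ) (h : ℤ) (u : ℝ) (n : ℕ) : ℕ :=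
  (((⌊Real.exp (b + cl u) * (n : ℝ) ^ (1 : ℝ)⌋₊ : ℕ) : ℤ) + h).toNat

theorem fac_step (g : ℕ → ℂ) (b : ℝ) (h : ℤ) (u : ℝ) (n : ℕ) : fac (sft g h) b 1 u n = g (step b h u n) := rfl

/-- the product of the values of `Λ` along the chain -/
noncomputable def FF : (k : ℕ) → (Fin k → ℝ) → (Fin k → ℤ) → (Fin k → ℝ) → ℕ → ℂ
  | 0, _, _, _, n => lam n
  | k + 1, b, h, ω, n => lam n *
      FF k (fun i => b i.succ) (fun i => h i.succ) (fun i => ω i.succ) (step (b 0) (h 0) (ω 0) n)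

theorem lam_zero : lam 0 = 0 := by
  unfold lam
  simp

theorem FF_zero (k : ℕ) (b : Fin k → ℝ) (h : Fin k → ℤ) (ω : Fin k → ℝ) : FF k b h ω 0 = 0 := by
  cases k with
  | zero => exact lam_zero
  | succ k =>
    unfold FF
    rw [lam_zero, zero_mul]

theorem step_le (b : ℝ) (h : ℤ) (u : ℝ) {n N : ℕ} (hn : n ≤ N) (hN : 1 ≤ N) :
    ((step b h u n : ℕ) : ℝ) ≤ (Real.exp (b + 1) + |(h : ℝ)| + 2) * N := by
  have hN1 : (1 : ℝ) ≤ N := by exact_mod_cast hN
  have hn2 : (n : ℝ) ≤ N := by exact_mod_cast hn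
  unfold step
  refine (toNat_le _ h).trans ?_
  have h2 : (⌊Real.exp (b + cl u) * (n : ℝ) ^ (1 : ℝ)⌋₊ : ℝ) ≤ Real.exp (b + 1) * N := by
    refine (Nat.floor_le (by positivity)).trans ?_
    rw [Real.rpow_one]
    apply mul_le_mul _ hn2 (Nat.cast_nonneg n) (Real.exp_pos _).le
    exact Real.exp_le_exp.2 (by linarith [cl_le u])
  have h4 : |(h : ℝ)| ≤ |(h : ℝ)| * N := le_mul_of_one_le_right (abs_nonneg _) hN1
  nlinarith

/-- the number of preimages of a point -/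
theorem mult (b : ℝ) (h : ℤ) (u : ℝ) (N m : ℕ) (hm : 1 ≤ m) :
    ((((Icc 1 N).filter fun n => step b h u n = m).card : ℕ) : ℝ) ≤ Real.exp (-b) + 1 := by
  rcases ((Icc 1 N).filter fun n => step b h u n = m).eq_empty_or_nonempty with he | hne
  · rw [he, card_empty, Nat.cast_zero]
    positivity
  obtain ⟨n0, hn0⟩ : ∃ n0, n0 = ((Icc 1 N).filter fun n => step b h u n = m).min' hne := ⟨_, rfl⟩
  have hn0m : n0 ∈ (Icc 1 N).filter fun n => step b h u n = m := by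
    rw [hn0]
    exact min'_mem _ _
  obtain ⟨β, hβ⟩ : ∃ β : ℝ, β = Real.exp (b + cl u) := ⟨_, rfl⟩
  have hβ0 : 0 < β := by rw [hβ]; exact Real.exp_pos _
  have hfl : ∀ n ∈ (Icc 1 N).filter fun n => step b h u n = m, ((⌊β * n⌋₊ : ℕ) : ℤ) = m - h := by
    intro n hn
    rw [mem_filter] at hn
    have h1 := hn.2
    unfold step at h1
    rw [Real.rpow_one, ← hβ] at h1
    omega
  have hsub : ((Icc 1 N).filter fun n => step b h u n = m) ⊆ Icc n0 (n0 + ⌊Real.exp (-b)⌋₊) := by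
    intro n hn
    have h1 : n0 ≤ n := by
      rw [hn0]
      exact min'_le _ _ hn
    rw [mem_Icc]
    refine ⟨h1, ?_⟩
    have h2 : ⌊β * n⌋₊ = ⌊β * n0⌋₊ := by
      have := hfl n hn
      have := hfl n0 hn0m
      omega
    have h3 : β * n < ⌊β * n⌋₊ + 1 := Nat.lt_floor_add_one _
    have h4 : (⌊β * n0⌋₊ : ℝ) ≤ β * n0 := Nat.floor_le (by positivity)
    rw [h2] at h3
    have h5 : β * ((n : ℝ) - n0) ≤ 1 := by nlinarith
    have h6 : Real.exp (-b) * β ≥ 1 := by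
      rw [hβ, ← Real.exp_add]
      exact Real.one_le_exp (by linarith [cl_nonneg u])
    have h7 : (n : ℝ) - n0 ≤ Real.exp (-b) := by
      have h8 : 0 ≤ (n : ℝ) - n0 := by
        have : (n0 : ℝ) ≤ n := by exact_mod_cast h1
        linarith
      calc (n : ℝ) - n0 ≤ ((n : ℝ) - n0) * (Real.exp (-b) * β) := le_mul_of_one_le_right h8 h6
        _ = Real.exp (-b) * (β * ((n : ℝ) - n0)) := by ring
        _ ≤ Real.exp (-b) * 1 := mul_le_mul_of_nonneg_left h5 (Real.exp_pos _).le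
        _ = _ := mul_one _
    have h9 : n - n0 ≤ ⌊Real.exp (-b)⌋₊ := by
      apply Nat.le_floor
      rw [Nat.cast_sub h1]
      exact h7
    omega
  have h1 := card_le_card hsub
  rw [Nat.card_Icc] at h1
  have h2 : ((((Icc 1 N).filter fun n => step b h u n = m).card : ℕ) : ℝ) ≤ (⌊Real.exp (-b)⌋₊ : ℝ) + 1 := by
    exact_mod_cast (by omega : ((Icc 1 N).filter fun n => step b h u n = m).card ≤ ⌊Real.exp (-b)⌋₊ + 1)
  have h3 : (⌊Real.exp (-b)⌋₊ : ℝ) ≤ Real.exp (-b) := Nat.floor_le (Real.exp_pos _).le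
  linarith

/-- the sum over the values of the first step -/
theorem regroup (b : ℝ) (h : ℤ) (u : ℝ) (N N' : ℕ) (hN' : ∀ n ∈ Icc 1 N, step b h u n ≤ N') (f X : ℕ → ℂ) (hX : X 0 = 0) :
    ∑ n ∈ Icc 1 N, f n * X (step b h u n) =
      ∑ m ∈ Icc 1 N', (∑ n ∈ (Icc 1 N).filter (fun n => step b h u n = m), f n) * X m := by
  have h1 : ∑ n ∈ Icc 1 N, f n * X (step b h u n) =
      ∑ m ∈ range (N' + 1), ∑ n ∈ (Icc 1 N).filter (fun n => step b h u n = m), f n * X (step b h u n) := by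
    rw [sum_fiberwise_of_maps_to]
    intro n hn
    rw [mem_range]
    have := hN' n hn
    omega
  rw [h1]
  have h2 : range (N' + 1) = insert 0 (Icc 1 N') := by
    ext m
    simp only [mem_range, mem_insert, mem_Icc]
    omega
  rw [h2, sum_insert (by simp)]
  have h3 : ∑ n ∈ (Icc 1 N).filter (fun n => step b h u n = 0), f n * X (step b h u n) = 0 := by
    refine sum_eq_zero fun n hn => ?_
    rw [mem_filter] at hn
    rw [hn.2, hX, mul_zero]
  rw [h3, zero_add]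
  refine sum_congr rfl fun m _ => ?_
  rw [sum_mul]
  refine sum_congr rfl fun n hn => ?_
  rw [mem_filter] at hn
  rw [hn.2]

/-- **the mean square over the multipliers** -/
theorem chainL2 (k : ℕ) : ∀ (b : Fin k → ℝ) (h : Fin k → ℤ) (K : ℕ), ∃ (C : ℝ) (N₀ : ℕ), 0 ≤ C ∧ 3 ≤ N₀ ∧
    ∀ N : ℕ, N₀ ≤ N → ∀ D : ℝ, 0 < D → ∀ w : ℕ → ℂ, (∀ n, ‖w n‖ ≤ D) →
    ∫⁻ ω, ‖∑ n ∈ Icc 1 N, w n * (FF k b h ω n - lam n)‖ₑ ^ 2 ∂(cube k) ≤
      ENNReal.ofReal (C * D ^ 2 * (N : ℝ) ^ 2 / Real.log N ^ K) := by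
  induction k with
  | zero =>
    intro b h K
    refine ⟨0, 3, le_rfl, le_rfl, fun N hN D hD w hw => ?_⟩
    have e : ∀ ω : Fin 0 → ℝ, ∑ n ∈ Icc 1 N, w n * (FF 0 b h ω n - lam n) = 0 := by
      intro ω
      refine sum_eq_zero fun n _ => ?_
      unfold FF
      rw [sub_self, mul_zero]
    simp only [e]
    simp
  | succ k ih =>
    intro b h K
    obtain ⟨C1, N1, hC1, hN1, h1⟩ := ih (fun i => b i.succ) (fun i => h i.succ) (K + 2)
    obtain ⟨C2, N2, hC2, hN2, h2⟩ := stepII (b 0) (h 0) K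
    obtain ⟨ρ, hρ⟩ : ∃ ρ : ℝ, ρ = Real.exp (b 0 + 1) + |(h 0 : ℝ)| + 2 := ⟨_, rfl⟩
    have hρ2 : 2 ≤ ρ := by
      rw [hρ]
      have := Real.exp_pos (b 0 + 1)
      have := abs_nonneg (h 0 : ℝ)
      linarith
    obtain ⟨μ, hμ⟩ : ∃ μ : ℝ, μ = Real.exp (-(b 0)) + 1 := ⟨_, rfl⟩
    have hμ0 : 0 < μ := by rw [hμ]; positivity
    refine ⟨2 * (C1 * μ ^ 2 * (ρ + 1) ^ 2) + 2 * C2, max N1 N2, by positivity, hN1.trans (le_max_left _ _),
      fun N hN D hD w hw => ?_⟩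
    have hNN1 : N1 ≤ N := (le_max_left _ _).trans hN
    have hNN2 : N2 ≤ N := (le_max_right _ _).trans hN
    have hN3 : 3 ≤ N := hN1.trans hNN1
    have hN3r : (3 : ℝ) ≤ N := by exact_mod_cast hN3
    have hN0 : (0 : ℝ) < N := by linarith
    obtain ⟨ℓ, hℓ⟩ : ∃ ℓ : ℝ, ℓ = Real.log N := ⟨_, rfl⟩
    have hℓ1 : 1 ≤ ℓ := by
      rw [hℓ, Real.le_log_iff_exp_le hN0]
      linarith [Real.exp_one_lt_d9]
    have hℓ0 : 0 < ℓ := by linarith
    rw [← hℓ]
    have h2' := h2 N hNN2 D hD w hw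
    rw [← hℓ] at h2'
    obtain ⟨N', hN'⟩ : ∃ N' : ℕ, N' = ⌈ρ * N⌉₊ := ⟨_, rfl⟩
    have hN'1 : ρ * N ≤ N' := by rw [hN']; exact Nat.le_ceil _
    have hN'2 : (N' : ℝ) ≤ (ρ + 1) * N := by
      rw [hN']
      have := (Nat.ceil_lt_add_one (show 0 ≤ ρ * N by positivity)).le
      linarith
    have hNN' : (N : ℝ) ≤ N' := by nlinarith
    have hNN'n : N ≤ N' := by exact_mod_cast hNN'
    have hlN' : ℓ ≤ Real.log N' := by rw [hℓ]; exact Real.log_le_log hN0 hNN'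
    have hstep : ∀ u, ∀ n ∈ Icc 1 N, step (b 0) (h 0) u n ≤ N' := by
      intro u n hn
      rw [mem_Icc] at hn
      have h3 := step_le (b 0) (h 0) u hn.2 (by omega)
      rw [← hρ] at h3
      exact_mod_cast h3.trans hN'1
    -- the weights after the first step
    obtain ⟨w', hw'⟩ : ∃ w' : ℝ → ℕ → ℂ, w' = fun u m => if 1 ≤ m then
      ∑ n ∈ (Icc 1 N).filter (fun n => step (b 0) (h 0) u n = m), w n * lam n else 0 := ⟨_, rfl⟩
    have hw'b : ∀ u m, ‖w' u m‖ ≤ D * ℓ * μ := by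
      intro u m
      rw [hw']
      simp only
      split_ifs with hm
      · refine (norm_sum_le _ _).trans ?_
        have h3 : ∀ n ∈ (Icc 1 N).filter (fun n => step (b 0) (h 0) u n = m), ‖w n * lam n‖ ≤ D * ℓ := by
          intro n hn
          rw [mem_filter, mem_Icc] at hn
          rw [norm_mul, hℓ]
          exact mul_le_mul (hw n) (lam_bd (by exact_mod_cast hn.1.2) (by linarith)) (norm_nonneg _) hD.le
        refine (sum_le_sum h3).trans ?_
        rw [sum_const, nsmul_eq_mul, mul_comm]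
        apply mul_le_mul_of_nonneg_left _ (by positivity)
        rw [hμ]
        exact mult (b 0) (h 0) u N m hm
      · rw [norm_zero]
        positivity
    obtain ⟨X, hX⟩ : ∃ X : (Fin k → ℝ) → ℕ → ℂ, X = fun ω m =>
      FF k (fun i => b i.succ) (fun i => h i.succ) ω m - lam m := ⟨_, rfl⟩
    have hX0 : ∀ ω, X ω 0 = 0 := by
      intro ω
      rw [hX]
      simp only
      rw [FF_zero, lam_zero, sub_zero]
    obtain ⟨II, hII⟩ : ∃ II : ℝ → ℂ, II = fun u => ∑ n ∈ Icc 1 N, w n * lam n * fac (sft lm (h 0)) (b 0) 1 u n := ⟨_, rfl⟩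
    have hIIm : Measurable II := by
      rw [hII]
      apply Finset.measurable_fun_sum
      intro n _
      exact (fac_meas _ _ _ n).const_mul _
    obtain ⟨I1, hI1⟩ : ∃ I1 : ℝ → (Fin k → ℝ) → ℂ, I1 = fun u ω => ∑ m ∈ Icc 1 N', w' u m * X ω m := ⟨_, rfl⟩
    have hdec : ∀ (u : ℝ) (ω : Fin k → ℝ), ∑ n ∈ Icc 1 N, w n * (lam n *
        FF k (fun i => b i.succ) (fun i => h i.succ) ω (step (b 0) (h 0) u n) - lam n) = I1 u ω + II u := by
      intro u ω
      have e1 : I1 u ω = ∑ n ∈ Icc 1 N, (w n * lam n) * X ω (step (b 0) (h 0) u n) := by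
        rw [regroup (b 0) (h 0) u N N' (hstep u) (fun n => w n * lam n) (X ω) (hX0 ω), hI1]
        simp only
        refine sum_congr rfl fun m hm => ?_
        rw [mem_Icc] at hm
        rw [hw']
        simp only
        rw [if_pos hm.1]
      rw [e1, hII, hX]
      simp only
      rw [← sum_add_distrib]
      refine sum_congr rfl fun n _ => ?_
      rw [fac_step]
      unfold lm
      ring
    have mp1 := measurePreserving_piFinSuccAbove (fun _ : Fin (k + 1) => I01) 0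
    have e0 : ∫⁻ ω, ‖∑ n ∈ Icc 1 N, w n * (FF (k + 1) b h ω n - lam n)‖ₑ ^ 2 ∂(cube (k + 1)) =
        ∫⁻ p, ‖I1 p.1 p.2 + II p.1‖ₑ ^ 2 ∂(I01.prod (cube k)) := by
      rw [← mp1.lintegral_comp_emb (MeasurableEquiv.measurableEmbedding _)]
      refine lintegral_congr fun ω => ?_
      have e2 : ((MeasurableEquiv.piFinSuccAbove (fun _ : Fin (k + 1) => ℝ) 0) ω).2 = fun j => ω j.succ := by
        funext j
        show ω ((0 : Fin (k + 1)).succAbove j) = ω j.succ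
        rw [Fin.succAbove_zero]
      have e3 : ((MeasurableEquiv.piFinSuccAbove (fun _ : Fin (k + 1) => ℝ) 0) ω).1 = ω 0 := rfl
      rw [e2, e3, ← hdec]
      rfl
    rw [e0]
    refine (lintegral_prod_le _).trans ?_
    have hB : ∀ u, ∫⁻ ω, ‖I1 u ω‖ₑ ^ 2 ∂(cube k) ≤
        ENNReal.ofReal (C1 * μ ^ 2 * (ρ + 1) ^ 2 * (D ^ 2 * (N : ℝ) ^ 2 / ℓ ^ K)) := by
      intro u
      have h3 := h1 N' (hNN1.trans hNN'n) (D * ℓ * μ) (by positivity) (w' u) (hw'b u)
      have e4 : ∀ ω, I1 u ω = ∑ n ∈ Icc 1 N', w' u n * (FF k (fun i => b i.succ) (fun i => h i.succ) ω n - lam n) := by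
        intro ω
        rw [hI1, hX]
      simp only [e4]
      refine h3.trans (ENNReal.ofReal_le_ofReal ?_)
      calc C1 * (D * ℓ * μ) ^ 2 * (N' : ℝ) ^ 2 / Real.log N' ^ (K + 2) ≤
            C1 * (D * ℓ * μ) ^ 2 * ((ρ + 1) * N) ^ 2 / ℓ ^ (K + 2) := by
            apply div_le_div₀ (by positivity) _ (by positivity) (pow_le_pow_left₀ hℓ0.le hlN' _)
            apply mul_le_mul_of_nonneg_left _ (by positivity)
            exact pow_le_pow_left₀ (Nat.cast_nonneg _) hN'2 2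
        _ = _ := by
            rw [pow_add]
            field_simp
    calc ∫⁻ u, ∫⁻ ω, ‖I1 u ω + II u‖ₑ ^ 2 ∂(cube k) ∂I01 ≤
          ∫⁻ u, (2 * ENNReal.ofReal (C1 * μ ^ 2 * (ρ + 1) ^ 2 * (D ^ 2 * (N : ℝ) ^ 2 / ℓ ^ K)) + 2 * ‖II u‖ₑ ^ 2) ∂I01 := by
          refine lintegral_mono fun u => ?_
          calc ∫⁻ ω, ‖I1 u ω + II u‖ₑ ^ 2 ∂(cube k) ≤ ∫⁻ ω, (2 * ‖I1 u ω‖ₑ ^ 2 + 2 * ‖II u‖ₑ ^ 2) ∂(cube k) :=
                lintegral_mono fun ω => sq_add_le _ _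
            _ = 2 * (∫⁻ ω, ‖I1 u ω‖ₑ ^ 2 ∂(cube k)) + 2 * ‖II u‖ₑ ^ 2 := by
                rw [lintegral_add_right _ measurable_const, lintegral_const_mul' _ _ (by norm_num), lintegral_const,
                  cube_univ, mul_one]
            _ ≤ _ := add_le_add (mul_le_mul_right (hB u) 2) le_rfl
      _ = 2 * ENNReal.ofReal (C1 * μ ^ 2 * (ρ + 1) ^ 2 * (D ^ 2 * (N : ℝ) ^ 2 / ℓ ^ K)) + 2 * ∫⁻ u, ‖II u‖ₑ ^ 2 ∂I01 := by
          rw [lintegral_add_left measurable_const, lintegral_const, lintegral_const_mul' _ _ (by norm_num)]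
          congr 1
          have : (I01 : Measure ℝ) Set.univ = 1 := by simp
          rw [this, mul_one]
      _ ≤ 2 * ENNReal.ofReal (C1 * μ ^ 2 * (ρ + 1) ^ 2 * (D ^ 2 * (N : ℝ) ^ 2 / ℓ ^ K)) +
            2 * ENNReal.ofReal (C2 * D ^ 2 * (N : ℝ) ^ 2 / ℓ ^ K) := by
          refine add_le_add le_rfl (mul_le_mul_right ?_ 2)
          rw [hII]
          exact h2'
      _ = _ := by
          have e2 : (2 : ℝ≥0∞) = ENNReal.ofReal 2 := by norm_num
          rw [e2, ← ENNReal.ofReal_mul (by norm_num), ← ENNReal.ofReal_mul (by norm_num),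
            ← ENNReal.ofReal_add (by positivity) (by positivity)]
          congr 1
          ring

end Pool.Agent.H49.CC
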