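import Pool.Agent.H49.D.GC
import Pool.Agent.H49.D.DL
import Pool.Agent.H49.D.FE

set_option autoImplicit false

/-! Chains: almost all multipliers. -/

namespace Pool.Agent.H49.CC

open Finset MeasureTheory Filter Topology
open scoped ENNReal
open Pool.Agent.H376R2.MR (er)
open Pool.Agent.Y957.VK (enorm_sq_le)
open Pool.Agent.H49.DM (cl cl_le cl_nonneg cl_eq cl_meas fac fac_meas I01 cube sft S toNat_le all_ae)
open Pool.Agent.H49.ME (cube_univ markov)

/-- the chain `[p_0, …, p_k]`, `p_0 = n`, `p_{i+1} = ⌊β_i p_i⌋ + h_i` -/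
noncomputable def links : (k : ℕ) → (Fin k → ℝ) → (Fin k → ℤ) → ℕ → List ℕ
  | 0, _, _, n => [n]
  | k + 1, β, h, n => n :: links k (fun i => β i.succ) (fun i => h i.succ) (⌊β 0 * n⌋ + h 0).toNat

/-- the product of `Λ` over the chain -/
noncomputable def FR (k : ℕ) (β : Fin k → ℝ) (h : Fin k → ℤ) (n : ℕ) : ℝ :=
  ((links k β h n).map fun p => ArithmeticFunction.vonMangoldt p).prod

theorem FR_zero (β : Fin 0 → ℝ) (h : Fin 0 → ℤ) (n : ℕ) : FR 0 β h n = ArithmeticFunction.vonMangoldt n := by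
  unfold FR links
  simp

theorem FR_succ (k : ℕ) (β : Fin (k + 1) → ℝ) (h : Fin (k + 1) → ℤ) (n : ℕ) : FR (k + 1) β h n =
    ArithmeticFunction.vonMangoldt n * FR k (fun i => β i.succ) (fun i => h i.succ) (⌊β 0 * n⌋ + h 0).toNat := by
  unfold FR
  rw [links, List.map_cons, List.prod_cons]

theorem FR_nonneg (k : ℕ) (β : Fin k → ℝ) (h : Fin k → ℤ) (n : ℕ) : 0 ≤ FR k β h n := by
  unfold FR
  apply List.prod_nonneg
  intro a ha
  rw [List.mem_map] at ha
  obtain ⟨p, _, rfl⟩ := ha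
  exact ArithmeticFunction.vonMangoldt_nonneg

theorem FF_eq (k : ℕ) : ∀ (b : Fin k → ℝ) (h : Fin k → ℤ) (ω : Fin k → ℝ), (∀ i, ω i ∈ Set.Icc (0 : ℝ) 1) → ∀ n : ℕ,
    FF k b h ω n = ((FR k (fun i => Real.exp (b i + ω i)) h n : ℝ) : ℂ) := by
  induction k with
  | zero =>
    intro b h ω _ n
    unfold FF
    rw [FR_zero]
    rfl
  | succ k ih =>
    intro b h ω hω n
    unfold FF
    rw [ih _ _ _ (fun i => hω i.succ), FR_succ]
    unfold lam
    push_cast
    congr 3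
    unfold step
    rw [cl_eq (hω 0), Real.rpow_one, Int.natCast_floor_eq_floor (by positivity)]

theorem step_meas (b : ℝ) (h : ℤ) (n : ℕ) : Measurable fun u => step b h u n := by
  unfold step
  refine (measurable_of_countable fun m : ℕ => ((m : ℤ) + h).toNat).comp (Nat.measurable_floor.comp ?_)
  exact (Real.measurable_exp.comp (measurable_const.add cl_meas)).mul_const _

theorem FF_meas (k : ℕ) : ∀ (b : Fin k → ℝ) (h : Fin k → ℤ) (n : ℕ), Measurable fun ω : Fin k → ℝ => FF k b h ω n := by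
  induction k with
  | zero =>
    intro b h n
    unfold FF
    exact measurable_const
  | succ k ih =>
    intro b h n
    unfold FF
    apply Measurable.const_mul
    have h1 : Measurable fun p : (Fin k → ℝ) × ℕ => FF k (fun i => b i.succ) (fun i => h i.succ) p.1 p.2 :=
      measurable_from_prod_countable_left fun m => ih _ _ m
    have h2 : Measurable fun ω : Fin (k + 1) → ℝ => ((fun i => ω (Fin.succ i), step (b 0) (h 0) (ω 0) n) : (Fin k → ℝ) × ℕ) := by
      refine Measurable.prodMk ?_ ((step_meas _ _ n).comp (measurable_pi_apply 0))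
      exact measurable_pi_lambda _ fun i => measurable_pi_apply _
    exact h1.comp h2

/-- the grid -/
def gr (A L i : ℕ) : ℕ := 2 ^ L + i * 2 ^ L / L ^ A

/-- almost surely the grid is good -/
theorem grid_ae (k : ℕ) (b : Fin k → ℝ) (h : Fin k → ℤ) (A : ℕ) : ∀ᵐ ω ∂(cube k), ∀ᶠ L in atTop, ∀ i ≤ L ^ A,
    ‖∑ n ∈ Icc 1 (gr A L i), (FF k b h ω n - lam n)‖ ≤ (gr A L i : ℝ) / (L : ℝ) ^ A := by
  obtain ⟨C, N₀, hC, hN₀, hL2⟩ := chainL2 k b h (3 * A + 2)
  obtain ⟨t, ht⟩ : ∃ t : ℕ → Set (Fin k → ℝ), t = fun j => {ω | ∃ i ≤ (j + N₀) ^ A,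
    (gr A (j + N₀) i : ℝ) / ((j + N₀ : ℕ) : ℝ) ^ A < ‖∑ n ∈ Icc 1 (gr A (j + N₀) i), (FF k b h ω n - lam n)‖} := ⟨_, rfl⟩
  have hmeas : ∀ j, cube k (t j) ≤ ENNReal.ofReal (2 ^ (3 * A + 3) * C * (1 / ((j + 1 : ℕ) : ℝ) ^ 2)) := by
    intro j
    obtain ⟨L, hL⟩ : ∃ L : ℕ, L = j + N₀ := ⟨_, rfl⟩
    have hL1 : 3 ≤ L := by omega
    have hL0 : (0 : ℝ) < L := by exact_mod_cast (by omega : 0 < L)
    have hL1r : (1 : ℝ) ≤ L := by exact_mod_cast (by omega : 1 ≤ L)
    have hsub : t j ⊆ ⋃ i ∈ range (L ^ A + 1), {ω | (gr A L i : ℝ) / (L : ℝ) ^ A <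
        ‖∑ n ∈ Icc 1 (gr A L i), (FF k b h ω n - lam n)‖} := by
      intro ω hω
      rw [ht] at hω
      obtain ⟨i, hi, hi2⟩ := hω
      rw [← hL] at hi hi2
      rw [Set.mem_iUnion₂]
      exact ⟨i, mem_range.2 (by omega), hi2⟩
    refine (measure_mono hsub).trans ((measure_biUnion_finset_le _ _).trans ?_)
    have hi : ∀ i ∈ range (L ^ A + 1), cube k {ω | (gr A L i : ℝ) / (L : ℝ) ^ A <
        ‖∑ n ∈ Icc 1 (gr A L i), (FF k b h ω n - lam n)‖} ≤ ENNReal.ofReal (2 ^ (3 * A + 2) * C / (L : ℝ) ^ (A + 2)) := by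
      intro i _
      obtain ⟨N, hN⟩ : ∃ N : ℕ, N = gr A L i := ⟨_, rfl⟩
      rw [← hN]
      have h2L : 2 ^ L ≤ N := by
        rw [hN]
        unfold gr
        exact Nat.le_add_right _ _
      have hNL : L < 2 ^ L := Nat.lt_two_pow_self
      have hNN : N₀ ≤ N := by omega
      have hN0 : (0 : ℝ) < N := by exact_mod_cast (by omega : 0 < N)
      have h1 := hL2 N hNN 1 one_pos (fun _ => 1) (fun _ => by simp)
      simp only [one_mul, one_pow, mul_one] at h1
      have h2 := markov (cube k) (fun ω => ∑ n ∈ Icc 1 N, (FF k b h ω n - lam n))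
        (Finset.measurable_fun_sum _ fun n _ => (FF_meas k b h n).sub measurable_const)
        (C * (N : ℝ) ^ 2 / Real.log N ^ (3 * A + 2)) ((N : ℝ) / (L : ℝ) ^ A) (by
          have : 0 ≤ Real.log N := Real.log_natCast_nonneg N
          positivity) (by positivity) h1
      refine h2.trans (ENNReal.ofReal_le_ofReal ?_)
      have hlog : (L : ℝ) / 2 ≤ Real.log N := by
        have h3 : Real.log ((2 : ℝ) ^ L) ≤ Real.log N := Real.log_le_log (by positivity) (by exact_mod_cast h2L)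
        rw [Real.log_pow] at h3
        have := Real.log_two_gt_d9
        nlinarith
      have hlog0 : 0 < Real.log N := by linarith [half_pos hL0]
      calc C * (N : ℝ) ^ 2 / Real.log N ^ (3 * A + 2) / ((N : ℝ) / (L : ℝ) ^ A) ^ 2 =
            C * ((L : ℝ) ^ A) ^ 2 / Real.log N ^ (3 * A + 2) := by field_simp
        _ ≤ C * ((L : ℝ) ^ A) ^ 2 / ((L : ℝ) / 2) ^ (3 * A + 2) := by
            apply div_le_div_of_nonneg_left (by positivity) (by positivity)
            exact pow_le_pow_left₀ (by positivity) hlog _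
        _ = _ := by
            rw [div_pow]
            have e3 : (L : ℝ) ^ (3 * A + 2) = ((L : ℝ) ^ A) ^ 2 * (L : ℝ) ^ (A + 2) := by
              rw [← pow_mul, ← pow_add]
              congr 1
              ring
            rw [e3]
            field_simp
    refine (sum_le_sum hi).trans ?_
    rw [sum_const, card_range, nsmul_eq_mul]
    have e4 : ((L ^ A + 1 : ℕ) : ℝ≥0∞) = ENNReal.ofReal ((L : ℝ) ^ A + 1) := by
      rw [← ENNReal.ofReal_natCast]
      push_cast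
      rfl
    rw [e4, ← ENNReal.ofReal_mul (by positivity)]
    apply ENNReal.ofReal_le_ofReal
    have hj1 : ((j + 1 : ℕ) : ℝ) ≤ L := by exact_mod_cast (by omega : j + 1 ≤ L)
    have hj0 : (0 : ℝ) < ((j + 1 : ℕ) : ℝ) := by positivity
    have hLA : (1 : ℝ) ≤ (L : ℝ) ^ A := one_le_pow₀ hL1r
    calc ((L : ℝ) ^ A + 1) * (2 ^ (3 * A + 2) * C / (L : ℝ) ^ (A + 2)) ≤
          (2 * (L : ℝ) ^ A) * (2 ^ (3 * A + 2) * C / (L : ℝ) ^ (A + 2)) := by
          apply mul_le_mul_of_nonneg_right _ (by positivity)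
          linarith
      _ = 2 ^ (3 * A + 3) * C * (1 / (L : ℝ) ^ 2) := by
          rw [pow_add (L : ℝ) A 2]
          field_simp
          ring
      _ ≤ _ := by
          apply mul_le_mul_of_nonneg_left _ (by positivity)
          apply one_div_le_one_div_of_le (by positivity)
          exact pow_le_pow_left₀ hj0.le hj1 2
  have hsum : Summable fun j : ℕ => 2 ^ (3 * A + 3) * C * (1 / ((j + 1 : ℕ) : ℝ) ^ 2) := by
    apply Summable.mul_left
    exact (summable_nat_add_iff 1).2 (Real.summable_one_div_nat_pow.2 one_lt_two)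
  have hfin : ∑' j, cube k (t j) ≠ ∞ := by
    refine ne_top_of_le_ne_top hsum.tsum_ofReal_ne_top ?_
    exact ENNReal.tsum_le_tsum hmeas
  filter_upwards [ae_eventually_notMem hfin] with ω hω
  obtain ⟨j0, hj0⟩ := eventually_atTop.1 hω
  filter_upwards [eventually_ge_atTop (j0 + N₀)] with L hL i hi
  have h1 := hj0 (L - N₀) (by omega)
  rw [ht] at h1
  have e : L - N₀ + N₀ = L := by omega
  simp only [Set.mem_ofPred_eq, e] at h1
  push Not at h1
  exact h1 i hi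

/-- from the grid to all `N` -/
theorem grid_all (F : ℕ → ℝ) (hF : ∀ n, 0 ≤ F n) (A : ℕ)
    (h : ∀ᶠ L in atTop, ∀ i ≤ L ^ A, ‖∑ n ∈ Icc 1 (gr A L i), (((F n : ℝ) : ℂ) - lam n)‖ ≤ (gr A L i : ℝ) / (L : ℝ) ^ A) :
    ∃ C : ℝ, ∀ᶠ N : ℕ in atTop, |∑ n ∈ Icc 1 N, F n - N| ≤ C * (N / Real.log N ^ A) := by
  obtain ⟨C1, N1, hC1, hN1, h1⟩ := lamS A 1 le_rfl
  obtain ⟨C2, hC2⟩ : ∃ C2 : ℝ, C2 = 2 * (1 + C1 * 2 ^ A) := ⟨_, rfl⟩
  have hC20 : 0 < C2 := by rw [hC2]; positivity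
  have hpow : ∀ᶠ L : ℕ in atTop, (L : ℝ) ^ A ≤ 2 ^ L := by
    have h2 : Tendsto (fun n : ℕ => (n : ℝ) ^ A / (2 : ℝ) ^ n) atTop (𝓝 0) :=
      tendsto_pow_const_div_const_pow_of_one_lt A (by norm_num)
    filter_upwards [h2.eventually (gt_mem_nhds one_pos)] with L hL
    rw [div_lt_one (by positivity)] at hL
    exact hL.le
  refine ⟨C2 + 2, ?_⟩
  have htend : Tendsto (fun N : ℕ => Nat.log 2 N) atTop atTop := by
    rw [tendsto_atTop]
    intro b
    filter_upwards [eventually_ge_atTop (2 ^ b)] with N hN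
    exact Nat.le_log_of_pow_le one_lt_two hN
  filter_upwards [htend.eventually h, htend.eventually hpow, htend.eventually (eventually_ge_atTop (max 3 N1)),
    eventually_ge_atTop 1] with N hg hpw hL3 hN
  obtain ⟨L, hL⟩ : ∃ L : ℕ, L = Nat.log 2 N := ⟨_, rfl⟩
  rw [← hL] at hg hpw hL3
  have hL3' : 3 ≤ L := (le_max_left _ _).trans hL3
  have hLN1 : N1 ≤ L := (le_max_right _ _).trans hL3
  have hL0 : (0 : ℝ) < L := by exact_mod_cast (by omega : 0 < L)
  have hLr : (3 : ℝ) ≤ L := by exact_mod_cast hL3'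
  have h2L : 2 ^ L ≤ N := by rw [hL]; exact Nat.pow_log_le_self 2 (by omega)
  have hN2 : N < 2 ^ (L + 1) := by rw [hL]; exact Nat.lt_pow_succ_log_self one_lt_two N
  have hLA0 : 0 < L ^ A := by positivity
  have h2Lr : ((2 : ℝ) ^ L) ≤ N := by exact_mod_cast h2L
  have hN0 : (0 : ℝ) < N := by exact_mod_cast hN
  have hLAr : (0 : ℝ) < (L : ℝ) ^ A := by positivity
  obtain ⟨W, hW⟩ : ∃ W : ℕ → ℝ, W = fun N => ∑ n ∈ Icc 1 N, F n := ⟨_, rfl⟩
  have hWm : Monotone W := by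
    intro a b hab
    rw [hW]
    exact sum_le_sum_of_subset_of_nonneg (Icc_subset_Icc_right hab) fun n _ _ => hF n
  -- at the grid points
  have hgp : ∀ i ≤ L ^ A, |W (gr A L i) - gr A L i| ≤ C2 * (2 ^ L / (L : ℝ) ^ A) := by
    intro i hi
    obtain ⟨M, hM⟩ : ∃ M : ℕ, M = gr A L i := ⟨_, rfl⟩
    have h3 := hg i hi
    rw [← hM] at h3 ⊢
    have hM1 : 2 ^ L ≤ M := by
      rw [hM]
      unfold gr
      exact Nat.le_add_right _ _
    have hM2 : M ≤ 2 * 2 ^ L := by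
      rw [hM]
      unfold gr
      have : i * 2 ^ L / L ^ A ≤ 2 ^ L := by
        apply Nat.div_le_of_le_mul
        exact Nat.mul_le_mul_right _ hi
      omega
    have hM2r : (M : ℝ) ≤ 2 * 2 ^ L := by exact_mod_cast hM2
    have hLL : L < 2 ^ L := Nat.lt_two_pow_self
    have hMN1 : N1 ≤ M := by omega
    have hM0 : (0 : ℝ) < M := by exact_mod_cast (by omega : 0 < M)
    have h4 := h1 M hMN1 0 (by rw [abs_zero]; positivity) M (by rw [one_mul])
    have e5 : S lm 0 M = ∑ n ∈ Icc 1 M, lam n - M := by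
      unfold S lm
      have e6 : ∀ n ∈ Icc 1 M, (lam n - 1) * er 0 (Real.log n) = lam n - 1 := by
        intro n _
        unfold er
        simp
      rw [sum_congr rfl e6, sum_sub_distrib]
      simp
    have e7 : ((W M - M : ℝ) : ℂ) = ∑ n ∈ Icc 1 M, (((F n : ℝ) : ℂ) - lam n) + S lm 0 M := by
      rw [e5, hW, sum_sub_distrib]
      push_cast
      ring
    have h5 : |W M - M| = ‖((W M - M : ℝ) : ℂ)‖ := by rw [Complex.norm_real, Real.norm_eq_abs]
    rw [h5, e7]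
    refine (norm_add_le _ _).trans ?_
    have hlog : (L : ℝ) / 2 ≤ Real.log M := by
      have h6 : Real.log ((2 : ℝ) ^ L) ≤ Real.log M := Real.log_le_log (by positivity) (by exact_mod_cast hM1)
      rw [Real.log_pow] at h6
      have := Real.log_two_gt_d9
      nlinarith
    have h7 : C1 * M / Real.log M ^ A ≤ C1 * 2 ^ A * (M / (L : ℝ) ^ A) := by
      calc C1 * M / Real.log M ^ A ≤ C1 * M / ((L : ℝ) / 2) ^ A := by
            apply div_le_div_of_nonneg_left (by positivity) (by positivity)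
            exact pow_le_pow_left₀ (by positivity) hlog _
        _ = _ := by
            rw [div_pow]
            field_simp
    have h8 : (M : ℝ) / (L : ℝ) ^ A ≤ 2 * (2 ^ L / (L : ℝ) ^ A) := by
      rw [← mul_div_assoc]
      exact div_le_div_of_nonneg_right hM2r hLAr.le
    rw [hC2]
    have h9 : 0 ≤ C1 * 2 ^ A := by positivity
    nlinarith
  -- the position of `N`
  obtain ⟨i, hi⟩ : ∃ i : ℕ, i = (N - 2 ^ L) * L ^ A / 2 ^ L := ⟨_, rfl⟩
  have hp0 : 0 < 2 ^ L := by positivity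
  have hi1 : i * 2 ^ L ≤ (N - 2 ^ L) * L ^ A := by rw [hi]; exact Nat.div_mul_le_self _ _
  have hi2 : (N - 2 ^ L) * L ^ A < (i + 1) * 2 ^ L := by
    rw [hi, add_mul, one_mul]
    exact Nat.lt_div_mul_add hp0
  have hiA : i < L ^ A := by
    have h3 : (N - 2 ^ L) * L ^ A < 2 ^ L * L ^ A := by
      apply Nat.mul_lt_mul_of_pos_right _ hLA0
      rw [pow_succ] at hN2
      omega
    have h4 : i * 2 ^ L < L ^ A * 2 ^ L := by
      calc i * 2 ^ L ≤ (N - 2 ^ L) * L ^ A := hi1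
        _ < 2 ^ L * L ^ A := h3
        _ = _ := mul_comm _ _
    exact lt_of_mul_lt_mul_right h4 (Nat.zero_le _)
  have hlow : gr A L i ≤ N := by
    unfold gr
    have : i * 2 ^ L / L ^ A ≤ N - 2 ^ L := Nat.div_le_of_le_mul (by rw [mul_comm (L ^ A)]; exact hi1)
    omega
  have hup : N ≤ gr A L (i + 1) := by
    unfold gr
    have : N - 2 ^ L ≤ (i + 1) * 2 ^ L / L ^ A := by
      rw [Nat.le_div_iff_mul_le hLA0]
      exact hi2.le
    omega
  have hgap : (gr A L (i + 1) : ℝ) ≤ gr A L i + 2 ^ L / (L : ℝ) ^ A + 1 := by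
    unfold gr
    have h3 : ((((i + 1) * 2 ^ L / L ^ A : ℕ)) : ℝ) ≤ ((i + 1 : ℕ) : ℝ) * 2 ^ L / (L : ℝ) ^ A := by
      have := @Nat.cast_div_le ℝ _ _ _ ((i + 1) * 2 ^ L) (L ^ A)
      push_cast at this ⊢
      exact this
    have h4 : ((i : ℕ) : ℝ) * 2 ^ L / (L : ℝ) ^ A < ((i * 2 ^ L / L ^ A : ℕ) : ℝ) + 1 := by
      rw [div_lt_iff₀ hLAr]
      have := Nat.lt_div_mul_add (a := i * 2 ^ L) hLA0
      have h5 : ((i * 2 ^ L : ℕ) : ℝ) < ((i * 2 ^ L / L ^ A * L ^ A + L ^ A : ℕ) : ℝ) := by exact_mod_cast this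
      push_cast at h5 ⊢
      linarith
    have h6 : ((i + 1 : ℕ) : ℝ) * 2 ^ L / (L : ℝ) ^ A = ((i : ℕ) : ℝ) * 2 ^ L / (L : ℝ) ^ A + 2 ^ L / (L : ℝ) ^ A := by
      push_cast
      ring
    push_cast at h3 h4 h6 ⊢
    linarith
  have hone : (1 : ℝ) ≤ 2 ^ L / (L : ℝ) ^ A := by
    rw [le_div_iff₀ hLAr, one_mul]
    exact hpw
  have g1 := abs_le.1 (hgp i hiA.le)
  have g2 := abs_le.1 (hgp (i + 1) hiA)
  have m1 := hWm hlow
  have m2 := hWm hup
  have hlowr : (gr A L i : ℝ) ≤ N := by exact_mod_cast hlow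
  have hupr : (N : ℝ) ≤ gr A L (i + 1) := by exact_mod_cast hup
  have hfinal : |W N - N| ≤ (C2 + 2) * (2 ^ L / (L : ℝ) ^ A) := by
    rw [abs_le]
    constructor
    · linarith [g1.1, g1.2]
    · linarith [g2.1, g2.2]
  have hWN : ∑ n ∈ Icc 1 N, F n = W N := by rw [hW]
  rw [hWN]
  refine hfinal.trans ?_
  apply mul_le_mul_of_nonneg_left _ (by linarith)
  have hlogN : Real.log N ≤ L := by
    have h3 : Real.log N ≤ Real.log ((2 : ℝ) ^ (L + 1)) := Real.log_le_log hN0 (by exact_mod_cast hN2.le)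
    rw [Real.log_pow] at h3
    have h4 := Real.log_two_lt_d9
    push_cast at h3
    nlinarith
  have hlogN0 : 0 < Real.log N := by
    apply Real.log_pos
    have : (1 : ℝ) < 2 ^ L := one_lt_pow₀ (by norm_num) (by omega)
    linarith
  apply div_le_div₀ hN0.le h2Lr (by positivity)
  exact pow_le_pow_left₀ hlogN0.le hlogN A

/-- **almost all multipliers** -/
theorem chains_ae (k : ℕ) : ∀ᵐ β : Fin k → ℝ, (∀ i, 0 < β i) → ∀ (h : Fin k → ℤ) (A : ℕ),
    ∃ C : ℝ, ∀ᶠ N : ℕ in atTop, |∑ n ∈ Icc 1 N, FR k β h n - N| ≤ C * (N / Real.log N ^ A) := by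
  refine all_ae k (fun β => ∀ (h : Fin k → ℤ) (A : ℕ),
    ∃ C : ℝ, ∀ᶠ N : ℕ in atTop, |∑ n ∈ Icc 1 N, FR k β h n - N| ≤ C * (N / Real.log N ^ A)) fun b => ?_
  rw [ae_all_iff]
  intro h
  rw [ae_all_iff]
  intro A
  have h2 : ∀ᵐ ω ∂(cube k), ω ∈ Set.pi Set.univ (fun _ : Fin k => Set.Icc (0 : ℝ) 1) := by
    rw [cube, ← Measure.restrict_pi_pi]
    exact ae_restrict_mem (MeasurableSet.univ_pi fun _ => measurableSet_Icc)
  filter_upwards [grid_ae k (fun i => (b i : ℝ)) h A, h2] with ω hω hω2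
  have hω3 : ∀ i, ω i ∈ Set.Icc (0 : ℝ) 1 := fun i => hω2 i (Set.mem_univ i)
  refine grid_all (FR k (fun i => Real.exp (b i + ω i)) h) (fun n => FR_nonneg _ _ _ n) A ?_
  filter_upwards [hω] with L hL i hi
  have h3 := hL i hi
  simp only [FF_eq k (fun i => (b i : ℝ)) h ω hω3] at h3
  exact h3

end Pool.Agent.H49.CC
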