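import Pool.Agent.H49.D.GD

set_option autoImplicit false

/-! Chains of primes: counting. -/

namespace Pool.Agent.H49.CC

open Finset MeasureTheory Filter Topology
open Pool.Agent.H49.DM (cl toNat_le)

theorem links_len (k : ℕ) : ∀ (β : Fin k → ℝ) (h : Fin k → ℤ) (n : ℕ), (links k β h n).length = k + 1 := by
  induction k with
  | zero =>
    intro β h n
    simp [links]
  | succ k ih =>
    intro β h n
    rw [links, List.length_cons, ih]

theorem links_head (k : ℕ) (β : Fin k → ℝ) (h : Fin k → ℤ) (n : ℕ) : n ∈ links k β h n := by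
  cases k with
  | zero => simp [links]
  | succ k => simp [links]

/-- one step -/
noncomputable def st (β : ℝ) (h : ℤ) (n : ℕ) : ℕ := (⌊β * n⌋ + h).toNat

theorem st_step {β : ℝ} (hβ : 0 < β) (h : ℤ) (n : ℕ) : st β h n = step (Real.log β) h 0 n := by
  unfold st step
  have e : Real.log β + cl 0 = Real.log β := by simp [cl]
  rw [e, Real.exp_log hβ, Real.rpow_one, Int.natCast_floor_eq_floor (by positivity)]

theorem st_le {β : ℝ} (hβ : 0 < β) (h : ℤ) {n : ℕ} {x : ℝ} (hx : 1 ≤ x) (hn : (n : ℝ) ≤ x) :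
    ((st β h n : ℕ) : ℝ) ≤ (β + |(h : ℝ)| + 1) * x := by
  have h0 : 0 ≤ β * n := by positivity
  have h1 : ((st β h n : ℕ) : ℤ) ≤ ⌊β * n⌋ + |h| := by
    unfold st
    have := le_abs_self h
    have := abs_nonneg h
    have := Int.floor_nonneg.2 h0
    omega
  have h2 : ((st β h n : ℕ) : ℝ) ≤ (⌊β * n⌋ : ℝ) + |(h : ℝ)| := by exact_mod_cast h1
  have h3 : (⌊β * n⌋ : ℝ) ≤ β * n := Int.floor_le _
  have h4 : β * n ≤ β * x := mul_le_mul_of_nonneg_left hn hβ.le
  have h5 := abs_nonneg (h : ℝ)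
  nlinarith

theorem st_ge (β : ℝ) (h : ℤ) (n : ℕ) : β * n - 1 - |(h : ℝ)| ≤ ((st β h n : ℕ) : ℝ) := by
  have h1 : ⌊β * n⌋ + h ≤ ((st β h n : ℕ) : ℤ) := by
    unfold st
    exact Int.self_le_toNat _
  have h2 : (⌊β * n⌋ : ℝ) + h ≤ ((st β h n : ℕ) : ℝ) := by exact_mod_cast h1
  have h3 := Int.lt_floor_add_one (β * n)
  have h4 := neg_abs_le (h : ℝ)
  linarith

theorem links_ub (k : ℕ) : ∀ (β : Fin k → ℝ) (h : Fin k → ℤ), (∀ i, 0 < β i) → ∃ ρ : ℝ, 1 ≤ ρ ∧
    ∀ x : ℝ, 1 ≤ x → ∀ n : ℕ, (n : ℝ) ≤ x → ∀ p ∈ links k β h n, (p : ℝ) ≤ ρ * x := by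
  induction k with
  | zero =>
    intro β h _
    refine ⟨1, le_rfl, fun x hx n hn p hp => ?_⟩
    simp only [links, List.mem_singleton] at hp
    rw [hp, one_mul]
    exact hn
  | succ k ih =>
    intro β h hβ
    obtain ⟨ρ, hρ, h1⟩ := ih (fun i => β i.succ) (fun i => h i.succ) (fun i => hβ _)
    have ha := abs_nonneg (h 0 : ℝ)
    have hb := hβ 0
    refine ⟨ρ * (β 0 + |(h 0 : ℝ)| + 1), by nlinarith, fun x hx n hn p hp => ?_⟩
    rw [links, List.mem_cons] at hp
    have hc : 1 ≤ β 0 + |(h 0 : ℝ)| + 1 := by linarith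
    rcases hp with hp | hp
    · rw [hp]
      have : 1 ≤ ρ * (β 0 + |(h 0 : ℝ)| + 1) := by nlinarith
      nlinarith
    · have h2 := st_le hb (h 0) hx hn
      have h3 := h1 ((β 0 + |(h 0 : ℝ)| + 1) * x) (by nlinarith) _ h2 p hp
      linarith

theorem links_lb (k : ℕ) : ∀ (β : Fin k → ℝ) (h : Fin k → ℤ), (∀ i, 0 < β i) → ∃ c C : ℝ, 0 < c ∧ 0 ≤ C ∧
    ∀ n : ℕ, ∀ p ∈ links k β h n, c * n - C ≤ p := by
  induction k with
  | zero =>
    intro β h _
    refine ⟨1, 0, one_pos, le_rfl, fun n p hp => ?_⟩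
    simp only [links, List.mem_singleton] at hp
    rw [hp]
    linarith
  | succ k ih =>
    intro β h hβ
    obtain ⟨c, C, hc, hC, h1⟩ := ih (fun i => β i.succ) (fun i => h i.succ) (fun i => hβ _)
    have ha := abs_nonneg (h 0 : ℝ)
    have hb := hβ 0
    refine ⟨min 1 (c * β 0), c * (1 + |(h 0 : ℝ)|) + C, lt_min one_pos (by positivity), by positivity, fun n p hp => ?_⟩
    have hn0 : (0 : ℝ) ≤ n := Nat.cast_nonneg n
    rw [links, List.mem_cons] at hp
    rcases hp with hp | hp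
    · rw [hp]
      have h2 : min 1 (c * β 0) * n ≤ 1 * n := mul_le_mul_of_nonneg_right (min_le_left _ _) hn0
      have h3 : 0 ≤ c * (1 + |(h 0 : ℝ)|) + C := by positivity
      linarith
    · have h2 : min 1 (c * β 0) * n ≤ (c * β 0) * n := mul_le_mul_of_nonneg_right (min_le_right _ _) hn0
      have h3 := h1 _ p hp
      have h4 := mul_le_mul_of_nonneg_left (st_ge (β 0) (h 0) n) hc.le
      unfold st at h4
      linarith

theorem st_sum {β : ℝ} (hβ : 0 < β) (h : ℤ) (N N' : ℕ) (hN' : ∀ n ∈ Icc 1 N, st β h n ≤ N') (f : ℕ → ℝ)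
    (hf : ∀ m, 0 ≤ f m) (hf0 : f 0 = 0) :
    ∑ n ∈ Icc 1 N, f (st β h n) ≤ (1 / β + 1) * ∑ m ∈ Icc 1 N', f m := by
  have h1 : ∑ n ∈ Icc 1 N, f (st β h n) =
      ∑ m ∈ range (N' + 1), ∑ n ∈ (Icc 1 N).filter (fun n => st β h n = m), f (st β h n) := by
    rw [sum_fiberwise_of_maps_to]
    intro n hn
    rw [mem_range]
    have := hN' n hn
    omega
  have h2 : range (N' + 1) = insert 0 (Icc 1 N') := by
    ext m
    simp only [mem_range, mem_insert, mem_Icc]
    omega
  rw [h1, h2, sum_insert (by simp)]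
  have h3 : ∑ n ∈ (Icc 1 N).filter (fun n => st β h n = 0), f (st β h n) = 0 := by
    refine sum_eq_zero fun n hn => ?_
    rw [mem_filter] at hn
    rw [hn.2, hf0]
  rw [h3, zero_add, mul_sum]
  refine sum_le_sum fun m hm => ?_
  rw [mem_Icc] at hm
  have h4 : ∑ n ∈ (Icc 1 N).filter (fun n => st β h n = m), f (st β h n) =
      (((Icc 1 N).filter (fun n => st β h n = m)).card : ℝ) * f m := by
    rw [← nsmul_eq_mul, ← sum_const]
    refine sum_congr rfl fun n hn => ?_
    rw [mem_filter] at hn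
    rw [hn.2]
  rw [h4]
  apply mul_le_mul_of_nonneg_right _ (hf m)
  have h5 := mult (Real.log β) h 0 N m hm.1
  rw [Real.exp_neg, Real.exp_log hβ] at h5
  simp only [st_step hβ]
  rw [one_div]
  exact h5

/-- sums of a nonnegative function over the chains which avoid `0` -/
theorem cnt (k : ℕ) : ∀ (β : Fin k → ℝ) (h : Fin k → ℤ), (∀ i, 0 < β i) → ∃ C ρ : ℝ, 0 ≤ C ∧ 1 ≤ ρ ∧
    ∀ (N : ℕ) (g : ℕ → ℝ), (∀ n, 0 ≤ g n) →
      ∑ n ∈ (Icc 1 N).filter (fun n => 0 ∉ links k β h n), ((links k β h n).map g).sum ≤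
        C * ∑ m ∈ Icc 1 ⌊ρ * N⌋₊, g m := by
  induction k with
  | zero =>
    intro β h _
    refine ⟨1, 1, zero_le_one, le_rfl, fun N g hg => ?_⟩
    rw [one_mul, one_mul, Nat.floor_natCast]
    refine (sum_le_sum_of_subset_of_nonneg (filter_subset _ _) fun n _ _ => ?_).trans (le_of_eq ?_)
    · simp [links, hg n]
    · refine sum_congr rfl fun n _ => ?_
      simp [links]
  | succ k ih =>
    intro β h hβ
    obtain ⟨C, ρ, hC, hρ, h1⟩ := ih (fun i => β i.succ) (fun i => h i.succ) (fun i => hβ _)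
    have ha := abs_nonneg (h 0 : ℝ)
    have hb := hβ 0
    obtain ⟨ρ1, hρ1⟩ : ∃ ρ1 : ℝ, ρ1 = β 0 + |(h 0 : ℝ)| + 1 := ⟨_, rfl⟩
    have hρ11 : 1 ≤ ρ1 := by rw [hρ1]; linarith
    have hρρ : 1 ≤ ρ * ρ1 := by nlinarith
    refine ⟨1 + (1 / β 0 + 1) * C, ρ * ρ1, by positivity, hρρ, fun N g hg => ?_⟩
    obtain ⟨M, hM⟩ : ∃ M : ℕ, M = ⌊ρ * ρ1 * N⌋₊ := ⟨_, rfl⟩
    obtain ⟨N', hN'⟩ : ∃ N' : ℕ, N' = ⌊ρ1 * N⌋₊ := ⟨_, rfl⟩
    rw [← hM]
    obtain ⟨f, hf⟩ : ∃ f : ℕ → ℝ, f = fun m => if 0 ∉ links k (fun i => β i.succ) (fun i => h i.succ) m then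
      ((links k (fun i => β i.succ) (fun i => h i.succ) m).map g).sum else 0 := ⟨_, rfl⟩
    have hsum0 : ∀ m, 0 ≤ ((links k (fun i => β i.succ) (fun i => h i.succ) m).map g).sum := by
      intro m
      apply List.sum_nonneg
      intro a ha
      rw [List.mem_map] at ha
      obtain ⟨p, _, rfl⟩ := ha
      exact hg p
    have hf0 : ∀ m, 0 ≤ f m := by
      intro m
      rw [hf]
      simp only
      split_ifs
      · exact le_rfl
      · exact hsum0 m
    have hfz : f 0 = 0 := by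
      rw [hf]
      simp only
      rw [if_neg]
      intro hc
      exact hc (links_head _ _ _ 0)
    have hNM : N ≤ M := by
      rw [hM]
      apply Nat.le_floor
      have : (0 : ℝ) ≤ N := Nat.cast_nonneg N
      nlinarith
    have hst : ∀ n ∈ Icc 1 N, st (β 0) (h 0) n ≤ N' := by
      intro n hn
      rw [mem_Icc] at hn
      rw [hN', hρ1]
      apply Nat.le_floor
      exact st_le hb (h 0) (by exact_mod_cast hn.1.trans hn.2) (by exact_mod_cast hn.2)
    calc ∑ n ∈ (Icc 1 N).filter (fun n => 0 ∉ links (k + 1) β h n), ((links (k + 1) β h n).map g).sum ≤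
          ∑ n ∈ (Icc 1 N).filter (fun n => 0 ∉ links (k + 1) β h n), (g n + f (st (β 0) (h 0) n)) := by
          refine sum_le_sum fun n hn => ?_
          rw [mem_filter] at hn
          have h2 := hn.2
          rw [links, List.mem_cons, not_or] at h2
          rw [links, List.map_cons, List.sum_cons, hf]
          simp only
          unfold st
          rw [if_pos h2.2]
      _ ≤ ∑ n ∈ Icc 1 N, (g n + f (st (β 0) (h 0) n)) :=
          sum_le_sum_of_subset_of_nonneg (filter_subset _ _) fun n _ _ => add_nonneg (hg n) (hf0 _)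
      _ = ∑ n ∈ Icc 1 N, g n + ∑ n ∈ Icc 1 N, f (st (β 0) (h 0) n) := sum_add_distrib
      _ ≤ ∑ m ∈ Icc 1 M, g m + (1 / β 0 + 1) * ∑ m ∈ Icc 1 N', f m := by
          refine add_le_add ?_ (st_sum hb (h 0) N N' hst f hf0 hfz)
          exact sum_le_sum_of_subset_of_nonneg (Icc_subset_Icc_right hNM) fun n _ _ => hg n
      _ ≤ ∑ m ∈ Icc 1 M, g m + (1 / β 0 + 1) * (C * ∑ m ∈ Icc 1 M, g m) := by
          refine add_le_add le_rfl (mul_le_mul_of_nonneg_left ?_ (by positivity))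
          have e1 : ∑ m ∈ Icc 1 N', f m = ∑ n ∈ (Icc 1 N').filter (fun n => 0 ∉ links k (fun i => β i.succ)
              (fun i => h i.succ) n), ((links k (fun i => β i.succ) (fun i => h i.succ) n).map g).sum := by
            rw [sum_filter, hf]
          rw [e1]
          refine (h1 N' g hg).trans (mul_le_mul_of_nonneg_left ?_ hC)
          apply sum_le_sum_of_subset_of_nonneg _ fun n _ _ => hg n
          apply Icc_subset_Icc_right
          rw [hM]
          apply Nat.floor_mono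
          have h3 : (N' : ℝ) ≤ ρ1 * N := by rw [hN']; exact Nat.floor_le (by positivity)
          calc ρ * (N' : ℝ) ≤ ρ * (ρ1 * N) := mul_le_mul_of_nonneg_left h3 (by linarith)
            _ = _ := by ring
      _ = _ := by ring

theorem prod_ge (l : List ℕ) (f : ℕ → ℝ) (a : ℝ) (ha : 0 ≤ a) (h : ∀ p ∈ l, a ≤ f p) :
    a ^ l.length ≤ (l.map f).prod := by
  induction l with
  | nil => simp
  | cons x l ih =>
    rw [List.length_cons, List.map_cons, List.prod_cons, pow_succ, mul_comm]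
    have h1 := ih fun p hp => h p (List.mem_cons_of_mem _ hp)
    exact mul_le_mul (h x List.mem_cons_self) h1 (by positivity) (ha.trans (h x List.mem_cons_self))

theorem prod_le (l : List ℕ) (f : ℕ → ℝ) (a : ℝ) (ha : 0 ≤ a) (h : ∀ p ∈ l, 0 ≤ f p ∧ f p ≤ a) :
    (l.map f).prod ≤ a ^ l.length := by
  induction l with
  | nil => simp
  | cons x l ih =>
    rw [List.length_cons, List.map_cons, List.prod_cons, pow_succ, mul_comm (a ^ _)]
    have h1 := ih fun p hp => h p (List.mem_cons_of_mem _ hp)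
    apply mul_le_mul (h x List.mem_cons_self).2 h1 _ ha
    apply List.prod_nonneg
    intro b hb
    rw [List.mem_map] at hb
    obtain ⟨p, hp, rfl⟩ := hb
    exact (h p (List.mem_cons_of_mem _ hp)).1

end Pool.Agent.H49.CC
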