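import Pool.Agent.H49.D.GE

set_option autoImplicit false

/-! Chains of primes: the count. -/

namespace Pool.Agent.H49.CC

open Finset MeasureTheory Filter Topology

/-- the indicator of prime powers which are not primes, with weight `Λ` -/
noncomputable def gpp (m : ℕ) : ℝ := if m.Prime then 0 else ArithmeticFunction.vonMangoldt m

theorem gpp_nonneg (m : ℕ) : 0 ≤ gpp m := by
  unfold gpp
  split_ifs
  · exact le_rfl
  · exact ArithmeticFunction.vonMangoldt_nonneg

theorem gpp_sum : ∃ C : ℝ, 0 ≤ C ∧ ∀ x : ℝ, ∑ m ∈ Icc 1 ⌊x⌋₊, gpp m ≤ C * √x := by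
  obtain ⟨C, hC⟩ := Chebyshev.psi_sub_theta_le_mul_sqrt
  refine ⟨|C|, abs_nonneg C, fun x => ?_⟩
  have h1 := hC x
  rw [Chebyshev.psi_sub_theta_eq_sum_not_prime] at h1
  have h2 : ∑ m ∈ Icc 1 ⌊x⌋₊, gpp m = ∑ n ∈ Ioc 0 ⌊x⌋₊ with ¬ n.Prime, ArithmeticFunction.vonMangoldt n := by
    rw [sum_filter]
    refine sum_congr (by ext; simp [Nat.succ_le_iff]) fun m _ => ?_
    unfold gpp
    by_cases hm : m.Prime <;> simp [hm]
  rw [h2]
  exact h1.trans (mul_le_mul_of_nonneg_right (le_abs_self C) (Real.sqrt_nonneg x))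

/-- `n ≤ N` such that the whole chain is prime -/
noncomputable def PS (k : ℕ) (β : Fin k → ℝ) (h : Fin k → ℤ) (N : ℕ) : Finset ℕ :=
  (Icc 1 N).filter fun n => ∀ p ∈ links k β h n, p.Prime

/-- upper bound -/
theorem PS_le (k : ℕ) (β : Fin k → ℝ) (h : Fin k → ℤ) (N : ℕ) (y z : ℝ) (hy : 0 ≤ y) (hz : 1 < z)
    (hyz : ∀ n : ℕ, y < n → ∀ p ∈ links k β h n, z ≤ p) :
    ((PS k β h N).card : ℝ) ≤ y + (∑ n ∈ Icc 1 N, FR k β h n) / Real.log z ^ (k + 1) := by
  have hlz : 0 < Real.log z := Real.log_pos hz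
  have h1 : PS k β h N ⊆ Icc 1 ⌊y⌋₊ ∪ (PS k β h N).filter (fun n : ℕ => y < (n : ℝ)) := by
    intro n hn
    rw [mem_union, mem_filter]
    by_cases hny : y < (n : ℝ)
    · right; exact ⟨hn, hny⟩
    · left
      unfold PS at hn
      rw [mem_filter, mem_Icc] at hn
      rw [mem_Icc]
      exact ⟨hn.1.1, Nat.le_floor (not_lt.1 hny)⟩
  have h2 : ((PS k β h N).card : ℝ) ≤ (Icc 1 ⌊y⌋₊).card + ((PS k β h N).filter (fun n : ℕ => y < (n : ℝ))).card := by
    exact_mod_cast (card_le_card h1).trans (card_union_le _ _)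
  refine h2.trans (add_le_add ?_ ?_)
  · rw [Nat.card_Icc, Nat.add_sub_cancel]
    exact Nat.floor_le hy
  · rw [le_div_iff₀ (by positivity)]
    rw [← nsmul_eq_mul, ← sum_const]
    refine (sum_le_sum (g := fun n => FR k β h n) fun n hn => ?_).trans ?_
    · rw [mem_filter] at hn
      obtain ⟨hn1, hn2⟩ := hn
      unfold PS at hn1
      rw [mem_filter] at hn1
      unfold FR
      have h3 := prod_ge (links k β h n) (fun p => ArithmeticFunction.vonMangoldt p) (Real.log z) hlz.le (fun p hp => by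
        rw [ArithmeticFunction.vonMangoldt_apply_prime (hn1.2 p hp)]
        exact Real.log_le_log (by linarith) (hyz n hn2 p hp))
      rw [links_len] at h3
      exact h3
    · apply sum_le_sum_of_subset_of_nonneg _ fun n _ _ => FR_nonneg _ _ _ n
      refine (filter_subset _ _).trans ?_
      unfold PS
      exact filter_subset _ _

/-- lower bound -/
theorem PS_ge (k : ℕ) (β : Fin k → ℝ) (h : Fin k → ℤ) (hβ : ∀ i, 0 < β i) : ∃ ρ D : ℝ, 1 ≤ ρ ∧ 0 ≤ D ∧
    ∀ N : ℕ, 1 ≤ N → (∑ n ∈ Icc 1 N, FR k β h n) ≤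
      ((PS k β h N).card + D * √(ρ * N)) * Real.log (ρ * N) ^ (k + 1) := by
  obtain ⟨ρ1, hρ1, hub⟩ := links_ub k β h hβ
  obtain ⟨C, ρ2, hC, hρ2, hcnt⟩ := cnt k β h hβ
  obtain ⟨E, hE, hgpp⟩ := gpp_sum
  obtain ⟨ρ, hρ⟩ : ∃ ρ : ℝ, ρ = max ρ1 ρ2 := ⟨_, rfl⟩
  have h1ρ : ρ1 ≤ ρ := hρ ▸ le_max_left _ _
  have h2ρ : ρ2 ≤ ρ := hρ ▸ le_max_right _ _
  have hl2 : 0 < Real.log 2 := Real.log_pos (by norm_num)
  refine ⟨ρ, C * E / Real.log 2, hρ1.trans h1ρ, by positivity, fun N hN => ?_⟩
  have hN1 : (1 : ℝ) ≤ N := by exact_mod_cast hN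
  have hρN : 1 ≤ ρ * N := by nlinarith
  have hlog : 0 ≤ Real.log (ρ * N) := Real.log_nonneg hρN
  -- the bad set
  obtain ⟨B, hB⟩ : ∃ B : Finset ℕ, B = (Icc 1 N).filter (fun n => 0 ∉ links k β h n ∧
    Real.log 2 ≤ ((links k β h n).map gpp).sum) := ⟨_, rfl⟩
  have hsub : ∀ n ∈ Icc 1 N, FR k β h n ≠ 0 → n ∈ PS k β h N ∪ B := by
    intro n hn hne
    rw [mem_union]
    by_cases hp : ∀ p ∈ links k β h n, p.Prime
    · left
      unfold PS
      rw [mem_filter]
      exact ⟨hn, hp⟩
    · right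
      rw [hB, mem_filter]
      push Not at hp
      obtain ⟨p, hp1, hp2⟩ := hp
      have hall : ∀ q ∈ links k β h n, ArithmeticFunction.vonMangoldt q ≠ 0 := by
        intro q hq h0
        apply hne
        unfold FR
        apply List.prod_eq_zero
        rw [List.mem_map]
        exact ⟨q, hq, h0⟩
      refine ⟨hn, ?_, ?_⟩
      · intro h0
        exact hall 0 h0 (by simp)
      · have h3 : gpp p ≤ ((links k β h n).map gpp).sum := by
          apply List.single_le_sum
          · intro x hx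
            rw [List.mem_map] at hx
            obtain ⟨q, _, rfl⟩ := hx
            exact gpp_nonneg q
          · rw [List.mem_map]
            exact ⟨p, hp1, rfl⟩
        refine le_trans ?_ h3
        unfold gpp
        rw [if_neg hp2]
        have h4 := hall p hp1
        have h5 : IsPrimePow p := by
          by_contra h6
          exact h4 (ArithmeticFunction.vonMangoldt_eq_zero_iff.2 h6)
        rw [ArithmeticFunction.vonMangoldt_apply, if_pos h5]
        apply Real.log_le_log (by norm_num)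
        have : 2 ≤ p.minFac := (Nat.minFac_prime h5.ne_one).two_le
        exact_mod_cast this
  have hval : ∀ n ∈ Icc 1 N, FR k β h n ≤ Real.log (ρ * N) ^ (k + 1) := by
    intro n hn
    rw [mem_Icc] at hn
    unfold FR
    rw [← links_len k β h n]
    apply prod_le _ _ _ hlog
    intro p hp
    refine ⟨ArithmeticFunction.vonMangoldt_nonneg, ArithmeticFunction.vonMangoldt_le_log.trans ?_⟩
    rcases Nat.eq_zero_or_pos p with h0 | h0
    · rw [h0]
      simpa using hlog
    · apply Real.log_le_log (by exact_mod_cast h0)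
      refine (hub N hN1 n (by exact_mod_cast hn.2) p hp).trans ?_
      exact mul_le_mul_of_nonneg_right h1ρ (by linarith)
  have hBc : (B.card : ℝ) ≤ C * E / Real.log 2 * √(ρ * N) := by
    have h3 : (B.card : ℝ) * Real.log 2 ≤ C * (E * √(ρ2 * N)) := by
      rw [← nsmul_eq_mul, ← sum_const]
      calc ∑ n ∈ B, Real.log 2 ≤ ∑ n ∈ B, ((links k β h n).map gpp).sum := by
            refine sum_le_sum fun n hn => ?_
            rw [hB, mem_filter] at hn
            exact hn.2.2
        _ ≤ ∑ n ∈ (Icc 1 N).filter (fun n => 0 ∉ links k β h n), ((links k β h n).map gpp).sum := by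
            apply sum_le_sum_of_subset_of_nonneg
            · intro n hn
              rw [hB, mem_filter] at hn
              rw [mem_filter]
              exact ⟨hn.1, hn.2.1⟩
            · intro n _ _
              apply List.sum_nonneg
              intro x hx
              rw [List.mem_map] at hx
              obtain ⟨q, _, rfl⟩ := hx
              exact gpp_nonneg q
        _ ≤ C * ∑ m ∈ Icc 1 ⌊ρ2 * N⌋₊, gpp m := hcnt N gpp gpp_nonneg
        _ ≤ _ := mul_le_mul_of_nonneg_left (hgpp _) hC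
    have h4 : √(ρ2 * N) ≤ √(ρ * N) := Real.sqrt_le_sqrt (mul_le_mul_of_nonneg_right h2ρ (by linarith))
    have h5 : C * (E * √(ρ2 * N)) ≤ C * (E * √(ρ * N)) :=
      mul_le_mul_of_nonneg_left (mul_le_mul_of_nonneg_left h4 hE) hC
    rw [div_mul_eq_mul_div, le_div_iff₀ hl2]
    linarith
  calc ∑ n ∈ Icc 1 N, FR k β h n = ∑ n ∈ (Icc 1 N).filter (fun n => FR k β h n ≠ 0), FR k β h n := by
        rw [sum_filter_ne_zero]
    _ ≤ ∑ n ∈ (Icc 1 N).filter (fun n => FR k β h n ≠ 0), Real.log (ρ * N) ^ (k + 1) := by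
        refine sum_le_sum fun n hn => ?_
        rw [mem_filter] at hn
        exact hval n hn.1
    _ = (((Icc 1 N).filter (fun n => FR k β h n ≠ 0)).card : ℝ) * Real.log (ρ * N) ^ (k + 1) := by
        rw [sum_const, nsmul_eq_mul]
    _ ≤ _ := by
        apply mul_le_mul_of_nonneg_right _ (by positivity)
        have h6 : (((Icc 1 N).filter (fun n => FR k β h n ≠ 0)).card : ℝ) ≤ (PS k β h N).card + B.card := by
          have h7 : (Icc 1 N).filter (fun n => FR k β h n ≠ 0) ⊆ PS k β h N ∪ B := by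
            intro n hn
            rw [mem_filter] at hn
            exact hsub n hn.1 hn.2
          exact_mod_cast (card_le_card h7).trans (card_union_le _ _)
        linarith

end Pool.Agent.H49.CC
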