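import Pool.Agent.H49.D.GF

set_option autoImplicit false

/-! Chains of primes: the limit. -/

namespace Pool.Agent.H49.CC

open Finset MeasureTheory Filter Topology

theorem t_log : Tendsto (fun N : ℕ => Real.log N) atTop atTop :=
  Real.tendsto_log_atTop.comp tendsto_natCast_atTop_atTop

/-- `(log N)^j = o(√N)` -/
theorem t_pow_sqrt (j : ℕ) : Tendsto (fun N : ℕ => Real.log N ^ j / √N) atTop (𝓝 0) := by
  have h1 : Tendsto (fun x : ℝ => Real.log x ^ j / x) atTop (𝓝 0) := (Real.isLittleO_pow_log_id_atTop (n := j)).tendsto_div_nhds_zero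
  have h2 : Tendsto (fun N : ℕ => √(N : ℝ)) atTop atTop := Real.tendsto_sqrt_atTop.comp tendsto_natCast_atTop_atTop
  have h3 := (h1.comp h2).const_mul (2 ^ j : ℝ)
  rw [mul_zero] at h3
  refine h3.congr fun N => ?_
  simp only [Function.comp]
  rw [Real.log_sqrt (Nat.cast_nonneg N), div_pow]
  field_simp

theorem t_pow (j : ℕ) : Tendsto (fun N : ℕ => Real.log N ^ j / N) atTop (𝓝 0) :=
  ((Real.isLittleO_pow_log_id_atTop (n := j)).tendsto_div_nhds_zero).comp tendsto_natCast_atTop_atTop

/-- from the asymptotic with weights to the count -/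
theorem count_tendsto (k : ℕ) (β : Fin k → ℝ) (h : Fin k → ℤ) (hβ : ∀ i, 0 < β i)
    (C₁ : ℝ) (hW : ∀ᶠ N : ℕ in atTop, |∑ n ∈ Icc 1 N, FR k β h n - N| ≤ C₁ * (N / Real.log N ^ 1)) :
    Tendsto (fun N : ℕ => ((PS k β h N).card : ℝ) * Real.log N ^ (k + 1) / N) atTop (𝓝 1) := by
  obtain ⟨ρ, D, hρ, hD, hge⟩ := PS_ge k β h hβ
  obtain ⟨c, C, hc, hC, hlb⟩ := links_lb k β h hβ
  obtain ⟨W, hWd⟩ : ∃ W : ℕ → ℝ, W = fun N => ∑ n ∈ Icc 1 N, FR k β h n := ⟨_, rfl⟩
  have hpos : ∀ᶠ N : ℕ in atTop, (1 : ℝ) ≤ N := by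
    filter_upwards [eventually_ge_atTop 1] with N hN
    exact_mod_cast hN
  -- (1)
  have hw : Tendsto (fun N : ℕ => W N / N) atTop (𝓝 1) := by
    rw [tendsto_iff_norm_sub_tendsto_zero]
    have h1 : Tendsto (fun N : ℕ => C₁ * (Real.log N)⁻¹) atTop (𝓝 0) := by
      have := (tendsto_inv_atTop_zero.comp t_log).const_mul C₁
      rw [mul_zero] at this
      exact this
    refine squeeze_zero' (Eventually.of_forall fun N => norm_nonneg _) ?_ h1
    filter_upwards [hW, hpos] with N h2 h3
    have hN0 : (0 : ℝ) < N := by linarith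
    rw [Real.norm_eq_abs]
    have e : W N / N - 1 = (∑ n ∈ Icc 1 N, FR k β h n - N) / N := by
      rw [hWd]
      field_simp
    rw [e, abs_div, abs_of_pos hN0, div_le_iff₀ hN0]
    rw [pow_one, div_eq_mul_inv] at h2
    linarith
  -- (2)
  have ha : Tendsto (fun N : ℕ => Real.log N / Real.log (ρ * N)) atTop (𝓝 1) := by
    have h1 : Tendsto (fun N : ℕ => Real.log ρ * (Real.log N)⁻¹ + 1) atTop (𝓝 (Real.log ρ * 0 + 1)) :=
      ((tendsto_inv_atTop_zero.comp t_log).const_mul _).add_const 1
    rw [mul_zero, zero_add] at h1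
    have h2 := h1.inv₀ one_ne_zero
    rw [inv_one] at h2
    refine h2.congr' ?_
    filter_upwards [hpos, t_log.eventually (eventually_gt_atTop 0)] with N h3 h4
    rw [Real.log_mul (by linarith) (by linarith)]
    have h5 : 0 ≤ Real.log ρ := Real.log_nonneg hρ
    field_simp
  -- (3)
  have hb : Tendsto (fun N : ℕ => D * √(ρ * N) * Real.log N ^ (k + 1) / N) atTop (𝓝 0) := by
    have h1 := (t_pow_sqrt (k + 1)).const_mul (D * √ρ)
    rw [mul_zero] at h1
    refine h1.congr' ?_
    filter_upwards [hpos] with N h3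
    have hs : (0 : ℝ) < √N := Real.sqrt_pos.2 (by linarith)
    rw [Real.sqrt_mul (by linarith)]
    have e : (N : ℝ) = √N * √N := (Real.mul_self_sqrt (by linarith)).symm
    have e2 : D * (√ρ * √N) * Real.log N ^ (k + 1) / N = D * (√ρ * √N) * Real.log N ^ (k + 1) / (√N * √N) := by
      rw [← e]
    rw [e2]
    field_simp
  -- (4)
  have hz : Tendsto (fun N : ℕ => Real.log (N / Real.log N ^ (k + 3)) / Real.log N) atTop (𝓝 1) := by
    have h0 : Tendsto (fun x : ℝ => Real.log x / x) atTop (𝓝 0) := Real.isLittleO_log_id_atTop.tendsto_div_nhds_zero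
    have h1 := (h0.comp t_log).const_mul (((k + 3 : ℕ) : ℝ))
    rw [mul_zero] at h1
    have h2 := (tendsto_const_nhds (x := (1 : ℝ))).sub h1
    rw [sub_zero] at h2
    refine h2.congr' ?_
    filter_upwards [hpos, t_log.eventually (eventually_gt_atTop 0)] with N h3 h4
    rw [Real.log_div (by linarith) (by positivity), Real.log_pow, sub_div, div_self h4.ne']
    simp only [Function.comp]
    ring
  have hz1 : Tendsto (fun N : ℕ => Real.log N / Real.log (N / Real.log N ^ (k + 3))) atTop (𝓝 1) := by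
    have h2 := hz.inv₀ one_ne_zero
    rw [inv_one] at h2
    exact h2.congr fun N => inv_div _ _
  have hy0 : Tendsto (fun N : ℕ => (Real.log N)⁻¹) atTop (𝓝 0) := tendsto_inv_atTop_zero.comp t_log
  -- the lower and the upper function
  have hlo : Tendsto (fun N : ℕ => W N / N * (Real.log N / Real.log (ρ * N)) ^ (k + 1) -
      D * √(ρ * N) * Real.log N ^ (k + 1) / N) atTop (𝓝 1) := by
    have := (hw.mul (ha.pow (k + 1))).sub hb
    rw [one_pow, mul_one, sub_zero] at this
    exact this
  have hup : Tendsto (fun N : ℕ => (Real.log N)⁻¹ + W N / N * (Real.log N / Real.log (N / Real.log N ^ (k + 3))) ^ (k + 1))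
      atTop (𝓝 1) := by
    have := hy0.add (hw.mul (hz1.pow (k + 1)))
    rw [one_pow, mul_one, zero_add] at this
    exact this
  refine tendsto_of_tendsto_of_tendsto_of_le_of_le' hlo hup ?_ ?_
  · filter_upwards [eventually_ge_atTop 2] with N h1
    have h2 := hge N (by omega)
    have hN0 : (0 : ℝ) < N := by exact_mod_cast (by omega : 0 < N)
    have hN2 : (2 : ℝ) ≤ N := by exact_mod_cast h1
    have hl0 : 0 < Real.log N := Real.log_pos (by linarith)
    have hρN : 1 < ρ * N := by nlinarith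
    have hl1 : 0 < Real.log (ρ * N) := Real.log_pos hρN
    have e : W N = ∑ n ∈ Icc 1 N, FR k β h n := by rw [hWd]
    rw [← e] at h2
    rw [div_pow, sub_le_iff_le_add, ← add_div, ← add_mul]
    rw [div_mul_div_comm, div_le_div_iff₀ (by positivity) hN0]
    calc W N * Real.log N ^ (k + 1) * N ≤
          (((PS k β h N).card + D * √(ρ * N)) * Real.log (ρ * N) ^ (k + 1)) * Real.log N ^ (k + 1) * N := by
          apply mul_le_mul_of_nonneg_right _ hN0.le
          exact mul_le_mul_of_nonneg_right h2 (by positivity)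
      _ = _ := by ring
  · have hbig : Tendsto (fun N : ℕ => (Real.log N ^ (k + 2) / N)) atTop (𝓝 0) := t_pow (k + 2)
    have hbig3 : Tendsto (fun N : ℕ => (Real.log N ^ (k + 3) / N)) atTop (𝓝 0) := t_pow (k + 3)
    have hCc : 0 < c / (2 * (C + 1)) := by positivity
    filter_upwards [hpos, t_log.eventually (eventually_gt_atTop (2 / c)), t_log.eventually (eventually_gt_atTop 0),
      hbig.eventually (gt_mem_nhds hCc), hbig3.eventually (gt_mem_nhds one_pos)] with N h1 h2 h3 h4 h5
    have hN0 : (0 : ℝ) < N := by linarith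
    have hlk : 0 < Real.log N ^ (k + 2) := by positivity
    have hlk3 : 0 < Real.log N ^ (k + 3) := by positivity
    have hz0 : 1 < N / Real.log N ^ (k + 3) := by
      rw [div_lt_one hN0] at h5
      rw [lt_div_iff₀ hlk3, one_mul]
      exact h5
    have h6 := PS_le k β h N (N / Real.log N ^ (k + 2)) (N / Real.log N ^ (k + 3)) (by positivity) hz0 (by
      intro n hn p hp
      have h7 := hlb n p hp
      have h8 : c * (N / Real.log N ^ (k + 2)) ≤ c * n := mul_le_mul_of_nonneg_left hn.le hc.le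
      have h9 : N / Real.log N ^ (k + 3) ≤ c / 2 * (N / Real.log N ^ (k + 2)) := by
        rw [pow_succ (Real.log N) (k + 2), ← div_div, div_le_iff₀ h3]
        have h10 : 1 ≤ c / 2 * Real.log N := by
          rw [div_lt_iff₀ hc] at h2
          linarith
        have h11 : 0 ≤ N / Real.log N ^ (k + 2) := by positivity
        nlinarith
      have h10 : C ≤ c / 2 * (N / Real.log N ^ (k + 2)) := by
        rw [div_lt_iff₀ hN0, div_mul_eq_mul_div, lt_div_iff₀ (by positivity)] at h4
        rw [← mul_div_assoc, le_div_iff₀ hlk]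
        nlinarith
      linarith)
    have hlz : 0 < Real.log (N / Real.log N ^ (k + 3)) := Real.log_pos hz0
    have e : W N = ∑ n ∈ Icc 1 N, FR k β h n := by rw [hWd]
    rw [← e] at h6
    calc ((PS k β h N).card : ℝ) * Real.log N ^ (k + 1) / N ≤
          (N / Real.log N ^ (k + 2) + W N / Real.log (N / Real.log N ^ (k + 3)) ^ (k + 1)) * Real.log N ^ (k + 1) / N := by
          apply div_le_div_of_nonneg_right _ hN0.le
          exact mul_le_mul_of_nonneg_right h6 (by positivity)
      _ = _ := by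
          rw [pow_succ (Real.log N) (k + 1), div_pow]
          field_simp

/-- **the count, almost all multipliers** -/
theorem count_ae (k : ℕ) : ∀ᵐ β : Fin k → ℝ, (∀ i, 0 < β i) → ∀ h : Fin k → ℤ,
    (∀ A : ℕ, ∃ C : ℝ, ∀ᶠ N : ℕ in atTop, |∑ n ∈ Icc 1 N, FR k β h n - N| ≤ C * (N / Real.log N ^ A)) ∧
    Tendsto (fun N : ℕ => ((PS k β h N).card : ℝ) * Real.log N ^ (k + 1) / N) atTop (𝓝 1) := by
  filter_upwards [chains_ae k] with β hβ h0 h
  refine ⟨fun A => hβ h0 h A, ?_⟩
  obtain ⟨C, hC⟩ := hβ h0 h 1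
  exact count_tendsto k β h h0 C hC

end Pool.Agent.H49.CC
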