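import Pool.Agent.H49.D.GB
import Pool.Agent.H49.D.GG

set_option autoImplicit false

/-! `log` on the primes, at the integer parts of the multiples, with arbitrary weights. -/

namespace Pool.Agent.H49.IX

open Finset MeasureTheory Filter Topology
open scoped ENNReal
open Pool.Agent.H376R2.MR (er)
open Pool.Agent.Y957.VK (enorm_sq_le)
open Pool.Agent.H49.DM (er_norm cl cl_le cl_nonneg cl_eq fac fac_meas I01 S sft toNat_le)
open Pool.Agent.H49.ME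
open Pool.Agent.H49.CC

/-- `log n` if `n` is prime, otherwise `0` -/
noncomputable def vt (n : ℕ) : ℝ := if n.Prime then Real.log n else 0

theorem vt_nonneg (n : ℕ) : 0 ≤ vt n := by
  unfold vt
  split_ifs
  · exact Real.log_natCast_nonneg n
  · exact le_rfl

theorem vt_eq (n : ℕ) : vt n = ArithmeticFunction.vonMangoldt n - gpp n := by
  unfold vt gpp
  by_cases h : n.Prime
  · rw [if_pos h, if_pos h, ArithmeticFunction.vonMangoldt_apply_prime h, sub_zero]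
  · rw [if_neg h, if_neg h, sub_self]

theorem vt_le {n : ℕ} {x : ℝ} (hx : (n : ℝ) ≤ x) (h1 : 1 ≤ x) : vt n ≤ Real.log x := by
  unfold vt
  split_ifs with h
  · exact Real.log_le_log (by exact_mod_cast h.pos) hx
  · exact Real.log_nonneg h1

/-- the difference to the mean value -/
noncomputable def lt (n : ℕ) : ℂ := ((vt n : ℝ) : ℂ) - 1

theorem lt_bd {n : ℕ} {x : ℝ} (hx : (n : ℝ) ≤ x) (h1 : 1 ≤ x) : ‖lt n‖ ≤ Real.log x + 1 := by
  unfold lt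
  refine (norm_sub_le _ _).trans ?_
  rw [Complex.norm_real, Real.norm_of_nonneg (vt_nonneg n), norm_one]
  linarith [vt_le hx h1]

theorem lt_eq (n : ℕ) : lt n = lm n - ((gpp n : ℝ) : ℂ) := by
  unfold lt lm lam
  rw [vt_eq]
  push_cast
  ring

/-- the twisted sums in all needed ranges -/
theorem ltS (K : ℕ) (Cc : ℝ) (hCc : 1 ≤ Cc) : ∃ (C : ℝ) (N₀ : ℕ), 0 ≤ C ∧ 3 ≤ N₀ ∧ ∀ N : ℕ, N₀ ≤ N →
    ∀ t : ℝ, |t| ≤ (N : ℝ) ^ 2 → ∀ M : ℕ, (M : ℝ) ≤ Cc * N → ‖S lt t M‖ ≤ C * N / Real.log N ^ K := by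
  obtain ⟨C1, N1, hC1, hN1, h1⟩ := lamS K Cc hCc
  obtain ⟨C2, hC2, h2⟩ := gpp_sum
  have hev : ∀ᶠ N : ℕ in atTop, Real.log N ^ K ≤ √(N : ℝ) := by
    have h3 := (t_pow_sqrt K).eventually (gt_mem_nhds one_pos)
    filter_upwards [h3, eventually_ge_atTop 1] with N hN hN1
    have hN0 : (0 : ℝ) < N := by exact_mod_cast hN1
    rw [div_lt_one (Real.sqrt_pos.2 hN0)] at hN
    exact hN.le
  obtain ⟨N2, hN2⟩ := eventually_atTop.1 hev
  refine ⟨C1 + C2 * √Cc, max N1 N2, by positivity, hN1.trans (le_max_left _ _), fun N hN t ht M hM => ?_⟩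
  have hNN1 : N1 ≤ N := (le_max_left _ _).trans hN
  have hNN2 := hN2 N ((le_max_right _ _).trans hN)
  have hN3r : (3 : ℝ) ≤ N := by exact_mod_cast hN1.trans hNN1
  have hN0 : (0 : ℝ) < N := by linarith
  have hℓ : 0 < Real.log N := Real.log_pos (by linarith)
  have h3 := h1 N hNN1 t ht M hM
  have e : S lt t M = S lm t M - S (fun n => ((gpp n : ℝ) : ℂ)) t M := by
    unfold S
    rw [← sum_sub_distrib]
    refine sum_congr rfl fun n _ => ?_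
    rw [lt_eq]
    ring
  have h4 : ‖S (fun n => ((gpp n : ℝ) : ℂ)) t M‖ ≤ C2 * √Cc * N / Real.log N ^ K := by
    have h5 : ‖S (fun n => ((gpp n : ℝ) : ℂ)) t M‖ ≤ ∑ n ∈ Icc 1 M, gpp n := by
      unfold S
      refine (norm_sum_le _ _).trans (sum_le_sum fun n _ => ?_)
      rw [norm_mul, er_norm, mul_one, Complex.norm_real, Real.norm_of_nonneg (gpp_nonneg n)]
    have h6 := h2 (M : ℝ)
    rw [Nat.floor_natCast] at h6
    refine (h5.trans h6).trans ?_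
    rw [le_div_iff₀ (by positivity)]
    have h7 : √(M : ℝ) ≤ √Cc * √(N : ℝ) := by
      rw [← Real.sqrt_mul (by linarith)]
      exact Real.sqrt_le_sqrt hM
    have h8 : √(N : ℝ) * √(N : ℝ) = N := Real.mul_self_sqrt hN0.le
    have hs := Real.sqrt_nonneg (N : ℝ)
    have hs2 := Real.sqrt_nonneg (M : ℝ)
    calc C2 * √(M : ℝ) * Real.log N ^ K ≤ C2 * (√Cc * √(N : ℝ)) * √(N : ℝ) := by
          apply mul_le_mul (mul_le_mul_of_nonneg_left h7 hC2) hNN2 (by positivity) (by positivity)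
      _ = C2 * √Cc * (√(N : ℝ) * √(N : ℝ)) := by ring
      _ = _ := by rw [h8]
  rw [e]
  refine (norm_sub_le _ _).trans ((add_le_add h3 h4).trans (le_of_eq ?_))
  ring

/-- the difference to the mean value at the integer parts of the multiples, with arbitrary weights -/
theorem stepG (b : ℝ) (h : ℤ) (K : ℕ) : ∃ (C : ℝ) (N₀ : ℕ), 0 ≤ C ∧ 3 ≤ N₀ ∧ ∀ N : ℕ, N₀ ≤ N → ∀ D : ℝ, 0 < D →
    ∀ w : ℕ → ℂ, (∀ n, ‖w n‖ ≤ D) →
    ∫⁻ u, ‖∑ n ∈ Icc 1 N, w n * fac (sft lt h) b 1 u n‖ₑ ^ 2 ∂I01 ≤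
      ENNReal.ofReal (C * D ^ 2 * (N : ℝ) ^ 2 / Real.log N ^ K) := by
  obtain ⟨C0, hC0, hY⟩ := structY b h
  have hC01 : 1 ≤ C0 := by
    have := Real.exp_pos (b + 1)
    have := abs_nonneg (h : ℝ)
    linarith
  obtain ⟨C4, N2, hC4, hN2, hL⟩ := ltS (3 * K + 10) C0 hC01
  obtain ⟨C5, hC5⟩ : ∃ C5 : ℝ, C5 = Real.log C0 + 2 := ⟨_, rfl⟩
  have hC5p : 0 < C5 := by
    have := Real.log_nonneg hC01
    linarith
  have hev : ∀ᶠ N : ℕ in atTop, (C0 + 2 * Real.pi) * Real.log N ^ (K + 4) ≤ N := by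
    have h1 : Tendsto (fun x : ℝ => Real.log x ^ (K + 4) / x ^ (1 : ℝ)) atTop (𝓝 0) := by
      have := isLittleO_log_rpow_rpow_atTop (s := (1 : ℝ)) ((K + 4 : ℕ) : ℝ) (by norm_num)
      have h2 := this.tendsto_div_nhds_zero
      refine h2.congr fun x => ?_
      rw [Real.rpow_natCast]
    have hπ := Real.pi_pos
    have h3 := (h1.comp tendsto_natCast_atTop_atTop).eventually
      (gt_mem_nhds (show (0 : ℝ) < 1 / (C0 + 2 * Real.pi) by positivity))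
    filter_upwards [h3, eventually_ge_atTop 1] with N hN hN1
    have hN0 : (0 : ℝ) < N := by exact_mod_cast hN1
    simp only [Function.comp_apply] at hN
    rw [Real.rpow_one, div_lt_div_iff₀ hN0 (by positivity)] at hN
    linarith
  obtain ⟨N1, hN1⟩ := eventually_atTop.1 hev
  refine ⟨2 * C5 ^ 2 + 2 * (C0 * ((K + 5) * C4 ^ 2 + C5 ^ 2)), max (max 3 N1) N2, by positivity,
    le_trans (le_max_left _ _) (le_max_left _ _), fun N hN D hD w hw => ?_⟩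
  have hN3 : 3 ≤ N := ((le_max_left _ _).trans (le_max_left _ _)).trans hN
  have hNN1 := hN1 N (((le_max_right _ _).trans (le_max_left _ _)).trans hN)
  have hLN := hL N ((le_max_right _ _).trans hN)
  have hN3r : (3 : ℝ) ≤ N := by exact_mod_cast hN3
  have hN0 : (0 : ℝ) < N := by linarith
  obtain ⟨ℓ, hℓ⟩ : ∃ ℓ : ℝ, ℓ = Real.log N := ⟨_, rfl⟩
  rw [← hℓ] at hNN1 hLN ⊢
  have hℓ1 : 1 ≤ ℓ := by
    rw [hℓ, Real.le_log_iff_exp_le hN0]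
    linarith [Real.exp_one_lt_d9]
  have hℓ0 : 0 < ℓ := by linarith
  obtain ⟨τ, hτ⟩ : ∃ τ : ℝ, τ = ℓ ^ (K + 4) := ⟨_, rfl⟩
  have hτ1 : 1 ≤ τ := by rw [hτ]; exact one_le_pow₀ hℓ1
  have hτ0 : 0 < τ := by linarith
  obtain ⟨δ, hδ⟩ : ∃ δ : ℝ, δ = 1 / τ := ⟨_, rfl⟩
  have hδ0 : 0 < δ := by rw [hδ]; positivity
  have hδ1 : δ ≤ 1 := by rw [hδ, div_le_one hτ0]; exact hτ1
  rw [← hτ] at hNN1
  have hπ := Real.pi_pos
  have hCδ : C0 ≤ δ * N := by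
    rw [hδ, one_div, inv_mul_eq_div, le_div_iff₀ hτ0]
    nlinarith
  have hτN : 2 * Real.pi * τ ≤ N := by nlinarith
  obtain ⟨G, hG⟩ : ∃ G : ℝ, G = Real.log (C0 * N) + 1 := ⟨_, rfl⟩
  have hCN1 : 1 ≤ C0 * N := by nlinarith
  have hG0 : 0 < G := by
    rw [hG]
    linarith [Real.log_nonneg hCN1]
  have hGℓ : G ≤ C5 * ℓ := by
    rw [hG, Real.log_mul (by linarith) hN0.ne', ← hℓ, hC5]
    have := Real.log_nonneg hC01
    nlinarith
  obtain ⟨P, hP⟩ : ∃ P : ℝ, P = C4 * N / ℓ ^ (3 * K + 10) := ⟨_, rfl⟩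
  have hP0 : 0 ≤ P := by rw [hP]; positivity
  have hDℓ : D ≤ D * ℓ := le_mul_of_one_le_right hD.le hℓ1
  -- splitting
  obtain ⟨d, hd⟩ : ∃ d : ℕ → ℂ, d = fun n : ℕ => if (n : ℝ) ≤ δ * N then 0 else if n ≤ N then w n else 0 :=
    ⟨_, rfl⟩
  have hmain := hY N δ τ P (D * ℓ) G (by omega) hδ0 hδ1 hτ1 hP0 (by positivity) hG0 hCδ d
    (fun n => by
      rw [hd]
      simp only
      split_ifs with h1 h2
      · rw [norm_zero]
        positivity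
      · rcases Nat.eq_zero_or_pos n with h0 | h0
        · exfalso
          apply h1
          rw [h0, Nat.cast_zero]
          positivity
        · exact (hw n).trans hDℓ
      · rw [norm_zero]
        positivity)
    (fun n hn => by
      rw [hd]
      simp only
      rw [if_pos hn]) lt
    (fun n hn => by
      rw [hG]
      exact lt_bd hn hCN1)
    (fun t ht M hM => by
      rw [hP]
      refine hLN t (ht.trans ?_) M hM
      nlinarith)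
  obtain ⟨s, hs⟩ : ∃ s : ℝ → ℂ, s = fun u => ∑ n ∈ Icc 1 N, (w n - d n) * fac (sft lt h) b 1 u n := ⟨_, rfl⟩
  have hsplit : ∀ u, ∑ n ∈ Icc 1 N, w n * fac (sft lt h) b 1 u n =
      s u + ∑ n ∈ Icc 1 N, d n * fac (sft lt h) b 1 u n := by
    intro u
    rw [hs]
    simp only
    rw [← sum_add_distrib]
    refine sum_congr rfl fun n _ => ?_
    ring
  have hfacb : ∀ u, ∀ n ∈ Icc 1 N, ‖fac (sft lt h) b 1 u n‖ ≤ G := by
    intro u n hn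
    rw [mem_Icc] at hn
    have hn2 : (n : ℝ) ≤ N := by exact_mod_cast hn.2
    unfold fac sft
    rw [hG]
    refine lt_bd ((toNat_le _ h).trans ?_) hCN1
    have h2 : (⌊Real.exp (b + cl u) * (n : ℝ) ^ (1 : ℝ)⌋₊ : ℝ) ≤ Real.exp (b + 1) * N := by
      refine (Nat.floor_le (by positivity)).trans ?_
      rw [Real.rpow_one]
      apply mul_le_mul _ hn2 (Nat.cast_nonneg n) (Real.exp_pos _).le
      exact Real.exp_le_exp.2 (by linarith [cl_le u])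
    have h3 : (Real.exp (b + 1) + 3 + |(h : ℝ)|) * N ≤ C0 * N := mul_le_mul_of_nonneg_right hC0 hN0.le
    have h4 : |(h : ℝ)| ≤ |(h : ℝ)| * N := le_mul_of_one_le_right (abs_nonneg _) (by linarith)
    nlinarith
  have hsb : ∀ u, ‖s u‖ ≤ δ * N * (D * ℓ * G) := by
    intro u
    rw [hs]
    simp only
    have h1 : ∑ n ∈ Icc 1 N, (w n - d n) * fac (sft lt h) b 1 u n =
        ∑ n ∈ (Icc 1 N).filter (fun n : ℕ => (n : ℝ) ≤ δ * N), w n * fac (sft lt h) b 1 u n := by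
      rw [sum_filter]
      refine sum_congr rfl fun n hn => ?_
      rw [mem_Icc] at hn
      rw [hd]
      simp only
      by_cases h1 : (n : ℝ) ≤ δ * N
      · rw [if_pos h1, if_pos h1, sub_zero]
      · rw [if_neg h1, if_neg h1, if_pos hn.2, sub_self, zero_mul]
    rw [h1]
    refine (norm_sum_le _ _).trans ?_
    have h2 : ∀ n ∈ (Icc 1 N).filter (fun n : ℕ => (n : ℝ) ≤ δ * N), ‖w n * fac (sft lt h) b 1 u n‖ ≤ D * ℓ * G := by
      intro n hn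
      rw [mem_filter] at hn
      rw [norm_mul]
      exact mul_le_mul ((hw n).trans hDℓ) (hfacb u n hn.1) (norm_nonneg _) (by positivity)
    refine (sum_le_sum h2).trans ?_
    rw [sum_const, nsmul_eq_mul]
    apply mul_le_mul_of_nonneg_right _ (by positivity)
    have h3 : ((Icc 1 N).filter (fun n : ℕ => (n : ℝ) ≤ δ * N)).card ≤ (Icc 1 ⌊δ * N⌋₊).card := by
      apply card_le_card
      intro n hn
      rw [mem_filter, mem_Icc] at hn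
      rw [mem_Icc]
      exact ⟨hn.1.1, Nat.le_floor hn.2⟩
    rw [Nat.card_Icc, Nat.add_sub_cancel] at h3
    have h4 : ((((Icc 1 N).filter (fun n : ℕ => (n : ℝ) ≤ δ * N)).card : ℕ) : ℝ) ≤ (⌊δ * N⌋₊ : ℝ) := by exact_mod_cast h3
    exact h4.trans (Nat.floor_le (by positivity))
  have hint : ∫⁻ u, ‖∑ n ∈ Icc 1 N, w n * fac (sft lt h) b 1 u n‖ₑ ^ 2 ∂I01 ≤
      ENNReal.ofReal (2 * (δ * N * (D * ℓ * G)) ^ 2) + 2 * ∫⁻ u, ‖∑ n ∈ Icc 1 N, d n * fac (sft lt h) b 1 u n‖ₑ ^ 2 ∂I01 := by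
    calc ∫⁻ u, ‖∑ n ∈ Icc 1 N, w n * fac (sft lt h) b 1 u n‖ₑ ^ 2 ∂I01 ≤
          ∫⁻ u, (ENNReal.ofReal (2 * (δ * N * (D * ℓ * G)) ^ 2) +
            2 * ‖∑ n ∈ Icc 1 N, d n * fac (sft lt h) b 1 u n‖ₑ ^ 2) ∂I01 := by
          refine lintegral_mono fun u => ?_
          rw [hsplit u]
          refine (sq_add_le _ _).trans (add_le_add ?_ le_rfl)
          rw [ENNReal.ofReal_mul (by norm_num)]
          have e2 : ENNReal.ofReal 2 = (2 : ℝ≥0∞) := by norm_num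
          rw [e2]
          exact mul_le_mul_right (enorm_sq_le (hsb u)) _
      _ = _ := by
          rw [lintegral_add_left measurable_const, lintegral_const, lintegral_const_mul' _ _ (by norm_num)]
          congr 1
          have : (I01 : Measure ℝ) Set.univ = 1 := by simp
          rw [this, mul_one]
  refine hint.trans ?_
  have e2 : (2 : ℝ≥0∞) = ENNReal.ofReal 2 := by norm_num
  refine (add_le_add le_rfl (mul_le_mul_right hmain 2)).trans ?_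
  have hlog : 0 ≤ Real.log (1 / δ) := Real.log_nonneg (by rw [le_div_iff₀ hδ0]; linarith)
  rw [e2, ← ENNReal.ofReal_mul (by norm_num), ← ENNReal.ofReal_add (by positivity) (by positivity)]
  apply ENNReal.ofReal_le_ofReal
  -- the final computation
  have hδτ : 1 / δ = τ := by rw [hδ]; field_simp
  have hlogτ : Real.log (1 / δ) + 1 ≤ (K + 5) * ℓ := by
    rw [hδτ, hτ, Real.log_pow]
    have h1 : Real.log ℓ ≤ ℓ := (Real.log_le_sub_one_of_pos hℓ0).trans (by linarith)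
    push_cast
    nlinarith
  have hℓK : 0 < ℓ ^ K := by positivity
  have hG2 : G ^ 2 ≤ C5 ^ 2 * ℓ ^ 2 := by
    have := pow_le_pow_left₀ hG0.le hGℓ 2
    rwa [mul_pow] at this
  have t1 : (δ * N * (D * ℓ * G)) ^ 2 ≤ C5 ^ 2 * D ^ 2 * (N : ℝ) ^ 2 / ℓ ^ K := by
    rw [le_div_iff₀ hℓK]
    have e3 : δ * τ = 1 := by rw [hδ]; field_simp
    have e4 : τ = ℓ ^ K * ℓ ^ 4 := by rw [hτ, pow_add]
    have e5 : δ ^ 2 * ℓ ^ 4 * ℓ ^ K = δ := by
      have : δ ^ 2 * ℓ ^ 4 * ℓ ^ K = δ * (δ * τ) := by rw [e4]; ring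
      rw [this, e3, mul_one]
    calc (δ * N * (D * ℓ * G)) ^ 2 * ℓ ^ K = δ ^ 2 * ℓ ^ 2 * ℓ ^ K * G ^ 2 * (D ^ 2 * (N : ℝ) ^ 2) := by ring
      _ ≤ δ ^ 2 * ℓ ^ 2 * ℓ ^ K * (C5 ^ 2 * ℓ ^ 2) * (D ^ 2 * (N : ℝ) ^ 2) := by
          apply mul_le_mul_of_nonneg_right _ (by positivity)
          exact mul_le_mul_of_nonneg_left hG2 (by positivity)
      _ = (δ ^ 2 * ℓ ^ 4 * ℓ ^ K) * (C5 ^ 2 * D ^ 2 * (N : ℝ) ^ 2) := by ring
      _ = δ * (C5 ^ 2 * D ^ 2 * (N : ℝ) ^ 2) := by rw [e5]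
      _ ≤ 1 * (C5 ^ 2 * D ^ 2 * (N : ℝ) ^ 2) := mul_le_mul_of_nonneg_right hδ1 (by positivity)
      _ = _ := one_mul _
  have t2 : (D * ℓ) ^ 2 * (τ ^ 2 * P ^ 2 * (Real.log (1 / δ) + 1) / δ ^ 2) ≤
      (K + 5) * C4 ^ 2 * D ^ 2 * (N : ℝ) ^ 2 / ℓ ^ K := by
    have e3 : (D * ℓ) ^ 2 * (τ ^ 2 * P ^ 2 * (Real.log (1 / δ) + 1) / δ ^ 2) =
        D ^ 2 * C4 ^ 2 * (N : ℝ) ^ 2 * (ℓ ^ 2 * τ ^ 4 / (ℓ ^ (3 * K + 10)) ^ 2) * (Real.log (1 / δ) + 1) := by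
      rw [hδ, hP]
      field_simp
    rw [e3]
    have e4 : ℓ ^ 2 * τ ^ 4 / (ℓ ^ (3 * K + 10)) ^ 2 = 1 / (ℓ ^ K * ℓ ^ (K + 2)) := by
      rw [hτ, ← pow_mul, ← pow_mul, ← pow_add, ← pow_add, div_eq_div_iff (by positivity) (by positivity), one_mul, ← pow_add]
      congr 1
      ring
    rw [e4]
    calc D ^ 2 * C4 ^ 2 * (N : ℝ) ^ 2 * (1 / (ℓ ^ K * ℓ ^ (K + 2))) * (Real.log (1 / δ) + 1) ≤
          D ^ 2 * C4 ^ 2 * (N : ℝ) ^ 2 * (1 / (ℓ ^ K * ℓ ^ (K + 2))) * ((K + 5) * ℓ) :=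
          mul_le_mul_of_nonneg_left hlogτ (by positivity)
      _ = ((K + 5) * C4 ^ 2 * D ^ 2 * (N : ℝ) ^ 2 / ℓ ^ K) * (1 / ℓ ^ (K + 1)) := by
          have e5 : ℓ ^ (K + 2) = ℓ ^ (K + 1) * ℓ := pow_succ _ _
          rw [e5]
          field_simp
      _ ≤ ((K + 5) * C4 ^ 2 * D ^ 2 * (N : ℝ) ^ 2 / ℓ ^ K) * 1 := by
          apply mul_le_mul_of_nonneg_left _ (by positivity)
          rw [div_le_one (by positivity)]
          exact one_le_pow₀ hℓ1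
      _ = _ := mul_one _
  have t3 : (D * ℓ) ^ 2 * (G ^ 2 * (N : ℝ) ^ 2 / τ) ≤ C5 ^ 2 * D ^ 2 * (N : ℝ) ^ 2 / ℓ ^ K := by
    have e4 : τ = ℓ ^ K * ℓ ^ 4 := by rw [hτ, pow_add]
    rw [e4]
    calc (D * ℓ) ^ 2 * (G ^ 2 * (N : ℝ) ^ 2 / (ℓ ^ K * ℓ ^ 4)) =
          G ^ 2 * (D ^ 2 * ℓ ^ 2 * (N : ℝ) ^ 2 / (ℓ ^ K * ℓ ^ 4)) := by ring
      _ ≤ (C5 ^ 2 * ℓ ^ 2) * (D ^ 2 * ℓ ^ 2 * (N : ℝ) ^ 2 / (ℓ ^ K * ℓ ^ 4)) :=
          mul_le_mul_of_nonneg_right hG2 (by positivity)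
      _ = _ := by field_simp
  have e6 : C0 * (D * ℓ) ^ 2 * (τ ^ 2 * P ^ 2 * (Real.log (1 / δ) + 1) / δ ^ 2 + G ^ 2 * (N : ℝ) ^ 2 / τ) =
      C0 * ((D * ℓ) ^ 2 * (τ ^ 2 * P ^ 2 * (Real.log (1 / δ) + 1) / δ ^ 2) + (D * ℓ) ^ 2 * (G ^ 2 * (N : ℝ) ^ 2 / τ)) := by
    ring
  rw [e6]
  have t4 := mul_le_mul_of_nonneg_left (add_le_add t2 t3) (show (0 : ℝ) ≤ C0 by linarith)
  have e7 : (2 * C5 ^ 2 + 2 * (C0 * ((K + 5) * C4 ^ 2 + C5 ^ 2))) * D ^ 2 * (N : ℝ) ^ 2 / ℓ ^ K =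
      2 * (C5 ^ 2 * D ^ 2 * (N : ℝ) ^ 2 / ℓ ^ K) + 2 * (C0 * ((K + 5) * C4 ^ 2 * D ^ 2 * (N : ℝ) ^ 2 / ℓ ^ K +
        C5 ^ 2 * D ^ 2 * (N : ℝ) ^ 2 / ℓ ^ K)) := by ring
  rw [e7]
  linarith


end Pool.Agent.H49.IX
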