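import Pool.Agent.H49.D.HA

set_option autoImplicit false

/-! Chains of indices: mean squares over the multipliers. -/

namespace Pool.Agent.H49.IX

open Finset MeasureTheory Filter Topology
open scoped ENNReal
open Pool.Agent.H376R2.MR (er)
open Pool.Agent.Y957.VK (enorm_sq_le)
open Pool.Agent.H49.DM (cl cl_le cl_nonneg cl_eq fac fac_meas I01 cube sft toNat_le)
open Pool.Agent.H49.ME
open Pool.Agent.H49.CC

/-- the product of the weights along the chain of indices -/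
noncomputable def FI : (k : ℕ) → (Fin k → ℝ) → (Fin k → ℤ) → (Fin k → ℝ) → ℕ → ℂ
  | 0, _, _, _, _ => 1
  | k + 1, b, h, ω, n => ((vt (step (b 0) (h 0) (ω 0) n) : ℝ) : ℂ) *
      FI k (fun i => b i.succ) (fun i => h i.succ) (fun i => ω i.succ) (Nat.primeCounting (step (b 0) (h 0) (ω 0) n))

theorem pc_lt {p q : ℕ} (hq : q.Prime) (hpq : p < q) : Nat.primeCounting p < Nat.primeCounting q := by
  unfold Nat.primeCounting Nat.primeCounting'
  have h1 : Nat.count Nat.Prime (p + 1) ≤ Nat.count Nat.Prime q := Nat.count_monotone _ hpq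
  have h2 : Nat.count Nat.Prime q < Nat.count Nat.Prime (q + 1) := by
    rw [Nat.count_succ, if_pos hq]
    omega
  omega

theorem pc_inj {p q : ℕ} (hp : p.Prime) (hq : q.Prime) (h : Nat.primeCounting p = Nat.primeCounting q) : p = q := by
  rcases lt_trichotomy p q with h1 | h1 | h1
  · have := pc_lt hq h1
    omega
  · exact h1
  · have := pc_lt hp h1
    omega

theorem pc_pos {p : ℕ} (hp : p.Prime) : 1 ≤ Nat.primeCounting p := by
  have := pc_lt hp hp.pos
  omega

theorem pc_le (n : ℕ) : Nat.primeCounting n ≤ n := by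
  rcases Nat.eq_zero_or_pos n with h | h
  · rw [h]
    simp
  · unfold Nat.primeCounting Nat.primeCounting'
    have h1 : Nat.count Nat.Prime (n + 1) ≤ n := by
      have h2 : Nat.count Nat.Prime 1 = 0 := by decide
      have h3 := Nat.count_add (p := Nat.Prime) 1 n
      rw [h2, zero_add, add_comm 1 n] at h3
      rw [h3]
      exact Nat.count_le _
    exact h1

/-- regrouping a sum along a map -/
theorem regroup' (g : ℕ → ℕ) (N N' : ℕ) (hN' : ∀ n ∈ Icc 1 N, g n ≤ N') (f X : ℕ → ℂ) (hf : ∀ n ∈ Icc 1 N, g n = 0 → f n = 0) :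
    ∑ n ∈ Icc 1 N, f n * X (g n) =
      ∑ m ∈ Icc 1 N', (∑ n ∈ (Icc 1 N).filter (fun n => g n = m), f n) * X m := by
  have h1 : ∑ n ∈ Icc 1 N, f n * X (g n) =
      ∑ m ∈ range (N' + 1), ∑ n ∈ (Icc 1 N).filter (fun n => g n = m), f n * X (g n) := by
    rw [sum_fiberwise_of_maps_to]
    intro n hn
    rw [mem_range]
    have := hN' n hn
    omega
  rw [h1]
  have h2 : range (N' + 1) = insert 0 (Icc 1 N') := by
    ext m
    simp only [mem_range, mem_insert, mem_Icc]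
    omega
  rw [h2, sum_insert (by simp)]
  have h3 : ∑ n ∈ (Icc 1 N).filter (fun n => g n = 0), f n * X (g n) = 0 := by
    refine sum_eq_zero fun n hn => ?_
    rw [mem_filter] at hn
    rw [hf n hn.1 hn.2, zero_mul]
  rw [h3, zero_add]
  refine sum_congr rfl fun m _ => ?_
  rw [sum_mul]
  refine sum_congr rfl fun n hn => ?_
  rw [mem_filter] at hn
  rw [hn.2]

theorem vt_zero_of {n : ℕ} (h : ¬ n.Prime) : vt n = 0 := by
  unfold vt
  rw [if_neg h]

/-- the number of the indices with a given prime value -/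
theorem mult' (b : ℝ) (h : ℤ) (u : ℝ) (N m : ℕ) :
    ((((Icc 1 N).filter fun n => Nat.primeCounting (step b h u n) = m ∧ (step b h u n).Prime).card : ℕ) : ℝ) ≤
      Real.exp (-b) + 1 := by
  rcases ((Icc 1 N).filter fun n => Nat.primeCounting (step b h u n) = m ∧ (step b h u n).Prime).eq_empty_or_nonempty
    with he | ⟨n0, hn0⟩
  · rw [he, card_empty, Nat.cast_zero]
    positivity
  rw [mem_filter] at hn0
  refine le_trans ?_ (mult b h u N (step b h u n0) hn0.2.2.pos)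
  have hsub : ((Icc 1 N).filter fun n => Nat.primeCounting (step b h u n) = m ∧ (step b h u n).Prime) ⊆
      (Icc 1 N).filter fun n => step b h u n = step b h u n0 := by
    intro n hn
    rw [mem_filter] at hn ⊢
    exact ⟨hn.1, pc_inj hn.2.2 hn0.2.2 (hn.2.1.trans hn0.2.1.symm)⟩
  exact_mod_cast card_le_card hsub

/-- **the mean square over the multipliers** -/
theorem idxL2 (k : ℕ) : ∀ (b : Fin k → ℝ) (h : Fin k → ℤ) (K : ℕ), ∃ (C : ℝ) (N₀ : ℕ), 0 ≤ C ∧ 3 ≤ N₀ ∧
    ∀ N : ℕ, N₀ ≤ N → ∀ D : ℝ, 0 < D → ∀ w : ℕ → ℂ, (∀ n, ‖w n‖ ≤ D) →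
    ∫⁻ ω, ‖∑ n ∈ Icc 1 N, w n * (FI k b h ω n - 1)‖ₑ ^ 2 ∂(cube k) ≤
      ENNReal.ofReal (C * D ^ 2 * (N : ℝ) ^ 2 / Real.log N ^ K) := by
  induction k with
  | zero =>
    intro b h K
    refine ⟨0, 3, le_rfl, le_rfl, fun N hN D hD w hw => ?_⟩
    have e : ∀ ω : Fin 0 → ℝ, ∑ n ∈ Icc 1 N, w n * (FI 0 b h ω n - 1) = 0 := by
      intro ω
      refine sum_eq_zero fun n _ => ?_
      unfold FI
      rw [sub_self, mul_zero]
    simp only [e]
    simp
  | succ k ih =>
    intro b h K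
    obtain ⟨C1, N1, hC1, hN1, h1⟩ := ih (fun i => b i.succ) (fun i => h i.succ) (K + 2)
    obtain ⟨C2, N2, hC2, hN2, h2⟩ := stepG (b 0) (h 0) K
    obtain ⟨ρ, hρ⟩ : ∃ ρ : ℝ, ρ = Real.exp (b 0 + 1) + |(h 0 : ℝ)| + 2 := ⟨_, rfl⟩
    have hρ2 : 2 ≤ ρ := by
      rw [hρ]
      have := Real.exp_pos (b 0 + 1)
      have := abs_nonneg (h 0 : ℝ)
      linarith
    obtain ⟨μ, hμ⟩ : ∃ μ : ℝ, μ = Real.exp (-(b 0)) + 1 := ⟨_, rfl⟩
    have hμ0 : 0 < μ := by rw [hμ]; positivity
    obtain ⟨lam', hlam'⟩ : ∃ lam' : ℝ, lam' = Real.log (ρ + 1) + 1 := ⟨_, rfl⟩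
    have hlam0 : 0 < lam' := by
      rw [hlam']
      have := Real.log_nonneg (show (1 : ℝ) ≤ ρ + 1 by linarith)
      linarith
    refine ⟨2 * (C1 * (lam' * μ) ^ 2 * (ρ + 1) ^ 2) + 2 * C2, max N1 N2, by positivity, hN1.trans (le_max_left _ _),
      fun N hN D hD w hw => ?_⟩
    have hNN1 : N1 ≤ N := (le_max_left _ _).trans hN
    have hNN2 : N2 ≤ N := (le_max_right _ _).trans hN
    have hN3 : 3 ≤ N := hN1.trans hNN1
    have hN3r : (3 : ℝ) ≤ N := by exact_mod_cast hN3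
    have hN0 : (0 : ℝ) < N := by linarith
    obtain ⟨ℓ, hℓ⟩ : ∃ ℓ : ℝ, ℓ = Real.log N := ⟨_, rfl⟩
    have hℓ1 : 1 ≤ ℓ := by
      rw [hℓ, Real.le_log_iff_exp_le hN0]
      linarith [Real.exp_one_lt_d9]
    have hℓ0 : 0 < ℓ := by linarith
    rw [← hℓ]
    have h2' := h2 N hNN2 D hD w hw
    rw [← hℓ] at h2'
    obtain ⟨N', hN'⟩ : ∃ N' : ℕ, N' = ⌈ρ * N⌉₊ := ⟨_, rfl⟩
    have hN'1 : ρ * N ≤ N' := by rw [hN']; exact Nat.le_ceil _
    have hN'2 : (N' : ℝ) ≤ (ρ + 1) * N := by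
      rw [hN']
      have := (Nat.ceil_lt_add_one (show 0 ≤ ρ * N by positivity)).le
      linarith
    have hNN' : (N : ℝ) ≤ N' := by nlinarith
    have hNN'n : N ≤ N' := by exact_mod_cast hNN'
    have hN'0 : (0 : ℝ) < N' := by linarith
    have hlN' : ℓ ≤ Real.log N' := by rw [hℓ]; exact Real.log_le_log hN0 hNN'
    have hlN'2 : Real.log N' ≤ lam' * ℓ := by
      have h3 : Real.log N' ≤ Real.log ((ρ + 1) * N) := Real.log_le_log hN'0 hN'2
      rw [Real.log_mul (by linarith) hN0.ne', ← hℓ] at h3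
      rw [hlam']
      have := Real.log_nonneg (show (1 : ℝ) ≤ ρ + 1 by linarith)
      nlinarith
    have hstep : ∀ u, ∀ n ∈ Icc 1 N, step (b 0) (h 0) u n ≤ N' := by
      intro u n hn
      rw [mem_Icc] at hn
      have h3 := step_le (b 0) (h 0) u hn.2 (by omega)
      rw [← hρ] at h3
      exact_mod_cast h3.trans hN'1
    -- the weights after the first step
    obtain ⟨w', hw'⟩ : ∃ w' : ℝ → ℕ → ℂ, w' = fun u m =>
      ∑ n ∈ (Icc 1 N).filter (fun n => Nat.primeCounting (step (b 0) (h 0) u n) = m),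
        w n * ((vt (step (b 0) (h 0) u n) : ℝ) : ℂ) := ⟨_, rfl⟩
    have hw'b : ∀ u m, ‖w' u m‖ ≤ D * ℓ * (lam' * μ) := by
      intro u m
      rw [hw']
      simp only
      have h3 : ∑ n ∈ (Icc 1 N).filter (fun n => Nat.primeCounting (step (b 0) (h 0) u n) = m),
          w n * ((vt (step (b 0) (h 0) u n) : ℝ) : ℂ) =
          ∑ n ∈ (Icc 1 N).filter (fun n => Nat.primeCounting (step (b 0) (h 0) u n) = m ∧ (step (b 0) (h 0) u n).Prime),
          w n * ((vt (step (b 0) (h 0) u n) : ℝ) : ℂ) := by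
        rw [← filter_filter, sum_filter (fun n => (step (b 0) (h 0) u n).Prime)]
        refine sum_congr rfl fun n _ => ?_
        split_ifs with h4
        · rfl
        · rw [vt_zero_of h4, Complex.ofReal_zero, mul_zero]
      rw [h3]
      refine (norm_sum_le _ _).trans ?_
      have h4 : ∀ n ∈ (Icc 1 N).filter (fun n => Nat.primeCounting (step (b 0) (h 0) u n) = m ∧
          (step (b 0) (h 0) u n).Prime), ‖w n * ((vt (step (b 0) (h 0) u n) : ℝ) : ℂ)‖ ≤ D * (lam' * ℓ) := by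
        intro n hn
        rw [mem_filter] at hn
        rw [norm_mul, Complex.norm_real, Real.norm_of_nonneg (vt_nonneg _)]
        refine mul_le_mul (hw n) ((vt_le (x := (N' : ℝ)) ?_ (by linarith)).trans hlN'2) (vt_nonneg _) hD.le
        exact_mod_cast hstep u n hn.1
      refine (sum_le_sum h4).trans ?_
      rw [sum_const, nsmul_eq_mul]
      have h5 := mult' (b 0) (h 0) u N m
      rw [← hμ] at h5
      calc _ ≤ μ * (D * (lam' * ℓ)) := mul_le_mul_of_nonneg_right h5 (by positivity)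
        _ = _ := by ring
    obtain ⟨X, hX⟩ : ∃ X : (Fin k → ℝ) → ℕ → ℂ, X = fun ω m =>
      FI k (fun i => b i.succ) (fun i => h i.succ) ω m - 1 := ⟨_, rfl⟩
    obtain ⟨II, hII⟩ : ∃ II : ℝ → ℂ, II = fun u => ∑ n ∈ Icc 1 N, w n * fac (sft lt (h 0)) (b 0) 1 u n := ⟨_, rfl⟩
    have hIIm : Measurable II := by
      rw [hII]
      apply Finset.measurable_fun_sum
      intro n _
      exact (fac_meas _ _ _ n).const_mul _
    obtain ⟨I1, hI1⟩ : ∃ I1 : ℝ → (Fin k → ℝ) → ℂ, I1 = fun u ω => ∑ m ∈ Icc 1 N', w' u m * X ω m := ⟨_, rfl⟩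
    have hdec : ∀ (u : ℝ) (ω : Fin k → ℝ), ∑ n ∈ Icc 1 N, w n * (((vt (step (b 0) (h 0) u n) : ℝ) : ℂ) *
        FI k (fun i => b i.succ) (fun i => h i.succ) ω (Nat.primeCounting (step (b 0) (h 0) u n)) - 1) = I1 u ω + II u := by
      intro u ω
      have e1 : I1 u ω = ∑ n ∈ Icc 1 N, (w n * ((vt (step (b 0) (h 0) u n) : ℝ) : ℂ)) *
          X ω (Nat.primeCounting (step (b 0) (h 0) u n)) := by
        rw [regroup' (fun n => Nat.primeCounting (step (b 0) (h 0) u n)) N N'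
          (fun n hn => (pc_le _).trans (hstep u n hn)) (fun n => w n * ((vt (step (b 0) (h 0) u n) : ℝ) : ℂ)) (X ω) ?_,
          hI1, hw']
        intro n _ hn0
        rw [vt_zero_of, Complex.ofReal_zero, mul_zero]
        intro hp
        have := pc_pos hp
        omega
      rw [e1, hII, hX]
      simp only
      rw [← sum_add_distrib]
      refine sum_congr rfl fun n _ => ?_
      rw [fac_step]
      unfold lt
      ring
    have mp1 := measurePreserving_piFinSuccAbove (fun _ : Fin (k + 1) => I01) 0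
    have e0 : ∫⁻ ω, ‖∑ n ∈ Icc 1 N, w n * (FI (k + 1) b h ω n - 1)‖ₑ ^ 2 ∂(cube (k + 1)) =
        ∫⁻ p, ‖I1 p.1 p.2 + II p.1‖ₑ ^ 2 ∂(I01.prod (cube k)) := by
      rw [← mp1.lintegral_comp_emb (MeasurableEquiv.measurableEmbedding _)]
      refine lintegral_congr fun ω => ?_
      have e2 : ((MeasurableEquiv.piFinSuccAbove (fun _ : Fin (k + 1) => ℝ) 0) ω).2 = fun j => ω j.succ := by
        funext j
        show ω ((0 : Fin (k + 1)).succAbove j) = ω j.succ
        rw [Fin.succAbove_zero]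
      have e3 : ((MeasurableEquiv.piFinSuccAbove (fun _ : Fin (k + 1) => ℝ) 0) ω).1 = ω 0 := rfl
      rw [e2, e3, ← hdec]
      rfl
    rw [e0]
    refine (lintegral_prod_le _).trans ?_
    have hB : ∀ u, ∫⁻ ω, ‖I1 u ω‖ₑ ^ 2 ∂(cube k) ≤
        ENNReal.ofReal (C1 * (lam' * μ) ^ 2 * (ρ + 1) ^ 2 * (D ^ 2 * (N : ℝ) ^ 2 / ℓ ^ K)) := by
      intro u
      have h3 := h1 N' (hNN1.trans hNN'n) (D * ℓ * (lam' * μ)) (by positivity) (w' u) (hw'b u)
      have e4 : ∀ ω, I1 u ω = ∑ n ∈ Icc 1 N', w' u n * (FI k (fun i => b i.succ) (fun i => h i.succ) ω n - 1) := by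
        intro ω
        rw [hI1, hX]
      simp only [e4]
      refine h3.trans (ENNReal.ofReal_le_ofReal ?_)
      calc C1 * (D * ℓ * (lam' * μ)) ^ 2 * (N' : ℝ) ^ 2 / Real.log N' ^ (K + 2) ≤
            C1 * (D * ℓ * (lam' * μ)) ^ 2 * ((ρ + 1) * N) ^ 2 / ℓ ^ (K + 2) := by
            apply div_le_div₀ (by positivity) _ (by positivity) (pow_le_pow_left₀ hℓ0.le hlN' _)
            apply mul_le_mul_of_nonneg_left _ (by positivity)
            exact pow_le_pow_left₀ (Nat.cast_nonneg _) hN'2 2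
        _ = _ := by
            rw [pow_add]
            field_simp
    calc ∫⁻ u, ∫⁻ ω, ‖I1 u ω + II u‖ₑ ^ 2 ∂(cube k) ∂I01 ≤
          ∫⁻ u, (2 * ENNReal.ofReal (C1 * (lam' * μ) ^ 2 * (ρ + 1) ^ 2 * (D ^ 2 * (N : ℝ) ^ 2 / ℓ ^ K)) +
            2 * ‖II u‖ₑ ^ 2) ∂I01 := by
          refine lintegral_mono fun u => ?_
          calc ∫⁻ ω, ‖I1 u ω + II u‖ₑ ^ 2 ∂(cube k) ≤ ∫⁻ ω, (2 * ‖I1 u ω‖ₑ ^ 2 + 2 * ‖II u‖ₑ ^ 2) ∂(cube k) :=
                lintegral_mono fun ω => sq_add_le _ _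
            _ = 2 * (∫⁻ ω, ‖I1 u ω‖ₑ ^ 2 ∂(cube k)) + 2 * ‖II u‖ₑ ^ 2 := by
                rw [lintegral_add_right _ measurable_const, lintegral_const_mul' _ _ (by norm_num), lintegral_const,
                  cube_univ, mul_one]
            _ ≤ _ := add_le_add (mul_le_mul_right (hB u) 2) le_rfl
      _ = 2 * ENNReal.ofReal (C1 * (lam' * μ) ^ 2 * (ρ + 1) ^ 2 * (D ^ 2 * (N : ℝ) ^ 2 / ℓ ^ K)) +
            2 * ∫⁻ u, ‖II u‖ₑ ^ 2 ∂I01 := by
          rw [lintegral_add_left measurable_const, lintegral_const, lintegral_const_mul' _ _ (by norm_num)]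
          congr 1
          have : (I01 : Measure ℝ) Set.univ = 1 := by simp
          rw [this, mul_one]
      _ ≤ 2 * ENNReal.ofReal (C1 * (lam' * μ) ^ 2 * (ρ + 1) ^ 2 * (D ^ 2 * (N : ℝ) ^ 2 / ℓ ^ K)) +
            2 * ENNReal.ofReal (C2 * D ^ 2 * (N : ℝ) ^ 2 / ℓ ^ K) := by
          refine add_le_add le_rfl (mul_le_mul_right ?_ 2)
          rw [hII]
          exact h2'
      _ = _ := by
          have e2 : (2 : ℝ≥0∞) = ENNReal.ofReal 2 := by norm_num
          rw [e2, ← ENNReal.ofReal_mul (by norm_num), ← ENNReal.ofReal_mul (by norm_num),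
            ← ENNReal.ofReal_add (by positivity) (by positivity)]
          congr 1
          ring

theorem FI_meas (k : ℕ) : ∀ (b : Fin k → ℝ) (h : Fin k → ℤ) (n : ℕ), Measurable fun ω : Fin k → ℝ => FI k b h ω n := by
  induction k with
  | zero =>
    intro b h n
    unfold FI
    exact measurable_const
  | succ k ih =>
    intro b h n
    unfold FI
    have h0 : Measurable fun ω : Fin (k + 1) → ℝ => step (b 0) (h 0) (ω 0) n :=
      (step_meas _ _ n).comp (measurable_pi_apply 0)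
    apply Measurable.mul
    · exact (measurable_of_countable fun m : ℕ => ((vt m : ℝ) : ℂ)).comp h0
    · have h1 : Measurable fun p : (Fin k → ℝ) × ℕ => FI k (fun i => b i.succ) (fun i => h i.succ) p.1 p.2 :=
        measurable_from_prod_countable_left fun m => ih _ _ m
      have h2 : Measurable fun ω : Fin (k + 1) → ℝ =>
          ((fun i => ω (Fin.succ i), Nat.primeCounting (step (b 0) (h 0) (ω 0) n)) : (Fin k → ℝ) × ℕ) := by
        refine Measurable.prodMk ?_ ((measurable_of_countable Nat.primeCounting).comp h0)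
        exact measurable_pi_lambda _ fun i => measurable_pi_apply _
      exact h1.comp h2

end Pool.Agent.H49.IX
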