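import Pool.Agent.H49.D.HB

set_option autoImplicit false

/-! Chains of indices: from weights to counts. -/

namespace Pool.Agent.H49.IX

open Finset MeasureTheory Filter Topology
open Pool.Agent.H49.DM (cl cl_le cl_nonneg cl_eq cube)
open Pool.Agent.H49.CC

/-- the chain `[q_1, …, q_k]` of the index `m`: `q_1 = ⌊β_1 m⌋ + h_1`, `q_{i+1} = ⌊β_{i+1} π(q_i)⌋ + h_{i+1}` -/
noncomputable def idx : (k : ℕ) → (Fin k → ℝ) → (Fin k → ℤ) → ℕ → List ℕ
  | 0, _, _, _ => []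
  | k + 1, β, h, m => (⌊β 0 * m⌋ + h 0).toNat ::
      idx k (fun i => β i.succ) (fun i => h i.succ) (Nat.primeCounting (⌊β 0 * m⌋ + h 0).toNat)

/-- the product of the weights -/
noncomputable def FRi (k : ℕ) (β : Fin k → ℝ) (h : Fin k → ℤ) (m : ℕ) : ℝ := ((idx k β h m).map vt).prod

theorem idx_succ (k : ℕ) (β : Fin (k + 1) → ℝ) (h : Fin (k + 1) → ℤ) (m : ℕ) : idx (k + 1) β h m =
    st (β 0) (h 0) m :: idx k (fun i => β i.succ) (fun i => h i.succ) (Nat.primeCounting (st (β 0) (h 0) m)) := rfl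

theorem FRi_succ (k : ℕ) (β : Fin (k + 1) → ℝ) (h : Fin (k + 1) → ℤ) (m : ℕ) : FRi (k + 1) β h m =
    vt (st (β 0) (h 0) m) * FRi k (fun i => β i.succ) (fun i => h i.succ) (Nat.primeCounting (st (β 0) (h 0) m)) := by
  unfold FRi
  rw [idx_succ, List.map_cons, List.prod_cons]

theorem FRi_nonneg (k : ℕ) (β : Fin k → ℝ) (h : Fin k → ℤ) (m : ℕ) : 0 ≤ FRi k β h m := by
  unfold FRi
  apply List.prod_nonneg
  intro a ha
  rw [List.mem_map] at ha
  obtain ⟨p, _, rfl⟩ := ha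
  exact vt_nonneg p

theorem FI_eq (k : ℕ) : ∀ (b : Fin k → ℝ) (h : Fin k → ℤ) (ω : Fin k → ℝ), (∀ i, ω i ∈ Set.Icc (0 : ℝ) 1) → ∀ n : ℕ,
    FI k b h ω n = ((FRi k (fun i => Real.exp (b i + ω i)) h n : ℝ) : ℂ) := by
  induction k with
  | zero =>
    intro b h ω _ n
    unfold FI FRi idx
    simp
  | succ k ih =>
    intro b h ω hω n
    unfold FI
    have e : step (b 0) (h 0) (ω 0) n = st (Real.exp (b 0 + ω 0)) (h 0) n := by
      unfold step st
      rw [cl_eq (hω 0), Real.rpow_one, Int.natCast_floor_eq_floor (by positivity)]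
    rw [ih _ _ _ (fun i => hω i.succ), FRi_succ, e]
    push_cast
    rfl

theorem idx_len (k : ℕ) : ∀ (β : Fin k → ℝ) (h : Fin k → ℤ) (m : ℕ), (idx k β h m).length = k := by
  induction k with
  | zero =>
    intro β h m
    simp [idx]
  | succ k ih =>
    intro β h m
    rw [idx_succ, List.length_cons, ih]

theorem idx_ub (k : ℕ) : ∀ (β : Fin k → ℝ) (h : Fin k → ℤ), (∀ i, 0 < β i) → ∃ ρ : ℝ, 1 ≤ ρ ∧
    ∀ x : ℝ, 1 ≤ x → ∀ m : ℕ, (m : ℝ) ≤ x → ∀ q ∈ idx k β h m, (q : ℝ) ≤ ρ * x := by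
  induction k with
  | zero =>
    intro β h _
    refine ⟨1, le_rfl, fun x hx m hm q hq => ?_⟩
    simp [idx] at hq
  | succ k ih =>
    intro β h hβ
    obtain ⟨ρ, hρ, h1⟩ := ih (fun i => β i.succ) (fun i => h i.succ) (fun i => hβ _)
    have ha := abs_nonneg (h 0 : ℝ)
    have hb := hβ 0
    refine ⟨ρ * (β 0 + |(h 0 : ℝ)| + 1), by nlinarith, fun x hx m hm q hq => ?_⟩
    rw [idx_succ, List.mem_cons] at hq
    have hc : 1 ≤ β 0 + |(h 0 : ℝ)| + 1 := by linarith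
    have h2 := st_le hb (h 0) hx hm
    rcases hq with hq | hq
    · rw [hq]
      refine h2.trans ?_
      have : 0 ≤ (β 0 + |(h 0 : ℝ)| + 1) * x := by positivity
      nlinarith
    · have h3 : ((Nat.primeCounting (st (β 0) (h 0) m) : ℕ) : ℝ) ≤ (β 0 + |(h 0 : ℝ)| + 1) * x := by
        refine le_trans ?_ h2
        exact_mod_cast pc_le _
      have h4 := h1 ((β 0 + |(h 0 : ℝ)| + 1) * x) (by nlinarith) _ h3 q hq
      linarith

theorem pc_ge (n : ℕ) : (n : ℝ) ≤ 4 * (Nat.primeCounting n : ℝ) * Real.log n + 4 := by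
  rcases le_or_gt 4 n with h | h
  · have h1 := Chebyshev.pi_ge n
    have hn : (4 : ℝ) ≤ n := by exact_mod_cast h
    have hl : 0 < Real.log n := Real.log_pos (by linarith)
    rw [div_le_iff₀ hl] at h1
    have h2 : Real.log ((n : ℝ) + 1) ≤ n / 4 + 0.6364 := by
      have e : Real.log ((n : ℝ) + 1) = Real.log (((n : ℝ) + 1) / 4 * 2 ^ 2) := by
        congr 1
        ring
      rw [e, Real.log_mul (by positivity) (by norm_num), Real.log_pow]
      have h3 := Real.log_le_sub_one_of_pos (show 0 < ((n : ℝ) + 1) / 4 by positivity)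
      have := Real.log_two_lt_d9
      push_cast
      linarith
    have := Real.log_two_gt_d9
    nlinarith
  · have : (n : ℝ) ≤ 3 := by exact_mod_cast (by omega : n ≤ 3)
    have h1 : 0 ≤ Real.log (n : ℝ) := Real.log_natCast_nonneg n
    have h2 : (0 : ℝ) ≤ Nat.primeCounting n := Nat.cast_nonneg _
    nlinarith [mul_nonneg h2 h1]


theorem idx_lb (k : ℕ) : ∀ (β : Fin k → ℝ) (h : Fin k → ℤ), (∀ i, 0 < β i) → ∃ C : ℝ, 1 ≤ C ∧
    ∀ m : ℕ, ∀ q ∈ idx k β h m, (m : ℝ) ≤ C * (q + 1) * (1 + Real.log (m + 1)) ^ k := by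
  induction k with
  | zero =>
    intro β h _
    refine ⟨1, le_rfl, fun m q hq => ?_⟩
    simp [idx] at hq
  | succ k ih =>
    intro β h hβ
    obtain ⟨C, hC, h1⟩ := ih (fun i => β i.succ) (fun i => h i.succ) (fun i => hβ _)
    have ha := abs_nonneg (h 0 : ℝ)
    have hb := hβ 0
    obtain ⟨c0, hc0⟩ : ∃ c0 : ℝ, c0 = (1 + |(h 0 : ℝ)|) / β 0 + 1 / β 0 := ⟨_, rfl⟩
    have hc00 : 0 < c0 := by rw [hc0]; positivity
    obtain ⟨ρ, hρ⟩ : ∃ ρ : ℝ, ρ = β 0 + |(h 0 : ℝ)| + 1 := ⟨_, rfl⟩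
    have hρ1 : 1 ≤ ρ := by rw [hρ]; linarith
    obtain ⟨lr, hlr⟩ : ∃ lr : ℝ, lr = 1 + Real.log (ρ + 1) := ⟨_, rfl⟩
    have hlr1 : 1 ≤ lr := by
      rw [hlr]
      have := Real.log_nonneg (show (1 : ℝ) ≤ ρ + 1 by linarith)
      linarith
    refine ⟨1 + c0 * (4 * C * lr ^ (k + 1) + 5), by
      have : 0 ≤ c0 * (4 * C * lr ^ (k + 1) + 5) := by positivity
      linarith, fun m q hq => ?_⟩
    rw [idx_succ, List.mem_cons] at hq
    obtain ⟨q1, hq1⟩ : ∃ q1, q1 = st (β 0) (h 0) m := ⟨_, rfl⟩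
    rw [← hq1] at hq
    have hlm : 0 ≤ Real.log ((m : ℝ) + 1) := Real.log_nonneg (by linarith [Nat.cast_nonneg (α := ℝ) m])
    obtain ⟨lm, hlm'⟩ : ∃ lm : ℝ, lm = 1 + Real.log ((m : ℝ) + 1) := ⟨_, rfl⟩
    have hlm1 : 1 ≤ lm := by rw [hlm']; linarith
    rw [← hlm']
    -- `m` in terms of `q1`
    have hm : (m : ℝ) ≤ c0 * (q1 + 1) := by
      have h2 := st_ge (β 0) (h 0) m
      rw [← hq1] at h2
      have h3 : β 0 * m ≤ q1 + (1 + |(h 0 : ℝ)|) := by linarith
      have h4 : (m : ℝ) ≤ (q1 + (1 + |(h 0 : ℝ)|)) / β 0 := by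
        rw [le_div_iff₀ hb]
        linarith
      refine h4.trans ?_
      rw [hc0, ← add_div, div_mul_eq_mul_div]
      apply div_le_div_of_nonneg_right _ hb.le
      have h5 : (0 : ℝ) ≤ q1 := Nat.cast_nonneg _
      nlinarith
    rcases hq with hq | hq
    · rw [hq]
      have h5 : (0 : ℝ) ≤ q1 := Nat.cast_nonneg _
      have h6 : (1 : ℝ) ≤ lm ^ (k + 1) := one_le_pow₀ hlm1
      calc (m : ℝ) ≤ c0 * (q1 + 1) := hm
        _ ≤ (1 + c0 * (4 * C * lr ^ (k + 1) + 5)) * (q1 + 1) := by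
            apply mul_le_mul_of_nonneg_right _ (by positivity)
            have : 0 ≤ c0 * (4 * C * lr ^ (k + 1)) := by positivity
            nlinarith
        _ ≤ _ := le_mul_of_one_le_right (by positivity) h6
    · have h2 := h1 (Nat.primeCounting q1) q (by rw [hq1] at hq ⊢; exact hq)
      have h3 := pc_ge q1
      have hqρ : (q1 : ℝ) + 1 ≤ (ρ + 1) * (m + 1) := by
        have h4 := st_le hb (h 0) (n := m) (x := (m : ℝ) + 1) (by linarith [Nat.cast_nonneg (α := ℝ) m]) (by linarith)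
        rw [← hq1, ← hρ] at h4
        have : (0 : ℝ) ≤ m := Nat.cast_nonneg _
        nlinarith
      have hlq : Real.log ((q1 : ℝ) + 1) ≤ Real.log (ρ + 1) + Real.log ((m : ℝ) + 1) := by
        rw [← Real.log_mul (by positivity) (by positivity)]
        exact Real.log_le_log (by positivity) hqρ
      have hr0 := Real.log_nonneg (show (1 : ℝ) ≤ ρ + 1 by linarith)
      have hlq2 : Real.log ((q1 : ℝ) + 1) + 1 ≤ lr * lm := by
        rw [hlr, hlm']
        nlinarith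
      have hlq3 : Real.log (q1 : ℝ) ≤ lr * lm := by
        rcases Nat.eq_zero_or_pos q1 with h0 | h0
        · rw [h0, Nat.cast_zero, Real.log_zero]
          positivity
        · have h00 : (0 : ℝ) < q1 := by exact_mod_cast h0
          have := Real.log_le_log h00 (show (q1 : ℝ) ≤ q1 + 1 by linarith)
          linarith
      have hpl : Real.log ((Nat.primeCounting q1 : ℝ) + 1) + 1 ≤ lr * lm := by
        have h5 : ((Nat.primeCounting q1 : ℕ) : ℝ) ≤ q1 := by exact_mod_cast pc_le q1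
        have := Real.log_le_log (show (0 : ℝ) < (Nat.primeCounting q1 : ℝ) + 1 by positivity)
          (show (Nat.primeCounting q1 : ℝ) + 1 ≤ q1 + 1 by linarith)
        linarith
      have hpl0 : 0 ≤ Real.log ((Nat.primeCounting q1 : ℝ) + 1) :=
        Real.log_nonneg (by linarith [Nat.cast_nonneg (α := ℝ) (Nat.primeCounting q1)])
      have h6 : (Nat.primeCounting q1 : ℝ) ≤ C * (q + 1) * (lr * lm) ^ k := by
        refine h2.trans ?_
        apply mul_le_mul_of_nonneg_left _ (by positivity)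
        exact pow_le_pow_left₀ (by linarith) (by linarith) k
      have hql0 : 0 ≤ Real.log (q1 : ℝ) := Real.log_natCast_nonneg q1
      have hq0 : (0 : ℝ) ≤ q := Nat.cast_nonneg _
      have h7 : (q1 : ℝ) + 1 ≤ 4 * (C * (q + 1) * (lr * lm) ^ k) * (lr * lm) + 5 := by
        have h8 : 4 * (Nat.primeCounting q1 : ℝ) * Real.log q1 ≤ 4 * (C * (q + 1) * (lr * lm) ^ k) * (lr * lm) := by
          apply mul_le_mul _ hlq3 hql0 (by positivity)
          linarith
        linarith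
      have h9 : (1 : ℝ) ≤ (q + 1) * lm ^ (k + 1) := by
        have : (1 : ℝ) ≤ lm ^ (k + 1) := one_le_pow₀ hlm1
        nlinarith
      calc (m : ℝ) ≤ c0 * (q1 + 1) := hm
        _ ≤ c0 * (4 * (C * (q + 1) * (lr * lm) ^ k) * (lr * lm) + 5) := mul_le_mul_of_nonneg_left h7 hc00.le
        _ = c0 * (4 * C * lr ^ (k + 1) * ((q + 1) * lm ^ (k + 1)) + 5) := by
            rw [mul_pow]
            ring
        _ ≤ c0 * (4 * C * lr ^ (k + 1) * ((q + 1) * lm ^ (k + 1)) + 5 * ((q + 1) * lm ^ (k + 1))) := by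
            apply mul_le_mul_of_nonneg_left _ hc00.le
            linarith
        _ ≤ 1 * ((q + 1) * lm ^ (k + 1)) +
              c0 * (4 * C * lr ^ (k + 1) * ((q + 1) * lm ^ (k + 1)) + 5 * ((q + 1) * lm ^ (k + 1))) := by
            have : 0 ≤ 1 * (((q : ℝ) + 1) * lm ^ (k + 1)) := by positivity
            linarith
        _ = _ := by ring

/-- the members of `M` for which the whole chain is prime -/
noncomputable def PI (k : ℕ) (β : Fin k → ℝ) (h : Fin k → ℤ) (M : Finset ℕ) : Finset ℕ :=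
  M.filter fun m => ∀ q ∈ idx k β h m, q.Prime

theorem FRi_prime {k : ℕ} {β : Fin k → ℝ} {h : Fin k → ℤ} {m : ℕ} (hp : ∀ q ∈ idx k β h m, q.Prime) :
    FRi k β h m = ((idx k β h m).map fun q : ℕ => Real.log (q : ℝ)).prod := by
  unfold FRi
  congr 1
  apply List.map_congr_left
  intro q hq
  unfold vt
  rw [if_pos (hp q hq)]

theorem FRi_zero_of {k : ℕ} {β : Fin k → ℝ} {h : Fin k → ℤ} {m : ℕ} (hp : ¬ ∀ q ∈ idx k β h m, q.Prime) :
    FRi k β h m = 0 := by
  push Not at hp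
  obtain ⟨q, hq, hq2⟩ := hp
  unfold FRi
  apply List.prod_eq_zero
  rw [List.mem_map]
  exact ⟨q, hq, vt_zero_of hq2⟩

theorem sum_PI (k : ℕ) (β : Fin k → ℝ) (h : Fin k → ℤ) (M : Finset ℕ) :
    ∑ m ∈ M, FRi k β h m = ∑ m ∈ PI k β h M, FRi k β h m := by
  unfold PI
  rw [sum_filter]
  refine sum_congr rfl fun m _ => ?_
  split_ifs with hp
  · rfl
  · exact FRi_zero_of hp

/-- upper bound for the weighted sum -/
theorem PI_ge (k : ℕ) (β : Fin k → ℝ) (h : Fin k → ℤ) (M : Finset ℕ) (U : ℝ) (hU : 0 ≤ U)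
    (hq : ∀ m ∈ M, ∀ q ∈ idx k β h m, Real.log (q : ℝ) ≤ U) :
    ∑ m ∈ M, FRi k β h m ≤ ((PI k β h M).card : ℝ) * U ^ k := by
  rw [sum_PI, ← nsmul_eq_mul, ← sum_const]
  refine sum_le_sum fun m hm => ?_
  unfold PI at hm
  rw [mem_filter] at hm
  rw [FRi_prime hm.2]
  have h1 := prod_le ((idx k β h m)) (fun q : ℕ => Real.log (q : ℝ)) U hU
    (fun q hq' => ⟨Real.log_natCast_nonneg q, hq m hm.1 q hq'⟩)
  rw [idx_len] at h1
  exact h1

/-- lower bound for the weighted sum -/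
theorem PI_le (k : ℕ) (β : Fin k → ℝ) (h : Fin k → ℤ) (M : Finset ℕ) (y Z : ℝ) (hy : 0 ≤ y) (hZ : 0 < Z)
    (hM : ∀ m ∈ M, 1 ≤ m) (hq : ∀ m ∈ M, y < (m : ℝ) → ∀ q ∈ idx k β h m, Z ≤ Real.log (q : ℝ)) :
    ((PI k β h M).card : ℝ) ≤ y + (∑ m ∈ M, FRi k β h m) / Z ^ k := by
  have h1 : PI k β h M ⊆ Icc 1 ⌊y⌋₊ ∪ (PI k β h M).filter (fun m : ℕ => y < (m : ℝ)) := by
    intro m hm
    rw [mem_union, mem_filter]
    by_cases hmy : y < (m : ℝ)
    · right; exact ⟨hm, hmy⟩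
    · left
      unfold PI at hm
      rw [mem_filter] at hm
      rw [mem_Icc]
      exact ⟨hM m hm.1, Nat.le_floor (not_lt.1 hmy)⟩
  have h2 : ((PI k β h M).card : ℝ) ≤ (Icc 1 ⌊y⌋₊).card + ((PI k β h M).filter (fun m : ℕ => y < (m : ℝ))).card := by
    exact_mod_cast (card_le_card h1).trans (card_union_le _ _)
  refine h2.trans (add_le_add ?_ ?_)
  · rw [Nat.card_Icc, Nat.add_sub_cancel]
    exact Nat.floor_le hy
  · rw [le_div_iff₀ (by positivity), ← nsmul_eq_mul, ← sum_const]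
    calc ∑ _m ∈ (PI k β h M).filter (fun m : ℕ => y < (m : ℝ)), Z ^ k ≤
          ∑ m ∈ (PI k β h M).filter (fun m : ℕ => y < (m : ℝ)), FRi k β h m := by
          refine sum_le_sum fun m hm => ?_
          rw [mem_filter] at hm
          unfold PI at hm
          rw [mem_filter] at hm
          rw [FRi_prime hm.1.2]
          have h3 := prod_ge (idx k β h m) (fun q : ℕ => Real.log (q : ℝ)) Z hZ.le (fun q hq' => hq m hm.1.1 hm.2 q hq')
          rw [idx_len] at h3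
          exact h3
      _ ≤ ∑ m ∈ PI k β h M, FRi k β h m :=
          sum_le_sum_of_subset_of_nonneg (filter_subset _ _) fun m _ _ => FRi_nonneg _ _ _ _
      _ = _ := (sum_PI k β h M).symm

end Pool.Agent.H49.IX
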