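import Pool.Agent.H49.D.HC

set_option autoImplicit false

/-! Chains of indices: the number of the prime chains, deterministic part. -/

namespace Pool.Agent.H49.IX

open Finset MeasureTheory Filter Topology
open Pool.Agent.H49.CC

theorem t_loglog : Tendsto (fun N : ℕ => Real.log (Real.log N) / Real.log N) atTop (𝓝 0) := by
  have h1 : Tendsto (fun x : ℝ => Real.log x / x) atTop (𝓝 0) := by
    have := (Real.isLittleO_pow_log_id_atTop (n := 1)).tendsto_div_nhds_zero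
    simpa using this
  exact h1.comp t_log

/-- **from the weighted sum to the count** -/
theorem count_det (k : ℕ) (β : Fin k → ℝ) (h : Fin k → ℤ) (hβ : ∀ i, 0 < β i) (A : ℕ) (ε : ℝ) (hε : 0 < ε) (hε1 : ε ≤ 1) :
    ∀ᶠ N : ℕ in atTop, ∀ M : Finset ℕ, M ⊆ Icc 1 N →
      |∑ m ∈ M, (FRi k β h m - 1)| ≤ N / Real.log N ^ (A + 1) →
      |((PI k β h M).card : ℝ) * Real.log N ^ k - M.card| ≤ ε * M.card + N / Real.log N ^ A := by
  obtain ⟨ρ, hρ, hub⟩ := idx_ub k β h hβ
  obtain ⟨C, hC, hlb⟩ := idx_lb k β h hβ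
  obtain ⟨B, hB⟩ : ∃ B : ℕ, B = A + 1 + k + k := ⟨_, rfl⟩
  obtain ⟨c1, hc1⟩ : ∃ c1 : ℝ, c1 = 2 ^ (k + 1) * C := ⟨_, rfl⟩
  have hc10 : 0 < c1 := by rw [hc1]; positivity
  -- limits
  have hU : Tendsto (fun N : ℕ => (Real.log N / (Real.log ρ + Real.log N)) ^ k) atTop (𝓝 1) := by
    have h1 : Tendsto (fun N : ℕ => Real.log ρ * (Real.log N)⁻¹ + 1) atTop (𝓝 (Real.log ρ * 0 + 1)) :=
      ((tendsto_inv_atTop_zero.comp t_log).const_mul _).add_const 1
    rw [mul_zero, zero_add] at h1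
    have h2 := (h1.inv₀ one_ne_zero).pow k
    rw [inv_one, one_pow] at h2
    refine h2.congr' ?_
    filter_upwards [t_log.eventually (eventually_gt_atTop 0)] with N hN
    congr 1
    field_simp
  have hZ : Tendsto (fun N : ℕ => (Real.log N / (Real.log N - Real.log c1 - B * Real.log (Real.log N))) ^ k) atTop (𝓝 1) := by
    have h1 : Tendsto (fun N : ℕ => 1 - Real.log c1 * (Real.log N)⁻¹ - B * (Real.log (Real.log N) / Real.log N)) atTop
        (𝓝 (1 - Real.log c1 * 0 - B * 0)) :=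
      (((tendsto_inv_atTop_zero.comp t_log).const_mul _).const_sub 1).sub (t_loglog.const_mul _)
    rw [mul_zero, mul_zero, sub_zero, sub_zero] at h1
    have h2 := (h1.inv₀ one_ne_zero).pow k
    rw [inv_one, one_pow] at h2
    refine h2.congr' ?_
    filter_upwards [t_log.eventually (eventually_gt_atTop 0)] with N hN
    congr 1
    rw [inv_eq_one_div, div_eq_div_iff_comm]
    have e : 1 - Real.log c1 * (Real.log N)⁻¹ - B * (Real.log (Real.log N) / Real.log N) =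
        (Real.log N - Real.log c1 - B * Real.log (Real.log N)) / Real.log N := by
      field_simp
    rw [← div_eq_div_iff_comm, e, one_div_div]
  have hZpos : ∀ᶠ N : ℕ in atTop, 0 < Real.log N - Real.log c1 - B * Real.log (Real.log N) := by
    have h1 : Tendsto (fun N : ℕ => 1 - Real.log c1 * (Real.log N)⁻¹ - B * (Real.log (Real.log N) / Real.log N)) atTop
        (𝓝 (1 - Real.log c1 * 0 - B * 0)) :=
      (((tendsto_inv_atTop_zero.comp t_log).const_mul _).const_sub 1).sub (t_loglog.const_mul _)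
    rw [mul_zero, mul_zero, sub_zero, sub_zero] at h1
    filter_upwards [h1.eventually (lt_mem_nhds one_pos), t_log.eventually (eventually_gt_atTop 0)] with N hN hN2
    have e : 1 - Real.log c1 * (Real.log N)⁻¹ - B * (Real.log (Real.log N) / Real.log N) =
        (Real.log N - Real.log c1 - B * Real.log (Real.log N)) / Real.log N := by
      field_simp
    rw [e] at hN
    exact (div_pos_iff_of_pos_right hN2).1 hN
  filter_upwards [hU.eventually (lt_mem_nhds (show 1 - ε < 1 by linarith)),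
    hZ.eventually (gt_mem_nhds (show (1 : ℝ) < 1 + ε by linarith)), hZpos,
    t_log.eventually (eventually_ge_atTop 3), eventually_ge_atTop 1,
    (t_pow B).eventually (gt_mem_nhds (show (0 : ℝ) < 1 / c1 by positivity))] with N g1 g2 g3 g4 g5 g6 M hM hS
  have hN1 : (1 : ℝ) ≤ N := by exact_mod_cast g5
  have hN0 : (0 : ℝ) < N := by linarith
  obtain ⟨ℓ, hℓ⟩ : ∃ ℓ : ℝ, ℓ = Real.log N := ⟨_, rfl⟩
  rw [← hℓ] at g1 g2 g3 g4 g6 hS ⊢
  have hℓ0 : 0 < ℓ := by linarith
  have hlρ : 0 ≤ Real.log ρ := Real.log_nonneg hρ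
  obtain ⟨U, hUd⟩ : ∃ U : ℝ, U = Real.log ρ + ℓ := ⟨_, rfl⟩
  have hU0 : 0 < U := by rw [hUd]; linarith
  rw [← hUd] at g1
  obtain ⟨Z, hZd⟩ : ∃ Z : ℝ, Z = ℓ - Real.log c1 - B * Real.log ℓ := ⟨_, rfl⟩
  rw [← hZd] at g2 g3
  obtain ⟨S, hSd⟩ : ∃ S : ℝ, S = ∑ m ∈ M, FRi k β h m := ⟨_, rfl⟩
  have hS0 : 0 ≤ S := by
    rw [hSd]
    exact sum_nonneg fun m _ => FRi_nonneg _ _ _ _
  obtain ⟨E, hE⟩ : ∃ E : ℝ, E = N / ℓ ^ (A + 1) := ⟨_, rfl⟩
  have hE0 : 0 ≤ E := by rw [hE]; positivity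
  have hSE : |S - M.card| ≤ E := by
    rw [sum_sub_distrib, ← hSd] at hS
    simp only [sum_const, nsmul_eq_mul, mul_one] at hS
    rw [hE]
    exact hS
  obtain ⟨P, hP⟩ : ∃ P : ℝ, P = ((PI k β h M).card : ℝ) := ⟨_, rfl⟩
  obtain ⟨Q, hQ⟩ : ∃ Q : ℝ, Q = (M.card : ℝ) := ⟨_, rfl⟩
  have hQ0 : 0 ≤ Q := by rw [hQ]; positivity
  rw [← hP, ← hQ]
  rw [← hQ, abs_le] at hSE
  have hM1 : ∀ m ∈ M, 1 ≤ m ∧ m ≤ N := fun m hm => mem_Icc.1 (hM hm)
  -- the lower bound
  have hlow : S ≤ P * U ^ k := by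
    rw [hSd, hP]
    apply PI_ge k β h M U hU0.le
    intro m hm q hq
    have h1 := hub N hN1 m (by exact_mod_cast (hM1 m hm).2) q hq
    rcases Nat.eq_zero_or_pos q with h0 | h0
    · rw [h0, Nat.cast_zero, Real.log_zero]
      exact hU0.le
    · rw [hUd, hℓ, ← Real.log_mul (by linarith) hN0.ne']
      exact Real.log_le_log (by exact_mod_cast h0) h1
  have hlow2 : (1 - ε) * Q - E ≤ P * ℓ ^ k := by
    have h1 : S * (ℓ / U) ^ k ≤ P * ℓ ^ k := by
      rw [div_pow, ← mul_div_assoc, div_le_iff₀ (by positivity)]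
      calc S * ℓ ^ k ≤ P * U ^ k * ℓ ^ k := mul_le_mul_of_nonneg_right hlow (by positivity)
        _ = _ := by ring
    have h2 : S * (1 - ε) ≤ S * (ℓ / U) ^ k := mul_le_mul_of_nonneg_left g1.le hS0
    have h3 : (Q - E) * (1 - ε) ≤ S * (1 - ε) := mul_le_mul_of_nonneg_right (by linarith [hSE.1]) (by linarith)
    nlinarith
  -- the upper bound
  obtain ⟨y, hy⟩ : ∃ y : ℝ, y = N / ℓ ^ (A + 1 + k) := ⟨_, rfl⟩
  have hy0 : 0 ≤ y := by rw [hy]; positivity
  have hup : P ≤ y + S / Z ^ k := by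
    rw [hSd, hP]
    apply PI_le k β h M y Z hy0 g3 (fun m hm => (hM1 m hm).1)
    intro m hm hym q hq
    have h1 := hlb m q hq
    have hmN : (m : ℝ) ≤ N := by exact_mod_cast (hM1 m hm).2
    have hm0 : (0 : ℝ) ≤ m := Nat.cast_nonneg m
    have h2 : 1 + Real.log ((m : ℝ) + 1) ≤ 2 * ℓ := by
      have h3 : Real.log ((m : ℝ) + 1) ≤ Real.log (2 * N) := Real.log_le_log (by linarith) (by linarith)
      rw [Real.log_mul (by norm_num) hN0.ne', ← hℓ] at h3
      have := Real.log_two_lt_d9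
      linarith
    have h20 : 0 ≤ 1 + Real.log ((m : ℝ) + 1) := by
      have := Real.log_nonneg (show (1 : ℝ) ≤ m + 1 by linarith)
      linarith
    have h3 : (m : ℝ) ≤ C * (q + 1) * (2 * ℓ) ^ k :=
      h1.trans (mul_le_mul_of_nonneg_left (pow_le_pow_left₀ h20 h2 k) (by positivity))
    -- the size of `q`
    obtain ⟨z, hz⟩ : ∃ z : ℝ, z = N / (c1 * ℓ ^ B) := ⟨_, rfl⟩
    have hz1 : 1 < z := by
      rw [hz, lt_div_iff₀ (by positivity), one_mul]
      rw [div_lt_div_iff₀ hN0 hc10] at g6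
      linarith
    have h4 : 2 * z < (q : ℝ) + 1 := by
      have h5 : y < C * (q + 1) * (2 * ℓ) ^ k := lt_of_lt_of_le hym h3
      rw [hy, div_lt_iff₀ (by positivity)] at h5
      rw [hz, ← mul_div_assoc, div_lt_iff₀ (by positivity), hc1, hB]
      calc 2 * (N : ℝ) < 2 * (C * (q + 1) * (2 * ℓ) ^ k * ℓ ^ (A + 1 + k)) := by linarith
        _ = _ := by
            rw [mul_pow, pow_add ℓ (A + 1 + k) k]
            ring
    have h5 : z ≤ q := by linarith
    calc Z = Real.log z := by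
          rw [hz, Real.log_div hN0.ne' (by positivity), Real.log_mul hc10.ne' (by positivity), Real.log_pow, ← hℓ, hZd]
          ring
      _ ≤ _ := Real.log_le_log (by linarith) h5
  have hup2 : P * ℓ ^ k ≤ Q + ε * Q + 3 * E := by
    have h1 : P * ℓ ^ k ≤ (y + S / Z ^ k) * ℓ ^ k := mul_le_mul_of_nonneg_right hup (by positivity)
    have h2 : (y + S / Z ^ k) * ℓ ^ k = y * ℓ ^ k + S * (ℓ / Z) ^ k := by
      rw [div_pow]
      ring
    have h3 : y * ℓ ^ k = E := by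
      rw [hy, hE, pow_add ℓ (A + 1) k]
      field_simp
    have h4 : S * (ℓ / Z) ^ k ≤ S * (1 + ε) := mul_le_mul_of_nonneg_left g2.le hS0
    have h5 : S * (1 + ε) ≤ (Q + E) * (1 + ε) := mul_le_mul_of_nonneg_right (by linarith [hSE.2]) (by linarith)
    nlinarith
  have hE3 : 3 * E ≤ N / ℓ ^ A := by
    rw [hE, ← mul_div_assoc, div_le_div_iff₀ (by positivity) (by positivity), pow_succ]
    have : 0 < ℓ ^ A := by positivity
    have h1 : 0 ≤ (N : ℝ) * ℓ ^ A := by positivity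
    nlinarith
  rw [abs_le]
  constructor
  · nlinarith
  · linarith

end Pool.Agent.H49.IX
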