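import Pool.Agent.H49.D.HD

set_option autoImplicit false

/-! Chains of indices: almost all multipliers. -/

namespace Pool.Agent.H49.IX

open Finset MeasureTheory Filter Topology
open scoped ENNReal
open Pool.Agent.H49.DM (cube all_ae)
open Pool.Agent.H49.CC
open Pool.Agent.H49.ME (markov)

open Classical in
theorem card_markov {Ω : Type} [MeasurableSpace Ω] (μ : Measure Ω) (s : Finset ℕ) (B : ℕ → Set Ω)
    (hB : ∀ n, MeasurableSet (B n)) (p r : ℝ) (hp : 0 ≤ p) (hr : 0 < r) (h : ∀ n ∈ s, μ (B n) ≤ ENNReal.ofReal p) :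
    μ {ω | r < (((s.filter fun n => ω ∈ B n).card : ℕ) : ℝ)} ≤ ENNReal.ofReal (s.card * p / r) := by
  have hm : Measurable fun ω => ∑ n ∈ s, (B n).indicator (fun _ => (1 : ℝ≥0∞)) ω :=
    Finset.measurable_fun_sum _ fun n _ => measurable_const.indicator (hB n)
  have h1 := mul_meas_ge_le_lintegral (μ := μ) hm (ENNReal.ofReal r)
  have h2 : {ω | r < (((s.filter fun n => ω ∈ B n).card : ℕ) : ℝ)} ⊆
      {ω | ENNReal.ofReal r ≤ ∑ n ∈ s, (B n).indicator (fun _ => (1 : ℝ≥0∞)) ω} := by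
    intro ω hω
    have hω' : r < (((s.filter fun n => ω ∈ B n).card : ℕ) : ℝ) := hω
    show ENNReal.ofReal r ≤ ∑ n ∈ s, (B n).indicator (fun _ => (1 : ℝ≥0∞)) ω
    have e : ∑ n ∈ s, (B n).indicator (fun _ => (1 : ℝ≥0∞)) ω = (((s.filter fun n => ω ∈ B n).card : ℕ) : ℝ≥0∞) := by
      rw [card_filter]
      push_cast
      refine sum_congr rfl fun n _ => ?_
      by_cases hn : ω ∈ B n
      · rw [Set.indicator_of_mem hn, if_pos hn]
      · rw [Set.indicator_of_notMem hn, if_neg hn]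
    rw [e, ← ENNReal.ofReal_natCast]
    exact ENNReal.ofReal_le_ofReal hω'.le
  have h3 : ∫⁻ ω, ∑ n ∈ s, (B n).indicator (fun _ => (1 : ℝ≥0∞)) ω ∂μ ≤ ENNReal.ofReal (s.card * p) := by
    rw [lintegral_finset_sum _ fun n _ => measurable_const.indicator (hB n)]
    calc ∑ n ∈ s, ∫⁻ ω, (B n).indicator (fun _ => (1 : ℝ≥0∞)) ω ∂μ ≤ ∑ _n ∈ s, ENNReal.ofReal p := by
          refine sum_le_sum fun n hn => ?_
          rw [lintegral_indicator_const (hB n), one_mul]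
          exact h n hn
      _ = _ := by
          rw [sum_const, nsmul_eq_mul, ENNReal.ofReal_mul (Nat.cast_nonneg _), ENNReal.ofReal_natCast]
  have h4 := (mul_le_mul_right (measure_mono (μ := μ) h2) (ENNReal.ofReal r)).trans (h1.trans h3)
  rw [ENNReal.ofReal_div_of_pos hr, ENNReal.le_div_iff_mul_le, mul_comm]
  · exact h4
  · left
    rw [Ne, ENNReal.ofReal_eq_zero]
    push Not
    exact hr
  · left
    exact ENNReal.ofReal_ne_top

/-- the sum with weights -/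
noncomputable def WS (k : ℕ) (b : Fin k → ℝ) (h : Fin k → ℤ) (w : ℕ → ℂ) (N : ℕ) (ω : Fin k → ℝ) : ℂ :=
  ∑ n ∈ Icc 1 N, w n * (FI k b h ω n - 1)

theorem WS_meas (k : ℕ) (b : Fin k → ℝ) (h : Fin k → ℤ) (w : ℕ → ℂ) (N : ℕ) : Measurable (WS k b h w N) := by
  unfold WS
  exact Finset.measurable_fun_sum _ fun n _ => ((FI_meas k b h n).sub measurable_const).const_mul _

theorem WS_markov (k : ℕ) (b : Fin k → ℝ) (h : Fin k → ℤ) (K A : ℕ) : ∃ (C : ℝ) (N₀ : ℕ), 0 ≤ C ∧ 3 ≤ N₀ ∧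
    ∀ N : ℕ, N₀ ≤ N → ∀ w : ℕ → ℂ, (∀ n, ‖w n‖ ≤ 1) → ∀ r : ℝ, 0 < r →
    cube k {ω | r < ‖WS k b h w N ω‖} ≤ ENNReal.ofReal (C * (N : ℝ) ^ 2 / Real.log N ^ K / r ^ 2) := by
  obtain ⟨C, N₀, hC, hN₀, h1⟩ := idxL2 k b h K
  refine ⟨C, N₀, hC, hN₀, fun N hN w hw r hr => ?_⟩
  have h2 := h1 N hN 1 one_pos w hw
  rw [one_pow, mul_one] at h2
  have : 0 ≤ Real.log N := Real.log_natCast_nonneg N
  exact markov (cube k) (WS k b h w N) (WS_meas k b h w N) _ r (by positivity) hr h2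

open Classical in
/-- almost surely few `N ≤ 2 ^ L` are bad -/
theorem dy_ae (k : ℕ) (b : Fin k → ℝ) (h : Fin k → ℤ) (A : ℕ) (w : ℕ → ℕ → ℂ) (hw : ∀ N n, ‖w N n‖ ≤ 1) :
    ∀ᵐ ω ∂(cube k), ∀ᶠ L : ℕ in atTop,
      (((Icc 1 (2 ^ L)).filter fun N => (2 : ℝ) ^ L / (L : ℝ) ^ A < ‖WS k b h (w N) (2 ^ L) ω‖).card : ℝ) ≤
        (2 : ℝ) ^ L / (L : ℝ) ^ A := by
  obtain ⟨C, N₀, hC, hN₀, h1⟩ := WS_markov k b h (3 * A + 2) A
  obtain ⟨t, ht⟩ : ∃ t : ℕ → Set (Fin k → ℝ), t = fun j => {ω | (2 : ℝ) ^ (j + N₀) / ((j + N₀ : ℕ) : ℝ) ^ A <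
    (((Icc 1 (2 ^ (j + N₀))).filter fun N => (2 : ℝ) ^ (j + N₀) / ((j + N₀ : ℕ) : ℝ) ^ A <
      ‖WS k b h (w N) (2 ^ (j + N₀)) ω‖).card : ℝ)} := ⟨_, rfl⟩
  have hmeas : ∀ j, cube k (t j) ≤ ENNReal.ofReal (2 ^ (3 * A + 2) * C * (1 / ((j + 1 : ℕ) : ℝ) ^ 2)) := by
    intro j
    obtain ⟨L, hL⟩ : ∃ L : ℕ, L = j + N₀ := ⟨_, rfl⟩
    have hL1 : 3 ≤ L := by omega
    have hL0 : (0 : ℝ) < L := by exact_mod_cast (by omega : 0 < L)
    rw [ht]
    simp only
    rw [← hL]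
    have hlog : (L : ℝ) / 2 ≤ Real.log ((2 ^ L : ℕ) : ℝ) := by
      rw [Nat.cast_pow, Nat.cast_ofNat, Real.log_pow]
      have := Real.log_two_gt_d9
      nlinarith
    have hNL : L < 2 ^ L := Nat.lt_two_pow_self
    have hb : ∀ N ∈ Icc 1 (2 ^ L), cube k {ω | (2 : ℝ) ^ L / (L : ℝ) ^ A < ‖WS k b h (w N) (2 ^ L) ω‖} ≤
        ENNReal.ofReal (2 ^ (3 * A + 2) * C / (L : ℝ) ^ (A + 2)) := by
      intro N _
      refine (h1 (2 ^ L) (by omega) (w N) (hw N) ((2 : ℝ) ^ L / (L : ℝ) ^ A) (by positivity)).trans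
        (ENNReal.ofReal_le_ofReal ?_)
      have hlog0 : 0 < Real.log ((2 ^ L : ℕ) : ℝ) := by linarith [half_pos hL0]
      calc C * ((2 ^ L : ℕ) : ℝ) ^ 2 / Real.log ((2 ^ L : ℕ) : ℝ) ^ (3 * A + 2) / ((2 : ℝ) ^ L / (L : ℝ) ^ A) ^ 2 =
            C * ((L : ℝ) ^ A) ^ 2 / Real.log ((2 ^ L : ℕ) : ℝ) ^ (3 * A + 2) := by
            rw [Nat.cast_pow, Nat.cast_ofNat]
            field_simp
        _ ≤ C * ((L : ℝ) ^ A) ^ 2 / ((L : ℝ) / 2) ^ (3 * A + 2) := by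
            apply div_le_div_of_nonneg_left (by positivity) (by positivity)
            exact pow_le_pow_left₀ (by positivity) hlog _
        _ = _ := by
            rw [div_pow]
            have e3 : (L : ℝ) ^ (3 * A + 2) = ((L : ℝ) ^ A) ^ 2 * (L : ℝ) ^ (A + 2) := by
              rw [← pow_mul, ← pow_add]
              congr 1
              ring
            rw [e3]
            field_simp
    have h3 := card_markov (cube k) (Icc 1 (2 ^ L)) (fun N => {ω | (2 : ℝ) ^ L / (L : ℝ) ^ A < ‖WS k b h (w N) (2 ^ L) ω‖})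
      (fun N => measurableSet_lt measurable_const (WS_meas k b h (w N) (2 ^ L)).norm)
      (2 ^ (3 * A + 2) * C / (L : ℝ) ^ (A + 2)) ((2 : ℝ) ^ L / (L : ℝ) ^ A) (by positivity) (by positivity) hb
    refine le_trans (le_of_eq ?_) (h3.trans (ENNReal.ofReal_le_ofReal ?_))
    · rfl
    · rw [Nat.card_Icc, Nat.add_sub_cancel, Nat.cast_pow, Nat.cast_ofNat]
      have hj1 : ((j + 1 : ℕ) : ℝ) ≤ L := by exact_mod_cast (by omega : j + 1 ≤ L)
      have hj0 : (0 : ℝ) < ((j + 1 : ℕ) : ℝ) := by positivity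
      calc (2 : ℝ) ^ L * (2 ^ (3 * A + 2) * C / (L : ℝ) ^ (A + 2)) / ((2 : ℝ) ^ L / (L : ℝ) ^ A) =
            2 ^ (3 * A + 2) * C * (1 / (L : ℝ) ^ 2) := by
            rw [pow_add (L : ℝ) A 2]
            field_simp
        _ ≤ _ := by
            apply mul_le_mul_of_nonneg_left _ (by positivity)
            apply one_div_le_one_div_of_le (by positivity)
            exact pow_le_pow_left₀ hj0.le hj1 2
  have hsum : Summable fun j : ℕ => 2 ^ (3 * A + 2) * C * (1 / ((j + 1 : ℕ) : ℝ) ^ 2) := by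
    apply Summable.mul_left
    exact (summable_nat_add_iff 1).2 (Real.summable_one_div_nat_pow.2 one_lt_two)
  have hfin : ∑' j, cube k (t j) ≠ ∞ := by
    refine ne_top_of_le_ne_top hsum.tsum_ofReal_ne_top ?_
    exact ENNReal.tsum_le_tsum hmeas
  filter_upwards [ae_eventually_notMem hfin] with ω hω
  obtain ⟨j0, hj0⟩ := eventually_atTop.1 hω
  filter_upwards [eventually_ge_atTop (j0 + N₀)] with L hL
  have h2 := hj0 (L - N₀) (by omega)
  rw [ht] at h2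
  have e : L - N₀ + N₀ = L := by omega
  simp only [Set.mem_ofPred_eq, e] at h2
  exact not_lt.1 h2

/-- almost surely all members of a sparse sequence are good -/
theorem sq_ae (k : ℕ) (b : Fin k → ℝ) (h : Fin k → ℤ) (A D : ℕ) (n : ℕ → ℕ)
    (hn : ∀ᶠ j : ℕ in atTop, (j : ℝ) + 1 ≤ Real.log (n j) ^ D) (w : ℕ → ℕ → ℂ) (hw : ∀ N n, ‖w N n‖ ≤ 1) :
    ∀ᵐ ω ∂(cube k), ∀ᶠ j : ℕ in atTop, ‖WS k b h (w j) (n j) ω‖ ≤ n j / Real.log (n j) ^ A := by
  obtain ⟨C, N₀, hC, hN₀, h1⟩ := WS_markov k b h (2 * A + 2 * D) A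
  have hlarge : ∀ᶠ j : ℕ in atTop, N₀ ≤ n j := by
    filter_upwards [hn, eventually_ge_atTop ⌈Real.log N₀ ^ D⌉₊] with j hj hj2
    by_contra hc
    push Not at hc
    have h2 : Real.log (n j) ^ D ≤ Real.log N₀ ^ D := by
      apply pow_le_pow_left₀ (Real.log_natCast_nonneg _)
      rcases Nat.eq_zero_or_pos (n j) with h0 | h0
      · rw [h0, Nat.cast_zero, Real.log_zero]
        exact Real.log_natCast_nonneg _
      · exact Real.log_le_log (by exact_mod_cast h0) (by exact_mod_cast hc.le)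
    have h3 : Real.log N₀ ^ D ≤ j := (Nat.le_ceil _).trans (by exact_mod_cast hj2)
    linarith
  obtain ⟨J, hJ⟩ := eventually_atTop.1 (hn.and hlarge)
  obtain ⟨t, ht⟩ : ∃ t : ℕ → Set (Fin k → ℝ), t = fun j => {ω | (n (j + J) : ℝ) / Real.log (n (j + J)) ^ A <
    ‖WS k b h (w (j + J)) (n (j + J)) ω‖} := ⟨_, rfl⟩
  have hmeas : ∀ j, cube k (t j) ≤ ENNReal.ofReal (C * (1 / ((j + 1 : ℕ) : ℝ) ^ 2)) := by
    intro j
    obtain ⟨i, hi⟩ : ∃ i : ℕ, i = j + J := ⟨_, rfl⟩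
    obtain ⟨g1, g2⟩ := hJ i (by omega)
    rw [ht]
    simp only
    rw [← hi]
    have hN3 : (3 : ℝ) ≤ n i := by exact_mod_cast hN₀.trans g2
    have hℓ : 0 < Real.log (n i : ℝ) := Real.log_pos (by linarith)
    have hN0 : (0 : ℝ) < n i := by linarith
    refine (h1 (n i) g2 (w i) (hw i) ((n i : ℝ) / Real.log (n i) ^ A) (by positivity)).trans (ENNReal.ofReal_le_ofReal ?_)
    have hj1 : ((j + 1 : ℕ) : ℝ) ≤ Real.log (n i : ℝ) ^ D := by
      refine le_trans ?_ g1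
      rw [hi]
      push_cast
      linarith [Nat.cast_nonneg (α := ℝ) J]
    have hj0 : (0 : ℝ) < ((j + 1 : ℕ) : ℝ) := by positivity
    calc C * (n i : ℝ) ^ 2 / Real.log (n i : ℝ) ^ (2 * A + 2 * D) / ((n i : ℝ) / Real.log (n i) ^ A) ^ 2 =
          C * (1 / (Real.log (n i : ℝ) ^ D) ^ 2) := by
          rw [pow_add, mul_comm 2 A, mul_comm 2 D, pow_mul, pow_mul]
          field_simp
      _ ≤ _ := by
          apply mul_le_mul_of_nonneg_left _ hC
          apply one_div_le_one_div_of_le (by positivity)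
          exact pow_le_pow_left₀ hj0.le hj1 2
  have hsum : Summable fun j : ℕ => C * (1 / ((j + 1 : ℕ) : ℝ) ^ 2) := by
    apply Summable.mul_left
    exact (summable_nat_add_iff 1).2 (Real.summable_one_div_nat_pow.2 one_lt_two)
  have hfin : ∑' j, cube k (t j) ≠ ∞ := by
    refine ne_top_of_le_ne_top hsum.tsum_ofReal_ne_top ?_
    exact ENNReal.tsum_le_tsum hmeas
  filter_upwards [ae_eventually_notMem hfin] with ω hω
  obtain ⟨j0, hj0⟩ := eventually_atTop.1 hω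
  filter_upwards [eventually_ge_atTop (j0 + J)] with i hi
  have h2 := hj0 (i - J) (by omega)
  rw [ht] at h2
  have e : i - J + J = i := by omega
  simp only [Set.mem_ofPred_eq, e] at h2
  exact not_lt.1 h2

/-- the indicator of a finite set -/
noncomputable def ind (M : Finset ℕ) (n : ℕ) : ℂ := if n ∈ M then 1 else 0

theorem ind_le (M : Finset ℕ) (n : ℕ) : ‖ind M n‖ ≤ 1 := by
  unfold ind
  split_ifs <;> simp

theorem WS_ind (k : ℕ) (b : Fin k → ℝ) (h : Fin k → ℤ) (M : Finset ℕ) (N : ℕ) (hM : M ⊆ Icc 1 N) (ω : Fin k → ℝ)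
    (hω : ∀ i, ω i ∈ Set.Icc (0 : ℝ) 1) :
    ‖WS k b h (ind M) N ω‖ = |∑ m ∈ M, (FRi k (fun i => Real.exp (b i + ω i)) h m - 1)| := by
  have e : WS k b h (ind M) N ω = ((∑ m ∈ M, (FRi k (fun i => Real.exp (b i + ω i)) h m - 1) : ℝ) : ℂ) := by
    unfold WS ind
    push_cast
    rw [← sum_subset hM (fun n _ hn => by rw [if_neg hn, zero_mul])]
    refine sum_congr rfl fun n hn => ?_
    rw [if_pos hn, one_mul, FI_eq k b h ω hω]
  rw [e, Complex.norm_real, Real.norm_eq_abs]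

theorem mem_cube (k : ℕ) : ∀ᵐ ω ∂(cube k), ∀ i, ω i ∈ Set.Icc (0 : ℝ) 1 := by
  have h2 : ∀ᵐ ω ∂(cube k), ω ∈ Set.pi Set.univ (fun _ : Fin k => Set.Icc (0 : ℝ) 1) := by
    rw [cube, ← Measure.restrict_pi_pi]
    exact ae_restrict_mem (MeasurableSet.univ_pi fun _ => measurableSet_Icc)
  filter_upwards [h2] with ω hω i
  exact hω i (Set.mem_univ i)

/-- good for the multipliers `β` -/
def Gd (k : ℕ) (β : Fin k → ℝ) (h : Fin k → ℤ) (A : ℕ) (ε : ℝ) (N : ℕ) (M : Finset ℕ) : Prop :=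
  |((PI k β h M).card : ℝ) * Real.log N ^ k - M.card| ≤ ε * M.card + N / Real.log N ^ A

/-- **sparse sequences** -/
theorem sparse_ae (k D : ℕ) (n : ℕ → ℕ) (hn : ∀ᶠ j : ℕ in atTop, (j : ℝ) + 1 ≤ Real.log (n j) ^ D)
    (M : ℕ → Finset ℕ) (hM : ∀ j, M j ⊆ Icc 1 (n j)) :
    ∀ᵐ β : Fin k → ℝ, (∀ i, 0 < β i) → ∀ (h : Fin k → ℤ) (A : ℕ) (ε : ℝ), 0 < ε →
      ∀ᶠ j : ℕ in atTop, Gd k β h A ε (n j) (M j) := by
  refine all_ae k (fun β => ∀ (h : Fin k → ℤ) (A : ℕ) (ε : ℝ), 0 < ε → ∀ᶠ j : ℕ in atTop, Gd k β h A ε (n j) (M j))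
    fun b => ?_
  rw [ae_all_iff]
  intro h
  rw [ae_all_iff]
  intro A
  have htend : Tendsto n atTop atTop := by
    rw [tendsto_atTop]
    intro N₀
    filter_upwards [hn, eventually_ge_atTop ⌈Real.log N₀ ^ D⌉₊] with j hj hj2
    by_contra hc
    push Not at hc
    have h2 : Real.log (n j) ^ D ≤ Real.log N₀ ^ D := by
      apply pow_le_pow_left₀ (Real.log_natCast_nonneg _)
      rcases Nat.eq_zero_or_pos (n j) with h0 | h0
      · rw [h0, Nat.cast_zero, Real.log_zero]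
        exact Real.log_natCast_nonneg _
      · exact Real.log_le_log (by exact_mod_cast h0) (by exact_mod_cast hc.le)
    have h3 : Real.log N₀ ^ D ≤ j := (Nat.le_ceil _).trans (by exact_mod_cast hj2)
    linarith
  filter_upwards [sq_ae k (fun i => (b i : ℝ)) h (A + 1) D n hn (fun j => ind (M j)) (fun j m => ind_le _ _),
    mem_cube k] with ω hω hω2 ε hε
  have h1 := count_det k (fun i => Real.exp (b i + ω i)) h (fun i => Real.exp_pos _) A (min ε 1)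
    (lt_min hε one_pos) (min_le_right _ _)
  filter_upwards [hω, htend.eventually h1] with j hj hj2
  have h3 := hj2 (M j) (hM j) (by
    rw [← WS_ind k (fun i => (b i : ℝ)) h (M j) (n j) (hM j) ω hω2]
    exact hj)
  unfold Gd
  refine h3.trans ?_
  have : min ε 1 * (M j).card ≤ ε * (M j).card := mul_le_mul_of_nonneg_right (min_le_left _ _) (Nat.cast_nonneg _)
  linarith

end Pool.Agent.H49.IX
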