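import Pool.Agent.H49.D.HE
import Pool.Agent.H49.G.R_pool_sql_team_seeded_b3bd081e.H491R3.GB.Gold

set_option autoImplicit false

/-! Chains of indices: arbitrary families of sets, and Goldbach's problem. -/

namespace Pool.Agent.H49.IX

open Finset MeasureTheory Filter Topology
open scoped ENNReal
open Pool.Agent.H49.DM (cube all_ae)
open Pool.Agent.H49.CC
open Pool.Agent.H491R3.GB (gb exc)

open Classical in
/-- **arbitrary families of sets** -/
theorem fam_ae (k : ℕ) (M : ℕ → Finset ℕ) (hM : ∀ N, M N ⊆ Icc 1 N) :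
    ∀ᵐ β : Fin k → ℝ, (∀ i, 0 < β i) → ∀ (h : Fin k → ℤ) (A : ℕ) (ε : ℝ), 0 < ε →
      ∀ᶠ X : ℕ in atTop, (((Icc 1 X).filter fun N : ℕ => ¬ Gd k β h A ε N (M N)).card : ℝ) ≤ X / Real.log X ^ A := by
  refine all_ae k (fun β => ∀ (h : Fin k → ℤ) (A : ℕ) (ε : ℝ), 0 < ε →
      ∀ᶠ X : ℕ in atTop, (((Icc 1 X).filter fun N : ℕ => ¬ Gd k β h A ε N (M N)).card : ℝ) ≤ X / Real.log X ^ A) fun b => ?_
  rw [ae_all_iff]
  intro h
  rw [ae_all_iff]
  intro A
  filter_upwards [dy_ae k (fun i => (b i : ℝ)) h (2 * A + 3) (fun N => ind (M N)) (fun N m => ind_le _ _),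
    mem_cube k] with ω hω hω2 ε hε
  obtain ⟨N₁, hN₁⟩ := eventually_atTop.1 (count_det k (fun i => Real.exp (b i + ω i)) h (fun i => Real.exp_pos _) A (min ε 1)
    (lt_min hε one_pos) (min_le_right _ _))
  have htend : Tendsto (fun X : ℕ => Nat.log 2 X + 1) atTop atTop := by
    rw [tendsto_atTop]
    intro c
    filter_upwards [eventually_ge_atTop (2 ^ c)] with X hX
    exact (Nat.le_log_of_pow_le one_lt_two hX).trans (Nat.le_succ _)
  have hy : ∀ᶠ L : ℕ in atTop, ((max N₁ 3 : ℕ) : ℝ) ≤ 2 ^ L / (L : ℝ) ^ (A + 2) := by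
    have h2 : Tendsto (fun n : ℕ => (n : ℝ) ^ (A + 2) / (2 : ℝ) ^ n) atTop (𝓝 0) :=
      tendsto_pow_const_div_const_pow_of_one_lt (A + 2) (by norm_num)
    have h3 : (0 : ℝ) < ((max N₁ 3 : ℕ) : ℝ) := by exact_mod_cast lt_of_lt_of_le (by norm_num) (le_max_right _ _)
    filter_upwards [h2.eventually (gt_mem_nhds (show (0 : ℝ) < 1 / ((max N₁ 3 : ℕ) : ℝ) by positivity)),
      eventually_ge_atTop 1] with L hL hL1
    have hL0 : (0 : ℝ) < L := by exact_mod_cast hL1
    rw [div_lt_div_iff₀ (by positivity) h3, one_mul] at hL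
    rw [le_div_iff₀ (by positivity)]
    linarith
  filter_upwards [htend.eventually hω, htend.eventually hy, htend.eventually (eventually_ge_atTop 2),
    eventually_ge_atTop 2] with X g1 g2 g3 g4
  obtain ⟨L, hL⟩ : ∃ L : ℕ, L = Nat.log 2 X + 1 := ⟨_, rfl⟩
  rw [← hL] at g1 g2 g3
  have hL0 : (0 : ℝ) < L := by exact_mod_cast (by omega : 0 < L)
  have hL2 : (2 : ℝ) ≤ L := by exact_mod_cast g3
  have hXL : X < 2 ^ L := by rw [hL]; exact Nat.lt_pow_succ_log_self one_lt_two X
  have hLX : 2 ^ L ≤ 2 * X := by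
    rw [hL, pow_succ]
    have := Nat.pow_log_le_self 2 (show X ≠ 0 by omega)
    omega
  have hLXr : (2 : ℝ) ^ L ≤ 2 * X := by exact_mod_cast hLX
  have hX0 : (0 : ℝ) < X := by exact_mod_cast (by omega : 0 < X)
  have hlogX : Real.log X ≤ L := by
    have h3 : Real.log X ≤ Real.log ((2 : ℝ) ^ L) := Real.log_le_log hX0 (by exact_mod_cast hXL.le)
    rw [Real.log_pow] at h3
    have h4 := Real.log_two_lt_d9
    nlinarith
  have hlogX0 : 0 < Real.log X := Real.log_pos (by exact_mod_cast (by omega : 1 < X))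
  obtain ⟨y, hyd⟩ : ∃ y : ℝ, y = 2 ^ L / (L : ℝ) ^ (A + 2) := ⟨_, rfl⟩
  rw [← hyd] at g2
  have hy0 : 0 < y := by rw [hyd]; positivity
  obtain ⟨Bd, hBd⟩ : ∃ Bd : Finset ℕ, Bd = (Icc 1 (2 ^ L)).filter fun N => (2 : ℝ) ^ L / (L : ℝ) ^ (2 * A + 3) <
    ‖WS k (fun i => (b i : ℝ)) h (ind (M N)) (2 ^ L) ω‖ := ⟨_, rfl⟩
  rw [← hBd] at g1
  have hsub : ((Icc 1 X).filter fun N : ℕ => ¬ Gd k (fun i => Real.exp (b i + ω i)) h A ε N (M N)) ⊆ Icc 1 ⌊y⌋₊ ∪ Bd := by
    intro N hN
    rw [mem_filter, mem_Icc] at hN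
    obtain ⟨⟨hN1, hNX⟩, hbad⟩ := hN
    rw [mem_union]
    by_contra hc
    push Not at hc
    obtain ⟨hc1, hc2⟩ := hc
    apply hbad
    have hNy : y < N := by
      by_contra h5
      push Not at h5
      exact hc1 (mem_Icc.2 ⟨hN1, Nat.le_floor h5⟩)
    have hNmax : ((max N₁ 3 : ℕ) : ℝ) ≤ N := g2.trans hNy.le
    have hNmax' : max N₁ 3 ≤ N := by exact_mod_cast hNmax
    have hN3 : 3 ≤ N := (le_max_right _ _).trans hNmax'
    have hN0 : (0 : ℝ) < N := by exact_mod_cast hN1
    have hNX' : (N : ℝ) ≤ X := by exact_mod_cast hNX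
    have hlN : Real.log N ≤ L := (Real.log_le_log hN0 hNX').trans hlogX
    have hlN0 : 0 < Real.log N := Real.log_pos (by exact_mod_cast (by omega : 1 < N))
    have hMN : M N ⊆ Icc 1 (2 ^ L) := (hM N).trans (Icc_subset_Icc_right (by omega))
    have h5 : ‖WS k (fun i => (b i : ℝ)) h (ind (M N)) (2 ^ L) ω‖ ≤ (2 : ℝ) ^ L / (L : ℝ) ^ (2 * A + 3) := by
      by_contra h6
      push Not at h6
      apply hc2
      rw [hBd, mem_filter, mem_Icc]
      exact ⟨⟨hN1, by omega⟩, h6⟩
    rw [WS_ind k (fun i => (b i : ℝ)) h (M N) (2 ^ L) hMN ω hω2] at h5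
    have h6 : (2 : ℝ) ^ L / (L : ℝ) ^ (2 * A + 3) ≤ N / Real.log N ^ (A + 1) := by
      have e : (2 : ℝ) ^ L / (L : ℝ) ^ (2 * A + 3) = y / (L : ℝ) ^ (A + 1) := by
        rw [hyd, div_div, ← pow_add]
        congr 2
        ring
      rw [e]
      exact div_le_div₀ hN0.le hNy.le (by positivity) (pow_le_pow_left₀ hlN0.le hlN _)
    have h7 := hN₁ N ((le_max_left _ _).trans hNmax') (M N) (hM N) (h5.trans h6)
    unfold Gd
    refine h7.trans ?_
    have : min ε 1 * (M N).card ≤ ε * (M N).card := mul_le_mul_of_nonneg_right (min_le_left _ _) (Nat.cast_nonneg _)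
    linarith
  have hcard : (((Icc 1 X).filter fun N : ℕ => ¬ Gd k (fun i => Real.exp (b i + ω i)) h A ε N (M N)).card : ℝ) ≤ y + Bd.card := by
    have h8 := (card_le_card hsub).trans (card_union_le _ _)
    rw [Nat.card_Icc, Nat.add_sub_cancel] at h8
    have h9 : (((Icc 1 X).filter fun N : ℕ => ¬ Gd k (fun i => Real.exp (b i + ω i)) h A ε N (M N)).card : ℝ) ≤
        (⌊y⌋₊ : ℝ) + Bd.card := by exact_mod_cast h8
    have := Nat.floor_le hy0.le
    linarith
  refine hcard.trans ?_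
  have h10 : (2 : ℝ) ^ L / (L : ℝ) ^ (2 * A + 3) ≤ y := by
    rw [hyd]
    apply div_le_div_of_nonneg_left (by positivity) (by positivity)
    exact pow_le_pow_right₀ (by linarith) (by omega)
  have h11 : 2 * y ≤ X / Real.log X ^ A := by
    calc 2 * y ≤ 2 * (2 * X / (L : ℝ) ^ (A + 2)) := by
          rw [hyd]
          apply mul_le_mul_of_nonneg_left _ (by norm_num)
          exact div_le_div_of_nonneg_right hLXr (by positivity)
      _ = X / (L : ℝ) ^ A * (4 / (L : ℝ) ^ 2) := by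
          rw [pow_add]
          field_simp
          ring
      _ ≤ X / (L : ℝ) ^ A * 1 := by
          apply mul_le_mul_of_nonneg_left _ (by positivity)
          rw [div_le_one (by positivity)]
          nlinarith
      _ ≤ _ := by
          rw [mul_one]
          apply div_le_div_of_nonneg_left hX0.le (by positivity)
          exact pow_le_pow_left₀ hlogX0.le hlogX _
  linarith

open Classical in
/-- from the upper parts of the intervals to the intervals -/
theorem of_upper (B : ℕ → Prop) (A : ℕ)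
    (h : ∀ᶠ X : ℕ in atTop, (((Icc 1 X).filter fun n => X < 4 * n ∧ B n).card : ℝ) ≤ X / Real.log X ^ (A + 1)) :
    ∀ᶠ X : ℕ in atTop, (((Icc 1 X).filter fun n => B n).card : ℝ) ≤ X / Real.log X ^ A := by
  have h1 : Tendsto (fun X : ℕ => (1 - Real.log 8 * (Real.log X)⁻¹) ^ (A + 1)) atTop (𝓝 ((1 - Real.log 8 * 0) ^ (A + 1))) :=
    (((tendsto_inv_atTop_zero.comp t_log).const_mul _).const_sub 1).pow _
  rw [mul_zero, sub_zero, one_pow] at h1
  obtain ⟨X₁, hX₁⟩ := eventually_atTop.1 (h.and ((h1.eventually (lt_mem_nhds (show (1 / 2 : ℝ) < 1 by norm_num))).and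
    ((t_log.eventually (eventually_gt_atTop (Real.log 8))).and (eventually_ge_atTop 16))))
  obtain ⟨c, hc⟩ : ∃ c : ℕ → ℝ, c = fun X => (((Icc 1 X).filter fun n => B n).card : ℝ) := ⟨_, rfl⟩
  have hcX : ∀ X, c X ≤ X := by
    intro X
    rw [hc]
    beta_reduce
    have := card_filter_le (Icc 1 X) (fun n => B n)
    rw [Nat.card_Icc, Nat.add_sub_cancel] at this
    exact_mod_cast this
  have hrec : ∀ X, c X ≤ c (X / 4) + (((Icc 1 X).filter fun n => X < 4 * n ∧ B n).card : ℝ) := by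
    intro X
    have hsub : ((Icc 1 X).filter fun n => B n) ⊆ ((Icc 1 (X / 4)).filter fun n => B n) ∪
        ((Icc 1 X).filter fun n => X < 4 * n ∧ B n) := by
      intro n hn
      rw [mem_filter, mem_Icc] at hn
      rw [mem_union, mem_filter, mem_filter, mem_Icc, mem_Icc]
      by_cases h4 : X < 4 * n
      · right; exact ⟨hn.1, h4, hn.2⟩
      · left; exact ⟨⟨hn.1.1, by omega⟩, hn.2⟩
    rw [hc]
    beta_reduce
    exact_mod_cast (card_le_card hsub).trans (card_union_le _ _)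
  have key : ∀ X : ℕ, c X ≤ X₁ + 2 * (X / Real.log X ^ (A + 1)) := by
    intro X
    induction X using Nat.strong_induction_on with
    | _ X ih =>
      have hlog : 0 ≤ Real.log (X : ℝ) := Real.log_natCast_nonneg X
      rcases le_or_gt X X₁ with hX | hX
      · have h2 := hcX X
        have h3 : (X : ℝ) ≤ X₁ := by exact_mod_cast hX
        have : (0 : ℝ) ≤ 2 * (X / Real.log X ^ (A + 1)) := by positivity
        linarith
      · obtain ⟨g1, g2, g3, g4⟩ := hX₁ X hX.le
        have hX16 : (16 : ℝ) ≤ X := by exact_mod_cast g4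
        have hX0 : (0 : ℝ) < X := by linarith
        have hl8 : 0 < Real.log 8 := Real.log_pos (by norm_num)
        have hl0 : 0 < Real.log (X : ℝ) := lt_trans hl8 g3
        have h2 := ih (X / 4) (by omega)
        have h3 : (X : ℝ) / 8 ≤ ((X / 4 : ℕ) : ℝ) := by
          have : X < 4 * (X / 4) + 4 := by omega
          have h4 : (X : ℝ) < 4 * ((X / 4 : ℕ) : ℝ) + 4 := by exact_mod_cast this
          linarith
        have h5 : ((X / 4 : ℕ) : ℝ) ≤ X / 4 := by
          have : 4 * (X / 4) ≤ X := by omega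
          have h4 : 4 * ((X / 4 : ℕ) : ℝ) ≤ X := by exact_mod_cast this
          linarith
        have h6 : Real.log X - Real.log 8 ≤ Real.log ((X / 4 : ℕ) : ℝ) := by
          rw [← Real.log_div hX0.ne' (by norm_num)]
          exact Real.log_le_log (by positivity) h3
        have h7 : 0 < Real.log X - Real.log 8 := by linarith
        have h8 : (1 / 2) * Real.log X ^ (A + 1) ≤ Real.log ((X / 4 : ℕ) : ℝ) ^ (A + 1) := by
          have e : (Real.log X - Real.log 8) ^ (A + 1) = (1 - Real.log 8 * (Real.log X)⁻¹) ^ (A + 1) * Real.log X ^ (A + 1) := by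
            rw [← mul_pow]
            congr 1
            field_simp
          calc (1 / 2) * Real.log X ^ (A + 1) ≤ (1 - Real.log 8 * (Real.log X)⁻¹) ^ (A + 1) * Real.log X ^ (A + 1) :=
                mul_le_mul_of_nonneg_right g2.le (by positivity)
            _ = (Real.log X - Real.log 8) ^ (A + 1) := e.symm
            _ ≤ _ := pow_le_pow_left₀ h7.le h6 _
        have h9 : ((X / 4 : ℕ) : ℝ) / Real.log ((X / 4 : ℕ) : ℝ) ^ (A + 1) ≤ (1 / 2) * (X / Real.log X ^ (A + 1)) := by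
          calc ((X / 4 : ℕ) : ℝ) / Real.log ((X / 4 : ℕ) : ℝ) ^ (A + 1) ≤ (X / 4) / ((1 / 2) * Real.log X ^ (A + 1)) := by
                apply div_le_div₀ (by positivity) h5 (by positivity) h8
            _ = _ := by
                field_simp
                norm_num
        have h10 := hrec X
        linarith
  have hfin : ∀ᶠ X : ℕ in atTop, (X₁ : ℝ) * Real.log X ^ A ≤ X / 2 := by
    have h2 := (t_pow A).const_mul (X₁ : ℝ)
    rw [mul_zero] at h2
    filter_upwards [h2.eventually (gt_mem_nhds (show (0 : ℝ) < 1 / 2 by norm_num)), eventually_ge_atTop 1] with X hX hX1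
    have hX0 : (0 : ℝ) < X := by exact_mod_cast hX1
    rw [← mul_div_assoc, div_lt_iff₀ hX0] at hX
    linarith
  filter_upwards [hfin, t_log.eventually (eventually_ge_atTop 4)] with X g1 g2
  have h2 := key X
  rw [hc] at h2
  simp only at h2
  refine h2.trans ?_
  have hl0 : 0 < Real.log (X : ℝ) := by linarith
  rw [le_div_iff₀ (by positivity)]
  have e : (X₁ + 2 * (X / Real.log X ^ (A + 1))) * Real.log X ^ A = X₁ * Real.log X ^ A + 2 * X / Real.log X := by
    rw [pow_succ]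
    field_simp
  rw [e]
  have h3 : 2 * (X : ℝ) / Real.log X ≤ X / 2 := by
    rw [div_le_iff₀ hl0]
    have : (0 : ℝ) ≤ X := Nat.cast_nonneg X
    nlinarith
  linarith

/-- the smaller (or larger) summands of the representations of `N` as a sum of two primes -/
def GR (N : ℕ) : Finset ℕ := (Icc 1 N).filter fun p => p.Prime ∧ (N - p).Prime

theorem GR_card (N : ℕ) : (GR N).card = gb N := by
  unfold GR gb
  congr 1
  ext p
  rw [mem_filter, mem_filter, mem_Icc, mem_range]
  constructor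
  · rintro ⟨h1, h2⟩
    exact ⟨by omega, h2⟩
  · rintro ⟨h1, h2⟩
    exact ⟨⟨h2.1.pos, by omega⟩, h2⟩

/-- the indices of the summands -/
def GI (N : ℕ) : Finset ℕ := (GR N).image Nat.primeCounting

theorem GI_sub (N : ℕ) : GI N ⊆ Icc 1 N := by
  intro m hm
  unfold GI at hm
  rw [mem_image] at hm
  obtain ⟨p, hp, rfl⟩ := hm
  unfold GR at hp
  rw [mem_filter, mem_Icc] at hp
  rw [mem_Icc]
  exact ⟨pc_pos hp.2.1, (pc_le p).trans hp.1.2⟩

theorem GI_card (N : ℕ) : (GI N).card = (GR N).card := by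
  unfold GI
  apply card_image_of_injOn
  intro p hp q hq hpq
  rw [mem_coe] at hp hq
  unfold GR at hp hq
  rw [mem_filter] at hp hq
  exact pc_inj hp.2.1 hq.2.1 hpq

/-- the summands for which the whole chain is prime -/
noncomputable def GP (k : ℕ) (β : Fin k → ℝ) (h : Fin k → ℤ) (N : ℕ) : Finset ℕ :=
  (GR N).filter fun p => ∀ q ∈ idx k β h (Nat.primeCounting p), q.Prime

theorem PI_card (k : ℕ) (β : Fin k → ℝ) (h : Fin k → ℤ) (N : ℕ) : (PI k β h (GI N)).card = (GP k β h N).card := by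
  have e : PI k β h (GI N) = (GP k β h N).image Nat.primeCounting := by
    ext m
    unfold PI GP GI
    rw [mem_filter, mem_image, mem_image]
    constructor
    · rintro ⟨⟨p, hp, rfl⟩, h2⟩
      exact ⟨p, mem_filter.2 ⟨hp, h2⟩, rfl⟩
    · rintro ⟨p, hp, rfl⟩
      rw [mem_filter] at hp
      exact ⟨⟨p, hp.1, rfl⟩, hp.2⟩
  rw [e]
  apply card_image_of_injOn
  intro p hp q hq hpq
  rw [mem_coe] at hp hq
  unfold GP GR at hp hq
  rw [mem_filter, mem_filter] at hp hq
  exact pc_inj hp.1.2.1 hq.1.2.1 hpq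

open Classical in
/-- **Goldbach's problem** -/
theorem goldbach_ae (k : ℕ) :
    ∀ᵐ β : Fin k → ℝ, (∀ i, 0 < β i) → ∀ (h : Fin k → ℤ) (A : ℕ) (ε : ℝ), 0 < ε →
      ∀ᶠ X : ℕ in atTop, (((Icc 1 X).filter fun N : ℕ => Even N ∧
        ¬ ((N : ℝ) / (2 * Real.log N ^ 2) ≤ (GR N).card ∧
          |((GP k β h N).card : ℝ) * Real.log N ^ k - (GR N).card| ≤ ε * (GR N).card)).card : ℝ) ≤ X / Real.log X ^ A := by
  filter_upwards [fam_ae k GI GI_sub] with β hβ hβ0 h A ε hε
  have h1 := hβ hβ0 h (A + 3) (ε / 2) (by linarith)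
  have h2 : ∀ᶠ X : ℕ in atTop, (((Icc 1 X).filter fun n : ℕ => Even n ∧
      (gb n : ℝ) < 1 / 2 * (n : ℝ) / Real.log n ^ 2).card : ℝ) ≤ X / Real.log X ^ (A + 1) := by
    have h4 := of_upper (fun n : ℕ => Even n ∧ (gb n : ℝ) < 1 / 2 * (n : ℝ) / Real.log n ^ 2) (A + 1) (by
      obtain ⟨N0, hN0⟩ := exc (A + 1 + 1)
      filter_upwards [eventually_ge_atTop N0] with X hX
      convert hN0 X hX)
    filter_upwards [h4] with X hX
    convert hX
  obtain ⟨N₂, hN₂⟩ := eventually_atTop.1 ((t_log.eventually (eventually_ge_atTop (4 / ε))).and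
    (t_log.eventually (eventually_ge_atTop 1)))
  have h3 : ∀ᶠ X : ℕ in atTop, (N₂ : ℝ) * Real.log X ^ A ≤ X / 4 := by
    have h2 := (t_pow A).const_mul (N₂ : ℝ)
    rw [mul_zero] at h2
    filter_upwards [h2.eventually (gt_mem_nhds (show (0 : ℝ) < 1 / 4 by norm_num)), eventually_ge_atTop 1] with X hX hX1
    have hX0 : (0 : ℝ) < X := by exact_mod_cast hX1
    rw [← mul_div_assoc, div_lt_iff₀ hX0] at hX
    linarith
  filter_upwards [h1, h2, h3, t_log.eventually (eventually_ge_atTop 4)] with X g1 g2 g3 g4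
  have hsub : ((Icc 1 X).filter fun N : ℕ => Even N ∧
        ¬ ((N : ℝ) / (2 * Real.log N ^ 2) ≤ (GR N).card ∧
          |((GP k β h N).card : ℝ) * Real.log N ^ k - (GR N).card| ≤ ε * (GR N).card)) ⊆
      (Icc 1 N₂ ∪ ((Icc 1 X).filter fun N : ℕ => ¬ Gd k β h (A + 3) (ε / 2) N (GI N))) ∪
      ((Icc 1 X).filter fun n : ℕ => Even n ∧ (gb n : ℝ) < 1 / 2 * (n : ℝ) / Real.log n ^ 2) := by
    intro N hN
    rw [mem_filter, mem_Icc] at hN
    obtain ⟨⟨hN1, hNX⟩, hev, hbad⟩ := hN
    by_contra hc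
    rw [mem_union, mem_union, mem_filter, mem_filter, mem_Icc, mem_Icc] at hc
    push Not at hc
    obtain ⟨⟨c1, c2⟩, c3⟩ := hc
    have c1' : N₂ < N := c1 hN1
    have c2' := c2 ⟨hN1, hNX⟩
    have c3' := c3 ⟨hN1, hNX⟩ hev
    apply hbad
    obtain ⟨l1, l2⟩ := hN₂ N c1'.le
    have hl0 : 0 < Real.log (N : ℝ) := by linarith
    have hN0 : (0 : ℝ) < N := by exact_mod_cast hN1
    rw [← GR_card] at c3'
    have e : (N : ℝ) / (2 * Real.log N ^ 2) = 1 / 2 * (N : ℝ) / Real.log N ^ 2 := by field_simp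
    have d1 : (N : ℝ) / (2 * Real.log N ^ 2) ≤ (GR N).card := by rw [e]; exact c3'
    refine ⟨d1, ?_⟩
    unfold Gd at c2'
    rw [PI_card, GI_card] at c2'
    refine c2'.trans ?_
    have d2 : (N : ℝ) / Real.log N ^ (A + 3) ≤ ε / 2 * (GR N).card := by
      refine le_trans ?_ (mul_le_mul_of_nonneg_left d1 (by positivity))
      have hle : Real.log (N : ℝ) ^ 3 ≤ Real.log (N : ℝ) ^ (A + 3) := pow_le_pow_right₀ l2 (by omega)
      calc (N : ℝ) / Real.log N ^ (A + 3) ≤ N / Real.log N ^ 3 :=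
            div_le_div_of_nonneg_left hN0.le (by positivity) hle
        _ ≤ ε / 2 * (N / (2 * Real.log N ^ 2)) := by
            rw [div_le_iff₀ (by positivity)]
            have e2 : ε / 2 * ((N : ℝ) / (2 * Real.log N ^ 2)) * Real.log N ^ 3 = N * (ε * Real.log N / 4) := by
              field_simp
              ring
            rw [e2]
            rw [div_le_iff₀ hε] at l1
            have : 1 ≤ ε * Real.log N / 4 := by linarith
            nlinarith
    linarith
  have hcard := (card_le_card hsub).trans ((card_union_le _ _).trans (Nat.add_le_add_right (card_union_le _ _) _))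
  rw [Nat.card_Icc, Nat.add_sub_cancel] at hcard
  have hcard' : (((Icc 1 X).filter fun N : ℕ => Even N ∧
        ¬ ((N : ℝ) / (2 * Real.log N ^ 2) ≤ (GR N).card ∧
          |((GP k β h N).card : ℝ) * Real.log N ^ k - (GR N).card| ≤ ε * (GR N).card)).card : ℝ) ≤
      (N₂ : ℝ) + (((Icc 1 X).filter fun N : ℕ => ¬ Gd k β h (A + 3) (ε / 2) N (GI N)).card : ℝ) +
      (((Icc 1 X).filter fun n : ℕ => Even n ∧ (gb n : ℝ) < 1 / 2 * (n : ℝ) / Real.log n ^ 2).card : ℝ) := by
    exact_mod_cast hcard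
  refine hcard'.trans ((add_le_add (add_le_add le_rfl g1) g2).trans ?_)
  have hl0 : 0 < Real.log (X : ℝ) := by linarith
  have hX0 : (0 : ℝ) ≤ X := Nat.cast_nonneg X
  rw [le_div_iff₀ (by positivity)]
  have e : ((N₂ : ℝ) + X / Real.log X ^ (A + 3) + X / Real.log X ^ (A + 1)) * Real.log X ^ A =
      N₂ * Real.log X ^ A + X / Real.log X ^ 3 + X / Real.log X := by
    rw [pow_add, pow_add]
    field_simp
  rw [e]
  have h5 : (X : ℝ) / Real.log X ≤ X / 4 := div_le_div_of_nonneg_left hX0 (by norm_num) g4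
  have h6 : (X : ℝ) / Real.log X ^ 3 ≤ X / 4 := by
    apply div_le_div_of_nonneg_left hX0 (by norm_num)
    nlinarith [pow_le_pow_left₀ (by norm_num) g4 3]
  linarith

end Pool.Agent.H49.IX
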