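import Pool.Agent.H49.D.SE

set_option autoImplicit false

/-! Small gaps in random sets of order three: the field on the block starts. -/

namespace Pool.Agent.H49.SM

open Finset MeasureTheory Filter Topology
open scoped ENNReal
open Pool.Agent.H49.TW (int_prod)
open Pool.Agent.H49.PT

/-- a slow function below a given threshold -/
theorem slow (Bd Kf : ℕ → ℝ) (h0 : Bd 0 ≤ 1) (h1 : ∀ i, 1 ≤ Kf i) (hm : Monotone Kf) (ht : Tendsto Kf atTop atTop) :
    ∃ f : ℕ → ℕ, Monotone f ∧ Tendsto f atTop atTop ∧ ∀ i : ℕ, Bd (f i) ≤ Kf i := by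
  classical
  obtain ⟨Q, hQ⟩ : ∃ Q : ℕ → ℕ → Prop, Q = fun (i j : ℕ) => ∀ j' ≤ j, j' = 0 ∨ Bd j' ≤ Kf i := ⟨_, rfl⟩
  have hQ0 : ∀ i, Q i 0 := by
    intro i
    rw [hQ]
    intro j' hj'
    left
    omega
  refine ⟨fun i => Nat.findGreatest (Q i) i, ?_, ?_, ?_⟩
  · intro a b hab
    apply Nat.findGreatest_mono _ hab
    intro j hj
    rw [hQ] at hj ⊢
    intro j' hj'
    rcases hj j' hj' with h1 | h1
    · left; exact h1
    · right
      exact h1.trans (hm hab)
  · rw [tendsto_atTop]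
    intro J
    have h2 : ∀ᶠ i : ℕ in atTop, ∀ j' ∈ range (J + 1), Bd j' ≤ Kf i := by
      rw [eventually_all_finset]
      intro j' _
      exact ht.eventually (eventually_ge_atTop _)
    filter_upwards [h2, eventually_ge_atTop J] with i h3 h4
    apply Nat.le_findGreatest h4
    rw [hQ]
    intro j' hj'
    right
    exact h3 j' (mem_range.2 (by omega))
  · intro i
    have h2 : Q i (Nat.findGreatest (Q i) i) := Nat.findGreatest_spec (Nat.zero_le i) (hQ0 i)
    obtain ⟨g, hg⟩ : ∃ g, g = Nat.findGreatest (Q i) i := ⟨_, rfl⟩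
    simp only
    rw [← hg] at h2 ⊢
    rw [hQ] at h2
    rcases h2 g le_rfl with h3 | h3
    · rw [h3]
      exact h0.trans (h1 i)
    · exact h3

section

variable {k : ℕ} (F : Fam k) (f : ℕ → ℕ) (hfm : Monotone f) (hft : Tendsto f atTop atTop) (hk1 : 1 ≤ k)

/-- the block of the family `p` and the level `j` -/
noncomputable def blk (p j : ℕ) : Blk where
  T := F.T p
  D := fun i => (F.D p i).filter fun m => f (F.al p m) = j ∧ p < j
  al := F.al p
  hD := by
    intro i m hm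
    rw [mem_filter] at hm
    exact (F.hD p i m).1 hm.1
  hT := by
    intro i m hm l hl
    rw [mem_filter] at hm ⊢
    exact ⟨(F.hD p l m).2 hl, hm.2⟩
  hal := fun i m _ => F.al_mem hk1 p m

include hfm in
theorem blk_empty (p j i : ℕ) (h : ¬ (p < f i ∧ j ≤ f i)) : (blk F f hk1 p j).D i = ∅ := by
  rw [eq_empty_iff_forall_notMem]
  intro m hm
  unfold blk at hm
  rw [mem_filter, F.hD] at hm
  have h1 := hfm (F.al_le p m i hm.1)
  omega

theorem blk_N (p j m : ℕ) : 2 ^ j * 2 ^ ((blk F f hk1 p j).Nn m).card ≤ F.Mf p j := by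
  unfold Fam.Mf
  apply Nat.mul_le_mul_left
  apply Nat.pow_le_pow_right (by norm_num)
  unfold Blk.Nn
  refine (card_filter_le _ _).trans ((card_biUnion_le_card_mul _ _ (F.d p) fun l _ => ?_).trans ?_)
  · exact (card_filter_le _ _).trans (F.hd p l)
  · have : ((blk F f hk1 p j).T m).card = k := F.hk p m
    rw [this]

/-- the density of one block -/
noncomputable def Ga (a : ℕ × ℕ) (i : ℕ) (x : B0) : ℝ := (blk F f hk1 a.1 a.2).G (F.Mf a.1 a.2) a.2 i x

theorem Ga_bd (a : ℕ × ℕ) (i : ℕ) (x : B0) :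
    0 ≤ Ga F f hk1 a i x ∧ Ga F f hk1 a i x ≤ (2 * ((F.Mf a.1 a.2 : ℝ) + 1)) ^ F.d a.1 := by
  have h := (blk F f hk1 a.1 a.2).G_bd (F.Mf a.1 a.2) a.2 (F.Mf_pos _ _) (fun i m _ => blk_N F f hk1 a.1 a.2 m) i x
  unfold Ga
  refine ⟨h.1, h.2.trans ?_⟩
  have hb : (0 : ℝ) ≤ (F.Mf a.1 a.2 : ℝ) := Nat.cast_nonneg _
  exact pow_le_pow_right₀ (by linarith) ((card_filter_le _ _).trans (F.hd _ _))

/-- the density -/
noncomputable def GG (ω : Fam.Om1) (i : ℕ) : ℝ := ∏ a ∈ range (f i) ×ˢ range (f i + 1), Ga F f hk1 a i (ω a)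

theorem GG_nonneg (ω : Fam.Om1) (i : ℕ) : 0 ≤ GG F f hk1 ω i := prod_nonneg fun a _ => (Ga_bd F f hk1 a i _).1

theorem GG_le (ω : Fam.Om1) (i : ℕ) : GG F f hk1 ω i ≤ F.Bd (f i) := by
  unfold GG Fam.Bd
  exact prod_le_prod (fun a _ => (Ga_bd F f hk1 a i _).1) (fun a _ => (Ga_bd F f hk1 a i _).2)

theorem GG_meas (i : ℕ) : Measurable fun ω : Fam.Om1 => GG F f hk1 ω i := by
  unfold GG
  exact Finset.measurable_fun_prod _ fun a _ => ((Blk.G_nice _ _ _ _).1).comp (measurable_pi_apply a)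

include hfm in
theorem E_GG (S : Finset ℕ) (hS : S.card < 2 * k) : ∫ ω, ∏ i ∈ S, GG F f hk1 ω i ∂F.P1 = 1 := by
  obtain ⟨K, hK⟩ : ∃ K, K = S.sup f := ⟨_, rfl⟩
  have hfK : ∀ i ∈ S, f i ≤ K := fun i hi => by rw [hK]; exact le_sup hi
  have e1 : ∀ ω : Fam.Om1, ∏ i ∈ S, GG F f hk1 ω i =
      ∏ a ∈ range K ×ˢ range (K + 1), (fun x => ∏ i ∈ S, Ga F f hk1 a i x) (ω a) := by
    intro ω
    simp only
    rw [Finset.prod_comm]
    refine prod_congr rfl fun i hi => ?_
    unfold GG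
    apply prod_subset
    · intro a ha
      rw [mem_product, mem_range, mem_range] at ha ⊢
      have := hfK i hi
      omega
    · intro a _ ha
      rw [mem_product, mem_range, mem_range] at ha
      exact Blk.G_empty _ _ _ _ (blk_empty F f hfm hk1 a.1 a.2 i (by omega)) _
  rw [integral_congr_ae (ae_of_all _ e1)]
  unfold Fam.P1
  rw [int_prod (fun a : ℕ × ℕ => blkL a.2 (F.Mf a.1 a.2)) (range K ×ˢ range (K + 1)) (fun a x => ∏ i ∈ S, Ga F f hk1 a i x)]
  · refine prod_eq_one fun a _ => ?_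
    exact Blk.key _ _ _ k (F.Mf_pos _ _) (fun i m _ => F.hk _ _) S hS
  · intro a _
    exact Finset.measurable_fun_prod _ fun i _ => (Blk.G_nice _ _ _ _).1

include hfm hft in
/-- **almost surely all but finitely many edges of each family contain a zero of the field** -/
theorem zeros (p : ℕ) : ∀ᵐ ω ∂F.P1, ∀ᶠ m in atTop, ∃ i ∈ F.T p m, GG F f hk1 ω i = 0 := by
  filter_upwards [F.modes p] with ω hω
  have h2 : Tendsto (fun m => f (F.al p m)) atTop atTop := hft.comp (F.al_tendsto hk1 p)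
  filter_upwards [h2.eventually hω, h2.eventually (eventually_gt_atTop p)] with m a1 a2
  obtain ⟨j, hj⟩ : ∃ j, j = f (F.al p m) := ⟨_, rfl⟩
  rw [← hj] at a1 a2
  have hmD : m ∈ (blk F f hk1 p j).D ((blk F f hk1 p j).al m) := by
    unfold blk
    rw [mem_filter]
    exact ⟨(F.hD p _ m).2 (F.al_mem hk1 p m), hj.symm, a2⟩
  obtain ⟨i, hi, hz⟩ := (blk F f hk1 p j).zero0 m hmD (ω (p, j)).2.1
  have hi' : i ∈ F.T p m := hi
  have hfi : f (F.al p m) ≤ f i := hfm (F.al_le p m i hi')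
  refine ⟨i, hi', ?_⟩
  unfold GG
  apply prod_eq_zero (i := (p, j))
  · rw [mem_product, mem_range, mem_range]
    simp only
    omega
  · unfold Ga Blk.G
    simp only
    rw [a1]
    simp only [Bool.false_eq_true, if_false]
    exact hz

end

/-- the path family -/
def path (b : ℕ → ℕ) (hb : ∀ m, 1 ≤ b m) (hm : Monotone b) : Fam 2 where
  T := fun _ m => {m, m + b m}
  D := fun _ i => (range (i + 1)).filter fun m => m = i ∨ m + b m = i
  d := fun _ => 2
  hk := by
    intro p m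
    have := hb m
    exact card_pair (by omega)
  hD := by
    intro p i m
    simp only [mem_filter, mem_range, mem_insert, mem_singleton]
    constructor
    · rintro ⟨_, h | h⟩
      · left; omega
      · right; omega
    · rintro (h | h)
      · exact ⟨by omega, Or.inl (by omega)⟩
      · exact ⟨by omega, Or.inr (by omega)⟩
  hd := by
    intro p i
    by_cases hex : ∃ m, m + b m = i
    · obtain ⟨m0, hm0⟩ := hex
      refine (card_le_card (t := {i, m0}) ?_).trans (card_le_two)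
      intro m hmm
      rw [mem_filter] at hmm
      rw [mem_insert, mem_singleton]
      rcases hmm.2 with h | h
      · left; exact h
      · right
        rcases lt_trichotomy m m0 with h1 | h1 | h1
        · have := hm h1.le; omega
        · exact h1
        · have := hm h1.le; omega
    · push Not at hex
      refine (card_le_card (t := {i}) ?_).trans (by simp)
      intro m hmm
      rw [mem_filter] at hmm
      rw [mem_singleton]
      rcases hmm.2 with h | h
      · exact h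
      · exact absurd h (hex m)

/-- **the field on the block starts** -/
theorem yfield (Kf : ℕ → ℝ) (h1 : ∀ i, 1 ≤ Kf i) (hm : Monotone Kf) (ht : Tendsto Kf atTop atTop)
    (b : ℕ → ℕ) (hb : ∀ m, 1 ≤ b m) (hbm : Monotone b) :
    ∃ (μ : Measure Fam.Om1) (Y : Fam.Om1 → ℕ → ℝ), IsProbabilityMeasure μ ∧ (∀ s, Measurable fun ω => Y ω s) ∧
      (∀ ω s, 0 ≤ Y ω s) ∧ (∀ ω s, Y ω s ≤ Kf s) ∧
      (∀ T : Finset ℕ, T.card < 4 → ∫ ω, ∏ s ∈ T, Y ω s ∂μ = 1) ∧
      ∀ᵐ ω ∂μ, ∀ᶠ s in atTop, Y ω s * Y ω (s + b s) = 0 := by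
  obtain ⟨F, hF⟩ : ∃ F, F = path b hb hbm := ⟨_, rfl⟩
  obtain ⟨f, hfm, hft, hf⟩ := slow F.Bd Kf (by simp [Fam.Bd]) h1 hm ht
  refine ⟨F.P1, GG F f (by norm_num), inferInstance, GG_meas F f _, GG_nonneg F f _, ?_, ?_, ?_⟩
  · intro ω s
    exact (GG_le F f _ ω s).trans (hf s)
  · intro T hT
    exact E_GG F f hfm (by norm_num) T (by omega)
  · filter_upwards [zeros F f hfm hft (by norm_num) 0] with ω hω
    filter_upwards [hω] with s hs
    obtain ⟨i, hi, hz⟩ := hs
    have hT : F.T 0 s = {s, s + b s} := by rw [hF]; rfl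
    rw [hT, mem_insert, mem_singleton] at hi
    rcases hi with rfl | rfl
    · rw [hz, zero_mul]
    · rw [hz, mul_zero]

end Pool.Agent.H49.SM
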