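import Pool.Agent.H49.D.IA

set_option autoImplicit false

/-! Small gaps in random sets of order three: the law of a block of positions. -/

namespace Pool.Agent.H49.SM

open Finset MeasureTheory Filter Topology
open scoped ENNReal
open Pool.Agent.H49.TW (int_prod)
open Pool.Agent.H49.PT

/-- uniform distribution on `{0, ..., 2 ^ a - 1}` -/
noncomputable def unif (a : ℕ) : Measure ℕ := ∑ k ∈ range (2 ^ a), ENNReal.ofReal (1 / 2 ^ a) • Measure.dirac k

instance (a : ℕ) : IsProbabilityMeasure (unif a) := by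
  constructor
  unfold unif
  simp only [Measure.coe_finsetSum, Measure.coe_smul, Finset.sum_apply, Pi.smul_apply, measure_univ, smul_eq_mul, mul_one,
    sum_const, card_range, nsmul_eq_mul]
  rw [← ENNReal.ofReal_natCast, ← ENNReal.ofReal_mul (by positivity)]
  push_cast
  rw [mul_one_div, div_self (by positivity), ENNReal.ofReal_one]

theorem int_unif (a : ℕ) (f : ℕ → ℝ) : ∫ k, f k ∂(unif a) = (∑ k ∈ range (2 ^ a), f k) / 2 ^ a := by
  unfold unif
  rw [integral_finsetSum_measure]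
  · simp only [integral_smul_measure, integral_dirac]
    rw [sum_div]
    refine sum_congr rfl fun k _ => ?_
    rw [ENNReal.toReal_ofReal (by positivity), smul_eq_mul]
    ring
  · intro k _
    exact (integrable_dirac (by simp)).smul_measure ENNReal.ofReal_ne_top

theorem niceC {α : Type*} [MeasurableSpace α] [Countable α] [MeasurableSingletonClass α] (f : α → ℝ) (C : ℝ)
    (h : ∀ x, |f x| ≤ C) : Nice f := ⟨measurable_of_countable f, C, h⟩

/-- the normalized indicator of a point -/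
noncomputable def d (a k v : ℕ) : ℝ := if v = k then 2 ^ a else 0

theorem d_nonneg (a k v : ℕ) : 0 ≤ d a k v := by
  unfold d
  split_ifs <;> positivity

theorem d_le (a k v : ℕ) : d a k v ≤ 2 ^ a := by
  unfold d
  split_ifs
  · exact le_rfl
  · positivity

theorem d_nice (a k : ℕ) : Nice (d a k) :=
  niceC _ (2 ^ a) fun v => by rw [abs_of_nonneg (d_nonneg a k v)]; exact d_le a k v

theorem int_d (a k : ℕ) (hk : k < 2 ^ a) : ∫ v, d a k v ∂(unif a) = 1 := by
  rw [int_unif]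
  unfold d
  rw [sum_ite_eq' (range (2 ^ a)) k (fun _ => (2 : ℝ) ^ a), if_pos (mem_range.2 hk), div_self (by positivity)]

theorem d_mul (a : ℕ) {k l : ℕ} (h : k ≠ l) (v : ℕ) : d a k v * d a l v = 0 := by
  unfold d
  by_cases h1 : v = k
  · rw [if_neg (fun h2 => h (h1.symm.trans h2)), mul_zero]
  · rw [if_neg h1, zero_mul]

/-- two points -/
noncomputable def dd (a k : ℕ) (v : ℕ × ℕ) : ℝ := d a k v.1 + d a k v.2

theorem dd_nonneg (a k : ℕ) (v : ℕ × ℕ) : 0 ≤ dd a k v := add_nonneg (d_nonneg _ _ _) (d_nonneg _ _ _)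

theorem dd_le (a k : ℕ) (v : ℕ × ℕ) : dd a k v ≤ 2 * 2 ^ a := by
  unfold dd
  linarith [d_le a k v.1, d_le a k v.2]

theorem int2 (a : ℕ) (f g : ℕ → ℝ) : ∫ v : ℕ × ℕ, f v.1 * g v.2 ∂((unif a).prod (unif a)) =
    (∫ v, f v ∂(unif a)) * ∫ v, g v ∂(unif a) := integral_prod_mul f g

/-- the moments of two points -/
theorem W1 (a k : ℕ) (hk : k < 2 ^ a) : ∫ v, dd a k v ∂((unif a).prod (unif a)) = 2 := by
  have h1 := int2 a (d a k) (fun _ => 1)
  have h2 := int2 a (fun _ => 1) (d a k)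
  simp only [mul_one, one_mul, integral_const, probReal_univ, smul_eq_mul] at h1 h2
  unfold dd
  rw [integral_add, h1, h2, int_d a k hk]
  · norm_num
  · exact ((d_nice a k).comp measurable_fst).int _
  · exact ((d_nice a k).comp measurable_snd).int _

theorem W2 (a k l : ℕ) (hk : k < 2 ^ a) (hl : l < 2 ^ a) (hkl : k ≠ l) :
    ∫ v, dd a k v * dd a l v ∂((unif a).prod (unif a)) = 2 := by
  have e : ∀ v : ℕ × ℕ, dd a k v * dd a l v = d a k v.1 * d a l v.2 + d a l v.1 * d a k v.2 := by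
    intro v
    unfold dd
    have h1 := d_mul a hkl v.1
    have h2 := d_mul a hkl v.2
    linear_combination h1 + h2
  rw [integral_congr_ae (ae_of_all _ e), integral_add, int2 a (d a k) (d a l), int2 a (d a l) (d a k), int_d a k hk, int_d a l hl]
  · norm_num
  · exact (((d_nice a k).comp measurable_fst).mul ((d_nice a l).comp measurable_snd)).int _
  · exact (((d_nice a l).comp measurable_fst).mul ((d_nice a k).comp measurable_snd)).int _

theorem W3 (a : ℕ) {k l m : ℕ} (h1 : k ≠ l) (h2 : k ≠ m) (h3 : l ≠ m) (v : ℕ × ℕ) :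
    dd a k v * dd a l v * dd a m v = 0 := by
  unfold dd
  have a1 := d_mul a h1 v.1
  have a2 := d_mul a h1 v.2
  have b1 := d_mul a h2 v.1
  have b2 := d_mul a h2 v.2
  have c1 := d_mul a h3 v.1
  have c2 := d_mul a h3 v.2
  linear_combination (d a m v.1 + d a m v.2) * a1 + (d a m v.1 + d a m v.2) * a2 + (d a l v.2) * b1 + (d a l v.1) * b2 +
    (d a k v.2) * c1 + (d a k v.1) * c2

/-- the randomness of a block of positions -/
abbrev B1 := (Bool × Bool × Bool) × (ℕ × ℕ)

noncomputable def law3 (j : ℕ) : Measure (Bool × Bool × Bool) := (bern (2 ^ j - 1)).prod ((bern (2 ^ j - 1)).prod (bern 1))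

instance (j : ℕ) : IsProbabilityMeasure (law3 j) := by
  unfold law3
  infer_instance

noncomputable def law1 (a j : ℕ) : Measure B1 := (law3 j).prod ((unif a).prod (unif a))

instance (a j : ℕ) : IsProbabilityMeasure (law1 a j) := by
  unfold law1
  infer_instance

def t1 (c : Bool) : ℝ := if c then 1 else 0

def t0 (c : Bool) : ℝ := if c then 0 else 1

noncomputable def cA (x : Bool × Bool × Bool) : ℝ := t1 x.1 * t1 x.2.1

noncomputable def cB (x : Bool × Bool × Bool) : ℝ := t1 x.1 * (t0 x.2.1 * t1 x.2.2)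

theorem int_cA (j : ℕ) : ∫ x, cA x ∂(law3 j) = 1 / 2 ^ j * (1 / 2 ^ j) := by
  have e : ∀ x, cA x = t1 x.1 * (t1 x.2.1 * (fun _ : Bool => (1 : ℝ)) x.2.2) := by
    intro x
    simp [cA]
  rw [integral_congr_ae (ae_of_all _ e)]
  unfold law3
  have h1 : ∫ b : Bool, (fun _ : Bool => (1 : ℝ)) b ∂(bern 1) = 1 := by
    simp only [integral_const, probReal_univ, smul_eq_mul, mul_one]
  rw [integral_prod_mul t1 (fun y : Bool × Bool => t1 y.1 * (fun _ : Bool => (1 : ℝ)) y.2),
    integral_prod_mul t1 (fun _ : Bool => (1 : ℝ)), h1, int_bern, cast_pow]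
  simp [t1]

theorem int_cB (j : ℕ) : ∫ x, cB x ∂(law3 j) = 1 / 2 ^ j * ((2 ^ j - 1) / 2 ^ j * (1 / 2)) := by
  unfold cB law3
  rw [integral_prod_mul t1 (fun y : Bool × Bool => t0 y.1 * t1 y.2), integral_prod_mul t0 t1, int_bern, int_bern, int_bern,
    cast_pow]
  have hc : ((2 ^ j - 1 : ℕ) : ℝ) = 2 ^ j - 1 := by linarith [cast_pow j]
  rw [hc]
  simp [t1, t0]
  norm_num

theorem cA_bd (x : Bool × Bool × Bool) : |cA x| ≤ 1 := by
  obtain ⟨x1, x2, x3⟩ := x
  unfold cA t1
  cases x1 <;> cases x2 <;> simp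

theorem cB_bd (x : Bool × Bool × Bool) : |cB x| ≤ 1 := by
  obtain ⟨x1, x2, x3⟩ := x
  unfold cB t1 t0
  cases x1 <;> cases x2 <;> cases x3 <;> simp

/-- mode one: a point -/
noncomputable def X1 (a k : ℕ) (x : B1) : ℝ := d a k x.2.1

/-- mode two: rarely a constant or two points -/
noncomputable def X2 (a j k : ℕ) (x : B1) : ℝ := cA x.1 * 2 ^ j + cB x.1 * (2 ^ j * dd a k x.2)

theorem X1_nice (a k : ℕ) : Nice (X1 a k) := (d_nice a k).comp (measurable_fst.comp measurable_snd)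

theorem X2_bd (a j k : ℕ) (x : B1) : 0 ≤ X2 a j k x ∧ X2 a j k x ≤ 2 ^ j * (2 * 2 ^ a) := by
  obtain ⟨⟨x1, x2, x3⟩, v⟩ := x
  have h1 := dd_nonneg a k v
  have h2 := dd_le a k v
  have h3 : (1 : ℝ) ≤ 2 ^ a := one_le_pow₀ (by norm_num)
  have h4 : (0 : ℝ) < 2 ^ j := by positivity
  have h5 : (2 : ℝ) ^ j ≤ 2 ^ j * (2 * 2 ^ a) := by nlinarith
  have h6 : 0 ≤ (2 : ℝ) ^ j * dd a k v := mul_nonneg h4.le h1
  have h7 : (2 : ℝ) ^ j * dd a k v ≤ 2 ^ j * (2 * 2 ^ a) := mul_le_mul_of_nonneg_left h2 h4.le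
  have h8 : (0 : ℝ) ≤ 2 ^ j * (2 * 2 ^ a) := by positivity
  unfold X2 cA cB t1 t0
  cases x1 <;> cases x2 <;> cases x3 <;>
    simp only [Bool.false_eq_true, if_false, if_true, mul_zero, zero_mul, mul_one, one_mul, add_zero, zero_add] <;>
    constructor <;> linarith

theorem X2_nice (a j k : ℕ) : Nice (X2 a j k) :=
  niceC _ (2 ^ j * (2 * 2 ^ a)) fun x => by rw [abs_of_nonneg (X2_bd a j k x).1]; exact (X2_bd a j k x).2

theorem dd_nice (a k : ℕ) : Nice (dd a k) :=
  niceC _ (2 * 2 ^ a) fun x => by rw [abs_of_nonneg (dd_nonneg a k x)]; exact dd_le a k x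

/-- **mode one** -/
theorem E1 (a j : ℕ) (S : Finset ℕ) (hS : ∀ k ∈ S, k < 2 ^ a) :
    ∫ x, ∏ k ∈ S, X1 a k x ∂(law1 a j) = if S.card ≤ 1 then 1 else 0 := by
  by_cases h : S.card ≤ 1
  · rw [if_pos h]
    rcases Nat.lt_or_ge S.card 1 with h1 | h1
    · rw [Nat.lt_one_iff, card_eq_zero] at h1
      rw [h1]
      simp
    · obtain ⟨k, rfl⟩ := card_eq_one.1 (le_antisymm h h1)
      simp only [prod_singleton]
      have h2 := integral_prod_mul (μ := law3 j) (ν := (unif a).prod (unif a)) (fun _ => (1 : ℝ))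
        (fun v : ℕ × ℕ => d a k v.1 * (fun _ : ℕ => (1 : ℝ)) v.2)
      simp only [one_mul, integral_const, probReal_univ, smul_eq_mul, mul_one] at h2
      have h3 := int2 a (d a k) (fun _ => 1)
      simp only [mul_one, integral_const, probReal_univ, smul_eq_mul] at h3
      unfold law1 X1
      rw [h2, h3, int_d a k (hS k (mem_singleton_self k))]
  · rw [if_neg h]
    push Not at h
    obtain ⟨k, hk, l, hl, hkl⟩ := one_lt_card.1 h
    have h1 : ∀ x : B1, ∏ i ∈ S, X1 a i x = 0 := by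
      intro x
      rw [← mul_prod_erase S _ hk, ← mul_prod_erase (S.erase k) _ (mem_erase.2 ⟨hkl.symm, hl⟩), ← mul_assoc]
      unfold X1
      rw [d_mul a hkl, zero_mul]
    simp_rw [h1]
    simp

theorem E2aux (a j m : ℕ) (g : ℕ × ℕ → ℝ) (hg : Nice g) (w : ℝ) (hw : ∫ v, g v ∂((unif a).prod (unif a)) = w) :
    ∫ x : B1, (cA x.1 * (2 ^ j) ^ m + cB x.1 * ((2 ^ j) ^ m * g x.2)) ∂(law1 a j) =
      1 / 2 ^ j * (1 / 2 ^ j) * (2 ^ j) ^ m + 1 / 2 ^ j * ((2 ^ j - 1) / 2 ^ j * (1 / 2)) * ((2 ^ j) ^ m * w) := by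
  have nA : Nice cA := niceC _ 1 cA_bd
  have nB : Nice cB := niceC _ 1 cB_bd
  unfold law1
  rw [integral_add]
  · rw [integral_mul_const]
    have h1 := integral_prod_mul (μ := law3 j) (ν := (unif a).prod (unif a)) cA (fun _ => (1 : ℝ))
    simp only [mul_one, integral_const, probReal_univ, smul_eq_mul] at h1
    rw [h1, int_cA, integral_prod_mul (μ := law3 j) (ν := (unif a).prod (unif a)) cB (fun v => (2 ^ j) ^ m * g v), int_cB,
      integral_const_mul, hw]
  · exact ((nA.comp measurable_fst).mul (Nice.const _)).int _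
  · exact ((nB.comp measurable_fst).mul (((Nice.const _).mul hg).comp measurable_snd)).int _

theorem ab_prod {ι : Type*} (S : Finset ι) (hS : S.Nonempty) (x : Bool × Bool × Bool) (R : ℝ) (g : ι → ℝ) :
    ∏ k ∈ S, (cA x * R + cB x * (R * g k)) = cA x * R ^ S.card + cB x * (R ^ S.card * ∏ k ∈ S, g k) := by
  obtain ⟨x1, x2, x3⟩ := x
  have hc : S.card ≠ 0 := (card_pos.2 hS).ne'
  unfold cA cB t1 t0
  cases x1 <;> cases x2 <;> cases x3 <;>
    simp only [Bool.false_eq_true, if_false, if_true, mul_zero, zero_mul, mul_one, one_mul, add_zero, zero_add] <;>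
    first
    | (rw [prod_const, zero_pow hc])
    | (rw [prod_mul_distrib, prod_const])
    | (rw [prod_const])

/-- **mode two** -/
theorem E2 (a j : ℕ) (S : Finset ℕ) (hS : ∀ k ∈ S, k < 2 ^ a) (hc : S.card < 4) :
    ∫ x, ∏ k ∈ S, X2 a j k x ∂(law1 a j) = if S.card ≤ 1 then 1 else 2 ^ j := by
  rcases Nat.eq_zero_or_pos S.card with h0 | h0
  · rw [if_pos (by omega)]
    rw [card_eq_zero] at h0
    rw [h0]
    simp
  have hne : S.Nonempty := card_pos.1 h0
  have hR : (0 : ℝ) < 2 ^ j := by positivity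
  have e : ∀ x : B1, ∏ k ∈ S, X2 a j k x = cA x.1 * (2 ^ j) ^ S.card + cB x.1 * ((2 ^ j) ^ S.card * ∏ k ∈ S, dd a k x.2) := by
    intro x
    unfold X2
    exact ab_prod S hne x.1 (2 ^ j) (fun k => dd a k x.2)
  rw [integral_congr_ae (ae_of_all _ e)]
  have hn : Nice fun v : ℕ × ℕ => ∏ k ∈ S, dd a k v := Nice.prod _ fun k _ => dd_nice a k
  obtain ⟨w, hw⟩ : ∃ w, w = ∫ v : ℕ × ℕ, ∏ k ∈ S, dd a k v ∂((unif a).prod (unif a)) := ⟨_, rfl⟩
  rw [E2aux a j S.card (fun v => ∏ k ∈ S, dd a k v) hn w hw.symm]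
  have h123 : S.card = 1 ∨ S.card = 2 ∨ S.card = 3 := by omega
  rcases h123 with h | h | h
  · obtain ⟨k, rfl⟩ := card_eq_one.1 h
    simp only [prod_singleton] at hw
    rw [W1 a k (hS k (mem_singleton_self k))] at hw
    rw [hw, h, if_pos le_rfl]
    field_simp
    ring
  · obtain ⟨k, l, hkl, rfl⟩ := card_eq_two.1 h
    simp_rw [prod_pair hkl] at hw
    rw [W2 a k l (hS k (by simp)) (hS l (by simp)) hkl] at hw
    rw [hw, h, if_neg (by norm_num)]
    field_simp
    ring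
  · obtain ⟨k, l, m, h1, h2, h3, rfl⟩ := card_eq_three.1 h
    have e3 : ∀ v : ℕ × ℕ, ∏ i ∈ ({k, l, m} : Finset ℕ), dd a i v = 0 := by
      intro v
      rw [prod_insert (by simp [h1, h2]), prod_pair h3, ← mul_assoc]
      exact W3 a h1 h2 h3 v
    simp_rw [e3] at hw
    rw [integral_zero] at hw
    rw [hw, h, if_neg (by norm_num)]
    field_simp
    ring

end Pool.Agent.H49.SM
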