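import Pool.Agent.H49.D.IB

set_option autoImplicit false

/-! Small gaps in random sets of order three: blocks and levels. -/

namespace Pool.Agent.H49.SM

open Finset MeasureTheory Filter Topology

/-- the scale of an integer -/
def vv (i : ℕ) : ℕ := Nat.log 2 (Nat.log 2 i)

theorem vv_mono : Monotone vv := fun _ _ h => Nat.log_mono_right (Nat.log_mono_right h)

theorem vv_tendsto : Tendsto vv atTop atTop := by
  rw [tendsto_atTop]
  intro V
  filter_upwards [eventually_ge_atTop (2 ^ 2 ^ V)] with i hi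
  have h1 := vv_mono hi
  have h2 : vv (2 ^ 2 ^ V) = V := by
    unfold vv
    rw [Nat.log_pow (by norm_num), Nat.log_pow (by norm_num)]
  omega

theorem vv_pow (V : ℕ) : vv (2 ^ 2 ^ V) = V := by
  unfold vv
  rw [Nat.log_pow (by norm_num), Nat.log_pow (by norm_num)]

theorem vv_low {i : ℕ} (hi : 2 ≤ i) : 2 ^ 2 ^ vv i ≤ i := by
  have h1 : Nat.log 2 i ≠ 0 := (Nat.log_pos (by norm_num) hi).ne'
  have h2 : 2 ^ vv i ≤ Nat.log 2 i := Nat.pow_log_le_self 2 h1
  exact (Nat.pow_le_pow_right (by norm_num) h2).trans (Nat.pow_log_le_self 2 (by omega))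

theorem vv_high (i : ℕ) : i < 2 ^ 2 ^ (vv i + 1) := by
  by_contra hc
  push Not at hc
  have h1 := vv_mono hc
  rw [vv_pow] at h1
  omega

theorem vv_le {i w : ℕ} (h : i < 2 ^ 2 ^ (w + 1)) : vv i ≤ w := by
  by_contra hc
  push Not at hc
  have h2 : 2 ≤ i := by
    by_contra h3
    have h4 : vv i ≤ vv 1 := vv_mono (by omega)
    have h5 : vv 1 = 0 := by simp [vv]
    omega
  have h1 := vv_low h2
  have h3 : 2 ^ 2 ^ (w + 1) ≤ 2 ^ 2 ^ vv i :=
    Nat.pow_le_pow_right (by norm_num) (Nat.pow_le_pow_right (by norm_num) hc)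
  omega

/-- slowly increasing levels -/
structure Lev where
  J : ℕ → ℕ
  mono : Monotone J
  step : ∀ v, J (v + 1) ≤ J v + 1
  low : ∀ v, J v = 0 ∨ J v + 4 ≤ v

namespace Lev

variable (L : Lev)

/-- the exponent of the block length -/
def a (v : ℕ) : ℕ := if L.J v = 0 then 0 else v - 3 - L.J v

theorem a_le (v : ℕ) : L.a v ≤ v := by
  unfold a
  split_ifs <;> omega

theorem a_mono : Monotone L.a := by
  refine monotone_nat_of_le_succ fun v => ?_
  have h1 := L.step v
  have h2 := L.mono (Nat.le_succ v)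
  have h3 := L.low v
  have h4 := L.low (v + 1)
  have h2' : L.J v ≤ L.J (v + 1) := h2
  unfold a
  split_ifs <;> omega

/-- the block length -/
def b (i : ℕ) : ℕ := 2 ^ L.a (vv i)

theorem b_pos (i : ℕ) : 1 ≤ L.b i := Nat.one_le_two_pow

theorem b_mono : Monotone L.b := fun _ _ h => Nat.pow_le_pow_right (by norm_num) (L.a_mono (vv_mono h))

/-- the start of the block -/
def st (i : ℕ) : ℕ := L.b i * (i / L.b i)

theorem st_le (i : ℕ) : L.st i ≤ i := Nat.mul_div_le i _

theorem lt_st (i : ℕ) : i < L.st i + L.b i := by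
  have h1 := Nat.div_add_mod i (L.b i)
  have h2 := Nat.mod_lt i (L.b_pos i)
  unfold st
  omega

theorem b_dvd (v w : ℕ) (h : v ≤ w) : 2 ^ L.a v ∣ 2 ^ 2 ^ w := by
  apply pow_dvd_pow
  have h1 := L.a_le v
  have h2 : w < 2 ^ w := Nat.lt_two_pow_self
  omega

theorem vv_st (i : ℕ) : vv (L.st i) = vv i := by
  apply le_antisymm (vv_mono (L.st_le i))
  rcases Nat.lt_or_ge i 2 with h | h
  · have h1 : vv i = 0 := by
      have h2 : vv i ≤ vv 1 := vv_mono (by omega)
      have h3 : vv 1 = 0 := by simp [vv]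
      omega
    omega
  · have h1 := vv_low h
    obtain ⟨c, hc⟩ := L.b_dvd (vv i) (vv i) le_rfl
    have h2 : 2 ^ 2 ^ vv i ≤ L.st i := by
      unfold st b
      rw [hc] at h1 ⊢
      exact Nat.mul_le_mul_left _ ((Nat.le_div_iff_mul_le (by positivity)).2 (by rw [mul_comm]; exact h1))
    calc vv i = vv (2 ^ 2 ^ vv i) := (vv_pow _).symm
      _ ≤ vv (L.st i) := vv_mono h2

theorem b_st (i : ℕ) : L.b (L.st i) = L.b i := by
  unfold b
  rw [L.vv_st]

/-- block starts -/
def IsSt (s : ℕ) : Prop := L.b s ∣ s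

theorem isSt_st (i : ℕ) : L.IsSt (L.st i) := by
  unfold IsSt
  rw [L.b_st]
  exact Dvd.intro _ rfl

theorem end_le {s : ℕ} (hs : L.IsSt s) : s + L.b s ≤ 2 ^ 2 ^ (vv s + 1) := by
  have h1 := vv_high s
  obtain ⟨c, hc⟩ := hs
  obtain ⟨e, he⟩ := L.b_dvd (vv s) (vv s + 1) (Nat.le_succ _)
  change 2 ^ 2 ^ (vv s + 1) = L.b s * e at he
  rw [he] at h1 ⊢
  have h2 : c < e := by
    by_contra h3
    push Not at h3
    have h4 : L.b s * e ≤ L.b s * c := Nat.mul_le_mul_left _ h3
    omega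
  calc s + L.b s = L.b s * c + L.b s := by omega
    _ = L.b s * (c + 1) := by ring
    _ ≤ L.b s * e := Nat.mul_le_mul_left _ h2

theorem vv_eq {s m : ℕ} (hs : L.IsSt s) (h1 : s ≤ m) (h2 : m < s + L.b s) : vv m = vv s :=
  le_antisymm (vv_le (lt_of_lt_of_le h2 (L.end_le hs))) (vv_mono h1)

theorem st_eq {s m : ℕ} (hs : L.IsSt s) (h1 : s ≤ m) (h2 : m < s + L.b s) : L.st m = s := by
  have h3 := L.vv_eq hs h1 h2
  have h4 : L.b m = L.b s := by
    unfold b
    rw [h3]
  unfold st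
  rw [h4]
  obtain ⟨c, hc⟩ := hs
  have h5 : m / L.b s = c := by
    rw [Nat.div_eq_iff (L.b_pos s)]
    constructor
    · calc c * L.b s = s := by rw [mul_comm]; omega
        _ ≤ m := h1
    · have e : c * L.b s = s := by rw [mul_comm]; omega
      have := L.b_pos s
      omega
  rw [h5]
  omega

theorem isSt_next {s : ℕ} (hs : L.IsSt s) : L.IsSt (s + L.b s) := by
  rcases Nat.lt_or_ge (s + L.b s) (2 ^ 2 ^ (vv s + 1)) with h | h
  · have h1 : vv (s + L.b s) = vv s := le_antisymm (vv_le h) (vv_mono (Nat.le_add_right _ _))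
    unfold IsSt
    have h2 : L.b (s + L.b s) = L.b s := by
      unfold b at h1 ⊢
      rw [h1]
    rw [h2]
    exact Dvd.dvd.add hs dvd_rfl
  · have h1 : s + L.b s = 2 ^ 2 ^ (vv s + 1) := le_antisymm (L.end_le hs) h
    unfold IsSt
    rw [h1]
    unfold b
    rw [vv_pow]
    exact L.b_dvd _ _ le_rfl

/-- two integers at distance at most the block length are in the same block or in adjacent blocks -/
theorem close {m m' : ℕ} (h1 : m < m') (h2 : m' ≤ m + L.b m) :
    L.st m' = L.st m ∨ L.st m' = L.st m + L.b (L.st m) := by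
  have hs := L.isSt_st m
  have h3 := L.lt_st m
  have h4 := L.st_le m
  have h5 := L.b_st m
  rcases Nat.lt_or_ge m' (L.st m + L.b m) with h | h
  · left
    exact L.st_eq hs (by omega) (by omega)
  · right
    have h6 : L.b (L.st m) ≤ L.b (L.st m + L.b (L.st m)) := L.b_mono (Nat.le_add_right _ _)
    exact L.st_eq (L.isSt_next hs) (by omega) (by omega)

/-- the size of the logarithm -/
theorem log_ge {i : ℕ} (hi : 2 ≤ i) : (2 : ℝ) ^ vv i ≤ 2 * Real.log i := by
  have h1 : ((2 : ℝ) ^ 2 ^ vv i) ≤ i := by exact_mod_cast vv_low hi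
  have h2 := Real.log_le_log (by positivity) h1
  rw [Real.log_pow] at h2
  push_cast at h2
  have h3 := Real.log_two_gt_d9
  have h4 : (0 : ℝ) < 2 ^ vv i := by positivity
  nlinarith

theorem log_le {i : ℕ} (hi : 1 ≤ i) : Real.log i ≤ 2 ^ (vv i + 1) := by
  have h1 : (i : ℝ) ≤ (2 : ℝ) ^ 2 ^ (vv i + 1) := by exact_mod_cast (vv_high i).le
  have h2 := Real.log_le_log (by exact_mod_cast hi) h1
  rw [Real.log_pow] at h2
  push_cast at h2
  have h3 := Real.log_two_lt_d9
  have h4 : (0 : ℝ) < 2 ^ (vv i + 1) := by positivity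
  nlinarith

/-- the bound for the fields -/
theorem bound {i : ℕ} (hi : 2 ≤ i) (hJ : L.J (vv i) ≠ 0) :
    (2 : ℝ) ^ L.J (vv i) * (2 * 2 ^ L.a (vv i)) ≤ Real.log i := by
  have h1 := log_ge hi
  have h2 := (L.low (vv i)).resolve_left hJ
  have h3 : L.a (vv i) = vv i - 3 - L.J (vv i) := by
    unfold a
    rw [if_neg hJ]
  have h4 : vv i = L.J (vv i) + L.a (vv i) + 3 := by omega
  have h5 : (2 : ℝ) ^ vv i = 2 ^ L.J (vv i) * 2 ^ L.a (vv i) * 8 := by
    conv_lhs => rw [h4]
    rw [pow_add, pow_add]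
    norm_num
  rw [h5] at h1
  have h6 : (0 : ℝ) < 2 ^ L.J (vv i) * 2 ^ L.a (vv i) := by positivity
  nlinarith

end Lev

/-- **levels below a given function** -/
theorem exists_lev (g : ℕ → ℝ) (hg : Tendsto (fun m : ℕ => g m / Real.log m) atTop (𝓝 0)) :
    ∃ L : Lev, Tendsto L.J atTop atTop ∧ ∀ᶠ m : ℕ in atTop, g m ≤ L.b m := by
  classical
  obtain ⟨P, hP⟩ : ∃ P : ℕ → ℕ → Prop, P = fun v j => j + 4 ≤ v ∧ ∀ i : ℕ, v ≤ vv i → g i * 2 ^ (j + 3) ≤ 2 ^ vv i := ⟨_, rfl⟩
  have hP1 : ∀ v w j, v ≤ w → P v j → P w j := by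
    intro v w j hvw h
    rw [hP] at h ⊢
    exact ⟨by omega, fun i hi => h.2 i (hvw.trans hi)⟩
  have hP2 : ∀ j, ∃ v, P v j := by
    intro j
    have h1 : ∀ᶠ m : ℕ in atTop, g m / Real.log m < 1 / 2 ^ (j + 4) :=
      hg.eventually (gt_mem_nhds (by positivity))
    obtain ⟨N, hN⟩ := eventually_atTop.1 h1
    refine ⟨max (j + 4) (N + 1), ?_⟩
    rw [hP]
    refine ⟨le_max_left _ _, fun i hi => ?_⟩
    have h2 : N + 1 ≤ vv i := (le_max_right _ _).trans hi
    have h3 : vv i ≤ i := (Nat.log_le_self _ _).trans (Nat.log_le_self _ _)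
    have h4 := hN i (by omega)
    have hi1 : 1 ≤ i := by omega
    have hi2 : 2 ≤ i := by
      by_contra hc
      have h5 : vv i ≤ vv 1 := vv_mono (by omega)
      have h6 : vv 1 = 0 := by simp [vv]
      omega
    have hl : 0 < Real.log i := Real.log_pos (by exact_mod_cast hi2)
    rw [div_lt_div_iff₀ hl (by positivity), one_mul] at h4
    have h5 := Lev.log_le hi1
    have e1 : (2 : ℝ) ^ (j + 4) = 2 ^ (j + 3) * 2 := by ring
    have e2 : (2 : ℝ) ^ (vv i + 1) = 2 ^ vv i * 2 := by ring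
    rw [e1] at h4
    rw [e2] at h5
    linarith
  obtain ⟨J, hJ0, hJ⟩ : ∃ J : ℕ → ℕ, J 0 = 0 ∧ ∀ v, J (v + 1) = if P (v + 1) (J v + 1) then J v + 1 else J v :=
    ⟨fun v => Nat.rec 0 (fun v r => if P (v + 1) (r + 1) then r + 1 else r) v, rfl, fun v => rfl⟩
  have hmono : Monotone J := by
    refine monotone_nat_of_le_succ fun v => ?_
    rw [hJ]
    split_ifs <;> omega
  have hstep : ∀ v, J (v + 1) ≤ J v + 1 := by
    intro v
    rw [hJ]
    split_ifs <;> omega
  have hPJ : ∀ v, J v = 0 ∨ P v (J v) := by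
    intro v
    induction v with
    | zero => left; exact hJ0
    | succ v ih =>
      rw [hJ]
      split_ifs with h
      · right; exact h
      · rcases ih with h1 | h1
        · left; exact h1
        · right; exact hP1 v (v + 1) _ (Nat.le_succ v) h1
  have hlow : ∀ v, J v = 0 ∨ J v + 4 ≤ v := by
    intro v
    rcases hPJ v with h | h
    · left; exact h
    · right
      rw [hP] at h
      exact h.1
  have hun : ∀ K, ∃ v, K ≤ J v := by
    intro K
    induction K with
    | zero => exact ⟨0, Nat.zero_le _⟩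
    | succ K ih =>
      obtain ⟨v, hv⟩ := ih
      by_contra hc
      push Not at hc
      obtain ⟨w, hw⟩ := hP2 (K + 1)
      have h1 : ∀ u, v ≤ u → J u = K := by
        intro u hu
        have h2 := hmono hu
        have h3 := hc u
        omega
      have h2 := hJ (max v w)
      rw [h1 (max v w) (le_max_left _ _), h1 (max v w + 1) ((le_max_left _ _).trans (Nat.le_succ _)),
        if_pos (hP1 w _ _ ((le_max_right v w).trans (Nat.le_succ _)) hw)] at h2
      omega
  refine ⟨⟨J, hmono, hstep, hlow⟩, tendsto_atTop_atTop_of_monotone hmono hun, ?_⟩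
  obtain ⟨v1, hv1⟩ := hun 1
  filter_upwards [vv_tendsto.eventually (eventually_ge_atTop v1)] with m hm
  have h1 : 1 ≤ J (vv m) := hv1.trans (hmono hm)
  have h2 := (hPJ (vv m)).resolve_left (by omega)
  rw [hP] at h2
  obtain ⟨h3, h4⟩ := h2
  have h5 := h4 m le_rfl
  have h6 : vv m = (vv m - 3 - J (vv m)) + (J (vv m) + 3) := by omega
  have h7 : (2 : ℝ) ^ vv m = 2 ^ (vv m - 3 - J (vv m)) * 2 ^ (J (vv m) + 3) := by
    conv_lhs => rw [h6]
    rw [pow_add]
  have h8 : ((Lev.b ⟨J, hmono, hstep, hlow⟩ m : ℕ) : ℝ) = 2 ^ (vv m - 3 - J (vv m)) := by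
    unfold Lev.b Lev.a
    simp only
    rw [if_neg (by omega)]
    push_cast
    rfl
  rw [h8]
  rw [h7] at h5
  exact le_of_mul_le_mul_right h5 (by positivity)

end Pool.Agent.H49.SM
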