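import Pool.Agent.H49.D.IC

set_option autoImplicit false

/-! Small gaps in random sets of order three: the random field. -/

namespace Pool.Agent.H49.SM

open Finset MeasureTheory Filter Topology
open scoped ENNReal
open Pool.Agent.H49.TW (int_prod)
open Pool.Agent.H49.PT

namespace Lev

variable (L : Lev)

/-- position inside the block -/
def off (i : ℕ) : ℕ := i - L.st i

theorem off_lt (i : ℕ) : L.off i < 2 ^ L.a (vv i) := by
  have h1 := L.lt_st i
  have h2 := L.st_le i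
  unfold off
  unfold b at h1
  omega

theorem off_inj {i k : ℕ} (h1 : L.st i = L.st k) (h2 : L.off i = L.off k) : i = k := by
  have a1 := L.st_le i
  have a2 := L.st_le k
  unfold off at h2
  omega

variable {Ω0 : Type} (Yf : Ω0 → ℕ → ℝ)

/-- the field at `i` as a function of the mode bits, the field on the block starts and the randomness of the block -/
noncomputable def H (i : ℕ) (z : ℕ → Bool) (y : Ω0) (x : B1) : ℝ :=
  if L.J (vv i) = 0 then 1 else
    if z (L.J (vv i)) then X2 (L.a (vv i)) (L.J (vv i)) (L.off i) x else X1 (L.a (vv i)) (L.off i) x * Yf y (L.st i)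

/-- the field -/
noncomputable def G (ω : (ℕ → Bool) × (Ω0 × (ℕ → B1))) (i : ℕ) : ℝ := L.H Yf i ω.1 ω.2.1 (ω.2.2 (L.st i))

noncomputable def PZ : Measure (ℕ → Bool) := Measure.infinitePi fun j => bern (2 ^ j - 1)

instance : IsProbabilityMeasure PZ := by
  unfold PZ
  infer_instance

noncomputable def PX : Measure (ℕ → B1) := Measure.infinitePi fun s => law1 (L.a (vv s)) (L.J (vv s))

instance : IsProbabilityMeasure L.PX := by
  unfold PX
  infer_instance

theorem G_bd (h0 : ∀ ω s, 0 ≤ Yf ω s) (h1 : ∀ ω s, Yf ω s ≤ 2 ^ L.J (vv s)) (ω : (ℕ → Bool) × (Ω0 × (ℕ → B1))) (i : ℕ) :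
    0 ≤ L.G Yf ω i ∧ L.G Yf ω i ≤ 2 ^ L.J (vv i) * (2 * 2 ^ L.a (vv i)) := by
  have h3 : (1 : ℝ) ≤ 2 ^ L.J (vv i) := one_le_pow₀ (by norm_num)
  have h4 : (1 : ℝ) ≤ 2 ^ L.a (vv i) := one_le_pow₀ (by norm_num)
  unfold G H
  split_ifs
  · constructor
    · norm_num
    · nlinarith
  · exact X2_bd _ _ _ _
  · have h5 := h0 ω.2.1 (L.st i)
    have h6 := h1 ω.2.1 (L.st i)
    rw [L.vv_st] at h6
    have h7 : 0 ≤ X1 (L.a (vv i)) (L.off i) (ω.2.2 (L.st i)) := d_nonneg _ _ _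
    have h8 : X1 (L.a (vv i)) (L.off i) (ω.2.2 (L.st i)) ≤ 2 ^ L.a (vv i) := d_le _ _ _
    refine ⟨mul_nonneg h7 h5, ?_⟩
    calc X1 (L.a (vv i)) (L.off i) (ω.2.2 (L.st i)) * Yf ω.2.1 (L.st i) ≤ 2 ^ L.a (vv i) * 2 ^ L.J (vv i) :=
          mul_le_mul h8 h6 h5 (by positivity)
      _ ≤ 2 ^ L.J (vv i) * (2 * 2 ^ L.a (vv i)) := by nlinarith [mul_nonneg (zero_le_one.trans h3) (zero_le_one.trans h4)]

theorem G_le (h0 : ∀ ω s, 0 ≤ Yf ω s) (h1 : ∀ ω s, Yf ω s ≤ 2 ^ L.J (vv s)) (ω : (ℕ → Bool) × (Ω0 × (ℕ → B1))) (i : ℕ)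
    (hi : 3 ≤ i) : L.G Yf ω i ≤ Real.log i := by
  by_cases hJ : L.J (vv i) = 0
  · unfold G H
    rw [if_pos hJ, Real.le_log_iff_exp_le (by exact_mod_cast (by omega : 0 < i))]
    have : (3 : ℝ) ≤ i := by exact_mod_cast hi
    linarith [Real.exp_one_lt_three]
  · exact (L.G_bd Yf h0 h1 ω i).2.trans (L.bound (by omega) hJ)

variable [MeasurableSpace Ω0]

theorem G_meas (hY : ∀ s, Measurable fun ω => Yf ω s) (i : ℕ) : Measurable fun ω => L.G Yf ω i := by
  unfold G H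
  split_ifs
  · exact measurable_const
  · have hx : Measurable fun ω : (ℕ → Bool) × (Ω0 × (ℕ → B1)) => ω.2.2 (L.st i) :=
      (measurable_pi_apply (L.st i)).comp (measurable_snd.comp measurable_snd)
    have hz : Measurable fun ω : (ℕ → Bool) × (Ω0 × (ℕ → B1)) => ω.1 (L.J (vv i)) :=
      (measurable_pi_apply (L.J (vv i))).comp measurable_fst
    refine Measurable.ite (hz (measurableSet_singleton true)) ((X2_nice _ _ _).1.comp hx) ?_
    exact ((X1_nice _ _).1.comp hx).mul ((hY (L.st i)).comp (measurable_fst.comp measurable_snd))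

theorem G_nice (hY : ∀ s, Measurable fun ω => Yf ω s) (h0 : ∀ ω s, 0 ≤ Yf ω s) (h1 : ∀ ω s, Yf ω s ≤ 2 ^ L.J (vv s)) (i : ℕ) :
    Nice fun ω => L.G Yf ω i := by
  refine ⟨L.G_meas Yf hY i, 2 ^ L.J (vv i) * (2 * 2 ^ L.a (vv i)), fun ω => ?_⟩
  rw [abs_of_nonneg (L.G_bd Yf h0 h1 ω i).1]
  exact (L.G_bd Yf h0 h1 ω i).2

/-- the integral over one block -/
theorem block (s : ℕ) (Ss : Finset ℕ) (hst : ∀ i ∈ Ss, L.st i = s) (hc : Ss.card < 4) (z : ℕ → Bool) (y : Ω0) :
    ∫ x, ∏ i ∈ Ss, L.H Yf i z y x ∂(law1 (L.a (vv s)) (L.J (vv s))) =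
      if L.J (vv s) = 0 then 1 else if z (L.J (vv s)) then (if Ss.card ≤ 1 then 1 else 2 ^ L.J (vv s))
        else (if Ss.card ≤ 1 then Yf y s ^ Ss.card else 0) := by
  have hv : ∀ i ∈ Ss, vv i = vv s := fun i hi => by rw [← hst i hi, L.vv_st]
  have hinj : Set.InjOn L.off (Ss : Set ℕ) := fun i hi k hk h => L.off_inj ((hst i hi).trans (hst k hk).symm) h
  have hlt : ∀ k ∈ Ss.image L.off, k < 2 ^ L.a (vv s) := by
    intro k hk
    rw [mem_image] at hk
    obtain ⟨i, hi, rfl⟩ := hk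
    rw [← hv i hi]
    exact L.off_lt i
  have hcard : (Ss.image L.off).card = Ss.card := card_image_of_injOn hinj
  by_cases hJ : L.J (vv s) = 0
  · rw [if_pos hJ]
    have e : ∀ x : B1, ∏ i ∈ Ss, L.H Yf i z y x = 1 := by
      intro x
      refine prod_eq_one fun i hi => ?_
      unfold H
      rw [hv i hi, if_pos hJ]
    simp_rw [e]
    simp
  · rw [if_neg hJ]
    by_cases hz : z (L.J (vv s)) = true
    · rw [if_pos hz]
      have e : ∀ x : B1, ∏ i ∈ Ss, L.H Yf i z y x = ∏ k ∈ Ss.image L.off, X2 (L.a (vv s)) (L.J (vv s)) k x := by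
        intro x
        rw [prod_image hinj]
        refine prod_congr rfl fun i hi => ?_
        unfold H
        rw [hv i hi, if_neg hJ, if_pos hz]
      rw [integral_congr_ae (ae_of_all _ e), E2 _ _ _ hlt (by omega), hcard]
    · rw [if_neg hz]
      have e : ∀ x : B1, ∏ i ∈ Ss, L.H Yf i z y x =
          (∏ k ∈ Ss.image L.off, X1 (L.a (vv s)) k x) * Yf y s ^ Ss.card := by
        intro x
        rw [prod_image hinj, ← prod_const, ← prod_mul_distrib]
        refine prod_congr rfl fun i hi => ?_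
        unfold H
        rw [hv i hi, if_neg hJ, if_neg hz, hst i hi]
      rw [integral_congr_ae (ae_of_all _ e), integral_mul_const, E1 _ _ _ hlt, hcard]
      split_ifs <;> simp

/-- **the field is independent of order three** -/
theorem E_G (μ : Measure Ω0) [IsProbabilityMeasure μ] (hY : ∀ s, Measurable fun ω => Yf ω s) (h0 : ∀ ω s, 0 ≤ Yf ω s)
    (h1 : ∀ ω s, Yf ω s ≤ 2 ^ L.J (vv s)) (hE : ∀ T : Finset ℕ, T.card < 4 → ∫ ω, ∏ s ∈ T, Yf ω s ∂μ = 1)
    (S : Finset ℕ) (hS : S.card < 4) : ∫ ω, ∏ i ∈ S, L.G Yf ω i ∂(PZ.prod (μ.prod L.PX)) = 1 := by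
  classical
  have hn : Nice fun ω => ∏ i ∈ S, L.G Yf ω i := Nice.prod _ fun i _ => L.G_nice Yf hY h0 h1 i
  obtain ⟨T, hT⟩ : ∃ T, T = S.image L.st := ⟨_, rfl⟩
  obtain ⟨F, hF⟩ : ∃ F : ℕ → Finset ℕ, F = fun s => S.filter fun i => L.st i = s := ⟨_, rfl⟩
  have hFc : ∀ s, (F s).card < 4 := fun s => by
    rw [hF]
    exact lt_of_le_of_lt (card_filter_le _ _) hS
  have hF1 : ∀ s ∈ T, 1 ≤ (F s).card := by
    intro s hs
    rw [hT, mem_image] at hs
    obtain ⟨i, hi, hi2⟩ := hs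
    rw [Nat.succ_le_iff, card_pos, hF]
    exact ⟨i, mem_filter.2 ⟨hi, hi2⟩⟩
  have hTc : T.card < 4 := by
    rw [hT]
    exact lt_of_le_of_lt card_image_le hS
  rw [integral_prod _ (hn.int _)]
  -- the inner integrals
  have e1 : ∀ (z : ℕ → Bool) (y : Ω0), ∫ x, ∏ i ∈ S, L.G Yf (z, y, x) i ∂L.PX = ∏ s ∈ T,
      if L.J (vv s) = 0 then 1 else if z (L.J (vv s)) then (if (F s).card ≤ 1 then 1 else 2 ^ L.J (vv s))
        else (if (F s).card ≤ 1 then Yf y s ^ (F s).card else 0) := by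
    intro z y
    have e2 : ∀ x : ℕ → B1, ∏ i ∈ S, L.G Yf (z, y, x) i = ∏ s ∈ T, (fun x' : B1 => ∏ i ∈ F s, L.H Yf i z y x') (x s) := by
      intro x
      have e3 : ∏ s ∈ T, ∏ i ∈ S.filter (fun i => L.st i = s), L.G Yf (z, y, x) i = ∏ i ∈ S, L.G Yf (z, y, x) i :=
        prod_fiberwise_of_maps_to (fun i hi => by rw [hT]; exact mem_image_of_mem _ hi) _
      rw [← e3]
      refine prod_congr rfl fun s _ => ?_
      simp only
      rw [hF]
      refine prod_congr rfl fun i hi => ?_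
      rw [mem_filter] at hi
      unfold G
      simp only
      rw [hi.2]
    rw [integral_congr_ae (ae_of_all _ e2)]
    unfold PX
    rw [int_prod (fun s => law1 (L.a (vv s)) (L.J (vv s))) T (fun s x' => ∏ i ∈ F s, L.H Yf i z y x')]
    · refine prod_congr rfl fun s _ => ?_
      apply L.block Yf s (F s) _ (hFc s)
      intro i hi
      rw [hF, mem_filter] at hi
      exact hi.2
    · intro s _
      exact measurable_of_countable _
  obtain ⟨c, hc⟩ : ∃ c : (ℕ → Bool) → ℕ → ℝ, c = fun z s => if L.J (vv s) = 0 then 1 else if (F s).card ≤ 1 then 1 else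
    if z (L.J (vv s)) then 2 ^ L.J (vv s) else 0 := ⟨_, rfl⟩
  have e4 : ∀ z : ℕ → Bool, ∫ q : Ω0 × (ℕ → B1), ∏ i ∈ S, L.G Yf (z, q) i ∂(μ.prod L.PX) = ∏ s ∈ T, c z s := by
    intro z
    have hnz : Nice fun q : Ω0 × (ℕ → B1) => ∏ i ∈ S, L.G Yf (z, q) i := hn.comp measurable_prodMk_left
    rw [integral_prod _ (hnz.int _)]
    simp_rw [e1]
    obtain ⟨T1, hT1⟩ : ∃ T1, T1 = T.filter fun s => L.J (vv s) ≠ 0 ∧ ¬ z (L.J (vv s)) = true ∧ (F s).card ≤ 1 := ⟨_, rfl⟩
    have e5 : ∀ y : Ω0, (∏ s ∈ T, if L.J (vv s) = 0 then 1 else if z (L.J (vv s)) then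
        (if (F s).card ≤ 1 then 1 else 2 ^ L.J (vv s)) else (if (F s).card ≤ 1 then Yf y s ^ (F s).card else 0)) =
        (∏ s ∈ T, c z s) * ∏ s ∈ T1, Yf y s := by
      intro y
      rw [hT1, prod_filter, ← prod_mul_distrib]
      refine prod_congr rfl fun s hs => ?_
      have h2 := hF1 s hs
      rw [hc]
      simp only
      by_cases a1 : L.J (vv s) = 0
      · simp [a1]
      · by_cases a2 : z (L.J (vv s)) = true
        · simp [a1, a2]
        · by_cases a3 : (F s).card ≤ 1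
          · have a4 : (F s).card = 1 := le_antisymm a3 h2
            simp [a1, a2, a4]
          · simp [a1, a2, a3]
    simp_rw [e5]
    rw [integral_const_mul, hE T1, mul_one]
    rw [hT1]
    exact lt_of_le_of_lt (card_filter_le _ _) hTc
  simp_rw [e4]
  obtain ⟨T2, hT2⟩ : ∃ T2, T2 = T.filter fun s => L.J (vv s) ≠ 0 ∧ ¬ (F s).card ≤ 1 := ⟨_, rfl⟩
  have e6 : ∀ z : ℕ → Bool, ∏ s ∈ T, c z s = ∏ s ∈ T2, if z (L.J (vv s)) = true then (2 : ℝ) ^ L.J (vv s) else 0 := by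
    intro z
    rw [hT2, prod_filter, hc]
    refine prod_congr rfl fun s _ => ?_
    simp only
    by_cases a1 : L.J (vv s) = 0
    · simp [a1]
    · by_cases a2 : (F s).card ≤ 1 <;> simp [a1, a2]
  simp_rw [e6]
  have hT2c : T2.card ≤ 1 := by
    rw [card_le_one]
    intro s hs s' hs'
    by_contra hne
    rw [hT2, mem_filter] at hs hs'
    have hd : Disjoint (F s) (F s') := by
      rw [hF, disjoint_left]
      intro i hi hi'
      rw [mem_filter] at hi hi'
      exact hne (hi.2.symm.trans hi'.2)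
    have hsub : F s ∪ F s' ⊆ S := by
      rw [hF]
      exact union_subset (filter_subset _ _) (filter_subset _ _)
    have h3 := card_le_card hsub
    rw [card_union_of_disjoint hd] at h3
    have h4 := hs.2.2
    have h5 := hs'.2.2
    omega
  rcases Nat.lt_or_ge T2.card 1 with h2 | h2
  · rw [Nat.lt_one_iff, card_eq_zero] at h2
    rw [h2]
    simp
  · obtain ⟨s, hs⟩ := card_eq_one.1 (le_antisymm hT2c h2)
    rw [hs]
    simp only [prod_singleton]
    have e7 := int_prod (fun j => bern (2 ^ j - 1)) {L.J (vv s)} (fun j (c : Bool) => if c = true then (2 : ℝ) ^ j else 0)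
      (fun _ _ => measurable_of_countable _)
    simp only [prod_singleton] at e7
    unfold PZ
    rw [e7, int_bern, cast_pow]
    simp

end Lev

/-! ### from fields to random sets -/

noncomputable def PU : Measure (ℕ → unitInterval) := Measure.infinitePi fun _ => volume

instance : IsProbabilityMeasure PU := by
  unfold PU
  infer_instance

/-- the event `m ∈ A` -/
def Ev {Ω1 : Type} (G : Ω1 → ℕ → ℝ) (m : ℕ) : Set (Ω1 × (ℕ → unitInterval)) :=
  {ω | ((ω.2 m : unitInterval) : ℝ) < (Real.log m)⁻¹ * G ω.1 m}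

theorem Ev_meas {Ω1 : Type} [MeasurableSpace Ω1] (G : Ω1 → ℕ → ℝ) (hG : ∀ i, Measurable fun ω => G ω i) (m : ℕ) :
    MeasurableSet (Ev G m) := by
  unfold Ev
  apply measurableSet_lt
  · exact measurable_subtype_coe.comp ((measurable_pi_apply m).comp measurable_snd)
  · exact ((hG m).comp measurable_fst).const_mul _

theorem Ev_order {Ω1 : Type} [MeasurableSpace Ω1] (P1 : Measure Ω1) [IsProbabilityMeasure P1] (G : Ω1 → ℕ → ℝ)
    (hG : ∀ i, Measurable fun ω => G ω i) (h0 : ∀ ω i, 0 ≤ G ω i) (h1 : ∀ ω i, 3 ≤ i → G ω i ≤ Real.log i) (T : Finset ℕ)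
    (hE : ∫ ω, ∏ i ∈ T, G ω i ∂P1 = 1) (hT : ∀ m ∈ T, 3 ≤ m) :
    (P1.prod PU) (⋂ m ∈ T, Ev G m) = ENNReal.ofReal (∏ m ∈ T, (Real.log m)⁻¹) := by
  have hmeas : MeasurableSet (⋂ m ∈ T, Ev G m) := T.measurableSet_biInter fun m _ => Ev_meas G hG m
  rw [Measure.prod_apply hmeas]
  have hc : ∀ ω : Ω1, ∀ m ∈ T, 0 ≤ (Real.log m)⁻¹ * G ω m ∧ (Real.log m)⁻¹ * G ω m ≤ 1 := by
    intro ω m hm
    have h4 : 0 < Real.log m := by
      apply Real.log_pos
      exact_mod_cast (by have := hT m hm; omega : 1 < m)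
    refine ⟨mul_nonneg (inv_nonneg.2 h4.le) (h0 ω m), ?_⟩
    rw [inv_mul_le_iff₀ h4, mul_one]
    exact h1 ω m (hT m hm)
  have e1 : ∀ ω : Ω1, PU (Prod.mk ω ⁻¹' ⋂ m ∈ T, Ev G m) =
      ENNReal.ofReal (∏ m ∈ T, ((Real.log m)⁻¹ * G ω m)) := by
    intro ω
    have e2 : (Prod.mk ω ⁻¹' ⋂ m ∈ T, Ev G m) =
        Set.pi (T : Set ℕ) fun m => {b : unitInterval | (b : ℝ) < (Real.log m)⁻¹ * G ω m} := by
      ext b
      simp only [Set.mem_preimage, Set.mem_iInter, Set.mem_pi, Finset.mem_coe, Ev, Set.mem_ofPred_eq]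
    rw [e2]
    unfold PU
    rw [Measure.infinitePi_pi _ fun m _ => measurableSet_lt measurable_subtype_coe measurable_const,
      ENNReal.ofReal_prod_of_nonneg fun m hm => (hc ω m hm).1]
    exact prod_congr rfl fun m hm => Fam.vol_lt _ (hc ω m hm).1 (hc ω m hm).2
  rw [lintegral_congr e1, ← ofReal_integral_eq_lintegral_ofReal]
  · congr 1
    simp_rw [prod_mul_distrib]
    rw [integral_const_mul, hE, mul_one]
  · refine Integrable.of_bound (Finset.measurable_fun_prod _ fun m _ => (hG m).const_mul _).aestronglyMeasurable 1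
      (ae_of_all _ fun ω => ?_)
    rw [Real.norm_eq_abs, abs_of_nonneg (prod_nonneg fun m hm => (hc ω m hm).1)]
    exact prod_le_one (fun m hm => (hc ω m hm).1) (fun m hm => (hc ω m hm).2)
  · exact ae_of_all _ fun ω => prod_nonneg fun m hm => (hc ω m hm).1

end Pool.Agent.H49.SM
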