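import Mathlib

set_option autoImplicit false

/-! Pairs in random sets, order four. -/

namespace Pool.Agent.H49.TW

open Finset MeasureTheory Filter Topology
open scoped ENNReal

/-- `P(m ∈ A) = 1 / log m` for `m ≥ 3`, and any `K` of these events are independent -/
structure Model (K : ℕ) {Ω : Type} [MeasurableSpace Ω] (μ : Measure Ω) (A : ℕ → Set Ω) : Prop where
  meas : ∀ m, MeasurableSet (A m)
  ind : ∀ T : Finset ℕ, (∀ m ∈ T, 3 ≤ m) → T.card ≤ K → μ.real (⋂ m ∈ T, A m) = ∏ m ∈ T, 1 / Real.log m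

variable {Ω : Type} [MeasurableSpace Ω] {μ : Measure Ω} [IsProbabilityMeasure μ] {A : ℕ → Set Ω}

/-- the probability of `m` and `m + h` -/
noncomputable def q (h m : ℕ) : ℝ := 1 / Real.log m * (1 / Real.log (m + h : ℕ))

theorem q_pos {h m : ℕ} (hm : 3 ≤ m) : 0 < q h m := by
  unfold q
  have h1 : 0 < Real.log m := Real.log_pos (by exact_mod_cast (by omega : 1 < m))
  have h2 : 0 < Real.log (m + h : ℕ) := Real.log_pos (by exact_mod_cast (by omega : 1 < m + h))
  positivity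

/-- the event -/
def Q (A : ℕ → Set Ω) (h m : ℕ) : Set Ω := A m ∩ A (m + h)

omit [IsProbabilityMeasure μ] in
theorem Q_real (hA : Model 4 μ A) {h m : ℕ} (hh : 1 ≤ h) (hm : 3 ≤ m) : μ.real (Q A h m) = q h m := by
  have h1 := hA.ind {m, m + h} (by
    intro x hx
    rw [mem_insert, mem_singleton] at hx
    omega) (by
    rw [card_pair (by omega)]
    norm_num)
  rw [prod_pair (by omega)] at h1
  rw [Q, q, ← h1]
  congr 1
  ext ω
  simp

theorem QQ_real (hA : Model 4 μ A) {h m l : ℕ} (hh : 1 ≤ h) (hm : 3 ≤ m) (hl : 3 ≤ l) :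
    μ.real (Q A h m ∩ Q A h l) ≤ q h m * q h l + if (l = m ∨ l = m + h ∨ l + h = m) then q h m else 0 := by
  by_cases hc : l = m ∨ l = m + h ∨ l + h = m
  · rw [if_pos hc]
    have h1 : μ.real (Q A h m ∩ Q A h l) ≤ q h m := by
      rw [← Q_real hA hh hm]
      exact measureReal_mono Set.inter_subset_left
    have h2 := q_pos (h := h) hm
    have h3 := q_pos (h := h) hl
    nlinarith
  · rw [if_neg hc, add_zero]
    push Not at hc
    obtain ⟨c1, c2, c3⟩ := hc
    have n1 : m ∉ ({m + h, l, l + h} : Finset ℕ) := by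
      simp only [mem_insert, mem_singleton]; omega
    have n2 : m + h ∉ ({l, l + h} : Finset ℕ) := by
      simp only [mem_insert, mem_singleton]; omega
    have n3 : l ≠ l + h := by omega
    have h1 := hA.ind {m, m + h, l, l + h} (by
      intro x hx
      simp only [mem_insert, mem_singleton] at hx
      omega) (by
      rw [card_insert_of_notMem n1, card_insert_of_notMem n2, card_pair n3])
    rw [prod_insert n1, prod_insert n2, prod_pair n3] at h1
    have e : (⋂ x ∈ ({m, m + h, l, l + h} : Finset ℕ), A x) = Q A h m ∩ Q A h l := by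
      ext ω
      simp [Q, and_assoc]
    rw [e] at h1
    rw [h1]
    unfold q
    apply le_of_eq
    ring

/-- the number of pairs -/
noncomputable def TT (A : ℕ → Set Ω) (h : ℕ) (I : Finset ℕ) (ω : Ω) : ℝ := ∑ m ∈ I, (Q A h m).indicator 1 ω

/-- the expected number of pairs -/
noncomputable def la (h : ℕ) (I : Finset ℕ) : ℝ := ∑ m ∈ I, q h m

omit [IsProbabilityMeasure μ] in
theorem Q_meas (hA : Model 4 μ A) (h m : ℕ) : MeasurableSet (Q A h m) := (hA.meas m).inter (hA.meas (m + h))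

theorem ind_int {s : Set Ω} (hs : MeasurableSet s) : Integrable (s.indicator (1 : Ω → ℝ)) μ :=
  (integrable_const (1 : ℝ)).indicator hs

theorem TT_int (hA : Model 4 μ A) (h : ℕ) (I : Finset ℕ) : Integrable (TT A h I) μ := by
  unfold TT
  exact integrable_finsetSum _ fun m _ => ind_int (Q_meas hA h m)

theorem E_TT (hA : Model 4 μ A) {h : ℕ} (hh : 1 ≤ h) {I : Finset ℕ} (hI : ∀ m ∈ I, 3 ≤ m) :
    ∫ ω, TT A h I ω ∂μ = la h I := by
  unfold TT la
  rw [integral_finsetSum _ fun m _ => ind_int (Q_meas hA h m)]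
  refine sum_congr rfl fun m hm => ?_
  rw [integral_indicator_one (Q_meas hA h m), Q_real hA hh (hI m hm)]

theorem E_TT2 (hA : Model 4 μ A) {h : ℕ} (hh : 1 ≤ h) {I : Finset ℕ} (hI : ∀ m ∈ I, 3 ≤ m) :
    Integrable (fun ω => TT A h I ω ^ 2) μ ∧ ∫ ω, TT A h I ω ^ 2 ∂μ ≤ la h I ^ 2 + 3 * la h I := by
  have e1 : ∀ ω, TT A h I ω ^ 2 = ∑ m ∈ I, ∑ l ∈ I, (Q A h m ∩ Q A h l).indicator (1 : Ω → ℝ) ω := by
    intro ω
    rw [sq]
    unfold TT
    rw [sum_mul_sum]
    refine sum_congr rfl fun m _ => sum_congr rfl fun l _ => ?_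
    rw [Set.inter_indicator_one]
    rfl
  have i1 : ∀ m ∈ I, ∀ l ∈ I, Integrable (fun ω => (Q A h m ∩ Q A h l).indicator (1 : Ω → ℝ) ω) μ :=
    fun m _ l _ => ind_int ((Q_meas hA h m).inter (Q_meas hA h l))
  have i2 : ∀ m ∈ I, Integrable (fun ω => ∑ l ∈ I, (Q A h m ∩ Q A h l).indicator (1 : Ω → ℝ) ω) μ :=
    fun m hm => integrable_finsetSum _ fun l hl => i1 m hm l hl
  refine ⟨?_, ?_⟩
  · simp_rw [e1]
    exact integrable_finsetSum _ i2
  · simp_rw [e1]
    rw [integral_finsetSum _ i2]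
    have e2 : ∀ m ∈ I, ∫ ω, ∑ l ∈ I, (Q A h m ∩ Q A h l).indicator (1 : Ω → ℝ) ω ∂μ ≤ q h m * la h I + 3 * q h m := by
      intro m hm
      rw [integral_finsetSum _ fun l hl => i1 m hm l hl]
      have e3 : ∀ l ∈ I, ∫ ω, (Q A h m ∩ Q A h l).indicator (1 : Ω → ℝ) ω ∂μ ≤
          q h m * q h l + if (l = m ∨ l = m + h ∨ l + h = m) then q h m else 0 := by
        intro l hl
        rw [integral_indicator_one ((Q_meas hA h m).inter (Q_meas hA h l))]
        exact QQ_real hA hh (hI m hm) (hI l hl)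
      refine (sum_le_sum e3).trans ?_
      rw [sum_add_distrib, ← mul_sum, ← sum_filter, sum_const, nsmul_eq_mul]
      refine add_le_add le_rfl (mul_le_mul_of_nonneg_right ?_ (q_pos (hI m hm)).le)
      have h4 : (I.filter fun l => l = m ∨ l = m + h ∨ l + h = m) ⊆ {m, m + h, m - h} := by
        intro l hl
        rw [mem_filter] at hl
        simp only [mem_insert, mem_singleton]
        omega
      exact_mod_cast (card_le_card h4).trans card_le_three
    refine (sum_le_sum e2).trans (le_of_eq ?_)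
    rw [sum_add_distrib, ← sum_mul, ← mul_sum]
    unfold la
    ring

theorem la_nonneg {h : ℕ} {I : Finset ℕ} (hI : ∀ m ∈ I, 3 ≤ m) : 0 ≤ la h I :=
  sum_nonneg fun m hm => (q_pos (hI m hm)).le

theorem cheb (hA : Model 4 μ A) {h : ℕ} (hh : 1 ≤ h) {I : Finset ℕ} (hI : ∀ m ∈ I, 3 ≤ m) (η : ℝ) (hη : 0 < η)
    (hla : 0 < la h I) : μ {ω | η * la h I ≤ |TT A h I ω - la h I|} ≤ ENNReal.ofReal (3 / η ^ 2 * (la h I)⁻¹) := by
  obtain ⟨L, hL⟩ : ∃ L, L = la h I := ⟨_, rfl⟩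
  obtain ⟨i2, b2⟩ := E_TT2 hA hh hI
  have i1 := TT_int hA h I
  have b1 := E_TT hA hh hI
  rw [← hL] at b2 b1 hla ⊢
  have i3 : Integrable (fun ω => (TT A h I ω - L) ^ 2) μ := by
    have e : (fun ω => (TT A h I ω - L) ^ 2) = fun ω => TT A h I ω ^ 2 - 2 * L * TT A h I ω + L ^ 2 := by
      funext ω
      ring
    rw [e]
    exact (i2.sub (i1.const_mul _)).add (integrable_const _)
  have b3 : ∫ ω, (TT A h I ω - L) ^ 2 ∂μ ≤ 3 * L := by
    have e : (fun ω => (TT A h I ω - L) ^ 2) = fun ω => TT A h I ω ^ 2 - 2 * L * TT A h I ω + L ^ 2 := by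
      funext ω
      ring
    have i4 : Integrable (fun ω => 2 * L * TT A h I ω) μ := i1.const_mul _
    have i5 : Integrable (fun ω => TT A h I ω ^ 2 - 2 * L * TT A h I ω) μ := i2.sub i4
    rw [e, integral_add i5 (integrable_const _), integral_sub i2 i4, integral_const_mul, b1]
    simp
    linarith
  have h1 := mul_meas_ge_le_integral_of_nonneg (ae_of_all μ fun ω => sq_nonneg (TT A h I ω - L)) i3 ((η * L) ^ 2)
  have h2 : {ω | η * L ≤ |TT A h I ω - L|} ⊆ {ω | (η * L) ^ 2 ≤ (TT A h I ω - L) ^ 2} := by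
    intro ω hω
    rw [Set.mem_ofPred_eq] at hω ⊢
    rw [← sq_abs (TT A h I ω - L)]
    exact pow_le_pow_left₀ (by positivity) hω 2
  refine (measure_mono h2).trans ?_
  rw [← ENNReal.ofReal_toReal (measure_ne_top μ {ω | (η * L) ^ 2 ≤ (TT A h I ω - L) ^ 2})]
  apply ENNReal.ofReal_le_ofReal
  have h3 : (μ {ω | (η * L) ^ 2 ≤ (TT A h I ω - L) ^ 2}).toReal = μ.real {ω | (η * L) ^ 2 ≤ (TT A h I ω - L) ^ 2} := rfl
  rw [h3]
  have h4 : (η * L) ^ 2 * μ.real {ω | (η * L) ^ 2 ≤ (TT A h I ω - L) ^ 2} ≤ 3 * L := h1.trans b3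
  have h5 : 3 / η ^ 2 * L⁻¹ = 3 * L / (η * L) ^ 2 := by
    field_simp
  rw [h5, le_div_iff₀ (by positivity)]
  linarith

/-- Borel–Cantelli -/
theorem conv (hA : Model 4 μ A) {h : ℕ} (hh : 1 ≤ h) (I : ℕ → Finset ℕ) (hI : ∀ n, ∀ m ∈ I n, 3 ≤ m)
    (hpos : ∀ n, 0 < la h (I n)) (hs : Summable fun n => (la h (I n))⁻¹) :
    ∀ᵐ ω ∂μ, Tendsto (fun n => TT A h (I n) ω / la h (I n)) atTop (𝓝 1) := by
  have h1 : ∀ r : ℕ, ∀ᵐ ω ∂μ, ∀ᶠ n in atTop, ¬ ((1 / ((r : ℝ) + 1)) * la h (I n) ≤ |TT A h (I n) ω - la h (I n)|) := by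
    intro r
    have hr : 0 < 1 / ((r : ℝ) + 1) := by positivity
    have h2 : ∑' n, μ {ω | (1 / ((r : ℝ) + 1)) * la h (I n) ≤ |TT A h (I n) ω - la h (I n)|} ≠ ∞ := by
      refine ne_top_of_le_ne_top (hs.mul_left (3 / (1 / ((r : ℝ) + 1)) ^ 2)).tsum_ofReal_ne_top
        (ENNReal.tsum_le_tsum fun n => ?_)
      exact cheb hA hh (hI n) _ hr (hpos n)
    filter_upwards [ae_eventually_notMem h2] with ω hω
    filter_upwards [hω] with n hn
    exact hn
  filter_upwards [ae_all_iff.2 h1] with ω hω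
  rw [Metric.tendsto_atTop]
  intro ε hε
  obtain ⟨r, hr⟩ := exists_nat_one_div_lt hε
  obtain ⟨N, hN⟩ := eventually_atTop.1 (hω r)
  refine ⟨N, fun n hn => ?_⟩
  have h3 := hN n hn
  push Not at h3
  have h4 := hpos n
  rw [Real.dist_eq]
  have e : TT A h (I n) ω / la h (I n) - 1 = (TT A h (I n) ω - la h (I n)) / la h (I n) := by
    field_simp
  rw [e, abs_div, abs_of_pos h4, div_lt_iff₀ h4]
  exact h3.trans_le (mul_le_mul_of_nonneg_right hr.le h4.le)

end Pool.Agent.H49.TW
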