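import Pool.Agent.H49.D.ID
import Pool.Agent.H49.D.TE

set_option autoImplicit false

/-! Small gaps in random sets of order three: a model in which all large gaps are large. -/

namespace Pool.Agent.H49.SM

open Finset MeasureTheory Filter Topology
open scoped ENNReal
open Pool.Agent.H49.PT

/-- the mode bits are eventually `false` -/
theorem modes : ∀ᵐ z ∂Lev.PZ, ∀ᶠ j in atTop, z j = false := by
  obtain ⟨t, ht⟩ : ∃ t : ℕ → Set (ℕ → Bool), t = fun j => {z | z j = true} := ⟨_, rfl⟩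
  have h1 : ∀ j, Lev.PZ (t j) = ENNReal.ofReal ((1 / 2 : ℝ) ^ j) := by
    intro j
    have e : t j = Set.pi (({j} : Finset ℕ) : Set ℕ) fun _ => {true} := by
      rw [ht]
      ext z
      simp
    rw [e]
    unfold Lev.PZ
    rw [Measure.infinitePi_pi _ fun a _ => measurableSet_singleton true, prod_singleton, bern_true, cast_pow]
    congr 1
    rw [div_pow, one_pow]
  have h2 : ∑' j, Lev.PZ (t j) ≠ ∞ := by
    simp_rw [h1]
    have hs : Summable fun j : ℕ => (1 / 2 : ℝ) ^ j := summable_geometric_of_lt_one (by norm_num) (by norm_num)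
    exact hs.tsum_ofReal_ne_top
  filter_upwards [ae_eventually_notMem h2] with z hz
  filter_upwards [hz] with j hj
  rw [ht] at hj
  simpa using hj

theorem st_tendsto (L : Lev) : Tendsto L.st atTop atTop := by
  apply tendsto_atTop_mono (f := vv) _ vv_tendsto
  intro i
  have h1 : vv (L.st i) ≤ L.st i := (Nat.log_le_self _ _).trans (Nat.log_le_self _ _)
  rwa [L.vv_st] at h1

/-- pairs of elements of the random set at distance at most `g` -/
def Close {Ω : Type} (A : ℕ → Set Ω) (g : ℕ → ℝ) (ω : Ω) : Set (ℕ × ℕ) :=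
  {p | p.1 < p.2 ∧ (p.2 : ℝ) ≤ p.1 + g p.1 ∧ ω ∈ A p.1 ∧ ω ∈ A p.2}

theorem Close_finite {Ω : Type} (A : ℕ → Set Ω) (g : ℕ → ℝ) (ω : Ω) (N : ℕ) (h : ∀ p ∈ Close A g ω, p.1 < N) :
    (Close A g ω).Finite := by
  classical
  apply ((range N).sigma fun m => range (⌈(m : ℝ) + g m⌉₊ + 1)).finite_toSet.image (fun q : Σ _ : ℕ, ℕ => (q.1, q.2)) |>.subset
  intro p hp
  refine ⟨⟨p.1, p.2⟩, ?_, rfl⟩
  rw [Finset.mem_coe, mem_sigma, mem_range, mem_range]
  refine ⟨h p hp, ?_⟩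
  have h1 : (p.2 : ℝ) ≤ ⌈(p.1 : ℝ) + g p.1⌉₊ := hp.2.1.trans (Nat.le_ceil _)
  have h2 : p.2 ≤ ⌈(p.1 : ℝ) + g p.1⌉₊ := by exact_mod_cast h1
  exact Nat.lt_succ_of_le h2

/-- **large gaps in a model of order three** -/
theorem gaps (g : ℕ → ℝ) (hg : Tendsto (fun m : ℕ => g m / Real.log m) atTop (𝓝 0)) :
    ∃ (Ω : Type) (_ : MeasurableSpace Ω) (μ : Measure Ω) (A : ℕ → Set Ω), IsProbabilityMeasure μ ∧
      TW.Model 3 μ A ∧ ∀ᵐ ω ∂μ, (Close A g ω).Finite := by
  obtain ⟨L, hL, hgL⟩ := exists_lev g hg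
  obtain ⟨μ, Y, hμ, hYm, hY0, hY1, hYE, hYz⟩ := yfield (fun i => (2 : ℝ) ^ L.J (vv i))
    (fun i => one_le_pow₀ (by norm_num))
    (fun i k h => pow_le_pow_right₀ (by norm_num) (L.mono (vv_mono h)))
    (((tendsto_pow_atTop_atTop_of_one_lt (by norm_num : (1 : ℝ) < 2)).comp hL).comp vv_tendsto) L.b L.b_pos L.b_mono
  obtain ⟨P1, hP1⟩ : ∃ P1, P1 = Lev.PZ.prod (μ.prod L.PX) := ⟨_, rfl⟩
  have hP1' : IsProbabilityMeasure P1 := by
    rw [hP1]
    infer_instance
  refine ⟨_, inferInstance, P1.prod PU, Ev (L.G Y), inferInstance, ⟨Ev_meas _ (L.G_meas Y hYm), ?_⟩, ?_⟩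
  · intro T hT h3
    rw [Measure.real, Ev_order P1 (L.G Y) (L.G_meas Y hYm) (fun ω i => (L.G_bd Y hY0 hY1 ω i).1)
      (fun ω i hi => L.G_le Y hY0 hY1 ω i hi) T (by rw [hP1]; exact L.E_G Y μ hYm hY0 hY1 hYE T (by omega)) hT,
      ENNReal.toReal_ofReal]
    · simp only [one_div]
    · refine prod_nonneg fun m hm => inv_nonneg.2 (Real.log_nonneg ?_)
      exact_mod_cast (by have := hT m hm; omega : 1 ≤ m)
  · have h1 : ∀ᵐ ω ∂(P1.prod PU), ∀ᶠ j in atTop, ω.1.1 j = false := by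
      have h2 : ∀ᵐ q ∂P1, ∀ᶠ j in atTop, q.1 j = false := by
        rw [hP1]
        exact Measure.quasiMeasurePreserving_fst.ae modes
      exact Measure.quasiMeasurePreserving_fst.ae h2
    have h2 : ∀ᵐ ω ∂(P1.prod PU), ∀ᶠ s in atTop, Y ω.1.2.1 s * Y ω.1.2.1 (s + L.b s) = 0 := by
      have h3 : ∀ᵐ q ∂P1, ∀ᶠ s in atTop, Y q.2.1 s * Y q.2.1 (s + L.b s) = 0 := by
        rw [hP1]
        have h4 : ∀ᵐ r ∂(μ.prod L.PX), ∀ᶠ s in atTop, Y r.1 s * Y r.1 (s + L.b s) = 0 :=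
          Measure.quasiMeasurePreserving_fst.ae hYz
        exact Measure.quasiMeasurePreserving_snd.ae h4
      exact Measure.quasiMeasurePreserving_fst.ae h3
    filter_upwards [h1, h2] with ω hω1 hω2
    have hJt : Tendsto (fun i => L.J (vv i)) atTop atTop := hL.comp vv_tendsto
    obtain ⟨N, hN⟩ := eventually_atTop.1 (((hJt.eventually hω1).and (hJt.eventually (eventually_ge_atTop 1))).and
      (((st_tendsto L).eventually hω2).and (hgL.and (eventually_ge_atTop 3))))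
    apply Close_finite _ _ _ N
    rintro ⟨m, m'⟩ ⟨hlt, hle, hm, hm'⟩
    simp only at hlt hle hm hm' ⊢
    by_contra hc
    push Not at hc
    obtain ⟨⟨a1, a2⟩, a3, a4, a5⟩ := hN m hc
    obtain ⟨⟨b1, b2⟩, _⟩ := hN m' (hc.trans hlt.le)
    have hle' : m' ≤ m + L.b m := by
      have : (m' : ℝ) ≤ ((m + L.b m : ℕ) : ℝ) := by
        push_cast
        linarith
      exact_mod_cast this
    have hpos : ∀ i, ω ∈ Ev (L.G Y) i → L.G Y ω.1 i ≠ 0 := by
      intro i hi h0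
      unfold Ev at hi
      rw [Set.mem_ofPred_eq, h0, mul_zero] at hi
      have := (ω.2 i).2.1
      linarith
    have key : ∀ i, 1 ≤ L.J (vv i) → ω.1.1 (L.J (vv i)) = false → ω ∈ Ev (L.G Y) i →
        (ω.1.2.2 (L.st i)).2.1 = L.off i ∧ Y ω.1.2.1 (L.st i) ≠ 0 := by
      intro i hi1 hi2 hi3
      have h5 := hpos i hi3
      unfold Lev.G Lev.H at h5
      rw [if_neg (by omega), hi2, if_neg (by simp)] at h5
      refine ⟨?_, right_ne_zero_of_mul h5⟩
      have h6 := left_ne_zero_of_mul h5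
      unfold X1 d at h6
      by_contra h7
      rw [if_neg h7] at h6
      exact h6 rfl
    obtain ⟨k1, k2⟩ := key m a2 a1 hm
    obtain ⟨k3, k4⟩ := key m' b2 b1 hm'
    rcases L.close hlt hle' with h5 | h5
    · rw [h5, k1] at k3
      have := L.off_inj h5.symm k3
      omega
    · rw [h5] at k4
      exact (mul_ne_zero k2 k4) a3

end Pool.Agent.H49.SM
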