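import Pool.Agent.H49.D.IE

set_option autoImplicit false

/-! Small gaps in random sets of order three: the lower bound. -/

namespace Pool.Agent.H49.SM

open Finset MeasureTheory Filter Topology
open scoped ENNReal

section lower

variable {Ω : Type} [MeasurableSpace Ω] {μ : Measure Ω} [IsProbabilityMeasure μ] {A : ℕ → Set Ω}

/-- indicator -/
noncomputable def X (A : ℕ → Set Ω) (i : ℕ) (ω : Ω) : ℝ := (A i).indicator 1 ω

omit [MeasurableSpace Ω] in
theorem X_nonneg (i : ℕ) (ω : Ω) : 0 ≤ X A i ω := Set.indicator_nonneg (fun _ _ => zero_le_one) _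

omit [MeasurableSpace Ω] in
theorem X_le (i : ℕ) (ω : Ω) : X A i ω ≤ 1 := Set.indicator_le_self' (fun _ _ => zero_le_one) _

omit [MeasurableSpace Ω] in
theorem X_cases (i : ℕ) (ω : Ω) : (X A i ω = 0 ∧ ω ∉ A i) ∨ (X A i ω = 1 ∧ ω ∈ A i) := by
  by_cases h : ω ∈ A i
  · right
    exact ⟨Set.indicator_of_mem h _, h⟩
  · left
    exact ⟨Set.indicator_of_notMem h _, h⟩

theorem X_meas (hA : TW.Model 3 μ A) (i : ℕ) : Measurable (X A i) := measurable_const.indicator (hA.meas i)

/-- the density -/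
noncomputable def de (i : ℕ) : ℝ := 1 / Real.log i

theorem de_anti {i j : ℕ} (hi : 3 ≤ i) (hij : i ≤ j) : de j ≤ de i := by
  unfold de
  apply one_div_le_one_div_of_le
  · exact Real.log_pos (by exact_mod_cast (by omega : 1 < i))
  · exact Real.log_le_log (by exact_mod_cast (by omega : 0 < i)) (by exact_mod_cast hij)

theorem de_pos {i : ℕ} (hi : 3 ≤ i) : 0 < de i := by
  unfold de
  have : 0 < Real.log i := Real.log_pos (by exact_mod_cast (by omega : 1 < i))
  positivity

omit [IsProbabilityMeasure μ] in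
theorem EX (hA : TW.Model 3 μ A) (T : Finset ℕ) (h3 : ∀ m ∈ T, 3 ≤ m) (hT : T.card ≤ 3) :
    ∫ ω, ∏ i ∈ T, X A i ω ∂μ = ∏ i ∈ T, de i := by
  have e : ∀ ω, ∏ i ∈ T, X A i ω = (⋂ m ∈ T, A m).indicator (1 : Ω → ℝ) ω := by
    intro ω
    by_cases h : ω ∈ ⋂ m ∈ T, A m
    · rw [Set.indicator_of_mem h]
      simp only [Set.mem_iInter] at h
      refine prod_eq_one fun i hi => ?_
      exact Set.indicator_of_mem (h i hi) _
    · rw [Set.indicator_of_notMem h]
      simp only [Set.mem_iInter, not_forall] at h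
      obtain ⟨i, hi, hi2⟩ := h
      exact prod_eq_zero hi (Set.indicator_of_notMem hi2 _)
  simp_rw [e]
  rw [integral_indicator_one (T.measurableSet_biInter fun m _ => hA.meas m), hA.ind T h3 hT]
  rfl

theorem X_int (hA : TW.Model 3 μ A) (T : Finset ℕ) : Integrable (fun ω => ∏ i ∈ T, X A i ω) μ := by
  refine Integrable.of_bound (Finset.measurable_fun_prod _ fun i _ => X_meas hA i).aestronglyMeasurable 1
    (ae_of_all _ fun ω => ?_)
  rw [Real.norm_eq_abs, abs_of_nonneg (prod_nonneg fun i _ => X_nonneg i ω)]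
  exact prod_le_one (fun i _ => X_nonneg i ω) (fun i _ => X_le i ω)

/-- the neighbours -/
def Nb (h i : ℕ) : Finset ℕ := (Icc (i - h) (i + h)).erase i

theorem Nb_card {h i : ℕ} (hi : h ≤ i) : (Nb h i).card = 2 * h := by
  unfold Nb
  rw [card_erase_of_mem (by rw [mem_Icc]; omega), Nat.card_Icc]
  omega

theorem mem_Nb {h i j : ℕ} (hj : j ∈ Nb h i) : j ≠ i ∧ i - h ≤ j ∧ j ≤ i + h := by
  unfold Nb at hj
  rw [mem_erase, mem_Icc] at hj
  exact hj

/-- the number of neighbours in the set -/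
noncomputable def Dg (A : ℕ → Set Ω) (h i : ℕ) (ω : Ω) : ℝ := ∑ j ∈ Nb h i, X A j ω

variable {n N h : ℕ}

theorem EXD (hA : TW.Model 3 μ A) (hn : h + 3 ≤ n) {i : ℕ} (hi : i ∈ Ico n (n + N)) :
    Integrable (fun ω => X A i ω * Dg A h i ω) μ ∧
      2 * h * de (n + N + h) ^ 2 ≤ ∫ ω, X A i ω * Dg A h i ω ∂μ := by
  rw [mem_Ico] at hi
  have e : ∀ ω, X A i ω * Dg A h i ω = ∑ j ∈ Nb h i, ∏ k ∈ ({i, j} : Finset ℕ), X A k ω := by
    intro ω
    unfold Dg
    rw [mul_sum]
    refine sum_congr rfl fun j hj => ?_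
    rw [prod_pair (mem_Nb hj).1.symm]
  have e2 : (fun ω => X A i ω * Dg A h i ω) = fun ω => ∑ j ∈ Nb h i, ∏ k ∈ ({i, j} : Finset ℕ), X A k ω := funext e
  rw [e2]
  refine ⟨integrable_finsetSum _ fun j _ => X_int hA _, ?_⟩
  rw [integral_finsetSum _ fun j _ => X_int hA _]
  have h1 : ∀ j ∈ Nb h i, de (n + N + h) ^ 2 ≤ ∫ ω, ∏ k ∈ ({i, j} : Finset ℕ), X A k ω ∂μ := by
    intro j hj
    obtain ⟨j1, j2, j3⟩ := mem_Nb hj
    rw [EX hA {i, j} (by
      intro m hm
      rw [mem_insert, mem_singleton] at hm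
      omega) (by rw [card_pair j1.symm]; norm_num), prod_pair j1.symm, sq]
    exact mul_le_mul (de_anti (by omega) (by omega)) (de_anti (by omega) (by omega)) (de_pos (by omega)).le (de_pos (by omega)).le
  have h2 := card_nsmul_le_sum (Nb h i) _ _ h1
  rw [Nb_card (by omega), nsmul_eq_mul] at h2
  push_cast at h2
  exact h2

theorem EXDD (hA : TW.Model 3 μ A) (hn : h + 3 ≤ n) {i : ℕ} (hi : i ∈ Ico n (n + N)) :
    Integrable (fun ω => X A i ω * Dg A h i ω ^ 2) μ ∧
      ∫ ω, X A i ω * Dg A h i ω ^ 2 ∂μ ≤ 2 * h * de (n - h) ^ 2 + (2 * h) ^ 2 * de (n - h) ^ 3 := by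
  rw [mem_Ico] at hi
  have e : ∀ ω, X A i ω * Dg A h i ω ^ 2 = ∑ j ∈ Nb h i, ∑ k ∈ Nb h i, ∏ l ∈ ({i, j, k} : Finset ℕ), X A l ω := by
    intro ω
    unfold Dg
    rw [sq, sum_mul_sum, mul_sum]
    refine sum_congr rfl fun j hj => ?_
    rw [mul_sum]
    refine sum_congr rfl fun k hk => ?_
    obtain ⟨j1, _, _⟩ := mem_Nb hj
    obtain ⟨k1, _, _⟩ := mem_Nb hk
    by_cases hjk : j = k
    · rw [hjk, pair_eq_singleton, prod_pair k1.symm]
      rcases X_cases (A := A) k ω with h0 | h0 <;> rw [h0.1] <;> ring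
    · rw [prod_insert (by simp [j1.symm, k1.symm]), prod_pair hjk]
  have e2 : (fun ω => X A i ω * Dg A h i ω ^ 2) =
      fun ω => ∑ j ∈ Nb h i, ∑ k ∈ Nb h i, ∏ l ∈ ({i, j, k} : Finset ℕ), X A l ω := funext e
  rw [e2]
  refine ⟨integrable_finsetSum _ fun j _ => integrable_finsetSum _ fun k _ => X_int hA _, ?_⟩
  rw [integral_finsetSum _ fun j _ => integrable_finsetSum _ fun k _ => X_int hA _]
  have hd : ∀ l, n - h ≤ l → 0 ≤ de l ∧ de l ≤ de (n - h) := fun l hl =>
    ⟨(de_pos (by omega)).le, de_anti (by omega) hl⟩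
  have hd0 : 0 ≤ de (n - h) := (de_pos (by omega)).le
  have h1 : ∀ j ∈ Nb h i, ∫ ω, ∑ k ∈ Nb h i, ∏ l ∈ ({i, j, k} : Finset ℕ), X A l ω ∂μ ≤
      de (n - h) ^ 2 + 2 * h * de (n - h) ^ 3 := by
    intro j hj
    obtain ⟨j1, j2, j3⟩ := mem_Nb hj
    rw [integral_finsetSum _ fun k _ => X_int hA _]
    have h2 : ∀ k ∈ Nb h i, ∫ ω, ∏ l ∈ ({i, j, k} : Finset ℕ), X A l ω ∂μ ≤
        (if k = j then de (n - h) ^ 2 else 0) + de (n - h) ^ 3 := by
      intro k hk
      obtain ⟨k1, k2, k3⟩ := mem_Nb hk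
      rw [EX hA {i, j, k} (by
        intro m hm
        rw [mem_insert, mem_insert, mem_singleton] at hm
        omega) card_le_three]
      by_cases hjk : k = j
      · rw [if_pos hjk, hjk, pair_eq_singleton, prod_pair j1.symm]
        have h3 := mul_le_mul (hd i (by omega)).2 (hd j (by omega)).2 (hd j (by omega)).1 hd0
        have h4 : 0 ≤ de (n - h) ^ 3 := by positivity
        rw [sq]
        linarith
      · rw [if_neg hjk, zero_add, prod_insert (by simp [j1.symm, k1.symm]), prod_pair (fun hh => hjk hh.symm)]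
        have h3 := mul_le_mul (hd j (by omega)).2 (hd k (by omega)).2 (hd k (by omega)).1 hd0
        have h4 := mul_le_mul (hd i (by omega)).2 h3 (mul_nonneg (hd j (by omega)).1 (hd k (by omega)).1) hd0
        calc de i * (de j * de k) ≤ de (n - h) * (de (n - h) * de (n - h)) := h4
          _ = de (n - h) ^ 3 := by ring
    refine (sum_le_sum h2).trans ?_
    rw [sum_add_distrib, sum_ite_eq' (Nb h i) j, if_pos hj, sum_const, Nb_card (by omega), nsmul_eq_mul]
    push_cast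
    exact le_rfl
  refine (sum_le_card_nsmul _ _ _ h1).trans (le_of_eq ?_)
  rw [Nb_card (by omega), nsmul_eq_mul]
  push_cast
  ring

/-- the number of elements -/
noncomputable def Sm (A : ℕ → Set Ω) (I : Finset ℕ) (ω : Ω) : ℝ := ∑ i ∈ I, X A i ω

theorem ES (hA : TW.Model 3 μ A) {I : Finset ℕ} (hI : ∀ i ∈ I, 3 ≤ i) :
    Integrable (Sm A I) μ ∧ ∫ ω, Sm A I ω ∂μ = ∑ i ∈ I, de i := by
  have h0 : ∀ i, Integrable (X A i) μ := by
    intro i
    have := X_int hA {i}
    simpa using this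
  refine ⟨integrable_finsetSum _ fun i _ => h0 i, ?_⟩
  unfold Sm
  rw [integral_finsetSum _ fun i _ => h0 i]
  refine sum_congr rfl fun i hi => ?_
  have := EX hA {i} (by simpa using hI i hi) (by simp)
  simpa using this

theorem Vr (hA : TW.Model 3 μ A) {I : Finset ℕ} (hI : ∀ i ∈ I, 3 ≤ i) :
    Integrable (fun ω => (Sm A I ω - ∑ i ∈ I, de i) ^ 2) μ ∧
      ∫ ω, (Sm A I ω - ∑ i ∈ I, de i) ^ 2 ∂μ ≤ ∑ i ∈ I, de i := by
  obtain ⟨a, ha⟩ : ∃ a, a = ∑ i ∈ I, de i := ⟨_, rfl⟩
  rw [← ha]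
  obtain ⟨i1, i2⟩ := ES hA hI
  rw [← ha] at i2
  have e : ∀ ω, Sm A I ω ^ 2 = ∑ i ∈ I, ∑ j ∈ I, ∏ l ∈ ({i, j} : Finset ℕ), X A l ω := by
    intro ω
    unfold Sm
    rw [sq, sum_mul_sum]
    refine sum_congr rfl fun i _ => sum_congr rfl fun j _ => ?_
    by_cases hij : i = j
    · rw [hij, pair_eq_singleton, prod_singleton]
      rcases X_cases (A := A) j ω with h0 | h0 <;> rw [h0.1] <;> ring
    · rw [prod_pair hij]
  have e2 : (fun ω => Sm A I ω ^ 2) = fun ω => ∑ i ∈ I, ∑ j ∈ I, ∏ l ∈ ({i, j} : Finset ℕ), X A l ω := funext e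
  have i3 : Integrable (fun ω => Sm A I ω ^ 2) μ := by
    rw [e2]
    exact integrable_finsetSum _ fun i _ => integrable_finsetSum _ fun j _ => X_int hA _
  have i4 : ∫ ω, Sm A I ω ^ 2 ∂μ ≤ a ^ 2 + a := by
    rw [e2, integral_finsetSum _ fun i _ => integrable_finsetSum _ fun j _ => X_int hA _]
    have h1 : ∀ i ∈ I, ∫ ω, ∑ j ∈ I, ∏ l ∈ ({i, j} : Finset ℕ), X A l ω ∂μ ≤ de i * a + de i := by
      intro i hi
      rw [integral_finsetSum _ fun j _ => X_int hA _]
      have h2 : ∀ j ∈ I, ∫ ω, ∏ l ∈ ({i, j} : Finset ℕ), X A l ω ∂μ ≤ de i * de j + if j = i then de i else 0 := by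
        intro j hj
        rw [EX hA {i, j} (by
          intro m hm
          rw [mem_insert, mem_singleton] at hm
          rcases hm with rfl | rfl
          · exact hI _ hi
          · exact hI _ hj) (card_le_two.trans (by norm_num))]
        by_cases hij : j = i
        · rw [if_pos hij, hij, pair_eq_singleton, prod_singleton]
          have := de_pos (hI i hi)
          nlinarith
        · rw [if_neg hij, prod_pair (fun hh => hij hh.symm), add_zero]
      refine (sum_le_sum h2).trans (le_of_eq ?_)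
      rw [sum_add_distrib, ← mul_sum, sum_ite_eq' I i, if_pos hi, ha]
    refine (sum_le_sum h1).trans (le_of_eq ?_)
    rw [sum_add_distrib, ← sum_mul, ← ha]
    ring
  have e3 : (fun ω => (Sm A I ω - a) ^ 2) = fun ω => Sm A I ω ^ 2 - 2 * a * Sm A I ω + a ^ 2 := by
    funext ω
    ring
  rw [e3]
  have i5 : Integrable (fun ω => Sm A I ω ^ 2 - 2 * a * Sm A I ω) μ := i3.sub (i1.const_mul _)
  refine ⟨i5.add (integrable_const _), ?_⟩
  rw [integral_add i5 (integrable_const _), integral_sub i3 (i1.const_mul _), integral_const_mul, i2, integral_const,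
    probReal_univ]
  simp only [smul_eq_mul, one_mul]
  linarith [i4]

/-- a close pair in the window -/
def EE (A : ℕ → Set Ω) (n N h : ℕ) : Set Ω := ⋃ i ∈ Ico n (n + N), ⋃ j ∈ Nb h i, A i ∩ A j

omit [IsProbabilityMeasure μ] in
theorem EE_meas (hA : TW.Model 3 μ A) : MeasurableSet (EE A n N h) :=
  (Ico n (n + N)).measurableSet_biUnion fun i _ => (Nb h i).measurableSet_biUnion fun j _ => (hA.meas i).inter (hA.meas j)

/-- **the master inequality** -/
theorem master (hA : TW.Model 3 μ A) (hn : h + 3 ≤ n) (hN : 1 ≤ N) (la : ℝ) (hla : 0 < la) :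
    2 * (N * (2 * h * de (n + N + h) ^ 2)) ≤ la * (N * de (n - h) * μ.real (EE A n N h) + Real.sqrt (N * de (n - h))) +
      1 / la * (N * (2 * h * de (n - h) ^ 2 + (2 * h) ^ 2 * de (n - h) ^ 3)) := by
  obtain ⟨I, hI⟩ : ∃ I, I = Ico n (n + N) := ⟨_, rfl⟩
  have hIc : I.card = N := by
    rw [hI, Nat.card_Ico]
    omega
  have hI3 : ∀ i ∈ I, 3 ≤ i := by
    intro i hi
    rw [hI, mem_Ico] at hi
    omega
  obtain ⟨E, hE⟩ : ∃ E, E = EE A n N h := ⟨_, rfl⟩
  have hEm : MeasurableSet E := by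
    rw [hE]
    exact EE_meas hA
  obtain ⟨a, ha⟩ : ∃ a, a = ∑ i ∈ I, de i := ⟨_, rfl⟩
  obtain ⟨i1, i2⟩ := ES hA hI3
  obtain ⟨v1, v2⟩ := Vr hA hI3
  rw [← ha] at i2 v1 v2
  have hd0 : 0 < de (n - h) := de_pos (by omega)
  have ha1 : a ≤ N * de (n - h) := by
    rw [ha]
    refine (sum_le_card_nsmul _ _ (de (n - h)) ?_).trans (le_of_eq ?_)
    · intro i hi
      rw [hI, mem_Ico] at hi
      exact de_anti (by omega) (by omega)
    · rw [hIc, nsmul_eq_mul]
  obtain ⟨et, het⟩ : ∃ et, et = Real.sqrt (N * de (n - h)) := ⟨_, rfl⟩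
  have hNd : 0 < (N : ℝ) * de (n - h) := mul_pos (by exact_mod_cast hN) hd0
  have het0 : 0 < et := by
    rw [het]
    exact Real.sqrt_pos.2 hNd
  have het2 : et * et = N * de (n - h) := by
    rw [het]
    exact Real.mul_self_sqrt hNd.le
  rw [← hE, ← het]
  -- pointwise
  have p1 : ∀ ω, 2 * ∑ i ∈ I, X A i ω * Dg A h i ω ≤
      la * (a * E.indicator 1 ω + 1 / 2 * (1 / et * (Sm A I ω - a) ^ 2 + et)) + 1 / la * ∑ i ∈ I, X A i ω * Dg A h i ω ^ 2 := by
    intro ω
    have q1 : 2 * ∑ i ∈ I, X A i ω * Dg A h i ω ≤ la * (Sm A I ω * E.indicator 1 ω) +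
        1 / la * ∑ i ∈ I, X A i ω * Dg A h i ω ^ 2 := by
      unfold Sm
      rw [mul_sum, sum_mul, mul_sum, mul_sum, ← sum_add_distrib]
      refine sum_le_sum fun i hi => ?_
      have hD : 0 ≤ Dg A h i ω := sum_nonneg fun j _ => X_nonneg j ω
      rcases X_cases (A := A) i ω with h0 | h0
      · rw [h0.1]
        simp
      · rw [h0.1]
        by_cases hω : ω ∈ E
        · rw [Set.indicator_of_mem hω]
          simp only [Pi.one_apply, one_mul, mul_one]
          have h2 : 0 ≤ 1 / la * (la - Dg A h i ω) ^ 2 := by positivity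
          have h3 : 1 / la * (la - Dg A h i ω) ^ 2 = la - 2 * Dg A h i ω + 1 / la * Dg A h i ω ^ 2 := by
            field_simp
            ring
          linarith
        · rw [Set.indicator_of_notMem hω]
          have h2 : Dg A h i ω = 0 := by
            unfold Dg
            refine sum_eq_zero fun j hj => ?_
            rcases X_cases (A := A) j ω with h3 | h3
            · exact h3.1
            · exfalso
              apply hω
              rw [hE]
              unfold EE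
              simp only [Set.mem_iUnion]
              exact ⟨i, by rw [← hI]; exact hi, j, hj, h0.2, h3.2⟩
          rw [h2]
          simp
    have q2 : Sm A I ω * E.indicator 1 ω ≤ a * E.indicator 1 ω + 1 / 2 * (1 / et * (Sm A I ω - a) ^ 2 + et) := by
      have h2 : 0 ≤ 1 / et * (|Sm A I ω - a| - et) ^ 2 := by positivity
      have h3 : 1 / et * (|Sm A I ω - a| - et) ^ 2 = 1 / et * (Sm A I ω - a) ^ 2 - 2 * |Sm A I ω - a| + et := by
        have h4 := sq_abs (Sm A I ω - a)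
        field_simp
        nlinarith
      have h5 := le_abs_self (Sm A I ω - a)
      have h6 := abs_nonneg (Sm A I ω - a)
      by_cases hω : ω ∈ E
      · rw [Set.indicator_of_mem hω]
        simp only [Pi.one_apply, mul_one]
        linarith
      · rw [Set.indicator_of_notMem hω]
        simp only [mul_zero, zero_add]
        linarith
    have q3 := mul_le_mul_of_nonneg_left q2 hla.le
    linarith
  have j1 : Integrable (fun ω => ∑ i ∈ I, X A i ω * Dg A h i ω) μ :=
    integrable_finsetSum _ fun i hi => (EXD hA hn (N := N) (by rw [← hI]; exact hi)).1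
  have j2 : Integrable (fun ω => ∑ i ∈ I, X A i ω * Dg A h i ω ^ 2) μ :=
    integrable_finsetSum _ fun i hi => (EXDD hA hn (N := N) (by rw [← hI]; exact hi)).1
  have j3 : Integrable (E.indicator (1 : Ω → ℝ)) μ := (integrable_const (1 : ℝ)).indicator hEm
  have j4 : Integrable (fun ω => 1 / et * (Sm A I ω - a) ^ 2 + et) μ := (v1.const_mul _).add (integrable_const _)
  have j5 : Integrable (fun ω => a * E.indicator 1 ω + 1 / 2 * (1 / et * (Sm A I ω - a) ^ 2 + et)) μ :=
    (j3.const_mul _).add (j4.const_mul _)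
  have k1 := integral_mono (j1.const_mul 2) ((j5.const_mul la).add (j2.const_mul (1 / la))) p1
  rw [integral_const_mul] at k1
  have k2 : ∫ ω, (la * (a * E.indicator 1 ω + 1 / 2 * (1 / et * (Sm A I ω - a) ^ 2 + et)) +
      1 / la * ∑ i ∈ I, X A i ω * Dg A h i ω ^ 2) ∂μ = la * (a * μ.real E + 1 / 2 * (1 / et *
        (∫ ω, (Sm A I ω - a) ^ 2 ∂μ) + et)) + 1 / la * ∫ ω, ∑ i ∈ I, X A i ω * Dg A h i ω ^ 2 ∂μ := by
    rw [integral_add (j5.const_mul la) (j2.const_mul (1 / la)), integral_const_mul, integral_const_mul,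
      integral_add (j3.const_mul _) (j4.const_mul _), integral_const_mul, integral_const_mul, integral_indicator_one hEm,
      integral_add (v1.const_mul _) (integrable_const _), integral_const_mul, integral_const, probReal_univ]
    simp only [smul_eq_mul, one_mul]
  have k3 : (N : ℝ) * (2 * h * de (n + N + h) ^ 2) ≤ ∫ ω, ∑ i ∈ I, X A i ω * Dg A h i ω ∂μ := by
    rw [integral_finsetSum _ fun i hi => (EXD hA hn (N := N) (by rw [← hI]; exact hi)).1]
    have := card_nsmul_le_sum I _ _ fun i hi => (EXD hA hn (N := N) (by rw [← hI]; exact hi)).2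
    rwa [hIc, nsmul_eq_mul] at this
  have k4 : ∫ ω, ∑ i ∈ I, X A i ω * Dg A h i ω ^ 2 ∂μ ≤
      (N : ℝ) * (2 * h * de (n - h) ^ 2 + (2 * h) ^ 2 * de (n - h) ^ 3) := by
    rw [integral_finsetSum _ fun i hi => (EXDD hA hn (N := N) (by rw [← hI]; exact hi)).1]
    have := sum_le_card_nsmul I _ _ fun i hi => (EXDD hA hn (N := N) (by rw [← hI]; exact hi)).2
    rwa [hIc, nsmul_eq_mul] at this
  have hP0 : 0 ≤ μ.real E := measureReal_nonneg
  have k5 : a * μ.real E ≤ N * de (n - h) * μ.real E := mul_le_mul_of_nonneg_right ha1 hP0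
  have k6 : 1 / et * (∫ ω, (Sm A I ω - a) ^ 2 ∂μ) ≤ et := by
    have h2 : ∫ ω, (Sm A I ω - a) ^ 2 ∂μ ≤ et * et := by
      rw [het2]
      exact v2.trans ha1
    rw [one_div, inv_mul_le_iff₀ het0]
    exact h2
  have k7 : la * (a * μ.real E + 1 / 2 * (1 / et * (∫ ω, (Sm A I ω - a) ^ 2 ∂μ) + et)) ≤
      la * (N * de (n - h) * μ.real E + et) := mul_le_mul_of_nonneg_left (by linarith) hla.le
  have k8 : 1 / la * ∫ ω, ∑ i ∈ I, X A i ω * Dg A h i ω ^ 2 ∂μ ≤
      1 / la * (N * (2 * h * de (n - h) ^ 2 + (2 * h) ^ 2 * de (n - h) ^ 3)) :=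
    mul_le_mul_of_nonneg_left k4 (by positivity)
  have k9 := k1.trans (le_of_eq k2)
  linarith

end lower

end Pool.Agent.H49.SM
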