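import Pool.Agent.H49.D.IF

set_option autoImplicit false

/-! Small gaps in random sets of order three: the threshold. -/

namespace Pool.Agent.H49.SM

open Finset MeasureTheory Filter Topology
open scoped ENNReal

/-- the length of the window -/
noncomputable def hh (c : ℝ) (x : ℕ) : ℕ := ⌊c * Real.log x⌋₊

theorem lim_log : Tendsto (fun x : ℕ => Real.log x) atTop atTop := Real.tendsto_log_atTop.comp tendsto_natCast_atTop_atTop

theorem lim_u {c : ℝ} (hc : 0 < c) : Tendsto (fun x : ℕ => (hh c x : ℝ) * (1 / Real.log x)) atTop (𝓝 c) := by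
  have h1 := (tendsto_nat_floor_mul_div_atTop hc.le).comp lim_log
  refine h1.congr fun x => ?_
  simp only [Function.comp, hh]
  ring

theorem log_small : ∀ᶠ x : ℕ in atTop, ∀ c : ℝ, 0 < c → c ≤ Real.log x → c * Real.log x ≤ x := by
  have h1 : Tendsto (fun x : ℝ => Real.log x ^ 2 / x) atTop (𝓝 0) := by
    have h2 : (fun x : ℝ => Real.log x ^ 2) =o[atTop] fun x => x := by
      have := isLittleO_log_rpow_rpow_atTop (s := 1) 2 zero_lt_one
      simpa using this
    exact h2.tendsto_div_nhds_zero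
  have h3 := (h1.comp tendsto_natCast_atTop_atTop).eventually (gt_mem_nhds (zero_lt_one (α := ℝ)))
  filter_upwards [h3, eventually_ge_atTop 3] with x hx hx3 c hc hcl
  have hx0 : (0 : ℝ) < x := by exact_mod_cast (by omega : 0 < x)
  simp only [Function.comp] at hx
  rw [div_lt_one hx0] at hx
  have h4 : 0 < Real.log x := Real.log_pos (by exact_mod_cast (by omega : 1 < x))
  nlinarith

theorem lim_r {c : ℝ} (hc : 0 < c) :
    Tendsto (fun x : ℕ => Real.log x / Real.log (x + hh c x + x + hh c x : ℕ)) atTop (𝓝 1) := by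
  have h1 : Tendsto (fun x : ℕ => Real.log x / (Real.log x + Real.log 4)) atTop (𝓝 1) := by
    have h2 : Tendsto (fun y : ℝ => y / (y + Real.log 4)) atTop (𝓝 1) := by
      have h3 : Tendsto (fun y : ℝ => 1 / (1 + Real.log 4 / y)) atTop (𝓝 (1 / (1 + 0))) :=
        tendsto_const_nhds.div (tendsto_const_nhds.add (tendsto_const_nhds.div_atTop tendsto_id)) (by norm_num)
      rw [add_zero, div_one] at h3
      refine h3.congr' ?_
      filter_upwards [eventually_gt_atTop 0] with y hy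
      field_simp
    exact h2.comp lim_log
  refine tendsto_of_tendsto_of_tendsto_of_le_of_le' h1 tendsto_const_nhds ?_ ?_
  · filter_upwards [log_small, lim_log.eventually (eventually_ge_atTop c), eventually_ge_atTop 3] with x h2 h3 h4
    have h5 := h2 c hc h3
    have hx1 : (1 : ℝ) < x := by exact_mod_cast (by omega : 1 < x)
    have h6 : 0 < Real.log x := Real.log_pos hx1
    have h7 : (hh c x : ℝ) ≤ x := (Nat.floor_le (by positivity)).trans h5
    have h8 : (hh c x : ℕ) ≤ x := by exact_mod_cast h7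
    have h9 : ((x + hh c x + x + hh c x : ℕ) : ℝ) ≤ x * 4 := by
      push_cast
      linarith
    apply div_le_div_of_nonneg_left h6.le
    · exact Real.log_pos (by exact_mod_cast (by omega : 1 < x + hh c x + x + hh c x))
    · rw [← Real.log_mul (by linarith) (by norm_num)]
      exact Real.log_le_log (by exact_mod_cast (by omega : 0 < x + hh c x + x + hh c x)) h9
  · filter_upwards [eventually_ge_atTop 3] with x hx
    have h5 : 0 < Real.log (x + hh c x + x + hh c x : ℕ) :=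
      Real.log_pos (by exact_mod_cast (by omega : 1 < x + hh c x + x + hh c x))
    rw [div_le_one h5]
    exact Real.log_le_log (by exact_mod_cast (by omega : 0 < x)) (by exact_mod_cast (by omega : x ≤ x + hh c x + x + hh c x))

theorem lim_s : Tendsto (fun x : ℕ => 1 / Real.sqrt (x * (1 / Real.log x))) atTop (𝓝 0) := by
  have h1 : Tendsto (fun x : ℝ => x * (1 / Real.log x)) atTop atTop := by
    have h2 : Tendsto (fun x : ℝ => Real.log x / x) atTop (𝓝 0) := Real.isLittleO_log_id_atTop.tendsto_div_nhds_zero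
    have h3 : ∀ᶠ x : ℝ in atTop, 0 < Real.log x / x := by
      filter_upwards [eventually_gt_atTop 1] with x hx
      exact div_pos (Real.log_pos hx) (by linarith)
    have h4 := (tendsto_nhdsWithin_iff.2 ⟨h2, h3⟩ : Tendsto (fun x : ℝ => Real.log x / x) atTop (𝓝[>] 0)).inv_tendsto_nhdsGT_zero
    refine h4.congr fun x => ?_
    simp only [Pi.inv_apply, inv_div]
    ring
  have h5 : Tendsto (fun x : ℕ => Real.sqrt (x * (1 / Real.log x))) atTop atTop :=
    (Real.tendsto_sqrt_atTop.comp h1).comp tendsto_natCast_atTop_atTop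
  simp only [one_div]
  simp only [one_div] at h5
  exact h5.inv_tendsto_atTop

section

variable {Ω : Type} [MeasurableSpace Ω] {μ : Measure Ω} [IsProbabilityMeasure μ] {A : ℕ → Set Ω}

/-- the lower bound for the probability of a close pair -/
noncomputable def Phi (c : ℝ) (x : ℕ) : ℝ :=
  (4 * ((hh c x : ℝ) * (1 / Real.log x) * (Real.log x / Real.log (x + hh c x + x + hh c x : ℕ)) ^ 2) -
    (2 * ((hh c x : ℝ) * (1 / Real.log x)) + 4 * ((hh c x : ℝ) * (1 / Real.log x)) ^ 2) / (1 + 2 * c)) / (1 + 2 * c) -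
    1 / Real.sqrt (x * (1 / Real.log x))

theorem lim_Phi {c : ℝ} (hc : 0 < c) : Tendsto (Phi c) atTop (𝓝 (2 * c / (1 + 2 * c))) := by
  have h1 := lim_u hc
  have h2 := lim_r hc
  have h3 := (((h1.mul (h2.pow 2)).const_mul 4).sub (((h1.const_mul 2).add ((h1.pow 2).const_mul 4)).div_const (1 + 2 * c))).div_const
    (1 + 2 * c)
  have h4 := h3.sub lim_s
  have e : (4 * (c * 1 ^ 2) - (2 * c + 4 * c ^ 2) / (1 + 2 * c)) / (1 + 2 * c) - 0 = 2 * c / (1 + 2 * c) := by
    field_simp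
    ring
  rw [e] at h4
  exact h4

theorem EE_ge (hA : TW.Model 3 μ A) {c : ℝ} (hc : 0 < c) {x : ℕ} (hx : 3 ≤ x) :
    Phi c x ≤ μ.real (EE A (x + hh c x) x (hh c x)) := by
  have h1 := master hA (n := x + hh c x) (N := x) (h := hh c x) (by omega) (by omega) (1 + 2 * c) (by linarith)
  obtain ⟨P, hP⟩ : ∃ P, P = μ.real (EE A (x + hh c x) x (hh c x)) := ⟨_, rfl⟩
  rw [← hP] at h1 ⊢
  have e1 : x + hh c x - hh c x = x := by omega
  rw [e1] at h1
  unfold de at h1
  unfold Phi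
  obtain ⟨l, hl⟩ : ∃ l, l = Real.log x := ⟨_, rfl⟩
  obtain ⟨l', hl'⟩ : ∃ l', l' = Real.log (x + hh c x + x + hh c x : ℕ) := ⟨_, rfl⟩
  obtain ⟨h, hh'⟩ : ∃ h : ℝ, h = (hh c x : ℝ) := ⟨_, rfl⟩
  rw [← hl, ← hl', ← hh'] at h1 ⊢
  have hl0 : 0 < l := by
    rw [hl]
    exact Real.log_pos (by exact_mod_cast (by omega : 1 < x))
  have hl0' : 0 < l' := by
    rw [hl']
    exact Real.log_pos (by exact_mod_cast (by omega : 1 < x + hh c x + x + hh c x))
  have hx0 : (0 : ℝ) < x := by exact_mod_cast (by omega : 0 < x)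
  obtain ⟨X, hX⟩ : ∃ X : ℝ, X = x := ⟨_, rfl⟩
  rw [← hX] at h1 hx0 ⊢
  have hq : 0 < X * (1 / l) := by positivity
  obtain ⟨s, hs⟩ : ∃ s, s = Real.sqrt (X * (1 / l)) := ⟨_, rfl⟩
  have hs0 : 0 < s := by
    rw [hs]
    exact Real.sqrt_pos.2 hq
  have hs2 : s * s = X * (1 / l) := by
    rw [hs]
    exact Real.mul_self_sqrt hq.le
  rw [← hs] at h1 ⊢
  obtain ⟨la, hla⟩ : ∃ la, la = 1 + 2 * c := ⟨_, rfl⟩
  have hla0 : 0 < la := by rw [hla]; linarith
  rw [← hla] at h1 ⊢
  -- divide by `X / l`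
  have h2 : (X * (1 / l)) * (4 * (h * (1 / l) * (l / l') ^ 2)) ≤ (X * (1 / l)) * (la * (P + 1 / s) +
      1 / la * (2 * (h * (1 / l)) + 4 * (h * (1 / l)) ^ 2)) := by
    have a1 : (X * (1 / l)) * (4 * (h * (1 / l) * (l / l') ^ 2)) = 2 * (X * (2 * h * (1 / l') ^ 2)) := by
      field_simp
      ring
    have a2 : (X * (1 / l)) * (la * (P + 1 / s) + 1 / la * (2 * (h * (1 / l)) + 4 * (h * (1 / l)) ^ 2)) =
        la * (X * (1 / l) * P + (X * (1 / l)) * (1 / s)) + 1 / la * (X * (2 * h * (1 / l) ^ 2 + (2 * h) ^ 2 * (1 / l) ^ 3)) := by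
      field_simp
      ring
    have a3 : (X * (1 / l)) * (1 / s) = s := by
      rw [← hs2]
      field_simp
    rw [a1, a2, a3]
    exact h1
  have h3 := le_of_mul_le_mul_left h2 hq
  rw [sub_le_iff_le_add, div_le_iff₀ hla0, sub_le_iff_le_add]
  have h4 : (2 * (h * (1 / l)) + 4 * (h * (1 / l)) ^ 2) / la = 1 / la * (2 * (h * (1 / l)) + 4 * (h * (1 / l)) ^ 2) := by
    ring
  rw [h4]
  linarith

/-- a close pair beyond `M` -/
def FM (A : ℕ → Set Ω) (g : ℕ → ℝ) (M : ℕ) : Set Ω := {ω | ∃ p ∈ Close A g ω, M ≤ p.1}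

omit [IsProbabilityMeasure μ] in
theorem FM_meas (hA : TW.Model 3 μ A) (g : ℕ → ℝ) (M : ℕ) : MeasurableSet (FM A g M) := by
  have e : FM A g M = ⋃ p : ℕ × ℕ, ⋃ (_ : p.1 < p.2 ∧ (p.2 : ℝ) ≤ p.1 + g p.1 ∧ M ≤ p.1), A p.1 ∩ A p.2 := by
    ext ω
    unfold FM Close
    simp only [Set.mem_ofPred_eq, Set.mem_iUnion, Set.mem_inter_iff]
    constructor
    · rintro ⟨p, ⟨a1, a2, a3, a4⟩, a5⟩
      exact ⟨p, ⟨a1, a2, a5⟩, a3, a4⟩
    · rintro ⟨p, ⟨a1, a2, a5⟩, a3, a4⟩
      exact ⟨p, ⟨a1, a2, a3, a4⟩, a5⟩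
  rw [e]
  exact MeasurableSet.iUnion fun p => MeasurableSet.iUnion fun _ => (hA.meas _).inter (hA.meas _)

theorem FM_ge (hA : TW.Model 3 μ A) {g : ℕ → ℝ} (hg : Monotone g) {c : ℝ} (hc : 0 < c)
    (hf : ∃ᶠ x : ℕ in atTop, c * Real.log x ≤ g x) (M : ℕ) : 2 * c / (1 + 2 * c) ≤ μ.real (FM A g M) := by
  refine le_of_forall_pos_le_add fun ε hε => ?_
  have h1 : ∀ᶠ x : ℕ in atTop, 2 * c / (1 + 2 * c) - ε < Phi c x :=
    (lim_Phi hc).eventually (lt_mem_nhds (by linarith))
  obtain ⟨x, hx1, hx2, hx3⟩ := (hf.and_eventually (h1.and (eventually_ge_atTop (M + 3)))).exists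
  have h2 := EE_ge hA hc (x := x) (by omega)
  have h3 : EE A (x + hh c x) x (hh c x) ⊆ FM A g M := by
    intro ω hω
    unfold EE at hω
    simp only [Set.mem_iUnion] at hω
    obtain ⟨i, hi, j, hj, hij⟩ := hω
    rw [mem_Ico] at hi
    obtain ⟨j1, j2, j3⟩ := mem_Nb hj
    have hfl : (hh c x : ℝ) ≤ c * Real.log x :=
      Nat.floor_le (mul_nonneg hc.le (Real.log_nonneg (by exact_mod_cast (by omega : 1 ≤ x))))
    have hgm : ∀ m, x ≤ m → (hh c x : ℝ) ≤ g m := fun m hm => (hfl.trans hx1).trans (hg hm)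
    rcases Nat.lt_or_gt_of_ne j1 with h | h
    · refine ⟨(j, i), ⟨h, ?_, hij.2, hij.1⟩, ?_⟩
      · have h4 := hgm j (by omega)
        have h5 : (i : ℝ) ≤ j + hh c x := by exact_mod_cast (by omega : i ≤ j + hh c x)
        simp only
        linarith
      · simp only
        omega
    · refine ⟨(i, j), ⟨h, ?_, hij.1, hij.2⟩, ?_⟩
      · have h4 := hgm i (by omega)
        have h5 : (j : ℝ) ≤ i + hh c x := by exact_mod_cast j3
        simp only
        linarith
      · simp only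
        omega
  have h4 : μ.real (EE A (x + hh c x) x (hh c x)) ≤ μ.real (FM A g M) := measureReal_mono h3
  linarith

omit [MeasurableSpace Ω] in
theorem FM_inter (g : ℕ → ℝ) : (⋂ M, FM A g M) = {ω | (Close A g ω).Infinite} := by
  ext ω
  simp only [Set.mem_iInter, Set.mem_ofPred_eq]
  constructor
  · intro h hfin
    obtain ⟨M, hM⟩ := (hfin.image Prod.fst).bddAbove
    obtain ⟨p, hp, hp2⟩ := h (M + 1)
    have := hM ⟨p, hp, rfl⟩
    omega
  · intro h M
    unfold FM
    rw [Set.mem_ofPred_eq]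
    by_contra hc
    push Not at hc
    exact h (Close_finite A g ω M hc)

/-- **the lower bound** -/
theorem lower (hA : TW.Model 3 μ A) {g : ℕ → ℝ} (hg : Monotone g) {c : ℝ} (hc : 0 < c)
    (hf : ∃ᶠ x : ℕ in atTop, c * Real.log x ≤ g x) : 2 * c / (1 + 2 * c) ≤ μ.real {ω | (Close A g ω).Infinite} := by
  rw [← FM_inter]
  have hanti : Antitone (FM A g) := by
    intro M M' hMM ω hω
    obtain ⟨p, hp, hp2⟩ := hω
    exact ⟨p, hp, hMM.trans hp2⟩
  have h1 := tendsto_measure_iInter_atTop (μ := μ) (s := FM A g) (fun M => (FM_meas hA g M).nullMeasurableSet) hanti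
    ⟨0, measure_ne_top _ _⟩
  have h2 := (ENNReal.tendsto_toReal (measure_ne_top μ _)).comp h1
  exact ge_of_tendsto' h2 fun M => FM_ge hA hg hc hf M

end

/-- **the threshold** -/
theorem threshold (g : ℕ → ℝ) (hg : Monotone g) :
    Tendsto (fun m : ℕ => g m / Real.log m) atTop (𝓝 0) ↔
      ∃ (Ω : Type) (_ : MeasurableSpace Ω) (μ : Measure Ω) (A : ℕ → Set Ω), IsProbabilityMeasure μ ∧
        TW.Model 3 μ A ∧ ∀ᵐ ω ∂μ, (Close A g ω).Finite := by
  refine ⟨gaps g, ?_⟩
  rintro ⟨Ω, mΩ, μ, A, hμ, hA, hfin⟩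
  have hlow : ∀ c : ℝ, 0 < c → ∀ᶠ x : ℕ in atTop, g x < c * Real.log x := by
    intro c hc
    by_contra hcon
    have hf : ∃ᶠ x : ℕ in atTop, c * Real.log x ≤ g x := by
      intro h
      apply hcon
      filter_upwards [h] with x hx
      exact not_le.1 hx
    have h1 := lower hA hg hc hf
    have h2 : μ.real {ω | (Close A g ω).Infinite} = 0 := by
      rw [Measure.real, ENNReal.toReal_eq_zero_iff]
      left
      rw [ae_iff] at hfin
      exact hfin
    rw [h2] at h1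
    have h3 : 0 < 2 * c / (1 + 2 * c) := by positivity
    linarith
  rw [Metric.tendsto_atTop]
  intro ε hε
  have h1 := hlow (ε / 2) (by linarith)
  have h2 : ∀ᶠ x : ℕ in atTop, |g 0| ≤ ε / 2 * Real.log x :=
    (lim_log.const_mul_atTop (by linarith : 0 < ε / 2)).eventually (eventually_ge_atTop _)
  obtain ⟨N, hN⟩ := eventually_atTop.1 (h1.and (h2.and (eventually_ge_atTop 3)))
  refine ⟨N, fun x hx => ?_⟩
  obtain ⟨a1, a2, a3⟩ := hN x hx
  have hl : 0 < Real.log x := Real.log_pos (by exact_mod_cast (by omega : 1 < x))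
  rw [Real.dist_eq, sub_zero, abs_div, abs_of_pos hl, div_lt_iff₀ hl, abs_lt]
  have h5 := hg (Nat.zero_le x)
  have h6 := neg_abs_le (g 0)
  constructor <;> nlinarith

end Pool.Agent.H49.SM
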