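import Mathlib

set_option autoImplicit false

/-! Divisor functions at almost rational slopes: pointwise inequalities. -/

namespace Pool.Agent.H49.EX

open Finset

/-- `d_r(n)` -/
def d (r n : ℕ) : ℕ := ((ArithmeticFunction.zeta : ArithmeticFunction ℕ) ^ r) n

theorem d_succ (r n : ℕ) : d (r + 1) n = ∑ a ∈ n.divisors, d r a := by
  unfold d
  rw [pow_succ, ArithmeticFunction.mul_zeta_apply]

theorem d_zero (n : ℕ) : d 0 n = if n = 1 then 1 else 0 := by
  unfold d
  rw [pow_zero, ArithmeticFunction.one_apply]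

theorem d_add (r s n : ℕ) : d (r + s) n = ∑ x ∈ n.divisorsAntidiagonal, d r x.1 * d s x.2 := by
  unfold d
  rw [pow_add, ArithmeticFunction.mul_apply]

theorem d_one {n : ℕ} (hn : n ≠ 0) : d 1 n = 1 := by
  unfold d
  rw [pow_one, ArithmeticFunction.zeta_apply, if_neg hn]

theorem d_at_one (r : ℕ) : d r 1 = 1 := by
  induction r with
  | zero => simp [d_zero]
  | succ r ih => rw [d_succ]; simp [ih]

theorem d_mono {r : ℕ} (hr : 1 ≤ r) {a b : ℕ} (hb : b ≠ 0) (h : a ∣ b) : d r a ≤ d r b := by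
  obtain ⟨s, rfl⟩ : ∃ s, r = s + 1 := ⟨r - 1, by omega⟩
  rw [d_succ, d_succ]
  exact sum_le_sum_of_subset (Nat.divisors_subset_of_dvd hb h)

theorem d_sub (r : ℕ) : ∀ a b : ℕ, a ≠ 0 → b ≠ 0 → d r (a * b) ≤ d r a * d r b := by
  induction r with
  | zero =>
    intro a b ha hb
    rw [d_zero, d_zero, d_zero]
    by_cases h : a * b = 1
    · have := Nat.eq_one_of_mul_eq_one_right h
      have h2 := Nat.eq_one_of_mul_eq_one_left h
      simp_all
    · simp [h]
  | succ r ih =>
    intro a b ha hb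
    rw [d_succ, d_succ, d_succ, Nat.divisors_mul, Finset.mul_def, sum_mul_sum, ← sum_product']
    refine (sum_image_le_of_nonneg fun _ _ => Nat.zero_le _).trans (sum_le_sum fun x hx => ?_)
    have h1 := (mem_product.1 hx).1
    have h2 := (mem_product.1 hx).2
    exact ih _ _ (Nat.pos_of_mem_divisors h1).ne' (Nat.pos_of_mem_divisors h2).ne'

theorem d_mul_le (r s : ℕ) : ∀ n : ℕ, n ≠ 0 → d s n * d r n ≤ d (r * s) n := by
  induction s with
  | zero =>
    intro n hn
    rw [mul_zero, d_zero]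
    by_cases h : n = 1
    · subst h; simp [d_at_one]
    · simp [h]
  | succ s ih =>
    intro n hn
    rw [mul_add, mul_one, d_add (r * s) r, d_add s 1, sum_mul]
    refine sum_le_sum fun x hx => ?_
    have hx' := Nat.mem_divisorsAntidiagonal.1 hx
    have h1 : x.1 ≠ 0 := by rintro h; rw [h] at hx'; simp at hx'; exact hx'.2 hx'.1.symm
    have h2 : x.2 ≠ 0 := by rintro h; rw [h] at hx'; simp at hx'; exact hx'.2 hx'.1.symm
    rw [d_one h2, mul_one, ← hx'.1]
    calc d s x.1 * d r (x.1 * x.2) ≤ d s x.1 * (d r x.1 * d r x.2) := Nat.mul_le_mul_left _ (d_sub r _ _ h1 h2)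
      _ = d s x.1 * d r x.1 * d r x.2 := by ring
      _ ≤ d (r * s) x.1 * d r x.2 := Nat.mul_le_mul_right _ (ih _ h1)

theorem d_prime (r : ℕ) {p : ℕ} (hp : p.Prime) : d r p = r := by
  induction r with
  | zero => rw [d_zero, if_neg hp.one_lt.ne']
  | succ r ih => rw [d_succ, hp.sum_divisors, d_at_one, ih]

theorem d_coprime (r : ℕ) {a b : ℕ} (h : a.Coprime b) : d r (a * b) = d r a * d r b := by
  have : ((ArithmeticFunction.zeta : ArithmeticFunction ℕ) ^ r).IsMultiplicative :=
    ArithmeticFunction.isMultiplicative_zeta.pow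
  exact this.map_mul_of_coprime h

/-- the product of the divisor functions -/
def F {k : ℕ} (r : Fin k → ℕ) (n : ℕ) : ℕ := ∏ i, d (r i) n

theorem F_le {k : ℕ} (r : Fin k → ℕ) {n : ℕ} (hn : n ≠ 0) : F r n ≤ d (∏ i, r i) n := by
  classical
  unfold F
  have key : ∀ s : Finset (Fin k), ∏ i ∈ s, d (r i) n ≤ d (∏ i ∈ s, r i) n := by
    intro s
    induction s using Finset.induction_on with
    | empty => simp [d_one hn]
    | insert i s hi ih =>
      rw [prod_insert hi, prod_insert hi]
      refine (Nat.mul_le_mul_left _ ih).trans ?_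
      rw [mul_comm]
      exact d_mul_le _ _ _ hn
  exact key univ

theorem F_coprime {k : ℕ} (r : Fin k → ℕ) {a b : ℕ} (h : a.Coprime b) : F r (a * b) = F r a * F r b := by
  unfold F
  rw [← prod_mul_distrib]
  exact prod_congr rfl fun i _ => d_coprime _ h

theorem F_one {k : ℕ} (r : Fin k → ℕ) : F r 1 = 1 := by
  unfold F
  simp [d_at_one]

/-- the decomposition into a part where `F` is `d_ρ` and a squareful part `u ^ 2 * v ^ 3` -/
theorem decomp {k : ℕ} (r : Fin k → ℕ) (n : ℕ) (hn : n ≠ 0) :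
    ∃ a u v : ℕ, a ≠ 0 ∧ u ≠ 0 ∧ v ≠ 0 ∧ n = a * (u ^ 2 * v ^ 3) ∧ a.Coprime (u ^ 2 * v ^ 3) ∧
      F r a = d (∏ i, r i) a := by
  induction n using Nat.recOnPosPrimePosCoprime with
  | prime_pow p e hp he =>
    rcases Nat.lt_or_ge e 2 with h | h
    · have : e = 1 := by omega
      subst this
      refine ⟨p, 1, 1, hp.ne_zero, one_ne_zero, one_ne_zero, by simp, by simp, ?_⟩
      unfold F
      rw [d_prime _ hp]
      exact prod_congr rfl fun i _ => d_prime _ hp
    · rcases Nat.even_or_odd e with h2 | h2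
      · obtain ⟨j, hj⟩ := h2
        refine ⟨1, p ^ j, 1, one_ne_zero, pow_ne_zero _ hp.ne_zero, one_ne_zero, ?_, by simp, ?_⟩
        · rw [hj, ← pow_mul]; ring
        · rw [F_one, d_at_one]
      · obtain ⟨j, hj⟩ := h2
        obtain ⟨i, rfl⟩ : ∃ i, j = i + 1 := ⟨j - 1, by omega⟩
        refine ⟨1, p ^ i, p, one_ne_zero, pow_ne_zero _ hp.ne_zero, hp.ne_zero, ?_, by simp, ?_⟩
        · rw [hj, ← pow_mul]; ring
        · rw [F_one, d_at_one]
  | zero => exact absurd rfl hn
  | one => exact ⟨1, 1, 1, one_ne_zero, one_ne_zero, one_ne_zero, by simp, by simp, by rw [F_one, d_at_one]⟩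
  | coprime m n hm hn' hmn ihm ihn =>
    obtain ⟨a, u, v, ha, hu, hv, e, hc, hF⟩ := ihm (by omega)
    obtain ⟨a', u', v', ha', hu', hv', e', hc', hF'⟩ := ihn (by omega)
    have h1 : a.Coprime a' := by
      refine Nat.Coprime.coprime_dvd_left (Dvd.intro _ e.symm) (Nat.Coprime.coprime_dvd_right (Dvd.intro _ e'.symm) hmn)
    have h2 : a.Coprime (u' ^ 2 * v' ^ 3) := by
      refine Nat.Coprime.coprime_dvd_left (Dvd.intro _ e.symm) (Nat.Coprime.coprime_dvd_right (Dvd.intro_left _ e'.symm) hmn)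
    have h3 : (u ^ 2 * v ^ 3).Coprime a' := by
      refine Nat.Coprime.coprime_dvd_left (Dvd.intro_left _ e.symm) (Nat.Coprime.coprime_dvd_right (Dvd.intro _ e'.symm) hmn)
    refine ⟨a * a', u * u', v * v', mul_ne_zero ha ha', mul_ne_zero hu hu', mul_ne_zero hv hv', ?_, ?_, ?_⟩
    · rw [e, e']; ring
    · have : (u * u') ^ 2 * (v * v') ^ 3 = (u ^ 2 * v ^ 3) * (u' ^ 2 * v' ^ 3) := by ring
      rw [this]
      exact Nat.Coprime.mul_left (Nat.Coprime.mul_right hc h2) (Nat.Coprime.mul_right h3.symm hc')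
    · rw [F_coprime _ h1, d_coprime _ h1, hF, hF']

theorem summ (R : ℕ) : Summable fun n : ℕ => (d R n : ℝ) / (n : ℝ) ^ 2 := by
  have key : ∀ R : ℕ, LSeriesSummable (fun n => (((ArithmeticFunction.zeta : ArithmeticFunction ℂ) ^ R) n)) 2 := by
    intro R
    induction R with
    | zero =>
      rw [pow_zero]
      unfold LSeriesSummable
      apply summable_of_ne_finset_zero (s := {1})
      intro n hn
      have : n ≠ 1 := by simpa using hn
      rw [LSeries.term_def]
      split_ifs
      · rfl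
      · rw [ArithmeticFunction.one_apply_ne this, zero_div]
    | succ R ih =>
      rw [pow_succ]
      apply ArithmeticFunction.LSeriesSummable_mul ih
      have := ArithmeticFunction.LSeriesSummable_zeta_iff.2 (show 1 < (2 : ℂ).re by norm_num)
      convert this using 2
      exact ArithmeticFunction.natCoe_apply
  have cst : ∀ R : ℕ, ((ArithmeticFunction.zeta : ArithmeticFunction ℂ) ^ R) =
      (((ArithmeticFunction.zeta : ArithmeticFunction ℕ) ^ R : ArithmeticFunction ℕ) : ArithmeticFunction ℂ) := by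
    intro R
    induction R with
    | zero => simp
    | succ R ih => rw [pow_succ, pow_succ, ArithmeticFunction.natCoe_mul, ih]
  have h := (key R).norm
  refine h.congr fun n => ?_
  rw [LSeries.norm_term_eq]
  rcases Nat.eq_zero_or_pos n with h0 | h0
  · subst h0; simp [d]
  · rw [if_neg h0.ne']
    have e : (((ArithmeticFunction.zeta : ArithmeticFunction ℂ) ^ R) n) = ((d R n : ℕ) : ℂ) := by
      unfold d
      rw [cst R]; rfl
    rw [e, Complex.norm_natCast]
    norm_num

end Pool.Agent.H49.EX
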