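import Pool.Agent.H49.D.JA

set_option autoImplicit false

/-! Divisor functions at almost rational slopes: sums. -/

namespace Pool.Agent.H49.EX

open Finset Filter Topology

theorem dirR (X : ℕ) (F : ℕ → ℕ → ℝ) :
    ∑ n ∈ Icc 1 X, ∑ d ∈ n.divisors, F d (n / d) = ∑ d ∈ Icc 1 X, ∑ m ∈ Icc 1 (X / d), F d m := by
  have h1 : ∀ n ∈ Icc 1 X, ∑ d ∈ n.divisors, F d (n / d) = ∑ d ∈ Icc 1 X, if d ∣ n then F d (n / d) else 0 := by
    intro n hn
    rw [mem_Icc] at hn
    rw [← sum_filter]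
    apply sum_congr _ fun _ _ => rfl
    ext d
    rw [Nat.mem_divisors, mem_filter, mem_Icc]
    constructor
    · rintro ⟨h1, h2⟩
      exact ⟨⟨Nat.pos_of_dvd_of_pos h1 (by omega), (Nat.le_of_dvd (by omega) h1).trans hn.2⟩, h1⟩
    · rintro ⟨_, h1⟩
      exact ⟨h1, by omega⟩
  rw [sum_congr rfl h1, sum_comm]
  apply sum_congr rfl
  intro d hd
  rw [mem_Icc] at hd
  rw [← sum_filter]
  apply sum_nbij' (fun n => n / d) (fun m => d * m)
  · intro n hn
    rw [mem_filter, mem_Icc] at hn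
    rw [mem_Icc]
    obtain ⟨⟨h1, h2⟩, c, rfl⟩ := hn
    rw [Nat.mul_div_cancel_left _ (by omega)]
    refine ⟨Nat.pos_of_ne_zero (by rintro rfl; simp at h1), ?_⟩
    rw [Nat.le_div_iff_mul_le (by omega), mul_comm]
    exact h2
  · intro m hm
    rw [mem_Icc] at hm
    rw [mem_filter, mem_Icc]
    refine ⟨⟨Nat.mul_pos (by omega) (by omega), ?_⟩, dvd_mul_right _ _⟩
    have := (Nat.le_div_iff_mul_le (by omega : 0 < d)).1 hm.2
    rw [mul_comm]
    exact this
  · intro n hn
    rw [mem_filter] at hn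
    exact Nat.mul_div_cancel' hn.2
  · intro m _
    exact Nat.mul_div_cancel_left _ (by omega)
  · intro n _
    rfl

noncomputable def S (R x : ℕ) : ℝ := ∑ n ∈ Icc 1 x, (d R n : ℝ)

theorem S_succ (R x : ℕ) : S (R + 1) x = ∑ a ∈ Icc 1 x, S R (x / a) := by
  unfold S
  rw [← dirR x (fun _ m => (d R m : ℝ))]
  refine sum_congr rfl fun n _ => ?_
  rw [d_succ]
  push_cast
  exact (Nat.sum_div_divisors n (fun a => (d R a : ℝ))).symm

theorem S_one (x : ℕ) : S 1 x = x := by
  unfold S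
  rw [sum_congr rfl (g := fun _ => (1 : ℝ)) (fun n hn => by rw [d_one (by have := (mem_Icc.1 hn).1; omega)]; simp)]
  simp

theorem S_upper (R : ℕ) : ∀ x : ℕ, 1 ≤ x → S (R + 1) x ≤ x * (1 + Real.log x) ^ R := by
  induction R with
  | zero => intro x hx; rw [S_one]; simp
  | succ R ih =>
    intro x hx
    rw [S_succ]
    have hx' : (1 : ℝ) ≤ x := by exact_mod_cast hx
    have hl : 0 ≤ Real.log x := Real.log_nonneg hx'
    have h1 : ∀ a ∈ Icc 1 x, S (R + 1) (x / a) ≤ (x : ℝ) * (1 + Real.log x) ^ R * (a : ℝ)⁻¹ := by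
      intro a ha
      have ha' := mem_Icc.1 ha
      have hq : 1 ≤ x / a := (Nat.one_le_div_iff (by omega)).2 ha'.2
      refine (ih _ hq).trans ?_
      have hq' : (1 : ℝ) ≤ ((x / a : ℕ) : ℝ) := by exact_mod_cast hq
      have h2 : ((x / a : ℕ) : ℝ) ≤ (x : ℝ) * (a : ℝ)⁻¹ := by rw [← div_eq_mul_inv]; exact Nat.cast_div_le
      have h3 : ((x / a : ℕ) : ℝ) ≤ x := by exact_mod_cast Nat.div_le_self x a
      have h4 : Real.log ((x / a : ℕ) : ℝ) ≤ Real.log x := Real.log_le_log (by linarith) h3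
      have h5 : 0 ≤ Real.log ((x / a : ℕ) : ℝ) := Real.log_nonneg hq'
      have h6 : (1 + Real.log ((x / a : ℕ) : ℝ)) ^ R ≤ (1 + Real.log x) ^ R :=
        pow_le_pow_left₀ (by linarith) (by linarith) R
      calc ((x / a : ℕ) : ℝ) * (1 + Real.log ((x / a : ℕ) : ℝ)) ^ R ≤
            ((x : ℝ) * (a : ℝ)⁻¹) * (1 + Real.log x) ^ R := mul_le_mul h2 h6 (by positivity) (by positivity)
        _ = _ := by ring
    refine (sum_le_sum h1).trans ?_
    rw [← mul_sum]
    have h2 : ∑ a ∈ Icc 1 x, ((a : ℝ))⁻¹ ≤ 1 + Real.log x := by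
      have := harmonic_le_one_add_log x
      rw [harmonic_eq_sum_Icc] at this
      push_cast at this
      exact this
    calc (x : ℝ) * (1 + Real.log x) ^ R * ∑ a ∈ Icc 1 x, ((a : ℝ))⁻¹ ≤ (x : ℝ) * (1 + Real.log x) ^ R * (1 + Real.log x) :=
          mul_le_mul_of_nonneg_left h2 (by positivity)
      _ = _ := by ring

theorem S_nonneg (R x : ℕ) : 0 ≤ S R x := sum_nonneg fun _ _ => Nat.cast_nonneg _

theorem S_ge (R x : ℕ) : (x : ℝ) ≤ S (R + 1) x := by
  unfold S
  calc (x : ℝ) = ∑ n ∈ Icc 1 x, (1 : ℝ) := by simp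
    _ ≤ _ := sum_le_sum fun n hn => by
      have h0 : n ≠ 0 := by have := (mem_Icc.1 hn).1; omega
      have h1 : d (R + 1) 1 ≤ d (R + 1) n := d_mono (by omega) h0 (one_dvd _)
      rw [d_at_one] at h1
      exact_mod_cast h1

theorem S_lower (R : ℕ) : ∃ c : ℝ, 0 < c ∧ ∀ x : ℕ, 1 ≤ x → c * (x * Real.log x ^ R) ≤ S (R + 1) x := by
  induction R with
  | zero => exact ⟨1, one_pos, fun x hx => by rw [S_one]; simp⟩
  | succ R ih =>
    obtain ⟨c, hc, h⟩ := ih
    refine ⟨min (1 / 2 ^ (R + 1)) (c / (2 * 4 ^ (R + 1))), by positivity, fun x hx => ?_⟩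
    have hx' : (1 : ℝ) ≤ x := by exact_mod_cast hx
    have hl : 0 ≤ Real.log x := Real.log_nonneg hx'
    rcases Nat.lt_or_ge x 4 with h4 | h4
    · refine le_trans ?_ (S_ge (R + 1) x)
      have h1 : Real.log x ≤ 2 := by
        have := Real.log_le_sub_one_of_pos (show (0 : ℝ) < x by linarith)
        have h5 : (x : ℝ) ≤ 3 := by exact_mod_cast (show x ≤ 3 by omega)
        linarith
      have h2 : Real.log x ^ (R + 1) ≤ 2 ^ (R + 1) := pow_le_pow_left₀ hl h1 _
      calc min (1 / 2 ^ (R + 1)) (c / (2 * 4 ^ (R + 1))) * (x * Real.log x ^ (R + 1)) ≤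
            1 / 2 ^ (R + 1) * (x * 2 ^ (R + 1)) := by
            apply mul_le_mul (min_le_left _ _) _ (by positivity) (by positivity)
            exact mul_le_mul_of_nonneg_left h2 (by positivity)
        _ = x := by field_simp
    · set s := Nat.sqrt x with hs
      have hs2 : 2 ≤ s := by rw [hs, Nat.le_sqrt]; omega
      have hs1 : s * s ≤ x := Nat.sqrt_le x
      have hs3 : x < (s + 1) * (s + 1) := Nat.lt_succ_sqrt x
      have hs4 : x ≤ s ^ 4 := by
        have : s + 1 ≤ s * s := by nlinarith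
        calc x ≤ (s + 1) * (s + 1) := hs3.le
          _ ≤ (s * s) * (s * s) := Nat.mul_le_mul this this
          _ = s ^ 4 := by ring
      have hsp : (0 : ℝ) < s := by exact_mod_cast (show 0 < s by omega)
      have hls : Real.log x / 4 ≤ Real.log s := by
        have : Real.log x ≤ Real.log ((s : ℝ) ^ 4) := Real.log_le_log (by linarith) (by exact_mod_cast hs4)
        rw [Real.log_pow] at this
        push_cast at this
        linarith
      rw [S_succ]
      have h1 : ∀ a ∈ Icc 1 s, c * (x / 2 * (Real.log x / 4) ^ R) * (a : ℝ)⁻¹ ≤ S (R + 1) (x / a) := by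
        intro a ha
        have ha' := mem_Icc.1 ha
        have hq : s ≤ x / a := by
          rw [Nat.le_div_iff_mul_le (by omega)]
          exact (Nat.mul_le_mul_left s ha'.2).trans hs1
        refine le_trans ?_ (h _ (by omega))
        have hap : (0 : ℝ) < a := by exact_mod_cast (show 0 < a by omega)
        have h2 : (x : ℝ) / 2 * (a : ℝ)⁻¹ ≤ ((x / a : ℕ) : ℝ) := by
          have e1 : x < (x / a + 1) * a := by
            have := Nat.lt_succ_iff.2 (le_refl (x / a))
            rw [Nat.div_lt_iff_lt_mul (by omega)] at this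
            exact this
          have e2 : (x : ℝ) < (((x / a : ℕ) : ℝ) + 1) * a := by exact_mod_cast e1
          have e3 : (1 : ℝ) ≤ ((x / a : ℕ) : ℝ) := by exact_mod_cast (show 1 ≤ x / a by omega)
          rw [← div_eq_mul_inv, div_le_iff₀ hap]
          nlinarith
        have h3 : Real.log x / 4 ≤ Real.log ((x / a : ℕ) : ℝ) :=
          hls.trans (Real.log_le_log hsp (by exact_mod_cast hq))
        have h4' : (Real.log x / 4) ^ R ≤ Real.log ((x / a : ℕ) : ℝ) ^ R :=
          pow_le_pow_left₀ (by positivity) h3 R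
        calc c * (x / 2 * (Real.log x / 4) ^ R) * (a : ℝ)⁻¹ = c * ((x / 2 * (a : ℝ)⁻¹) * (Real.log x / 4) ^ R) := by ring
          _ ≤ c * (((x / a : ℕ) : ℝ) * Real.log ((x / a : ℕ) : ℝ) ^ R) := by
            apply mul_le_mul_of_nonneg_left _ hc.le
            exact mul_le_mul h2 h4' (by positivity) (by positivity)
      have h2 : Icc 1 s ⊆ Icc 1 x := Icc_subset_Icc_right (by nlinarith)
      refine le_trans ?_ (sum_le_sum_of_subset_of_nonneg h2 fun _ _ _ => S_nonneg _ _)
      refine le_trans ?_ (sum_le_sum h1)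
      rw [← mul_sum]
      have h3 : Real.log x / 4 ≤ ∑ a ∈ Icc 1 s, ((a : ℝ))⁻¹ := by
        have := log_add_one_le_harmonic s
        rw [harmonic_eq_sum_Icc] at this
        push_cast at this
        refine hls.trans (le_trans ?_ this)
        exact Real.log_le_log hsp (by linarith)
      calc min (1 / 2 ^ (R + 1)) (c / (2 * 4 ^ (R + 1))) * (x * Real.log x ^ (R + 1)) ≤
            (c / (2 * 4 ^ (R + 1))) * (x * Real.log x ^ (R + 1)) :=
            mul_le_mul_of_nonneg_right (min_le_right _ _) (by positivity)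
        _ = c * (x / 2 * (Real.log x / 4) ^ R) * (Real.log x / 4) := by
          rw [div_pow]; field_simp; ring
        _ ≤ _ := mul_le_mul_of_nonneg_left h3 (by positivity)

noncomputable def T {k : ℕ} (r : Fin k → ℕ) (x : ℕ) : ℝ := ∑ n ∈ Icc 1 x, (F r n : ℝ)

theorem T_le {k : ℕ} (r : Fin k → ℕ) (x : ℕ) : T r x ≤ S (∏ i, r i) x := by
  unfold T S
  refine sum_le_sum fun n hn => ?_
  exact_mod_cast F_le r (by have := (mem_Icc.1 hn).1; omega)

theorem T_mono {k : ℕ} (r : Fin k → ℕ) {x y : ℕ} (h : x ≤ y) : T r x ≤ T r y :=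
  sum_le_sum_of_subset_of_nonneg (Icc_subset_Icc_right h) fun _ _ _ => Nat.cast_nonneg _

/-- the numbers `u ^ 2 * v ^ 3` -/
def Sq : Set ℕ := {b | ∃ u v : ℕ, u ≠ 0 ∧ v ≠ 0 ∧ b = u ^ 2 * v ^ 3}

theorem sq_summ (R : ℕ) : Summable (Sq.indicator fun b : ℕ => (d R b : ℝ) / b) := by
  rw [← summable_subtype_iff_indicator]
  have h1 := (summ (R * R)).mul_of_nonneg (summ (R * (R * R))) (fun n => by positivity) (fun n => by positivity)
  choose! u v hu hv huv using (show ∀ b : ℕ, b ∈ Sq → ∃ u v : ℕ, u ≠ 0 ∧ v ≠ 0 ∧ b = u ^ 2 * v ^ 3 from fun b hb => hb)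
  have hinj : Function.Injective (fun b : Sq => (u b, v b)) := by
    intro a b hab
    simp only [Prod.mk.injEq] at hab
    apply Subtype.ext
    rw [huv a a.2, huv b b.2, hab.1, hab.2]
  refine Summable.of_nonneg_of_le (fun b => by simp only [Function.comp]; positivity) ?_ (h1.comp_injective hinj)
  rintro ⟨b, hb⟩
  have hu' := hu b hb
  have hv' := hv b hb
  have e := huv b hb
  simp only [Function.comp]
  generalize u b = p at *
  generalize v b = q at *
  have hp : (1 : ℝ) ≤ p := by exact_mod_cast Nat.one_le_iff_ne_zero.2 hu'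
  have hq : (1 : ℝ) ≤ q := by exact_mod_cast Nat.one_le_iff_ne_zero.2 hv'
  have h2 : d R b ≤ d (R * R) p * d (R * (R * R)) q := by
    rw [e]
    have e2 : p ^ 2 * q ^ 3 = (p * p) * (q * (q * q)) := by ring
    rw [e2]
    refine (d_sub R _ _ (mul_ne_zero hu' hu') (mul_ne_zero hv' (mul_ne_zero hv' hv'))).trans ?_
    refine Nat.mul_le_mul ((d_sub R _ _ hu' hu').trans (d_mul_le R R _ hu')) ?_
    refine (d_sub R _ _ hv' (mul_ne_zero hv' hv')).trans ?_
    refine (Nat.mul_le_mul_left _ ((d_sub R _ _ hv' hv').trans (d_mul_le R R _ hv'))).trans ?_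
    rw [mul_comm]
    exact d_mul_le R (R * R) _ hv'
  have h3 : (d R b : ℝ) ≤ d (R * R) p * d (R * (R * R)) q := by exact_mod_cast h2
  have h4 : (p : ℝ) ^ 2 * (q : ℝ) ^ 2 ≤ b := by
    rw [e]; push_cast
    have : (q : ℝ) ^ 2 ≤ (q : ℝ) ^ 3 := pow_le_pow_right₀ hq (by norm_num)
    gcongr
  calc (d R b : ℝ) / b ≤ (d (R * R) p * d (R * (R * R)) q) / ((p : ℝ) ^ 2 * (q : ℝ) ^ 2) :=
        div_le_div₀ (by positivity) h3 (by positivity) h4
    _ = _ := by rw [mul_div_mul_comm]

theorem conv_bound {k : ℕ} (r : Fin k → ℕ) (x : ℕ) :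
    S (∏ i, r i) x ≤ ∑ b ∈ Icc 1 x, (Sq.indicator (fun b : ℕ => (d (∏ i, r i) b : ℝ)) b) * T r (x / b) := by
  have e : ∀ b ∈ Icc 1 x, (Sq.indicator (fun b : ℕ => (d (∏ i, r i) b : ℝ)) b) * T r (x / b) =
      ∑ m ∈ Icc 1 (x / b), (Sq.indicator (fun b : ℕ => (d (∏ i, r i) b : ℝ)) b) * (F r m : ℝ) := by
    intro b _
    unfold T
    rw [mul_sum]
  rw [sum_congr rfl e, ← dirR x (fun b m => (Sq.indicator (fun b : ℕ => (d (∏ i, r i) b : ℝ)) b) * (F r m : ℝ))]
  unfold S
  refine sum_le_sum fun n hn => ?_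
  have hn0 : n ≠ 0 := by have := (mem_Icc.1 hn).1; omega
  obtain ⟨a, u, v, ha, hu, hv, e1, hc, hF⟩ := decomp r n hn0
  have hb : u ^ 2 * v ^ 3 ∈ n.divisors := Nat.mem_divisors.2 ⟨Dvd.intro_left _ e1.symm, hn0⟩
  have hb0 : 0 < u ^ 2 * v ^ 3 := Nat.pos_of_mem_divisors hb
  have h1 := single_le_sum (f := fun b => (Sq.indicator (fun b : ℕ => (d (∏ i, r i) b : ℝ)) b) * (F r (n / b) : ℝ))
    (s := n.divisors) (fun b _ => mul_nonneg (Set.indicator_nonneg (fun _ _ => Nat.cast_nonneg _) _) (Nat.cast_nonneg _)) hb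
  refine le_trans ?_ h1
  have hq : n / (u ^ 2 * v ^ 3) = a := by rw [e1, Nat.mul_div_cancel _ hb0]
  rw [hq, Set.indicator_of_mem (show u ^ 2 * v ^ 3 ∈ Sq from ⟨u, v, hu, hv, rfl⟩), hF]
  rw [e1, d_coprime _ hc]
  push_cast
  rw [mul_comm]

theorem T_lower {k : ℕ} (r : Fin k → ℕ) (hr : ∀ i, 1 ≤ r i) :
    ∃ c : ℝ, 0 < c ∧ ∀ x : ℕ, 2 ≤ x → c * (x * Real.log x ^ ((∏ i, r i) - 1)) ≤ T r x := by
  have hρ : 1 ≤ ∏ i, r i := Nat.one_le_iff_ne_zero.2 (prod_ne_zero_iff.2 fun i _ => by have := hr i; omega)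
  obtain ⟨R, hR⟩ : ∃ R, ∏ i, r i = R + 1 := ⟨(∏ i, r i) - 1, by omega⟩
  obtain ⟨c, hc, hlow⟩ := S_lower R
  have hsum := sq_summ (∏ i, r i)
  set f : ℕ → ℝ := Sq.indicator fun b : ℕ => (d (∏ i, r i) b : ℝ) / b with hf
  have hf0 : ∀ b, 0 ≤ f b := fun b => Set.indicator_nonneg (fun _ _ => by positivity) _
  set ε : ℝ := c / (2 * 3 ^ R) with hε
  have hεp : 0 < ε := by positivity
  obtain ⟨B, hB⟩ : ∃ B : ℕ, ∑' b, f b - ε < ∑ b ∈ range B, f b := by
    have := hsum.hasSum.tendsto_sum_nat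
    exact (this.eventually (lt_mem_nhds (by linarith))).exists
  set g : ℕ → ℝ := Sq.indicator fun b : ℕ => (d (∏ i, r i) b : ℝ) with hg
  have hg0 : ∀ b, 0 ≤ g b := fun b => Set.indicator_nonneg (fun _ _ => by positivity) _
  have hgf : ∀ b : ℕ, b ≠ 0 → g b = f b * b := by
    intro b hb
    rw [hg, hf]
    by_cases h : b ∈ Sq
    · rw [Set.indicator_of_mem h, Set.indicator_of_mem h]
      have : (b : ℝ) ≠ 0 := by exact_mod_cast hb
      field_simp
    · rw [Set.indicator_of_notMem h, Set.indicator_of_notMem h, zero_mul]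
  set G : ℝ := ∑ b ∈ range B, g b with hG
  have hG0 : 0 ≤ G := sum_nonneg fun b _ => hg0 b
  refine ⟨c / 2 / (G + 1), by positivity, fun x hx => ?_⟩
  have hx' : (2 : ℝ) ≤ x := by exact_mod_cast hx
  have hl2 : (0.69 : ℝ) ≤ Real.log x := by
    have := Real.log_two_gt_d9
    have h2 := Real.log_le_log (by norm_num) hx'
    linarith
  have hT0 : 0 ≤ T r x := sum_nonneg fun _ _ => Nat.cast_nonneg _
  have h1 := conv_bound r x
  rw [← hg] at h1
  have h2 : c * (x * Real.log x ^ R) ≤ S (∏ i, r i) x := by rw [hR]; exact hlow x (by omega)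
  -- split
  have h3 : ∑ b ∈ Icc 1 x, g b * T r (x / b) ≤ G * T r x + ε * (x * (1 + Real.log x) ^ R) := by
    have e1 : ∀ b ∈ Icc 1 x, g b * T r (x / b) ≤ (if b < B then g b * T r x else 0) +
        (if B ≤ b then f b * (x * (1 + Real.log x) ^ R) else 0) := by
      intro b hb
      have hb' := mem_Icc.1 hb
      rcases Nat.lt_or_ge b B with h | h
      · rw [if_pos h, if_neg (by omega), add_zero]
        exact mul_le_mul_of_nonneg_left (T_mono r (Nat.div_le_self _ _)) (hg0 b)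
      · rw [if_neg (by omega), if_pos h, zero_add, hgf b (by omega)]
        rw [mul_assoc]
        apply mul_le_mul_of_nonneg_left _ (hf0 b)
        have hq : 1 ≤ x / b := (Nat.one_le_div_iff (by omega)).2 hb'.2
        have h5 : T r (x / b) ≤ ((x / b : ℕ) : ℝ) * (1 + Real.log ((x / b : ℕ) : ℝ)) ^ R := by
          refine (T_le r (x / b)).trans ?_
          rw [hR]
          exact S_upper R _ hq
        have hq' : (1 : ℝ) ≤ ((x / b : ℕ) : ℝ) := by exact_mod_cast hq
        have h6 : (b : ℝ) * ((x / b : ℕ) : ℝ) ≤ x := by exact_mod_cast Nat.mul_div_le x b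
        have h7 : Real.log ((x / b : ℕ) : ℝ) ≤ Real.log x :=
          Real.log_le_log (by linarith) (by exact_mod_cast Nat.div_le_self x b)
        have h8 : (1 + Real.log ((x / b : ℕ) : ℝ)) ^ R ≤ (1 + Real.log x) ^ R :=
          pow_le_pow_left₀ (by have := Real.log_nonneg hq'; linarith) (by linarith) R
        calc (b : ℝ) * T r (x / b) ≤ b * (((x / b : ℕ) : ℝ) * (1 + Real.log ((x / b : ℕ) : ℝ)) ^ R) :=
              mul_le_mul_of_nonneg_left h5 (by positivity)
          _ = (b * ((x / b : ℕ) : ℝ)) * (1 + Real.log ((x / b : ℕ) : ℝ)) ^ R := by ring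
          _ ≤ x * (1 + Real.log x) ^ R := mul_le_mul h6 h8 (by
                have := Real.log_nonneg hq'; positivity) (by positivity)
    refine (sum_le_sum e1).trans ?_
    rw [sum_add_distrib, ← sum_filter, ← sum_filter]
    apply add_le_add
    · rw [← sum_mul]
      apply mul_le_mul_of_nonneg_right _ hT0
      apply sum_le_sum_of_subset_of_nonneg
      · intro b hb
        exact mem_range.2 (mem_filter.1 hb).2
      · intro b _ _; exact hg0 b
    · rw [← sum_mul]
      apply mul_le_mul_of_nonneg_right _ (by positivity)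
      have hd : Disjoint (range B) ((Icc 1 x).filter (fun b => B ≤ b)) := by
        rw [disjoint_left]
        intro b hb hb'
        have := mem_range.1 hb
        have := (mem_filter.1 hb').2
        omega
      have := hsum.sum_le_tsum (range B ∪ (Icc 1 x).filter (fun b => B ≤ b)) (fun b _ => hf0 b)
      rw [sum_union hd] at this
      linarith
  have h4 : ε * (x * (1 + Real.log x) ^ R) ≤ c / 2 * (x * Real.log x ^ R) := by
    have : (1 + Real.log x) ^ R ≤ (3 * Real.log x) ^ R := pow_le_pow_left₀ (by linarith) (by linarith) R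
    rw [mul_pow] at this
    calc ε * (x * (1 + Real.log x) ^ R) ≤ ε * (x * (3 ^ R * Real.log x ^ R)) := by gcongr
      _ = _ := by rw [hε]; field_simp
  have h5 : c / 2 * (x * Real.log x ^ R) ≤ G * T r x := by linarith
  have h6 : c / 2 * (x * Real.log x ^ R) ≤ (G + 1) * T r x := by nlinarith
  rw [hR, Nat.add_sub_cancel]
  calc c / 2 / (G + 1) * (x * Real.log x ^ R) = (c / 2 * (x * Real.log x ^ R)) / (G + 1) := by ring
    _ ≤ _ := by rw [div_le_iff₀ (by positivity)]; linarith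

end Pool.Agent.H49.EX
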