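import Pool.Agent.H49.D.JB

set_option autoImplicit false

/-! Divisor functions at almost rational slopes: the open dense sets. -/

namespace Pool.Agent.H49.EX

open Finset Filter Topology

theorem T_real {k : ℕ} (r : Fin k → ℕ) (hr : ∀ i, 1 ≤ r i) :
    ∃ c : ℝ, 0 < c ∧ ∀ x : ℝ, 2 ≤ x → c * (x * Real.log x ^ ((∏ i, r i) - 1)) ≤ T r ⌊x⌋₊ := by
  obtain ⟨c, hc, h⟩ := T_lower r hr
  set R := (∏ i, r i) - 1
  refine ⟨c / (2 * 2 ^ R), by positivity, fun x hx => ?_⟩
  have hn : 2 ≤ ⌊x⌋₊ := Nat.le_floor (by exact_mod_cast hx)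
  refine le_trans ?_ (h _ hn)
  set n := ⌊x⌋₊
  have hn' : (2 : ℝ) ≤ n := by exact_mod_cast hn
  have h1 : x < n + 1 := Nat.lt_floor_add_one x
  have h2 : x ≤ 2 * n := by linarith
  have h3 : x ≤ (n : ℝ) ^ 2 := by nlinarith
  have h4 : Real.log x ≤ 2 * Real.log n := by
    have := Real.log_le_log (by linarith) h3
    rw [Real.log_pow] at this
    exact_mod_cast this
  have h5 : Real.log x ^ R ≤ (2 * Real.log n) ^ R := pow_le_pow_left₀ (Real.log_nonneg (by linarith)) h4 R
  rw [mul_pow] at h5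
  have h6 : 0 ≤ Real.log n := Real.log_nonneg (by linarith)
  calc c / (2 * 2 ^ R) * (x * Real.log x ^ R) ≤ c / (2 * 2 ^ R) * ((2 * n) * (2 ^ R * Real.log n ^ R)) := by
        apply mul_le_mul_of_nonneg_left _ (by positivity)
        exact mul_le_mul h2 h5 (pow_nonneg (Real.log_nonneg (by linarith)) _) (by positivity)
    _ = _ := by field_simp

theorem short {k : ℕ} (r : Fin k → ℕ) (hr : ∀ i, 1 ≤ r i) (lam : ℝ) (hl : 1 < lam) :
    ∃ c : ℝ, 0 < c ∧ ∀ x₀ : ℝ, ∃ x : ℝ, x₀ ≤ x ∧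
      c * (x * Real.log x ^ ((∏ i, r i) - 1)) ≤ T r ⌊lam * x⌋₊ - T r ⌊x⌋₊ := by
  obtain ⟨c, hc, h⟩ := T_real r hr
  set R := (∏ i, r i) - 1
  have hl' : 0 < lam - 1 := by linarith
  refine ⟨c * (lam - 1) / 2, by positivity, fun x₁ => ?_⟩
  by_contra hcon
  push Not at hcon
  set x₀ := max x₁ 2
  have hx2 : (2 : ℝ) ≤ x₀ := le_max_right _ _
  have step : ∀ J : ℕ, T r ⌊lam ^ J * x₀⌋₊ ≤ T r ⌊x₀⌋₊ + c / 2 * ((lam ^ J * x₀) * Real.log (lam ^ J * x₀) ^ R) := by
    intro J
    induction J with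
    | zero =>
      rw [pow_zero, one_mul]
      have : 0 ≤ c / 2 * (x₀ * Real.log x₀ ^ R) := by
        have := Real.log_nonneg (show 1 ≤ x₀ by linarith)
        positivity
      linarith
    | succ J ih =>
      set y := lam ^ J * x₀ with hy
      have hJ : 1 ≤ lam ^ J := one_le_pow₀ hl.le
      have hy0 : x₀ ≤ y := by rw [hy]; nlinarith
      have hy1 := hcon y ((le_max_left _ _).trans hy0)
      have e : lam ^ (J + 1) * x₀ = lam * y := by rw [hy]; ring
      rw [e]
      have hlog : Real.log y ^ R ≤ Real.log (lam * y) ^ R :=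
        pow_le_pow_left₀ (Real.log_nonneg (by linarith)) (Real.log_le_log (by linarith) (by nlinarith)) R
      have h0 : 0 ≤ Real.log y ^ R := pow_nonneg (Real.log_nonneg (by linarith)) _
      have h3 : T r ⌊lam * y⌋₊ ≤ T r ⌊x₀⌋₊ + c / 2 * (lam * y) * Real.log y ^ R := by
        have : c / 2 * (y * Real.log y ^ R) + c * (lam - 1) / 2 * (y * Real.log y ^ R) =
          c / 2 * (lam * y) * Real.log y ^ R := by ring
        linarith
      refine h3.trans ?_
      have : c / 2 * (lam * y) * Real.log y ^ R ≤ c / 2 * (lam * y) * Real.log (lam * y) ^ R :=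
        mul_le_mul_of_nonneg_left hlog (by positivity)
      linarith
  -- contradiction
  have hlim : Tendsto (fun J : ℕ => c / 2 * (lam ^ J * x₀) * Real.log x₀ ^ R) atTop atTop := by
    have h1 : Tendsto (fun J : ℕ => lam ^ J) atTop atTop := tendsto_pow_atTop_atTop_of_one_lt hl
    have h2 : 0 < Real.log x₀ := Real.log_pos (by linarith)
    have h3 := h1.const_mul_atTop (show 0 < c / 2 * x₀ * Real.log x₀ ^ R by positivity)
    refine h3.congr fun J => by ring
  obtain ⟨J, hJ⟩ := (hlim.eventually_gt_atTop (T r ⌊x₀⌋₊)).exists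
  have hy := step J
  have hJ1 : 1 ≤ lam ^ J := one_le_pow₀ hl.le
  have hy2 : x₀ ≤ lam ^ J * x₀ := by nlinarith
  have h5 := h (lam ^ J * x₀) (by linarith)
  have h6 : Real.log x₀ ^ R ≤ Real.log (lam ^ J * x₀) ^ R :=
    pow_le_pow_left₀ (Real.log_nonneg (by linarith)) (Real.log_le_log (by linarith) hy2) R
  have h7 : c / 2 * (lam ^ J * x₀) * Real.log x₀ ^ R ≤ c / 2 * (lam ^ J * x₀) * Real.log (lam ^ J * x₀) ^ R :=
    mul_le_mul_of_nonneg_left h6 (by positivity)
  linarith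

/-- the correlation sum -/
noncomputable def Cor {k : ℕ} (r₀ : ℕ) (r : Fin k → ℕ) (α : Fin k → ℝ) (h : Fin k → ℤ) (X : ℕ) : ℝ :=
  ∑ n ∈ Icc 1 X, (d r₀ n : ℝ) * ∏ i, (d (r i) (⌊α i * (n : ℝ)⌋ + h i).toNat : ℝ)

/-- the slopes near `a / q` -/
def V {k : ℕ} (h : Fin k → ℤ) (q : ℕ) (a : Fin k → ℕ) (A B : ℕ) : Set (Fin k → ℝ) :=
  {α | ∀ i, ∀ m ∈ Ioc A B, 0 < α i * (q * m) - a i * m + h i ∧ α i * (q * m) - a i * m + h i < 1}

theorem V_open {k : ℕ} (h : Fin k → ℤ) (q : ℕ) (a : Fin k → ℕ) (A B : ℕ) : IsOpen (V h q a A B) := by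
  have : V h q a A B = ⋂ i, ⋂ m ∈ Ioc A B,
      ({α : Fin k → ℝ | 0 < α i * (q * m) - a i * m + h i} ∩ {α | α i * (q * m) - a i * m + h i < 1}) := by
    ext α
    simp only [V, Set.mem_ofPred_eq, Set.mem_iInter, Set.mem_inter_iff]
  rw [this]
  refine isOpen_iInter_of_finite fun i => isOpen_biInter_finset fun m _ => IsOpen.inter ?_ ?_
  · exact isOpen_lt continuous_const (by fun_prop)
  · exact isOpen_lt (by fun_prop) continuous_const

theorem F_cons {k : ℕ} (r₀ : ℕ) (r : Fin k → ℕ) (n : ℕ) :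
    F (Fin.cons r₀ r : Fin (k + 1) → ℕ) n = d r₀ n * ∏ i, d (r i) n := by
  unfold F
  rw [Fin.prod_univ_succ]
  simp

theorem T_sub {k : ℕ} (r : Fin k → ℕ) {A B : ℕ} (h : A ≤ B) : T r B - T r A = ∑ m ∈ Ioc A B, (F r m : ℝ) := by
  unfold T
  have : Icc 1 B = Icc 1 A ∪ Ioc A B := by
    ext m; simp only [mem_union, mem_Icc, mem_Ioc]; omega
  rw [this, sum_union]
  · ring
  · rw [disjoint_left]
    intro m h1 h2
    have := (mem_Icc.1 h1).2
    have := (mem_Ioc.1 h2).1
    omega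

theorem V_sum {k : ℕ} (r₀ : ℕ) (r : Fin k → ℕ) (h0 : 1 ≤ r₀) (hr : ∀ i, 1 ≤ r i) (h : Fin k → ℤ) (q : ℕ) (hq : 1 ≤ q)
    (a : Fin k → ℕ) (ha : ∀ i, 1 ≤ a i) (A B X : ℕ) (hAB : A ≤ B) (hX : q * B ≤ X) (α : Fin k → ℝ)
    (hα : ∀ i, ∀ m ∈ Ioc A B, ⌊α i * ((q * m : ℕ) : ℝ)⌋ + h i = a i * m) :
    T (Fin.cons r₀ r : Fin (k + 1) → ℕ) B - T (Fin.cons r₀ r : Fin (k + 1) → ℕ) A ≤ Cor r₀ r α h X := by
  rw [T_sub _ hAB]
  unfold Cor
  have h1 : ∑ n ∈ (Ioc A B).image (fun m => q * m), (d r₀ n : ℝ) * ∏ i, (d (r i) (⌊α i * (n : ℝ)⌋ + h i).toNat : ℝ) ≤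
      ∑ n ∈ Icc 1 X, (d r₀ n : ℝ) * ∏ i, (d (r i) (⌊α i * (n : ℝ)⌋ + h i).toNat : ℝ) := by
    apply sum_le_sum_of_subset_of_nonneg
    · intro n hn
      obtain ⟨m, hm, rfl⟩ := mem_image.1 hn
      have := mem_Ioc.1 hm
      rw [mem_Icc]
      exact ⟨Nat.mul_pos (by omega) (by omega), (Nat.mul_le_mul_left q this.2).trans hX⟩
    · intro n _ _
      positivity
  refine le_trans ?_ h1
  rw [sum_image (fun x _ y _ hxy => Nat.eq_of_mul_eq_mul_left (by omega) hxy)]
  refine sum_le_sum fun m hm => ?_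
  have hm' := mem_Ioc.1 hm
  rw [F_cons]
  push_cast
  have e1 : (d r₀ m : ℝ) ≤ d r₀ (q * m) := by
    exact_mod_cast d_mono h0 (mul_ne_zero (by omega) (by omega)) (dvd_mul_left _ _)
  refine mul_le_mul e1 ?_ (by positivity) (by positivity)
  refine prod_le_prod (fun _ _ => by positivity) fun i _ => ?_
  have e2 := hα i m hm
  push_cast at e2
  rw [e2]
  have e3 : ((a i : ℤ) * (m : ℤ)).toNat = a i * m := by
    rw [← Nat.cast_mul, Int.toNat_natCast]
  rw [e3]
  exact_mod_cast d_mono (hr i) (mul_ne_zero (by have := ha i; omega) (by omega)) (dvd_mul_left _ _)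

theorem V_floor {k : ℕ} (h : Fin k → ℤ) (q : ℕ) (a : Fin k → ℕ) (A B : ℕ) (α : Fin k → ℝ) (hα : α ∈ V h q a A B) :
    ∀ i, ∀ m ∈ Ioc A B, ⌊α i * ((q * m : ℕ) : ℝ)⌋ + h i = a i * m := by
  intro i m hm
  obtain ⟨h1, h2⟩ := hα i m hm
  have : ⌊α i * ((q * m : ℕ) : ℝ)⌋ = a i * m - h i := by
    rw [Int.floor_eq_iff]
    push_cast
    constructor <;> linarith
  rw [this]; ring

theorem open_dense {k : ℕ} (r₀ : ℕ) (r : Fin k → ℕ) (h0 : 1 ≤ r₀) (hr : ∀ i, 1 ≤ r i) (g : ℕ → ℝ)
    (hg : Tendsto g atTop (𝓝 0)) (h : Fin k → ℤ) (K : ℕ) :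
    ∃ O : Set (Fin k → ℝ), IsOpen O ∧ Dense O ∧ ∀ α ∈ O, (∀ i, 0 < α i) →
      ∃ X : ℕ, K ≤ X ∧ g X * (X * Real.log X ^ (r₀ * ∏ i, r i - 1)) < Cor r₀ r α h X := by
  classical
  set H : ℝ := ∑ i, |(h i : ℝ)| with hH
  have hH0 : 0 ≤ H := sum_nonneg fun _ _ => abs_nonneg _
  have hHi : ∀ i, |(h i : ℝ)| ≤ H := fun i => single_le_sum (f := fun i => |(h i : ℝ)|) (fun _ _ => abs_nonneg _) (mem_univ i)
  set lam : ℝ := 1 + 1 / (2 * (H + 1)) with hlam
  have hlam1 : 1 < lam := by rw [hlam]; have : 0 < 1 / (2 * (H + 1)) := by positivity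
                             linarith
  set r' : Fin (k + 1) → ℕ := Fin.cons r₀ r with hr'
  have hr1 : ∀ i, 1 ≤ r' i := by
    intro i
    refine Fin.cases ?_ (fun j => ?_) i
    · exact h0
    · exact hr j
  have hprod : ∏ i, r' i = r₀ * ∏ i, r i := by rw [Fin.prod_univ_succ]; simp [hr']
  obtain ⟨c, hc, hshort⟩ := short r' hr1 lam hlam1
  rw [hprod] at hshort
  set R := r₀ * ∏ i, r i - 1 with hR
  refine ⟨(⋃ i, {α : Fin k → ℝ | α i < 0}) ∪ ⋃ (X : ℕ), ⋃ (q : ℕ), ⋃ (a : Fin k → ℕ), ⋃ (A : ℕ), ⋃ (B : ℕ),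
    ⋃ (_ : K ≤ X ∧ 1 ≤ q ∧ (∀ i, 1 ≤ a i) ∧ A ≤ B ∧ q * B ≤ X ∧ g X * (X * Real.log X ^ R) < T r' B - T r' A),
      V h q a A B, ?_, ?_, ?_⟩
  · refine IsOpen.union (isOpen_iUnion fun i => isOpen_lt (continuous_apply i) continuous_const) ?_
    exact isOpen_iUnion fun X => isOpen_iUnion fun q => isOpen_iUnion fun a => isOpen_iUnion fun A =>
      isOpen_iUnion fun B => isOpen_iUnion fun _ => V_open h q a A B
  · rw [Metric.dense_iff]
    intro α ε hε
    by_cases hpos : ∀ i, 0 < α i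
    · obtain ⟨n, hn⟩ := exists_nat_one_div_lt (show (0 : ℝ) < ε / 2 by positivity)
      set q : ℕ := n + 1 with hq
      have hqp : (0 : ℝ) < q := by positivity
      have hq1 : (1 : ℝ) ≤ q := by rw [hq]; push_cast; linarith [Nat.cast_nonneg (α := ℝ) n]
      have hn' : 1 / (q : ℝ) < ε / 2 := by rw [hq]; push_cast; exact hn
      set a : Fin k → ℕ := fun i => ⌈α i * q⌉₊ with ha
      have ha1 : ∀ i, 1 ≤ a i := fun i => Nat.ceil_pos.2 (mul_pos (hpos i) hqp)
      set δ : ℝ := c / (q * lam * 2 ^ R) with hδ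
      have hδp : 0 < δ := by positivity
      obtain ⟨K1, hK1⟩ := (Metric.tendsto_atTop.1 hg) δ hδp
      obtain ⟨x, hx0, hx⟩ := hshort (max (max (2 : ℝ) (q * lam)) (max (max (K : ℝ) K1) (2 * (H + 1) / ε + 1)))
      have hx2 : (2 : ℝ) ≤ x := ((le_max_left _ _).trans (le_max_left _ _)).trans hx0
      have hxq : (q : ℝ) * lam ≤ x := ((le_max_right _ _).trans (le_max_left _ _)).trans hx0
      have hxK : (K : ℝ) ≤ x := (((le_max_left _ _).trans (le_max_left _ _)).trans (le_max_right _ _)).trans hx0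
      have hxK1 : (K1 : ℝ) ≤ x := (((le_max_right _ _).trans (le_max_left _ _)).trans (le_max_right _ _)).trans hx0
      have hxH : 2 * (H + 1) / ε + 1 ≤ x := ((le_max_right _ _).trans (le_max_right _ _)).trans hx0
      have hxp : 0 < x := by linarith
      set A := ⌊x⌋₊ with hA
      set B := ⌊lam * x⌋₊ with hB
      have hAB : A ≤ B := Nat.floor_le_floor (by nlinarith)
      set X := q * B with hX
      have hAX : A ≤ X := hAB.trans (Nat.le_mul_of_pos_left _ (by omega))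
      have hBx : (B : ℝ) ≤ lam * x := Nat.floor_le (by positivity)
      have hXx : (X : ℝ) ≤ q * lam * x := by
        rw [hX]; push_cast
        calc (q : ℝ) * B ≤ q * (lam * x) := mul_le_mul_of_nonneg_left hBx hqp.le
          _ = _ := by ring
      have hX1 : 1 ≤ X := le_trans (Nat.le_floor (by push_cast; linarith)) hAX
      have hX1' : (1 : ℝ) ≤ X := by exact_mod_cast hX1
      have hlogX : Real.log X ≤ 2 * Real.log x := by
        have h1 : (X : ℝ) ≤ x ^ 2 := by nlinarith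
        have := Real.log_le_log (by linarith) h1
        rw [Real.log_pow] at this
        exact_mod_cast this
      have hgX : |g X| < δ := by
        have := hK1 X ((Nat.le_floor hxK1).trans hAX)
        rwa [Real.dist_eq, sub_zero] at this
      have hlogx : 0 < Real.log x := Real.log_pos (by linarith)
      have hgood : g X * (X * Real.log X ^ R) < T r' B - T r' A := by
        refine lt_of_lt_of_le ?_ hx
        have h1 : (X : ℝ) * Real.log X ^ R ≤ (q * lam * x) * (2 ^ R * Real.log x ^ R) := by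
          rw [← mul_pow]
          exact mul_le_mul hXx (pow_le_pow_left₀ (Real.log_nonneg hX1') hlogX R)
            (pow_nonneg (Real.log_nonneg hX1') _) (by positivity)
        have h2 : 0 ≤ (X : ℝ) * Real.log X ^ R := mul_nonneg (by positivity) (pow_nonneg (Real.log_nonneg hX1') _)
        calc g X * (X * Real.log X ^ R) ≤ |g X| * (X * Real.log X ^ R) := mul_le_mul_of_nonneg_right (le_abs_self _) h2
          _ ≤ |g X| * ((q * lam * x) * (2 ^ R * Real.log x ^ R)) := mul_le_mul_of_nonneg_left h1 (abs_nonneg _)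
          _ < δ * ((q * lam * x) * (2 ^ R * Real.log x ^ R)) := mul_lt_mul_of_pos_right hgX (by positivity)
          _ = c * (x * Real.log x ^ R) := by rw [hδ]; field_simp
      refine ⟨fun i => a i / q + (1 / 2 - h i) / (q * x), ?_, ?_⟩
      · rw [Metric.mem_ball, dist_pi_lt_iff hε]
        intro i
        rw [Real.dist_eq]
        have h1 : α i * q ≤ a i := Nat.le_ceil _
        have h2 : (a i : ℝ) < α i * q + 1 := Nat.ceil_lt_add_one (mul_pos (hpos i) hqp).le
        have h3 : |(a i : ℝ) / q - α i| ≤ 1 / q := by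
          have : (a i : ℝ) / q - α i = (a i - α i * q) / q := by field_simp
          rw [this, abs_div, abs_of_pos hqp, abs_of_nonneg (by linarith)]
          exact div_le_div_of_nonneg_right (by linarith) hqp.le
        have h4 : |(1 / 2 - (h i : ℝ)) / (q * x)| < ε / 2 := by
          rw [abs_div, abs_of_pos (show (0 : ℝ) < q * x by positivity), div_lt_iff₀ (by positivity)]
          have h5 : |1 / 2 - (h i : ℝ)| ≤ H + 1 := by
            have h6 := abs_sub (1 / 2 : ℝ) (h i : ℝ)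
            have h7 := hHi i
            have h8 : |(1 / 2 : ℝ)| = 1 / 2 := abs_of_pos (by norm_num)
            linarith
          have h6 : H + 1 < ε / 2 * x := by
            have : 2 * (H + 1) / ε < x := by linarith
            rw [div_lt_iff₀ hε] at this
            linarith
          have h7 : ε / 2 * x ≤ ε / 2 * (q * x) := by
            apply mul_le_mul_of_nonneg_left _ (by positivity)
            nlinarith
          linarith
        have e : (a i : ℝ) / q + (1 / 2 - h i) / (q * x) - α i = ((a i : ℝ) / q - α i) + (1 / 2 - h i) / (q * x) := by ring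
        rw [e]
        refine (abs_add_le _ _).trans_lt ?_
        linarith
      · refine Or.inr ?_
        simp only [Set.mem_iUnion]
        refine ⟨X, q, a, A, B, ⟨(Nat.le_floor hxK).trans hAX, by omega, ha1, hAB, le_refl _, hgood⟩, ?_⟩
        intro i m hm
        have hm' := mem_Ioc.1 hm
        have hm1 : x < m := by
          have := hm'.1
          rw [hA] at this
          exact Nat.lt_of_floor_lt this
        have hm2 : (m : ℝ) ≤ lam * x := le_trans (by exact_mod_cast hm'.2) hBx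
        set t : ℝ := m / x - 1 with ht
        have ht0 : 0 < t := by rw [ht]; have := (one_lt_div hxp).2 hm1; linarith
        have ht1 : t ≤ 1 / (2 * (H + 1)) := by
          have : (m : ℝ) / x ≤ lam := (div_le_iff₀ hxp).2 hm2
          rw [ht]; linarith
        have e : ((a i : ℝ) / q + (1 / 2 - h i) / (q * x)) * (q * m) - a i * m + h i = 1 / 2 + (1 / 2 - h i) * t := by
          rw [ht]; field_simp; ring
        simp only
        rw [e]
        have h1 : |(1 / 2 - (h i : ℝ)) * t| < 1 / 2 := by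
          rw [abs_mul, abs_of_pos ht0]
          have h6 := abs_sub (1 / 2 : ℝ) (h i : ℝ)
          have h7 := hHi i
          have h8 : |(1 / 2 : ℝ)| = 1 / 2 := abs_of_pos (by norm_num)
          calc |1 / 2 - (h i : ℝ)| * t ≤ (1 / 2 + H) * (1 / (2 * (H + 1))) :=
                mul_le_mul (by linarith) ht1 ht0.le (by positivity)
            _ < 1 / 2 := by
              rw [mul_one_div, div_lt_div_iff₀ (by positivity) (by norm_num)]
              linarith
        rw [abs_lt] at h1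
        constructor <;> linarith [h1.1, h1.2]
    · push Not at hpos
      obtain ⟨i, hi⟩ := hpos
      refine ⟨fun j => α j - ε / 2, ?_, Or.inl ?_⟩
      · rw [Metric.mem_ball, dist_pi_lt_iff hε]
        intro j
        rw [Real.dist_eq]
        have : α j - ε / 2 - α j = -(ε / 2) := by ring
        rw [this, abs_neg, abs_of_pos (by positivity)]
        linarith
      · simp only [Set.mem_iUnion, Set.mem_ofPred_eq]
        exact ⟨i, by linarith⟩
  · intro α hα hpos
    rcases hα with hα | hα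
    · simp only [Set.mem_iUnion, Set.mem_ofPred_eq] at hα
      obtain ⟨i, hi⟩ := hα
      exact absurd (hpos i) (by linarith)
    · simp only [Set.mem_iUnion] at hα
      obtain ⟨X, q, a, A, B, ⟨h1, h2, h3, h4, h5, h6⟩, h7⟩ := hα
      exact ⟨X, h1, h6.trans_le (V_sum r₀ r h0 hr h q h2 a h3 A B X h4 h5 α (V_floor h q a A B α h7))⟩

theorem generic {k : ℕ} (r₀ : ℕ) (r : Fin k → ℕ) (h0 : 1 ≤ r₀) (hr : ∀ i, 1 ≤ r i) (g : ℕ → ℝ)
    (hg : Tendsto g atTop (𝓝 0)) :
    ∀ᶠ α in residual (Fin k → ℝ), (∀ i, 0 < α i) → ∀ h : Fin k → ℤ,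
      ∃ᶠ X : ℕ in atTop, g X * (X * Real.log X ^ (r₀ * ∏ i, r i - 1)) < Cor r₀ r α h X := by
  have key : ∀ p : (Fin k → ℤ) × ℕ, ∀ᶠ α in residual (Fin k → ℝ), (∀ i, 0 < α i) →
      ∃ X : ℕ, p.2 ≤ X ∧ g X * (X * Real.log X ^ (r₀ * ∏ i, r i - 1)) < Cor r₀ r α p.1 X := by
    intro p
    obtain ⟨O, hO, hD, hα⟩ := open_dense r₀ r h0 hr g hg p.1 p.2
    exact Filter.mem_of_superset (residual_of_dense_open hO hD) hα
  filter_upwards [eventually_countable_forall.2 key] with α hα hpos h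
  rw [frequently_atTop]
  intro K
  exact hα (h, K) hpos

end Pool.Agent.H49.EX
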