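import Pool.Agent.H49.D.JC

set_option autoImplicit false

/-! Divisor functions at almost rational slopes: rational slopes and the upper bound. -/

namespace Pool.Agent.H49.EX

open Finset Filter Topology

theorem rational {k : ℕ} (r₀ : ℕ) (r : Fin k → ℕ) (h0 : 1 ≤ r₀) (hr : ∀ i, 1 ≤ r i) (q : ℕ) (hq : 1 ≤ q)
    (a : Fin k → ℕ) (ha : ∀ i, 1 ≤ a i) :
    ∃ c : ℝ, 0 < c ∧ ∀ᶠ X : ℕ in atTop,
      c * (X * Real.log X ^ (r₀ * ∏ i, r i - 1)) ≤ Cor r₀ r (fun i => (a i : ℝ) / q) (fun _ => 0) X := by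
  set r' : Fin (k + 1) → ℕ := Fin.cons r₀ r with hr'
  have hr1 : ∀ i, 1 ≤ r' i := by
    intro i
    refine Fin.cases ?_ (fun j => ?_) i
    · exact h0
    · exact hr j
  have hprod : ∏ i, r' i = r₀ * ∏ i, r i := by rw [Fin.prod_univ_succ]; simp [hr']
  obtain ⟨c, hc, hlow⟩ := T_lower r' hr1
  rw [hprod] at hlow
  set R := r₀ * ∏ i, r i - 1 with hR
  have hqp : (0 : ℝ) < q := by exact_mod_cast (show 0 < q by omega)
  refine ⟨c / (2 * q * 2 ^ R), by positivity, ?_⟩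
  filter_upwards [eventually_ge_atTop (4 * q * q)] with X hX
  set B := X / q with hB
  have hB2 : 2 ≤ B := by
    rw [hB, Nat.le_div_iff_mul_le (by omega)]
    nlinarith
  have h1 := V_sum r₀ r h0 hr (fun _ => 0) q hq a ha 0 B X (Nat.zero_le _) (Nat.mul_div_le X q)
    (fun i => (a i : ℝ) / q) (by
      intro i m _
      have : (a i : ℝ) / q * ((q * m : ℕ) : ℝ) = ((a i * m : ℕ) : ℝ) := by push_cast; field_simp
      rw [this, Int.floor_natCast]
      push_cast; ring)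
  refine le_trans ?_ h1
  have h2 : T (Fin.cons r₀ r : Fin (k + 1) → ℕ) 0 = 0 := by unfold T; simp
  rw [h2, sub_zero]
  refine le_trans ?_ (hlow B hB2)
  have hB2' : (2 : ℝ) ≤ B := by exact_mod_cast hB2
  have h3 : (X : ℝ) < (B + 1) * q := by
    have := Nat.lt_succ_iff.2 (le_refl (X / q))
    rw [Nat.div_lt_iff_lt_mul (by omega)] at this
    exact_mod_cast this
  have h4 : (X : ℝ) ≤ 2 * q * B := by nlinarith
  have hX' : (4 : ℝ) * q * q ≤ X := by exact_mod_cast hX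
  have hXp : (1 : ℝ) ≤ X := by
    have : (1 : ℝ) ≤ q := by exact_mod_cast hq
    nlinarith
  have h5 : (X : ℝ) ≤ (B : ℝ) ^ 2 := by
    have e1 : (X : ℝ) ^ 2 ≤ (2 * q * B) ^ 2 := pow_le_pow_left₀ (by linarith) h4 2
    have e2 : (4 * q * q) * (X : ℝ) ≤ X ^ 2 := by nlinarith
    have e3 : (4 * q * q) * (X : ℝ) ≤ (4 * q * q) * (B : ℝ) ^ 2 := by nlinarith
    exact le_of_mul_le_mul_left e3 (by positivity)
  have h6 : Real.log X ≤ 2 * Real.log B := by
    have := Real.log_le_log (by linarith) h5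
    rw [Real.log_pow] at this
    exact_mod_cast this
  have h7 : Real.log X ^ R ≤ (2 * Real.log B) ^ R := pow_le_pow_left₀ (Real.log_nonneg hXp) h6 R
  rw [mul_pow] at h7
  have h8 : 0 ≤ Real.log B := Real.log_nonneg (by linarith)
  calc c / (2 * q * 2 ^ R) * (X * Real.log X ^ R) ≤ c / (2 * q * 2 ^ R) * ((2 * q * B) * (2 ^ R * Real.log B ^ R)) := by
        apply mul_le_mul_of_nonneg_left _ (by positivity)
        exact mul_le_mul h4 h7 (pow_nonneg (Real.log_nonneg hXp) _) (by positivity)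
    _ = _ := by field_simp

/-! the pointwise inequality -/

theorem D_rec {p : ℕ} (hp : p.Prime) (r k : ℕ) : d (r + 1) (p ^ (k + 1)) = d (r + 1) (p ^ k) + d r (p ^ (k + 1)) := by
  rw [d_succ, d_succ, Nat.divisors_prime_pow hp, Nat.divisors_prime_pow hp, sum_map, sum_map, sum_range_succ]
  rfl

theorem D_both {p : ℕ} (hp : p.Prime) (r : ℕ) : (∀ k, d r (p ^ (k + 1)) * (k + 1) = d r (p ^ k) * (r + k)) := by
  induction r with
  | zero =>
    intro k
    rw [d_zero, d_zero, if_neg (by exact (Nat.one_lt_pow (by omega) hp.one_lt).ne')]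
    rcases k with _ | k
    · simp
    · rw [if_neg (Nat.one_lt_pow (by omega) hp.one_lt).ne']; simp
  | succ r ih =>
    have I2 : ∀ k, d (r + 1) (p ^ k) * r = d r (p ^ k) * (r + k) := by
      intro k
      induction k with
      | zero => simp [d_at_one]
      | succ k ihk =>
        rw [D_rec hp, add_mul, ihk, ← ih k]
        ring
    intro k
    rw [D_rec hp, add_mul, ih k, ← I2 k]
    ring

theorem point (r ρ : ℕ) (hr : 1 ≤ r) (hρ : r ≤ ρ) (hρ2 : 2 ≤ ρ) (n : ℕ) (hn : n ≠ 0) :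
    (d r n : ℝ) ≤ (d ρ n : ℝ) ^ (Real.log r / Real.log ρ) := by
  set w := Real.log r / Real.log ρ with hw
  have hr' : (1 : ℝ) ≤ r := by exact_mod_cast hr
  have hρ' : (2 : ℝ) ≤ ρ := by exact_mod_cast hρ2
  have hρr : (r : ℝ) ≤ ρ := by exact_mod_cast hρ
  have hlρ : 0 < Real.log ρ := Real.log_pos (by linarith)
  have hw0 : 0 ≤ w := div_nonneg (Real.log_nonneg hr') hlρ.le
  have hw1 : w ≤ 1 := (div_le_one hlρ).2 (Real.log_le_log (by linarith) hρr)
  have hpw : (ρ : ℝ) ^ w = r := by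
    rw [Real.rpow_def_of_pos (by linarith), hw, mul_div_cancel₀ _ hlρ.ne', Real.exp_log (by linarith)]
  have fac : ∀ k : ℕ, ((r : ℝ) + k) / (k + 1) ≤ (((ρ : ℝ) + k) / (k + 1)) ^ w := by
    intro k
    have hk : (0 : ℝ) < k + 1 := by positivity
    have h1 := (Real.concaveOn_rpow hw0 hw1).2 (show (1 : ℝ) ∈ Set.Ici 0 by simp) (show (ρ : ℝ) ∈ Set.Ici 0 by simp)
      (show 0 ≤ (k : ℝ) / (k + 1) by positivity) (show 0 ≤ (1 : ℝ) / (k + 1) by positivity) (by field_simp)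
    simp only [smul_eq_mul, Real.one_rpow, hpw] at h1
    have e1 : (k : ℝ) / (k + 1) * 1 + 1 / (k + 1) * r = (r + k) / (k + 1) := by field_simp; ring
    have e2 : (k : ℝ) / (k + 1) * 1 + 1 / (k + 1) * ρ = (ρ + k) / (k + 1) := by field_simp; ring
    rw [e1, e2] at h1
    exact h1
  induction n using Nat.recOnPosPrimePosCoprime with
  | prime_pow p e hp he =>
    clear hn he
    induction e with
    | zero => rw [pow_zero, d_at_one, d_at_one]; simp
    | succ e ih =>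
      have h1 : (d r (p ^ (e + 1)) : ℝ) = d r (p ^ e) * (((r : ℝ) + e) / (e + 1)) := by
        have := D_both hp r e
        have h2 : (d r (p ^ (e + 1)) : ℝ) * (e + 1) = d r (p ^ e) * (r + e) := by exact_mod_cast this
        field_simp
        linarith
      have h2 : (d ρ (p ^ (e + 1)) : ℝ) = d ρ (p ^ e) * (((ρ : ℝ) + e) / (e + 1)) := by
        have := D_both hp ρ e
        have h2 : (d ρ (p ^ (e + 1)) : ℝ) * (e + 1) = d ρ (p ^ e) * (ρ + e) := by exact_mod_cast this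
        field_simp
        linarith
      rw [h1, h2, Real.mul_rpow (by positivity) (by positivity)]
      exact mul_le_mul ih (fac e) (by positivity) (by positivity)
  | zero => exact absurd rfl hn
  | one => rw [d_at_one, d_at_one]; simp
  | coprime m n hm hn' hmn ihm ihn =>
    rw [d_coprime _ hmn, d_coprime _ hmn]
    push_cast
    rw [Real.mul_rpow (by positivity) (by positivity)]
    exact mul_le_mul (ihm (by omega)) (ihn (by omega)) (by positivity) (by positivity)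

theorem d_at_zero (r : ℕ) : d r 0 = 0 := by unfold d; simp

/-- values are taken a bounded number of times -/
theorem mult (f : ℕ → ℝ) (hf : ∀ m, 0 ≤ f m) (hf0 : f 0 = 0) (α : ℝ) (hα : 0 < α) (h : ℤ) :
    ∃ C D : ℕ, 1 ≤ D ∧ ∀ X : ℕ, 1 ≤ X → ∑ n ∈ Icc 1 X, f (⌊α * (n : ℝ)⌋ + h).toNat ≤
      C * ∑ m ∈ Icc 1 (D * X), f m := by
  classical
  refine ⟨⌊1 / α⌋₊ + 1, ⌈α⌉₊ + h.natAbs, ?_, fun X hX => ?_⟩
  · have := Nat.ceil_pos.2 hα
    omega
  set D := ⌈α⌉₊ + h.natAbs
  have hmaps : ∀ n ∈ Icc 1 X, (⌊α * (n : ℝ)⌋ + h).toNat ∈ Icc 0 (D * X) := by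
    intro n hn
    have hn' := mem_Icc.1 hn
    rw [mem_Icc]
    refine ⟨Nat.zero_le _, ?_⟩
    rw [Int.toNat_le]
    have h1 : (⌊α * (n : ℝ)⌋ : ℤ) ≤ ((⌈α⌉₊ * X : ℕ) : ℤ) := by
      have h2 : α * (n : ℝ) ≤ ((⌈α⌉₊ * X : ℕ) : ℝ) := by
        push_cast
        exact mul_le_mul (Nat.le_ceil _) (by exact_mod_cast hn'.2) (by positivity) (by positivity)
      have h3 : ⌊α * (n : ℝ)⌋ ≤ ⌊((⌈α⌉₊ * X : ℕ) : ℝ)⌋ := Int.floor_le_floor h2
      rwa [Int.floor_natCast] at h3
    have h2 : h ≤ (h.natAbs * X : ℕ) := by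
      have h3 : h ≤ h.natAbs := Int.le_natAbs
      have h4 : h.natAbs ≤ h.natAbs * X := Nat.le_mul_of_pos_right _ (by omega)
      exact h3.trans (by exact_mod_cast h4)
    have h3 : ((D * X : ℕ) : ℤ) = ((⌈α⌉₊ * X : ℕ) : ℤ) + (h.natAbs * X : ℕ) := by
      rw [← Nat.cast_add]; congr 1; ring
    rw [h3]
    linarith
  rw [← sum_fiberwise_of_maps_to hmaps]
  have h1 : ∀ m ∈ Icc 0 (D * X), ∑ n ∈ (Icc 1 X).filter (fun n : ℕ => (⌊α * (n : ℝ)⌋ + h).toNat = m),
      f (⌊α * (n : ℝ)⌋ + h).toNat ≤ if m = 0 then 0 else ((⌊1 / α⌋₊ + 1 : ℕ) : ℝ) * f m := by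
    intro m _
    rw [sum_congr rfl (g := fun _ => f m) (fun n hn => by rw [(mem_filter.1 hn).2]), sum_const, nsmul_eq_mul]
    split_ifs with hm
    · rw [hm, hf0, mul_zero]
    apply mul_le_mul_of_nonneg_right _ (hf m)
    set s := (Icc 1 X).filter (fun n : ℕ => (⌊α * (n : ℝ)⌋ + h).toNat = m)
    have hcard : s.card ≤ ⌊1 / α⌋₊ + 1 := by
      rcases s.eq_empty_or_nonempty with he | he
      · rw [he]; simp
      · have hsub : s ⊆ Icc (s.min' he) (s.min' he + ⌊1 / α⌋₊) := by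
          intro n hn
          rw [mem_Icc]
          refine ⟨s.min'_le n hn, ?_⟩
          have h2 := (mem_filter.1 hn).2
          have h3 := (mem_filter.1 (s.min'_mem he)).2
          have h4 : s.min' he ≤ n := s.min'_le n hn
          have h5 : ⌊α * (n : ℝ)⌋ = ⌊α * ((s.min' he : ℕ) : ℝ)⌋ := by omega
          have h6 : α * (n : ℝ) < ⌊α * (n : ℝ)⌋ + 1 := Int.lt_floor_add_one _
          have h7 : (⌊α * ((s.min' he : ℕ) : ℝ)⌋ : ℝ) ≤ α * ((s.min' he : ℕ) : ℝ) := Int.floor_le _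
          rw [h5] at h6
          have h8 : n - s.min' he ≤ ⌊1 / α⌋₊ := by
            apply Nat.le_floor
            rw [Nat.cast_sub h4, le_div_iff₀ hα]
            nlinarith
          omega
        refine (card_le_card hsub).trans ?_
        rw [Nat.card_Icc]
        omega
    exact_mod_cast hcard
  refine (sum_le_sum h1).trans ?_
  rw [mul_sum]
  have h2 : Icc 0 (D * X) = insert 0 (Icc 1 (D * X)) := by
    ext m; simp only [mem_insert, mem_Icc]; omega
  rw [h2, sum_insert (by simp), if_pos rfl, zero_add]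
  refine sum_le_sum fun m hm => ?_
  rw [if_neg (by have := (mem_Icc.1 hm).1; omega)]

theorem S_bd (R D : ℕ) (hD : 1 ≤ D) : ∃ C : ℝ, 0 < C ∧ ∀ X : ℕ, 2 ≤ X → S (R + 1) (D * X) ≤ C * (X * Real.log X ^ R) := by
  have hD' : (1 : ℝ) ≤ D := by exact_mod_cast hD
  have hlD : 0 ≤ Real.log D := Real.log_nonneg hD'
  refine ⟨D * (2 * (1 + Real.log D) + 1) ^ R, by positivity, fun X hX => ?_⟩
  have hX' : (2 : ℝ) ≤ X := by exact_mod_cast hX
  have hl2 : (1 / 2 : ℝ) ≤ Real.log X := by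
    have := Real.log_two_gt_d9
    have h2 := Real.log_le_log (by norm_num) hX'
    linarith
  have h1 := S_upper R (D * X) (Nat.mul_pos (by omega) (by omega))
  refine h1.trans ?_
  push_cast
  rw [Real.log_mul (by linarith) (by linarith)]
  have h3 : 1 + (Real.log D + Real.log X) ≤ (2 * (1 + Real.log D) + 1) * Real.log X := by nlinarith
  have h4 : (1 + (Real.log D + Real.log X)) ^ R ≤ ((2 * (1 + Real.log D) + 1) * Real.log X) ^ R :=
    pow_le_pow_left₀ (by linarith) h3 R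
  rw [mul_pow] at h4
  calc (D : ℝ) * X * (1 + (Real.log D + Real.log X)) ^ R ≤ D * X * ((2 * (1 + Real.log D) + 1) ^ R * Real.log X ^ R) :=
        mul_le_mul_of_nonneg_left h4 (by positivity)
    _ = _ := by ring

theorem upper {k : ℕ} (r₀ : ℕ) (r : Fin k → ℕ) (h0 : 1 ≤ r₀) (hr : ∀ i, 1 ≤ r i) (α : Fin k → ℝ) (hα : ∀ i, 0 < α i)
    (h : Fin k → ℤ) : ∃ C : ℝ, ∀ X : ℕ, 2 ≤ X →
      Cor r₀ r α h X ≤ C * (X * Real.log X ^ (r₀ * ∏ i, r i - 1)) := by
  classical
  have hP1 : 1 ≤ ∏ i, r i := Nat.one_le_iff_ne_zero.2 (prod_ne_zero_iff.2 fun i _ => by have := hr i; omega)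
  set ρ := r₀ * ∏ i, r i with hρ
  have hρ1 : 1 ≤ ρ := Nat.mul_pos h0 hP1
  have hr0ρ : r₀ ≤ ρ := Nat.le_mul_of_pos_right _ hP1
  have hrρ : ∀ i, r i ≤ ρ := by
    intro i
    have h1 : r i ≤ ∏ i, r i := Nat.le_of_dvd (by omega) (dvd_prod_of_mem r (mem_univ i))
    exact h1.trans (Nat.le_mul_of_pos_left _ h0)
  obtain ⟨R, hR⟩ : ∃ R, ρ = R + 1 := ⟨ρ - 1, by omega⟩
  -- pointwise
  have key : ∀ n : ℕ, n ≠ 0 → (d r₀ n : ℝ) * ∏ i, (d (r i) (⌊α i * (n : ℝ)⌋ + h i).toNat : ℝ) ≤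
      (d ρ n : ℝ) + ∑ i, (d ρ (⌊α i * (n : ℝ)⌋ + h i).toNat : ℝ) := by
    intro n hn
    by_cases hz : ∃ i, (⌊α i * (n : ℝ)⌋ + h i).toNat = 0
    · obtain ⟨i, hi⟩ := hz
      have : ∏ i, (d (r i) (⌊α i * (n : ℝ)⌋ + h i).toNat : ℝ) = 0 :=
        prod_eq_zero (mem_univ i) (by rw [hi, d_at_zero]; simp)
      rw [this, mul_zero]
      positivity
    push Not at hz
    rcases Nat.lt_or_ge ρ 2 with h2 | h2
    · have hρe : ρ = 1 := by omega
      have hr0 : r₀ = 1 := by omega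
      have hri : ∀ i, r i = 1 := fun i => by have := hrρ i; have := hr i; omega
      have e : ∏ i, (d (r i) (⌊α i * (n : ℝ)⌋ + h i).toNat : ℝ) = 1 :=
        prod_eq_one fun i _ => by rw [hri i, d_one (hz i)]; simp
      rw [e, hr0, hρe, mul_one]
      have : 0 ≤ ∑ i, (d 1 (⌊α i * (n : ℝ)⌋ + h i).toNat : ℝ) := sum_nonneg fun _ _ => by positivity
      linarith
    · have hlρ : 0 < Real.log ρ := Real.log_pos (by exact_mod_cast (show 1 < ρ by omega))
      set m : Fin (k + 1) → ℕ := Fin.cons n (fun i => (⌊α i * (n : ℝ)⌋ + h i).toNat) with hm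
      set r' : Fin (k + 1) → ℕ := Fin.cons r₀ r with hr'
      have hr1 : ∀ i, 1 ≤ r' i := by
        intro i
        refine Fin.cases ?_ (fun j => ?_) i
        · exact h0
        · exact hr j
      have hr2 : ∀ i, r' i ≤ ρ := by
        intro i
        refine Fin.cases ?_ (fun j => ?_) i
        · exact hr0ρ
        · exact hrρ j
      have hm0 : ∀ i, m i ≠ 0 := by
        intro i
        refine Fin.cases ?_ (fun j => ?_) i
        · exact hn
        · exact hz j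
      have hprod : ∏ i, r' i = ρ := by rw [Fin.prod_univ_succ]; simp [hr', hρ]
      have hw : ∑ i, Real.log (r' i) / Real.log ρ = 1 := by
        rw [← sum_div, ← Real.log_prod (fun i _ => by
          have := hr1 i
          exact_mod_cast (show r' i ≠ 0 by omega)), div_eq_one_iff_eq hlρ.ne']
        congr 1
        rw [← hprod]; push_cast; rfl
      have h3 := Real.geom_mean_le_arith_mean_weighted univ (fun i => Real.log (r' i) / Real.log ρ)
        (fun i => (d ρ (m i) : ℝ)) (fun i _ => div_nonneg (Real.log_nonneg (by exact_mod_cast hr1 i)) hlρ.le) hw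
        (fun i _ => by positivity)
      have h4 : ∏ i, (d (r' i) (m i) : ℝ) ≤ ∏ i, (d ρ (m i) : ℝ) ^ (Real.log (r' i) / Real.log ρ) :=
        prod_le_prod (fun _ _ => by positivity) fun i _ => point (r' i) ρ (hr1 i) (hr2 i) h2 (m i) (hm0 i)
      have h5 : ∑ i, Real.log (r' i) / Real.log ρ * (d ρ (m i) : ℝ) ≤ ∑ i, (d ρ (m i) : ℝ) := by
        refine sum_le_sum fun i _ => ?_
        have : Real.log (r' i) / Real.log ρ ≤ 1 := (div_le_one hlρ).2 (Real.log_le_log
          (by exact_mod_cast (show 0 < r' i by have := hr1 i; omega)) (by exact_mod_cast hr2 i))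
        exact mul_le_of_le_one_left (by positivity) this
      have h6 := (h4.trans h3).trans h5
      rw [Fin.prod_univ_succ, Fin.sum_univ_succ] at h6
      simpa [hm, hr'] using h6
  -- summation
  obtain ⟨C0, hC0, hS0⟩ := S_bd R 1 le_rfl
  have hi : ∀ i, ∃ C : ℝ, ∀ X : ℕ, 2 ≤ X → ∑ n ∈ Icc 1 X, (d ρ (⌊α i * (n : ℝ)⌋ + h i).toNat : ℝ) ≤
      C * (X * Real.log X ^ R) := by
    intro i
    obtain ⟨C, D, hD, hCD⟩ := mult (fun m => (d ρ m : ℝ)) (fun _ => by positivity) (by show ((d ρ 0 : ℕ) : ℝ) = 0; rw [d_at_zero]; simp)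
      (α i) (hα i) (h i)
    obtain ⟨C', hC', hS⟩ := S_bd R D hD
    refine ⟨C * C', fun X hX => (hCD X (by omega)).trans ?_⟩
    have := hS X hX
    rw [← hR] at this
    calc (C : ℝ) * ∑ m ∈ Icc 1 (D * X), (d ρ m : ℝ) ≤ C * (C' * (X * Real.log X ^ R)) :=
          mul_le_mul_of_nonneg_left this (by positivity)
      _ = _ := by ring
  choose C hC using hi
  refine ⟨C0 + ∑ i, C i, fun X hX => ?_⟩
  unfold Cor
  refine (sum_le_sum fun n hn => key n (by have := (mem_Icc.1 hn).1; omega)).trans ?_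
  rw [sum_add_distrib, sum_comm]
  have h1 := hS0 X hX
  rw [one_mul, ← hR] at h1
  have hRe : ρ - 1 = R := by omega
  rw [hRe, add_mul, sum_mul]
  exact add_le_add h1 (sum_le_sum fun i _ => hC i X hX)

end Pool.Agent.H49.EX
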