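import Pool.Agent.H49.D.JD
import Pool.Agent.H49.D.DO

set_option autoImplicit false

/-! Divisor functions at generic slopes: the limit along a sequence. -/

namespace Pool.Agent.H49.EX

open Finset Filter Topology MeasureTheory Polynomial

theorem cor_eq {k : ℕ} (r₀ : ℕ) (r : Fin k → ℕ) (α : Fin k → ℝ) (hα : ∀ i, 0 < α i) (h : Fin k → ℤ) (X : ℕ) :
    ∑ n ∈ Icc 1 X, (Pool.Agent.TH935.LD.dk r₀ n : ℝ) * ∏ i, (Pool.Agent.TH935.LD.dk (r i)
      (Pool.Agent.H49.DM.val (h i) ⌊α i * (n : ℝ) ^ (1 : ℝ)⌋₊) : ℝ) = Cor r₀ r α h X := by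
  unfold Cor
  refine sum_congr rfl fun n _ => ?_
  congr 1
  refine prod_congr rfl fun i _ => ?_
  rw [Real.rpow_one]
  have e : ((⌊α i * (n : ℝ)⌋₊ : ℕ) : ℤ) = ⌊α i * (n : ℝ)⌋ :=
    Int.natCast_floor_eq_floor (mul_nonneg (hα i).le (by positivity))
  show ((d (r i) (((⌊α i * (n : ℝ)⌋₊ : ℕ) : ℤ) + h i).toNat : ℕ) : ℝ) = _
  rw [e]

theorem ae_limit {k : ℕ} (r₀ : ℕ) (r : Fin k → ℕ) (h0 : 1 ≤ r₀) (hr : ∀ i, 1 ≤ r i) :
    ∀ᵐ α : Fin k → ℝ, (∀ i, 0 < α i) → ∀ h : Fin k → ℤ,
      Tendsto (fun X : ℕ => Cor r₀ r α h X / (X * Real.log X ^ ((r₀ - 1) + ∑ i, (r i - 1)))) atTop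
        (𝓝 (1 / (((r₀ - 1).factorial : ℝ) * ∏ i, ((r i - 1).factorial : ℝ)))) := by
  obtain ⟨P, hP⟩ := Pool.Agent.H49.DM.dens_all
  have hP0 : ∀ r, 1 ≤ r → P r ≠ 0 := by
    intro r hr h
    have h1 := (hP r hr).2.1
    rw [h, leadingCoeff_zero] at h1
    have : (0 : ℝ) < 1 / ((r - 1).factorial : ℝ) := by positivity
    linarith
  have hc : ∀ i : Fin k, (0 : ℝ) < (fun _ : Fin k => (1 : ℝ)) i := fun _ => one_pos
  obtain ⟨δ, hδ, hm⟩ := Pool.Agent.H49.DM.metric P hP k r₀ h0 r hr (fun _ => 1) hc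
  filter_upwards [hm] with α hα hα0 h
  obtain ⟨R, hR, hR1, hR2⟩ := Pool.Agent.H49.DM.exists_R
    (Pool.Agent.H49.DM.QQ (P r₀) (fun i => P (r i)) α (fun _ => 1))
  have hQ := Pool.Agent.H49.DM.QQ_deg (P r₀) (hP0 r₀ h0) (fun i => P (r i)) (fun i => hP0 _ (hr i)) α (fun _ => 1) hc
  have hdeg : R.natDegree = (r₀ - 1) + ∑ i, (r i - 1) := by
    rw [hR1, hQ.1, (hP r₀ h0).1]
    congr 1
    exact sum_congr rfl fun i _ => (hP _ (hr i)).1
  have hlead : R.leadingCoeff = 1 / (((r₀ - 1).factorial : ℝ) * ∏ i, ((r i - 1).factorial : ℝ)) := by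
    rw [hR2, hQ.2, (hP r₀ h0).2.1]
    have e : ∏ i, ((P (r i)).leadingCoeff * (1 : ℝ) ^ (P (r i)).natDegree) =
        1 / ∏ i, ((r i - 1).factorial : ℝ) := by
      rw [one_div, ← prod_inv_distrib]
      refine prod_congr rfl fun i _ => ?_
      rw [(hP _ (hr i)).2.1]
      simp
    rw [e]
    have : (∏ i, ((r i - 1).factorial : ℝ)) ≠ 0 := prod_ne_zero_iff.2 fun i _ => by positivity
    field_simp
  obtain ⟨K, hK⟩ := hα hα0 R hR h
  set s := (r₀ - 1) + ∑ i, (r i - 1) with hs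
  have hlog : Tendsto (fun X : ℕ => Real.log (X : ℝ)) atTop atTop := Real.tendsto_log_atTop.comp tendsto_natCast_atTop_atTop
  -- main term
  have h1 : Tendsto (fun X : ℕ => R.eval (Real.log X) / Real.log X ^ s) atTop (𝓝 R.leadingCoeff) := by
    have h2 := (Polynomial.isEquivalent_atTop_lead R)
    have h3 : Tendsto (fun x : ℝ => R.eval x / x ^ R.natDegree) atTop (𝓝 R.leadingCoeff) := by
      have h4 : Asymptotics.IsEquivalent atTop (fun x : ℝ => R.eval x / x ^ R.natDegree)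
          (fun x : ℝ => R.leadingCoeff * x ^ R.natDegree / x ^ R.natDegree) :=
        h2.div Asymptotics.IsEquivalent.refl
      refine h4.symm.tendsto_nhds ?_
      refine tendsto_const_nhds.congr' ?_
      filter_upwards [eventually_gt_atTop (0 : ℝ)] with x hx
      have : x ^ R.natDegree ≠ 0 := (pow_pos hx _).ne'
      field_simp
    have h5 := h3.comp hlog
    rw [hdeg] at h5
    exact h5
  -- error term
  have h2 : Tendsto (fun X : ℕ => |K| * (X : ℝ) ^ (-δ)) atTop (𝓝 0) := by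
    have h3 := (tendsto_rpow_neg_atTop hδ).comp (tendsto_natCast_atTop_atTop (R := ℝ))
    simpa using h3.const_mul |K|
  have h3 : Tendsto (fun X : ℕ => Cor r₀ r α h X / (X * Real.log X ^ s) - R.eval (Real.log X) / Real.log X ^ s) atTop (𝓝 0) := by
    refine squeeze_zero_norm' ?_ h2
    filter_upwards [eventually_ge_atTop 3] with X hX
    have hX' : (3 : ℝ) ≤ X := by exact_mod_cast hX
    have hl : 1 ≤ Real.log X := by
      have h5 : Real.exp 1 ≤ X := by have := Real.exp_one_lt_d9; linarith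
      exact (Real.le_log_iff_exp_le (by linarith)).2 h5
    have hls : 1 ≤ Real.log X ^ s := one_le_pow₀ hl
    have h4 := hK X (by linarith)
    rw [Nat.floor_natCast, cor_eq r₀ r α hα0 h X] at h4
    have e : Cor r₀ r α h X / (X * Real.log X ^ s) - R.eval (Real.log X) / Real.log X ^ s =
        (Cor r₀ r α h X - X * R.eval (Real.log X)) / (X * Real.log X ^ s) := by
      field_simp
    rw [e, Real.norm_eq_abs, abs_div, abs_of_pos (show (0 : ℝ) < X * Real.log X ^ s by positivity), div_le_iff₀ (by positivity)]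
    have h6 : (X : ℝ) ^ (1 - δ) = X ^ (-δ) * X := by
      rw [sub_eq_neg_add, Real.rpow_add (by linarith), Real.rpow_one]
    calc |Cor r₀ r α h X - X * R.eval (Real.log X)| ≤ K * (X : ℝ) ^ (1 - δ) := h4
      _ ≤ |K| * (X ^ (-δ) * X) := by
        rw [← h6]; exact mul_le_mul_of_nonneg_right (le_abs_self K) (by positivity)
      _ = |K| * X ^ (-δ) * (X * 1) := by ring
      _ ≤ |K| * X ^ (-δ) * (X * Real.log X ^ s) := by gcongr
  have h4 := h3.add h1
  rw [zero_add, hlead] at h4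
  refine h4.congr fun X => by ring

/-- open dense sets on which the normalised sum is near the constant of the almost sure formula -/
theorem near_dense {k : ℕ} (r₀ : ℕ) (r : Fin k → ℕ) (h0 : 1 ≤ r₀) (hr : ∀ i, 1 ≤ r i) (h : Fin k → ℤ) (K m : ℕ) :
    ∃ O : Set (Fin k → ℝ), IsOpen O ∧ Dense O ∧ ∀ α ∈ O, (∀ i, 0 < α i) →
      ∃ X : ℕ, K ≤ X ∧ |Cor r₀ r α h X / (X * Real.log X ^ ((r₀ - 1) + ∑ i, (r i - 1))) -
        1 / (((r₀ - 1).factorial : ℝ) * ∏ i, ((r i - 1).factorial : ℝ))| < 1 / (m + 1) := by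
  classical
  set s := (r₀ - 1) + ∑ i, (r i - 1) with hs
  set L : ℝ := 1 / (((r₀ - 1).factorial : ℝ) * ∏ i, ((r i - 1).factorial : ℝ)) with hL
  have hG : Dense {α : Fin k → ℝ | (∀ i, 0 < α i) → ∀ h : Fin k → ℤ,
      Tendsto (fun X : ℕ => Cor r₀ r α h X / (X * Real.log X ^ s)) atTop (𝓝 L)} :=
    MeasureTheory.Measure.dense_of_ae (ae_limit r₀ r h0 hr)
  refine ⟨(⋃ i, {α : Fin k → ℝ | α i < 0}) ∪ ⋃ (β : Fin k → ℝ), ⋃ (X : ℕ),
    ⋃ (_ : K ≤ X ∧ |Cor r₀ r β h X / (X * Real.log X ^ s) - L| < 1 / (m + 1)),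
      ⋂ i, ⋂ n ∈ Icc 1 X, ({α : Fin k → ℝ | (⌊β i * (n : ℝ)⌋ : ℝ) < α i * n} ∩ {α | α i * n < ⌊β i * (n : ℝ)⌋ + 1}), ?_, ?_, ?_⟩
  · refine IsOpen.union (isOpen_iUnion fun i => isOpen_lt (continuous_apply i) continuous_const) ?_
    refine isOpen_iUnion fun β => isOpen_iUnion fun X => isOpen_iUnion fun _ => ?_
    refine isOpen_iInter_of_finite fun i => isOpen_biInter_finset fun n _ => IsOpen.inter ?_ ?_
    · exact isOpen_lt continuous_const (by fun_prop)
    · exact isOpen_lt (by fun_prop) continuous_const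
  · rw [Metric.dense_iff]
    intro α ε hε
    by_cases hpos : ∀ i, 0 < α i
    · have hopen : IsOpen (Metric.ball α (ε / 2) ∩ {β : Fin k → ℝ | ∀ i, 0 < β i}) := by
        refine Metric.isOpen_ball.inter ?_
        have : {β : Fin k → ℝ | ∀ i, 0 < β i} = ⋂ i, {β : Fin k → ℝ | 0 < β i} := by
          ext β; simp
        rw [this]
        exact isOpen_iInter_of_finite fun i => isOpen_lt continuous_const (continuous_apply i)
      obtain ⟨β, ⟨hβ1, hβ2⟩, hβ3⟩ := hG.inter_open_nonempty _ hopen ⟨α, Metric.mem_ball_self (by positivity), hpos⟩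
      have hlim := hβ3 hβ2 h
      obtain ⟨K1, hK1⟩ := (Metric.tendsto_atTop.1 hlim) (1 / (m + 1)) (by positivity)
      set X := max K K1
      have hX := hK1 X (le_max_right _ _)
      rw [Real.dist_eq] at hX
      -- move a little to the right
      have hev : ∀ᶠ t : ℝ in 𝓝[>] 0, (∀ i, ∀ n ∈ Icc 1 X, (β i + t) * n < ⌊β i * (n : ℝ)⌋ + 1) ∧ 0 < t ∧ t < ε / 2 := by
        refine Filter.Eventually.and ?_ ?_
        · rw [eventually_all]
          intro i
          rw [eventually_all_finset]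
          intro n _
          have hcont : Continuous fun t : ℝ => (β i + t) * (n : ℝ) := by fun_prop
          have h1 : (fun t : ℝ => (β i + t) * (n : ℝ)) 0 < ⌊β i * (n : ℝ)⌋ + 1 := by
            simp only [add_zero]
            exact Int.lt_floor_add_one _
          exact nhdsWithin_le_nhds (hcont.continuousAt.eventually_lt continuousAt_const h1)
        · refine Filter.Eventually.and self_mem_nhdsWithin ?_
          exact nhdsWithin_le_nhds (gt_mem_nhds (by positivity))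
      obtain ⟨t, ht1, ht0, ht2⟩ := hev.exists
      refine ⟨fun i => β i + t, ?_, Or.inr ?_⟩
      · rw [Metric.mem_ball]
        have h1 : dist (fun i => β i + t) β < ε / 2 := by
          rw [dist_pi_lt_iff (by positivity)]
          intro i
          rw [Real.dist_eq, add_sub_cancel_left, abs_of_pos ht0]
          exact ht2
        have h2 : dist β α < ε / 2 := hβ1
        calc dist (fun i => β i + t) α ≤ dist (fun i => β i + t) β + dist β α := dist_triangle _ _ _
          _ < ε := by linarith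
      · simp only [Set.mem_iUnion]
        refine ⟨β, X, ⟨le_max_left _ _, hX⟩, ?_⟩
        simp only [Set.mem_iInter]
        intro i n hn
        refine ⟨?_, ht1 i n hn⟩
        show (⌊β i * (n : ℝ)⌋ : ℝ) < (β i + t) * n
        have h1 : (⌊β i * (n : ℝ)⌋ : ℝ) ≤ β i * n := Int.floor_le _
        have h2 : (1 : ℝ) ≤ n := by exact_mod_cast (mem_Icc.1 hn).1
        nlinarith
    · push Not at hpos
      obtain ⟨i, hi⟩ := hpos
      refine ⟨fun j => α j - ε / 2, ?_, Or.inl ?_⟩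
      · rw [Metric.mem_ball, dist_pi_lt_iff hε]
        intro j
        rw [Real.dist_eq]
        have : α j - ε / 2 - α j = -(ε / 2) := by ring
        rw [this, abs_neg, abs_of_pos (by positivity)]
        linarith
      · simp only [Set.mem_iUnion]
        exact ⟨i, show α i - ε / 2 < 0 by linarith⟩
  · intro α hα hpos
    rcases hα with hα | hα
    · simp only [Set.mem_iUnion] at hα
      obtain ⟨i, hi⟩ := hα
      have : α i < 0 := hi
      exact absurd (hpos i) (by linarith)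
    · simp only [Set.mem_iUnion, Set.mem_iInter] at hα
      obtain ⟨β, X, ⟨h1, h2⟩, h3⟩ := hα
      refine ⟨X, h1, ?_⟩
      have e : Cor r₀ r α h X = Cor r₀ r β h X := by
        unfold Cor
        refine sum_congr rfl fun n hn => ?_
        congr 1
        refine prod_congr rfl fun i _ => ?_
        have h4 := h3 i n hn
        have h5 : (⌊β i * (n : ℝ)⌋ : ℝ) < α i * n := h4.1
        have h6 : α i * n < ⌊β i * (n : ℝ)⌋ + 1 := h4.2
        have h7 : ⌊α i * (n : ℝ)⌋ = ⌊β i * (n : ℝ)⌋ := by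
          rw [Int.floor_eq_iff]
          exact ⟨h5.le, h6⟩
        rw [h7]
      rw [e]
      exact h2

end Pool.Agent.H49.EX
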