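import Pool.Agent.H49.D.JE

set_option autoImplicit false

/-! Divisor functions at generic slopes: the limit points of the normalised sums. -/

namespace Pool.Agent.H49.EX

open Finset Filter Topology

theorem d_pow_bd (R : ℕ) (ε : ℝ) (hε : 0 < ε) : ∃ C : ℝ, 0 < C ∧ ∀ n : ℕ, 1 ≤ n → (d R n : ℝ) ≤ C * (n : ℝ) ^ ε := by
  set M : ℕ := ⌈2 / ε⌉₊ + 1 with hM
  have hM0 : M ≠ 0 := by omega
  have hMp : (0 : ℝ) < M := by exact_mod_cast Nat.pos_of_ne_zero hM0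
  have hM2 : 2 * (M : ℝ)⁻¹ ≤ ε := by
    have h1 : 2 / ε ≤ (⌈2 / ε⌉₊ : ℝ) := Nat.le_ceil _
    have h2 : 2 / ε ≤ M := by rw [hM]; push_cast; linarith
    rw [div_le_iff₀ hε] at h2
    rw [← div_eq_mul_inv, div_le_iff₀ hMp]
    linarith
  have hs := summ (R ^ M)
  set C0 : ℝ := ∑' n : ℕ, (d (R ^ M) n : ℝ) / (n : ℝ) ^ 2
  have hC0 : 0 ≤ C0 := tsum_nonneg fun n => by positivity
  refine ⟨(C0 + 1) ^ ((M : ℝ)⁻¹), by positivity, fun n hn => ?_⟩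
  have hn' : (1 : ℝ) ≤ n := by exact_mod_cast hn
  have h1 : (d R n : ℝ) ^ M ≤ (d (R ^ M) n : ℝ) := by
    have := F_le (fun _ : Fin M => R) (show n ≠ 0 by omega)
    unfold F at this
    simp only [prod_const, card_univ, Fintype.card_fin] at this
    exact_mod_cast this
  have h2 : (d (R ^ M) n : ℝ) / (n : ℝ) ^ 2 ≤ C0 := hs.le_tsum n (fun j _ => by positivity)
  rw [div_le_iff₀ (by positivity)] at h2
  have h3 : (d R n : ℝ) ^ M ≤ (C0 + 1) * (n : ℝ) ^ 2 := by nlinarith [sq_nonneg (n : ℝ)]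
  calc (d R n : ℝ) = ((d R n : ℝ) ^ M) ^ ((M : ℝ)⁻¹) := (Real.pow_rpow_inv_natCast (by positivity) hM0).symm
    _ ≤ ((C0 + 1) * (n : ℝ) ^ 2) ^ ((M : ℝ)⁻¹) := Real.rpow_le_rpow (by positivity) h3 (by positivity)
    _ = (C0 + 1) ^ ((M : ℝ)⁻¹) * (n : ℝ) ^ (2 * (M : ℝ)⁻¹) := by
      rw [Real.mul_rpow (by positivity) (by positivity), Real.rpow_mul (by positivity)]
      norm_num
    _ ≤ _ := mul_le_mul_of_nonneg_left (Real.rpow_le_rpow_of_exponent_le hn' hM2) (by positivity)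

theorem toNat_bd (α : ℝ) (h : ℤ) (n : ℕ) (hn : 1 ≤ n) :
    (⌊α * (n : ℝ)⌋ + h).toNat ≤ (⌈α⌉₊ + h.natAbs) * n := by
  rw [Int.toNat_le]
  have h1 : (⌊α * (n : ℝ)⌋ : ℤ) ≤ ((⌈α⌉₊ * n : ℕ) : ℤ) := by
    have h2 : α * (n : ℝ) ≤ ((⌈α⌉₊ * n : ℕ) : ℝ) := by
      push_cast
      exact mul_le_mul_of_nonneg_right (Nat.le_ceil _) (by positivity)
    have h3 : ⌊α * (n : ℝ)⌋ ≤ ⌊((⌈α⌉₊ * n : ℕ) : ℝ)⌋ := Int.floor_le_floor h2
    rwa [Int.floor_natCast] at h3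
  have h2 : h ≤ (h.natAbs * n : ℕ) := by
    have h3 : h ≤ h.natAbs := Int.le_natAbs
    have h4 : h.natAbs ≤ h.natAbs * n := Nat.le_mul_of_pos_right _ (by omega)
    exact h3.trans (by exact_mod_cast h4)
  have h3 : (((⌈α⌉₊ + h.natAbs) * n : ℕ) : ℤ) = ((⌈α⌉₊ * n : ℕ) : ℤ) + (h.natAbs * n : ℕ) := by
    rw [← Nat.cast_add]; congr 1; ring
  rw [h3]
  linarith

theorem val_bd (R : ℕ) (ε : ℝ) (hε : 0 < ε) (α : ℝ) (hα : 0 < α) (h : ℤ) : ∃ C : ℝ, 0 < C ∧ ∀ n : ℕ, 1 ≤ n →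
    (d R (⌊α * (n : ℝ)⌋ + h).toNat : ℝ) ≤ C * (n : ℝ) ^ ε := by
  obtain ⟨C, hC, hb⟩ := d_pow_bd R ε hε
  have hD : 0 < ⌈α⌉₊ + h.natAbs := by have := Nat.ceil_pos.2 hα; omega
  refine ⟨C * (((⌈α⌉₊ + h.natAbs : ℕ) : ℝ)) ^ ε, by positivity, fun n hn => ?_⟩
  rcases Nat.eq_zero_or_pos (⌊α * (n : ℝ)⌋ + h).toNat with h0 | h0
  · rw [h0, d_at_zero, Nat.cast_zero]; positivity
  refine (hb _ h0).trans ?_
  have h1 : (((⌊α * (n : ℝ)⌋ + h).toNat : ℕ) : ℝ) ≤ ((⌈α⌉₊ + h.natAbs : ℕ) : ℝ) * n := by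
    exact_mod_cast toNat_bd α h n hn
  have h2 : ((((⌊α * (n : ℝ)⌋ + h).toNat : ℕ) : ℝ)) ^ ε ≤ (((⌈α⌉₊ + h.natAbs : ℕ) : ℝ) * n) ^ ε :=
    Real.rpow_le_rpow (Nat.cast_nonneg _) h1 hε.le
  rw [Real.mul_rpow (Nat.cast_nonneg _) (Nat.cast_nonneg _)] at h2
  calc C * ((((⌊α * (n : ℝ)⌋ + h).toNat : ℕ) : ℝ)) ^ ε ≤ C * ((((⌈α⌉₊ + h.natAbs : ℕ) : ℝ)) ^ ε * (n : ℝ) ^ ε) :=
        mul_le_mul_of_nonneg_left h2 hC.le
    _ = _ := by ring

theorem term_bd {k : ℕ} (r₀ : ℕ) (r : Fin k → ℕ) (α : Fin k → ℝ) (hα : ∀ i, 0 < α i) (h : Fin k → ℤ) :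
    ∃ C : ℝ, 0 < C ∧ ∀ n : ℕ, 1 ≤ n →
      (d r₀ n : ℝ) * ∏ i, (d (r i) (⌊α i * (n : ℝ)⌋ + h i).toNat : ℝ) ≤ C * (n : ℝ) ^ (1 / 2 : ℝ) := by
  set ε : ℝ := 1 / (2 * (k + 1)) with hε
  have hεp : 0 < ε := by positivity
  obtain ⟨C0, hC0, h0⟩ := d_pow_bd r₀ ε hεp
  choose C hC hb using fun i => val_bd (r i) ε hεp (α i) (hα i) (h i)
  refine ⟨C0 * ∏ i, C i, mul_pos hC0 (prod_pos fun i _ => hC i), fun n hn => ?_⟩
  have hn' : (1 : ℝ) ≤ n := by exact_mod_cast hn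
  have h1 : ∏ i, (d (r i) (⌊α i * (n : ℝ)⌋ + h i).toNat : ℝ) ≤ ∏ i, (C i * (n : ℝ) ^ ε) :=
    prod_le_prod (fun _ _ => by positivity) fun i _ => hb i n hn
  rw [prod_mul_distrib, prod_const, card_univ, Fintype.card_fin] at h1
  have h2 : 0 ≤ ∏ i, C i := prod_nonneg fun i _ => (hC i).le
  calc (d r₀ n : ℝ) * ∏ i, (d (r i) (⌊α i * (n : ℝ)⌋ + h i).toNat : ℝ) ≤
        (C0 * (n : ℝ) ^ ε) * ((∏ i, C i) * ((n : ℝ) ^ ε) ^ k) := mul_le_mul (h0 n hn) h1 (by positivity) (by positivity)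
    _ = (C0 * ∏ i, C i) * ((n : ℝ) ^ ε) ^ (k + 1) := by ring
    _ = (C0 * ∏ i, C i) * (n : ℝ) ^ (1 / 2 : ℝ) := by
      rw [← Real.rpow_natCast, ← Real.rpow_mul (by positivity)]
      congr 2
      rw [hε]; push_cast; field_simp

theorem crossing (f : ℕ → ℝ) (y : ℝ) (hj : ∀ ε : ℝ, 0 < ε → ∀ᶠ X in atTop, f (X + 1) ≤ f X + ε)
    (hlow : ∃ᶠ X in atTop, f X < y) (hhigh : ∃ᶠ X in atTop, y < f X) : MapClusterPt y atTop f := by
  classical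
  rw [mapClusterPt_iff_frequently]
  intro s hs
  obtain ⟨ε, hε, hsub⟩ := Metric.mem_nhds_iff.1 hs
  rw [frequently_atTop]
  intro K
  obtain ⟨K1, hK1⟩ := eventually_atTop.1 (hj (ε / 2) (by positivity))
  obtain ⟨X1, hX1, hX1'⟩ := frequently_atTop.1 hlow (max K K1)
  obtain ⟨X2, hX2, hX2'⟩ := frequently_atTop.1 hhigh X1
  have hex : ∃ X, X1 ≤ X ∧ y ≤ f X := ⟨X2, hX2, hX2'.le⟩
  set X := Nat.find hex with hX
  have h1 := Nat.find_spec hex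
  rw [← hX] at h1
  have h2 : X1 ≠ X := by
    intro h
    rw [← h] at h1
    linarith [h1.2]
  have h3 : X1 ≤ X - 1 := by omega
  have h4 : f (X - 1) < y := by
    by_contra hcon
    push Not at hcon
    have := Nat.find_min' hex ⟨h3, hcon⟩
    omega
  have h5 := hK1 (X - 1) (by have := le_max_right K K1; omega)
  rw [Nat.sub_add_cancel (by omega)] at h5
  refine ⟨X, by have := le_max_left K K1; omega, hsub ?_⟩
  rw [Metric.mem_ball, Real.dist_eq, abs_lt]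
  constructor <;> linarith [h1.2]

theorem Cor_succ {k : ℕ} (r₀ : ℕ) (r : Fin k → ℕ) (α : Fin k → ℝ) (h : Fin k → ℤ) (X : ℕ) :
    Cor r₀ r α h (X + 1) = Cor r₀ r α h X + (d r₀ (X + 1) : ℝ) * ∏ i, (d (r i) (⌊α i * ((X + 1 : ℕ) : ℝ)⌋ + h i).toNat : ℝ) := by
  unfold Cor
  rw [sum_Icc_succ_top (by omega)]

theorem Cor_nonneg {k : ℕ} (r₀ : ℕ) (r : Fin k → ℕ) (α : Fin k → ℝ) (h : Fin k → ℤ) (X : ℕ) : 0 ≤ Cor r₀ r α h X :=
  sum_nonneg fun _ _ => by positivity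

theorem jump {k : ℕ} (r₀ : ℕ) (r : Fin k → ℕ) (α : Fin k → ℝ) (hα : ∀ i, 0 < α i) (h : Fin k → ℤ) (s : ℕ) (ε : ℝ)
    (hε : 0 < ε) : ∀ᶠ X : ℕ in atTop, Cor r₀ r α h (X + 1) / (((X + 1 : ℕ) : ℝ) * Real.log ((X + 1 : ℕ) : ℝ) ^ s) ≤
      Cor r₀ r α h X / (X * Real.log X ^ s) + ε := by
  obtain ⟨C, hC, hb⟩ := term_bd r₀ r α hα h
  have hlim : Tendsto (fun X : ℕ => C * (((X + 1 : ℕ) : ℝ)) ^ (-(1 / 2) : ℝ)) atTop (𝓝 0) := by
    have h3 := ((tendsto_rpow_neg_atTop (show (0 : ℝ) < 1 / 2 by norm_num)).comp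
      (tendsto_natCast_atTop_atTop (R := ℝ))).comp (tendsto_add_atTop_nat 1)
    simpa using h3.const_mul C
  filter_upwards [eventually_ge_atTop 3, hlim.eventually (gt_mem_nhds hε)] with X hX hX2
  have hX' : (3 : ℝ) ≤ X := by exact_mod_cast hX
  have hl : 1 ≤ Real.log X := by
    have h5 : Real.exp 1 ≤ X := by have := Real.exp_one_lt_d9; linarith
    exact (Real.le_log_iff_exp_le (by linarith)).2 h5
  have hY : (X : ℝ) ≤ ((X + 1 : ℕ) : ℝ) := by push_cast; linarith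
  have hl2 : Real.log X ≤ Real.log ((X + 1 : ℕ) : ℝ) := Real.log_le_log (by linarith) hY
  have hls : 1 ≤ Real.log ((X + 1 : ℕ) : ℝ) ^ s := one_le_pow₀ (hl.trans hl2)
  have hYp : (0 : ℝ) < ((X + 1 : ℕ) : ℝ) := by positivity
  rw [Cor_succ, add_div]
  apply add_le_add
  · apply div_le_div_of_nonneg_left (Cor_nonneg _ _ _ _ _) (by positivity)
    exact mul_le_mul hY (pow_le_pow_left₀ (by linarith) hl2 s) (by positivity) (by positivity)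
  · refine le_trans ?_ hX2.le
    have h1 := hb (X + 1) (by omega)
    rw [div_le_iff₀ (by positivity)]
    have h2 : (((X + 1 : ℕ) : ℝ)) ^ (1 / 2 : ℝ) = (((X + 1 : ℕ) : ℝ)) ^ (-(1 / 2) : ℝ) * ((X + 1 : ℕ) : ℝ) := by
      rw [← Real.rpow_add_one hYp.ne']
      norm_num
    calc (d r₀ (X + 1) : ℝ) * ∏ i, (d (r i) (⌊α i * ((X + 1 : ℕ) : ℝ)⌋ + h i).toNat : ℝ) ≤
          C * (((X + 1 : ℕ) : ℝ)) ^ (1 / 2 : ℝ) := h1
      _ = C * (((X + 1 : ℕ) : ℝ)) ^ (-(1 / 2) : ℝ) * (((X + 1 : ℕ) : ℝ) * 1) := by rw [h2]; ring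
      _ ≤ C * (((X + 1 : ℕ) : ℝ)) ^ (-(1 / 2) : ℝ) * (((X + 1 : ℕ) : ℝ) * Real.log ((X + 1 : ℕ) : ℝ) ^ s) := by gcongr

theorem limit_points {k : ℕ} (r₀ : ℕ) (r : Fin k → ℕ) (h0 : 1 ≤ r₀) (hr : ∀ i, 1 ≤ r i)
    (hs : (r₀ - 1) + ∑ i, (r i - 1) < r₀ * ∏ i, r i - 1) :
    ∀ᶠ α in residual (Fin k → ℝ), (∀ i, 0 < α i) → ∀ h : Fin k → ℤ, ∀ y : ℝ,
      1 / (((r₀ - 1).factorial : ℝ) * ∏ i, ((r i - 1).factorial : ℝ)) ≤ y →
        MapClusterPt y atTop (fun X : ℕ => Cor r₀ r α h X / (X * Real.log X ^ ((r₀ - 1) + ∑ i, (r i - 1)))) := by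
  set s := (r₀ - 1) + ∑ i, (r i - 1) with hsd
  set L : ℝ := 1 / (((r₀ - 1).factorial : ℝ) * ∏ i, ((r i - 1).factorial : ℝ)) with hL
  have hlog : Tendsto (fun X : ℕ => Real.log (X : ℝ)) atTop atTop := Real.tendsto_log_atTop.comp tendsto_natCast_atTop_atTop
  have hg : Tendsto (fun X : ℕ => (Real.sqrt (Real.log X))⁻¹) atTop (𝓝 0) :=
    tendsto_inv_atTop_zero.comp (Real.tendsto_sqrt_atTop.comp hlog)
  have key : ∀ p : (Fin k → ℤ) × (ℕ × ℕ), ∀ᶠ α in residual (Fin k → ℝ), (∀ i, 0 < α i) →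
      ∃ X : ℕ, p.2.1 ≤ X ∧ |Cor r₀ r α p.1 X / (X * Real.log X ^ s) - L| < 1 / (p.2.2 + 1) := by
    intro p
    obtain ⟨O, hO, hD, hα⟩ := near_dense r₀ r h0 hr p.1 p.2.1 p.2.2
    exact Filter.mem_of_superset (residual_of_dense_open hO hD) hα
  filter_upwards [eventually_countable_forall.2 key, generic r₀ r h0 hr _ hg] with α hα hgen hpos h y hy
  have near : ∀ ε : ℝ, 0 < ε → ∃ᶠ X : ℕ in atTop, |Cor r₀ r α h X / (X * Real.log X ^ s) - L| < ε := by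
    intro ε hε
    obtain ⟨m, hm⟩ := exists_nat_one_div_lt hε
    rw [frequently_atTop]
    intro K
    obtain ⟨X, hX, hX'⟩ := hα (h, (K, m)) hpos
    exact ⟨X, hX, hX'.trans hm⟩
  rcases hy.eq_or_lt with hy | hy
  · rw [← hy, mapClusterPt_iff_frequently]
    intro t ht
    obtain ⟨ε, hε, hsub⟩ := Metric.mem_nhds_iff.1 ht
    refine (near ε hε).mono fun X hX => hsub ?_
    rw [Metric.mem_ball, Real.dist_eq]
    exact hX
  · refine crossing _ y (fun ε hε => jump r₀ r α hpos h s ε hε) ?_ ?_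
    · refine (near (y - L) (by linarith)).mono fun X hX => ?_
      have := (abs_lt.1 hX).2
      linarith
    · have hev : ∀ᶠ X : ℕ in atTop, 3 ≤ X ∧ y ≤ Real.sqrt (Real.log X) :=
        (eventually_ge_atTop 3).and ((Real.tendsto_sqrt_atTop.comp hlog).eventually_ge_atTop y)
      refine ((hgen hpos h).and_eventually hev).mono ?_
      rintro X ⟨h1, hX, h2⟩
      have hX' : (3 : ℝ) ≤ X := by exact_mod_cast hX
      have hl : 1 ≤ Real.log X := by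
        have h5 : Real.exp 1 ≤ X := by have := Real.exp_one_lt_d9; linarith
        exact (Real.le_log_iff_exp_le (by linarith)).2 h5
      have hsq : 0 < Real.sqrt (Real.log X) := Real.sqrt_pos.2 (by linarith)
      refine lt_of_le_of_lt h2 ?_
      rw [lt_div_iff₀ (by positivity)]
      refine lt_of_le_of_lt ?_ h1
      have h3 : Real.log X ^ (s + 1) ≤ Real.log X ^ (r₀ * ∏ i, r i - 1) := pow_le_pow_right₀ hl (by omega)
      have h4 : (Real.sqrt (Real.log X))⁻¹ * Real.log X = Real.sqrt (Real.log X) := by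
        rw [inv_mul_eq_div, Real.div_sqrt]
      calc Real.sqrt (Real.log X) * (X * Real.log X ^ s) =
            (Real.sqrt (Real.log X))⁻¹ * (X * Real.log X ^ (s + 1)) := by
            rw [pow_succ]
            conv_lhs => rw [← h4]
            ring
        _ ≤ (Real.sqrt (Real.log X))⁻¹ * (X * Real.log X ^ (r₀ * ∏ i, r i - 1)) := by
            apply mul_le_mul_of_nonneg_left _ (by positivity)
            exact mul_le_mul_of_nonneg_left h3 (by positivity)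

end Pool.Agent.H49.EX
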