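import Mathlib

set_option autoImplicit false

/-! From the Liouville function to the Moebius function: `μ(m) = λ(m) ∑_{d² | m} μ(d)`, cut at `d ≤ D`. -/

namespace Pool.Agent.H49.MT

open Finset

/-- the number of `d > D` with `d ^ 2 ∣ m` -/
def tl (D m : ℕ) : ℕ := ((Ioc D m).filter (fun d => d ^ 2 ∣ m)).card

lemma sq_dvd_iff {a b d : ℕ} (ha : Squarefree a) (hb : b ≠ 0) : d ^ 2 ∣ b ^ 2 * a ↔ d ∣ b := by
  constructor
  · intro h
    have ha0 : a ≠ 0 := ha.ne_zero
    have hd0 : d ≠ 0 := by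
      rintro rfl
      rw [zero_pow two_ne_zero, zero_dvd_iff] at h
      exact (mul_ne_zero (pow_ne_zero 2 hb) ha0) h
    rw [← Nat.factorization_le_iff_dvd hd0 hb]
    intro p
    have h1 := (Nat.factorization_le_iff_dvd (pow_ne_zero 2 hd0) (mul_ne_zero (pow_ne_zero 2 hb) ha0)).2 h p
    rw [Nat.factorization_mul (pow_ne_zero 2 hb) ha0, Nat.factorization_pow, Nat.factorization_pow] at h1
    simp only [Finsupp.coe_add, Finsupp.coe_smul, Pi.add_apply, Pi.smul_apply, smul_eq_mul] at h1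
    have h2 := ha.natFactorization_le_one p
    omega
  · intro h
    exact (pow_dvd_pow_of_dvd h 2).mul_right a

lemma sum_mu_divisors (n : ℕ) (hn : n ≠ 0) :
    ∑ d ∈ n.divisors, ArithmeticFunction.moebius d = if n = 1 then (1 : ℤ) else 0 := by
  have h := congrArg (fun f : ArithmeticFunction ℤ => f n) ArithmeticFunction.coe_zeta_mul_moebius
  simp only [ArithmeticFunction.coe_zeta_mul_apply, ArithmeticFunction.one_apply] at h
  exact h

/-- `μ(m) = λ(m) ∑_{d² | m} μ(d)` -/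
lemma mu_eq (m : ℕ) (hm : m ≠ 0) :
    ArithmeticFunction.moebius m = (-1 : ℤ) ^ ArithmeticFunction.cardFactors m *
      ∑ d ∈ (Icc 1 m).filter (fun d => d ^ 2 ∣ m), ArithmeticFunction.moebius d := by
  obtain ⟨a, b, hab, ha⟩ := Nat.sq_mul_squarefree m
  have hb : b ≠ 0 := by
    rintro rfl
    rw [zero_pow two_ne_zero, zero_mul] at hab
    exact hm hab.symm
  have hset : (Icc 1 m).filter (fun d => d ^ 2 ∣ m) = b.divisors := by
    ext d
    rw [mem_filter, mem_Icc, Nat.mem_divisors, ← hab, sq_dvd_iff ha hb]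
    constructor
    · rintro ⟨_, h⟩
      exact ⟨h, hb⟩
    · rintro ⟨h, _⟩
      refine ⟨⟨Nat.pos_of_dvd_of_pos h (Nat.pos_of_ne_zero hb), ?_⟩, h⟩
      calc d ≤ b := Nat.le_of_dvd (Nat.pos_of_ne_zero hb) h
        _ ≤ b ^ 2 * a := by
          have h1 : 1 ≤ b := Nat.pos_of_ne_zero hb
          have h2 : 1 ≤ a := Nat.pos_of_ne_zero ha.ne_zero
          calc b = b * 1 * 1 := by ring
            _ ≤ b * b * a := Nat.mul_le_mul (Nat.mul_le_mul le_rfl h1) h2
            _ = b ^ 2 * a := by ring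
  rw [hset, sum_mu_divisors b hb]
  by_cases hb1 : b = 1
  · rw [if_pos hb1, mul_one]
    have hma : m = a := by rw [← hab, hb1]; ring
    rw [hma]
    exact ArithmeticFunction.moebius_apply_of_squarefree ha
  · rw [if_neg hb1, mul_zero]
    apply ArithmeticFunction.moebius_eq_zero_of_not_squarefree
    intro hsq
    apply hb1
    have h1 : b * b ∣ m := ⟨a, by rw [← hab]; ring⟩
    exact Nat.isUnit_iff.1 (hsq b h1)

/-- the error of the cut -/
lemma mu_cut (D m : ℕ) (hm : m ≠ 0) :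
    ‖((ArithmeticFunction.moebius m : ℤ) : ℂ) - (-1 : ℂ) ^ ArithmeticFunction.cardFactors m *
      ∑ d ∈ (Icc 1 D).filter (fun d => d ^ 2 ∣ m), ((ArithmeticFunction.moebius d : ℤ) : ℂ)‖ ≤ tl D m := by
  have h1 : (Icc 1 m).filter (fun d => d ^ 2 ∣ m) =
      (Icc 1 D).filter (fun d => d ^ 2 ∣ m) ∪ (Ioc D m).filter (fun d => d ^ 2 ∣ m) := by
    ext d
    simp only [mem_union, mem_filter, mem_Icc, mem_Ioc]
    constructor
    · rintro ⟨⟨h2, h3⟩, h4⟩
      rcases Nat.lt_or_ge D d with h5 | h5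
      · exact Or.inr ⟨⟨h5, h3⟩, h4⟩
      · exact Or.inl ⟨⟨h2, h5⟩, h4⟩
    · rintro (⟨⟨h2, h3⟩, h4⟩ | ⟨⟨h2, h3⟩, h4⟩)
      · refine ⟨⟨h2, ?_⟩, h4⟩
        have h5 := Nat.le_of_dvd (Nat.pos_of_ne_zero hm) h4
        nlinarith
      · exact ⟨⟨by omega, h3⟩, h4⟩
  have h2 : Disjoint ((Icc 1 D).filter (fun d => d ^ 2 ∣ m)) ((Ioc D m).filter (fun d => d ^ 2 ∣ m)) := by
    rw [disjoint_left]
    intro d h3 h4
    simp only [mem_filter, mem_Icc, mem_Ioc] at h3 h4
    omega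
  have h3 := mu_eq m hm
  rw [h1, sum_union h2] at h3
  have h4 : ((ArithmeticFunction.moebius m : ℤ) : ℂ) - (-1 : ℂ) ^ ArithmeticFunction.cardFactors m *
      ∑ d ∈ (Icc 1 D).filter (fun d => d ^ 2 ∣ m), ((ArithmeticFunction.moebius d : ℤ) : ℂ) =
      (-1 : ℂ) ^ ArithmeticFunction.cardFactors m *
      ∑ d ∈ (Ioc D m).filter (fun d => d ^ 2 ∣ m), ((ArithmeticFunction.moebius d : ℤ) : ℂ) := by
    rw [h3]
    push_cast
    ring
  rw [h4, norm_mul, norm_pow, norm_neg, norm_one, one_pow, one_mul]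
  refine (norm_sum_le _ _).trans ?_
  unfold tl
  rw [← nsmul_one, ← sum_const]
  apply sum_le_sum
  intro d _
  rw [Complex.norm_intCast]
  exact_mod_cast ArithmeticFunction.abs_moebius_le_one

end Pool.Agent.H49.MT
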