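import Mathlib
import Pool.Agent.H49.G.R_seed8.Helper602.MK.J3
import Pool.Agent.H49.G.R_seed8.Helper602.MK.J4a
import Pool.Agent.H49.D.MTa

set_option autoImplicit false

/-! The tail of the sum over the square divisors, weighted by the von Mangoldt function. -/

namespace Pool.Agent.H49.MT

open Finset
open ArithmeticFunction (vonMangoldt)

lemma totient_sq (d : ℕ) (hd : 0 < d) : Nat.totient (d ^ 2) = d * Nat.totient d := by
  have h := Nat.totient_gcd_mul_totient_mul d d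
  rw [Nat.gcd_self, ← pow_two] at h
  have h1 : 0 < Nat.totient d := Nat.totient_pos.2 hd
  apply Nat.eq_of_mul_eq_mul_left h1
  rw [h]
  ring

lemma ratio_le (d : ℕ) (hd : 0 < d) : ((d ^ 2 : ℕ) : ℝ) / (Nat.totient (d ^ 2) : ℝ) ≤ Real.sqrt (2 * d) := by
  rw [totient_sq d hd]
  have h1 : (0 : ℝ) < Nat.totient d := by exact_mod_cast Nat.totient_pos.2 hd
  have hd0 : (0 : ℝ) < d := by exact_mod_cast hd
  have h2 : (d : ℝ) ≤ 2 * (Nat.totient d : ℝ) ^ 2 := by
    exact_mod_cast (Pool.Agent.Helper602.MK.N_J4a.h170_tot d).1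
  have e : ((d ^ 2 : ℕ) : ℝ) / ((d * Nat.totient d : ℕ) : ℝ) = d / Nat.totient d := by
    push_cast
    field_simp
  rw [e]
  apply Real.le_sqrt_of_sq_le
  rw [div_pow, div_le_iff₀ (by positivity)]
  nlinarith

/-- summable majorant -/
noncomputable def gg (d : ℕ) : ℝ := Real.sqrt (2 * d) / (d : ℝ) ^ 2

lemma gg_nonneg (d : ℕ) : 0 ≤ gg d := by unfold gg; positivity

lemma gg_summable : Summable gg := by
  have h := (Real.summable_nat_rpow_inv (p := (3 / 2 : ℝ))).2 (by norm_num)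
  refine Summable.of_nonneg_of_le gg_nonneg (fun d => ?_) (h.mul_left (Real.sqrt 2))
  rcases Nat.eq_zero_or_pos d with rfl | hd
  · unfold gg
    simp
  · have hd0 : (0 : ℝ) < d := by exact_mod_cast hd
    unfold gg
    rw [Real.sqrt_mul (by norm_num), mul_div_assoc]
    apply mul_le_mul_of_nonneg_left _ (Real.sqrt_nonneg _)
    rw [Real.sqrt_eq_rpow, ← Real.rpow_neg hd0.le, ← Real.rpow_natCast, ← Real.rpow_sub hd0]
    norm_num

lemma gg_tail (ε : ℝ) (hε : 0 < ε) : ∃ D : ℕ, ∀ y : ℕ, ∑ d ∈ Ioc D y, gg d ≤ ε := by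
  obtain ⟨s, hs⟩ := summable_iff_vanishing_norm.1 gg_summable ε hε
  refine ⟨s.sup id, fun y => ?_⟩
  have h := hs (Ioc (s.sup id) y) (by
    rw [disjoint_left]
    intro d hd1 hd2
    rw [mem_Ioc] at hd1
    have := le_sup (f := id) hd2
    simp only [id] at this
    omega)
  exact (le_abs_self _).trans h.le

/-- the primes in the class, by the Brun-Titchmarsh inequality -/
lemma cls_card {C : ℝ} (hC0 : 0 ≤ C) (hC : ∀ (a q N : ℕ), 1 ≤ q → 2 ≤ N →
    (((Finset.range N).filter (fun k => (a + k * q).Prime)).card : ℝ) ≤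
      C * ((q : ℝ) / (Nat.totient q : ℝ)) * N / Real.log N)
    (N a t d y : ℕ) (hN : 2 ≤ N) (hd : 0 < d) (hdy : d ≤ y) (hy : y ^ 4 ≤ N) :
    (((Icc 1 N).filter (fun n => (n + a).Prime ∧ d ^ 2 ∣ n + t)).card : ℝ) * Real.log N ≤ 4 * C * gg d * N := by
  set S := (Icc 1 N).filter (fun n => (n + a).Prime ∧ d ^ 2 ∣ n + t) with hS
  have hN0 : (0 : ℝ) < N := by exact_mod_cast (by omega : 0 < N)
  have hN1 : (1 : ℝ) < N := by exact_mod_cast (by omega : 1 < N)
  have hlog : 0 < Real.log N := Real.log_pos hN1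
  have hd0 : (0 : ℝ) < d := by exact_mod_cast hd
  have hd2 : 0 < d ^ 2 := by positivity
  rcases S.eq_empty_or_nonempty with h0 | ⟨n1, hn1⟩
  · rw [h0, card_empty, Nat.cast_zero, zero_mul]
    have := gg_nonneg d
    positivity
  rw [hS, mem_filter, mem_Icc] at hn1
  have hd4 : d ^ 4 ≤ N := (Nat.pow_le_pow_left hdy 4).trans hy
  have hdN : d ^ 2 ≤ N := (Nat.pow_le_pow_right hd (by norm_num)).trans hd4
  obtain ⟨K, hK⟩ : ∃ K, K = N / d ^ 2 + 1 := ⟨_, rfl⟩
  have hK2 : 2 ≤ K := by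
    have := Nat.div_pos hdN hd2
    omega
  have hcard : S.card ≤ ((range K).filter (fun k => ((n1 - 1) % d ^ 2 + 1 + a + k * d ^ 2).Prime)).card := by
    have key : ∀ n ∈ S, 1 ≤ n ∧ n ≤ N ∧ (n + a).Prime ∧ n - 1 = (n1 - 1) % d ^ 2 + ((n - 1) / d ^ 2) * d ^ 2 := by
      intro n hn
      rw [hS, mem_filter, mem_Icc] at hn
      refine ⟨hn.1.1, hn.1.2, hn.2.1, ?_⟩
      have h1 : (n - 1) % d ^ 2 = (n1 - 1) % d ^ 2 := by
        have h2 : (n - 1) + (1 + t) ≡ (n1 - 1) + (1 + t) [MOD d ^ 2] := by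
          have e1 : (n - 1) + (1 + t) = n + t := by omega
          have e2 : (n1 - 1) + (1 + t) = n1 + t := by omega
          rw [e1, e2]
          exact ((Nat.modEq_zero_iff_dvd).2 hn.2.2).trans ((Nat.modEq_zero_iff_dvd).2 hn1.2.2).symm
        exact Nat.ModEq.add_right_cancel' _ h2
      rw [← h1]
      have h3 := Nat.mod_add_div (n - 1) (d ^ 2)
      rw [mul_comm] at h3
      exact h3.symm
    apply card_le_card_of_injOn (fun n => (n - 1) / d ^ 2)
    · intro n hn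
      obtain ⟨h1, h2, h3, h4⟩ := key n hn
      rw [mem_coe, mem_filter, mem_range]
      refine ⟨?_, ?_⟩
      · rw [hK]
        exact Nat.lt_succ_of_le (Nat.div_le_div_right (by omega))
      · have e : (n1 - 1) % d ^ 2 + 1 + a + (n - 1) / d ^ 2 * d ^ 2 = n + a := by omega
        rw [e]
        exact h3
    · intro n hn n' hn' he
      obtain ⟨h1, _, _, h4⟩ := key n hn
      obtain ⟨h1', _, _, h4'⟩ := key n' hn'
      simp only at he
      rw [he] at h4
      omega
  have hKr : (2 : ℝ) ≤ K := by exact_mod_cast hK2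
  have hlogK : 0 < Real.log K := Real.log_pos (by linarith)
  have hBT := hC ((n1 - 1) % d ^ 2 + 1 + a) (d ^ 2) K hd2 hK2
  have hK_lo : (N : ℝ) / (d : ℝ) ^ 2 ≤ K := by
    rw [hK, div_le_iff₀ (by positivity)]
    have := Nat.lt_div_mul_add (a := N) hd2
    have h5 : N ≤ (N / d ^ 2 + 1) * d ^ 2 := by
      rw [add_mul, one_mul]
      exact this.le
    exact_mod_cast h5
  have hK_hi : (K : ℝ) ≤ 2 * N / (d : ℝ) ^ 2 := by
    rw [hK, le_div_iff₀ (by positivity)]
    have h5 : N / d ^ 2 * d ^ 2 ≤ N := Nat.div_mul_le_self _ _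
    have h6 : (N / d ^ 2 + 1) * d ^ 2 ≤ 2 * N := by
      rw [add_mul, one_mul]
      omega
    exact_mod_cast h6
  have hKlog : Real.log N ≤ 2 * Real.log K := by
    have h7 : (N : ℝ) ≤ (K : ℝ) ^ 2 := by
      have h8 : (N : ℝ) ≤ ((N : ℝ) / (d : ℝ) ^ 2) ^ 2 := by
        rw [div_pow, ← pow_mul, le_div_iff₀ (by positivity)]
        have h9 : (d : ℝ) ^ (2 * 2) ≤ N := by exact_mod_cast hd4
        nlinarith
      refine h8.trans ?_
      gcongr
    calc Real.log N ≤ Real.log ((K : ℝ) ^ 2) := Real.log_le_log hN0 h7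
      _ = 2 * Real.log K := by rw [Real.log_pow]; norm_num
  have h10 : (S.card : ℝ) ≤ C * Real.sqrt (2 * d) * (2 * N / (d : ℝ) ^ 2) / Real.log K := by
    have hr := ratio_le d hd
    have h11 : (S.card : ℝ) ≤ (((range K).filter (fun k => ((n1 - 1) % d ^ 2 + 1 + a + k * d ^ 2).Prime)).card : ℝ) := by
      exact_mod_cast hcard
    refine h11.trans (hBT.trans ?_)
    apply div_le_div_of_nonneg_right _ hlogK.le
    apply mul_le_mul (mul_le_mul_of_nonneg_left hr hC0) hK_hi (by positivity) (by positivity)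
  calc (S.card : ℝ) * Real.log N ≤ (C * Real.sqrt (2 * d) * (2 * N / (d : ℝ) ^ 2) / Real.log K) * (2 * Real.log K) :=
        mul_le_mul h10 hKlog hlog.le (by positivity)
    _ = 4 * C * gg d * N := by
      unfold gg
      field_simp
      ring

/-- the integers in the class -/
lemma cls_all (N t d : ℕ) (hd : 0 < d) :
    (((Icc 1 N).filter (fun n => d ^ 2 ∣ n + t)).card : ℝ) ≤ N / (d : ℝ) ^ 2 + 1 := by
  set S := (Icc 1 N).filter (fun n => d ^ 2 ∣ n + t) with hS
  have hd0 : (0 : ℝ) < d := by exact_mod_cast hd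
  have hd2 : 0 < d ^ 2 := by positivity
  rcases S.eq_empty_or_nonempty with h0 | ⟨n1, hn1⟩
  · rw [h0, card_empty, Nat.cast_zero]
    positivity
  rw [hS, mem_filter, mem_Icc] at hn1
  have hcard : S.card ≤ (range ((N - 1) / d ^ 2 + 1)).card := by
    have key : ∀ n ∈ S, 1 ≤ n ∧ n ≤ N ∧ n - 1 = (n1 - 1) % d ^ 2 + ((n - 1) / d ^ 2) * d ^ 2 := by
      intro n hn
      rw [hS, mem_filter, mem_Icc] at hn
      refine ⟨hn.1.1, hn.1.2, ?_⟩
      have h1 : (n - 1) % d ^ 2 = (n1 - 1) % d ^ 2 := by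
        have h2 : (n - 1) + (1 + t) ≡ (n1 - 1) + (1 + t) [MOD d ^ 2] := by
          have e1 : (n - 1) + (1 + t) = n + t := by omega
          have e2 : (n1 - 1) + (1 + t) = n1 + t := by omega
          rw [e1, e2]
          exact ((Nat.modEq_zero_iff_dvd).2 hn.2).trans ((Nat.modEq_zero_iff_dvd).2 hn1.2).symm
        exact Nat.ModEq.add_right_cancel' _ h2
      rw [← h1]
      have h3 := Nat.mod_add_div (n - 1) (d ^ 2)
      rw [mul_comm] at h3
      exact h3.symm
    apply card_le_card_of_injOn (fun n => (n - 1) / d ^ 2)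
    · intro n hn
      obtain ⟨h1, h2, h4⟩ := key n hn
      rw [mem_coe, mem_range]
      exact Nat.lt_succ_of_le (Nat.div_le_div_right (by omega))
    · intro n hn n' hn' he
      obtain ⟨h1, _, h4⟩ := key n hn
      obtain ⟨h1', _, h4'⟩ := key n' hn'
      simp only at he
      rw [he] at h4
      omega
  rw [card_range] at hcard
  have h1 : ((N - 1) / d ^ 2 : ℕ) ≤ N / d ^ 2 := Nat.div_le_div_right (by omega)
  have h2 : ((N / d ^ 2 : ℕ) : ℝ) ≤ (N : ℝ) / (d : ℝ) ^ 2 := by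
    have := @Nat.cast_div_le ℝ _ _ _ N (d ^ 2)
    rw [Nat.cast_pow] at this
    exact this
  have h3 : (S.card : ℝ) ≤ ((N / d ^ 2 : ℕ) : ℝ) + 1 := by
    exact_mod_cast hcard.trans (by omega : (N - 1) / d ^ 2 + 1 ≤ N / d ^ 2 + 1)
  linarith

end Pool.Agent.H49.MT
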