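import Mathlib
import Pool.Agent.H49.D.MTb

set_option autoImplicit false

/-! The tail is small. -/

namespace Pool.Agent.H49.MT

open Finset
open ArithmeticFunction (vonMangoldt)

lemma tl_split (D y m Z : ℕ) (hZ : Nat.sqrt m ≤ Z) (hm : m ≠ 0) :
    (tl D m : ℝ) ≤ (((Ioc D y).filter (fun d => d ^ 2 ∣ m)).card : ℝ) + (((Ioc y Z).filter (fun d => d ^ 2 ∣ m)).card : ℝ) := by
  have h : (Ioc D m).filter (fun d => d ^ 2 ∣ m) ⊆
      (Ioc D y).filter (fun d => d ^ 2 ∣ m) ∪ (Ioc y Z).filter (fun d => d ^ 2 ∣ m) := by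
    intro d
    simp only [mem_union, mem_filter, mem_Ioc]
    rintro ⟨⟨h1, h2⟩, h3⟩
    rcases Nat.lt_or_ge y d with h4 | h4
    · right
      refine ⟨⟨h4, ?_⟩, h3⟩
      have h5 := Nat.le_of_dvd (Nat.pos_of_ne_zero hm) h3
      exact (Nat.le_sqrt'.2 h5).trans hZ
    · exact Or.inl ⟨⟨h1, h4⟩, h3⟩
  unfold tl
  exact_mod_cast (card_le_card h).trans (card_union_le _ _)

lemma not_prime_sum (K N a : ℕ) (ha : a ≤ K * N) (hN : 1 ≤ N) :
    ∑ n ∈ (Icc 1 N).filter (fun n => ¬ (n + a).Prime), vonMangoldt (n + a) ≤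
      2 * Real.sqrt ((K + 1) * N) * Real.log ((K + 1) * N) := by
  have hx : (1 : ℝ) ≤ (K + 1) * N := by
    have h1 : (1 : ℝ) ≤ N := by exact_mod_cast hN
    have h2 : (0 : ℝ) ≤ K := Nat.cast_nonneg K
    nlinarith
  have h1 := Chebyshev.psi_sub_theta_le hx
  rw [Chebyshev.psi_sub_theta_eq_sum_not_prime] at h1
  refine le_trans ?_ h1
  have hfl : ⌊((K + 1) * N : ℝ)⌋₊ = (K + 1) * N := by
    have : ((K + 1) * N : ℝ) = (((K + 1) * N : ℕ) : ℝ) := by push_cast; ring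
    rw [this, Nat.floor_natCast]
  rw [hfl]
  have h2 : ∑ n ∈ (Icc 1 N).filter (fun n => ¬ (n + a).Prime), vonMangoldt (n + a) =
      ∑ m ∈ ((Icc 1 N).filter (fun n => ¬ (n + a).Prime)).image (fun n => n + a), vonMangoldt m := by
    rw [sum_image]
    intro n _ n' _ h
    simp only at h
    omega
  rw [h2]
  apply sum_le_sum_of_subset_of_nonneg
  · intro m hm
    rw [mem_image] at hm
    obtain ⟨n, hn, rfl⟩ := hm
    rw [mem_filter, mem_Icc] at hn
    simp only [mem_filter, mem_Ioc]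
    have : (K + 1) * N = K * N + N := by ring
    exact ⟨⟨by omega, by omega⟩, hn.2⟩
  · intro m _ _
    exact ArithmeticFunction.vonMangoldt_nonneg

lemma vm_le (K N n a : ℕ) (hn : n ∈ Icc 1 N) (ha : a ≤ K * N) : vonMangoldt (n + a) ≤ Real.log ((K + 1) * N) := by
  rw [mem_Icc] at hn
  refine ArithmeticFunction.vonMangoldt_le_log.trans ?_
  apply Real.log_le_log
  · exact_mod_cast (by omega : 0 < n + a)
  · have h1 : (K + 1) * N = K * N + N := by ring
    have : n + a ≤ (K + 1) * N := by omega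
    exact_mod_cast this

set_option maxHeartbeats 1000000 in
/-- The tail of the sum over the square divisors. -/
theorem tail_small (K : ℕ) (ε : ℝ) (hε : 0 < ε) : ∃ D N₀ : ℕ, ∀ N, N₀ ≤ N → ∀ a, a ≤ K * N → ∀ t, t ≤ K * N →
    ∑ n ∈ Icc 1 N, vonMangoldt (n + a) * (tl D (n + t) : ℝ) ≤ ε * N := by
  obtain ⟨C, hC1, hC⟩ := Pool.Agent.Helper602.MK.BTLib.brun_titchmarsh
  have hC0 : (0 : ℝ) < C := by linarith
  have hK0 : (0 : ℝ) ≤ K := Nat.cast_nonneg K
  have hK1 : (1 : ℝ) ≤ K + 1 := by linarith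
  obtain ⟨D, hD⟩ := gg_tail (ε / (16 * C)) (by positivity)
  have hlog := (isLittleO_log_rpow_atTop (show (0 : ℝ) < 1 / 4 by norm_num)).bound
    (show (0 : ℝ) < ε / (20 * (K + 1)) by positivity)
  obtain ⟨x0, hx0⟩ := Filter.eventually_atTop.1 hlog
  refine ⟨D, ⌈x0⌉₊ + 16 + (K + 1), fun N hN a ha t ht => ?_⟩
  have hN16 : 16 ≤ N := by omega
  have hNr : (16 : ℝ) ≤ N := by exact_mod_cast hN16
  have hN0 : (0 : ℝ) < N := by linarith
  have hKN : (K : ℝ) + 1 ≤ N := by exact_mod_cast (by omega : K + 1 ≤ N)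
  have hLN : Real.log N ≤ ε / (20 * (K + 1)) * (N : ℝ) ^ (1 / 4 : ℝ) := by
    have h1 := hx0 N ((Nat.le_ceil x0).trans (by exact_mod_cast (by omega : ⌈x0⌉₊ ≤ N)))
    rw [Real.norm_eq_abs, Real.norm_eq_abs, abs_of_nonneg (Real.log_nonneg (by linarith)),
      abs_of_nonneg (Real.rpow_nonneg hN0.le _)] at h1
    exact h1
  have hlog0 : 0 < Real.log N := Real.log_pos (by linarith)
  obtain ⟨L2, hL2d⟩ : ∃ L2 : ℝ, L2 = Real.log ((K + 1) * N) := ⟨_, rfl⟩
  have hL2 : L2 ≤ 2 * Real.log N := by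
    rw [hL2d, Real.log_mul (by positivity) hN0.ne']
    have : Real.log (K + 1) ≤ Real.log N := Real.log_le_log (by positivity) hKN
    linarith
  have hL20 : 0 ≤ L2 := by
    rw [hL2d]
    apply Real.log_nonneg
    nlinarith
  obtain ⟨x, hx⟩ : ∃ x : ℝ, x = (N : ℝ) ^ (1 / 4 : ℝ) := ⟨_, rfl⟩
  rw [← hx] at hLN
  have hx4 : x ^ 4 = N := by
    rw [hx, ← Real.rpow_natCast, ← Real.rpow_mul hN0.le]
    norm_num
  have hxpos : 0 < x := by rw [hx]; positivity
  have hx2 : 2 ≤ x := by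
    by_contra hcon
    push Not at hcon
    have : x ^ 4 < 2 ^ 4 := pow_lt_pow_left₀ hcon hxpos.le (by norm_num)
    rw [hx4] at this
    norm_num at this
    linarith
  obtain ⟨y, hy⟩ : ∃ y : ℕ, y = ⌊x⌋₊ := ⟨_, rfl⟩
  have hyx : (y : ℝ) ≤ x := by rw [hy]; exact Nat.floor_le hxpos.le
  have hyx2 : x < y + 1 := by rw [hy]; exact Nat.lt_floor_add_one x
  have hy1 : (x / 2 : ℝ) ≤ y := by linarith
  have hy2 : (1 : ℝ) ≤ y := by linarith
  have hy0 : 0 < y := by exact_mod_cast (by linarith : (0 : ℝ) < y)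
  have hy4 : y ^ 4 ≤ N := by
    have : (y : ℝ) ^ 4 ≤ N := by rw [← hx4]; gcongr
    exact_mod_cast this
  obtain ⟨Z, hZ⟩ : ∃ Z : ℕ, Z = Nat.sqrt ((K + 1) * N) := ⟨_, rfl⟩
  have hsqK : (K + 1 : ℝ) * N ≤ ((K + 1) * x ^ 2) ^ 2 := by
    have h4 : ((K + 1) * x ^ 2) ^ 2 = (K + 1 : ℝ) ^ 2 * (N : ℝ) := by rw [← hx4]; ring
    rw [h4]
    apply mul_le_mul_of_nonneg_right _ hN0.le
    nlinarith
  have hZx : (Z : ℝ) ≤ (K + 1) * x ^ 2 := by
    have h1 : Z ^ 2 ≤ (K + 1) * N := by rw [hZ]; exact Nat.sqrt_le' _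
    have h2 : (Z : ℝ) ^ 2 ≤ ((K + 1) * x ^ 2) ^ 2 := by
      have h3 : (Z : ℝ) ^ 2 ≤ (K + 1) * N := by exact_mod_cast h1
      linarith
    exact le_of_sq_le_sq h2 (by positivity)
  have hsq : Real.sqrt ((K + 1) * N) ≤ (K + 1) * x ^ 2 := by
    apply Real.sqrt_le_iff.2
    exact ⟨by positivity, hsqK⟩
  -- split
  have hs1 : ∑ n ∈ Icc 1 N, vonMangoldt (n + a) * (tl D (n + t) : ℝ) ≤
      ∑ n ∈ Icc 1 N, (∑ d ∈ Ioc D y, if d ^ 2 ∣ n + t then vonMangoldt (n + a) else 0) +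
      ∑ n ∈ Icc 1 N, (∑ d ∈ Ioc y Z, if d ^ 2 ∣ n + t then L2 else 0) := by
    rw [← sum_add_distrib]
    apply sum_le_sum
    intro n hn
    have hn' := hn
    rw [mem_Icc] at hn
    have hKN1 : (K + 1) * N = K * N + N := by ring
    have h1 := tl_split D y (n + t) Z (by rw [hZ]; exact Nat.sqrt_le_sqrt (by omega)) (by omega)
    have h0 : 0 ≤ vonMangoldt (n + a) := ArithmeticFunction.vonMangoldt_nonneg
    have h2 := vm_le K N n a hn' ha
    rw [← hL2d] at h2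
    rw [← sum_filter, ← sum_filter, sum_const, sum_const, nsmul_eq_mul, nsmul_eq_mul]
    calc vonMangoldt (n + a) * (tl D (n + t) : ℝ) ≤ vonMangoldt (n + a) *
          ((((Ioc D y).filter (fun d => d ^ 2 ∣ n + t)).card : ℝ) + (((Ioc y Z).filter (fun d => d ^ 2 ∣ n + t)).card : ℝ)) :=
          mul_le_mul_of_nonneg_left h1 h0
      _ ≤ _ := by
          have h3 : (0 : ℝ) ≤ (((Ioc y Z).filter (fun d => d ^ 2 ∣ n + t)).card : ℝ) := Nat.cast_nonneg _
          nlinarith [mul_le_mul_of_nonneg_right h2 h3]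
  -- the first part
  have hp1 : ∑ n ∈ Icc 1 N, (∑ d ∈ Ioc D y, if d ^ 2 ∣ n + t then vonMangoldt (n + a) else 0) ≤
      ∑ d ∈ Ioc D y, ((((Icc 1 N).filter (fun n => (n + a).Prime ∧ d ^ 2 ∣ n + t)).card : ℝ) * L2 +
        2 * Real.sqrt ((K + 1) * N) * L2) := by
    rw [sum_comm]
    apply sum_le_sum
    intro d hd
    have h1 : ∑ n ∈ Icc 1 N, (if d ^ 2 ∣ n + t then vonMangoldt (n + a) else 0) ≤
        ∑ n ∈ Icc 1 N, ((if (n + a).Prime ∧ d ^ 2 ∣ n + t then L2 else 0) +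
          (if ¬ (n + a).Prime then vonMangoldt (n + a) else 0)) := by
      apply sum_le_sum
      intro n hn
      have h2 := vm_le K N n a hn ha
      rw [← hL2d] at h2
      have h0 : 0 ≤ vonMangoldt (n + a) := ArithmeticFunction.vonMangoldt_nonneg
      by_cases h3 : d ^ 2 ∣ n + t
      · by_cases h4 : (n + a).Prime
        · rw [if_pos h3, if_pos ⟨h4, h3⟩, if_neg (not_not.2 h4)]
          linarith
        · rw [if_pos h3, if_neg (fun h => h4 h.1), if_pos h4]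
          linarith
      · rw [if_neg h3, if_neg (fun h => h3 h.2)]
        split_ifs <;> linarith
    refine h1.trans ?_
    rw [sum_add_distrib, ← sum_filter, ← sum_filter, sum_const, nsmul_eq_mul]
    have := not_prime_sum K N a ha (by omega)
    rw [← hL2d] at this
    linarith
  have hp2 : ∑ d ∈ Ioc D y, ((((Icc 1 N).filter (fun n => (n + a).Prime ∧ d ^ 2 ∣ n + t)).card : ℝ) * L2 +
        2 * Real.sqrt ((K + 1) * N) * L2) ≤ ε / 2 * N + y * (2 * ((K + 1) * x ^ 2) * (2 * Real.log N)) := by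
    rw [sum_add_distrib, sum_const, nsmul_eq_mul, Nat.card_Ioc]
    have h1 : ∑ d ∈ Ioc D y, (((Icc 1 N).filter (fun n => (n + a).Prime ∧ d ^ 2 ∣ n + t)).card : ℝ) * L2 ≤
        ∑ d ∈ Ioc D y, 8 * C * N * gg d := by
      apply sum_le_sum
      intro d hd
      rw [mem_Ioc] at hd
      have h2 := cls_card hC0.le hC N a t d y (by omega) (by omega) hd.2 hy4
      have h3 : (0 : ℝ) ≤ (((Icc 1 N).filter (fun n => (n + a).Prime ∧ d ^ 2 ∣ n + t)).card : ℝ) := Nat.cast_nonneg _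
      calc _ ≤ (((Icc 1 N).filter (fun n => (n + a).Prime ∧ d ^ 2 ∣ n + t)).card : ℝ) * (2 * Real.log N) :=
            mul_le_mul_of_nonneg_left hL2 h3
        _ = 2 * ((((Icc 1 N).filter (fun n => (n + a).Prime ∧ d ^ 2 ∣ n + t)).card : ℝ) * Real.log N) := by ring
        _ ≤ 2 * (4 * C * gg d * N) := by linarith
        _ = 8 * C * N * gg d := by ring
    rw [← mul_sum] at h1
    have h4 := hD y
    have h5 : 8 * C * N * ∑ d ∈ Ioc D y, gg d ≤ ε / 2 * N := by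
      calc 8 * C * N * ∑ d ∈ Ioc D y, gg d ≤ 8 * C * N * (ε / (16 * C)) :=
            mul_le_mul_of_nonneg_left h4 (by positivity)
        _ = ε / 2 * N := by field_simp; ring
    have h6 : ((y - D : ℕ) : ℝ) ≤ y := by exact_mod_cast Nat.sub_le _ _
    have h7 : 2 * Real.sqrt ((K + 1) * N) * L2 ≤ 2 * ((K + 1) * x ^ 2) * (2 * Real.log N) := by
      apply mul_le_mul _ hL2 hL20 (by positivity)
      linarith
    have h8 : ((y - D : ℕ) : ℝ) * (2 * Real.sqrt ((K + 1) * N) * L2) ≤ y * (2 * ((K + 1) * x ^ 2) * (2 * Real.log N)) :=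
      mul_le_mul h6 h7 (by positivity) (by positivity)
    linarith
  -- the second part
  have hq : ∑ n ∈ Icc 1 N, (∑ d ∈ Ioc y Z, if d ^ 2 ∣ n + t then L2 else 0) ≤
      (2 * Real.log N) * (2 * x ^ 3 + (K + 1) * x ^ 2) := by
    rw [sum_comm]
    have h1 : ∀ d ∈ Ioc y Z, ∑ n ∈ Icc 1 N, (if d ^ 2 ∣ n + t then L2 else 0) ≤
        (2 * Real.log N) * (N * ((d : ℝ) ^ 2)⁻¹ + 1) := by
      intro d hd
      rw [mem_Ioc] at hd
      rw [← sum_filter, sum_const, nsmul_eq_mul, mul_comm]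
      have h2 := cls_all N t d (by omega)
      rw [div_eq_mul_inv] at h2
      exact mul_le_mul hL2 h2 (Nat.cast_nonneg _) (by positivity)
    refine (sum_le_sum h1).trans ?_
    rw [← mul_sum, sum_add_distrib, ← mul_sum, sum_const, nsmul_eq_mul, mul_one, Nat.card_Ioc]
    apply mul_le_mul_of_nonneg_left _ (by positivity)
    have h3 : ((Z - y : ℕ) : ℝ) ≤ (K + 1) * x ^ 2 := le_trans (by exact_mod_cast Nat.sub_le _ _) hZx
    have h4 : (N : ℝ) * ∑ d ∈ Ioc y Z, ((d : ℝ) ^ 2)⁻¹ ≤ 2 * x ^ 3 := by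
      rcases Nat.lt_or_ge Z y with h5 | h5
      · rw [Ioc_eq_empty (by omega), sum_empty, mul_zero]
        positivity
      · have h6 := sum_Ioc_inv_sq_le_sub (α := ℝ) (k := y) (n := Z) (by omega) h5
        have h7 : (0 : ℝ) ≤ (Z : ℝ)⁻¹ := by positivity
        have h8 : ((y : ℝ))⁻¹ ≤ 2 / x := by
          rw [inv_le_comm₀ (by linarith) (by positivity), inv_div]
          exact hy1
        calc (N : ℝ) * ∑ d ∈ Ioc y Z, ((d : ℝ) ^ 2)⁻¹ ≤ N * (2 / x) :=
              mul_le_mul_of_nonneg_left (by linarith) hN0.le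
          _ = 2 * x ^ 3 := by
              rw [← hx4]
              field_simp
    linarith
  have hfin : y * (2 * ((K + 1) * x ^ 2) * (2 * Real.log N)) + (2 * Real.log N) * (2 * x ^ 3 + (K + 1) * x ^ 2) ≤ ε / 2 * N := by
    have h1 : y * (2 * ((K + 1) * x ^ 2) * (2 * Real.log N)) ≤ x * (2 * ((K + 1) * x ^ 2) * (2 * Real.log N)) :=
      mul_le_mul_of_nonneg_right hyx (by positivity)
    have h2 : x ^ 2 ≤ x ^ 3 / 2 := by nlinarith [pow_pos hxpos 2]
    have h22 : (K + 1) * x ^ 2 ≤ (K + 1) * (x ^ 3 / 2) := mul_le_mul_of_nonneg_left h2 (by positivity)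
    have h23 : 2 * x ^ 3 ≤ (K + 1) * (2 * x ^ 3) := by nlinarith [pow_pos hxpos 3]
    have h3 : (2 * Real.log N) * (2 * x ^ 3 + (K + 1) * x ^ 2) ≤ (2 * Real.log N) * ((K + 1) * (5 / 2 * x ^ 3)) := by
      apply mul_le_mul_of_nonneg_left _ (by positivity)
      linarith
    have h4 : x * (2 * ((K + 1) * x ^ 2) * (2 * Real.log N)) + (2 * Real.log N) * ((K + 1) * (5 / 2 * x ^ 3)) =
        9 * (K + 1) * x ^ 3 * Real.log N := by ring
    have h5 : 9 * (K + 1) * x ^ 3 * Real.log N ≤ 9 * (K + 1) * x ^ 3 * (ε / (20 * (K + 1)) * x) :=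
      mul_le_mul_of_nonneg_left hLN (by positivity)
    have h6 : 9 * (K + 1) * x ^ 3 * (ε / (20 * (K + 1)) * x) = 9 / 20 * ε * N := by
      rw [← hx4]
      field_simp
    nlinarith [mul_pos hε hN0]
  linarith

/-- Replacing the Moebius function by the Liouville function along classes modulo squares. -/
theorem mu_transfer (D N : ℕ) (a t X : ℕ) (hX : X ≤ N) (b : ℕ → ℂ) (hb : ∀ n, ‖b n‖ ≤ 1) :
    ‖∑ n ∈ Icc 1 X, b n * ((vonMangoldt (n + a) : ℝ) : ℂ) * ((ArithmeticFunction.moebius (n + t) : ℤ) : ℂ)‖ ≤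
      ∑ d ∈ Icc 1 D, ∑ r ∈ range (d ^ 2), ‖∑ n ∈ Icc 1 X, (if n % d ^ 2 = r then b n else 0) *
        ((vonMangoldt (n + a) : ℝ) : ℂ) * (-1 : ℂ) ^ ArithmeticFunction.cardFactors (n + t)‖ +
      ∑ n ∈ Icc 1 N, vonMangoldt (n + a) * (tl D (n + t) : ℝ) := by
  have h1 : ∑ n ∈ Icc 1 X, b n * ((vonMangoldt (n + a) : ℝ) : ℂ) * ((ArithmeticFunction.moebius (n + t) : ℤ) : ℂ) =
      ∑ d ∈ Icc 1 D, ((ArithmeticFunction.moebius d : ℤ) : ℂ) * ∑ n ∈ Icc 1 X, (if d ^ 2 ∣ n + t then b n else 0) *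
        ((vonMangoldt (n + a) : ℝ) : ℂ) * (-1 : ℂ) ^ ArithmeticFunction.cardFactors (n + t) +
      ∑ n ∈ Icc 1 X, b n * ((vonMangoldt (n + a) : ℝ) : ℂ) * (((ArithmeticFunction.moebius (n + t) : ℤ) : ℂ) -
        (-1 : ℂ) ^ ArithmeticFunction.cardFactors (n + t) *
        ∑ d ∈ (Icc 1 D).filter (fun d => d ^ 2 ∣ n + t), ((ArithmeticFunction.moebius d : ℤ) : ℂ)) := by
    have h2 : ∑ d ∈ Icc 1 D, ((ArithmeticFunction.moebius d : ℤ) : ℂ) * ∑ n ∈ Icc 1 X, (if d ^ 2 ∣ n + t then b n else 0) *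
        ((vonMangoldt (n + a) : ℝ) : ℂ) * (-1 : ℂ) ^ ArithmeticFunction.cardFactors (n + t) =
        ∑ n ∈ Icc 1 X, b n * ((vonMangoldt (n + a) : ℝ) : ℂ) * ((-1 : ℂ) ^ ArithmeticFunction.cardFactors (n + t) *
        ∑ d ∈ (Icc 1 D).filter (fun d => d ^ 2 ∣ n + t), ((ArithmeticFunction.moebius d : ℤ) : ℂ)) := by
      simp_rw [mul_sum]
      rw [sum_comm]
      apply sum_congr rfl
      intro n _
      rw [sum_filter]
      apply sum_congr rfl
      intro d _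
      split_ifs <;> ring
    rw [h2, ← sum_add_distrib]
    apply sum_congr rfl
    intro n _
    ring
  rw [h1]
  refine (norm_add_le _ _).trans (add_le_add ?_ ?_)
  · refine (norm_sum_le _ _).trans (sum_le_sum fun d hd => ?_)
    rw [mem_Icc] at hd
    have hd2 : 0 < d ^ 2 := by
      have : 0 < d := by omega
      positivity
    rw [norm_mul]
    have hμ : ‖((ArithmeticFunction.moebius d : ℤ) : ℂ)‖ ≤ 1 := by
      rw [Complex.norm_intCast]
      exact_mod_cast ArithmeticFunction.abs_moebius_le_one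
    refine (mul_le_of_le_one_left (norm_nonneg _) hμ).trans ?_
    -- the class
    obtain ⟨r, hr⟩ : ∃ r, r = (d ^ 2 - t % d ^ 2) % d ^ 2 := ⟨_, rfl⟩
    have hr1 : r ∈ range (d ^ 2) := by rw [mem_range, hr]; exact Nat.mod_lt _ hd2
    have hr2 : ∀ n, d ^ 2 ∣ n + t ↔ n % d ^ 2 = r := by
      intro n
      have e1 : (d ^ 2 - t % d ^ 2) + t ≡ 0 [MOD d ^ 2] := by
        have h3 : t % d ^ 2 < d ^ 2 := Nat.mod_lt _ hd2
        have h4 : (d ^ 2 - t % d ^ 2) + t = d ^ 2 * (1 + t / d ^ 2) := by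
          have h5 := Nat.mod_add_div t (d ^ 2)
          have h6 : d ^ 2 * (1 + t / d ^ 2) = d ^ 2 + d ^ 2 * (t / d ^ 2) := by ring
          omega
        rw [h4]
        exact (Nat.modEq_zero_iff_dvd).2 (Dvd.intro _ rfl)
      rw [← Nat.modEq_zero_iff_dvd, hr]
      constructor
      · intro h
        exact Nat.ModEq.add_right_cancel' t (h.trans e1.symm)
      · intro h
        have h' : n ≡ (d ^ 2 - t % d ^ 2) [MOD d ^ 2] := h
        exact (h'.add_right t).trans e1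
    simp_rw [hr2]
    exact single_le_sum (f := fun r => ‖∑ n ∈ Icc 1 X, (if n % d ^ 2 = r then b n else 0) *
        ((vonMangoldt (n + a) : ℝ) : ℂ) * (-1 : ℂ) ^ ArithmeticFunction.cardFactors (n + t)‖)
        (fun _ _ => norm_nonneg _) hr1
  · refine (norm_sum_le _ _).trans ?_
    have h0 : ∀ n, 0 ≤ vonMangoldt (n + a) * (tl D (n + t) : ℝ) := fun n =>
      mul_nonneg ArithmeticFunction.vonMangoldt_nonneg (Nat.cast_nonneg _)
    refine le_trans ?_ (sum_le_sum_of_subset_of_nonneg (Icc_subset_Icc_right hX) fun n _ _ => h0 n)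
    apply sum_le_sum
    intro n hn
    rw [mem_Icc] at hn
    rw [norm_mul, norm_mul, Complex.norm_real, Real.norm_of_nonneg ArithmeticFunction.vonMangoldt_nonneg]
    have h2 := mu_cut D (n + t) (by omega)
    calc ‖b n‖ * vonMangoldt (n + a) * _ ≤ 1 * vonMangoldt (n + a) * (tl D (n + t) : ℝ) := by
          apply mul_le_mul _ h2 (norm_nonneg _) (by rw [one_mul]; exact ArithmeticFunction.vonMangoldt_nonneg)
          exact mul_le_mul_of_nonneg_right (hb n) ArithmeticFunction.vonMangoldt_nonneg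
      _ = _ := by rw [one_mul]

end Pool.Agent.H49.MT
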