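import Mathlib
import Pool.Agent.H49.D.MTc
import Pool.Agent.H49.G.R_pool_sql_team_seeded_b677cdb8.E8helper16.SL.I4

set_option autoImplicit false

/-! Windows shorter than the logarithm for the Moebius function. -/

namespace Pool.Agent.H49.MT

open Finset
open ArithmeticFunction (vonMangoldt)

/-- the Liouville version for one von Mangoldt function -/
theorem liou_window (ε : ℝ) (hε : 0 < ε) :
    ∃ η : ℝ, 0 < η ∧ ∃ N₀ : ℕ, ∀ N H : ℕ, N₀ ≤ N → Real.log N ^ (1 - η) ≤ H → H ≤ N →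
      ∀ a : ℕ, a ≤ N → ∀ B : ℕ, B ≤ N →
        ∀ b : ℕ → ℂ, (∀ n, ‖b n‖ ≤ 1) → ∀ X : ℕ → ℕ, (∀ h, X h ≤ N) →
          ∑ h ∈ Icc 1 H, ‖∑ n ∈ Icc 1 (X h), b n * ((vonMangoldt (n + a) : ℝ) : ℂ) *
              (-1 : ℂ) ^ (ArithmeticFunction.cardFactors (n + (B + h)))‖ ≤ ε * H * N := by
  obtain ⟨η, hη, N₁, h1⟩ := Pool.Agent.E8helper16.SL.finalSum 1 le_rfl 0 ε hε
  refine ⟨η, hη, N₁, fun N H hN hH1 hH2 a ha B hB b hb X hX => ?_⟩
  have h2 := h1 N hN H (by rw [Nat.cast_one]; exact hH1) hH2 (fun _ => a)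
    (Function.injective_of_subsingleton _) (fun _ => ha) (fun _ _ => le_rfl) B hB b hb X hX
  refine le_trans (le_of_eq ?_) h2
  apply sum_congr rfl
  intro h _
  unfold Pool.Agent.E8helper16.SL.SX
  congr 1
  apply sum_congr rfl
  intro n hn
  rw [mem_Icc] at hn
  rw [Pool.Agent.E8helper16.SL.lz_nat _ (by omega)]
  simp

theorem mu_window (ε : ℝ) (hε : 0 < ε) :
    ∃ η : ℝ, 0 < η ∧ ∃ N₀ : ℕ, ∀ N H : ℕ, N₀ ≤ N → Real.log N ^ (1 - η) ≤ H → H ≤ N →
      ∀ a : ℕ, a ≤ N → ∀ B : ℕ, B ≤ N →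
        ∀ b : ℕ → ℂ, (∀ n, ‖b n‖ ≤ 1) → ∀ X : ℕ → ℕ, (∀ h, X h ≤ N) →
          ∑ h ∈ Icc 1 H, ‖∑ n ∈ Icc 1 (X h), b n * ((vonMangoldt (n + a) : ℝ) : ℂ) *
              ((ArithmeticFunction.moebius (n + (B + h)) : ℤ) : ℂ)‖ ≤ ε * H * N := by
  obtain ⟨D, N₁, h1⟩ := tail_small 2 (ε / 2) (by positivity)
  obtain ⟨M, hM⟩ : ∃ M : ℕ, M = ∑ d ∈ Icc 1 D, d ^ 2 := ⟨_, rfl⟩
  obtain ⟨η, hη, N₂, h2⟩ := liou_window (ε / (2 * (M + 1))) (by positivity)
  refine ⟨η, hη, N₁ + N₂, fun N H hN hH1 hH2 a ha B hB b hb X hX => ?_⟩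
  have hHN : (0 : ℝ) ≤ (H : ℝ) * N := by positivity
  calc ∑ h ∈ Icc 1 H, ‖∑ n ∈ Icc 1 (X h), b n * ((vonMangoldt (n + a) : ℝ) : ℂ) *
              ((ArithmeticFunction.moebius (n + (B + h)) : ℤ) : ℂ)‖
      ≤ ∑ h ∈ Icc 1 H, (∑ d ∈ Icc 1 D, ∑ r ∈ range (d ^ 2), ‖∑ n ∈ Icc 1 (X h), (if n % d ^ 2 = r then b n else 0) *
        ((vonMangoldt (n + a) : ℝ) : ℂ) * (-1 : ℂ) ^ ArithmeticFunction.cardFactors (n + (B + h))‖ + ε / 2 * N) := by
        apply sum_le_sum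
        intro h hh
        rw [mem_Icc] at hh
        have h3 := mu_transfer D N a (B + h) (X h) (hX h) b hb
        have h4 := h1 N (by omega) a (by omega) (B + h) (by omega)
        linarith
    _ = ∑ d ∈ Icc 1 D, ∑ r ∈ range (d ^ 2), ∑ h ∈ Icc 1 H, ‖∑ n ∈ Icc 1 (X h), (if n % d ^ 2 = r then b n else 0) *
        ((vonMangoldt (n + a) : ℝ) : ℂ) * (-1 : ℂ) ^ ArithmeticFunction.cardFactors (n + (B + h))‖ + H * (ε / 2 * N) := by
        rw [sum_add_distrib, sum_const, nsmul_eq_mul, Nat.card_Icc, Nat.add_sub_cancel, sum_comm]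
        congr 1
        apply sum_congr rfl
        intro d _
        rw [sum_comm]
    _ ≤ ∑ d ∈ Icc 1 D, ∑ r ∈ range (d ^ 2), (ε / (2 * (M + 1)) * H * N) + H * (ε / 2 * N) := by
        apply add_le_add _ le_rfl
        apply sum_le_sum
        intro d _
        apply sum_le_sum
        intro r _
        apply h2 N H (by omega) hH1 hH2 a ha B hB _ _ X hX
        intro n
        split_ifs
        · exact hb n
        · simp
    _ = (M : ℝ) * (ε / (2 * (M + 1)) * H * N) + H * (ε / 2 * N) := by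
        simp_rw [sum_const, card_range, nsmul_eq_mul]
        rw [← sum_mul, hM]
        push_cast
        rfl
    _ ≤ ε * H * N := by
        have h5 : (M : ℝ) * (ε / (2 * (M + 1)) * H * N) ≤ ε / 2 * (H * N) := by
          have h6 : (M : ℝ) / (M + 1) ≤ 1 := by
            rw [div_le_one (by positivity)]
            linarith
          calc (M : ℝ) * (ε / (2 * (M + 1)) * H * N) = ε / 2 * (H * N) * (M / (M + 1)) := by
                field_simp
            _ ≤ ε / 2 * (H * N) * 1 := mul_le_mul_of_nonneg_left h6 (by positivity)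
            _ = _ := mul_one _
        nlinarith

end Pool.Agent.H49.MT
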