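import Mathlib
import Pool.Agent.H49.D.MTc
import Pool.Agent.H49.G.R_pool_sql_team_seeded_b677cdb8.E8helper68.PJ.Fin4

set_option autoImplicit false

/-! A power-saving set of exceptional shifts for the Moebius function. -/

namespace Pool.Agent.H49.MT

open Finset
open ArithmeticFunction (vonMangoldt)

open Classical in
/-- the Liouville version for one von Mangoldt function -/
theorem liou_power (D : ℕ) (ε ε' : ℝ) (hε : 0 < ε) (hε' : 0 < ε') :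
    ∃ δ : ℝ, 0 < δ ∧ ∀ R₀ : ℕ, ∃ R : ℕ, R₀ ≤ R ∧ ∀ N : ℕ, (R : ℝ) ^ ε' ≤ N → N ≤ R →
      ∀ a : ℕ, a ≤ D * N → ∀ b : ℕ → ℂ, (∀ n, ‖b n‖ ≤ 1) →
        (((Icc 1 (D * N)).filter (fun h => ∃ X ≤ N,
          ε * N < ‖∑ n ∈ Icc 1 X, b n * ((vonMangoldt (n + a) : ℝ) : ℂ) *
              (-1 : ℂ) ^ (ArithmeticFunction.cardFactors (n + h))‖)).card : ℝ) ≤ (N : ℝ) ^ (1 - δ) := by
  obtain ⟨δ, hδ, h⟩ := Pool.Agent.E8helper68.PJ.joint_save 2 (D + 1) (by omega) (by omega) (min ε 1)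
    (lt_min hε one_pos) (min_le_right _ _) ε' hε'
  refine ⟨δ, hδ, fun R₀ => ?_⟩
  obtain ⟨R, hR, h1⟩ := h R₀
  refine ⟨R, hR, fun N hN1 hN2 a ha b hb => ?_⟩
  have hDD : D * N ≤ (D + 1) * N := Nat.mul_le_mul_right N (by omega)
  refine le_trans ?_ (h1 N hN1 hN2 {a} (by simp) (fun a' ha' => by
    rw [mem_singleton] at ha'
    rw [ha']
    exact ha.trans hDD) b hb)
  apply Nat.cast_le.2
  apply card_le_card
  intro h hh
  rw [mem_filter, mem_Icc] at hh ⊢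
  obtain ⟨h2, X, hX, hXb⟩ := hh
  refine ⟨⟨h2.1, h2.2.trans hDD⟩, X, hX, ?_⟩
  have e1 : Pool.Agent.E8helper68.PJ.PiA (Pool.Agent.E8helper68.PJ.zs {a}) = 1 := by
    unfold Pool.Agent.E8helper68.PJ.PiA
    have : (Pool.Agent.E8helper68.PJ.zs {a}).offDiag = ∅ := by
      ext q
      rw [mem_offDiag, Pool.Agent.E8helper68.PJ.mem_zs, Pool.Agent.E8helper68.PJ.mem_zs]
      simp only [mem_singleton, exists_eq_left, notMem_empty, iff_false, not_and, not_not]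
      intro h3 h4
      rw [← h3, ← h4]
    rw [this, prod_empty]
  have e2 : Pool.Agent.E8helper68.PJ.SS {a} b X h =
      ∑ n ∈ Icc 1 X, b n * ((vonMangoldt (n + a) : ℝ) : ℂ) *
        (-1 : ℂ) ^ (ArithmeticFunction.cardFactors (n + h)) := by
    unfold Pool.Agent.E8helper68.PJ.SS
    apply sum_congr rfl
    intro n hn
    rw [mem_Icc] at hn
    unfold Pool.Agent.E8helper68.PJ.li Pool.Agent.H373R2.T7.liR
    rw [if_neg (by omega), prod_singleton]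
    simp only [Pool.Agent.E8helper68.PJ.Lz_nat]
  rw [e1, e2, mul_one]
  refine lt_of_le_of_lt ?_ hXb
  exact mul_le_mul_of_nonneg_right (min_le_left _ _) (Nat.cast_nonneg N)

open Classical in
theorem mu_power (D : ℕ) (ε ε' : ℝ) (hε : 0 < ε) (hε' : 0 < ε') :
    ∃ δ : ℝ, 0 < δ ∧ ∀ R₀ : ℕ, ∃ R : ℕ, R₀ ≤ R ∧ ∀ N : ℕ, (R : ℝ) ^ ε' ≤ N → N ≤ R →
      ∀ a : ℕ, a ≤ D * N → ∀ b : ℕ → ℂ, (∀ n, ‖b n‖ ≤ 1) →
        (((Icc 1 (D * N)).filter (fun h => ∃ X ≤ N,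
          ε * N < ‖∑ n ∈ Icc 1 X, b n * ((vonMangoldt (n + a) : ℝ) : ℂ) *
              ((ArithmeticFunction.moebius (n + h) : ℤ) : ℂ)‖)).card : ℝ) ≤ (N : ℝ) ^ (1 - δ) := by
  obtain ⟨D', N₁, h1⟩ := tail_small D (ε / 2) (by positivity)
  obtain ⟨M, hM⟩ : ∃ M : ℕ, M = ∑ d ∈ Icc 1 D', d ^ 2 := ⟨_, rfl⟩
  obtain ⟨δ, hδ, h2⟩ := liou_power D (ε / (2 * (M + 1))) ε' (by positivity) hε'
  -- δ / 2 : the union of M sets
  have hgrow : ∃ R₁ : ℕ, ∀ R : ℕ, R₁ ≤ R → ∀ N : ℕ, (R : ℝ) ^ ε' ≤ N →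
      (M : ℝ) ≤ (N : ℝ) ^ (δ / 2) ∧ N₁ ≤ N ∧ 1 ≤ N := by
    have t1 : Filter.Tendsto (fun R : ℕ => ((R : ℝ) ^ ε') ^ (δ / 2)) Filter.atTop Filter.atTop :=
      (tendsto_rpow_atTop (by positivity)).comp ((tendsto_rpow_atTop hε').comp tendsto_natCast_atTop_atTop)
    have t2 : Filter.Tendsto (fun R : ℕ => ((R : ℝ) ^ ε')) Filter.atTop Filter.atTop :=
      ((tendsto_rpow_atTop hε').comp tendsto_natCast_atTop_atTop)
    obtain ⟨R1, hR1⟩ := Filter.eventually_atTop.1 (t1.eventually_ge_atTop (M : ℝ))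
    obtain ⟨R2, hR2⟩ := Filter.eventually_atTop.1 (t2.eventually_ge_atTop ((N₁ : ℝ) + 1))
    refine ⟨R1 + R2, fun R hR N hN => ?_⟩
    have h3 := hR1 R (by omega)
    have h4 := hR2 R (by omega)
    have h5 : (N₁ : ℝ) + 1 ≤ N := h4.trans hN
    refine ⟨h3.trans ?_, ?_, ?_⟩
    · exact Real.rpow_le_rpow (by positivity) hN (by positivity)
    · have : N₁ + 1 ≤ N := by exact_mod_cast h5
      omega
    · have : N₁ + 1 ≤ N := by exact_mod_cast h5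
      omega
  obtain ⟨R₁, hR₁⟩ := hgrow
  refine ⟨δ / 2, by positivity, fun R₀ => ?_⟩
  obtain ⟨R, hR, h3⟩ := h2 (R₀ + R₁)
  refine ⟨R, by omega, fun N hN1 hN2 a ha b hb => ?_⟩
  obtain ⟨hMN, hNN, hN0⟩ := hR₁ R (by omega) N hN1
  have hNr : (0 : ℝ) < N := by exact_mod_cast hN0
  let E : ℕ → ℕ → Finset ℕ := fun d r => (Icc 1 (D * N)).filter (fun h => ∃ X ≤ N,
          ε / (2 * (M + 1)) * N < ‖∑ n ∈ Icc 1 X, (if n % d ^ 2 = r then b n else 0) * ((vonMangoldt (n + a) : ℝ) : ℂ) *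
              (-1 : ℂ) ^ (ArithmeticFunction.cardFactors (n + h))‖)
  have hsub : (Icc 1 (D * N)).filter (fun h => ∃ X ≤ N,
          ε * N < ‖∑ n ∈ Icc 1 X, b n * ((vonMangoldt (n + a) : ℝ) : ℂ) *
              ((ArithmeticFunction.moebius (n + h) : ℤ) : ℂ)‖) ⊆
      (Icc 1 D').biUnion (fun d => (range (d ^ 2)).biUnion (fun r => E d r)) := by
    intro h hh
    rw [mem_filter, mem_Icc] at hh
    obtain ⟨hh1, X, hX, hXb⟩ := hh
    by_contra hcon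
    simp only [mem_biUnion, not_exists, not_and] at hcon
    have h4 := mu_transfer D' N a h X hX b hb
    have h5 := h1 N hNN a ha h hh1.2
    have h6 : ∑ d ∈ Icc 1 D', ∑ r ∈ range (d ^ 2), ‖∑ n ∈ Icc 1 X, (if n % d ^ 2 = r then b n else 0) *
        ((vonMangoldt (n + a) : ℝ) : ℂ) * (-1 : ℂ) ^ ArithmeticFunction.cardFactors (n + h)‖ ≤
        ∑ d ∈ Icc 1 D', ∑ r ∈ range (d ^ 2), (ε / (2 * (M + 1)) * N) := by
      apply sum_le_sum
      intro d hd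
      apply sum_le_sum
      intro r hr
      have h7 := hcon d hd r hr
      by_contra h8
      push Not at h8
      exact h7 (mem_filter.2 ⟨mem_Icc.2 hh1, X, hX, h8⟩)
    have h9 : ∑ d ∈ Icc 1 D', ∑ r ∈ range (d ^ 2), (ε / (2 * (M + 1)) * N) ≤ ε / 2 * N := by
      simp_rw [sum_const, card_range, nsmul_eq_mul]
      rw [← sum_mul]
      have e : (∑ d ∈ Icc 1 D', ((d ^ 2 : ℕ) : ℝ)) = M := by rw [hM]; push_cast; rfl
      rw [e]
      have h6 : (M : ℝ) / (M + 1) ≤ 1 := by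
        rw [div_le_one (by positivity)]
        linarith
      calc (M : ℝ) * (ε / (2 * (M + 1)) * N) = ε / 2 * N * (M / (M + 1)) := by
            field_simp
        _ ≤ ε / 2 * N * 1 := mul_le_mul_of_nonneg_left h6 (by positivity)
        _ = _ := mul_one _
    linarith
  have hcard : (((Icc 1 D').biUnion (fun d => (range (d ^ 2)).biUnion (fun r => E d r))).card : ℝ) ≤
      ∑ d ∈ Icc 1 D', ∑ r ∈ range (d ^ 2), (N : ℝ) ^ (1 - δ) := by
    refine le_trans (Nat.cast_le.2 card_biUnion_le) ?_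
    rw [Nat.cast_sum]
    apply sum_le_sum
    intro d _
    refine le_trans (Nat.cast_le.2 card_biUnion_le) ?_
    rw [Nat.cast_sum]
    apply sum_le_sum
    intro r _
    apply h3 N hN1 hN2 a ha
    intro n
    split_ifs
    · exact hb n
    · simp
  refine (Nat.cast_le.2 (card_le_card hsub)).trans (hcard.trans ?_)
  simp_rw [sum_const, card_range, nsmul_eq_mul]
  rw [← sum_mul]
  have e : (∑ d ∈ Icc 1 D', ((d ^ 2 : ℕ) : ℝ)) = M := by rw [hM]; push_cast; rfl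
  rw [e]
  calc (M : ℝ) * (N : ℝ) ^ (1 - δ) ≤ (N : ℝ) ^ (δ / 2) * (N : ℝ) ^ (1 - δ) :=
        mul_le_mul_of_nonneg_right hMN (by positivity)
    _ = (N : ℝ) ^ (1 - δ / 2) := by
        rw [← Real.rpow_add hNr]
        congr 1
        ring

end Pool.Agent.H49.MT
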