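import Pool.Agent.H49.G.R_seed8.Y957.VK.Fin2

set_option autoImplicit false

/-! The Moebius function and sequences of logarithmic growth along almost all slopes. -/

namespace Pool.Agent.H49.MT

open Finset Filter Topology MeasureTheory
open Pool.Agent.Y957.VK (S_SEQ2 seq2_all neg_mu)

lemma icc_range (N : ℕ) (f : ℕ → ℂ) : ∑ n ∈ Icc 1 N, f n = ∑ n ∈ range N, f (n + 1) := by
  rw [range_eq_Ico, Finset.sum_Ico_add' f 0 N 1]
  rfl

/-- partial summation with a monotone weight -/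
lemma abel_mono (b : ℕ → ℂ) (w : ℕ → ℝ) (hw : Monotone w) (hw0 : ∀ n, 0 ≤ w n) (N : ℕ) (B : ℝ)
    (hB : ∀ M ≤ N, ‖∑ n ∈ Icc 1 M, b n‖ ≤ B) :
    ‖∑ n ∈ Icc 1 N, (w n : ℂ) * b n‖ ≤ 2 * w N * B := by
  have hB0 : 0 ≤ B := (norm_nonneg _).trans (hB 0 (Nat.zero_le _))
  have key : ∀ M ≤ N, ∑ n ∈ Icc 1 M, (w n : ℂ) * b n =
      (w M : ℂ) * ∑ n ∈ Icc 1 M, b n - ∑ m ∈ range M, ((w (m + 1) - w m : ℝ) : ℂ) * ∑ n ∈ Icc 1 m, b n := by
    intro M
    induction M with
    | zero => intro _; simp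
    | succ M ih =>
      intro hM
      rw [sum_Icc_succ_top (by omega), sum_Icc_succ_top (by omega), sum_range_succ, ih (by omega)]
      push_cast
      ring
  rw [key N le_rfl]
  have h1 : ‖(w N : ℂ) * ∑ n ∈ Icc 1 N, b n‖ ≤ w N * B := by
    rw [norm_mul, Complex.norm_real, Real.norm_of_nonneg (hw0 N)]
    exact mul_le_mul_of_nonneg_left (hB N le_rfl) (hw0 N)
  have h2 : ‖∑ m ∈ range N, ((w (m + 1) - w m : ℝ) : ℂ) * ∑ n ∈ Icc 1 m, b n‖ ≤ w N * B := by
    refine (norm_sum_le _ _).trans ?_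
    calc ∑ m ∈ range N, ‖((w (m + 1) - w m : ℝ) : ℂ) * ∑ n ∈ Icc 1 m, b n‖
        ≤ ∑ m ∈ range N, (w (m + 1) - w m) * B := by
          apply sum_le_sum
          intro m hm
          rw [mem_range] at hm
          have h3 : 0 ≤ w (m + 1) - w m := sub_nonneg.2 (hw (Nat.le_succ m))
          rw [norm_mul, Complex.norm_real, Real.norm_of_nonneg h3]
          exact mul_le_mul_of_nonneg_left (hB m hm.le) h3
      _ = (w N - w 0) * B := by rw [← sum_mul, sum_range_sub]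
      _ ≤ w N * B := mul_le_mul_of_nonneg_right (by linarith [hw0 0]) hB0
  calc _ ≤ ‖(w N : ℂ) * ∑ n ∈ Icc 1 N, b n‖ + ‖∑ m ∈ range N, ((w (m + 1) - w m : ℝ) : ℂ) * ∑ n ∈ Icc 1 m, b n‖ :=
        norm_sub_le _ _
    _ ≤ 2 * w N * B := by linarith

/-- multiplication by a monotone weight of at most logarithmic growth -/
theorem weight_log (b : ℕ → ℂ) (hb : ∀ n, ‖b n‖ ≤ 1)
    (h : ∀ K : ℕ, Tendsto (fun N : ℕ => (Real.log N) ^ K / N * ‖∑ n ∈ Icc 1 N, b n‖) atTop (𝓝 0))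
    (w : ℕ → ℝ) (hw : Monotone w) (hw0 : ∀ n, 0 ≤ w n) (C : ℝ) (T : ℕ)
    (hC : ∀ N : ℕ, 2 ≤ N → w N ≤ C * Real.log N ^ T) (K : ℕ) :
    Tendsto (fun N : ℕ => (Real.log N) ^ K / N * ‖∑ n ∈ Icc 1 N, (w n : ℂ) * b n‖) atTop (𝓝 0) := by
  obtain ⟨K', hK'⟩ : ∃ K', K' = K + T + 1 := ⟨_, rfl⟩
  have hC0 : 0 ≤ C := by
    by_contra hcon
    push Not at hcon
    have h1 := hC 2 le_rfl
    have h2 : 0 < Real.log (2 : ℕ) ^ T := pow_pos (Real.log_pos (by norm_num)) T
    have h3 := hw0 2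
    nlinarith
  -- the bound for all `M`
  obtain ⟨N0, hN0⟩ := eventually_atTop.1 ((h K').eventually (gt_mem_nhds zero_lt_one))
  have hloglim : Tendsto (fun N : ℕ => Real.log (N : ℝ)) atTop atTop :=
    Real.tendsto_log_atTop.comp tendsto_natCast_atTop_atTop
  -- the majorant
  have hmaj : ∀ᶠ N : ℕ in atTop, (Real.log N) ^ K / N * ‖∑ n ∈ Icc 1 N, (w n : ℂ) * b n‖ ≤
      2 * C * 2 ^ K' / Real.log N + 2 * C * (Real.log N ^ (K + T) / Real.sqrt N) + 2 * C * N0 * (Real.log N ^ (K + T) / N) := by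
    filter_upwards [eventually_ge_atTop 2, hloglim.eventually_ge_atTop 1] with N hN hL
    have hNr : (2 : ℝ) ≤ N := by exact_mod_cast hN
    have hNp : (0 : ℝ) < N := by linarith
    have hL0 : 0 < Real.log N := by linarith
    have hsq : 0 < Real.sqrt N := Real.sqrt_pos.2 hNp
    have hB : ∀ M ≤ N, ‖∑ n ∈ Icc 1 M, b n‖ ≤ 2 ^ K' * N / Real.log N ^ K' + Real.sqrt N + N0 := by
      intro M hM
      have htriv : ‖∑ n ∈ Icc 1 M, b n‖ ≤ M := by
        refine (norm_sum_le _ _).trans ?_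
        calc ∑ n ∈ Icc 1 M, ‖b n‖ ≤ ∑ _n ∈ Icc 1 M, (1 : ℝ) := sum_le_sum fun n _ => hb n
          _ = M := by simp
      have hp1 : 0 ≤ 2 ^ K' * (N : ℝ) / Real.log N ^ K' := by positivity
      have hN00 : (0 : ℝ) ≤ N0 := Nat.cast_nonneg _
      rcases Nat.lt_or_ge M N0 with h1 | h1
      · have : (M : ℝ) ≤ N0 := by exact_mod_cast h1.le
        linarith
      rcases le_or_gt ((M : ℝ)) (Real.sqrt N) with h2 | h2
      · linarith
      · have h3 := hN0 M h1
        have hMN : (M : ℝ) ≤ N := by exact_mod_cast hM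
        have hM0 : (0 : ℝ) < M := lt_trans hsq h2
        have h4 : Real.log N ≤ 2 * Real.log M := by
          have h5 : Real.log (Real.sqrt N) ≤ Real.log M := Real.log_le_log hsq h2.le
          rw [Real.log_sqrt hNp.le] at h5
          linarith
        have hLM : 0 < Real.log M := by linarith
        have h6 : ‖∑ n ∈ Icc 1 M, b n‖ ≤ M / Real.log M ^ K' := by
          rw [le_div_iff₀ (by positivity)]
          rw [div_mul_eq_mul_div, div_lt_one hM0] at h3
          linarith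
        have h7 : (M : ℝ) / Real.log M ^ K' ≤ 2 ^ K' * N / Real.log N ^ K' := by
          rw [div_le_div_iff₀ (by positivity) (by positivity)]
          calc (M : ℝ) * Real.log N ^ K' ≤ N * (2 * Real.log M) ^ K' := by gcongr
            _ = 2 ^ K' * N * Real.log M ^ K' := by rw [mul_pow]; ring
        linarith
    have h8 := abel_mono b w hw hw0 N _ hB
    have h9 := hC N hN
    have hBB : 0 ≤ 2 ^ K' * (N : ℝ) / Real.log N ^ K' + Real.sqrt N + N0 := by positivity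
    have h10 : ‖∑ n ∈ Icc 1 N, (w n : ℂ) * b n‖ ≤ 2 * (C * Real.log N ^ T) * (2 ^ K' * N / Real.log N ^ K' + Real.sqrt N + N0) :=
      h8.trans (mul_le_mul_of_nonneg_right (by linarith) hBB)
    calc (Real.log N) ^ K / N * ‖∑ n ∈ Icc 1 N, (w n : ℂ) * b n‖
        ≤ (Real.log N) ^ K / N * (2 * (C * Real.log N ^ T) * (2 ^ K' * N / Real.log N ^ K' + Real.sqrt N + N0)) :=
          mul_le_mul_of_nonneg_left h10 (by positivity)
      _ = 2 * C * 2 ^ K' / Real.log N + 2 * C * (Real.log N ^ (K + T) / Real.sqrt N) + 2 * C * N0 * (Real.log N ^ (K + T) / N) := by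
          have e1 : Real.log N ^ K' = Real.log N ^ K * Real.log N ^ T * Real.log N := by rw [hK']; ring
          have e2 : (N : ℝ) = Real.sqrt N * Real.sqrt N := (Real.mul_self_sqrt hNp.le).symm
          rw [e1, pow_add]
          have e3 : Real.log N ^ K / N * (2 * (C * Real.log N ^ T) * Real.sqrt N) =
              2 * C * (Real.log N ^ K * Real.log N ^ T / Real.sqrt N) := by
            have e6 : Real.sqrt N / N = 1 / Real.sqrt N := by
              rw [div_eq_div_iff hNp.ne' hsq.ne', one_mul]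
              exact e2.symm
            calc Real.log N ^ K / N * (2 * (C * Real.log N ^ T) * Real.sqrt N) =
                2 * C * (Real.log N ^ K * Real.log N ^ T) * (Real.sqrt N / N) := by ring
              _ = _ := by rw [e6]; ring
          have e4 : Real.log N ^ K / N * (2 * (C * Real.log N ^ T) * (2 ^ K' * N / (Real.log N ^ K * Real.log N ^ T * Real.log N))) =
              2 * C * 2 ^ K' / Real.log N := by
            field_simp
          have e5 : Real.log N ^ K / N * (2 * (C * Real.log N ^ T) * N0) = 2 * C * N0 * (Real.log N ^ K * Real.log N ^ T / N) := by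
            ring
          rw [← e3, ← e4, ← e5]
          ring
  -- the majorant tends to zero
  have ht1 : Tendsto (fun N : ℕ => 2 * C * 2 ^ K' / Real.log (N : ℝ)) atTop (𝓝 0) :=
    tendsto_const_nhds.div_atTop hloglim
  have hlo : ∀ s : ℝ, 0 < s → Tendsto (fun N : ℕ => Real.log (N : ℝ) ^ (K + T) / (N : ℝ) ^ s) atTop (𝓝 0) := by
    intro s hs
    have h1 := (isLittleO_log_rpow_rpow_atTop (s := s) ((K + T : ℕ) : ℝ) hs).tendsto_div_nhds_zero
    have h2 := h1.comp tendsto_natCast_atTop_atTop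
    refine h2.congr fun N => ?_
    simp only [Function.comp]
    rw [Real.rpow_natCast]
  have ht2 : Tendsto (fun N : ℕ => 2 * C * (Real.log (N : ℝ) ^ (K + T) / Real.sqrt N)) atTop (𝓝 0) := by
    have h1 := (hlo (1 / 2) (by norm_num)).const_mul (2 * C)
    rw [mul_zero] at h1
    refine h1.congr fun N => ?_
    rw [Real.sqrt_eq_rpow]
  have ht3 : Tendsto (fun N : ℕ => 2 * C * N0 * (Real.log (N : ℝ) ^ (K + T) / N)) atTop (𝓝 0) := by
    have h1 := (hlo 1 one_pos).const_mul (2 * C * N0)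
    rw [mul_zero] at h1
    refine h1.congr fun N => ?_
    rw [Real.rpow_one]
  have ht := (ht1.add ht2).add ht3
  rw [add_zero, add_zero] at ht
  refine squeeze_zero' (Eventually.of_forall fun N => ?_) hmaj ht
  have : 0 ≤ Real.log (N : ℝ) := Real.log_natCast_nonneg N
  positivity

/-- **Sequences of logarithmic growth along almost all slopes.** -/
theorem mu_slopes (k T : ℕ) (a : Fin k → ℕ → ℂ) (M : ℝ) (ha : ∀ i n, ‖a i n‖ ≤ M * Real.log (n + 3) ^ T)
    (c : Fin k → ℝ) (hc : ∀ i, 0 < c i) :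
    ∀ᵐ α ∂((volume : Measure (Fin k → ℝ)).restrict {α | ∀ i, 0 < α i}), ∀ K : ℕ,
      Tendsto (fun N : ℕ => (Real.log N) ^ K / N *
        ‖∑ n ∈ Icc 1 N, ((ArithmeticFunction.moebius n : ℤ) : ℂ) * ∏ i, a i ⌊α i * (n : ℝ) ^ (c i)⌋₊‖) atTop (𝓝 0) := by
  have hlog3 : ∀ m : ℕ, 1 < Real.log ((m : ℝ) + 3) := by
    intro m
    rw [Real.lt_log_iff_exp_lt (by positivity)]
    have h1 : Real.exp 1 < 3 := lt_trans Real.exp_one_lt_d9 (by norm_num)
    have h2 : (0 : ℝ) ≤ m := Nat.cast_nonneg m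
    linarith
  obtain ⟨b, hb⟩ : ∃ b : Fin k → ℕ → ℂ, b = fun i m => a i m / ((Real.log (m + 3) ^ T : ℝ) : ℂ) := ⟨_, rfl⟩
  obtain ⟨M', hM'⟩ : ∃ M' : ℝ, M' = max M 1 := ⟨_, rfl⟩
  have hM'1 : 1 ≤ M' := by rw [hM']; exact le_max_right _ _
  have hbM : ∀ i m, ‖b i m‖ ≤ M' := by
    intro i m
    rw [hb]
    simp only
    have h1 : 0 < Real.log ((m : ℝ) + 3) ^ T := pow_pos (by linarith [hlog3 m]) T
    rw [norm_div, Complex.norm_real, Real.norm_of_nonneg h1.le, div_le_iff₀ h1]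
    refine (ha i m).trans (mul_le_mul_of_nonneg_right ?_ h1.le)
    rw [hM']
    exact le_max_left _ _
  -- normalised sequences
  obtain ⟨b', hb'⟩ : ∃ b' : Fin k → ℕ → ℂ, b' = fun i m => b i m / (M' : ℂ) := ⟨_, rfl⟩
  have hb1 : ∀ i m, ‖b' i m‖ ≤ 1 := by
    intro i m
    rw [hb']
    simp only
    rw [norm_div, Complex.norm_real, Real.norm_of_nonneg (by linarith), div_le_one (by linarith)]
    exact hbM i m
  have hmain := seq2_all (fun n => ((ArithmeticFunction.moebius n : ℤ) : ℂ)) (fun n => by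
    rw [Complex.norm_intCast]
    exact_mod_cast ArithmeticFunction.abs_moebius_le_one) neg_mu k b' 1 hb1 c hc
  have hpos : MeasurableSet {α : Fin k → ℝ | ∀ i, 0 < α i} := by
    have : {α : Fin k → ℝ | ∀ i, 0 < α i} = ⋂ i, {α : Fin k → ℝ | 0 < α i} := by
      ext α
      simp
    rw [this]
    exact MeasurableSet.iInter fun i => measurableSet_lt measurable_const (measurable_pi_apply i)
  rw [ae_restrict_iff' hpos] at hmain ⊢
  filter_upwards [hmain] with α hα hαpos K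
  have h1 := hα hαpos
  have hαp : ∀ i, 0 < α i := hαpos
  obtain ⟨w, hw⟩ : ∃ w : ℕ → ℝ, w = fun n : ℕ => ∏ i, (M' * Real.log ((⌊α i * (n : ℝ) ^ (c i)⌋₊ : ℝ) + 3) ^ T) := ⟨_, rfl⟩
  have hwpos : ∀ (n : ℕ) (i : Fin k), 0 ≤ M' * Real.log ((⌊α i * (n : ℝ) ^ (c i)⌋₊ : ℝ) + 3) ^ T := by
    intro n i
    have := hlog3 ⌊α i * (n : ℝ) ^ (c i)⌋₊
    positivity
  have hwmono : Monotone w := by
    intro m n hmn
    rw [hw]
    simp only
    apply Finset.prod_le_prod
    · intro i _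
      exact hwpos m i
    · intro i _
      have h2 : ⌊α i * (m : ℝ) ^ (c i)⌋₊ ≤ ⌊α i * (n : ℝ) ^ (c i)⌋₊ := by
        apply Nat.floor_le_floor
        apply mul_le_mul_of_nonneg_left _ (hαp i).le
        exact Real.rpow_le_rpow (Nat.cast_nonneg m) (by exact_mod_cast hmn) (hc i).le
      have h3 : (⌊α i * (m : ℝ) ^ (c i)⌋₊ : ℝ) + 3 ≤ (⌊α i * (n : ℝ) ^ (c i)⌋₊ : ℝ) + 3 := by
        have : (⌊α i * (m : ℝ) ^ (c i)⌋₊ : ℝ) ≤ (⌊α i * (n : ℝ) ^ (c i)⌋₊ : ℝ) := by exact_mod_cast h2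
        linarith
      have h4 := hlog3 ⌊α i * (m : ℝ) ^ (c i)⌋₊
      apply mul_le_mul_of_nonneg_left _ (by linarith)
      apply pow_le_pow_left₀ (by linarith)
      exact Real.log_le_log (by positivity) h3
  have hw0 : ∀ n, 0 ≤ w n := by
    intro n
    rw [hw]
    exact prod_nonneg fun i _ => hwpos n i
  -- growth
  have hgrow : ∀ i, ∃ C : ℝ, 0 ≤ C ∧ ∀ N : ℕ, 2 ≤ N →
      M' * Real.log ((⌊α i * (N : ℝ) ^ (c i)⌋₊ : ℝ) + 3) ^ T ≤ C * Real.log N ^ T := by
    intro i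
    obtain ⟨C₁, hC₁⟩ : ∃ C₁ : ℝ, C₁ = Real.log (α i + 3) / Real.log 2 + c i := ⟨_, rfl⟩
    have hl2 : 0 < Real.log 2 := Real.log_pos (by norm_num)
    have hla : 0 ≤ Real.log (α i + 3) := Real.log_nonneg (by linarith [hαp i])
    have hC₁0 : 0 ≤ C₁ := by rw [hC₁]; have := (hc i).le; positivity
    refine ⟨M' * C₁ ^ T, by positivity, fun N hN => ?_⟩
    have hNr : (2 : ℝ) ≤ N := by exact_mod_cast hN
    have hNp : (0 : ℝ) < N := by linarith
    have hlN : Real.log 2 ≤ Real.log N := Real.log_le_log (by norm_num) hNr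
    have hNc : 1 ≤ (N : ℝ) ^ (c i) := Real.one_le_rpow (by linarith) (hc i).le
    have h2 : (⌊α i * (N : ℝ) ^ (c i)⌋₊ : ℝ) + 3 ≤ (α i + 3) * (N : ℝ) ^ (c i) := by
      have h3 : (⌊α i * (N : ℝ) ^ (c i)⌋₊ : ℝ) ≤ α i * (N : ℝ) ^ (c i) :=
        Nat.floor_le (mul_nonneg (hαp i).le (by positivity))
      nlinarith
    have h4 : Real.log ((⌊α i * (N : ℝ) ^ (c i)⌋₊ : ℝ) + 3) ≤ C₁ * Real.log N := by
      calc Real.log ((⌊α i * (N : ℝ) ^ (c i)⌋₊ : ℝ) + 3) ≤ Real.log ((α i + 3) * (N : ℝ) ^ (c i)) :=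
            Real.log_le_log (by positivity) h2
        _ = Real.log (α i + 3) + c i * Real.log N := by
            rw [Real.log_mul (by linarith [hαp i]) (by positivity), Real.log_rpow hNp]
        _ ≤ Real.log (α i + 3) / Real.log 2 * Real.log N + c i * Real.log N := by
            have : Real.log (α i + 3) / Real.log 2 * Real.log 2 ≤ Real.log (α i + 3) / Real.log 2 * Real.log N :=
              mul_le_mul_of_nonneg_left hlN (by positivity)
            rw [div_mul_cancel₀ _ hl2.ne'] at this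
            linarith
        _ = C₁ * Real.log N := by rw [hC₁]; ring
    have h5 := hlog3 ⌊α i * (N : ℝ) ^ (c i)⌋₊
    calc M' * Real.log ((⌊α i * (N : ℝ) ^ (c i)⌋₊ : ℝ) + 3) ^ T ≤ M' * (C₁ * Real.log N) ^ T := by
          apply mul_le_mul_of_nonneg_left _ (by linarith)
          exact pow_le_pow_left₀ (by linarith) h4 T
      _ = M' * C₁ ^ T * Real.log N ^ T := by rw [mul_pow]; ring
  choose C hC0 hC using hgrow
  have hwle : ∀ N : ℕ, 2 ≤ N → w N ≤ (∏ i, C i) * Real.log N ^ (k * T) := by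
    intro N hN
    rw [hw]
    simp only
    calc ∏ i, (M' * Real.log ((⌊α i * (N : ℝ) ^ (c i)⌋₊ : ℝ) + 3) ^ T) ≤ ∏ i, (C i * Real.log N ^ T) :=
          Finset.prod_le_prod (fun i _ => hwpos N i) fun i _ => hC i N hN
      _ = (∏ i, C i) * Real.log N ^ (k * T) := by
          rw [prod_mul_distrib, prod_const, card_univ, Fintype.card_fin, ← pow_mul, mul_comm T k]
  have hfin := weight_log (fun n => ((ArithmeticFunction.moebius n : ℤ) : ℂ) * ∏ i, b' i ⌊α i * (n : ℝ) ^ (c i)⌋₊)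
    (fun n => by
      rw [norm_mul, norm_prod]
      apply mul_le_one₀
      · rw [Complex.norm_intCast]
        exact_mod_cast ArithmeticFunction.abs_moebius_le_one
      · exact prod_nonneg fun i _ => norm_nonneg _
      · exact prod_le_one (fun i _ => norm_nonneg _) fun i _ => hb1 i _) h1 w hwmono hw0 _ (k * T) hwle K
  refine hfin.congr fun N => ?_
  congr 2
  apply sum_congr rfl
  intro n _
  have e : (w n : ℂ) * ∏ i, b' i ⌊α i * (n : ℝ) ^ (c i)⌋₊ = ∏ i, a i ⌊α i * (n : ℝ) ^ (c i)⌋₊ := by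
    rw [hw, Complex.ofReal_prod, ← prod_mul_distrib]
    apply prod_congr rfl
    intro i _
    rw [hb', hb]
    simp only
    have h2 : (M' : ℂ) ≠ 0 := by exact_mod_cast (by linarith : M' ≠ 0)
    have h3 : ((Real.log ((⌊α i * (n : ℝ) ^ (c i)⌋₊ : ℝ) + 3) ^ T : ℝ) : ℂ) ≠ 0 := by
      have h5 := hlog3 ⌊α i * (n : ℝ) ^ (c i)⌋₊
      have h6 : 0 < Real.log ((⌊α i * (n : ℝ) ^ (c i)⌋₊ : ℝ) + 3) ^ T := pow_pos (by linarith) T
      exact Complex.ofReal_ne_zero.2 h6.ne'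
    rw [Complex.ofReal_mul]
    field_simp
  rw [← e]
  ring

end Pool.Agent.H49.MT
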