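import Pool.Agent.H49.D.MTg

set_option autoImplicit false

/-! The Moebius function against the von Mangoldt function along almost all slopes. -/

namespace Pool.Agent.H49.MT

open Finset Filter Topology MeasureTheory

/-- one slope -/
theorem mu_slope_one (T : ℕ) (a : ℕ → ℂ) (M : ℝ) (ha : ∀ n, ‖a n‖ ≤ M * Real.log (n + 3) ^ T)
    (c : ℝ) (hc : 0 < c) :
    ∀ᵐ α : ℝ, 0 < α → ∀ K : ℕ,
      Tendsto (fun N : ℕ => (Real.log N) ^ K / N *
        ‖∑ n ∈ Icc 1 N, ((ArithmeticFunction.moebius n : ℤ) : ℂ) * a ⌊α * (n : ℝ) ^ c⌋₊‖) atTop (𝓝 0) := by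
  have h := mu_slopes 1 T (fun _ => a) M (fun _ n => ha n) (fun _ => c) (fun _ => hc)
  have hpos : MeasurableSet {α : Fin 1 → ℝ | ∀ i, 0 < α i} := by
    have : {α : Fin 1 → ℝ | ∀ i, 0 < α i} = ⋂ i, {α : Fin 1 → ℝ | 0 < α i} := by
      ext α
      simp
    rw [this]
    exact MeasurableSet.iInter fun i => measurableSet_lt measurable_const (measurable_pi_apply i)
  rw [ae_restrict_iff' hpos] at h
  have hmp := (volume_preserving_funUnique (Fin 1) ℝ).symm
  have h2 := hmp.quasiMeasurePreserving.ae h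
  filter_upwards [h2] with α hα hα0 K
  have h3 := hα (fun i => by
    have : ((MeasurableEquiv.funUnique (Fin 1) ℝ).symm α) i = α := rfl
    rw [this]
    exact hα0) K
  refine h3.congr fun N => ?_
  congr 2
  apply sum_congr rfl
  intro n _
  rw [Fin.prod_univ_one]
  rfl

/-- `Λ(m + h)` for an integer `h` -/
lemma lam_shift_le (h : ℤ) (m : ℕ) :
    ‖((ArithmeticFunction.vonMangoldt ((m : ℤ) + h).toNat : ℝ) : ℂ)‖ ≤
      (1 + Real.log (h.natAbs + 1)) * Real.log (m + 3) ^ 1 := by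
  rw [Complex.norm_real, Real.norm_of_nonneg ArithmeticFunction.vonMangoldt_nonneg, pow_one]
  have hl3 : 1 ≤ Real.log ((m : ℝ) + 3) := by
    rw [Real.le_log_iff_exp_le (by positivity)]
    have h1 : Real.exp 1 < 3 := lt_trans Real.exp_one_lt_d9 (by norm_num)
    have h2 : (0 : ℝ) ≤ m := Nat.cast_nonneg m
    linarith
  have hh : 0 ≤ Real.log ((h.natAbs : ℝ) + 1) := Real.log_nonneg (by
    have : (0 : ℝ) ≤ h.natAbs := Nat.cast_nonneg _
    linarith)
  rcases Nat.eq_zero_or_pos (((m : ℤ) + h).toNat) with h0 | h0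
  · rw [h0]
    simp only [ArithmeticFunction.map_zero]
    positivity
  · refine ArithmeticFunction.vonMangoldt_le_log.trans ?_
    have h1 : (((m : ℤ) + h).toNat : ℝ) ≤ ((m : ℝ) + 3) * ((h.natAbs : ℝ) + 1) := by
      have h2 : ((m : ℤ) + h).toNat ≤ (m + 3) * (h.natAbs + 1) := by
        have h3 : ((m : ℤ) + h).toNat ≤ m + h.natAbs := by omega
        nlinarith [Nat.zero_le (m * h.natAbs)]
      exact_mod_cast h2
    calc Real.log (((m : ℤ) + h).toNat : ℝ) ≤ Real.log (((m : ℝ) + 3) * ((h.natAbs : ℝ) + 1)) :=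
          Real.log_le_log (by exact_mod_cast h0) h1
      _ = Real.log ((m : ℝ) + 3) + Real.log ((h.natAbs : ℝ) + 1) := by
          rw [Real.log_mul (by positivity) (by positivity)]
      _ ≤ (1 + Real.log (h.natAbs + 1)) * Real.log (m + 3) := by nlinarith

theorem mu_lambda_slopes (c : ℝ) (hc : 0 < c) : ∀ᵐ α : ℝ, 0 < α → ∀ (h : ℤ) (K : ℕ),
    Tendsto (fun N : ℕ => (Real.log N) ^ K / N *
      |∑ n ∈ Icc 1 N, ((ArithmeticFunction.moebius n : ℤ) : ℝ) *
        ArithmeticFunction.vonMangoldt ((⌊α * (n : ℝ) ^ c⌋₊ : ℤ) + h).toNat|) atTop (𝓝 0) := by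
  have h1 : ∀ᵐ α : ℝ, ∀ h : ℤ, 0 < α → ∀ K : ℕ,
      Tendsto (fun N : ℕ => (Real.log N) ^ K / N *
        ‖∑ n ∈ Icc 1 N, ((ArithmeticFunction.moebius n : ℤ) : ℂ) *
          ((ArithmeticFunction.vonMangoldt ((⌊α * (n : ℝ) ^ c⌋₊ : ℤ) + h).toNat : ℝ) : ℂ)‖) atTop (𝓝 0) := by
    rw [ae_all_iff]
    intro h
    exact mu_slope_one 1 (fun m => ((ArithmeticFunction.vonMangoldt ((m : ℤ) + h).toNat : ℝ) : ℂ)) _
      (fun m => lam_shift_le h m) c hc
  filter_upwards [h1] with α hα hα0 h K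
  refine (hα h hα0 K).congr fun N => ?_
  congr 1
  rw [← Real.norm_eq_abs, ← Complex.norm_real]
  congr 1
  push_cast
  rfl

end Pool.Agent.H49.MT
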