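import Pool.Agent.H49.D.TA

set_option autoImplicit false

/-! Patterns in random sets: bits. -/

namespace Pool.Agent.H49.PT

open Finset MeasureTheory Filter Topology
open scoped ENNReal
open Pool.Agent.H49.TW (int_prod)

/-- bounded measurable functions -/
def Nice {α : Type*} [MeasurableSpace α] (f : α → ℝ) : Prop := Measurable f ∧ ∃ C : ℝ, ∀ x, |f x| ≤ C

section Nice

variable {α β : Type*} [MeasurableSpace α] [MeasurableSpace β]

theorem Nice.const (c : ℝ) : Nice (fun _ : α => c) := ⟨measurable_const, |c|, fun _ => le_rfl⟩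

theorem Nice.add {f g : α → ℝ} (hf : Nice f) (hg : Nice g) : Nice (fun x => f x + g x) := by
  obtain ⟨h1, C, hC⟩ := hf
  obtain ⟨h2, D, hD⟩ := hg
  exact ⟨h1.add h2, C + D, fun x => (abs_add_le _ _).trans (add_le_add (hC x) (hD x))⟩

theorem Nice.mul {f g : α → ℝ} (hf : Nice f) (hg : Nice g) : Nice (fun x => f x * g x) := by
  obtain ⟨h1, C, hC⟩ := hf
  obtain ⟨h2, D, hD⟩ := hg
  refine ⟨h1.mul h2, C * D, fun x => ?_⟩
  rw [abs_mul]
  exact mul_le_mul (hC x) (hD x) (abs_nonneg _) ((abs_nonneg _).trans (hC x))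

theorem Nice.sub {f g : α → ℝ} (hf : Nice f) (hg : Nice g) : Nice (fun x => f x - g x) := by
  have h := hf.add ((Nice.const (-1)).mul hg)
  have e : (fun x => f x + -1 * g x) = fun x => f x - g x := by
    funext x
    ring
  rwa [e] at h

theorem Nice.prod {ι : Type*} (s : Finset ι) {f : ι → α → ℝ} (hf : ∀ i ∈ s, Nice (f i)) :
    Nice (fun x => ∏ i ∈ s, f i x) := by
  classical
  induction s using Finset.induction_on with
  | empty =>
    simp only [prod_empty]
    exact Nice.const 1
  | insert a s ha ih =>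
    have h1 := (hf a (mem_insert_self a s)).mul (ih fun i hi => hf i (mem_insert_of_mem hi))
    have e : (fun x => ∏ i ∈ insert a s, f i x) = fun x => f a x * ∏ i ∈ s, f i x := by
      funext x
      rw [prod_insert ha]
    rw [e]
    exact h1

theorem Nice.sum {ι : Type*} (s : Finset ι) {f : ι → α → ℝ} (hf : ∀ i ∈ s, Nice (f i)) :
    Nice (fun x => ∑ i ∈ s, f i x) := by
  classical
  induction s using Finset.induction_on with
  | empty =>
    simp only [sum_empty]
    exact Nice.const 0
  | insert a s ha ih =>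
    have h1 := (hf a (mem_insert_self a s)).add (ih fun i hi => hf i (mem_insert_of_mem hi))
    have e : (fun x => ∑ i ∈ insert a s, f i x) = fun x => f a x + ∑ i ∈ s, f i x := by
      funext x
      rw [sum_insert ha]
    rw [e]
    exact h1

theorem Nice.comp {f : β → ℝ} (hf : Nice f) {g : α → β} (hg : Measurable g) : Nice (fun x => f (g x)) := by
  obtain ⟨h1, C, hC⟩ := hf
  exact ⟨h1.comp hg, C, fun x => hC _⟩

theorem Nice.int {f : α → ℝ} (hf : Nice f) (μ : Measure α) [IsFiniteMeasure μ] : Integrable f μ := by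
  obtain ⟨h1, C, hC⟩ := hf
  exact Integrable.of_bound h1.aestronglyMeasurable C (ae_of_all _ fun x => by rw [Real.norm_eq_abs]; exact hC x)

theorem Nice.bool (f : Bool → ℝ) : Nice f := by
  refine ⟨measurable_of_countable f, max |f true| |f false|, fun b => ?_⟩
  cases b
  · exact le_max_right _ _
  · exact le_max_left _ _

theorem Nice.bit {ι : Type*} (f : Bool → ℝ) (l : ι) : Nice (fun y : ι → Bool => f (y l)) :=
  (Nice.bool f).comp (measurable_pi_apply l)

end Nice

/-- a bit which is `true` with probability `1 / (M + 1)` -/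
noncomputable def bern (M : ℕ) : Measure Bool :=
  ENNReal.ofReal (1 / ((M : ℝ) + 1)) • Measure.dirac true + ENNReal.ofReal ((M : ℝ) / ((M : ℝ) + 1)) • Measure.dirac false

instance (M : ℕ) : IsProbabilityMeasure (bern M) := by
  constructor
  unfold bern
  simp only [Measure.coe_add, Measure.coe_smul, Pi.add_apply, Pi.smul_apply, measure_univ, smul_eq_mul, mul_one]
  rw [← ENNReal.ofReal_add (by positivity) (by positivity)]
  have e : 1 / ((M : ℝ) + 1) + (M : ℝ) / ((M : ℝ) + 1) = 1 := by
    field_simp
    ring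
  rw [e]
  simp

theorem bern_true (M : ℕ) : bern M {true} = ENNReal.ofReal (1 / ((M : ℝ) + 1)) := by
  unfold bern
  simp

theorem int_bern (M : ℕ) (f : Bool → ℝ) :
    ∫ b, f b ∂(bern M) = 1 / ((M : ℝ) + 1) * f true + (M : ℝ) / ((M : ℝ) + 1) * f false := by
  unfold bern
  rw [integral_add_measure, integral_smul_measure, integral_smul_measure, integral_dirac, integral_dirac,
    ENNReal.toReal_ofReal (by positivity), ENNReal.toReal_ofReal (by positivity)]
  · simp
  · exact (integrable_dirac (by simp)).smul_measure ENNReal.ofReal_ne_top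
  · exact (integrable_dirac (by simp)).smul_measure ENNReal.ofReal_ne_top

/-- the density of a bit -/
noncomputable def uu (M : ℕ) (b : Bool) : ℝ := if b then (M : ℝ) + 1 else 0

/-- the centred bit -/
noncomputable def bb (M : ℕ) (b : Bool) : ℝ := if b then 1 else -(1 / (M : ℝ))

theorem uu_nonneg (M : ℕ) (b : Bool) : 0 ≤ uu M b := by
  unfold uu
  split_ifs <;> positivity

theorem uu_le (M : ℕ) (b : Bool) : uu M b ≤ (M : ℝ) + 1 := by
  unfold uu
  split_ifs
  · exact le_rfl
  · positivity

/-- **the basic expectation** -/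
theorem LL {ι : Type*} [DecidableEq ι] (M : ℕ) (hM : 1 ≤ M) (U W : Finset ι) :
    ∫ y, (∏ l ∈ U, uu M (y l)) * ∏ l ∈ W, bb M (y l) ∂(Measure.infinitePi fun _ : ι => bern M) =
      if W ⊆ U then 1 else 0 := by
  have hM0 : (0 : ℝ) < M := by exact_mod_cast hM
  have e1 : ∀ y : ι → Bool, (∏ l ∈ U, uu M (y l)) * ∏ l ∈ W, bb M (y l) =
      ∏ l ∈ U ∪ W, (fun b : Bool => (if l ∈ U then uu M b else 1) * (if l ∈ W then bb M b else 1)) (y l) := by
    intro y
    simp only
    rw [prod_mul_distrib, ← prod_filter, ← prod_filter]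
    congr 1
    · refine prod_congr ?_ fun _ _ => rfl
      ext l
      simp only [mem_filter, mem_union]
      tauto
    · refine prod_congr ?_ fun _ _ => rfl
      ext l
      simp only [mem_filter, mem_union]
      tauto
  rw [integral_congr_ae (ae_of_all _ e1), int_prod (fun _ : ι => bern M) (U ∪ W)
    (fun l b => (if l ∈ U then uu M b else 1) * (if l ∈ W then bb M b else 1)) (fun _ _ => measurable_of_countable _)]
  have e2 : ∀ l ∈ U ∪ W, ∫ b, (if l ∈ U then uu M b else 1) * (if l ∈ W then bb M b else 1) ∂(bern M) =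
      if (l ∈ W ∧ l ∉ U) then 0 else 1 := by
    intro l hl
    rw [int_bern]
    rw [mem_union] at hl
    by_cases hU : l ∈ U
    · by_cases hW : l ∈ W
      · simp only [hU, hW, if_true, uu, bb, Bool.false_eq_true, if_false, not_true_eq_false, and_false]
        field_simp
        ring
      · simp only [hU, hW, if_true, uu, Bool.false_eq_true, if_false, false_and]
        field_simp
        ring
    · have hW : l ∈ W := by tauto
      simp only [hU, hW, if_true, bb, Bool.false_eq_true, if_false, not_false_eq_true, and_true]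
      field_simp
      ring
  rw [prod_congr rfl e2]
  by_cases hs : W ⊆ U
  · rw [if_pos hs]
    refine prod_eq_one fun l _ => ?_
    rw [if_neg]
    exact fun hc => hc.2 (hs hc.1)
  · rw [if_neg hs]
    obtain ⟨l, hl1, hl2⟩ := not_subset.1 hs
    apply prod_eq_zero (i := l) (mem_union_right U hl1)
    rw [if_pos]
    exact ⟨hl1, hl2⟩

end Pool.Agent.H49.PT
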