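import Pool.Agent.H49.D.SA

set_option autoImplicit false

/-! Patterns in random sets: the block fields. -/

namespace Pool.Agent.H49.PT

open Finset MeasureTheory Filter Topology
open scoped ENNReal

/-- edges `T m`; `D i` is the set of the active `m` with `i ∈ T m`; anchors `al m ∈ T m` -/
structure Blk where
  T : ℕ → Finset ℕ
  D : ℕ → Finset ℕ
  al : ℕ → ℕ
  hD : ∀ i m, m ∈ D i → i ∈ T m
  hT : ∀ i m, m ∈ D i → ∀ l ∈ T m, m ∈ D l
  hal : ∀ i m, m ∈ D i → al m ∈ T m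

/-- bits indexed by edge and element -/
abbrev Y := ℕ × ℕ → Bool

/-- independent bits -/
noncomputable def pB (M : ℕ) : Measure Y := Measure.infinitePi fun _ => bern M

instance (M : ℕ) : IsProbabilityMeasure (pB M) := by
  unfold pB
  infer_instance

/-- pairs -/
def Wd (C : Finset ℕ) (t : ℕ → Finset ℕ) : Finset (ℕ × ℕ) := C.biUnion fun m => (t m).image fun l => (m, l)

theorem mem_Wd {C : Finset ℕ} {t : ℕ → Finset ℕ} {x : ℕ × ℕ} : x ∈ Wd C t ↔ x.1 ∈ C ∧ x.2 ∈ t x.1 := by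
  unfold Wd
  simp only [mem_biUnion, mem_image]
  constructor
  · rintro ⟨m, hm, l, hl, rfl⟩
    exact ⟨hm, hl⟩
  · rintro ⟨h1, h2⟩
    exact ⟨x.1, h1, x.2, h2, rfl⟩

theorem prod_Wd (C : Finset ℕ) (t : ℕ → Finset ℕ) (f : ℕ × ℕ → ℝ) :
    ∏ m ∈ C, ∏ l ∈ t m, f (m, l) = ∏ x ∈ Wd C t, f x :=
  (prod_finset_product (Wd C t) C t (fun _ => mem_Wd)).symm

namespace Blk

variable (b : Blk)

/-- later edges which meet `T m` -/
def Nn (m : ℕ) : Finset ℕ := ((b.T m).biUnion b.D).filter fun m' => m < m'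

noncomputable def phi (m : ℕ) (σ : Y) : ℝ := ∏ m' ∈ b.Nn m, (1 - ∏ l ∈ b.T m', bb 1 (σ (m', l)))

noncomputable def bm (M m : ℕ) (τ : Y) : ℝ := ∏ l ∈ (b.T m).erase (b.al m), bb M (τ (m, l))

/-- mode one -/
noncomputable def F1 (M : ℕ) (r : ℝ) (i : ℕ) (y : Y × Y) : ℝ :=
  ∏ m ∈ b.D i, uu 1 (y.1 (m, i)) * (if i = b.al m then 1 + r * (b.bm M m y.2 * b.phi m y.1) else uu M (y.2 (m, i)))

/-- mode zero -/
noncomputable def F0 (i : ℕ) (σ : Y) : ℝ :=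
  ∏ m ∈ b.D i, if i = b.al m then 1 - ∏ l ∈ (b.T m).erase (b.al m), bb 1 (σ (m, l)) else uu 1 (σ (m, i))

/-- the incidences over `S` -/
def Pr (S : Finset ℕ) : Finset (ℕ × ℕ) := (S.biUnion b.D ×ˢ S).filter fun x => x.1 ∈ b.D x.2

theorem mem_Pr {S : Finset ℕ} {x : ℕ × ℕ} : x ∈ b.Pr S ↔ x.2 ∈ S ∧ x.1 ∈ b.D x.2 := by
  unfold Pr
  rw [mem_filter, mem_product, mem_biUnion]
  constructor
  · rintro ⟨⟨_, h2⟩, h3⟩
    exact ⟨h2, h3⟩
  · rintro ⟨h2, h3⟩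
    exact ⟨⟨⟨x.2, h2, h3⟩, h2⟩, h3⟩

theorem prod_Pr (S : Finset ℕ) (f : ℕ × ℕ → ℝ) : ∏ i ∈ S, ∏ m ∈ b.D i, f (m, i) = ∏ x ∈ b.Pr S, f x :=
  (prod_finset_product_right (b.Pr S) S b.D (fun _ => b.mem_Pr)).symm

/-- the incidences which are not at the anchor -/
def Pq (S : Finset ℕ) : Finset (ℕ × ℕ) := (b.Pr S).filter fun x => ¬ x.2 = b.al x.1

/-- edges with anchor in `S` -/
def An (S : Finset ℕ) : Finset ℕ := (S.biUnion b.D).filter fun m => b.al m ∈ S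

theorem mem_An {S : Finset ℕ} {m : ℕ} : m ∈ b.An S ↔ b.al m ∈ S ∧ m ∈ b.D (b.al m) := by
  unfold An
  rw [mem_filter, mem_biUnion]
  constructor
  · rintro ⟨⟨i, _, h2⟩, h3⟩
    exact ⟨h3, b.hT i m h2 _ (b.hal i m h2)⟩
  · rintro ⟨h1, h2⟩
    exact ⟨⟨_, h1, h2⟩, h1⟩

theorem prod_An (S : Finset ℕ) (f : ℕ → ℝ) : ∏ x ∈ (b.Pr S).filter (fun x => x.2 = b.al x.1), f x.1 = ∏ m ∈ b.An S, f m := by
  have e : (b.Pr S).filter (fun x => x.2 = b.al x.1) = (b.An S).image fun m => (m, b.al m) := by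
    ext x
    rw [mem_filter, b.mem_Pr, mem_image]
    constructor
    · rintro ⟨⟨h1, h2⟩, h3⟩
      exact ⟨x.1, b.mem_An.2 ⟨by rw [← h3]; exact h1, by rw [← h3]; exact h2⟩, by rw [← h3]⟩
    · rintro ⟨m, hm, rfl⟩
      have := b.mem_An.1 hm
      exact ⟨this, rfl⟩
  rw [e, prod_image]
  intro a _ c _ hac
  exact congrArg Prod.fst hac

/-- the whole edge is in `S` iff the pairs of `Wd` are incidences -/
theorem sub_iff (S C : Finset ℕ) (hC : C ⊆ b.An S) :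
    Wd C (fun m => (b.T m).erase (b.al m)) ⊆ b.Pq S ↔ ∀ m ∈ C, b.T m ⊆ S := by
  constructor
  · intro h m hm l hl
    have hA := b.mem_An.1 (hC hm)
    by_cases hla : l = b.al m
    · rw [hla]; exact hA.1
    · have h1 : (m, l) ∈ Wd C (fun m => (b.T m).erase (b.al m)) := mem_Wd.2 ⟨hm, mem_erase.2 ⟨hla, hl⟩⟩
      have h2 := h h1
      unfold Pq at h2
      rw [mem_filter, b.mem_Pr] at h2
      exact h2.1.1
  · intro h x hx
    rw [mem_Wd] at hx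
    obtain ⟨h1, h2⟩ := hx
    rw [mem_erase] at h2
    have hA := b.mem_An.1 (hC h1)
    unfold Pq
    rw [mem_filter, b.mem_Pr]
    exact ⟨⟨h x.1 h1 h2.2, b.hT _ _ hA.2 _ h2.2⟩, h2.1⟩

theorem sub_iff' (S C : Finset ℕ) (hC : ∀ m ∈ C, ∀ l ∈ b.T m, m ∈ b.D l) :
    Wd C b.T ⊆ b.Pr S ↔ ∀ m ∈ C, b.T m ⊆ S := by
  constructor
  · intro h m hm l hl
    have h1 : (m, l) ∈ Wd C b.T := mem_Wd.2 ⟨hm, hl⟩
    exact (b.mem_Pr.1 (h h1)).1
  · intro h x hx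
    rw [mem_Wd] at hx
    exact b.mem_Pr.2 ⟨h x.1 hx.1 hx.2, hC x.1 hx.1 x.2 hx.2⟩

open Classical in
/-- expansion -/
theorem prod_ind (C : Finset ℕ) (P : ℕ → Prop) :
    ∏ m ∈ C, (1 - (if P m then (1 : ℝ) else 0)) = if ∃ m ∈ C, P m then 0 else 1 := by
  by_cases h : ∃ m ∈ C, P m
  · rw [if_pos h]
    obtain ⟨m, hm, hP⟩ := h
    apply prod_eq_zero hm
    simp [hP]
  · rw [if_neg h]
    push Not at h
    exact prod_eq_one fun m hm => by simp [h m hm]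

open Classical in
theorem sum_ind (C : Finset ℕ) (P : ℕ → Prop) :
    ∑ A ∈ C.powerset, (-1 : ℝ) ^ A.card * (if ∀ m ∈ A, P m then 1 else 0) = if ∃ m ∈ C, P m then 0 else 1 := by
  rw [← prod_ind]
  have e : ∀ m ∈ C, (1 - (if P m then (1 : ℝ) else 0)) = 1 + -(if P m then (1 : ℝ) else 0) := fun m _ => sub_eq_add_neg _ _
  rw [prod_congr rfl e, prod_one_add]
  refine sum_congr rfl fun A _ => ?_
  rw [prod_neg]
  congr 1
  by_cases h : ∀ m ∈ A, P m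
  · rw [if_pos h]
    exact (prod_eq_one fun m hm => by simp [h m hm]).symm
  · rw [if_neg h]
    push Not at h
    obtain ⟨m, hm, hP⟩ := h
    exact (prod_eq_zero hm (by simp [hP])).symm

open Classical in
/-- **mode zero** -/
theorem E0 (S : Finset ℕ) : ∫ σ, ∏ i ∈ S, b.F0 i σ ∂(pB 1) = if ∃ m ∈ b.An S, b.T m ⊆ S then 0 else 1 := by
  have e1 : ∀ σ : Y, ∏ i ∈ S, b.F0 i σ = ∑ A ∈ (b.An S).powerset, (-1 : ℝ) ^ A.card *
      ((∏ x ∈ b.Pq S, uu 1 (σ x)) * ∏ x ∈ Wd A (fun m => (b.T m).erase (b.al m)), bb 1 (σ x)) := by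
    intro σ
    have e2 := b.prod_Pr S (fun x => if x.2 = b.al x.1 then 1 - ∏ l ∈ (b.T x.1).erase (b.al x.1), bb 1 (σ (x.1, l))
      else uu 1 (σ x))
    unfold F0
    rw [e2, ← prod_filter_mul_prod_filter_not (b.Pr S) (fun x => x.2 = b.al x.1)]
    have e3 : ∏ x ∈ (b.Pr S).filter (fun x => x.2 = b.al x.1), (if x.2 = b.al x.1 then
        1 - ∏ l ∈ (b.T x.1).erase (b.al x.1), bb 1 (σ (x.1, l)) else uu 1 (σ x)) =
        ∏ m ∈ b.An S, (1 + -∏ l ∈ (b.T m).erase (b.al m), bb 1 (σ (m, l))) := by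
      rw [← b.prod_An S (fun m => 1 + -∏ l ∈ (b.T m).erase (b.al m), bb 1 (σ (m, l)))]
      refine prod_congr rfl fun x hx => ?_
      rw [mem_filter] at hx
      rw [if_pos hx.2, sub_eq_add_neg]
    have e4 : ∏ x ∈ (b.Pr S).filter (fun x => ¬ x.2 = b.al x.1), (if x.2 = b.al x.1 then
        1 - ∏ l ∈ (b.T x.1).erase (b.al x.1), bb 1 (σ (x.1, l)) else uu 1 (σ x)) = ∏ x ∈ b.Pq S, uu 1 (σ x) := by
      refine prod_congr rfl fun x hx => ?_
      unfold Pq at hx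
      rw [mem_filter] at hx
      rw [if_neg hx.2]
    rw [e3, e4, prod_one_add, sum_mul]
    refine sum_congr rfl fun A _ => ?_
    rw [prod_neg, prod_Wd A (fun m => (b.T m).erase (b.al m)) (fun x => bb 1 (σ x))]
    ring
  rw [integral_congr_ae (ae_of_all _ e1)]
  have hn : ∀ A ∈ (b.An S).powerset, Nice fun σ : Y => (-1 : ℝ) ^ A.card *
      ((∏ x ∈ b.Pq S, uu 1 (σ x)) * ∏ x ∈ Wd A (fun m => (b.T m).erase (b.al m)), bb 1 (σ x)) := by
    intro A _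
    exact (Nice.const _).mul ((Nice.prod _ fun x _ => Nice.bit _ x).mul (Nice.prod _ fun x _ => Nice.bit _ x))
  rw [integral_finsetSum _ fun A hA => (hn A hA).int _]
  refine (sum_congr rfl fun A hA => ?_).trans ((sum_ind (b.An S) (fun m => b.T m ⊆ S)).trans ?_)
  swap
  · split_ifs <;> rfl
  rw [mem_powerset] at hA
  rw [integral_const_mul]
  unfold pB
  rw [LL 1 le_rfl]
  congr 1
  by_cases h : ∀ m ∈ A, b.T m ⊆ S
  · rw [if_pos h, if_pos ((b.sub_iff S A hA).2 h)]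
  · rw [if_neg h, if_neg (fun hc => h ((b.sub_iff S A hA).1 hc))]

end Blk

end Pool.Agent.H49.PT
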