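import Pool.Agent.H49.D.SB

set_option autoImplicit false

/-! Patterns in random sets: the block fields, mode one. -/

namespace Pool.Agent.H49.PT

open Finset MeasureTheory Filter Topology
open scoped ENNReal

namespace Blk

variable (b : Blk)

theorem phi_nice (m : ℕ) : Nice (b.phi m) := by
  unfold phi
  exact Nice.prod _ fun m' _ => (Nice.const 1).sub (Nice.prod _ fun l _ => Nice.bit _ _)

theorem bm_nice (M m : ℕ) : Nice (b.bm M m) := by
  unfold bm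
  exact Nice.prod _ fun l _ => Nice.bit _ _

/-- two full edges exclude each other -/
theorem zero_pt (S : Finset ℕ) (m m' : ℕ) (hm' : m' ∈ b.Nn m) (hS : b.T m' ⊆ S) (σ : Y) :
    (∏ x ∈ b.Pr S, uu 1 (σ x)) * b.phi m σ = 0 := by
  have hact : ∀ l ∈ b.T m', m' ∈ b.D l := by
    unfold Nn at hm'
    rw [mem_filter, mem_biUnion] at hm'
    obtain ⟨⟨i, _, h2⟩, _⟩ := hm'
    exact b.hT i m' h2
  by_cases h : ∀ l ∈ b.T m', σ (m', l) = true
  · have h1 : b.phi m σ = 0 := by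
      unfold phi
      apply prod_eq_zero hm'
      rw [prod_eq_one]
      · ring
      · intro l hl
        rw [h l hl]
        simp [bb]
    rw [h1, mul_zero]
  · push Not at h
    obtain ⟨l, hl, hl2⟩ := h
    have h1 : ∏ x ∈ b.Pr S, uu 1 (σ x) = 0 := by
      apply prod_eq_zero (i := (m', l)) (b.mem_Pr.2 ⟨hS hl, hact l hl⟩)
      have : σ (m', l) = false := by simpa using hl2
      rw [this]
      simp [uu]
    rw [h1, zero_mul]

open Classical in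
/-- the expectation of the first part for one edge -/
theorem Esig (S : Finset ℕ) (m : ℕ) : ∫ σ, (∏ x ∈ b.Pr S, uu 1 (σ x)) * b.phi m σ ∂(pB 1) =
    if ∃ m' ∈ b.Nn m, b.T m' ⊆ S then 0 else 1 := by
  have e1 : ∀ σ : Y, (∏ x ∈ b.Pr S, uu 1 (σ x)) * b.phi m σ = ∑ A ∈ (b.Nn m).powerset, (-1 : ℝ) ^ A.card *
      ((∏ x ∈ b.Pr S, uu 1 (σ x)) * ∏ x ∈ Wd A b.T, bb 1 (σ x)) := by
    intro σ
    unfold phi
    have e2 : ∀ m' ∈ b.Nn m, (1 - ∏ l ∈ b.T m', bb 1 (σ (m', l))) = 1 + -∏ l ∈ b.T m', bb 1 (σ (m', l)) :=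
      fun _ _ => sub_eq_add_neg _ _
    rw [prod_congr rfl e2, prod_one_add, mul_sum]
    refine sum_congr rfl fun A _ => ?_
    rw [prod_neg, prod_Wd A b.T (fun x => bb 1 (σ x))]
    ring
  rw [integral_congr_ae (ae_of_all _ e1)]
  have hn : ∀ A ∈ (b.Nn m).powerset, Nice fun σ : Y => (-1 : ℝ) ^ A.card *
      ((∏ x ∈ b.Pr S, uu 1 (σ x)) * ∏ x ∈ Wd A b.T, bb 1 (σ x)) := by
    intro A _
    exact (Nice.const _).mul ((Nice.prod _ fun x _ => Nice.bit _ x).mul (Nice.prod _ fun x _ => Nice.bit _ x))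
  rw [integral_finsetSum _ fun A hA => (hn A hA).int _]
  refine (sum_congr rfl fun A hA => ?_).trans ((sum_ind (b.Nn m) (fun m' => b.T m' ⊆ S)).trans ?_)
  swap
  · split_ifs <;> rfl
  rw [mem_powerset] at hA
  have hC : ∀ m' ∈ A, ∀ l ∈ b.T m', m' ∈ b.D l := by
    intro m' hm'
    have h1 := hA hm'
    unfold Nn at h1
    rw [mem_filter, mem_biUnion] at h1
    obtain ⟨⟨i, _, h2⟩, _⟩ := h1
    exact b.hT i m' h2
  rw [integral_const_mul]
  unfold pB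
  rw [LL 1 le_rfl]
  congr 1
  by_cases h : ∀ m ∈ A, b.T m ⊆ S
  · rw [if_pos h, if_pos ((b.sub_iff' S A hC).2 h)]
  · rw [if_neg h, if_neg (fun hc => h ((b.sub_iff' S A hC).1 hc))]

open Classical in
theorem Etau (M : ℕ) (hM : 1 ≤ M) (S A : Finset ℕ) (hA : A ⊆ b.An S) :
    ∫ τ, (∏ x ∈ b.Pq S, uu M (τ x)) * ∏ m ∈ A, b.bm M m τ ∂(pB M) = if ∀ m ∈ A, b.T m ⊆ S then 1 else 0 := by
  have e1 : ∀ τ : Y, (∏ x ∈ b.Pq S, uu M (τ x)) * ∏ m ∈ A, b.bm M m τ =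
      (∏ x ∈ b.Pq S, uu M (τ x)) * ∏ x ∈ Wd A (fun m => (b.T m).erase (b.al m)), bb M (τ x) := by
    intro τ
    unfold bm
    rw [prod_Wd A (fun m => (b.T m).erase (b.al m)) (fun x => bb M (τ x))]
  rw [integral_congr_ae (ae_of_all _ e1)]
  unfold pB
  rw [LL M hM]
  by_cases h : ∀ m ∈ A, b.T m ⊆ S
  · rw [if_pos h, if_pos ((b.sub_iff S A hA).2 h)]
  · rw [if_neg h, if_neg (fun hc => h ((b.sub_iff S A hA).1 hc))]

theorem F1_prod (M : ℕ) (r : ℝ) (S : Finset ℕ) (y : Y × Y) : ∏ i ∈ S, b.F1 M r i y =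
    ∑ A ∈ (b.An S).powerset, r ^ A.card * (((∏ x ∈ b.Pr S, uu 1 (y.1 x)) * ∏ m ∈ A, b.phi m y.1) *
      ((∏ x ∈ b.Pq S, uu M (y.2 x)) * ∏ m ∈ A, b.bm M m y.2)) := by
  have e2 := b.prod_Pr S (fun x => uu 1 (y.1 x) *
    (if x.2 = b.al x.1 then 1 + r * (b.bm M x.1 y.2 * b.phi x.1 y.1) else uu M (y.2 x)))
  unfold F1
  rw [e2, prod_mul_distrib, ← prod_filter_mul_prod_filter_not (b.Pr S) (fun x => x.2 = b.al x.1)
    (fun x => if x.2 = b.al x.1 then 1 + r * (b.bm M x.1 y.2 * b.phi x.1 y.1) else uu M (y.2 x))]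
  have e3 : ∏ x ∈ (b.Pr S).filter (fun x => x.2 = b.al x.1), (if x.2 = b.al x.1 then
      1 + r * (b.bm M x.1 y.2 * b.phi x.1 y.1) else uu M (y.2 x)) =
      ∏ m ∈ b.An S, (1 + r * (b.bm M m y.2 * b.phi m y.1)) := by
    rw [← b.prod_An S (fun m => 1 + r * (b.bm M m y.2 * b.phi m y.1))]
    refine prod_congr rfl fun x hx => ?_
    rw [mem_filter] at hx
    rw [if_pos hx.2]
  have e4 : ∏ x ∈ (b.Pr S).filter (fun x => ¬ x.2 = b.al x.1), (if x.2 = b.al x.1 then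
      1 + r * (b.bm M x.1 y.2 * b.phi x.1 y.1) else uu M (y.2 x)) = ∏ x ∈ b.Pq S, uu M (y.2 x) := by
    refine prod_congr rfl fun x hx => ?_
    unfold Pq at hx
    rw [mem_filter] at hx
    rw [if_neg hx.2]
  rw [e3, e4, prod_one_add, sum_mul, mul_sum]
  refine sum_congr rfl fun A _ => ?_
  rw [prod_mul_distrib, prod_mul_distrib, prod_const]
  ring

open Classical in
/-- **mode one** -/
theorem E1 (M : ℕ) (hM : 1 ≤ M) (r : ℝ) (S : Finset ℕ)
    (hint : ∀ m ∈ b.An S, ∀ m' ∈ b.An S, b.T m ⊆ S → b.T m' ⊆ S → ∃ l ∈ b.T m, l ∈ b.T m') :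
    ∫ y, ∏ i ∈ S, b.F1 M r i y ∂((pB 1).prod (pB M)) = 1 + r * (if ∃ m ∈ b.An S, b.T m ⊆ S then 1 else 0) := by
  rw [integral_congr_ae (ae_of_all _ (b.F1_prod M r S))]
  have n1 : ∀ A : Finset ℕ, Nice fun σ : Y => (∏ x ∈ b.Pr S, uu 1 (σ x)) * ∏ m ∈ A, b.phi m σ := fun A =>
    (Nice.prod _ fun x _ => Nice.bit _ x).mul (Nice.prod _ fun m _ => b.phi_nice m)
  have n2 : ∀ A : Finset ℕ, Nice fun τ : Y => (∏ x ∈ b.Pq S, uu M (τ x)) * ∏ m ∈ A, b.bm M m τ := fun A =>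
    (Nice.prod _ fun x _ => Nice.bit _ x).mul (Nice.prod _ fun m _ => b.bm_nice M m)
  have n3 : ∀ A ∈ (b.An S).powerset, Nice fun y : Y × Y => r ^ A.card * (((∏ x ∈ b.Pr S, uu 1 (y.1 x)) *
      ∏ m ∈ A, b.phi m y.1) * ((∏ x ∈ b.Pq S, uu M (y.2 x)) * ∏ m ∈ A, b.bm M m y.2)) := fun A _ =>
    (Nice.const _).mul (((n1 A).comp measurable_fst).mul ((n2 A).comp measurable_snd))
  rw [integral_finsetSum _ fun A hA => (n3 A hA).int _]
  obtain ⟨t, ht⟩ : ∃ t : Finset ℕ → ℝ, t = fun A => r ^ A.card * ((∫ σ, (∏ x ∈ b.Pr S, uu 1 (σ x)) *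
      ∏ m ∈ A, b.phi m σ ∂(pB 1)) * (if ∀ m ∈ A, b.T m ⊆ S then 1 else 0)) := ⟨_, rfl⟩
  have e1 : ∀ A ∈ (b.An S).powerset, ∫ y : Y × Y, r ^ A.card * (((∏ x ∈ b.Pr S, uu 1 (y.1 x)) *
      ∏ m ∈ A, b.phi m y.1) * ((∏ x ∈ b.Pq S, uu M (y.2 x)) * ∏ m ∈ A, b.bm M m y.2)) ∂((pB 1).prod (pB M)) = t A := by
    intro A hA
    rw [mem_powerset] at hA
    rw [integral_const_mul, integral_prod_mul (fun σ : Y => (∏ x ∈ b.Pr S, uu 1 (σ x)) * ∏ m ∈ A, b.phi m σ)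
      (fun τ : Y => (∏ x ∈ b.Pq S, uu M (τ x)) * ∏ m ∈ A, b.bm M m τ), b.Etau M hM S A hA, ht]
  rw [sum_congr rfl e1]
  have t0 : t ∅ = 1 := by
    rw [ht]
    simp only [card_empty, pow_zero, prod_empty, mul_one, notMem_empty, false_imp_iff, implies_true, if_true, one_mul]
    have h := LL (ι := ℕ × ℕ) 1 le_rfl (b.Pr S) ∅
    simp only [prod_empty, mul_one, empty_subset, if_true] at h
    exact h
  have tz : ∀ A ∈ (b.An S).powerset, ∀ m ∈ A, ¬ b.T m ⊆ S → t A = 0 := by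
    intro A _ m hm hmS
    rw [ht]
    simp only
    rw [if_neg, mul_zero, mul_zero]
    exact fun h => hmS (h m hm)
  have tz2 : ∀ A ∈ (b.An S).powerset, ∀ m ∈ A, ∀ m' ∈ b.Nn m, b.T m' ⊆ S → t A = 0 := by
    intro A _ m hm m' hm' hS
    rw [ht]
    simp only
    have : ∀ σ : Y, (∏ x ∈ b.Pr S, uu 1 (σ x)) * ∏ m ∈ A, b.phi m σ = 0 := by
      intro σ
      rw [← mul_prod_erase A _ hm, ← mul_assoc, b.zero_pt S m m' hm' hS, zero_mul]
    rw [integral_congr_ae (ae_of_all _ this), integral_zero, zero_mul, mul_zero]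
  by_cases hex : ∃ m ∈ b.An S, b.T m ⊆ S
  · rw [if_pos hex]
    obtain ⟨Fm, hFm⟩ : ∃ Fm, Fm = (b.An S).filter fun m => b.T m ⊆ S := ⟨_, rfl⟩
    have hne : Fm.Nonempty := by
      obtain ⟨m, hm, hm2⟩ := hex
      exact ⟨m, by rw [hFm]; exact mem_filter.2 ⟨hm, hm2⟩⟩
    obtain ⟨m0, hm0⟩ : ∃ m0, m0 = Fm.max' hne := ⟨_, rfl⟩
    have hm0F : m0 ∈ Fm := by rw [hm0]; exact Fm.max'_mem hne
    have hmax : ∀ m ∈ Fm, m ≤ m0 := fun m hm => by rw [hm0]; exact Fm.le_max' m hm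
    have hm0A : m0 ∈ b.An S ∧ b.T m0 ⊆ S := by
      rw [hFm] at hm0F
      exact mem_filter.1 hm0F
    have hnot : ¬ ∃ m' ∈ b.Nn m0, b.T m' ⊆ S := by
      rintro ⟨m', h1, h2⟩
      unfold Nn at h1
      rw [mem_filter, mem_biUnion] at h1
      obtain ⟨⟨i, _, h3⟩, h4⟩ := h1
      have h5 : m' ∈ b.An S := b.mem_An.2 ⟨h2 (b.hal i m' h3), b.hT i m' h3 _ (b.hal i m' h3)⟩
      have h6 : m' ∈ Fm := by rw [hFm]; exact mem_filter.2 ⟨h5, h2⟩
      have := hmax m' h6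
      omega
    rw [sum_eq_add ∅ {m0}]
    · rw [t0]
      congr 1
      rw [ht]
      simp only [card_singleton, pow_one, prod_singleton, mem_singleton, forall_eq]
      rw [if_pos hm0A.2, b.Esig S m0, if_neg hnot]
      ring
    · exact (singleton_ne_empty m0).symm
    · intro A hA hne2
      obtain ⟨hA1, hA2⟩ := hne2
      by_cases hall : ∀ m ∈ A, b.T m ⊆ S
      · have hex2 : ∃ m ∈ A, m ≠ m0 := by
          by_contra hc
          push Not at hc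
          apply hA2
          rw [eq_singleton_iff_nonempty_unique_mem]
          exact ⟨nonempty_iff_ne_empty.2 hA1, hc⟩
        obtain ⟨m, hm, hmne⟩ := hex2
        have hmA : m ∈ b.An S := (mem_powerset.1 hA) hm
        have hmF : m ∈ Fm := by rw [hFm]; exact mem_filter.2 ⟨hmA, hall m hm⟩
        have hlt : m < m0 := lt_of_le_of_ne (hmax m hmF) hmne
        obtain ⟨l, hl1, hl2⟩ := hint m hmA m0 hm0A.1 (hall m hm) hm0A.2
        have hN : m0 ∈ b.Nn m := by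
          unfold Nn
          rw [mem_filter, mem_biUnion]
          exact ⟨⟨l, hl1, b.hT _ _ (b.mem_An.1 hm0A.1).2 l hl2⟩, hlt⟩
        exact tz2 A hA m hm m0 hN hm0A.2
      · push Not at hall
        obtain ⟨m, hm, hmS⟩ := hall
        exact tz A hA m hm hmS
    · intro h
      exact absurd (empty_mem_powerset _) h
    · intro h
      exact absurd (mem_powerset.2 (singleton_subset_iff.2 hm0A.1)) h
  · rw [if_neg hex, mul_zero, add_zero, sum_eq_single ∅]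
    · exact t0
    · intro A hA hne
      obtain ⟨m, hm⟩ := nonempty_iff_ne_empty.2 hne
      exact tz A hA m hm fun h => hex ⟨m, (mem_powerset.1 hA) hm, h⟩
    · intro h
      exact absurd (empty_mem_powerset _) h

end Blk

end Pool.Agent.H49.PT
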