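import Pool.Agent.H49.D.SC

set_option autoImplicit false

/-! Patterns in random sets: the law of a block. -/

namespace Pool.Agent.H49.PT

open Finset MeasureTheory Filter Topology
open scoped ENNReal

abbrev B0 := Bool × (Y × Y)

noncomputable def blkL (j M : ℕ) : Measure B0 := (bern (2 ^ j - 1)).prod ((pB 1).prod (pB M))

instance (j M : ℕ) : IsProbabilityMeasure (blkL j M) := by
  unfold blkL
  infer_instance

theorem cast_pow (j : ℕ) : ((2 ^ j - 1 : ℕ) : ℝ) + 1 = 2 ^ j := by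
  have h : 1 ≤ 2 ^ j := Nat.one_le_two_pow
  push_cast [Nat.cast_sub h]
  ring

theorem blkL_true (j M : ℕ) : blkL j M {x | x.1 = true} = ENNReal.ofReal ((1 / 2 : ℝ) ^ j) := by
  have e : {x : B0 | x.1 = true} = {true} ×ˢ Set.univ := by
    ext x
    simp
  unfold blkL
  rw [e, Measure.prod_prod, bern_true, measure_univ, mul_one, cast_pow]
  congr 1
  rw [div_pow, one_pow]

namespace Blk

variable (b : Blk)

/-- the density of a block -/
noncomputable def G (M j i : ℕ) (x : B0) : ℝ := if x.1 then b.F1 M (2 ^ j - 1) i x.2 else b.F0 i x.2.1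

theorem F1_nice (M : ℕ) (r : ℝ) (i : ℕ) : Nice (b.F1 M r i) := by
  unfold F1
  refine Nice.prod _ fun m _ => ?_
  refine ((Nice.bit (uu 1) (m, i)).comp measurable_fst).mul ?_
  split_ifs
  · exact (Nice.const 1).add ((Nice.const r).mul (((b.bm_nice M m).comp measurable_snd).mul
      ((b.phi_nice m).comp measurable_fst)))
  · exact (Nice.bit (uu M) (m, i)).comp measurable_snd

theorem F0_nice (i : ℕ) : Nice (b.F0 i) := by
  unfold F0
  refine Nice.prod _ fun m _ => ?_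
  split_ifs
  · exact (Nice.const 1).sub (Nice.prod _ fun l _ => Nice.bit _ _)
  · exact Nice.bit _ _

theorem G_nice (M j i : ℕ) : Nice (b.G M j i) := by
  have h1 : Nice fun x : B0 => (if x.1 then (1 : ℝ) else 0) * b.F1 M (2 ^ j - 1) i x.2 :=
    ((Nice.bool fun c => if c then (1 : ℝ) else 0).comp measurable_fst).mul ((b.F1_nice M _ i).comp measurable_snd)
  have h2 : Nice fun x : B0 => (if x.1 then (0 : ℝ) else 1) * b.F0 i x.2.1 :=
    ((Nice.bool fun c => if c then (0 : ℝ) else 1).comp measurable_fst).mul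
      ((b.F0_nice i).comp (measurable_fst.comp measurable_snd))
  have e : b.G M j i = fun x : B0 => (if x.1 then (1 : ℝ) else 0) * b.F1 M (2 ^ j - 1) i x.2 +
      (if x.1 then (0 : ℝ) else 1) * b.F0 i x.2.1 := by
    funext x
    unfold G
    cases x.1 <;> simp
  rw [e]
  exact h1.add h2

/-- **the density of a block is independent of order `2 k - 1`** -/
theorem key (M j k : ℕ) (hM : 1 ≤ M) (hk : ∀ i, ∀ m ∈ b.D i, (b.T m).card = k) (S : Finset ℕ) (hS : S.card < 2 * k) :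
    ∫ x, ∏ i ∈ S, b.G M j i x ∂(blkL j M) = 1 := by
  classical
  have hint : ∀ m ∈ b.An S, ∀ m' ∈ b.An S, b.T m ⊆ S → b.T m' ⊆ S → ∃ l ∈ b.T m, l ∈ b.T m' := by
    intro m hm m' hm' h1 h2
    by_contra hc
    push Not at hc
    have hd : Disjoint (b.T m) (b.T m') := disjoint_left.2 hc
    have h3 := card_le_card (union_subset h1 h2)
    rw [card_union_of_disjoint hd, hk _ m (b.mem_An.1 hm).2, hk _ m' (b.mem_An.1 hm').2] at h3
    omega
  have hn : Nice fun x : B0 => ∏ i ∈ S, b.G M j i x := Nice.prod _ fun i _ => b.G_nice M j i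
  unfold blkL
  rw [integral_prod _ (hn.int _), int_bern, cast_pow]
  have e1 : ∀ y : Y × Y, ∏ i ∈ S, b.G M j i (true, y) = ∏ i ∈ S, b.F1 M (2 ^ j - 1) i y := by
    intro y
    simp [G]
  have e0 : ∀ y : Y × Y, ∏ i ∈ S, b.G M j i (false, y) = ∏ i ∈ S, b.F0 i y.1 := by
    intro y
    simp [G]
  simp_rw [e1, e0]
  rw [b.E1 M hM _ S hint]
  have e2 : ∫ y : Y × Y, ∏ i ∈ S, b.F0 i y.1 ∂((pB 1).prod (pB M)) = ∫ σ, ∏ i ∈ S, b.F0 i σ ∂(pB 1) := by
    have h := integral_prod_mul (μ := pB 1) (ν := pB M) (fun σ : Y => ∏ i ∈ S, b.F0 i σ) (fun _ : Y => (1 : ℝ))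
    simp only [mul_one, integral_const, probReal_univ, smul_eq_mul, one_mul] at h
    exact h
  rw [e2, b.E0 S]
  have hc : ((2 ^ j - 1 : ℕ) : ℝ) = 2 ^ j - 1 := by linarith [cast_pow j]
  have hp : (2 : ℝ) ^ j ≠ 0 := by positivity
  rw [hc]
  by_cases hex : ∃ m ∈ b.An S, b.T m ⊆ S
  · rw [if_pos hex, if_pos hex]
    field_simp
    ring
  · rw [if_neg hex, if_neg hex]
    field_simp
    ring

theorem bb_prod_bd (M : ℕ) (hM : 1 ≤ M) {ι : Type*} (s : Finset ι) (f : ι → Bool) :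
    -(1 / (M : ℝ)) ≤ ∏ l ∈ s, bb M (f l) ∧ ∏ l ∈ s, bb M (f l) ≤ 1 := by
  classical
  have hM1 : (1 : ℝ) ≤ M := by exact_mod_cast hM
  have hx0 : 0 < 1 / (M : ℝ) := by positivity
  have hx1 : 1 / (M : ℝ) ≤ 1 := by
    rw [div_le_one (by linarith)]
    exact hM1
  induction s using Finset.induction_on with
  | empty =>
    simp only [prod_empty, le_refl, and_true]
    linarith
  | insert a s ha ih =>
    rw [prod_insert ha]
    obtain ⟨h1, h2⟩ := ih
    unfold bb at h1 h2 ⊢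
    cases f a
    · simp only [Bool.false_eq_true, if_false]
      constructor
      · nlinarith
      · nlinarith
    · simp only [if_true, one_mul]
      exact ⟨h1, h2⟩

theorem bb1_abs {ι : Type*} (s : Finset ι) (f : ι → Bool) : |∏ l ∈ s, bb 1 (f l)| = 1 := by
  rw [Finset.abs_prod]
  refine prod_eq_one fun l _ => ?_
  unfold bb
  cases f l <;> simp

theorem phi_bd (m : ℕ) (σ : Y) : 0 ≤ b.phi m σ ∧ b.phi m σ ≤ 2 ^ (b.Nn m).card := by
  unfold phi
  have h : ∀ m' ∈ b.Nn m, 0 ≤ 1 - ∏ l ∈ b.T m', bb 1 (σ (m', l)) ∧ 1 - ∏ l ∈ b.T m', bb 1 (σ (m', l)) ≤ 2 := by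
    intro m' _
    have h1 := abs_le.1 (bb1_abs (b.T m') (fun l => σ (m', l))).le
    constructor <;> linarith
  refine ⟨prod_nonneg fun m' hm' => (h m' hm').1, ?_⟩
  refine (prod_le_prod (fun m' hm' => (h m' hm').1) (fun m' hm' => (h m' hm').2)).trans ?_
  rw [prod_const]

theorem G_bd (M j : ℕ) (hM : 1 ≤ M) (hMj : ∀ i, ∀ m ∈ b.D i, 2 ^ j * 2 ^ (b.Nn m).card ≤ M) (i : ℕ) (x : B0) :
    0 ≤ b.G M j i x ∧ b.G M j i x ≤ (2 * ((M : ℝ) + 1)) ^ (b.D i).card := by
  have hM1 : (1 : ℝ) ≤ M := by exact_mod_cast hM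
  have h2j : (1 : ℝ) ≤ 2 ^ j := one_le_pow₀ (by norm_num)
  have h1 : ∀ m ∈ b.D i, 0 ≤ (uu 1 (x.2.1 (m, i)) * (if i = b.al m then 1 + (2 ^ j - 1) * (b.bm M m x.2.2 * b.phi m x.2.1)
      else uu M (x.2.2 (m, i)))) ∧ (uu 1 (x.2.1 (m, i)) * (if i = b.al m then 1 + (2 ^ j - 1) *
      (b.bm M m x.2.2 * b.phi m x.2.1) else uu M (x.2.2 (m, i)))) ≤ 2 * ((M : ℝ) + 1) := by
    intro m hm
    have u0 := uu_nonneg 1 (x.2.1 (m, i))
    have u1 := uu_le 1 (x.2.1 (m, i))
    have hb := bb_prod_bd M hM ((b.T m).erase (b.al m)) (fun l => x.2.2 (m, l))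
    have hp := b.phi_bd m x.2.1
    have hMm : (2 : ℝ) ^ j * 2 ^ (b.Nn m).card ≤ M := by exact_mod_cast hMj i m hm
    have hv : 0 ≤ (if i = b.al m then 1 + (2 ^ j - 1) * (b.bm M m x.2.2 * b.phi m x.2.1)
      else uu M (x.2.2 (m, i))) ∧ (if i = b.al m then 1 + (2 ^ j - 1) * (b.bm M m x.2.2 * b.phi m x.2.1)
      else uu M (x.2.2 (m, i))) ≤ (M : ℝ) + 1 := by
      split_ifs
      · obtain ⟨B, hB⟩ : ∃ B, B = b.bm M m x.2.2 := ⟨_, rfl⟩
        obtain ⟨P, hP⟩ : ∃ P, P = b.phi m x.2.1 := ⟨_, rfl⟩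
        have hb' : -(1 / (M : ℝ)) ≤ B ∧ B ≤ 1 := by rw [hB]; exact hb
        rw [← hP] at hp
        rw [← hB, ← hP]
        have hr : 0 ≤ (2 : ℝ) ^ j - 1 := by linarith
        have hrP : ((2 : ℝ) ^ j - 1) * P ≤ M := by
          calc ((2 : ℝ) ^ j - 1) * P ≤ 2 ^ j * 2 ^ (b.Nn m).card :=
                mul_le_mul (by linarith) hp.2 hp.1 (by positivity)
            _ ≤ M := hMm
        have hrP0 : 0 ≤ ((2 : ℝ) ^ j - 1) * P := mul_nonneg hr hp.1
        have e : ((2 : ℝ) ^ j - 1) * (B * P) = (((2 : ℝ) ^ j - 1) * P) * B := by ring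
        rw [e]
        constructor
        · have h3 : -1 ≤ (((2 : ℝ) ^ j - 1) * P) * B := by
            have h4 : (((2 : ℝ) ^ j - 1) * P) * (-(1 / (M : ℝ))) ≤ (((2 : ℝ) ^ j - 1) * P) * B :=
              mul_le_mul_of_nonneg_left hb'.1 hrP0
            have h5 : (((2 : ℝ) ^ j - 1) * P) * (1 / (M : ℝ)) ≤ 1 := by
              rw [mul_one_div, div_le_one (by linarith)]
              exact hrP
            linarith
          linarith
        · have h4 : (((2 : ℝ) ^ j - 1) * P) * B ≤ (((2 : ℝ) ^ j - 1) * P) * 1 := mul_le_mul_of_nonneg_left hb'.2 hrP0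
          linarith
      · exact ⟨uu_nonneg _ _, uu_le _ _⟩
    have u1' : uu 1 (x.2.1 (m, i)) ≤ 2 := by
      push_cast at u1
      linarith
    exact ⟨mul_nonneg u0 hv.1, mul_le_mul u1' hv.2 hv.1 (by norm_num)⟩
  have h0 : ∀ m ∈ b.D i, 0 ≤ (if i = b.al m then 1 - ∏ l ∈ (b.T m).erase (b.al m), bb 1 (x.2.1 (m, l))
      else uu 1 (x.2.1 (m, i))) ∧ (if i = b.al m then 1 - ∏ l ∈ (b.T m).erase (b.al m), bb 1 (x.2.1 (m, l))
      else uu 1 (x.2.1 (m, i))) ≤ 2 * ((M : ℝ) + 1) := by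
    intro m _
    split_ifs
    · have h2 := abs_le.1 (bb1_abs ((b.T m).erase (b.al m)) (fun l => x.2.1 (m, l))).le
      constructor <;> linarith
    · have u0 := uu_nonneg 1 (x.2.1 (m, i))
      have u1 := uu_le 1 (x.2.1 (m, i))
      push_cast at u1
      exact ⟨u0, by linarith⟩
  unfold G
  split_ifs
  · unfold F1
    refine ⟨prod_nonneg fun m hm => (h1 m hm).1, ?_⟩
    refine (prod_le_prod (fun m hm => (h1 m hm).1) (fun m hm => (h1 m hm).2)).trans (le_of_eq ?_)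
    rw [prod_const]
  · unfold F0
    refine ⟨prod_nonneg fun m hm => (h0 m hm).1, ?_⟩
    refine (prod_le_prod (fun m hm => (h0 m hm).1) (fun m hm => (h0 m hm).2)).trans (le_of_eq ?_)
    rw [prod_const]

/-- in mode zero no edge is full -/
theorem zero0 (m : ℕ) (hm : m ∈ b.D (b.al m)) (σ : Y) : ∃ i ∈ b.T m, b.F0 i σ = 0 := by
  have hal := b.hal _ m hm
  by_cases h : ∀ l ∈ (b.T m).erase (b.al m), σ (m, l) = true
  · refine ⟨b.al m, hal, ?_⟩
    unfold F0
    apply prod_eq_zero hm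
    rw [if_pos rfl, prod_eq_one]
    · ring
    · intro l hl
      rw [h l hl]
      simp [bb]
  · push Not at h
    obtain ⟨l, hl, hl2⟩ := h
    rw [mem_erase] at hl
    refine ⟨l, hl.2, ?_⟩
    unfold F0
    apply prod_eq_zero (b.hT _ m hm l hl.2)
    rw [if_neg hl.1]
    have : σ (m, l) = false := by simpa using hl2
    rw [this]
    simp [uu]

theorem G_empty (M j i : ℕ) (h : b.D i = ∅) (x : B0) : b.G M j i x = 1 := by
  unfold G F1 F0
  rw [h]
  simp

end Blk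

end Pool.Agent.H49.PT
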