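import Pool.Agent.H49.D.SD

set_option autoImplicit false

/-! Patterns in random sets: the model of order `2 k - 1`. -/

namespace Pool.Agent.H49.PT

open Finset MeasureTheory Filter Topology
open scoped ENNReal
open Pool.Agent.H49.TW (int_prod)

/-- countably many families of `k`-element sets, each of bounded degree -/
structure Fam (k : ℕ) where
  T : ℕ → ℕ → Finset ℕ
  D : ℕ → ℕ → Finset ℕ
  d : ℕ → ℕ
  hk : ∀ p m, (T p m).card = k
  hD : ∀ p i m, m ∈ D p i ↔ i ∈ T p m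
  hd : ∀ p i, (D p i).card ≤ d p

/-- a slow function -/
theorem slow (Bd : ℕ → ℝ) (h0 : Bd 0 ≤ 1) : ∃ f : ℕ → ℕ, Monotone f ∧ Tendsto f atTop atTop ∧
    ∀ i : ℕ, 3 ≤ i → Bd (f i) ≤ Real.log i := by
  classical
  obtain ⟨Q, hQ⟩ : ∃ Q : ℕ → ℕ → Prop, Q = fun (i j : ℕ) => ∀ j' ≤ j, j' = 0 ∨ Bd j' ≤ Real.log (i : ℝ) := ⟨_, rfl⟩
  have hQ0 : ∀ i, Q i 0 := by
    intro i
    rw [hQ]
    intro j' hj'
    left
    omega
  refine ⟨fun i => Nat.findGreatest (Q i) i, ?_, ?_, ?_⟩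
  · intro a b hab
    apply Nat.findGreatest_mono _ hab
    intro j hj
    rw [hQ] at hj ⊢
    intro j' hj'
    rcases hj j' hj' with h1 | h1
    · left; exact h1
    · right
      refine h1.trans ?_
      rcases Nat.eq_zero_or_pos a with ha | ha
      · rw [ha]
        simpa using Real.log_natCast_nonneg b
      · exact Real.log_le_log (by exact_mod_cast ha) (by exact_mod_cast hab)
  · rw [tendsto_atTop]
    intro J
    have h1 : Tendsto (fun i : ℕ => Real.log i) atTop atTop := Real.tendsto_log_atTop.comp tendsto_natCast_atTop_atTop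
    have h2 : ∀ᶠ i : ℕ in atTop, ∀ j' ∈ range (J + 1), Bd j' ≤ Real.log i := by
      rw [eventually_all_finset]
      intro j' _
      exact h1.eventually (eventually_ge_atTop _)
    filter_upwards [h2, eventually_ge_atTop J] with i h3 h4
    apply Nat.le_findGreatest h4
    rw [hQ]
    intro j' hj'
    right
    exact h3 j' (mem_range.2 (by omega))
  · intro i hi
    have h1 : Q i (Nat.findGreatest (Q i) i) := Nat.findGreatest_spec (Nat.zero_le i) (hQ0 i)
    obtain ⟨g, hg⟩ : ∃ g, g = Nat.findGreatest (Q i) i := ⟨_, rfl⟩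
    simp only
    rw [← hg] at h1 ⊢
    rw [hQ] at h1
    rcases h1 g le_rfl with h2 | h2
    · rw [h2]
      refine h0.trans ?_
      rw [Real.le_log_iff_exp_le (by exact_mod_cast (by omega : 0 < i))]
      have : (3 : ℝ) ≤ i := by exact_mod_cast hi
      linarith [Real.exp_one_lt_three]
    · exact h2

namespace Fam

variable {k : ℕ} (F : Fam k)

/-- the least element of an edge -/
noncomputable def al (p m : ℕ) : ℕ := if h : (F.T p m).Nonempty then (F.T p m).min' h else 0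

theorem al_mem (hk1 : 1 ≤ k) (p m : ℕ) : F.al p m ∈ F.T p m := by
  have h : (F.T p m).Nonempty := card_pos.1 (by rw [F.hk]; omega)
  unfold al
  rw [dif_pos h]
  exact min'_mem _ _

theorem al_le (p m i : ℕ) (hi : i ∈ F.T p m) : F.al p m ≤ i := by
  have h : (F.T p m).Nonempty := ⟨i, hi⟩
  unfold al
  rw [dif_pos h]
  exact min'_le _ _ hi

/-- the amplitude -/
def Mf (p j : ℕ) : ℕ := 2 ^ j * 2 ^ (k * F.d p)

theorem Mf_pos (p j : ℕ) : 1 ≤ F.Mf p j := by
  unfold Mf
  exact Nat.mul_pos (by positivity) (by positivity)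

noncomputable def Bd (J : ℕ) : ℝ := ∏ a ∈ range J ×ˢ range (J + 1), (2 * ((F.Mf a.1 a.2 : ℝ) + 1)) ^ F.d a.1

noncomputable def f : ℕ → ℕ := (slow F.Bd (by simp [Bd])).choose

theorem f_mono : Monotone F.f := (slow F.Bd (by simp [Bd])).choose_spec.1

theorem f_tendsto : Tendsto F.f atTop atTop := (slow F.Bd (by simp [Bd])).choose_spec.2.1

theorem f_le (i : ℕ) (hi : 3 ≤ i) : F.Bd (F.f i) ≤ Real.log i := (slow F.Bd (by simp [Bd])).choose_spec.2.2 i hi

/-- the block of the family `p` and the level `j` -/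
noncomputable def blk (hk1 : 1 ≤ k) (p j : ℕ) : Blk where
  T := F.T p
  D := fun i => (F.D p i).filter fun m => F.f (F.al p m) = j ∧ p < j
  al := F.al p
  hD := by
    intro i m hm
    rw [mem_filter] at hm
    exact (F.hD p i m).1 hm.1
  hT := by
    intro i m hm l hl
    rw [mem_filter] at hm ⊢
    exact ⟨(F.hD p l m).2 hl, hm.2⟩
  hal := fun i m _ => F.al_mem hk1 p m

variable (hk1 : 1 ≤ k)

theorem blk_empty (p j i : ℕ) (h : ¬ (p < F.f i ∧ j ≤ F.f i)) : (F.blk hk1 p j).D i = ∅ := by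
  rw [eq_empty_iff_forall_notMem]
  intro m hm
  unfold blk at hm
  rw [mem_filter, F.hD] at hm
  have h1 := F.f_mono (F.al_le p m i hm.1)
  omega

theorem blk_N (p j m : ℕ) : 2 ^ j * 2 ^ ((F.blk hk1 p j).Nn m).card ≤ F.Mf p j := by
  unfold Mf
  apply Nat.mul_le_mul_left
  apply Nat.pow_le_pow_right (by norm_num)
  unfold Blk.Nn
  refine (card_filter_le _ _).trans ((card_biUnion_le_card_mul _ _ (F.d p) fun l _ => ?_).trans ?_)
  · exact (card_filter_le _ _).trans (F.hd p l)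
  · have : ((F.blk hk1 p j).T m).card = k := F.hk p m
    rw [this]

abbrev Om1 := ℕ × ℕ → B0

noncomputable def P1 : Measure Om1 := Measure.infinitePi fun a => blkL a.2 (F.Mf a.1 a.2)

instance : IsProbabilityMeasure F.P1 := by
  unfold P1
  infer_instance

/-- the density of one block -/
noncomputable def Ga (a : ℕ × ℕ) (i : ℕ) (x : B0) : ℝ := (F.blk hk1 a.1 a.2).G (F.Mf a.1 a.2) a.2 i x

theorem Ga_bd (a : ℕ × ℕ) (i : ℕ) (x : B0) :
    0 ≤ F.Ga hk1 a i x ∧ F.Ga hk1 a i x ≤ (2 * ((F.Mf a.1 a.2 : ℝ) + 1)) ^ F.d a.1 := by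
  have h := (F.blk hk1 a.1 a.2).G_bd (F.Mf a.1 a.2) a.2 (F.Mf_pos _ _) (fun i m _ => F.blk_N hk1 a.1 a.2 m) i x
  unfold Ga
  refine ⟨h.1, h.2.trans ?_⟩
  have hb : (0 : ℝ) ≤ (F.Mf a.1 a.2 : ℝ) := Nat.cast_nonneg _
  exact pow_le_pow_right₀ (by linarith) ((card_filter_le _ _).trans (F.hd _ _))

/-- the density -/
noncomputable def GG (ω : Om1) (i : ℕ) : ℝ := ∏ a ∈ range (F.f i) ×ˢ range (F.f i + 1), F.Ga hk1 a i (ω a)

theorem GG_nonneg (ω : Om1) (i : ℕ) : 0 ≤ F.GG hk1 ω i := prod_nonneg fun a _ => (F.Ga_bd hk1 a i _).1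

theorem GG_le (ω : Om1) (i : ℕ) (hi : 3 ≤ i) : F.GG hk1 ω i ≤ Real.log i := by
  refine le_trans ?_ (F.f_le i hi)
  unfold GG Bd
  exact prod_le_prod (fun a _ => (F.Ga_bd hk1 a i _).1) (fun a _ => (F.Ga_bd hk1 a i _).2)

theorem GG_meas (i : ℕ) : Measurable fun ω : Om1 => F.GG hk1 ω i := by
  unfold GG
  exact Finset.measurable_fun_prod _ fun a _ => ((Blk.G_nice _ _ _ _).1).comp (measurable_pi_apply a)

theorem E_GG (S : Finset ℕ) (hS : S.card < 2 * k) : ∫ ω, ∏ i ∈ S, F.GG hk1 ω i ∂F.P1 = 1 := by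
  obtain ⟨K, hK⟩ : ∃ K, K = S.sup F.f := ⟨_, rfl⟩
  have hfK : ∀ i ∈ S, F.f i ≤ K := fun i hi => by rw [hK]; exact le_sup hi
  have e1 : ∀ ω : Om1, ∏ i ∈ S, F.GG hk1 ω i =
      ∏ a ∈ range K ×ˢ range (K + 1), (fun x => ∏ i ∈ S, F.Ga hk1 a i x) (ω a) := by
    intro ω
    simp only
    rw [Finset.prod_comm]
    refine prod_congr rfl fun i hi => ?_
    unfold GG
    apply prod_subset
    · intro a ha
      rw [mem_product, mem_range, mem_range] at ha ⊢
      have := hfK i hi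
      omega
    · intro a _ ha
      rw [mem_product, mem_range, mem_range] at ha
      exact Blk.G_empty _ _ _ _ (F.blk_empty hk1 a.1 a.2 i (by omega)) _
  rw [integral_congr_ae (ae_of_all _ e1)]
  unfold P1
  rw [int_prod (fun a : ℕ × ℕ => blkL a.2 (F.Mf a.1 a.2)) (range K ×ˢ range (K + 1)) (fun a x => ∏ i ∈ S, F.Ga hk1 a i x)]
  · refine prod_eq_one fun a _ => ?_
    exact Blk.key _ _ _ k (F.Mf_pos _ _) (fun i m _ => F.hk _ _) S hS
  · intro a _
    exact Finset.measurable_fun_prod _ fun i _ => (Blk.G_nice _ _ _ _).1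

/-! ### the random set -/

abbrev Om := Om1 × (ℕ → unitInterval)

noncomputable def P2 : Measure (ℕ → unitInterval) := Measure.infinitePi fun _ => volume

instance : IsProbabilityMeasure P2 := by
  unfold P2
  infer_instance

noncomputable def P : Measure Om := F.P1.prod P2

instance : IsProbabilityMeasure F.P := by
  unfold P
  infer_instance

/-- the event `m ∈ A` -/
def E (m : ℕ) : Set Om := {ω | ((ω.2 m : unitInterval) : ℝ) < (Real.log m)⁻¹ * F.GG hk1 ω.1 m}

theorem E_meas (m : ℕ) : MeasurableSet (F.E hk1 m) := by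
  unfold E
  apply measurableSet_lt
  · exact measurable_subtype_coe.comp ((measurable_pi_apply m).comp measurable_snd)
  · exact ((F.GG_meas hk1 m).comp measurable_fst).const_mul _

theorem vol_lt (c : ℝ) (h0 : 0 ≤ c) (h1 : c ≤ 1) :
    volume {b : unitInterval | (b : ℝ) < c} = ENNReal.ofReal c := by
  have h2 := unitInterval.volume_Iio (⟨c, h0, h1⟩ : unitInterval)
  have e : Set.Iio (⟨c, h0, h1⟩ : unitInterval) = {b : unitInterval | (b : ℝ) < c} := by
    ext b
    rw [Set.mem_Iio, ← Subtype.coe_lt_coe]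
    rfl
  rw [e] at h2
  exact h2

theorem order (T : Finset ℕ) (hT : ∀ m ∈ T, 3 ≤ m) (h3 : T.card < 2 * k) :
    F.P (⋂ m ∈ T, F.E hk1 m) = ENNReal.ofReal (∏ m ∈ T, (Real.log m)⁻¹) := by
  have hmeas : MeasurableSet (⋂ m ∈ T, F.E hk1 m) := T.measurableSet_biInter fun m _ => F.E_meas hk1 m
  unfold P
  rw [Measure.prod_apply hmeas]
  have hc : ∀ ω : Om1, ∀ m ∈ T, 0 ≤ (Real.log m)⁻¹ * F.GG hk1 ω m ∧ (Real.log m)⁻¹ * F.GG hk1 ω m ≤ 1 := by
    intro ω m hm
    have h4 : 0 < Real.log m := by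
      apply Real.log_pos
      exact_mod_cast (by have := hT m hm; omega : 1 < m)
    refine ⟨mul_nonneg (inv_nonneg.2 h4.le) (F.GG_nonneg hk1 ω m), ?_⟩
    rw [inv_mul_le_iff₀ h4, mul_one]
    exact F.GG_le hk1 ω m (hT m hm)
  have e1 : ∀ ω : Om1, P2 (Prod.mk ω ⁻¹' ⋂ m ∈ T, F.E hk1 m) =
      ENNReal.ofReal (∏ m ∈ T, ((Real.log m)⁻¹ * F.GG hk1 ω m)) := by
    intro ω
    have e2 : (Prod.mk ω ⁻¹' ⋂ m ∈ T, F.E hk1 m) =
        Set.pi (T : Set ℕ) fun m => {b : unitInterval | (b : ℝ) < (Real.log m)⁻¹ * F.GG hk1 ω m} := by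
      ext b
      simp only [Set.mem_preimage, Set.mem_iInter, Set.mem_pi, Finset.mem_coe, E, Set.mem_ofPred_eq]
    rw [e2]
    unfold P2
    rw [Measure.infinitePi_pi _ fun m _ => measurableSet_lt measurable_subtype_coe measurable_const,
      ENNReal.ofReal_prod_of_nonneg fun m hm => (hc ω m hm).1]
    exact prod_congr rfl fun m hm => vol_lt _ (hc ω m hm).1 (hc ω m hm).2
  rw [lintegral_congr e1, ← ofReal_integral_eq_lintegral_ofReal]
  · congr 1
    simp_rw [prod_mul_distrib]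
    rw [integral_const_mul, F.E_GG hk1 T h3, mul_one]
  · refine Integrable.of_bound (Finset.measurable_fun_prod _ fun m _ => (F.GG_meas hk1 m).const_mul _).aestronglyMeasurable 1
      (ae_of_all _ fun ω => ?_)
    rw [Real.norm_eq_abs, abs_of_nonneg (prod_nonneg fun m hm => (hc ω m hm).1)]
    exact prod_le_one (fun m hm => (hc ω m hm).1) (fun m hm => (hc ω m hm).2)
  · exact ae_of_all _ fun ω => prod_nonneg fun m hm => (hc ω m hm).1

theorem modes (p : ℕ) : ∀ᵐ ω ∂F.P1, ∀ᶠ j in atTop, (ω (p, j)).1 = false := by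
  obtain ⟨t, ht⟩ : ∃ t : ℕ → Set Om1, t = fun j => {ω | (ω (p, j)).1 = true} := ⟨_, rfl⟩
  have h1 : ∀ j, F.P1 (t j) = ENNReal.ofReal ((1 / 2 : ℝ) ^ j) := by
    intro j
    have e : t j = Set.pi (({(p, j)} : Finset (ℕ × ℕ)) : Set (ℕ × ℕ)) fun _ => {x : B0 | x.1 = true} := by
      rw [ht]
      ext ω
      simp
    rw [e]
    unfold P1
    have hm : MeasurableSet {x : B0 | x.1 = true} := measurable_fst (measurableSet_singleton true)
    rw [Measure.infinitePi_pi _ fun a _ => hm, prod_singleton, blkL_true]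
  have h2 : ∑' j, F.P1 (t j) ≠ ∞ := by
    simp_rw [h1]
    have hs : Summable fun j : ℕ => (1 / 2 : ℝ) ^ j := summable_geometric_of_lt_one (by norm_num) (by norm_num)
    exact hs.tsum_ofReal_ne_top
  filter_upwards [ae_eventually_notMem h2] with ω hω
  filter_upwards [hω] with j hj
  rw [ht] at hj
  simpa using hj

include hk1 in
theorem al_tendsto (p : ℕ) : Tendsto (F.al p) atTop atTop := by
  rw [tendsto_atTop]
  intro N
  have h1 : {m | ¬ N ≤ F.al p m}.Finite := by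
    apply ((range N).biUnion (F.D p)).finite_toSet.subset
    intro m hm
    rw [Set.mem_ofPred_eq] at hm
    rw [Finset.mem_coe, mem_biUnion]
    exact ⟨F.al p m, mem_range.2 (by omega), (F.hD p _ m).2 (F.al_mem hk1 p m)⟩
  rw [← Nat.cofinite_eq_atTop]
  exact h1

/-- **almost surely each family has only finitely many edges in the random set** -/
theorem finite_edges (p : ℕ) : ∀ᵐ ω ∂F.P, {m | ∀ i ∈ F.T p m, ω ∈ F.E hk1 i}.Finite := by
  have h1 : ∀ᵐ ω ∂F.P, ∀ᶠ j in atTop, (ω.1 (p, j)).1 = false := by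
    unfold P
    exact Measure.quasiMeasurePreserving_fst.ae (F.modes p)
  filter_upwards [h1] with ω hω
  have h2 : Tendsto (fun m => F.f (F.al p m)) atTop atTop := F.f_tendsto.comp (F.al_tendsto hk1 p)
  obtain ⟨N, hN⟩ := eventually_atTop.1 ((h2.eventually hω).and (h2.eventually (eventually_gt_atTop p)))
  apply (Set.finite_lt_nat N).subset
  intro m hm
  rw [Set.mem_ofPred_eq] at hm ⊢
  by_contra hc
  push Not at hc
  obtain ⟨a1, a2⟩ := hN m hc
  obtain ⟨j, hj⟩ : ∃ j, j = F.f (F.al p m) := ⟨_, rfl⟩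
  rw [← hj] at a1 a2
  have hmD : m ∈ (F.blk hk1 p j).D ((F.blk hk1 p j).al m) := by
    unfold blk
    rw [mem_filter]
    exact ⟨(F.hD p _ m).2 (F.al_mem hk1 p m), hj.symm, a2⟩
  obtain ⟨i, hi, hz⟩ := (F.blk hk1 p j).zero0 m hmD (ω.1 (p, j)).2.1
  have hi' : i ∈ F.T p m := hi
  have hfi : F.f (F.al p m) ≤ F.f i := F.f_mono (F.al_le p m i hi')
  have hG : F.GG hk1 ω.1 i = 0 := by
    unfold GG
    apply prod_eq_zero (i := (p, j))
    · rw [mem_product, mem_range, mem_range]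
      simp only
      omega
    · unfold Ga Blk.G
      simp only
      rw [a1]
      simp only [Bool.false_eq_true, if_false]
      exact hz
  have hE := hm i hi'
  unfold E at hE
  rw [Set.mem_ofPred_eq, hG, mul_zero] at hE
  have := (ω.2 i).2.1
  linarith

end Fam

end Pool.Agent.H49.PT
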