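import Pool.Agent.H49.D.TE

set_option autoImplicit false

/-! Patterns in random sets, order `2 k`. -/

namespace Pool.Agent.H49.PT

open Finset MeasureTheory Filter Topology
open scoped ENNReal
open Pool.Agent.H49.TW (Model)

variable {Ω : Type} [MeasurableSpace Ω] {μ : Measure Ω} [IsProbabilityMeasure μ] {A : ℕ → Set Ω} {k : ℕ}

/-- the event that the whole pattern lies in the random set -/
def Q (A : ℕ → Set Ω) (g : Fin k → ℕ → ℕ) (m : ℕ) : Set Ω := ⋂ j, A (g j m)

/-- its probability -/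
noncomputable def q (g : Fin k → ℕ → ℕ) (m : ℕ) : ℝ := ∏ j, 1 / Real.log (g j m)

/-- good patterns -/
structure Good (g : Fin k → ℕ → ℕ) (I : Finset ℕ) : Prop where
  h3 : ∀ m ∈ I, ∀ j, 3 ≤ g j m
  inj1 : ∀ m ∈ I, Function.Injective fun j => g j m
  inj2 : ∀ j, ∀ m ∈ I, ∀ m' ∈ I, g j m = g j m' → m = m'

theorem q_pos {g : Fin k → ℕ → ℕ} {I : Finset ℕ} (hg : Good g I) {m : ℕ} (hm : m ∈ I) : 0 < q g m := by
  unfold q
  refine prod_pos fun j _ => ?_
  have h1 : 0 < Real.log (g j m) := Real.log_pos (by exact_mod_cast (by have := hg.h3 m hm j; omega : 1 < g j m))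
  positivity

theorem q_le {g : Fin k → ℕ → ℕ} {I : Finset ℕ} (hg : Good g I) {m : ℕ} (hm : m ∈ I) : q g m ≤ 1 := by
  unfold q
  refine prod_le_one (fun j _ => ?_) (fun j _ => ?_)
  · have h1 : 0 < Real.log (g j m) := Real.log_pos (by exact_mod_cast (by have := hg.h3 m hm j; omega : 1 < g j m))
    positivity
  · have h3 := hg.h3 m hm j
    have h1 : 1 ≤ Real.log (g j m) := by
      rw [Real.le_log_iff_exp_le (by exact_mod_cast (by omega : 0 < g j m))]
      have : (3 : ℝ) ≤ g j m := by exact_mod_cast h3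
      linarith [Real.exp_one_lt_three]
    rw [div_le_one (by linarith)]
    exact h1

omit [IsProbabilityMeasure μ] in
theorem Q_meas (hA : Model (2 * k) μ A) (g : Fin k → ℕ → ℕ) (m : ℕ) : MeasurableSet (Q A g m) :=
  MeasurableSet.iInter fun j => hA.meas _

omit [IsProbabilityMeasure μ] in
theorem Q_real (hA : Model (2 * k) μ A) {g : Fin k → ℕ → ℕ} {I : Finset ℕ} (hg : Good g I) {m : ℕ} (hm : m ∈ I) :
    μ.real (Q A g m) = q g m := by
  have h1 := hA.ind (univ.image fun j => g j m) (by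
    intro x hx
    rw [mem_image] at hx
    obtain ⟨j, _, rfl⟩ := hx
    exact hg.h3 m hm j) (by
    refine card_image_le.trans ?_
    rw [card_univ, Fintype.card_fin]
    omega)
  rw [prod_image fun a _ c _ hac => hg.inj1 m hm hac] at h1
  rw [q, ← h1]
  congr 1
  ext ω
  simp [Q]

theorem QQ_real (hA : Model (2 * k) μ A) {g : Fin k → ℕ → ℕ} {I : Finset ℕ} (hg : Good g I) {m l : ℕ} (hm : m ∈ I)
    (hl : l ∈ I) : μ.real (Q A g m ∩ Q A g l) ≤ q g m * q g l + if (∃ j j', g j m = g j' l) then q g m else 0 := by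
  by_cases hc : ∃ j j', g j m = g j' l
  · rw [if_pos hc]
    have h1 : μ.real (Q A g m ∩ Q A g l) ≤ q g m := by
      rw [← Q_real hA hg hm]
      exact measureReal_mono Set.inter_subset_left
    have h2 := q_pos hg hm
    have h3 := q_pos hg hl
    nlinarith
  · rw [if_neg hc, add_zero]
    push Not at hc
    have hd : Disjoint (univ.image fun j => g j m) (univ.image fun j => g j l) := by
      rw [disjoint_left]
      intro x hx hx2
      rw [mem_image] at hx hx2
      obtain ⟨j, _, h1⟩ := hx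
      obtain ⟨j', _, h2⟩ := hx2
      exact hc j j' (h1.trans h2.symm)
    have h1 := hA.ind ((univ.image fun j => g j m) ∪ univ.image fun j => g j l) (by
      intro x hx
      rw [mem_union, mem_image, mem_image] at hx
      rcases hx with ⟨j, _, rfl⟩ | ⟨j, _, rfl⟩
      · exact hg.h3 m hm j
      · exact hg.h3 l hl j) (by
      refine (card_union_le _ _).trans ?_
      have h1 : (univ.image fun j => g j m).card ≤ k := card_image_le.trans (by rw [card_univ, Fintype.card_fin])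
      have h2 : (univ.image fun j => g j l).card ≤ k := card_image_le.trans (by rw [card_univ, Fintype.card_fin])
      omega)
    rw [prod_union hd, prod_image fun a _ c _ hac => hg.inj1 m hm hac, prod_image fun a _ c _ hac => hg.inj1 l hl hac] at h1
    have e : (⋂ x ∈ (univ.image fun j => g j m) ∪ univ.image fun j => g j l, A x) = Q A g m ∩ Q A g l := by
      ext ω
      simp only [Set.mem_iInter, mem_union, mem_image, mem_univ, true_and, Set.mem_inter_iff, Q]
      constructor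
      · intro h
        exact ⟨fun j => h _ (Or.inl ⟨j, rfl⟩), fun j => h _ (Or.inr ⟨j, rfl⟩)⟩
      · rintro ⟨h1, h2⟩ x (⟨j, rfl⟩ | ⟨j, rfl⟩)
        · exact h1 j
        · exact h2 j
    rw [e] at h1
    rw [h1]
    unfold q
    exact le_rfl

/-- the number of patterns -/
noncomputable def TT (A : ℕ → Set Ω) (g : Fin k → ℕ → ℕ) (I : Finset ℕ) (ω : Ω) : ℝ :=
  ∑ m ∈ I, (Q A g m).indicator 1 ω

/-- the expected number of patterns -/
noncomputable def la (g : Fin k → ℕ → ℕ) (I : Finset ℕ) : ℝ := ∑ m ∈ I, q g m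

theorem ind_int {s : Set Ω} (hs : MeasurableSet s) : Integrable (s.indicator (1 : Ω → ℝ)) μ :=
  (integrable_const (1 : ℝ)).indicator hs

theorem TT_int (hA : Model (2 * k) μ A) (g : Fin k → ℕ → ℕ) (I : Finset ℕ) : Integrable (TT A g I) μ := by
  unfold TT
  exact integrable_finsetSum _ fun m _ => ind_int (Q_meas hA g m)

theorem E_TT (hA : Model (2 * k) μ A) {g : Fin k → ℕ → ℕ} {I : Finset ℕ} (hg : Good g I) :
    ∫ ω, TT A g I ω ∂μ = la g I := by
  unfold TT la
  rw [integral_finsetSum _ fun m _ => ind_int (Q_meas hA g m)]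
  refine sum_congr rfl fun m hm => ?_
  rw [integral_indicator_one (Q_meas hA g m), Q_real hA hg hm]

theorem overlap {g : Fin k → ℕ → ℕ} {I : Finset ℕ} (hg : Good g I) (m : ℕ) :
    (I.filter fun l => ∃ j j', g j m = g j' l).card ≤ k * k := by
  have h1 : (I.filter fun l => ∃ j j', g j m = g j' l) ⊆
      (univ : Finset (Fin k × Fin k)).biUnion fun x => I.filter fun l => g x.1 m = g x.2 l := by
    intro l hl
    rw [mem_filter] at hl
    obtain ⟨h2, j, j', h3⟩ := hl
    rw [mem_biUnion]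
    exact ⟨(j, j'), mem_univ _, mem_filter.2 ⟨h2, h3⟩⟩
  refine (card_le_card h1).trans ((card_biUnion_le_card_mul _ _ 1 fun x _ => ?_).trans ?_)
  · rw [card_le_one]
    intro a ha c hc
    rw [mem_filter] at ha hc
    exact hg.inj2 x.2 a ha.1 c hc.1 (ha.2.symm.trans hc.2)
  · rw [card_univ, Fintype.card_prod, Fintype.card_fin, mul_one]

theorem E_TT2 (hA : Model (2 * k) μ A) {g : Fin k → ℕ → ℕ} {I : Finset ℕ} (hg : Good g I) :
    Integrable (fun ω => TT A g I ω ^ 2) μ ∧ ∫ ω, TT A g I ω ^ 2 ∂μ ≤ la g I ^ 2 + (k * k : ℕ) * la g I := by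
  have e1 : ∀ ω, TT A g I ω ^ 2 = ∑ m ∈ I, ∑ l ∈ I, (Q A g m ∩ Q A g l).indicator (1 : Ω → ℝ) ω := by
    intro ω
    rw [sq]
    unfold TT
    rw [sum_mul_sum]
    refine sum_congr rfl fun m _ => sum_congr rfl fun l _ => ?_
    rw [Set.inter_indicator_one]
    rfl
  have i1 : ∀ m ∈ I, ∀ l ∈ I, Integrable (fun ω => (Q A g m ∩ Q A g l).indicator (1 : Ω → ℝ) ω) μ :=
    fun m _ l _ => ind_int ((Q_meas hA g m).inter (Q_meas hA g l))
  have i2 : ∀ m ∈ I, Integrable (fun ω => ∑ l ∈ I, (Q A g m ∩ Q A g l).indicator (1 : Ω → ℝ) ω) μ :=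
    fun m hm => integrable_finsetSum _ fun l hl => i1 m hm l hl
  refine ⟨?_, ?_⟩
  · simp_rw [e1]
    exact integrable_finsetSum _ i2
  · simp_rw [e1]
    rw [integral_finsetSum _ i2]
    have e2 : ∀ m ∈ I, ∫ ω, ∑ l ∈ I, (Q A g m ∩ Q A g l).indicator (1 : Ω → ℝ) ω ∂μ ≤
        q g m * la g I + (k * k : ℕ) * q g m := by
      intro m hm
      rw [integral_finsetSum _ fun l hl => i1 m hm l hl]
      have e3 : ∀ l ∈ I, ∫ ω, (Q A g m ∩ Q A g l).indicator (1 : Ω → ℝ) ω ∂μ ≤
          q g m * q g l + if (∃ j j', g j m = g j' l) then q g m else 0 := by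
        intro l hl
        rw [integral_indicator_one ((Q_meas hA g m).inter (Q_meas hA g l))]
        exact QQ_real hA hg hm hl
      refine (sum_le_sum e3).trans ?_
      rw [sum_add_distrib, ← mul_sum, ← sum_filter, sum_const, nsmul_eq_mul]
      refine add_le_add le_rfl (mul_le_mul_of_nonneg_right ?_ (q_pos hg hm).le)
      exact_mod_cast overlap hg m
    refine (sum_le_sum e2).trans (le_of_eq ?_)
    rw [sum_add_distrib, ← sum_mul, ← mul_sum]
    unfold la
    ring

theorem cheb (hA : Model (2 * k) μ A) {g : Fin k → ℕ → ℕ} {I : Finset ℕ} (hg : Good g I) (η : ℝ) (hη : 0 < η)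
    (hla : 0 < la g I) : μ {ω | η * la g I ≤ |TT A g I ω - la g I|} ≤
      ENNReal.ofReal ((k * k : ℕ) / η ^ 2 * (la g I)⁻¹) := by
  obtain ⟨L, hL⟩ : ∃ L, L = la g I := ⟨_, rfl⟩
  obtain ⟨i2, b2⟩ := E_TT2 hA hg
  have i1 := TT_int hA g I
  have b1 := E_TT hA hg
  rw [← hL] at b2 b1 hla ⊢
  have e : (fun ω => (TT A g I ω - L) ^ 2) = fun ω => TT A g I ω ^ 2 - 2 * L * TT A g I ω + L ^ 2 := by
    funext ω
    ring
  have i4 : Integrable (fun ω => 2 * L * TT A g I ω) μ := i1.const_mul _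
  have i5 : Integrable (fun ω => TT A g I ω ^ 2 - 2 * L * TT A g I ω) μ := i2.sub i4
  have i3 : Integrable (fun ω => (TT A g I ω - L) ^ 2) μ := by
    rw [e]
    exact i5.add (integrable_const _)
  have b3 : ∫ ω, (TT A g I ω - L) ^ 2 ∂μ ≤ (k * k : ℕ) * L := by
    rw [e, integral_add i5 (integrable_const _), integral_sub i2 i4, integral_const_mul, b1]
    simp only [integral_const, probReal_univ, smul_eq_mul, one_mul]
    linarith
  have h1 := mul_meas_ge_le_integral_of_nonneg (ae_of_all μ fun ω => sq_nonneg (TT A g I ω - L)) i3 ((η * L) ^ 2)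
  have h2 : {ω | η * L ≤ |TT A g I ω - L|} ⊆ {ω | (η * L) ^ 2 ≤ (TT A g I ω - L) ^ 2} := by
    intro ω hω
    rw [Set.mem_ofPred_eq] at hω ⊢
    rw [← sq_abs (TT A g I ω - L)]
    exact pow_le_pow_left₀ (by positivity) hω 2
  refine (measure_mono h2).trans ?_
  rw [← ENNReal.ofReal_toReal (measure_ne_top μ {ω | (η * L) ^ 2 ≤ (TT A g I ω - L) ^ 2})]
  apply ENNReal.ofReal_le_ofReal
  have h3 : (μ {ω | (η * L) ^ 2 ≤ (TT A g I ω - L) ^ 2}).toReal = μ.real {ω | (η * L) ^ 2 ≤ (TT A g I ω - L) ^ 2} := rfl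
  rw [h3]
  have h4 : (η * L) ^ 2 * μ.real {ω | (η * L) ^ 2 ≤ (TT A g I ω - L) ^ 2} ≤ (k * k : ℕ) * L := h1.trans b3
  have h5 : ((k * k : ℕ) : ℝ) / η ^ 2 * L⁻¹ = (k * k : ℕ) * L / (η * L) ^ 2 := by
    field_simp
  rw [h5, le_div_iff₀ (by positivity)]
  linarith

/-- Borel–Cantelli -/
theorem conv (hA : Model (2 * k) μ A) (g : Fin k → ℕ → ℕ) (I : ℕ → Finset ℕ) (hg : ∀ n, Good g (I n))
    (hpos : ∀ n, 0 < la g (I n)) (hs : Summable fun n => (la g (I n))⁻¹) :
    ∀ᵐ ω ∂μ, Tendsto (fun n => TT A g (I n) ω / la g (I n)) atTop (𝓝 1) := by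
  have h1 : ∀ r : ℕ, ∀ᵐ ω ∂μ, ∀ᶠ n in atTop, ¬ ((1 / ((r : ℝ) + 1)) * la g (I n) ≤ |TT A g (I n) ω - la g (I n)|) := by
    intro r
    have hr : 0 < 1 / ((r : ℝ) + 1) := by positivity
    have h2 : ∑' n, μ {ω | (1 / ((r : ℝ) + 1)) * la g (I n) ≤ |TT A g (I n) ω - la g (I n)|} ≠ ∞ := by
      refine ne_top_of_le_ne_top (hs.mul_left (((k * k : ℕ) : ℝ) / (1 / ((r : ℝ) + 1)) ^ 2)).tsum_ofReal_ne_top
        (ENNReal.tsum_le_tsum fun n => ?_)
      exact cheb hA (hg n) _ hr (hpos n)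
    filter_upwards [ae_eventually_notMem h2] with ω hω
    filter_upwards [hω] with n hn
    exact hn
  filter_upwards [ae_all_iff.2 h1] with ω hω
  rw [Metric.tendsto_atTop]
  intro ε hε
  obtain ⟨r, hr⟩ := exists_nat_one_div_lt hε
  obtain ⟨N, hN⟩ := eventually_atTop.1 (hω r)
  refine ⟨N, fun n hn => ?_⟩
  have h3 := hN n hn
  push Not at h3
  have h4 := hpos n
  rw [Real.dist_eq]
  have e : TT A g (I n) ω / la g (I n) - 1 = (TT A g (I n) ω - la g (I n)) / la g (I n) := by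
    field_simp
  rw [e, abs_div, abs_of_pos h4, div_lt_iff₀ h4]
  exact h3.trans_le (mul_le_mul_of_nonneg_right hr.le h4.le)

end Pool.Agent.H49.PT
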