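import Pool.Agent.H49.D.SF

set_option autoImplicit false

/-! Patterns in random sets, order `2 k`: asymptotics. -/

namespace Pool.Agent.H49.PT

open Finset MeasureTheory Filter Topology
open scoped ENNReal
open Pool.Agent.H49.TW (Model)

theorem tl : Tendsto (fun N : ℕ => Real.log N) atTop atTop := Real.tendsto_log_atTop.comp tendsto_natCast_atTop_atTop

theorem tp (j : ℕ) : Tendsto (fun N : ℕ => Real.log N ^ j / N) atTop (𝓝 0) :=
  ((Real.isLittleO_pow_log_id_atTop (n := j)).tendsto_div_nhds_zero).comp tendsto_natCast_atTop_atTop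

/-- patterns of linear growth -/
structure Lin {k : ℕ} (g : Fin k → ℕ → ℕ) (m0 C : ℕ) : Prop where
  m1 : 1 ≤ m0
  c1 : 1 ≤ C
  h3 : ∀ m, m0 ≤ m → ∀ j, 3 ≤ g j m
  inj1 : ∀ m, m0 ≤ m → Function.Injective fun j => g j m
  inj2 : ∀ j m m', m0 ≤ m → m0 ≤ m' → g j m = g j m' → m = m'
  lo : ∀ j m, m0 ≤ m → m ≤ C * g j m
  up : ∀ j m, m0 ≤ m → g j m ≤ C * m

variable {k : ℕ} {g : Fin k → ℕ → ℕ} {m0 C : ℕ}

theorem Lin.good (h : Lin g m0 C) (N : ℕ) : Good g (Ico m0 N) where
  h3 := fun m hm j => h.h3 m (mem_Ico.1 hm).1 j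
  inj1 := fun m hm => h.inj1 m (mem_Ico.1 hm).1
  inj2 := fun j m hm m' hm' e => h.inj2 j m m' (mem_Ico.1 hm).1 (mem_Ico.1 hm').1 e

theorem la_lower (h : Lin g m0 C) (N : ℕ) (hN : m0 < N) :
    ((N : ℝ) - m0) * (1 / Real.log ((C : ℝ) * N)) ^ k ≤ la g (Ico m0 N) := by
  have e : ((N : ℝ) - m0) = ((Ico m0 N).card : ℝ) := by
    rw [Nat.card_Ico, Nat.cast_sub hN.le]
  unfold la
  rw [e, ← nsmul_eq_mul, ← sum_const]
  refine sum_le_sum fun m hm => ?_
  rw [mem_Ico] at hm
  unfold q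
  have e2 : (1 / Real.log ((C : ℝ) * N)) ^ k = ∏ _j : Fin k, (1 / Real.log ((C : ℝ) * N)) := by
    rw [prod_const, card_univ, Fintype.card_fin]
  rw [e2]
  have hC : (1 : ℝ) ≤ C := by exact_mod_cast h.c1
  have hg3 : ∀ j, (3 : ℝ) ≤ g j m := fun j => by exact_mod_cast h.h3 m hm.1 j
  have hgN : ∀ j, (g j m : ℝ) ≤ C * N := fun j => by
    have h1 := (h.up j m hm.1).trans (Nat.mul_le_mul_left C hm.2.le)
    exact_mod_cast h1
  refine prod_le_prod (fun j _ => ?_) (fun j _ => ?_)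
  · have : 0 < Real.log ((C : ℝ) * N) := Real.log_pos (by linarith [hg3 j, hgN j])
    positivity
  · apply one_div_le_one_div_of_le
    · exact Real.log_pos (by linarith [hg3 j])
    · exact Real.log_le_log (by linarith [hg3 j]) (hgN j)

theorem la_upper (h : Lin g m0 C) (N : ℕ) (y : ℝ) (hy : 0 ≤ y) (hyC : 1 < y / C) :
    la g (Ico m0 N) ≤ y + N * (1 / Real.log (y / C)) ^ k := by
  have hC : (1 : ℝ) ≤ C := by exact_mod_cast h.c1
  have hly : 0 < Real.log (y / C) := Real.log_pos hyC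
  have h1 : la g (Ico m0 N) = ∑ m ∈ (Ico m0 N).filter (fun m : ℕ => (m : ℝ) < y), q g m +
      ∑ m ∈ (Ico m0 N).filter (fun m : ℕ => ¬ (m : ℝ) < y), q g m := by
    unfold la
    exact (sum_filter_add_sum_filter_not _ _ _).symm
  rw [h1]
  apply add_le_add
  · calc ∑ m ∈ (Ico m0 N).filter (fun m : ℕ => (m : ℝ) < y), q g m ≤
          ∑ m ∈ (Ico m0 N).filter (fun m : ℕ => (m : ℝ) < y), (1 : ℝ) := by
          refine sum_le_sum fun m hm => ?_
          rw [mem_filter] at hm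
          exact q_le (h.good N) hm.1
      _ = (((Ico m0 N).filter (fun m : ℕ => (m : ℝ) < y)).card : ℝ) := by simp
      _ ≤ ((Icc 1 ⌊y⌋₊).card : ℝ) := by
          have h2 : (Ico m0 N).filter (fun m : ℕ => (m : ℝ) < y) ⊆ Icc 1 ⌊y⌋₊ := by
            intro m hm
            rw [mem_filter, mem_Ico] at hm
            rw [mem_Icc]
            exact ⟨h.m1.trans hm.1.1, Nat.le_floor hm.2.le⟩
          exact_mod_cast card_le_card h2
      _ ≤ y := by
          rw [Nat.card_Icc, Nat.add_sub_cancel]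
          exact Nat.floor_le hy
  · calc ∑ m ∈ (Ico m0 N).filter (fun m : ℕ => ¬ (m : ℝ) < y), q g m ≤
          ∑ m ∈ (Ico m0 N).filter (fun m : ℕ => ¬ (m : ℝ) < y), (1 / Real.log (y / C)) ^ k := by
          refine sum_le_sum fun m hm => ?_
          rw [mem_filter, mem_Ico] at hm
          unfold q
          have e2 : (1 / Real.log (y / C)) ^ k = ∏ _j : Fin k, (1 / Real.log (y / C)) := by
            rw [prod_const, card_univ, Fintype.card_fin]
          rw [e2]
          have hym : ∀ j, y / C ≤ g j m := by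
            intro j
            rw [div_le_iff₀ (by linarith)]
            have h3 : (m : ℝ) ≤ C * g j m := by exact_mod_cast h.lo j m hm.1.1
            have h4 := not_lt.1 hm.2
            linarith
          refine prod_le_prod (fun j _ => ?_) (fun j _ => ?_)
          · have : 0 < Real.log (g j m) := Real.log_pos (by linarith [hym j])
            positivity
          · exact one_div_le_one_div_of_le hly (Real.log_le_log (by linarith) (hym j))
      _ = (((Ico m0 N).filter (fun m : ℕ => ¬ (m : ℝ) < y)).card : ℝ) * (1 / Real.log (y / C)) ^ k := by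
          rw [sum_const, nsmul_eq_mul]
      _ ≤ _ := by
          apply mul_le_mul_of_nonneg_right _ (by positivity)
          have h2 : ((Ico m0 N).filter (fun m : ℕ => ¬ (m : ℝ) < y)).card ≤ N :=
            (card_filter_le _ _).trans (by rw [Nat.card_Ico]; omega)
          exact_mod_cast h2

theorem la_tendsto (h : Lin g m0 C) : Tendsto (fun N : ℕ => la g (Ico m0 N) * Real.log N ^ k / N) atTop (𝓝 1) := by
  have hC : (1 : ℝ) ≤ C := by exact_mod_cast h.c1
  have hinv : Tendsto (fun N : ℕ => (Real.log N)⁻¹) atTop (𝓝 0) := tendsto_inv_atTop_zero.comp tl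
  have hNinv : Tendsto (fun N : ℕ => ((N : ℝ))⁻¹) atTop (𝓝 0) := tendsto_inv_atTop_zero.comp tendsto_natCast_atTop_atTop
  have h1 : Tendsto (fun N : ℕ => Real.log N / Real.log ((C : ℝ) * N)) atTop (𝓝 1) := by
    have h1 := (hinv.const_mul (Real.log C)).add_const 1
    rw [mul_zero, zero_add] at h1
    have h2 := h1.inv₀ one_ne_zero
    rw [inv_one] at h2
    refine h2.congr' ?_
    filter_upwards [eventually_gt_atTop 0, tl.eventually (eventually_gt_atTop 0)] with N h3 h4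
    have hN0 : (0 : ℝ) < N := by exact_mod_cast h3
    rw [Real.log_mul (by linarith) hN0.ne']
    have h5 : 0 ≤ Real.log C := Real.log_nonneg hC
    field_simp
  have h2 : Tendsto (fun N : ℕ => Real.log N / Real.log (N / Real.log N ^ (k + 1) / C)) atTop (𝓝 1) := by
    have h0 : Tendsto (fun x : ℝ => Real.log x / x) atTop (𝓝 0) := Real.isLittleO_log_id_atTop.tendsto_div_nhds_zero
    have h1 := ((h0.comp tl).const_mul (((k + 1 : ℕ) : ℝ))).add (hinv.const_mul (Real.log C))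
    rw [mul_zero, mul_zero, add_zero] at h1
    have h2 := ((tendsto_const_nhds (x := (1 : ℝ))).sub h1).inv₀ (by norm_num)
    rw [sub_zero, inv_one] at h2
    refine h2.congr' ?_
    filter_upwards [eventually_gt_atTop 0, tl.eventually (eventually_gt_atTop 0)] with N h3 h4
    have hN0 : (0 : ℝ) < N := by exact_mod_cast h3
    rw [Real.log_div (by positivity) (by linarith), Real.log_div hN0.ne' (by positivity), Real.log_pow]
    simp only [Function.comp]
    rw [← inv_div]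
    congr 1
    field_simp
    ring
  have hlo : Tendsto (fun N : ℕ => (1 - (m0 : ℝ) * (N : ℝ)⁻¹) * (Real.log N / Real.log ((C : ℝ) * N)) ^ k) atTop (𝓝 1) := by
    have h3 := ((tendsto_const_nhds (x := (1 : ℝ))).sub (hNinv.const_mul (m0 : ℝ))).mul (h1.pow k)
    rw [mul_zero, sub_zero, one_pow, mul_one] at h3
    exact h3
  have hup : Tendsto (fun N : ℕ => (Real.log N)⁻¹ + (Real.log N / Real.log (N / Real.log N ^ (k + 1) / C)) ^ k)
      atTop (𝓝 1) := by
    have h3 := hinv.add (h2.pow k)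
    rw [one_pow, zero_add] at h3
    exact h3
  refine tendsto_of_tendsto_of_tendsto_of_le_of_le' hlo hup ?_ ?_
  · filter_upwards [eventually_gt_atTop m0, eventually_ge_atTop 2] with N h3 h4
    have hN2 : (2 : ℝ) ≤ N := by exact_mod_cast h4
    have hN0 : (0 : ℝ) < N := by linarith
    have hl : 0 < Real.log N := Real.log_pos (by linarith)
    have h5 := la_lower h N h3
    have e : (1 - (m0 : ℝ) * (N : ℝ)⁻¹) * (Real.log N / Real.log ((C : ℝ) * N)) ^ k =
        ((N : ℝ) - m0) * (1 / Real.log ((C : ℝ) * N)) ^ k * Real.log N ^ k / N := by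
      rw [div_pow, one_div, inv_pow]
      field_simp
    rw [e]
    apply div_le_div_of_nonneg_right _ hN0.le
    exact mul_le_mul_of_nonneg_right h5 (by positivity)
  · have hC0 : 0 < 1 / (C : ℝ) := by positivity
    filter_upwards [eventually_ge_atTop 2, (tp (k + 1)).eventually (gt_mem_nhds hC0)] with N h4 h5
    have hN2 : (2 : ℝ) ≤ N := by exact_mod_cast h4
    have hN0 : (0 : ℝ) < N := by linarith
    have hl : 0 < Real.log N := Real.log_pos (by linarith)
    have hyC : 1 < N / Real.log N ^ (k + 1) / C := by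
      rw [lt_div_iff₀ (by linarith), one_mul, lt_div_iff₀ (by positivity)]
      rw [div_lt_div_iff₀ hN0 (by linarith)] at h5
      linarith
    have h6 := la_upper h N (N / Real.log N ^ (k + 1)) (by positivity) hyC
    have hly : 0 < Real.log (N / Real.log N ^ (k + 1) / C) := Real.log_pos hyC
    have e : (Real.log N)⁻¹ + (Real.log N / Real.log (N / Real.log N ^ (k + 1) / C)) ^ k =
        (N / Real.log N ^ (k + 1) + N * (1 / Real.log (N / Real.log N ^ (k + 1) / C)) ^ k) * Real.log N ^ k / N := by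
      rw [div_pow (Real.log N), one_div, inv_pow, pow_succ]
      field_simp
    rw [e]
    apply div_le_div_of_nonneg_right _ hN0.le
    exact mul_le_mul_of_nonneg_right h6 (by positivity)

theorem la_pos_ev (h : Lin g m0 C) : ∀ᶠ N : ℕ in atTop, (N : ℝ) ≤ 2 * (la g (Ico m0 N) * Real.log N ^ k) ∧
    0 < la g (Ico m0 N) := by
  filter_upwards [(la_tendsto h).eventually (lt_mem_nhds (by norm_num : (1 / 2 : ℝ) < 1)), eventually_ge_atTop 2] with N h1 h2
  have hN2 : (2 : ℝ) ≤ N := by exact_mod_cast h2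
  have hN0 : (0 : ℝ) < N := by linarith
  have hl : 0 < Real.log N := Real.log_pos (by linarith)
  rw [lt_div_iff₀ hN0] at h1
  refine ⟨by linarith, ?_⟩
  by_contra hneg
  push Not at hneg
  have : la g (Ico m0 N) * Real.log N ^ k ≤ 0 := mul_nonpos_of_nonpos_of_nonneg hneg (by positivity)
  linarith

theorem t_sq : Tendsto (fun n : ℕ => n ^ 2) atTop atTop := tendsto_pow_atTop two_ne_zero

theorem la_sum (h : Lin g m0 C) : Summable fun n : ℕ => (la g (Ico m0 (n ^ 2)))⁻¹ := by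
  have h1 := t_sq.eventually (la_pos_ev h)
  have h2 : Tendsto (fun x : ℝ => Real.log x ^ k / x) atTop (𝓝 0) := (Real.isLittleO_pow_log_id_atTop (n := k)).tendsto_div_nhds_zero
  have h3 : Tendsto (fun n : ℕ => Real.log ((n : ℝ) ^ (1 / 2 : ℝ)) ^ k / (n : ℝ) ^ (1 / 2 : ℝ)) atTop (𝓝 0) :=
    h2.comp ((tendsto_rpow_atTop (by norm_num : (0 : ℝ) < 1 / 2)).comp tendsto_natCast_atTop_atTop)
  have hc : (0 : ℝ) < 1 / (2 * 4 ^ k) := by positivity
  have h4 := h3.eventually (gt_mem_nhds hc)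
  have hs : Summable fun n : ℕ => ((n : ℝ) ^ (3 / 2 : ℝ))⁻¹ := Real.summable_nat_rpow_inv.2 (by norm_num)
  refine Summable.of_norm_bounded_eventually_nat hs ?_
  filter_upwards [h1, h4, eventually_ge_atTop 2] with n b1 b2 hn
  obtain ⟨c1, c2⟩ := b1
  have hn2 : (2 : ℝ) ≤ n := by exact_mod_cast hn
  have hn0 : (0 : ℝ) < n := by linarith
  have hl : 0 < Real.log n := Real.log_pos (by linarith)
  rw [Real.norm_eq_abs, abs_of_pos (inv_pos.2 c2)]
  apply inv_anti₀ (Real.rpow_pos_of_pos hn0 _)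
  push_cast at c1
  rw [Real.log_pow] at c1
  rw [Real.log_rpow hn0, div_lt_iff₀ (Real.rpow_pos_of_pos hn0 _)] at b2
  have e1 : (n : ℝ) ^ (3 / 2 : ℝ) * (n : ℝ) ^ (1 / 2 : ℝ) = (n : ℝ) ^ 2 := by
    rw [← Real.rpow_add hn0]
    norm_num
  have hh : 0 < (n : ℝ) ^ (1 / 2 : ℝ) := Real.rpow_pos_of_pos hn0 _
  -- `(2 log n)^k = 4^k (1/2 log n)^k < n^{1/2} / 2`
  have e2 : (((2 : ℕ) : ℝ) * Real.log n) ^ k = 4 ^ k * (1 / 2 * Real.log n) ^ k := by
    rw [← mul_pow]
    congr 1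
    push_cast
    ring
  have h5 : (((2 : ℕ) : ℝ) * Real.log n) ^ k ≤ 1 / 2 * (n : ℝ) ^ (1 / 2 : ℝ) := by
    rw [e2]
    have h6 := mul_le_mul_of_nonneg_left b2.le (by positivity : (0 : ℝ) ≤ 4 ^ k)
    have e3 : (4 : ℝ) ^ k * (1 / (2 * 4 ^ k) * (n : ℝ) ^ (1 / 2 : ℝ)) = 1 / 2 * (n : ℝ) ^ (1 / 2 : ℝ) := by
      field_simp
    linarith
  obtain ⟨X, hX⟩ : ∃ X : ℝ, X = (((2 : ℕ) : ℝ) * Real.log n) ^ k := ⟨_, rfl⟩
  obtain ⟨Z, hZ⟩ : ∃ Z : ℝ, Z = (n : ℝ) ^ (1 / 2 : ℝ) := ⟨_, rfl⟩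
  rw [← hX] at c1 h5
  rw [← hZ] at h5 hh e1
  have h7 : (n : ℝ) ^ (3 / 2 : ℝ) * Z ≤ la g (Ico m0 (n ^ 2)) * Z := by
    rw [e1]
    have h8 := mul_le_mul_of_nonneg_left h5 c2.le
    nlinarith
  exact le_of_mul_le_mul_right h7 hh

/-- interpolation -/
theorem interp (T : ℕ → ℝ) (hT : Monotone T) (h0 : ∀ N, 0 ≤ T N) (k : ℕ)
    (h : Tendsto (fun n : ℕ => T (n ^ 2) * Real.log ((n ^ 2 : ℕ) : ℝ) ^ k / ((n ^ 2 : ℕ) : ℝ)) atTop (𝓝 1)) :
    Tendsto (fun N : ℕ => T N * Real.log N ^ k / N) atTop (𝓝 1) := by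
  have hs : Tendsto Nat.sqrt atTop atTop := by
    rw [tendsto_atTop]
    intro b
    filter_upwards [eventually_ge_atTop (b * b)] with N hN
    exact Nat.le_sqrt.2 hN
  have hr : Tendsto (fun n : ℕ => ((n : ℝ) / ((n : ℝ) + 1)) ^ 2) atTop (𝓝 1) := by
    have h1 : Tendsto (fun n : ℕ => (n : ℝ) / ((n : ℝ) + 1)) atTop (𝓝 1) := tendsto_natCast_div_add_atTop 1
    have h2 := h1.pow 2
    rw [one_pow] at h2
    exact h2
  have hr2 : Tendsto (fun n : ℕ => (((n : ℝ) + 1) / n) ^ 2) atTop (𝓝 1) := by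
    have h1 := hr.inv₀ one_ne_zero
    rw [inv_one] at h1
    refine h1.congr fun n => ?_
    rw [← inv_pow, inv_div]
  have hlo := (h.mul hr).comp hs
  have hup := (((tendsto_add_atTop_iff_nat 1).2 h).mul hr2).comp hs
  rw [one_mul] at hlo hup
  refine tendsto_of_tendsto_of_tendsto_of_le_of_le' hlo hup ?_ ?_
  · filter_upwards [eventually_ge_atTop 4] with N hN
    obtain ⟨n, hn⟩ : ∃ n, n = Nat.sqrt N := ⟨_, rfl⟩
    have h1 : n ^ 2 ≤ N := by rw [hn, sq]; exact Nat.sqrt_le N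
    have h2 : N < (n + 1) ^ 2 := by rw [hn]; exact Nat.lt_succ_sqrt' N
    have hn1 : 1 ≤ n := by rw [hn]; exact Nat.le_sqrt.2 (by omega)
    simp only [Function.comp]
    rw [← hn]
    have hn0 : (0 : ℝ) < n := by exact_mod_cast hn1
    have hN0 : (0 : ℝ) < N := by exact_mod_cast (by omega : 0 < N)
    have hl0 : 0 ≤ Real.log ((n ^ 2 : ℕ) : ℝ) := Real.log_natCast_nonneg _
    have hl : Real.log ((n ^ 2 : ℕ) : ℝ) ≤ Real.log N := Real.log_le_log (by positivity) (by exact_mod_cast h1)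
    have h2r : (N : ℝ) ≤ ((n : ℝ) + 1) ^ 2 := by exact_mod_cast h2.le
    have e : T (n ^ 2) * Real.log ((n ^ 2 : ℕ) : ℝ) ^ k / ((n ^ 2 : ℕ) : ℝ) * ((n : ℝ) / ((n : ℝ) + 1)) ^ 2 =
        T (n ^ 2) * Real.log ((n ^ 2 : ℕ) : ℝ) ^ k / ((n : ℝ) + 1) ^ 2 := by
      push_cast
      field_simp
    rw [e]
    apply div_le_div₀ (mul_nonneg (h0 _) (pow_nonneg (hl0.trans hl) k)) _ hN0 h2r
    exact mul_le_mul (hT h1) (pow_le_pow_left₀ hl0 hl k) (pow_nonneg hl0 k) (h0 _)
  · filter_upwards [eventually_ge_atTop 4] with N hN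
    obtain ⟨n, hn⟩ : ∃ n, n = Nat.sqrt N := ⟨_, rfl⟩
    have h1 : n ^ 2 ≤ N := by rw [hn, sq]; exact Nat.sqrt_le N
    have h2 : N < (n + 1) ^ 2 := by rw [hn]; exact Nat.lt_succ_sqrt' N
    have hn1 : 1 ≤ n := by rw [hn]; exact Nat.le_sqrt.2 (by omega)
    simp only [Function.comp]
    rw [← hn]
    have hn0 : (0 : ℝ) < n := by exact_mod_cast hn1
    have hN0 : (0 : ℝ) < N := by exact_mod_cast (by omega : 0 < N)
    have hl0 : 0 ≤ Real.log N := Real.log_natCast_nonneg _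
    have hl : Real.log N ≤ Real.log (((n + 1) ^ 2 : ℕ) : ℝ) := Real.log_le_log hN0 (by exact_mod_cast h2.le)
    have h1r : (n : ℝ) ^ 2 ≤ N := by exact_mod_cast h1
    have e : T ((n + 1) ^ 2) * Real.log (((n + 1) ^ 2 : ℕ) : ℝ) ^ k / (((n + 1) ^ 2 : ℕ) : ℝ) * (((n : ℝ) + 1) / n) ^ 2 =
        T ((n + 1) ^ 2) * Real.log (((n + 1) ^ 2 : ℕ) : ℝ) ^ k / (n : ℝ) ^ 2 := by
      push_cast
      field_simp
    rw [e]
    apply div_le_div₀ (mul_nonneg (h0 _) (pow_nonneg (hl0.trans hl) k)) _ (by positivity) h1r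
    exact mul_le_mul (hT h2.le) (pow_le_pow_left₀ hl0 hl k) (pow_nonneg hl0 k) (h0 _)

variable {Ω : Type} [MeasurableSpace Ω] {μ : Measure Ω} [IsProbabilityMeasure μ] {A : ℕ → Set Ω}

/-- **order `2 k` forces the patterns** -/
theorem count (hA : Model (2 * k) μ A) (h : Lin g m0 C) : ∀ᵐ ω ∂μ,
    Tendsto (fun N : ℕ => (Set.ncard {m : ℕ | m < N ∧ ∀ j, ω ∈ A (g j m)} : ℝ) * Real.log N ^ k / N) atTop (𝓝 1) := by
  obtain ⟨N₀, hN₀⟩ := eventually_atTop.1 (t_sq.eventually (la_pos_ev h))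
  filter_upwards [conv hA g (fun n => Ico m0 ((n + N₀) ^ 2)) (fun n => h.good _) (fun n => (hN₀ (n + N₀) (by omega)).2)
    ((summable_nat_add_iff N₀).2 (la_sum h))] with ω hω
  obtain ⟨T, hT⟩ : ∃ T : ℕ → ℝ, T = fun N => TT A g (Ico m0 N) ω := ⟨_, rfl⟩
  have hi : ∀ m, 0 ≤ (Q A g m).indicator (1 : Ω → ℝ) ω := fun m => Set.indicator_nonneg (fun _ _ => zero_le_one) ω
  have hTm : Monotone T := by
    intro a b hab
    rw [hT]
    unfold TT
    exact sum_le_sum_of_subset_of_nonneg (Ico_subset_Ico_right hab) fun m _ _ => hi m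
  have hT0 : ∀ N, 0 ≤ T N := by
    intro N
    rw [hT]
    exact sum_nonneg fun m _ => hi m
  have h1 : Tendsto (fun n : ℕ => T (n ^ 2) / la g (Ico m0 (n ^ 2))) atTop (𝓝 1) := by
    rw [← tendsto_add_atTop_iff_nat N₀, hT]
    exact hω
  have h2 : Tendsto (fun n : ℕ => T (n ^ 2) * Real.log ((n ^ 2 : ℕ) : ℝ) ^ k / ((n ^ 2 : ℕ) : ℝ)) atTop (𝓝 1) := by
    have h3 := h1.mul ((la_tendsto h).comp t_sq)
    rw [one_mul] at h3
    refine h3.congr' ?_
    filter_upwards [eventually_ge_atTop N₀] with n hn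
    have := (hN₀ n hn).2
    simp only [Function.comp]
    field_simp
  have h3 := interp T hTm hT0 k h2
  -- the first few `m`
  have h4 : Tendsto (fun N : ℕ => T N * Real.log N ^ k / N + m0 * (Real.log N ^ k / N)) atTop (𝓝 1) := by
    have h5 := h3.add ((tp k).const_mul (m0 : ℝ))
    rw [mul_zero, add_zero] at h5
    exact h5
  classical
  have hTc : ∀ N, T N = (((Ico m0 N).filter fun m => ∀ j, ω ∈ A (g j m)).card : ℝ) := by
    intro N
    rw [hT]
    unfold TT
    simp only [Set.indicator_apply, Pi.one_apply]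
    rw [sum_boole]
    congr 2
    ext m
    simp [Q]
  have hcard : ∀ N, Set.ncard {m : ℕ | m < N ∧ ∀ j, ω ∈ A (g j m)} = ((range N).filter fun m => ∀ j, ω ∈ A (g j m)).card := by
    intro N
    have e1 : {m : ℕ | m < N ∧ ∀ j, ω ∈ A (g j m)} = (((range N).filter fun m => ∀ j, ω ∈ A (g j m) : Finset ℕ) : Set ℕ) := by
      ext m
      simp
    rw [e1, Set.ncard_coe_finset]
  refine tendsto_of_tendsto_of_tendsto_of_le_of_le h3 h4 ?_ ?_
  · intro N
    simp only
    apply div_le_div_of_nonneg_right _ (Nat.cast_nonneg N)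
    apply mul_le_mul_of_nonneg_right _ (pow_nonneg (Real.log_natCast_nonneg N) k)
    rw [hTc, hcard]
    have : ((Ico m0 N).filter fun m => ∀ j, ω ∈ A (g j m)).card ≤ ((range N).filter fun m => ∀ j, ω ∈ A (g j m)).card := by
      apply card_le_card
      apply filter_subset_filter
      intro m hm
      rw [mem_Ico] at hm
      exact mem_range.2 hm.2
    exact_mod_cast this
  · intro N
    simp only
    rw [← mul_div_assoc, ← add_div, ← add_mul]
    apply div_le_div_of_nonneg_right _ (Nat.cast_nonneg N)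
    apply mul_le_mul_of_nonneg_right _ (pow_nonneg (Real.log_natCast_nonneg N) k)
    rw [hTc, hcard]
    have : ((range N).filter fun m => ∀ j, ω ∈ A (g j m)).card ≤
        ((Ico m0 N).filter fun m => ∀ j, ω ∈ A (g j m)).card + m0 := by
      have h5 : ((range N).filter fun m => ∀ j, ω ∈ A (g j m)) ⊆
          ((Ico m0 N).filter fun m => ∀ j, ω ∈ A (g j m)) ∪ range m0 := by
        intro m hm
        rw [mem_filter, mem_range] at hm
        rw [mem_union, mem_filter, mem_Ico, mem_range]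
        by_cases h6 : m < m0
        · right; exact h6
        · left; exact ⟨⟨by omega, hm.1⟩, hm.2⟩
      refine (card_le_card h5).trans ((card_union_le _ _).trans ?_)
      rw [card_range]
    exact_mod_cast this

end Pool.Agent.H49.PT
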