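import Pool.Agent.H49.D.SG
import Pool.Agent.H49.D.SE

set_option autoImplicit false

/-! Patterns in random sets: linear forms. -/

namespace Pool.Agent.H49.PT

open Finset MeasureTheory Filter Topology
open scoped ENNReal
open Pool.Agent.H49.TW (Model)

/-- the value at `m` of the linear form `a m + b` -/
def val (x : ℕ × ℤ) (m : ℕ) : ℕ := ((x.1 : ℤ) * m + x.2).toNat

/-- distinct nonconstant forms -/
def Dist {k : ℕ} (L : Fin k → ℕ × ℤ) : Prop := (∀ i, 1 ≤ (L i).1) ∧ Function.Injective L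

/-- the size of the constants -/
def BB {k : ℕ} (L : Fin k → ℕ × ℤ) : ℕ := ∑ i, (L i).2.natAbs

theorem BB_le {k : ℕ} (L : Fin k → ℕ × ℤ) (i : Fin k) : (L i).2.natAbs ≤ BB L := by
  unfold BB
  exact single_le_sum (f := fun i => (L i).2.natAbs) (fun _ _ => Nat.zero_le _) (mem_univ i)

theorem val_int {k : ℕ} {L : Fin k → ℕ × ℤ} (hL : Dist L) {m : ℕ} (hm : 2 * BB L + 3 ≤ m) (i : Fin k) :
    ((val (L i) m : ℕ) : ℤ) = ((L i).1 : ℤ) * m + (L i).2 ∧ (m : ℤ) - BB L ≤ (val (L i) m : ℕ) := by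
  have h1 := BB_le L i
  have h2 : (1 : ℤ) ≤ (L i).1 := by exact_mod_cast hL.1 i
  have h3 : (m : ℤ) ≤ ((L i).1 : ℤ) * m := by nlinarith
  have h4 : -((BB L : ℕ) : ℤ) ≤ (L i).2 := by omega
  have h5 : (0 : ℤ) ≤ ((L i).1 : ℤ) * m + (L i).2 := by
    have : (2 * (BB L : ℤ) + 3) ≤ m := by exact_mod_cast hm
    have : (0 : ℤ) ≤ BB L := Int.natCast_nonneg _
    linarith
  have h6 : ((val (L i) m : ℕ) : ℤ) = ((L i).1 : ℤ) * m + (L i).2 := by
    unfold val
    exact Int.toNat_of_nonneg h5
  exact ⟨h6, by rw [h6]; linarith⟩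

theorem lin {k : ℕ} {L : Fin k → ℕ × ℤ} (hL : Dist L) :
    Lin (fun i m => val (L i) m) (2 * BB L + 3) (∑ i, (L i).1 + 2) where
  m1 := by omega
  c1 := by omega
  h3 := by
    intro m hm j
    have h1 := (val_int hL hm j).2
    have : (2 * (BB L : ℤ) + 3) ≤ m := by exact_mod_cast hm
    have h0 : (0 : ℤ) ≤ BB L := Int.natCast_nonneg _
    have h2 : (3 : ℤ) ≤ ((val (L j) m : ℕ) : ℤ) := by linarith
    exact_mod_cast h2
  inj1 := by
    intro m hm i j hij
    simp only at hij
    have h1 := (val_int hL hm i).1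
    have h2 := (val_int hL hm j).1
    rw [hij] at h1
    have h3 : ((L i).1 : ℤ) * m + (L i).2 = ((L j).1 : ℤ) * m + (L j).2 := h1.symm.trans h2
    have bi := BB_le L i
    have bj := BB_le L j
    have hm' : (2 * (BB L : ℤ) + 3) ≤ m := by exact_mod_cast hm
    apply hL.2
    have ha : (L i).1 = (L j).1 := by
      rcases lt_trichotomy (L i).1 (L j).1 with hlt | heq | hgt
      · exfalso
        have h4 : ((L i).1 : ℤ) + 1 ≤ (L j).1 := by exact_mod_cast hlt
        have h5 : (((L i).1 : ℤ) + 1) * m ≤ (L j).1 * m := mul_le_mul_of_nonneg_right h4 (Int.natCast_nonneg m)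
        have h6 : ((L i).1 : ℤ) * m + m ≤ (L j).1 * m := by linarith
        omega
      · exact heq
      · exfalso
        have h4 : ((L j).1 : ℤ) + 1 ≤ (L i).1 := by exact_mod_cast hgt
        have h5 : (((L j).1 : ℤ) + 1) * m ≤ (L i).1 * m := mul_le_mul_of_nonneg_right h4 (Int.natCast_nonneg m)
        have h6 : ((L j).1 : ℤ) * m + m ≤ (L i).1 * m := by linarith
        omega
    have hb : (L i).2 = (L j).2 := by
      rw [ha] at h3
      linarith
    exact Prod.ext ha hb
  inj2 := by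
    intro j m m' hm hm' he
    have h1 := (val_int hL hm j).1
    have h2 := (val_int hL hm' j).1
    rw [he] at h1
    have h3 : ((L j).1 : ℤ) * m + (L j).2 = ((L j).1 : ℤ) * m' + (L j).2 := h1.symm.trans h2
    have h4 : ((L j).1 : ℤ) * m = ((L j).1 : ℤ) * m' := by linarith
    have h5 : ((L j).1 : ℤ) ≠ 0 := by
      have := hL.1 j
      omega
    have h6 := mul_left_cancel₀ h5 h4
    exact_mod_cast h6
  lo := by
    intro j m hm
    have h1 := (val_int hL hm j).2
    have hm' : (2 * (BB L : ℤ) + 3) ≤ m := by exact_mod_cast hm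
    have h2 : m ≤ 2 * val (L j) m := by omega
    calc m ≤ 2 * val (L j) m := h2
      _ ≤ _ := Nat.mul_le_mul_right _ (by omega)
  up := by
    intro j m hm
    have h1 := (val_int hL hm j).1
    have h2 := BB_le L j
    have h3 : (L j).1 ≤ ∑ i, (L i).1 := single_le_sum (f := fun i => (L i).1) (fun _ _ => Nat.zero_le _) (mem_univ j)
    have h4 : ((val (L j) m : ℕ) : ℤ) ≤ (((∑ i, (L i).1 : ℕ) : ℤ) + 2) * m := by
      rw [h1]
      have h5 : ((L j).1 : ℤ) * m ≤ ((∑ i, (L i).1 : ℕ) : ℤ) * m :=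
        mul_le_mul_of_nonneg_right (by exact_mod_cast h3) (Int.natCast_nonneg m)
      have h6 : (L j).2 ≤ m := by omega
      have h7 : (0 : ℤ) ≤ m := Int.natCast_nonneg m
      linarith
    exact_mod_cast h4

/-- families from sequences -/
noncomputable def mkFam {k : ℕ} (g : ℕ → Fin k → ℕ → ℕ) (h1 : ∀ p m, Function.Injective fun j => g p j m)
    (h2 : ∀ p j, Function.Injective (g p j)) : Fam k := by
  classical
  exact {
    T := fun p m => univ.image fun j => g p j m
    D := fun p i => univ.biUnion fun j => if h : ∃ m, g p j m = i then {h.choose} else ∅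
    d := fun _ => k
    hk := by
      intro p m
      rw [card_image_of_injective _ (h1 p m), card_univ, Fintype.card_fin]
    hD := by
      intro p i m
      rw [mem_biUnion, mem_image]
      constructor
      · rintro ⟨j, _, hj⟩
        by_cases h : ∃ m, g p j m = i
        · rw [dif_pos h, mem_singleton] at hj
          exact ⟨j, mem_univ j, by rw [hj]; exact h.choose_spec⟩
        · rw [dif_neg h] at hj
          exact absurd hj (notMem_empty m)
      · rintro ⟨j, _, hj⟩
        refine ⟨j, mem_univ j, ?_⟩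
        have h : ∃ m, g p j m = i := ⟨m, hj⟩
        rw [dif_pos h, mem_singleton]
        exact h2 p j (hj.trans h.choose_spec.symm)
    hd := by
      intro p i
      refine (card_biUnion_le_card_mul _ _ 1 fun j _ => ?_).trans ?_
      · split_ifs <;> simp
      · rw [card_univ, Fintype.card_fin, mul_one] }

theorem mkFam_T {k : ℕ} (g : ℕ → Fin k → ℕ → ℕ) (h1 : ∀ p m, Function.Injective fun j => g p j m)
    (h2 : ∀ p j, Function.Injective (g p j)) (p m i : ℕ) : i ∈ (mkFam g h1 h2).T p m ↔ ∃ j, g p j m = i := by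
  unfold mkFam
  simp

/-- **the model of order `2 k - 1`** -/
theorem few (k : ℕ) (hk : 1 ≤ k) : ∃ (Ω : Type) (_ : MeasurableSpace Ω) (μ : Measure Ω) (A : ℕ → Set Ω),
    IsProbabilityMeasure μ ∧ Model (2 * k - 1) μ A ∧
      ∀ᵐ ω ∂μ, ∀ L : Fin k → ℕ × ℤ, Dist L → {m : ℕ | ∀ i, ω ∈ A (val (L i) m)}.Finite := by
  classical
  obtain ⟨Lp, hLp⟩ := exists_surjective_nat (Fin k → ℕ × ℤ)
  obtain ⟨g, hg⟩ : ∃ g : ℕ → Fin k → ℕ → ℕ, g = fun p j m =>
    if Dist (Lp p) then val (Lp p j) (m + (2 * BB (Lp p) + 3)) else k * m + j := ⟨_, rfl⟩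
  have h1 : ∀ p m, Function.Injective fun j => g p j m := by
    intro p m a c hac
    rw [hg] at hac
    simp only at hac
    by_cases hd : Dist (Lp p)
    · rw [if_pos hd, if_pos hd] at hac
      exact (lin hd).inj1 _ (by omega) hac
    · rw [if_neg hd, if_neg hd] at hac
      exact Fin.ext (by omega)
  have h2 : ∀ p j, Function.Injective (g p j) := by
    intro p j a c hac
    rw [hg] at hac
    simp only at hac
    by_cases hd : Dist (Lp p)
    · rw [if_pos hd, if_pos hd] at hac
      have := (lin hd).inj2 j _ _ (by omega) (by omega) hac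
      omega
    · rw [if_neg hd, if_neg hd] at hac
      have h3 : k * a = k * c := by omega
      exact Nat.eq_of_mul_eq_mul_left (by omega) h3
  obtain ⟨F, hF⟩ : ∃ F, F = mkFam g h1 h2 := ⟨_, rfl⟩
  refine ⟨Fam.Om, inferInstance, F.P, F.E hk, inferInstance, ⟨F.E_meas hk, ?_⟩, ?_⟩
  · intro T hT h3
    have h4 := F.order hk T hT (by omega)
    rw [Measure.real, h4, ENNReal.toReal_ofReal]
    · simp only [one_div]
    · refine prod_nonneg fun m hm => inv_nonneg.2 (Real.log_nonneg ?_)
      exact_mod_cast (by have := hT m hm; omega : 1 ≤ m)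
  · filter_upwards [ae_all_iff.2 fun p => F.finite_edges hk p] with ω hω L hL
    obtain ⟨p, hp⟩ := hLp L
    have h3 := hω p
    have h4 : {m : ℕ | ∀ i, ω ∈ F.E hk (val (L i) m)} ⊆ Set.Iio (2 * BB L + 3) ∪
        (fun m => m + (2 * BB L + 3)) '' {m | ∀ i ∈ F.T p m, ω ∈ F.E hk i} := by
      intro m hm
      by_cases hc : m < 2 * BB L + 3
      · left; exact hc
      · right
        refine ⟨m - (2 * BB L + 3), ?_, by simp only; omega⟩
        intro i hi
        rw [hF, mkFam_T] at hi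
        obtain ⟨j, rfl⟩ := hi
        rw [hg]
        simp only
        rw [hp, if_pos hL, show m - (2 * BB L + 3) + (2 * BB L + 3) = m by omega]
        exact hm j
    exact ((Set.finite_Iio _).union (h3.image _)).subset h4

/-- **order `2 k`** -/
theorem many (k : ℕ) {Ω : Type} [MeasurableSpace Ω] {μ : Measure Ω} [IsProbabilityMeasure μ] {A : ℕ → Set Ω}
    (hA : Model (2 * k) μ A) : ∀ᵐ ω ∂μ, ∀ L : Fin k → ℕ × ℤ, Dist L →
      Tendsto (fun N : ℕ => (Set.ncard {m : ℕ | m < N ∧ ∀ i, ω ∈ A (val (L i) m)} : ℝ) * Real.log N ^ k / N)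
        atTop (𝓝 1) := by
  rw [ae_all_iff]
  intro L
  by_cases hL : Dist L
  · filter_upwards [count hA (lin hL)] with ω hω _
    exact hω
  · exact ae_of_all _ fun ω h => absurd h hL

/-- chains -/
theorem no_chain (k : ℕ) (P : ℕ → Prop)
    (h : {m : ℕ | ∀ i : Fin k, P (2 ^ (i : ℕ) * (m + 1) - 1)}.Finite) :
    ∃ j, ∀ m, ∃ i < j, ¬ P (2 ^ i * (m + 1) - 1) := by
  refine ⟨h.toFinset.card + k, fun m => ?_⟩
  by_contra hc
  push Not at hc
  have h1 : (range (h.toFinset.card + 1)).image (fun i => 2 ^ i * (m + 1) - 1) ⊆ h.toFinset := by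
    intro x hx
    rw [mem_image] at hx
    obtain ⟨i, hi, rfl⟩ := hx
    rw [mem_range] at hi
    rw [Set.Finite.mem_toFinset, Set.mem_ofPred_eq]
    intro l
    have h2 := hc (i + l) (by have := l.2; omega)
    have h3 : 1 ≤ 2 ^ i * (m + 1) := Nat.mul_pos (by positivity) (by omega)
    have e : 2 ^ (l : ℕ) * (2 ^ i * (m + 1) - 1 + 1) - 1 = 2 ^ (i + (l : ℕ)) * (m + 1) - 1 := by
      rw [Nat.sub_add_cancel h3, pow_add]
      congr 1
      ring
    rw [e]
    exact h2
  have h2 := card_le_card h1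
  rw [card_image_of_injOn, card_range] at h2
  · omega
  · intro a _ c _ hac
    simp only at hac
    have h3 : 1 ≤ 2 ^ a * (m + 1) := Nat.mul_pos (by positivity) (by omega)
    have h4 : 1 ≤ 2 ^ c * (m + 1) := Nat.mul_pos (by positivity) (by omega)
    have h5 : 2 ^ a * (m + 1) = 2 ^ c * (m + 1) := by omega
    have h6 : 2 ^ a = 2 ^ c := Nat.eq_of_mul_eq_mul_right (by omega) h5
    exact Nat.pow_right_injective le_rfl h6

end Pool.Agent.H49.PT
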