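import Mathlib

set_option autoImplicit false

/-! Pairs in random sets, order three: the block fields. -/

namespace Pool.Agent.H49.TW

open Finset MeasureTheory Filter Topology
open scoped ENNReal

/-- integral of a product over finitely many coordinates -/
theorem int_prod {ι : Type*} {X : ι → Type*} [∀ i, MeasurableSpace (X i)] (μ : (i : ι) → Measure (X i))
    [∀ i, IsProbabilityMeasure (μ i)] (s : Finset ι) (f : (i : ι) → X i → ℝ) (hf : ∀ i ∈ s, Measurable (f i)) :
    ∫ y, ∏ i ∈ s, f i (y i) ∂(Measure.infinitePi μ) = ∏ i ∈ s, ∫ x, f i x ∂(μ i) := by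
  have e1 : ∀ y : (i : ι) → X i, ∏ i ∈ s, f i (y i) = (fun z : (i : s) → X i => ∏ i : s, f i (z i)) (s.restrict y) := by
    intro y
    simp only [Finset.restrict]
    exact (prod_coe_sort s (fun i => f i (y i))).symm
  rw [integral_congr_ae (ae_of_all _ e1)]
  refine (integral_restrict_infinitePi (μ := μ) (f := fun z : (i : s) → X i => ∏ i : s, f i (z i)) ?_).trans ?_
  · apply Measurable.aestronglyMeasurable
    exact Finset.measurable_fun_prod _ fun i _ => (hf i i.2).comp (measurable_pi_apply i)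
  · rw [integral_fintype_prod_eq_prod]
    exact prod_coe_sort s (fun i => ∫ x, f i x ∂(μ i))

/-- the sign of a bit -/
def sg (b : Bool) : ℝ := if b then 1 else -1

theorem sg_sq (b : Bool) : sg b * sg b = 1 := by
  cases b <;> simp [sg]

theorem sg_abs (b : Bool) : |sg b| = 1 := by
  cases b <;> simp [sg]

/-- the probability of the bit `true` -/
noncomputable def wt (t : ℝ) : ℝ := max 0 (min 1 ((1 + t) / 2))

theorem wt_nonneg (t : ℝ) : 0 ≤ wt t := le_max_left _ _

theorem wt_le (t : ℝ) : wt t ≤ 1 := max_le zero_le_one (min_le_left _ _)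

theorem wt_eq {t : ℝ} (h0 : 0 ≤ t) (h1 : t ≤ 1) : wt t = (1 + t) / 2 := by
  unfold wt
  rw [min_eq_right (by linarith), max_eq_right (by linarith)]

/-- the law of a sign with mean `t` -/
noncomputable def law (t : ℝ) : Measure Bool :=
  ENNReal.ofReal (wt t) • Measure.dirac true + ENNReal.ofReal (1 - wt t) • Measure.dirac false

instance (t : ℝ) : IsProbabilityMeasure (law t) := by
  constructor
  unfold law
  simp only [Measure.coe_add, Measure.coe_smul, Pi.add_apply, Pi.smul_apply, measure_univ, smul_eq_mul, mul_one]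
  rw [← ENNReal.ofReal_add (wt_nonneg t) (by linarith [wt_le t])]
  simp

theorem int_law (t : ℝ) (f : Bool → ℝ) : ∫ b, f b ∂(law t) = wt t * f true + (1 - wt t) * f false := by
  unfold law
  rw [integral_add_measure, integral_smul_measure, integral_smul_measure, integral_dirac, integral_dirac,
    ENNReal.toReal_ofReal (wt_nonneg t), ENNReal.toReal_ofReal (by linarith [wt_le t])]
  · simp
  · exact (integrable_dirac (by simp)).smul_measure ENNReal.ofReal_ne_top
  · exact (integrable_dirac (by simp)).smul_measure ENNReal.ofReal_ne_top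

theorem int_sg {t : ℝ} (h0 : 0 ≤ t) (h1 : t ≤ 1) : ∫ b, sg b ∂(law t) = t := by
  rw [int_law, wt_eq h0 h1]
  simp [sg]
  ring

/-- the sign field -/
noncomputable def fld (t : ℝ) : Measure (ℕ → Bool) := Measure.infinitePi fun _ => law t

instance (t : ℝ) : IsProbabilityMeasure (fld t) := by
  unfold fld
  infer_instance

/-- a monomial in the signs -/
def mon (T : Finset ℕ) (y : ℕ → Bool) : ℝ := ∏ x ∈ T, sg (y x)

theorem mon_meas (T : Finset ℕ) : Measurable (mon T) := by
  unfold mon
  exact Finset.measurable_fun_prod _ fun i _ => (measurable_of_countable sg).comp (measurable_pi_apply i)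

theorem mon_abs (T : Finset ℕ) (y : ℕ → Bool) : |mon T y| = 1 := by
  unfold mon
  rw [Finset.abs_prod]
  exact prod_eq_one fun x _ => sg_abs _

theorem mon_int (t : ℝ) (T : Finset ℕ) : Integrable (mon T) (fld t) :=
  Integrable.of_bound (mon_meas T).aestronglyMeasurable 1 (ae_of_all _ fun y => by
    rw [Real.norm_eq_abs, mon_abs])

theorem int_mon {t : ℝ} (h0 : 0 ≤ t) (h1 : t ≤ 1) (T : Finset ℕ) : ∫ y, mon T y ∂(fld t) = t ^ T.card := by
  unfold mon fld
  rw [int_prod (fun _ => law t) T (fun _ => sg) (fun _ _ => measurable_of_countable sg)]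
  rw [prod_const, int_sg h0 h1]

/-- integral of a combination of monomials -/
theorem int_list {t : ℝ} (h0 : 0 ≤ t) (h1 : t ≤ 1) (l : List (ℝ × Finset ℕ)) :
    Integrable (fun y => (l.map fun a => a.1 * mon a.2 y).sum) (fld t) ∧
    ∫ y, (l.map fun a => a.1 * mon a.2 y).sum ∂(fld t) = (l.map fun a => a.1 * t ^ a.2.card).sum := by
  induction l with
  | nil => simp
  | cons a l ih =>
    obtain ⟨i1, i2⟩ := ih
    simp only [List.map_cons, List.sum_cons]
    have i3 : Integrable (fun y => a.1 * mon a.2 y) (fld t) := (mon_int t a.2).const_mul _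
    refine ⟨i3.add i1, ?_⟩
    rw [integral_add i3 i1, i2, integral_const_mul, int_mon h0 h1]

/-- the field of mode zero -/
def g0 (h : ℕ) (y : ℕ → Bool) (i : ℕ) : ℝ := (1 + sg (y i)) * (1 - sg (y (i + h)))

/-- the field of mode one, up to a constant -/
def g1 (h : ℕ) (y : ℕ → Bool) (i : ℕ) : ℝ := 1 - sg (y i) * sg (y (i + h))

theorem g0_adj (h : ℕ) (y : ℕ → Bool) (i : ℕ) : g0 h y i * g0 h y (i + h) = 0 := by
  unfold g0
  have := sg_sq (y (i + h))
  have e : (1 + sg (y i)) * (1 - sg (y (i + h))) * ((1 + sg (y (i + h))) * (1 - sg (y (i + h + h)))) =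
    (1 + sg (y i)) * (1 - sg (y (i + h)) * sg (y (i + h))) * (1 - sg (y (i + h + h))) := by ring
  rw [e, this]
  ring

/-- adjacency -/
def adj (h : ℕ) (S : Finset ℕ) : Prop := ∃ k ∈ S, k + h ∈ S

theorem E0_adj (h : ℕ) (hh : 1 ≤ h) (S : Finset ℕ) (hS : adj h S) : ∫ y, ∏ i ∈ S, g0 h y i ∂(fld 0) = 0 := by
  obtain ⟨k, hk, hk2⟩ := hS
  have : ∀ y, ∏ i ∈ S, g0 h y i = 0 := by
    intro y
    have h1 : ({k, k + h} : Finset ℕ) ⊆ S := by
      intro x hx
      rw [mem_insert, mem_singleton] at hx
      rcases hx with rfl | rfl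
      · exact hk
      · exact hk2
    rw [← prod_sdiff h1, prod_pair (by omega), g0_adj, mul_zero]
  simp_rw [this]
  simp

theorem E0_nadj (h : ℕ) (S : Finset ℕ) (hS : ¬ adj h S) : ∫ y, ∏ i ∈ S, g0 h y i ∂(fld 0) = 1 := by
  have hd : Disjoint S (S.image fun i => i + h) := by
    rw [disjoint_left]
    intro x hx hx2
    rw [mem_image] at hx2
    obtain ⟨k, hk, hk2⟩ := hx2
    apply hS
    exact ⟨k, hk, by rw [hk2]; exact hx⟩
  have e1 : ∀ y : ℕ → Bool, ∏ i ∈ S, g0 h y i =
      ∏ x ∈ S ∪ S.image (fun i => i + h), (fun b : Bool => if x ∈ S then 1 + sg b else 1 - sg b) (y x) := by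
    intro y
    unfold g0
    rw [prod_mul_distrib, prod_union hd, prod_image (by intro a _ b _ hab; simpa using hab)]
    congr 1
    · exact prod_congr rfl fun x hx => by simp [hx]
    · refine prod_congr rfl fun x hx => ?_
      have : x + h ∉ S := fun h2 => hS ⟨x, hx, h2⟩
      simp [this]
  simp_rw [e1]
  unfold fld
  rw [int_prod (fun _ => law 0) (S ∪ S.image (fun i => i + h)) (fun x b => if x ∈ S then 1 + sg b else 1 - sg b)
    (fun _ _ => measurable_of_countable _)]
  refine prod_eq_one fun x _ => ?_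
  rw [int_law, wt_eq le_rfl zero_le_one]
  by_cases hx : x ∈ S <;> simp [hx, sg] <;> norm_num

end Pool.Agent.H49.TW
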