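import Pool.Agent.H49.D.TA

set_option autoImplicit false

/-! Pairs in random sets, order three: the block fields, mode one. -/

namespace Pool.Agent.H49.TW

open Finset MeasureTheory Filter Topology
open scoped ENNReal

theorem mon2 {a b : ℕ} (hab : a ≠ b) (y : ℕ → Bool) : mon {a, b} y = sg (y a) * sg (y b) := by
  unfold mon
  exact prod_pair hab

theorem mon4 {a b c d : ℕ} (hab : a ≠ b) (hac : a ≠ c) (had : a ≠ d) (hbc : b ≠ c) (hbd : b ≠ d) (hcd : c ≠ d)
    (y : ℕ → Bool) : mon {a, b, c, d} y = sg (y a) * sg (y b) * sg (y c) * sg (y d) := by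
  unfold mon
  rw [prod_insert (by simp [hab, hac, had]), prod_insert (by simp [hbc, hbd]), prod_pair hcd]
  ring

theorem card4 {a b c d : ℕ} (hab : a ≠ b) (hac : a ≠ c) (had : a ≠ d) (hbc : b ≠ c) (hbd : b ≠ d) (hcd : c ≠ d) :
    ({a, b, c, d} : Finset ℕ).card = 4 := by
  rw [card_insert_of_notMem (by simp [hab, hac, had]), card_insert_of_notMem (by simp [hbc, hbd]), card_pair hcd]

theorem E1_nadj {t : ℝ} (h0 : 0 ≤ t) (h1 : t ≤ 1) (h : ℕ) (S : Finset ℕ) (hS : ¬ adj h S) :
    ∫ y, ∏ i ∈ S, g1 h y i ∂(fld t) = (1 - t ^ 2) ^ S.card := by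
  have e1 : ∀ y : ℕ → Bool, ∏ i ∈ S, g1 h y i = ∑ A ∈ S.powerset, (-1) ^ A.card * mon (A ∪ A.image (fun i => i + h)) y := by
    intro y
    have e2 : ∀ i ∈ S, g1 h y i = 1 + -(sg (y i) * sg (y (i + h))) := by
      intro i _
      unfold g1
      ring
    rw [prod_congr rfl e2, prod_one_add]
    refine sum_congr rfl fun A hA => ?_
    rw [mem_powerset] at hA
    rw [prod_neg]
    congr 1
    have hd : Disjoint A (A.image fun i => i + h) := by
      rw [disjoint_left]
      intro x hx hx2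
      rw [mem_image] at hx2
      obtain ⟨k, hk, hk2⟩ := hx2
      exact hS ⟨k, hA hk, by rw [hk2]; exact hA hx⟩
    unfold mon
    rw [prod_union hd, prod_image (by intro a _ b _ hab; simpa using hab), prod_mul_distrib]
  rw [integral_congr_ae (ae_of_all _ e1)]
  rw [integral_finsetSum _ fun A _ => (mon_int t _).const_mul _]
  have e3 : ∀ A ∈ S.powerset, ∫ y, (-1 : ℝ) ^ A.card * mon (A ∪ A.image (fun i => i + h)) y ∂(fld t) =
      ∏ i ∈ A, (-(t ^ 2)) := by
    intro A hA
    rw [mem_powerset] at hA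
    have hd : Disjoint A (A.image fun i => i + h) := by
      rw [disjoint_left]
      intro x hx hx2
      rw [mem_image] at hx2
      obtain ⟨k, hk, hk2⟩ := hx2
      exact hS ⟨k, hA hk, by rw [hk2]; exact hA hx⟩
    rw [integral_const_mul, int_mon h0 h1, card_union_of_disjoint hd,
      card_image_of_injective _ (fun a b hab => by simpa using hab), prod_const, ← two_mul, pow_mul, neg_pow (t ^ 2)]
  rw [sum_congr rfl e3, ← prod_one_add, prod_const]
  ring

theorem E1_pair {t : ℝ} (h0 : 0 ≤ t) (h1 : t ≤ 1) (h : ℕ) (hh : 1 ≤ h) (k : ℕ) :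
    ∫ y, ∏ i ∈ ({k, k + h} : Finset ℕ), g1 h y i ∂(fld t) = 1 - t ^ 2 := by
  have n1 : k ≠ k + h := by omega
  have n2 : k + h ≠ k + h + h := by omega
  have n3 : k ≠ k + h + h := by omega
  have e1 : ∀ y : ℕ → Bool, ∏ i ∈ ({k, k + h} : Finset ℕ), g1 h y i =
      (([(1, ∅), (-1, {k, k + h}), (-1, {k + h, k + h + h}), (1, {k, k + h + h})] : List (ℝ × Finset ℕ)).map
        fun a => a.1 * mon a.2 y).sum := by
    intro y
    rw [prod_pair n1]
    simp only [List.map_cons, List.map_nil, List.sum_cons, List.sum_nil]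
    rw [mon2 n1, mon2 n2, mon2 n3]
    have e0 : mon ∅ y = 1 := by simp [mon]
    rw [e0]
    unfold g1
    have := sg_sq (y (k + h))
    linear_combination (sg (y k) * sg (y (k + h + h))) * this
  rw [integral_congr_ae (ae_of_all _ e1), (int_list h0 h1 _).2]
  simp only [List.map_cons, List.map_nil, List.sum_cons, List.sum_nil, card_empty, card_pair n1, card_pair n2, card_pair n3]
  ring

theorem E1_run {t : ℝ} (h0 : 0 ≤ t) (h1 : t ≤ 1) (h : ℕ) (hh : 1 ≤ h) (k : ℕ) :
    ∫ y, ∏ i ∈ ({k, k + h, k + h + h} : Finset ℕ), g1 h y i ∂(fld t) = (1 - t ^ 2) ^ 2 := by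
  obtain ⟨a, ha⟩ : ∃ a, a = k := ⟨_, rfl⟩
  obtain ⟨b, hb⟩ : ∃ b, b = k + h := ⟨_, rfl⟩
  obtain ⟨c, hc⟩ : ∃ c, c = k + h + h := ⟨_, rfl⟩
  obtain ⟨d, hd⟩ : ∃ d, d = k + h + h + h := ⟨_, rfl⟩
  have nab : a ≠ b := by omega
  have nac : a ≠ c := by omega
  have nad : a ≠ d := by omega
  have nbc : b ≠ c := by omega
  have nbd : b ≠ d := by omega
  have ncd : c ≠ d := by omega
  have e1 : ∀ y : ℕ → Bool, ∏ i ∈ ({k, k + h, k + h + h} : Finset ℕ), g1 h y i =
      (([(1, ∅), (-1, {a, b}), (-1, {b, c}), (1, {a, c}), (-1, {c, d}), (1, {a, b, c, d}), (1, {b, d}), (-1, {a, d})] :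
        List (ℝ × Finset ℕ)).map fun a => a.1 * mon a.2 y).sum := by
    intro y
    rw [prod_insert (by simp only [mem_insert, mem_singleton]; omega), prod_pair (by omega)]
    simp only [List.map_cons, List.map_nil, List.sum_cons, List.sum_nil]
    rw [mon2 nab, mon2 nbc, mon2 nac, mon2 ncd, mon2 nbd, mon2 nad, mon4 nab nac nad nbc nbd ncd]
    have e0 : mon ∅ y = 1 := by simp [mon]
    rw [e0]
    unfold g1
    rw [← hd, ← hc, ← hb, ← ha]
    have q1 := sg_sq (y b)
    have q2 := sg_sq (y c)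
    have e : (1 - sg (y a) * sg (y b)) * ((1 - sg (y b) * sg (y c)) * (1 - sg (y c) * sg (y d))) =
      1 - sg (y a) * sg (y b) - sg (y b) * sg (y c) + sg (y a) * (sg (y b) * sg (y b)) * sg (y c) - sg (y c) * sg (y d)
      + sg (y a) * sg (y b) * sg (y c) * sg (y d) + sg (y b) * (sg (y c) * sg (y c)) * sg (y d) -
      sg (y a) * (sg (y b) * sg (y b)) * (sg (y c) * sg (y c)) * sg (y d) := by ring
    rw [e, q1, q2]
    ring
  rw [integral_congr_ae (ae_of_all _ e1), (int_list h0 h1 _).2]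
  simp only [List.map_cons, List.map_nil, List.sum_cons, List.sum_nil, card_empty, card_pair nab, card_pair nbc,
    card_pair nac, card_pair ncd, card_pair nbd, card_pair nad, card4 nab nac nad nbc nbd ncd]
  ring

theorem E1_iso {t : ℝ} (h0 : 0 ≤ t) (h1 : t ≤ 1) (h : ℕ) (hh : 1 ≤ h) (k l : ℕ) (n1 : l ≠ k) (n2 : l ≠ k + h)
    (n3 : l ≠ k + h + h) (n4 : l + h ≠ k) :
    ∫ y, ∏ i ∈ ({k, k + h, l} : Finset ℕ), g1 h y i ∂(fld t) = (1 - t ^ 2) ^ 2 := by
  obtain ⟨a, ha⟩ : ∃ a, a = k := ⟨_, rfl⟩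
  obtain ⟨b, hb⟩ : ∃ b, b = k + h := ⟨_, rfl⟩
  obtain ⟨c, hc⟩ : ∃ c, c = k + h + h := ⟨_, rfl⟩
  obtain ⟨d, hd⟩ : ∃ d, d = l := ⟨_, rfl⟩
  obtain ⟨e, he⟩ : ∃ e, e = l + h := ⟨_, rfl⟩
  have nab : a ≠ b := by omega
  have nac : a ≠ c := by omega
  have nad : a ≠ d := by omega
  have nae : a ≠ e := by omega
  have nbc : b ≠ c := by omega
  have nbd : b ≠ d := by omega
  have nbe : b ≠ e := by omega
  have ncd : c ≠ d := by omega
  have nce : c ≠ e := by omega
  have nde : d ≠ e := by omega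
  have e1 : ∀ y : ℕ → Bool, ∏ i ∈ ({k, k + h, l} : Finset ℕ), g1 h y i =
      (([(1, ∅), (-1, {a, b}), (-1, {b, c}), (1, {a, c}), (-1, {d, e}), (1, {a, b, d, e}), (1, {b, c, d, e}),
        (-1, {a, c, d, e})] : List (ℝ × Finset ℕ)).map fun a => a.1 * mon a.2 y).sum := by
    intro y
    rw [prod_insert (by simp only [mem_insert, mem_singleton]; omega), prod_pair (by omega)]
    simp only [List.map_cons, List.map_nil, List.sum_cons, List.sum_nil]
    rw [mon2 nab, mon2 nbc, mon2 nac, mon2 nde, mon4 nab nad nae nbd nbe nde, mon4 nbc nbd nbe ncd nce nde,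
      mon4 nac nad nae ncd nce nde]
    have e0 : mon ∅ y = 1 := by simp [mon]
    rw [e0]
    unfold g1
    rw [← he, ← hc, ← hb, ← ha, ← hd]
    have q1 := sg_sq (y b)
    have e : (1 - sg (y a) * sg (y b)) * ((1 - sg (y b) * sg (y c)) * (1 - sg (y d) * sg (y e))) =
      (1 - sg (y a) * sg (y b) - sg (y b) * sg (y c) + sg (y a) * (sg (y b) * sg (y b)) * sg (y c)) *
        (1 - sg (y d) * sg (y e)) := by ring
    rw [e, q1]
    ring
  rw [integral_congr_ae (ae_of_all _ e1), (int_list h0 h1 _).2]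
  simp only [List.map_cons, List.map_nil, List.sum_cons, List.sum_nil, card_empty, card_pair nab, card_pair nbc,
    card_pair nac, card_pair nde, card4 nab nad nae nbd nbe nde, card4 nbc nbd nbe ncd nce nde,
    card4 nac nad nae ncd nce nde]
  ring

theorem E1_adj {t : ℝ} (h0 : 0 ≤ t) (h1 : t ≤ 1) (h : ℕ) (hh : 1 ≤ h) (S : Finset ℕ) (hS : adj h S) (h3 : S.card ≤ 3) :
    ∫ y, ∏ i ∈ S, g1 h y i ∂(fld t) = (1 - t ^ 2) ^ (S.card - 1) := by
  obtain ⟨k, hk, hk2⟩ := hS
  have hsub : ({k, k + h} : Finset ℕ) ⊆ S := by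
    intro x hx
    rw [mem_insert, mem_singleton] at hx
    rcases hx with rfl | rfl
    · exact hk
    · exact hk2
  have hc2 : ({k, k + h} : Finset ℕ).card = 2 := card_pair (by omega)
  have hge : 2 ≤ S.card := hc2 ▸ card_le_card hsub
  have hcases : S.card = 2 ∨ S.card = 3 := by omega
  rcases hcases with hc | hc
  · have hSe : S = {k, k + h} := (eq_of_subset_of_card_le hsub (by rw [hc, hc2])).symm
    rw [hc, hSe, E1_pair h0 h1 h hh k]
    ring
  · have hsd : (S \ {k, k + h}).card = 1 := by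
      rw [card_sdiff_of_subset hsub, hc, hc2]
    obtain ⟨l, hl⟩ := card_eq_one.1 hsd
    have hlm : l ∈ S \ {k, k + h} := by rw [hl]; exact mem_singleton_self l
    rw [Finset.mem_sdiff, mem_insert, mem_singleton, not_or] at hlm
    obtain ⟨hlS, hl1, hl2⟩ := hlm
    have hSe : S = {k, k + h, l} := by
      symm
      apply eq_of_subset_of_card_le
      · intro x hx
        simp only [mem_insert, mem_singleton] at hx
        rcases hx with rfl | rfl | rfl
        · exact hk
        · exact hk2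
        · exact hlS
      · rw [hc, card_insert_of_notMem (by simp only [mem_insert, mem_singleton]; omega), card_pair (Ne.symm hl2)]
    rw [hc]
    by_cases c1 : l = k + h + h
    · have e : S = {k, k + h, k + h + h} := by rw [hSe, c1]
      rw [e]
      exact E1_run h0 h1 h hh k
    · by_cases c2 : l + h = k
      · have e : S = {l, l + h, l + h + h} := by
          rw [hSe]
          ext x
          simp only [mem_insert, mem_singleton]
          omega
        rw [e]
        exact E1_run h0 h1 h hh l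
      · rw [hSe]
        exact E1_iso h0 h1 h hh k l hl1 hl2 c1 c2

end Pool.Agent.H49.TW
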