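import Pool.Agent.H49.D.TB

set_option autoImplicit false

/-! Pairs in random sets, order three: the random density. -/

namespace Pool.Agent.H49.TW

open Finset MeasureTheory Filter Topology
open scoped ENNReal

/-- the probability space of one block -/
abbrev B0 := Bool × (ℕ → Bool)

/-- the mean of the signs in mode one -/
noncomputable def th (j : ℕ) : ℝ := √(1 - ((2 : ℝ) ^ j)⁻¹)

theorem inv_pos' (j : ℕ) : 0 < ((2 : ℝ) ^ j)⁻¹ := by positivity

theorem inv_le' (j : ℕ) : ((2 : ℝ) ^ j)⁻¹ ≤ 1 := inv_le_one_of_one_le₀ (one_le_pow₀ (by norm_num))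

theorem th_nonneg (j : ℕ) : 0 ≤ th j := Real.sqrt_nonneg _

theorem th_le (j : ℕ) : th j ≤ 1 := by
  unfold th
  rw [Real.sqrt_le_one]
  linarith [inv_pos' j]

theorem th_sq (j : ℕ) : 1 - th j ^ 2 = ((2 : ℝ) ^ j)⁻¹ := by
  unfold th
  rw [Real.sq_sqrt (by linarith [inv_le' j])]
  ring

/-- the law of one block -/
noncomputable def blk (j : ℕ) : Measure B0 :=
  ENNReal.ofReal ((2 : ℝ) ^ j)⁻¹ • (fld (th j)).map (Prod.mk true) +
  ENNReal.ofReal (1 - ((2 : ℝ) ^ j)⁻¹) • (fld 0).map (Prod.mk false)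

theorem mk_meas (b : Bool) : Measurable (Prod.mk b : (ℕ → Bool) → B0) := measurable_const.prodMk measurable_id

instance (j : ℕ) : IsProbabilityMeasure (blk j) := by
  constructor
  unfold blk
  simp only [Measure.coe_add, Measure.coe_smul, Pi.add_apply, Pi.smul_apply, smul_eq_mul]
  rw [Measure.map_apply (mk_meas _) MeasurableSet.univ, Measure.map_apply (mk_meas _) MeasurableSet.univ]
  simp only [Set.preimage_univ, measure_univ, mul_one]
  rw [← ENNReal.ofReal_add (inv_pos' j).le (by linarith [inv_le' j])]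
  simp

theorem blk_true (j : ℕ) : blk j {x | x.1 = true} = ENNReal.ofReal ((2 : ℝ) ^ j)⁻¹ := by
  have hm : MeasurableSet {x : B0 | x.1 = true} := measurable_fst (measurableSet_singleton true)
  unfold blk
  simp only [Measure.coe_add, Measure.coe_smul, Pi.add_apply, Pi.smul_apply, smul_eq_mul]
  rw [Measure.map_apply (mk_meas _) hm, Measure.map_apply (mk_meas _) hm]
  simp

theorem int_blk (j : ℕ) (f : B0 → ℝ) (hf : Measurable f) (C : ℝ) (hC : ∀ x, |f x| ≤ C) :
    ∫ x, f x ∂(blk j) = ((2 : ℝ) ^ j)⁻¹ * ∫ y, f (true, y) ∂(fld (th j)) +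
      (1 - ((2 : ℝ) ^ j)⁻¹) * ∫ y, f (false, y) ∂(fld 0) := by
  have i0 : ∀ (b : Bool) (t : ℝ), Integrable f ((fld t).map (Prod.mk b)) := by
    intro b t
    have : IsFiniteMeasure ((fld t).map (Prod.mk b : (ℕ → Bool) → B0)) := by infer_instance
    exact Integrable.of_bound hf.aestronglyMeasurable C (ae_of_all _ fun y => hC y)
  unfold blk
  rw [integral_add_measure ((i0 _ _).smul_measure ENNReal.ofReal_ne_top) ((i0 _ _).smul_measure ENNReal.ofReal_ne_top),
    integral_smul_measure, integral_smul_measure, integral_map (mk_meas _).aemeasurable hf.aestronglyMeasurable,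
    integral_map (mk_meas _).aemeasurable hf.aestronglyMeasurable, ENNReal.toReal_ofReal (inv_pos' j).le,
    ENNReal.toReal_ofReal (by linarith [inv_le' j])]
  rfl

/-- the random density of one block and one gap -/
noncomputable def G (j h : ℕ) (x : B0) (i : ℕ) : ℝ := if x.1 then 2 ^ j * g1 h x.2 i else g0 h x.2 i

theorem sg_bd (b : Bool) : -1 ≤ sg b ∧ sg b ≤ 1 := by
  cases b <;> simp [sg]

theorem g1_bd (h : ℕ) (y : ℕ → Bool) (i : ℕ) : 0 ≤ g1 h y i ∧ g1 h y i ≤ 2 := by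
  unfold g1
  have h1 : |sg (y i) * sg (y (i + h))| = 1 := by rw [abs_mul, sg_abs, sg_abs, one_mul]
  have h2 := abs_le.1 h1.le
  constructor <;> linarith

theorem g0_bd (h : ℕ) (y : ℕ → Bool) (i : ℕ) : 0 ≤ g0 h y i ∧ g0 h y i ≤ 4 := by
  unfold g0
  have h1 := sg_bd (y i)
  have h2 := sg_bd (y (i + h))
  constructor
  · exact mul_nonneg (by linarith) (by linarith)
  · nlinarith

theorem G_bd (j h : ℕ) (x : B0) (i : ℕ) : 0 ≤ G j h x i ∧ G j h x i ≤ 2 ^ (j + 2) := by
  unfold G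
  have h1 := g1_bd h x.2 i
  have h2 := g0_bd h x.2 i
  have h3 : (1 : ℝ) ≤ 2 ^ j := one_le_pow₀ (by norm_num)
  rw [pow_add]
  split_ifs
  · constructor
    · exact mul_nonneg (by linarith) h1.1
    · nlinarith
  · constructor
    · exact h2.1
    · nlinarith

theorem G_meas (j h i : ℕ) : Measurable fun x : B0 => G j h x i := by
  unfold G g1 g0
  have hs : Measurable sg := measurable_of_countable sg
  have hc : ∀ i : ℕ, Measurable fun x : B0 => sg (x.2 i) := fun i =>
    hs.comp ((measurable_pi_apply i).comp measurable_snd)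
  refine Measurable.ite (measurable_fst (measurableSet_singleton true)) ?_ ?_
  · exact (measurable_const.sub ((hc i).mul (hc (i + h)))).const_mul _
  · exact (measurable_const.add (hc i)).mul (measurable_const.sub (hc (i + h)))

theorem prodG_bd (j h : ℕ) (S : Finset ℕ) (x : B0) : |∏ i ∈ S, G j h x i| ≤ (2 ^ (j + 2)) ^ S.card := by
  rw [abs_of_nonneg (prod_nonneg fun i _ => (G_bd j h x i).1)]
  exact (prod_le_prod (fun i _ => (G_bd j h x i).1) (fun i _ => (G_bd j h x i).2)).trans (le_of_eq (by rw [prod_const]))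

/-- **the density is independent of order three** -/
theorem key (j h : ℕ) (hh : 1 ≤ h) (S : Finset ℕ) (h3 : S.card ≤ 3) : ∫ x, ∏ i ∈ S, G j h x i ∂(blk j) = 1 := by
  rw [int_blk j _ (Finset.measurable_fun_prod _ fun i _ => G_meas j h i) _ (prodG_bd j h S)]
  have e1 : ∀ y : ℕ → Bool, ∏ i ∈ S, G j h (true, y) i = ((2 : ℝ) ^ j) ^ S.card * ∏ i ∈ S, g1 h y i := by
    intro y
    unfold G
    simp only [if_true]
    rw [prod_mul_distrib, prod_const]
  have e0 : ∀ y : ℕ → Bool, ∏ i ∈ S, G j h (false, y) i = ∏ i ∈ S, g0 h y i := by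
    intro y
    unfold G
    simp
  simp_rw [e1, e0]
  rw [integral_const_mul]
  have hp : (2 : ℝ) ^ j ≠ 0 := by positivity
  by_cases hS : adj h S
  · rw [E1_adj (th_nonneg j) (th_le j) h hh S hS h3, E0_adj h hh S hS, th_sq, mul_zero, add_zero]
    have hc : 1 ≤ S.card := by
      obtain ⟨k, hk, _⟩ := hS
      exact card_pos.2 ⟨k, hk⟩
    obtain ⟨c, hc⟩ : ∃ c, S.card = c + 1 := ⟨S.card - 1, by omega⟩
    rw [hc, Nat.add_sub_cancel, pow_succ, inv_pow]
    field_simp
  · rw [E1_nadj (th_nonneg j) (th_le j) h S hS, E0_nadj h S hS, th_sq, ← mul_pow, mul_inv_cancel₀ hp, one_pow]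
    ring

/-! ### the global space -/

/-- index `(h, j)`: gap and block -/
abbrev Om1 := ℕ × ℕ → B0

noncomputable def P1 : Measure Om1 := Measure.infinitePi fun a => blk a.2

instance : IsProbabilityMeasure P1 := by
  unfold P1
  infer_instance

/-- the block of `i` -/
def J (i : ℕ) : ℕ := Nat.sqrt (Nat.log 2 (Nat.log 3 i)) - 1

theorem J_mono : Monotone J := by
  intro a b hab
  unfold J
  apply Nat.sub_le_sub_right
  apply Nat.sqrt_le_sqrt
  exact Nat.log_mono_right (Nat.log_mono_right hab)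

theorem J_le (i : ℕ) (hi : 3 ≤ i) : (2 : ℝ) ^ (J i * (J i + 2)) ≤ Real.log i := by
  obtain ⟨L, hL⟩ : ∃ L, L = Nat.log 2 (Nat.log 3 i) := ⟨_, rfl⟩
  have h1 : J i * (J i + 2) ≤ L := by
    unfold J
    rw [← hL]
    have hs : Nat.sqrt L * Nat.sqrt L ≤ L := Nat.sqrt_le L
    rcases Nat.eq_zero_or_pos (Nat.sqrt L) with h0 | h0
    · rw [h0]; simp
    · obtain ⟨s, hs2⟩ : ∃ s, Nat.sqrt L = s + 1 := ⟨Nat.sqrt L - 1, by omega⟩
      rw [hs2] at hs ⊢
      rw [Nat.add_sub_cancel]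
      nlinarith
  have h2 : 1 ≤ Nat.log 3 i := Nat.log_pos (by norm_num) hi
  have h3 : 2 ^ L ≤ Nat.log 3 i := by
    rw [hL]
    exact Nat.pow_log_le_self 2 (by omega)
  have h4 : (3 : ℕ) ^ Nat.log 3 i ≤ i := Nat.pow_log_le_self 3 (by omega)
  have h5 : (Nat.log 3 i : ℝ) ≤ Real.log i := by
    have h6 : Real.log ((3 : ℝ) ^ Nat.log 3 i) ≤ Real.log i := Real.log_le_log (by positivity) (by exact_mod_cast h4)
    rw [Real.log_pow] at h6
    have h7 : 1 ≤ Real.log 3 := by
      rw [Real.le_log_iff_exp_le (by norm_num)]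
      linarith [Real.exp_one_lt_three]
    have h8 : (0 : ℝ) ≤ Nat.log 3 i := Nat.cast_nonneg _
    nlinarith
  calc (2 : ℝ) ^ (J i * (J i + 2)) ≤ 2 ^ L := pow_le_pow_right₀ (by norm_num) h1
    _ ≤ (Nat.log 3 i : ℝ) := by exact_mod_cast h3
    _ ≤ _ := h5

theorem J_tendsto : Tendsto J atTop atTop := by
  rw [tendsto_atTop]
  intro b
  filter_upwards [eventually_ge_atTop (3 ^ (2 ^ ((b + 1) * (b + 1))))] with i hi
  unfold J
  have h1 : 2 ^ ((b + 1) * (b + 1)) ≤ Nat.log 3 i := Nat.le_log_of_pow_le (by norm_num) hi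
  have h2 : (b + 1) * (b + 1) ≤ Nat.log 2 (Nat.log 3 i) := Nat.le_log_of_pow_le (by norm_num) h1
  have h3 : b + 1 ≤ Nat.sqrt (Nat.log 2 (Nat.log 3 i)) := Nat.le_sqrt.2 h2
  omega

/-- the random density -/
noncomputable def GG (ω : Om1) (i : ℕ) : ℝ := ∏ h ∈ Icc 1 (J i), G (J i) h (ω (h, J i)) i

theorem GG_nonneg (ω : Om1) (i : ℕ) : 0 ≤ GG ω i := prod_nonneg fun h _ => (G_bd _ _ _ _).1

theorem GG_le (ω : Om1) (i : ℕ) (hi : 3 ≤ i) : GG ω i ≤ Real.log i := by
  refine le_trans ?_ (J_le i hi)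
  unfold GG
  refine (prod_le_prod (fun _ _ => (G_bd _ _ _ _).1) (fun _ _ => (G_bd _ _ _ _).2)).trans (le_of_eq ?_)
  rw [prod_const, Nat.card_Icc, ← pow_mul]
  congr 1
  rw [Nat.add_sub_cancel, mul_comm]

theorem GG_meas (i : ℕ) : Measurable fun ω : Om1 => GG ω i := by
  unfold GG
  exact Finset.measurable_fun_prod _ fun h _ => (G_meas _ _ _).comp (measurable_pi_apply _)

theorem E_GG (S : Finset ℕ) (h3 : S.card ≤ 3) : ∫ ω, ∏ i ∈ S, GG ω i ∂P1 = 1 := by
  obtain ⟨K, hK⟩ : ∃ K, K = S.sup J := ⟨_, rfl⟩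
  have hJK : ∀ i ∈ S, J i ≤ K := fun i hi => by rw [hK]; exact le_sup hi
  obtain ⟨F, hF⟩ : ∃ F : (a : ℕ × ℕ) → B0 → ℝ, F = fun a x => ∏ i ∈ S.filter (fun i => J i = a.2),
    if a.1 ≤ a.2 then G a.2 a.1 x i else 1 := ⟨_, rfl⟩
  have e1 : ∀ ω : Om1, ∏ i ∈ S, GG ω i = ∏ a ∈ Icc 1 K ×ˢ S.image J, F a (ω a) := by
    intro ω
    rw [prod_product, hF]
    simp only
    have e2 : ∀ h ∈ Icc 1 K, ∏ j ∈ S.image J, ∏ i ∈ S.filter (fun i => J i = j),
        (if h ≤ j then G j h (ω (h, j)) i else 1) = ∏ i ∈ S, if h ≤ J i then G (J i) h (ω (h, J i)) i else 1 := by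
      intro h _
      rw [← prod_fiberwise_of_maps_to (s := S) (t := S.image J) (g := J) (fun i hi => mem_image_of_mem J hi)]
      refine prod_congr rfl fun j _ => prod_congr rfl fun i hi => ?_
      rw [mem_filter] at hi
      rw [hi.2]
    rw [Finset.prod_congr rfl e2, Finset.prod_comm]
    refine prod_congr rfl fun i hi => ?_
    unfold GG
    rw [← prod_filter]
    refine prod_congr ?_ fun _ _ => rfl
    ext h
    have := hJK i hi
    simp only [mem_Icc, mem_filter]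
    omega
  simp_rw [e1]
  unfold P1
  rw [int_prod (fun a : ℕ × ℕ => blk a.2) (Icc 1 K ×ˢ S.image J) F]
  · refine prod_eq_one fun a ha => ?_
    rw [mem_product, mem_Icc] at ha
    rw [hF]
    simp only
    by_cases hc : a.1 ≤ a.2
    · simp only [hc, if_true]
      exact key a.2 a.1 ha.1.1 _ ((card_filter_le _ _).trans h3)
    · simp [hc]
  · intro a _
    rw [hF]
    refine Finset.measurable_fun_prod _ fun i _ => ?_
    split_ifs
    · exact G_meas _ _ _
    · exact measurable_const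

end Pool.Agent.H49.TW
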