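import Pool.Agent.H49.D.TC

set_option autoImplicit false

/-! Pairs in random sets, order three: the model. -/

namespace Pool.Agent.H49.TW

open Finset MeasureTheory Filter Topology
open scoped ENNReal

abbrev Om := Om1 × (ℕ → unitInterval)

noncomputable def P2 : Measure (ℕ → unitInterval) := Measure.infinitePi fun _ => volume

instance : IsProbabilityMeasure P2 := by
  unfold P2
  infer_instance

noncomputable def P : Measure Om := P1.prod P2

instance : IsProbabilityMeasure P := by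
  unfold P
  infer_instance

/-- the event `m ∈ A` -/
def E (m : ℕ) : Set Om := {ω | ((ω.2 m : unitInterval) : ℝ) < (Real.log m)⁻¹ * GG ω.1 m}

theorem E_meas (m : ℕ) : MeasurableSet (E m) := by
  unfold E
  apply measurableSet_lt
  · exact measurable_subtype_coe.comp ((measurable_pi_apply m).comp measurable_snd)
  · exact ((GG_meas m).comp measurable_fst).const_mul _

theorem vol_lt (c : ℝ) (h0 : 0 ≤ c) (h1 : c ≤ 1) :
    volume {b : unitInterval | (b : ℝ) < c} = ENNReal.ofReal c := by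
  have h2 := unitInterval.volume_Iio (⟨c, h0, h1⟩ : unitInterval)
  have e : Set.Iio (⟨c, h0, h1⟩ : unitInterval) = {b : unitInterval | (b : ℝ) < c} := by
    ext b
    rw [Set.mem_Iio, ← Subtype.coe_lt_coe]
    rfl
  rw [e] at h2
  exact h2

theorem log_pos' (m : ℕ) (hm : 3 ≤ m) : 0 < Real.log m := by
  apply Real.log_pos
  exact_mod_cast (by omega : 1 < m)

theorem order3 (T : Finset ℕ) (hT : ∀ m ∈ T, 3 ≤ m) (h3 : T.card ≤ 3) :
    P (⋂ m ∈ T, E m) = ENNReal.ofReal (∏ m ∈ T, (Real.log m)⁻¹) := by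
  have hmeas : MeasurableSet (⋂ m ∈ T, E m) := T.measurableSet_biInter fun m _ => E_meas m
  unfold P
  rw [Measure.prod_apply hmeas]
  have hc : ∀ ω : Om1, ∀ m ∈ T, 0 ≤ (Real.log m)⁻¹ * GG ω m ∧ (Real.log m)⁻¹ * GG ω m ≤ 1 := by
    intro ω m hm
    have h4 := log_pos' m (hT m hm)
    refine ⟨mul_nonneg (inv_nonneg.2 h4.le) (GG_nonneg ω m), ?_⟩
    rw [inv_mul_le_iff₀ h4, mul_one]
    exact GG_le ω m (hT m hm)
  have e1 : ∀ ω : Om1, P2 (Prod.mk ω ⁻¹' ⋂ m ∈ T, E m) = ENNReal.ofReal (∏ m ∈ T, ((Real.log m)⁻¹ * GG ω m)) := by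
    intro ω
    have e2 : (Prod.mk ω ⁻¹' ⋂ m ∈ T, E m) =
        Set.pi (T : Set ℕ) fun m => {b : unitInterval | (b : ℝ) < (Real.log m)⁻¹ * GG ω m} := by
      ext b
      simp only [Set.mem_preimage, Set.mem_iInter, Set.mem_pi, Finset.mem_coe, E, Set.mem_ofPred_eq]
    rw [e2]
    unfold P2
    rw [Measure.infinitePi_pi _ fun m _ => measurableSet_lt measurable_subtype_coe measurable_const,
      ENNReal.ofReal_prod_of_nonneg fun m hm => (hc ω m hm).1]
    exact prod_congr rfl fun m hm => vol_lt _ (hc ω m hm).1 (hc ω m hm).2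
  rw [lintegral_congr e1, ← ofReal_integral_eq_lintegral_ofReal]
  · congr 1
    simp_rw [prod_mul_distrib]
    rw [integral_const_mul, E_GG T h3, mul_one]
  · refine Integrable.of_bound (Finset.measurable_fun_prod _ fun m _ => (GG_meas m).const_mul _).aestronglyMeasurable 1
      (ae_of_all _ fun ω => ?_)
    rw [Real.norm_eq_abs, abs_of_nonneg (prod_nonneg fun m hm => (hc ω m hm).1)]
    exact prod_le_one (fun m hm => (hc ω m hm).1) (fun m hm => (hc ω m hm).2)
  · exact ae_of_all _ fun ω => prod_nonneg fun m hm => (hc ω m hm).1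

theorem modes (h : ℕ) : ∀ᵐ ω ∂P1, ∀ᶠ j in atTop, (ω (h, j)).1 = false := by
  obtain ⟨t, ht⟩ : ∃ t : ℕ → Set Om1, t = fun j => {ω | (ω (h, j)).1 = true} := ⟨_, rfl⟩
  have h1 : ∀ j, P1 (t j) = ENNReal.ofReal ((1 / 2 : ℝ) ^ j) := by
    intro j
    have e : t j = Set.pi (({(h, j)} : Finset (ℕ × ℕ)) : Set (ℕ × ℕ)) fun _ => {x : B0 | x.1 = true} := by
      rw [ht]
      ext ω
      simp
    rw [e]
    unfold P1
    have hm : MeasurableSet {x : B0 | x.1 = true} := measurable_fst (measurableSet_singleton true)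
    rw [Measure.infinitePi_pi _ fun a _ => hm, prod_singleton, blk_true]
    congr 1
    rw [one_div, inv_pow]
  have h2 : ∑' j, P1 (t j) ≠ ∞ := by
    simp_rw [h1]
    have hs : Summable fun j : ℕ => (1 / 2 : ℝ) ^ j := summable_geometric_of_lt_one (by norm_num) (by norm_num)
    exact hs.tsum_ofReal_ne_top
  filter_upwards [ae_eventually_notMem h2] with ω hω
  filter_upwards [hω] with j hj
  rw [ht] at hj
  simpa using hj

theorem bd_card (h j : ℕ) (u : Finset ℕ) : (u.filter fun m => J m = j ∧ J (m + h) ≠ j).card ≤ h := by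
  obtain ⟨s, hs⟩ : ∃ s, s = u.filter fun m => J m = j ∧ J (m + h) ≠ j := ⟨_, rfl⟩
  rw [← hs]
  rcases s.eq_empty_or_nonempty with h0 | h0
  · rw [h0]; simp
  · have h1 := s.min'_mem h0
    obtain ⟨a, ha⟩ : ∃ a, a = s.min' h0 := ⟨_, rfl⟩
    have hmin : ∀ m ∈ s, a ≤ m := fun m hm => by rw [ha]; exact s.min'_le m hm
    rw [← ha] at h1
    have h2 : s ⊆ Ico a (a + h) := by
      intro m hm
      rw [mem_Ico]
      refine ⟨hmin m hm, ?_⟩
      by_contra hc
      push Not at hc
      rw [hs, mem_filter] at h1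
      have h3 : J (a + h) ≤ J m := J_mono hc
      have h4 : J a ≤ J (a + h) := J_mono (Nat.le_add_right _ _)
      rw [hs, mem_filter] at hm
      obtain ⟨_, h5, h6⟩ := h1
      obtain ⟨_, h7, _⟩ := hm
      omega
    calc s.card ≤ (Ico a (a + h)).card := card_le_card h2
      _ = h := by rw [Nat.card_Ico]; omega

theorem bd_sum (h : ℕ) : Summable fun m : ℕ => if J (m + h) ≠ J m then ((1 : ℝ) / 2) ^ J m else 0 := by
  have hs : Summable fun j : ℕ => (h : ℝ) * (1 / 2 : ℝ) ^ j :=
    (summable_geometric_of_lt_one (by norm_num) (by norm_num)).mul_left _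
  apply summable_of_sum_le (c := ∑' j : ℕ, (h : ℝ) * (1 / 2 : ℝ) ^ j)
  · intro m
    simp only
    split_ifs <;> positivity
  · intro u
    rw [← sum_fiberwise_of_maps_to (s := u) (t := u.image J) (g := J) (fun i hi => mem_image_of_mem J hi)]
    refine le_trans (sum_le_sum fun j _ => ?_) (hs.sum_le_tsum (u.image J) fun j _ => by positivity)
    have e : ∑ m ∈ u.filter (fun m => J m = j), (if J (m + h) ≠ J m then ((1 : ℝ) / 2) ^ J m else 0) =
        ∑ m ∈ u.filter (fun m => J m = j ∧ J (m + h) ≠ j), ((1 : ℝ) / 2) ^ j := by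
      rw [← filter_filter, sum_filter (s := u.filter fun m => J m = j)]
      refine sum_congr rfl fun m hm => ?_
      rw [mem_filter] at hm
      rw [hm.2]
    rw [e, sum_const, nsmul_eq_mul]
    exact mul_le_mul_of_nonneg_right (by exact_mod_cast bd_card h j u) (by positivity)

theorem bdry (h : ℕ) : ∀ᵐ ω ∂P, ∀ᶠ m in atTop, ¬ (J (m + h) ≠ J m ∧ ω ∈ E m) := by
  obtain ⟨t, ht⟩ : ∃ t : ℕ → Set Om, t = fun m => {ω | J (m + 3 + h) ≠ J (m + 3) ∧ ω ∈ E (m + 3)} := ⟨_, rfl⟩
  have h1 : ∀ m, P (t m) ≤ ENNReal.ofReal (if J (m + 3 + h) ≠ J (m + 3) then ((1 : ℝ) / 2) ^ J (m + 3) else 0) := by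
    intro m
    rw [ht]
    by_cases hc : J (m + 3 + h) ≠ J (m + 3)
    · simp only [hc, ne_eq, not_false_eq_true, true_and, if_true]
      have h2 := order3 {m + 3} (by simp) (by simp)
      simp only [mem_singleton, Set.iInter_iInter_eq_left, prod_singleton] at h2
      have e : {ω | ω ∈ E (m + 3)} = E (m + 3) := rfl
      rw [e, h2]
      apply ENNReal.ofReal_le_ofReal
      have h3 := J_le (m + 3) (by omega)
      rw [one_div, inv_pow]
      apply inv_anti₀ (by positivity)
      refine le_trans (pow_le_pow_right₀ (by norm_num) ?_) h3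
      nlinarith
    · have e : {ω : Om | J (m + 3 + h) ≠ J (m + 3) ∧ ω ∈ E (m + 3)} = ∅ := by
        ext ω
        simp only [Set.mem_ofPred_eq, Set.mem_empty_iff_false, iff_false]
        exact fun hh => hc hh.1
      simp only
      rw [e]
      simp
  have h2 : ∑' m, P (t m) ≠ ∞ := by
    have hs := (summable_nat_add_iff 3).2 (bd_sum h)
    refine ne_top_of_le_ne_top hs.tsum_ofReal_ne_top (ENNReal.tsum_le_tsum fun m => ?_)
    exact h1 m
  filter_upwards [ae_eventually_notMem h2] with ω hω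
  obtain ⟨M, hM⟩ := eventually_atTop.1 hω
  filter_upwards [eventually_ge_atTop (M + 3)] with m hm
  have h3 := hM (m - 3) (by omega)
  have e : m - 3 + 3 = m := by omega
  rw [ht] at h3
  simp only [Set.mem_ofPred_eq, e] at h3
  exact h3

theorem GG_factor (ω : Om) (m h j : ℕ) (hj : J m = j) (hh : 1 ≤ h) (hhj : h ≤ j) (hE : ω ∈ E m) :
    G j h (ω.1 (h, j)) m ≠ 0 := by
  intro h0
  have h1 : GG ω.1 m = 0 := by
    unfold GG
    apply prod_eq_zero (i := h)
    · rw [mem_Icc]; omega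
    · rw [hj]; exact h0
  unfold E at hE
  rw [Set.mem_ofPred_eq, h1, mul_zero] at hE
  have := (ω.2 m).2.1
  linarith

/-- **almost surely the gaps tend to infinity** -/
theorem no_pairs (h : ℕ) (hh : 1 ≤ h) : ∀ᵐ ω ∂P, {m | ω ∈ E m ∧ ω ∈ E (m + h)}.Finite := by
  have h1 : ∀ᵐ ω ∂P, ∀ᶠ j in atTop, (ω.1 (h, j)).1 = false := by
    unfold P
    exact Measure.quasiMeasurePreserving_fst.ae (modes h)
  filter_upwards [h1, bdry h] with ω hω1 hω2
  obtain ⟨M, hM⟩ := eventually_atTop.1 ((J_tendsto.eventually hω1).and (hω2.and (J_tendsto.eventually (eventually_ge_atTop h))))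
  apply (Set.finite_lt_nat M).subset
  intro m hm
  rw [Set.mem_ofPred_eq] at hm ⊢
  by_contra hc
  push Not at hc
  obtain ⟨a1, a2, a3⟩ := hM m hc
  have a4 : J (m + h) = J m := by
    by_contra h5
    exact a2 ⟨h5, hm.1⟩
  have b1 := GG_factor ω m h (J m) rfl hh a3 hm.1
  have b2 := GG_factor ω (m + h) h (J m) a4 hh a3 hm.2
  unfold G at b1 b2
  rw [a1] at b1 b2
  simp only [Bool.false_eq_true, if_false] at b1 b2
  exact mul_ne_zero b1 b2 (g0_adj h _ m)

end Pool.Agent.H49.TW
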