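import Pool.Agent.H49.D.TE

set_option autoImplicit false

/-! Pairs in random sets, order four: short intervals. -/

namespace Pool.Agent.H49.TW

open Finset MeasureTheory Filter Topology
open scoped ENNReal

/-- `m` with `n ^ a < m` and `m + h < (n + 1) ^ a` -/
noncomputable def Iv (a : ℝ) (h n : ℕ) : Finset ℕ :=
  (range ⌈((n : ℝ) + 1) ^ a⌉₊).filter fun m => (n : ℝ) ^ a < m ∧ (m : ℝ) + h < ((n : ℝ) + 1) ^ a

theorem mem_Iv {a : ℝ} {h n m : ℕ} : m ∈ Iv a h n ↔ (n : ℝ) ^ a < m ∧ (m : ℝ) + h < ((n : ℝ) + 1) ^ a := by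
  unfold Iv
  rw [mem_filter, mem_range]
  constructor
  · exact fun hh => hh.2
  · intro hh
    refine ⟨?_, hh⟩
    rw [Nat.lt_ceil]
    have : (0 : ℝ) ≤ h := Nat.cast_nonneg h
    linarith [hh.2]

theorem Iv_lower (a : ℝ) (h n : ℕ) : ((n : ℝ) + 1) ^ a - (n : ℝ) ^ a - h - 1 ≤ (Iv a h n).card := by
  obtain ⟨x, hx⟩ : ∃ x : ℝ, x = (n : ℝ) ^ a := ⟨_, rfl⟩
  obtain ⟨y, hy⟩ : ∃ y : ℝ, y = ((n : ℝ) + 1) ^ a := ⟨_, rfl⟩
  have hx0 : 0 ≤ x := by rw [hx]; positivity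
  have h1 : Ioo ⌊x⌋₊ ⌈y - h⌉₊ ⊆ Iv a h n := by
    intro m hm
    rw [mem_Ioo] at hm
    rw [mem_Iv, ← hx, ← hy]
    constructor
    · exact (Nat.floor_lt hx0).1 hm.1
    · have := Nat.lt_ceil.1 hm.2
      linarith
  have h2 := card_le_card h1
  rw [Nat.card_Ioo] at h2
  have h3 : (⌊x⌋₊ : ℝ) ≤ x := Nat.floor_le hx0
  have h4 : y - h ≤ ⌈y - h⌉₊ := Nat.le_ceil _
  rw [← hx, ← hy]
  have h5 : (⌈y - h⌉₊ : ℝ) ≤ ⌊x⌋₊ + 1 + (Iv a h n).card := by
    have : ⌈y - h⌉₊ ≤ ⌊x⌋₊ + 1 + (Iv a h n).card := by omega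
    exact_mod_cast this
  linarith

theorem Iv_upper (a : ℝ) (h n : ℕ) (hmono : (n : ℝ) ^ a ≤ ((n : ℝ) + 1) ^ a) :
    ((Iv a h n).card : ℝ) ≤ ((n : ℝ) + 1) ^ a - (n : ℝ) ^ a + 1 := by
  obtain ⟨x, hx⟩ : ∃ x : ℝ, x = (n : ℝ) ^ a := ⟨_, rfl⟩
  obtain ⟨y, hy⟩ : ∃ y : ℝ, y = ((n : ℝ) + 1) ^ a := ⟨_, rfl⟩
  rw [← hx, ← hy] at hmono ⊢
  have hx0 : 0 ≤ x := by rw [hx]; positivity
  have h1 : Iv a h n ⊆ Ioc ⌊x⌋₊ ⌊y⌋₊ := by
    intro m hm
    rw [mem_Iv, ← hx, ← hy] at hm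
    rw [mem_Ioc]
    constructor
    · exact (Nat.floor_lt hx0).2 hm.1
    · apply Nat.le_floor
      have : (0 : ℝ) ≤ h := Nat.cast_nonneg h
      linarith [hm.2]
  have h2 := card_le_card h1
  rw [Nat.card_Ioc] at h2
  have h3 : x < ⌊x⌋₊ + 1 := Nat.lt_floor_add_one x
  have h4 : (⌊y⌋₊ : ℝ) ≤ y := Nat.floor_le (by linarith)
  have h5 : ⌊x⌋₊ ≤ ⌊y⌋₊ := Nat.floor_mono hmono
  have h6 : ((Iv a h n).card : ℝ) ≤ (⌊y⌋₊ : ℝ) - ⌊x⌋₊ := by
    rw [← Nat.cast_sub h5]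
    exact_mod_cast h2
  linarith

theorem t_pow_atTop {s : ℝ} (hs : 0 < s) : Tendsto (fun n : ℕ => (n : ℝ) ^ s) atTop atTop :=
  (tendsto_rpow_atTop hs).comp tendsto_natCast_atTop_atTop

/-- the length of the interval -/
theorem t_len {a : ℝ} : Tendsto (fun n : ℕ => (((n : ℝ) + 1) ^ a - (n : ℝ) ^ a) / (n : ℝ) ^ (a - 1)) atTop (𝓝 a) := by
  have h1 : HasDerivAt (fun x : ℝ => x ^ a) (a * (1 : ℝ) ^ (a - 1)) 1 := Real.hasDerivAt_rpow_const (Or.inl one_ne_zero)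
  rw [Real.one_rpow, mul_one, hasDerivAt_iff_tendsto_slope_zero] at h1
  have h2 : Tendsto (fun n : ℕ => ((n : ℝ))⁻¹) atTop (𝓝[≠] 0) := by
    rw [tendsto_nhdsWithin_iff]
    refine ⟨tendsto_inv_atTop_zero.comp tendsto_natCast_atTop_atTop, ?_⟩
    filter_upwards [eventually_gt_atTop 0] with n hn
    rw [Set.mem_compl_iff, Set.mem_singleton_iff]
    positivity
  refine (h1.comp h2).congr' ?_
  filter_upwards [eventually_gt_atTop 0] with n hn
  have hn0 : (0 : ℝ) < n := by exact_mod_cast hn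
  simp only [Function.comp, inv_inv, smul_eq_mul, Real.one_rpow]
  have e1 : (1 : ℝ) + (n : ℝ)⁻¹ = ((n : ℝ) + 1) / n := by field_simp
  rw [e1, Real.div_rpow (by positivity) hn0.le, Real.rpow_sub_one hn0.ne']
  have : (n : ℝ) ^ a ≠ 0 := (Real.rpow_pos_of_pos hn0 a).ne'
  field_simp

theorem t_log_succ : Tendsto (fun n : ℕ => Real.log n / Real.log ((n : ℝ) + 1)) atTop (𝓝 1) := by
  have h0 : Tendsto (fun N : ℕ => Real.log N) atTop atTop := Real.tendsto_log_atTop.comp tendsto_natCast_atTop_atTop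
  have h1 : Tendsto (fun n : ℕ => Real.log (1 + (n : ℝ)⁻¹) * (Real.log n)⁻¹ + 1) atTop (𝓝 1) := by
    have h2 : Tendsto (fun n : ℕ => 1 + (n : ℝ)⁻¹) atTop (𝓝 (1 + 0)) :=
      (tendsto_inv_atTop_zero.comp tendsto_natCast_atTop_atTop).const_add 1
    rw [add_zero] at h2
    have h3 := (Real.continuousAt_log one_ne_zero).tendsto.comp h2
    rw [Real.log_one] at h3
    have h4 := (h3.mul (tendsto_inv_atTop_zero.comp h0)).add_const 1
    rw [zero_mul, zero_add] at h4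
    exact h4
  have h5 := h1.inv₀ one_ne_zero
  rw [inv_one] at h5
  refine h5.congr' ?_
  filter_upwards [eventually_gt_atTop 0, h0.eventually (eventually_gt_atTop 0)] with n hn hl
  have hn0 : (0 : ℝ) < n := by exact_mod_cast hn
  have e1 : (n : ℝ) + 1 = n * (1 + (n : ℝ)⁻¹) := by field_simp
  have h6 : 0 ≤ Real.log (1 + (n : ℝ)⁻¹) := Real.log_nonneg (by
    have : (0 : ℝ) < (n : ℝ)⁻¹ := by positivity
    linarith)
  rw [e1, Real.log_mul hn0.ne' (by positivity)]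
  field_simp
  rw [add_comm]

/-- the expected number of pairs -/
theorem t_la {a : ℝ} (ha : 1 < a) (h : ℕ) :
    Tendsto (fun n : ℕ => la h (Iv a h n) * (a * Real.log n ^ 2) / (n : ℝ) ^ (a - 1)) atTop (𝓝 1) := by
  have ha0 : 0 < a := by linarith
  have hinf : Tendsto (fun n : ℕ => (n : ℝ) ^ (a - 1)) atTop atTop := t_pow_atTop (by linarith)
  have hinv : Tendsto (fun n : ℕ => ((n : ℝ) ^ (a - 1))⁻¹) atTop (𝓝 0) := tendsto_inv_atTop_zero.comp hinf
  have hlo : Tendsto (fun n : ℕ => 1 / a * ((((n : ℝ) + 1) ^ a - (n : ℝ) ^ a) / (n : ℝ) ^ (a - 1) -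
      ((h : ℝ) + 1) * ((n : ℝ) ^ (a - 1))⁻¹) * (Real.log n / Real.log ((n : ℝ) + 1)) ^ 2) atTop (𝓝 1) := by
    have h1 := ((t_len (a := a)).sub (hinv.const_mul ((h : ℝ) + 1))).const_mul (1 / a)
    have h2 := h1.mul (t_log_succ.pow 2)
    have e : 1 / a * (a - ((h : ℝ) + 1) * 0) * 1 ^ 2 = 1 := by field_simp; ring
    rw [e] at h2
    exact h2
  have hup : Tendsto (fun n : ℕ => 1 / a * ((((n : ℝ) + 1) ^ a - (n : ℝ) ^ a) / (n : ℝ) ^ (a - 1) +
      ((n : ℝ) ^ (a - 1))⁻¹)) atTop (𝓝 1) := by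
    have h1 := ((t_len (a := a)).add hinv).const_mul (1 / a)
    have e : 1 / a * (a + 0) = 1 := by field_simp; ring
    rw [e] at h1
    exact h1
  refine tendsto_of_tendsto_of_tendsto_of_le_of_le' hlo hup ?_ ?_
  · filter_upwards [eventually_ge_atTop 3] with n hn
    have hn3 : (3 : ℝ) ≤ n := by exact_mod_cast hn
    have hn0 : (0 : ℝ) < n := by linarith
    have hl : 0 < Real.log n := Real.log_pos (by linarith)
    have hl1 : 0 < Real.log ((n : ℝ) + 1) := Real.log_pos (by linarith)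
    have hp : 0 < (n : ℝ) ^ (a - 1) := Real.rpow_pos_of_pos hn0 _
    have h1 : (1 / (a * Real.log ((n : ℝ) + 1))) ^ 2 * (Iv a h n).card ≤ la h (Iv a h n) := by
      unfold la
      rw [mul_comm, ← nsmul_eq_mul, ← sum_const]
      refine sum_le_sum fun m hm => ?_
      rw [mem_Iv] at hm
      have hh0 : (0 : ℝ) ≤ h := Nat.cast_nonneg h
      have hm1 : (1 : ℝ) < m := by
        have : (1 : ℝ) ≤ (n : ℝ) ^ a := Real.one_le_rpow (by linarith) ha0.le
        linarith [hm.1]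
      have b1 : Real.log m ≤ a * Real.log ((n : ℝ) + 1) := by
        rw [← Real.log_rpow (by linarith)]
        exact Real.log_le_log (by linarith) (by linarith [hm.2])
      have b2 : Real.log (m + h : ℕ) ≤ a * Real.log ((n : ℝ) + 1) := by
        rw [← Real.log_rpow (by linarith)]
        push_cast
        exact Real.log_le_log (by linarith) (by linarith [hm.2])
      have c1 : 0 < Real.log m := Real.log_pos hm1
      have c2 : 0 < Real.log (m + h : ℕ) := by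
        push_cast
        exact Real.log_pos (by linarith)
      unfold q
      rw [sq]
      exact mul_le_mul (one_div_le_one_div_of_le c1 b1) (one_div_le_one_div_of_le c2 b2) (by positivity) (by positivity)
    have h2 := Iv_lower a h n
    have h3 : (1 / (a * Real.log ((n : ℝ) + 1))) ^ 2 * (((n : ℝ) + 1) ^ a - (n : ℝ) ^ a - h - 1) ≤ la h (Iv a h n) :=
      (mul_le_mul_of_nonneg_left h2 (by positivity)).trans h1
    have e : 1 / a * ((((n : ℝ) + 1) ^ a - (n : ℝ) ^ a) / (n : ℝ) ^ (a - 1) -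
      ((h : ℝ) + 1) * ((n : ℝ) ^ (a - 1))⁻¹) * (Real.log n / Real.log ((n : ℝ) + 1)) ^ 2 =
      (1 / (a * Real.log ((n : ℝ) + 1))) ^ 2 * (((n : ℝ) + 1) ^ a - (n : ℝ) ^ a - h - 1) * (a * Real.log n ^ 2) /
        (n : ℝ) ^ (a - 1) := by
      field_simp
      ring
    rw [e]
    apply div_le_div_of_nonneg_right _ hp.le
    exact mul_le_mul_of_nonneg_right h3 (by positivity)
  · filter_upwards [eventually_ge_atTop 3] with n hn
    have hn3 : (3 : ℝ) ≤ n := by exact_mod_cast hn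
    have hn0 : (0 : ℝ) < n := by linarith
    have hl : 0 < Real.log n := Real.log_pos (by linarith)
    have hp : 0 < (n : ℝ) ^ (a - 1) := Real.rpow_pos_of_pos hn0 _
    have h1 : la h (Iv a h n) ≤ (1 / (a * Real.log n)) ^ 2 * (Iv a h n).card := by
      unfold la
      rw [mul_comm, ← nsmul_eq_mul, ← sum_const]
      refine sum_le_sum fun m hm => ?_
      rw [mem_Iv] at hm
      have hh0 : (0 : ℝ) ≤ h := Nat.cast_nonneg h
      have hna : 0 < (n : ℝ) ^ a := by positivity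
      have b1 : a * Real.log n ≤ Real.log m := by
        rw [← Real.log_rpow (by linarith)]
        exact Real.log_le_log hna hm.1.le
      have b2 : a * Real.log n ≤ Real.log (m + h : ℕ) := by
        rw [← Real.log_rpow (by linarith)]
        push_cast
        exact Real.log_le_log hna (by linarith [hm.1])
      unfold q
      rw [sq]
      exact mul_le_mul (one_div_le_one_div_of_le (by positivity) b1) (one_div_le_one_div_of_le (by positivity) b2)
        (by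
          have : 0 < Real.log (m + h : ℕ) := lt_of_lt_of_le (by positivity) b2
          positivity) (by positivity)
    have h2 := Iv_upper a h n (Real.rpow_le_rpow hn0.le (by linarith) ha0.le)
    have h3 : la h (Iv a h n) ≤ (1 / (a * Real.log n)) ^ 2 * (((n : ℝ) + 1) ^ a - (n : ℝ) ^ a + 1) :=
      h1.trans (mul_le_mul_of_nonneg_left h2 (by positivity))
    have e : 1 / a * ((((n : ℝ) + 1) ^ a - (n : ℝ) ^ a) / (n : ℝ) ^ (a - 1) + ((n : ℝ) ^ (a - 1))⁻¹) =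
      (1 / (a * Real.log n)) ^ 2 * (((n : ℝ) + 1) ^ a - (n : ℝ) ^ a + 1) * (a * Real.log n ^ 2) / (n : ℝ) ^ (a - 1) := by
      field_simp
    rw [e]
    apply div_le_div_of_nonneg_right _ hp.le
    exact mul_le_mul_of_nonneg_right h3 (by positivity)

/-- summability -/
theorem la_sum {a : ℝ} (ha : 2 < a) (h : ℕ) : Summable fun n : ℕ => (la h (Iv a h n))⁻¹ := by
  obtain ⟨δ, hδ⟩ : ∃ δ : ℝ, δ = (a - 2) / 2 := ⟨_, rfl⟩
  have hδ0 : 0 < δ := by rw [hδ]; linarith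
  have ha0 : 0 < a := by linarith
  have h1 : Tendsto (fun n : ℕ => Real.log n ^ 2 / (n : ℝ) ^ δ) atTop (𝓝 0) := by
    have h2 : (fun x : ℝ => Real.log x ^ (2 : ℝ)) =o[atTop] fun x => x ^ δ := isLittleO_log_rpow_rpow_atTop 2 hδ0
    have h3 := h2.tendsto_div_nhds_zero.comp tendsto_natCast_atTop_atTop
    refine h3.congr fun n => ?_
    simp only [Function.comp]
    norm_num
  have h2 := (t_la (by linarith : 1 < a) h).eventually (lt_mem_nhds (by norm_num : (1 / 2 : ℝ) < 1))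
  have hc : 0 < 1 / (2 * a) := by positivity
  have h3 := h1.eventually (gt_mem_nhds hc)
  have hs : Summable fun n : ℕ => ((n : ℝ) ^ (1 + δ))⁻¹ := Real.summable_nat_rpow_inv.2 (by linarith)
  refine Summable.of_norm_bounded_eventually_nat hs ?_
  filter_upwards [h2, h3, eventually_ge_atTop 3] with n b1 b2 hn
  have hn3 : (3 : ℝ) ≤ n := by exact_mod_cast hn
  have hn0 : (0 : ℝ) < n := by linarith
  have hl : 0 < Real.log n := Real.log_pos (by linarith)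
  have hp : 0 < (n : ℝ) ^ (a - 1) := Real.rpow_pos_of_pos hn0 _
  have hpd : 0 < (n : ℝ) ^ δ := Real.rpow_pos_of_pos hn0 _
  have e1 : (n : ℝ) ^ (a - 1) = (n : ℝ) ^ (1 + δ) * (n : ℝ) ^ δ := by
    rw [← Real.rpow_add hn0]
    congr 1
    rw [hδ]
    ring
  have hp1 : 0 < (n : ℝ) ^ (1 + δ) := Real.rpow_pos_of_pos hn0 _
  rw [lt_div_iff₀ hp] at b1
  rw [div_lt_iff₀ hpd] at b2
  have hla : 0 < la h (Iv a h n) := by
    by_contra hneg
    push Not at hneg
    have : la h (Iv a h n) * (a * Real.log n ^ 2) ≤ 0 := mul_nonpos_of_nonpos_of_nonneg hneg (by positivity)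
    nlinarith
  rw [Real.norm_eq_abs, abs_of_pos (inv_pos.2 hla)]
  apply inv_anti₀ hp1
  -- `n ^ (1 + δ) ≤ la`
  have h5 : a * Real.log n ^ 2 ≤ 1 / 2 * (n : ℝ) ^ δ := by
    have := mul_le_mul_of_nonneg_left b2.le ha0.le
    have e2 : a * (1 / (2 * a) * (n : ℝ) ^ δ) = 1 / 2 * (n : ℝ) ^ δ := by field_simp
    linarith
  have h6 : 1 / 2 * ((n : ℝ) ^ (1 + δ) * (n : ℝ) ^ δ) < la h (Iv a h n) * (1 / 2 * (n : ℝ) ^ δ) := by
    rw [← e1]
    exact b1.trans_le (mul_le_mul_of_nonneg_left h5 hla.le)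
  nlinarith

variable {Ω : Type} [MeasurableSpace Ω] {μ : Measure Ω} [IsProbabilityMeasure μ] {A : ℕ → Set Ω}

omit [MeasurableSpace Ω] in
theorem TT_ncard (A : ℕ → Set Ω) (a : ℝ) (h n : ℕ) (ω : Ω) : TT A h (Iv a h n) ω =
    (Set.ncard {m : ℕ | (n : ℝ) ^ a < m ∧ (m : ℝ) + h < ((n : ℝ) + 1) ^ a ∧ ω ∈ A m ∧ ω ∈ A (m + h)} : ℝ) := by
  classical
  have e1 : {m : ℕ | (n : ℝ) ^ a < m ∧ (m : ℝ) + h < ((n : ℝ) + 1) ^ a ∧ ω ∈ A m ∧ ω ∈ A (m + h)} =
      (((Iv a h n).filter fun m => ω ∈ Q A h m : Finset ℕ) : Set ℕ) := by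
    ext m
    rw [Finset.mem_coe, mem_filter, mem_Iv]
    simp only [Q, Set.mem_ofPred_eq, Set.mem_inter_iff, and_assoc]
  rw [e1, Set.ncard_coe_finset]
  unfold TT
  simp only [Set.indicator_apply, Pi.one_apply]
  rw [sum_boole]

/-- **order four forces the pairs in short intervals** -/
theorem pairs (hA : Model 4 μ A) {a : ℝ} (ha : 2 < a) : ∀ᵐ ω ∂μ, ∀ h : ℕ, 1 ≤ h →
    Tendsto (fun n : ℕ => (Set.ncard {m : ℕ | (n : ℝ) ^ a < m ∧ (m : ℝ) + h < ((n : ℝ) + 1) ^ a ∧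
      ω ∈ A m ∧ ω ∈ A (m + h)} : ℝ) * (a * Real.log n ^ 2) / (n : ℝ) ^ (a - 1)) atTop (𝓝 1) := by
  rw [ae_all_iff]
  intro h
  by_cases hh : 1 ≤ h
  · have ht := t_la (by linarith : 1 < a) h
    obtain ⟨N₀, hN₀⟩ := eventually_atTop.1 ((ht.eventually (lt_mem_nhds (by norm_num : (1 / 2 : ℝ) < 1))).and
      (eventually_ge_atTop 3))
    have hI : ∀ n, ∀ m ∈ Iv a h (n + N₀), 3 ≤ m := by
      intro n m hm
      rw [mem_Iv] at hm
      have h3 := (hN₀ (n + N₀) (by omega)).2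
      have h4 : (3 : ℝ) ≤ ((n + N₀ : ℕ) : ℝ) := by exact_mod_cast h3
      have h5 : ((n + N₀ : ℕ) : ℝ) ^ (1 : ℝ) ≤ ((n + N₀ : ℕ) : ℝ) ^ a :=
        Real.rpow_le_rpow_of_exponent_le (by linarith) (by linarith)
      rw [Real.rpow_one] at h5
      have h6 : (3 : ℝ) < m := by linarith [hm.1]
      exact_mod_cast h6.le
    have hpos : ∀ n, 0 < la h (Iv a h (n + N₀)) := by
      intro n
      by_contra hneg
      push Not at hneg
      obtain ⟨h3, h4⟩ := hN₀ (n + N₀) (by omega)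
      have h5 : (3 : ℝ) ≤ ((n + N₀ : ℕ) : ℝ) := by exact_mod_cast h4
      have hp : 0 < ((n + N₀ : ℕ) : ℝ) ^ (a - 1) := Real.rpow_pos_of_pos (by linarith) _
      rw [lt_div_iff₀ hp] at h3
      have : la h (Iv a h (n + N₀)) * (a * Real.log ((n + N₀ : ℕ) : ℝ) ^ 2) ≤ 0 :=
        mul_nonpos_of_nonpos_of_nonneg hneg (by positivity)
      nlinarith
    have hs := (summable_nat_add_iff N₀).2 (la_sum ha h)
    filter_upwards [conv hA hh (fun n => Iv a h (n + N₀)) hI hpos hs] with ω hω _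
    rw [← tendsto_add_atTop_iff_nat N₀]
    have h7 := hω.mul ((tendsto_add_atTop_iff_nat N₀).2 ht)
    rw [one_mul] at h7
    refine h7.congr fun n => ?_
    rw [← TT_ncard]
    have := hpos n
    field_simp
  · exact ae_of_all _ fun ω h1 => absurd h1 hh

end Pool.Agent.H49.TW
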